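import Pool.Agent.SNL63.HazardH

/-!
# The probability that a cell of the staircase survives the first `s` removals
-/

namespace Pool.Agent.SNL63

open Pool.Agent.SN8 Finset

/-- The number of cells of the window which can still be removed before the cell `(M - 1, K - 1)`. -/
def Phi (n M K θ : ℕ) (lam : ℕ → ℕ) : ℕ :=
  ∑ i ∈ range n, (if i < M then (if M ≤ i + θ then lam i - K else 0) else lam i - (K - θ))

theorem Phi_dec_le {n M K θ i : ℕ} {lam : ℕ → ℕ} : Phi n M K θ (dec lam i) ≤ Phi n M K θ lam := by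
  unfold Phi
  refine sum_le_sum fun j _ => ?_
  have h : dec lam i j ≤ lam j := by
    by_cases hj : j = i
    · rw [hj, dec_self]
      omega
    · rw [dec_ne _ hj]
  split_ifs <;> omega

theorem Phi_dec_lt {n M K θ i : ℕ} {lam : ℕ → ℕ} (h : Shape n lam) (hi : i ∈ corners n lam)
    (hθK : θ ≤ K) (hcell : K ≤ dec lam i (M - 1)) (hV : InV M K θ lam i) :
    Phi n M K θ (dec lam i) + 1 ≤ Phi n M K θ lam := by
  have hs := shape_dec h hi
  rw [mem_corners] at hi
  refine Nat.succ_le_of_lt (sum_lt_sum (fun j _ => ?_) ⟨i, mem_range.2 hi.1, ?_⟩)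
  · have h : dec lam i j ≤ lam j := by
      by_cases hj : j = i
      · rw [hj, dec_self]
        omega
      · rw [dec_ne _ hj]
    split_ifs <;> omega
  · rw [dec_self]
    rcases hV with ⟨h1, h2⟩ | ⟨h1, h2⟩
    · rw [if_pos h2, if_pos h1, if_pos h2, if_pos h1]
      have h3 := hs.anti (show i ≤ M - 1 by omega)
      rw [dec_self] at h3
      omega
    · rw [if_neg (by omega), if_neg (by omega)]
      omega

theorem A_zero {n M K : ℕ} : ∀ (s k : ℕ) (lam : ℕ → ℕ), lam (M - 1) < K → A n M K s k lam = 0 := by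
  intro s
  induction s with
  | zero =>
    intro k lam h
    rw [A, if_neg (by omega)]
  | succ s ih =>
    intro k lam h
    rw [A]
    refine sum_eq_zero fun i _ => ih k _ ?_
    by_cases hj : M - 1 = i
    · rw [hj, dec_self]
      rw [hj] at h
      omega
    · rw [dec_ne _ hj]
      exact h

theorem A_le_aux {n M K θ : ℕ} (hMK : M + K = n) (hM : 1 ≤ M) (hK : 1 ≤ K) (h1 : 1 ≤ θ)
    (hθM : θ ≤ M) (hθK : θ ≤ K) {p : ℝ} (hp : p = θ * √((θ : ℝ) * K) / (2 * (n.choose 2 : ℝ)))
    (hp1 : 0 ≤ 1 - p) : ∀ (s k : ℕ) (lam : ℕ → ℕ), Shape n lam → (∀ i, lam i ≤ n - 1 - i) →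
      ∑ i ∈ range n, lam i = s + k → s + k ≤ n.choose 2 →
      (A n M K s k lam : ℝ) ≤ (1 - p) ^ s * 2 ^ (Phi n M K θ lam) * F n (s + k) lam := by
  intro s
  induction s with
  | zero =>
    intro k lam _ _ _ _
    rw [A, pow_zero, one_mul, Nat.zero_add]
    have h2 : (1 : ℝ) ≤ 2 ^ (Phi n M K θ lam) := one_le_pow₀ (by norm_num)
    have h3 : (0 : ℝ) ≤ F n k lam := Nat.cast_nonneg _
    split_ifs with hc
    · nlinarith
    · push_cast
      positivity
  | succ s ih =>
    intro k lam h hst hsum hN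
    rcases Nat.lt_or_ge (lam (M - 1)) K with hcell | hcell
    · rw [A_zero (s + 1) k lam hcell]
      push_cast
      positivity
    have e1 : (A n M K (s + 1) k lam : ℝ) = ∑ i ∈ corners n lam, (A n M K s k (dec lam i) : ℝ) := by
      rw [A]
      push_cast
      rfl
    have e2 : (F n (s + 1 + k) lam : ℝ) = ∑ i ∈ corners n lam, (F n (s + k) (dec lam i) : ℝ) := by
      rw [show s + 1 + k = (s + k) + 1 by omega, F]
      push_cast
      rfl
    have e3 : ∀ i ∈ corners n lam, (A n M K s k (dec lam i) : ℝ) ≤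
        (1 - p) ^ s * 2 ^ (Phi n M K θ lam) *
          ((F n (s + k) (dec lam i) : ℝ) - if InV M K θ lam i then (F n (s + k) (dec lam i) : ℝ) / 2 else 0) := by
      intro i hi
      have hF0 : (0 : ℝ) ≤ F n (s + k) (dec lam i) := Nat.cast_nonneg _
      have hdec : ∀ j, dec lam i j ≤ lam j := fun j => by
        by_cases hj : j = i
        · rw [hj, dec_self]
          omega
        · rw [dec_ne _ hj]
      have hpos : (0 : ℝ) ≤ (1 - p) ^ s := pow_nonneg hp1 s
      rcases Nat.lt_or_ge (dec lam i (M - 1)) K with hc | hc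
      · rw [A_zero s k _ hc]
        push_cast
        refine mul_nonneg (by positivity) ?_
        split_ifs <;> linarith
      · have hih := ih k (dec lam i) (shape_dec h hi) (fun j => (hdec j).trans (hst j))
          (by
            have := sum_dec hi
            omega) (by omega)
        refine hih.trans ?_
        split_ifs with hV
        · have h2 := Phi_dec_lt h hi hθK hc hV
          have h3 : (2 : ℝ) ^ (Phi n M K θ (dec lam i)) * 2 ≤ 2 ^ (Phi n M K θ lam) := by
            rw [← pow_succ]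
            exact pow_le_pow_right₀ (by norm_num) h2
          have h4 : (1 - p) ^ s * 2 ^ (Phi n M K θ (dec lam i)) * (F n (s + k) (dec lam i) : ℝ) * 2 ≤
              (1 - p) ^ s * 2 ^ (Phi n M K θ lam) * (F n (s + k) (dec lam i) : ℝ) := by
            have := mul_le_mul_of_nonneg_left h3 (mul_nonneg hpos hF0)
            nlinarith [this]
          linarith
        · rw [sub_zero]
          have h3 : (2 : ℝ) ^ (Phi n M K θ (dec lam i)) ≤ 2 ^ (Phi n M K θ lam) :=
            pow_le_pow_right₀ (by norm_num) Phi_dec_le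
          exact mul_le_mul_of_nonneg_right (mul_le_mul_of_nonneg_left h3 hpos) hF0
    rw [e1]
    refine (sum_le_sum e3).trans ?_
    rw [← mul_sum, sum_sub_distrib, ← e2, ← sum_filter, ← sum_div]
    have hz := hazard h hst hMK hM hK hcell h1 hθM hθK (k := s + k) (by omega)
    rw [show s + k + 1 = s + 1 + k by omega] at hz
    have hNpos : (0 : ℝ) < n.choose 2 := by
      have : 0 < n.choose 2 := by omega
      exact_mod_cast this
    have hS0 : (0 : ℝ) ≤ ∑ i ∈ (corners n lam).filter (InV M K θ lam), (F n (s + k) (dec lam i) : ℝ) :=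
      sum_nonneg fun _ _ => Nat.cast_nonneg _
    have hN' : ((s + k : ℕ) : ℝ) + 1 ≤ n.choose 2 := by
      have : s + k + 1 ≤ n.choose 2 := by omega
      exact_mod_cast this
    have e4 : p * F n (s + 1 + k) lam ≤
        (∑ i ∈ (corners n lam).filter (InV M K θ lam), (F n (s + k) (dec lam i) : ℝ)) / 2 := by
      rw [hp, div_mul_eq_mul_div, div_le_div_iff₀ (by positivity) (by norm_num)]
      have := mul_le_mul_of_nonneg_right hN' hS0
      nlinarith
    have hpos : (0 : ℝ) ≤ (1 - p) ^ s * 2 ^ (Phi n M K θ lam) :=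
      mul_nonneg (pow_nonneg hp1 s) (by positivity)
    have e5 := mul_le_mul_of_nonneg_left (show (F n (s + 1 + k) lam : ℝ) -
      (∑ i ∈ (corners n lam).filter (InV M K θ lam), (F n (s + k) (dec lam i) : ℝ)) / 2 ≤
        (1 - p) * F n (s + 1 + k) lam by linarith) hpos
    refine e5.trans (le_of_eq ?_)
    rw [pow_succ]
    ring

theorem Phi_stair {n M K θ : ℕ} (hMK : M + K = n) (hθM : θ ≤ M) (hθK : θ ≤ K) :
    Phi n M K θ (stair n) ≤ θ ^ 2 := by
  unfold Phi
  rw [← hMK, sum_range_add]
  have h1 : ∑ i ∈ range M, (if i < M then (if M ≤ i + θ then stair (M + K) i - K else 0) else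
      stair (M + K) i - (K - θ)) = ∑ r ∈ range θ, r := by
    rw [← sum_range_reflect]
    have : ∀ r ∈ range M, (if M - 1 - r < M then (if M ≤ M - 1 - r + θ then stair (M + K) (M - 1 - r) - K else 0)
        else stair (M + K) (M - 1 - r) - (K - θ)) = if r ∈ range θ then r else 0 := by
      intro r hr
      rw [mem_range] at hr
      rw [if_pos (by omega)]
      simp only [mem_range, stair]
      split_ifs <;> omega
    rw [sum_congr rfl this, sum_ite_mem, inter_eq_right.2 (range_subset_range.2 hθM)]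
  have h2 : ∑ x ∈ range K, (if M + x < M then (if M ≤ M + x + θ then stair (M + K) (M + x) - K else 0) else
      stair (M + K) (M + x) - (K - θ)) = ∑ r ∈ range θ, r := by
    rw [← sum_range_reflect (fun r => r) θ]
    have : ∀ r ∈ range K, (if M + r < M then (if M ≤ M + r + θ then stair (M + K) (M + r) - K else 0) else
      stair (M + K) (M + r) - (K - θ)) = if r ∈ range θ then θ - 1 - r else 0 := by
      intro r hr
      rw [mem_range] at hr
      rw [if_neg (by omega)]
      simp only [mem_range, stair]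
      split_ifs <;> omega
    rw [sum_congr rfl this, sum_ite_mem, inter_eq_right.2 (range_subset_range.2 hθK)]
  rw [h1, h2]
  have h3 := sum_range_id_mul_two θ
  have h4 : θ * (θ - 1) ≤ θ ^ 2 := by
    rw [pow_two]
    exact Nat.mul_le_mul_left _ (by omega)
  omega

/-- **The survival probability.** -/
theorem A_le {n M K θ s k : ℕ} (hMK : M + K = n) (hM : 1 ≤ M) (hK : 1 ≤ K) (h1 : 1 ≤ θ)
    (hθM : θ ≤ M) (hθK : θ ≤ K) (hsk : s + k = n.choose 2) :
    (A n M K s k (stair n) : ℝ) ≤
      (1 - θ * √((θ : ℝ) * K) / (2 * (n.choose 2 : ℝ))) ^ s * 2 ^ (θ ^ 2) *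
        F n (s + k) (stair n) := by
  have hMr : (1 : ℝ) ≤ M := by exact_mod_cast hM
  have hKr : (1 : ℝ) ≤ K := by exact_mod_cast hK
  have hθMr : (θ : ℝ) ≤ M := by exact_mod_cast hθM
  have hθKr : (θ : ℝ) ≤ K := by exact_mod_cast hθK
  have hθ1 : (1 : ℝ) ≤ θ := by exact_mod_cast h1
  have hN : (n.choose 2 : ℝ) = (M + K) * (M + K - 1) / 2 := by
    rw [Nat.cast_choose_two, ← hMK]
    push_cast
    ring
  have hN2 : (M : ℝ) * K ≤ 2 * (n.choose 2 : ℝ) := by
    rw [hN]
    nlinarith
  have hNpos : (0 : ℝ) < 2 * (n.choose 2 : ℝ) := lt_of_lt_of_le (by positivity) hN2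
  have hsq : √((θ : ℝ) * K) ≤ K := by
    rw [Real.sqrt_le_iff]
    refine ⟨by linarith, ?_⟩
    nlinarith
  have hp1 : 0 ≤ 1 - θ * √((θ : ℝ) * K) / (2 * (n.choose 2 : ℝ)) := by
    rw [sub_nonneg, div_le_one hNpos]
    refine le_trans ?_ hN2
    exact mul_le_mul hθMr hsq (Real.sqrt_nonneg _) (by linarith)
  have h := A_le_aux hMK hM hK h1 hθM hθK rfl hp1 s k (stair n) (shape_stair n) (fun i => le_refl _)
    ((sum_stair n).trans hsk.symm) hsk.le
  refine h.trans (mul_le_mul_of_nonneg_right (mul_le_mul_of_nonneg_left ?_ (pow_nonneg hp1 s)) (Nat.cast_nonneg _))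
  exact pow_le_pow_right₀ (by norm_num) (Phi_stair hMK hθM hθK)

end Pool.Agent.SNL63
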