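import Pool.Agent.SNL63.Hook

/-!
# The hook length formula for the chains of shapes, and the ratio of two staircases
-/

set_option autoImplicit false

namespace Pool.Agent.SNL63

open Pool.Agent.SN8 Finset

/-- column lengths -/
def col (n : ℕ) (lam : ℕ → ℕ) (j : ℕ) : ℕ := ((range n).filter (fun i => j < lam i)).card

/-- the hook length minus one (arm + leg) of the cell `(i,j)`; `0` exactly at the corners -/
def hm (n : ℕ) (lam : ℕ → ℕ) (i j : ℕ) : ℕ := (lam i - 1 - j) + (col n lam j - 1 - i)

/-- a shape: antitone, zero from row `n` on -/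
structure Shape (n : ℕ) (lam : ℕ → ℕ) : Prop where
  anti : Antitone lam
  zero : lam n = 0

/-- the share of the corner of row `α` -/
noncomputable def share (n : ℕ) (lam : ℕ → ℕ) (α : ℕ) : ℝ :=
  (∏ i ∈ range α, (1 + 1 / (hm n lam i (lam α - 1) : ℝ))) *
    ∏ j ∈ range (lam α - 1), (1 + 1 / (hm n lam α j : ℝ))

theorem Shape.shp {n : ℕ} {lam : ℕ → ℕ} (h : Shape n lam) : Shp n lam :=
  ⟨h.anti, fun i hi => by
    have := h.anti hi
    rw [h.zero] at this
    omega⟩

theorem Shp.shape {n : ℕ} {lam : ℕ → ℕ} (h : Shp n lam) : Shape n lam := ⟨h.anti, h.zero n le_rfl⟩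

theorem lt_iff_lt_col {n : ℕ} {lam : ℕ → ℕ} (h : Shape n lam) (i j : ℕ) : j < lam i ↔ i < col n lam j :=
  (mu_lt_iff h.shp i j).symm

/-- the share of a corner is its weight -/
theorem share_eq {n : ℕ} {lam : ℕ → ℕ} (h : Shape n lam) {c : ℕ} (hc : c ∈ corners n lam) :
    share n lam c = Wt n lam c := by
  have hmu := mu_corner h.shp hc
  have hc' := mem_corners.1 hc
  unfold share Wt
  congr 1
  · apply prod_congr rfl
    intro i hi
    rw [mem_range] at hi
    have h1 := h.anti hi.le
    have h2 : (hm n lam i (lam c - 1) : ℝ) = uu lam c i := by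
      have h3 : hm n lam i (lam c - 1) = (lam i - lam c) + (c - i) := by
        unfold hm
        have h4 : col n lam (lam c - 1) = c + 1 := hmu
        rw [h4]
        omega
      rw [h3]
      unfold uu
      push_cast [Nat.cast_sub h1, Nat.cast_sub hi.le]
      ring
    rw [h2]
  · apply prod_congr rfl
    intro j hj
    rw [mem_range] at hj
    have h1 : c < mu n lam j := by
      rw [mu_lt_iff h.shp]
      omega
    have h2 : (hm n lam c j : ℝ) = vv n lam c j := by
      have h3 : hm n lam c j + (j + c + 2) = lam c + mu n lam j := by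
        unfold hm
        have h4 : col n lam j = mu n lam j := rfl
        rw [h4]
        omega
      have h5 : (hm n lam c j : ℝ) + (j + c + 2) = lam c + mu n lam j := by exact_mod_cast h3
      unfold vv
      linarith
    rw [h2]

theorem sum_share {n : ℕ} {lam : ℕ → ℕ} (h : Shape n lam) :
    ∑ α ∈ corners n lam, share n lam α = ∑ i ∈ range n, (lam i : ℝ) := by
  rw [sum_congr rfl (fun α hα => share_eq h hα), Wt_sum h.shp]

theorem dec_self (lam : ℕ → ℕ) (α : ℕ) : dec lam α α = lam α - 1 := by simp [dec]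

theorem dec_ne (lam : ℕ → ℕ) {α i : ℕ} (h : i ≠ α) : dec lam α i = lam i := by simp [dec, h]

theorem shape_dec {n : ℕ} {lam : ℕ → ℕ} (h : Shape n lam) {α : ℕ} (hα : α ∈ corners n lam) :
    Shape n (dec lam α) := by
  rw [mem_corners] at hα
  refine ⟨?_, ?_⟩
  · apply antitone_nat_of_succ_le
    intro i
    have h1 := h.anti (Nat.le_succ i)
    by_cases h2 : i = α
    · subst h2
      rw [dec_self, dec_ne _ (by omega)]
      omega
    · rw [dec_ne _ h2]
      by_cases h3 : i + 1 = α
      · rw [h3, dec_self]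
        rw [Nat.succ_eq_add_one, h3] at h1
        omega
      · rw [dec_ne _ h3]
        exact h1
  · rw [dec_ne _ (by omega)]
    exact h.zero

theorem sum_dec {n : ℕ} {lam : ℕ → ℕ} {α : ℕ} (hα : α ∈ corners n lam) :
    ∑ i ∈ range n, dec lam α i + 1 = ∑ i ∈ range n, lam i := by
  rw [mem_corners] at hα
  rw [← add_sum_erase _ _ (mem_range.2 hα.1), ← add_sum_erase (range n) lam (mem_range.2 hα.1), dec_self,
    sum_congr rfl (fun i hi => dec_ne lam (ne_of_mem_erase hi))]
  omega

/-- the columns after the removal of a corner -/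
theorem col_dec_ne {n : ℕ} {lam : ℕ → ℕ} {α j : ℕ} (hj : j ≠ lam α - 1) : col n (dec lam α) j = col n lam j := by
  unfold col
  congr 1
  apply filter_congr
  intro i _
  by_cases h : i = α
  · rw [h, dec_self]
    omega
  · rw [dec_ne _ h]

theorem col_corner {n : ℕ} {lam : ℕ → ℕ} (h : Shape n lam) {α : ℕ} (hα : α ∈ corners n lam) :
    col n lam (lam α - 1) = α + 1 := by
  rw [mem_corners] at hα
  have h1 := (lt_iff_lt_col h α (lam α - 1)).1 (by omega)
  have h2 : ¬ α + 1 < col n lam (lam α - 1) := by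
    rw [← lt_iff_lt_col h]
    omega
  omega

theorem col_dec_corner {n : ℕ} {lam : ℕ → ℕ} (h : Shape n lam) {α : ℕ} (hα : α ∈ corners n lam) :
    col n (dec lam α) (lam α - 1) = α := by
  have h' := shape_dec h hα
  rw [mem_corners] at hα
  have h2 : ¬ α < col n (dec lam α) (lam α - 1) := by
    rw [← lt_iff_lt_col h', dec_self]
    omega
  rcases Nat.eq_zero_or_pos α with h0 | h0
  · omega
  · have h1 := (lt_iff_lt_col h' (α - 1) (lam α - 1)).1 (by
      rw [dec_ne _ (by omega)]
      have := h.anti (Nat.sub_le α 1)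
      omega)
    omega

/-- the hooks of the other cells -/
theorem hm_dec_other {n : ℕ} {lam : ℕ → ℕ} {α i j : ℕ} (hi : i ≠ α) (hj : j ≠ lam α - 1) :
    hm n (dec lam α) i j = hm n lam i j := by
  unfold hm
  rw [dec_ne _ hi, col_dec_ne hj]

/-- the hooks of the column of the corner -/
theorem hm_dec_col {n : ℕ} {lam : ℕ → ℕ} (h : Shape n lam) {α i : ℕ} (hα : α ∈ corners n lam) (hi : i < α) :
    hm n (dec lam α) i (lam α - 1) + 1 = hm n lam i (lam α - 1) := by
  unfold hm
  rw [dec_ne _ (by omega), col_dec_corner h hα, col_corner h hα]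
  omega

/-- the hooks of the row of the corner -/
theorem hm_dec_row {n : ℕ} {lam : ℕ → ℕ} {α j : ℕ} (hj : j < lam α - 1) :
    hm n (dec lam α) α j + 1 = hm n lam α j := by
  unfold hm
  rw [dec_self, col_dec_ne (by omega)]
  omega

theorem hm_corner {n : ℕ} {lam : ℕ → ℕ} (h : Shape n lam) {α : ℕ} (hα : α ∈ corners n lam) :
    hm n lam α (lam α - 1) = 0 := by
  unfold hm
  rw [col_corner h hα]
  omega

/-- the product of the hook lengths -/
noncomputable def HP (n : ℕ) (lam : ℕ → ℕ) : ℝ := ∏ i ∈ range n, ∏ j ∈ range (lam i), ((hm n lam i j : ℝ) + 1)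

theorem HP_pos (n : ℕ) (lam : ℕ → ℕ) : 0 < HP n lam := by
  apply prod_pos
  intro i _
  apply prod_pos
  intro j _
  positivity

theorem HP_dec {n : ℕ} {lam : ℕ → ℕ} (h : Shape n lam) {α : ℕ} (hα : α ∈ corners n lam) :
    HP n lam = share n lam α * HP n (dec lam α) := by
  have hα' := mem_corners.1 hα
  obtain ⟨β, hβ⟩ : ∃ β, β = lam α - 1 := ⟨_, rfl⟩
  have hlα : lam α = β + 1 := by omega
  obtain ⟨c, hc⟩ : ∃ c : ℕ → ℝ, c = fun i => if i < α then 1 + 1 / (hm n lam i β : ℝ) else
    if i = α then ∏ j ∈ range β, (1 + 1 / (hm n lam α j : ℝ)) else 1 := ⟨_, rfl⟩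
  have key : ∀ i ∈ range n, ∏ j ∈ range (lam i), ((hm n lam i j : ℝ) + 1) =
      c i * ∏ j ∈ range (dec lam α i), ((hm n (dec lam α) i j : ℝ) + 1) := by
    intro i hi
    rw [hc]
    rcases lt_trichotomy i α with h1 | h1 | h1
    · simp only [h1, if_true]
      rw [dec_ne _ (by omega)]
      have hβi : β < lam i := by
        have := h.anti h1.le
        omega
      rw [← mul_prod_erase _ _ (mem_range.2 hβi), ← mul_prod_erase (range (lam i)) _ (mem_range.2 hβi), ← mul_assoc]
      congr 1
      · have h2 := hm_dec_col h hα h1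
        rw [← hβ] at h2
        have h3 : ((hm n (dec lam α) i β : ℝ) + 1) = (hm n lam i β : ℝ) := by exact_mod_cast h2
        rw [h3]
        have h4 : (0 : ℝ) < hm n lam i β := by
          have : 0 < hm n lam i β := by omega
          exact_mod_cast this
        field_simp
      · apply prod_congr rfl
        intro j hj
        rw [hm_dec_other (by omega) (by rw [← hβ]; exact ne_of_mem_erase hj)]
    · subst h1
      simp only [lt_irrefl, if_false, if_true]
      rw [dec_self, ← hβ, hlα, prod_range_succ]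
      have h2 := hm_corner h hα
      rw [← hβ] at h2
      rw [h2, Nat.cast_zero, zero_add, mul_one, ← prod_mul_distrib]
      apply prod_congr rfl
      intro j hj
      rw [mem_range] at hj
      have h3 := hm_dec_row (n := n) (lam := lam) (α := i) (j := j) (by omega)
      have h4 : ((hm n (dec lam i) i j : ℝ) + 1) = (hm n lam i j : ℝ) := by exact_mod_cast h3
      rw [h4]
      have h5 : (0 : ℝ) < hm n lam i j := by
        have : 0 < hm n lam i j := by omega
        exact_mod_cast this
      field_simp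
    · simp only [Nat.lt_asymm h1, if_false, h1.ne', one_mul]
      rw [dec_ne _ (by omega)]
      apply prod_congr rfl
      intro j hj
      rw [mem_range] at hj
      rw [hm_dec_other (by omega) ?_]
      have := h.anti (show α + 1 ≤ i by omega)
      omega
  unfold HP
  rw [prod_congr rfl key, prod_mul_distrib]
  congr 1
  have h1 : ∏ i ∈ range n, c i = ∏ i ∈ range (α + 1), c i := by
    symm
    apply prod_subset
    · intro i hi
      rw [mem_range] at hi ⊢
      omega
    · intro i _ hi
      rw [mem_range, not_lt] at hi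
      rw [hc]
      simp only [show ¬ i < α by omega, if_false, show ¬ i = α by omega]
  rw [h1, prod_range_succ, share, ← hβ]
  congr 1
  · apply prod_congr rfl
    intro i hi
    rw [mem_range] at hi
    rw [hc]
    simp only [hi, if_true]
  · rw [hc]
    simp only [lt_irrefl, if_false, if_true]

theorem share_pos (n : ℕ) (lam : ℕ → ℕ) (α : ℕ) : 0 < share n lam α := by
  unfold share
  apply mul_pos
  · apply prod_pos
    intro i _
    positivity
  · apply prod_pos
    intro i _
    positivity

theorem hook_real (n : ℕ) : ∀ (k : ℕ) {lam : ℕ → ℕ}, Shape n lam → ∑ i ∈ range n, lam i = k →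
    (F n k lam : ℝ) * HP n lam = k.factorial := by
  intro k
  induction k with
  | zero =>
    intro lam h hk
    have h1 : ∀ i ∈ range n, lam i = 0 := by
      intro i hi
      exact (sum_eq_zero_iff.1 hk) i hi
    have h2 : HP n lam = 1 := by
      unfold HP
      apply prod_eq_one
      intro i hi
      rw [h1 i hi]
      simp
    rw [h2]
    simp [F]
  | succ k ih =>
    intro lam h hk
    have h1 : ∀ α ∈ corners n lam, (F n k (dec lam α) : ℝ) * HP n lam = k.factorial * share n lam α := by
      intro α hα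
      have h2 := ih (shape_dec h hα) (by
        have := sum_dec hα
        omega)
      rw [HP_dec h hα, ← h2]
      ring
    have h2 : (F n (k + 1) lam : ℝ) = ∑ α ∈ corners n lam, (F n k (dec lam α) : ℝ) := by
      simp only [F]
      push_cast
      rfl
    rw [h2, sum_mul, sum_congr rfl h1, ← mul_sum, sum_share h]
    have h3 : ∑ i ∈ range n, (lam i : ℝ) = ((k + 1 : ℕ) : ℝ) := by
      rw [← hk]
      push_cast
      rfl
    rw [h3, Nat.factorial_succ]
    push_cast
    ring

/-- hook length formula -/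
theorem hook_formula {n : ℕ} {lam : ℕ → ℕ} (h : Shape n lam) :
    F n (∑ i ∈ range n, lam i) lam * ∏ i ∈ range n, ∏ j ∈ range (lam i), (hm n lam i j + 1) =
      (∑ i ∈ range n, lam i).factorial := by
  have h1 := hook_real n _ h rfl
  unfold HP at h1
  exact_mod_cast h1

theorem corner_share {n k : ℕ} {lam : ℕ → ℕ} (h : Shape n lam) (hk : ∑ i ∈ range n, lam i = k + 1)
    {α : ℕ} (hα : α ∈ corners n lam) :
    ((k : ℝ) + 1) * F n k (dec lam α) = share n lam α * F n (k + 1) lam := by
  have h1 := hook_real n (k + 1) h hk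
  have h2 := hook_real n k (shape_dec h hα) (by
    have := sum_dec hα
    omega)
  have h3 := HP_dec h hα
  have h4 := HP_pos n (dec lam α)
  rw [Nat.factorial_succ, h3] at h1
  push_cast at h1
  rw [← h2] at h1
  apply mul_right_cancel₀ h4.ne'
  linarith

/-- the same in the terms of the hook walk -/
theorem F_dec {n k : ℕ} {lam : ℕ → ℕ} (h : Shp n lam) (hk : ∑ i ∈ range n, lam i = k + 1)
    {c : ℕ} (hc : c ∈ corners n lam) :
    ((k : ℝ) + 1) * F n k (dec lam c) = Wt n lam c * F n (k + 1) lam := by
  rw [← share_eq h.shape hc]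
  exact corner_share h.shape hk hc

/-! ### The staircase -/

theorem shape_stair (n : ℕ) : Shape n (stair n) := by
  refine ⟨?_, ?_⟩
  · intro i j hij
    unfold stair
    omega
  · unfold stair
    omega

theorem sum_stair (n : ℕ) : ∑ i ∈ range n, stair n i = n.choose 2 := by
  unfold stair
  rw [sum_range_reflect (fun i => i) n, sum_range_id, Nat.choose_two_right]

theorem col_stair {n i j : ℕ} (h : j < stair n i) : col n (stair n) j = n - 1 - j := by
  have h1 := lt_iff_lt_col (shape_stair n)
  unfold stair at *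
  have h2 := (h1 (n - 2 - j) j).1 (by omega)
  have h3 : ¬ n - 1 - j < col n (fun i => n - 1 - i) j := by
    rw [← h1]
    omega
  omega

theorem hm_stair {n i j : ℕ} (h : j < stair n i) : hm n (stair n) i j = 2 * (n - 1 - i - 1 - j) := by
  unfold hm
  rw [col_stair h]
  unfold stair at *
  omega

/-- the product of the first odd numbers -/
def odds (m : ℕ) : ℕ := ∏ j ∈ range m, (2 * j + 1)

theorem odds_le (m : ℕ) : odds m ≤ 2 ^ m * m.factorial := by
  unfold odds
  induction m with
  | zero => simp
  | succ m ih =>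
    rw [prod_range_succ, pow_succ, Nat.factorial_succ]
    calc (∏ j ∈ range m, (2 * j + 1)) * (2 * m + 1) ≤ (2 ^ m * m.factorial) * (2 * (m + 1)) :=
          Nat.mul_le_mul ih (by omega)
      _ = 2 ^ m * 2 * ((m + 1) * m.factorial) := by ring

theorem prod_stair (n : ℕ) : ∏ i ∈ range n, ∏ j ∈ range (stair n i), (hm n (stair n) i j + 1) =
    ∏ i ∈ range n, odds i := by
  rw [← prod_range_reflect odds n]
  apply prod_congr rfl
  intro i _
  unfold odds
  have h1 : stair n i = n - 1 - i := rfl
  rw [← prod_range_reflect (fun j => 2 * j + 1) (n - 1 - i), h1]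
  apply prod_congr rfl
  intro j hj
  rw [mem_range] at hj
  rw [hm_stair (by rw [h1]; exact hj)]

theorem stair_ratio {n : ℕ} (hn : 2 ≤ n) :
    (n.choose 2).choose (n - 1) * 2 ^ (n - 1) * F (n - 1) ((n - 1).choose 2) (stair (n - 1)) ≤
      4 ^ (n - 1) * F n (n.choose 2) (stair n) := by
  obtain ⟨m, rfl⟩ : ∃ m, n = m + 1 := ⟨n - 1, by omega⟩
  rw [Nat.add_sub_cancel]
  have h1 := hook_formula (shape_stair (m + 1))
  have h2 := hook_formula (shape_stair m)
  rw [sum_stair, prod_stair, prod_range_succ] at h1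
  rw [sum_stair, prod_stair] at h2
  obtain ⟨H, hH⟩ : ∃ H, H = ∏ i ∈ range m, odds i := ⟨_, rfl⟩
  rw [← hH] at h1 h2
  have hH0 : 0 < H := by
    rw [hH]
    apply prod_pos
    intro i _
    apply prod_pos
    intro j _
    omega
  obtain ⟨F₁, hF₁⟩ : ∃ F₁, F₁ = F (m + 1) ((m + 1).choose 2) (stair (m + 1)) := ⟨_, rfl⟩
  obtain ⟨F₀, hF₀⟩ : ∃ F₀, F₀ = F m (m.choose 2) (stair m) := ⟨_, rfl⟩
  rw [← hF₁] at h1 ⊢
  rw [← hF₀] at h2 ⊢
  have h3 : (m + 1).choose 2 = m + m.choose 2 := by
    rw [Nat.choose_succ_succ' m 1, Nat.choose_one_right]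
  have h4 : ((m + 1).choose 2).choose m * m.factorial * (m.choose 2).factorial = ((m + 1).choose 2).factorial := by
    have := Nat.choose_mul_factorial_mul_factorial (show m ≤ (m + 1).choose 2 by omega)
    rwa [h3, Nat.add_sub_cancel_left, ← h3] at this
  obtain ⟨c, hc⟩ : ∃ c, c = ((m + 1).choose 2).choose m := ⟨_, rfl⟩
  rw [← hc] at h4 ⊢
  rw [← h1, ← h2] at h4
  have h5 : c * m.factorial * F₀ = F₁ * odds m := by
    apply Nat.eq_of_mul_eq_mul_right hH0
    calc c * m.factorial * F₀ * H = c * m.factorial * (F₀ * H) := by ring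
      _ = F₁ * (H * odds m) := h4
      _ = F₁ * odds m * H := by ring
  have h6 : c * F₀ ≤ F₁ * 2 ^ m := by
    have h7 : c * m.factorial * F₀ ≤ F₁ * (2 ^ m * m.factorial) := by
      rw [h5]
      exact Nat.mul_le_mul_left _ (odds_le m)
    have h8 : m.factorial * (c * F₀) ≤ m.factorial * (F₁ * 2 ^ m) := by
      calc m.factorial * (c * F₀) = c * m.factorial * F₀ := by ring
        _ ≤ F₁ * (2 ^ m * m.factorial) := h7
        _ = m.factorial * (F₁ * 2 ^ m) := by ring
    exact Nat.le_of_mul_le_mul_left h8 (Nat.factorial_pos m)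
  calc c * 2 ^ m * F₀ = 2 ^ m * (c * F₀) := by ring
    _ ≤ 2 ^ m * (F₁ * 2 ^ m) := Nat.mul_le_mul_left _ h6
    _ = (2 ^ m * 2 ^ m) * F₁ := by ring
    _ = 4 ^ m * F₁ := by
      rw [← mul_pow]
      norm_num

end Pool.Agent.SNL63
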