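import Pool.Agent.SNL63.Row

/-!
Edelman–Greene insertion into a tableau (a list of strictly increasing rows), and its inverse.
-/

namespace Pool.Agent.SNL63

open Pool.Agent.SN8

/-- The reading word: the rows from the last to the first. -/
def word : List (List ℕ) → List ℕ
  | [] => []
  | R :: T => word T ++ R

/-- Tableaux: nonempty strictly increasing rows, strictly increasing columns. -/
def Tab : List (List ℕ) → Prop
  | [] => True
  | R :: T => R ≠ [] ∧ Inc R ∧ Above R (T.headD []) ∧ Tab T

/-- Edelman–Greene insertion of a letter. -/
def insT : List (List ℕ) → ℕ → List (List ℕ)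
  | [], x => [[x]]
  | R :: T, x => match (ins R x).2 with
    | none => (ins R x).1 :: T
    | some y => (ins R x).1 :: insT T y

/-- the row in which the new cell appears -/
def idx : List (List ℕ) → ℕ → ℕ
  | [], _ => 0
  | R :: T, x => match (ins R x).2 with
    | none => 0
    | some y => idx T y + 1

/-- row lengths -/
def shp (T : List (List ℕ)) (i : ℕ) : ℕ := (T.getD i []).length

lemma insT_none {R R' : List ℕ} {T : List (List ℕ)} {x : ℕ} (h : ins R x = (R', none)) :
    insT (R :: T) x = R' :: T ∧ idx (R :: T) x = 0 := by
  simp [insT, idx, h]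

lemma insT_some {R R' : List ℕ} {T : List (List ℕ)} {x y : ℕ} (h : ins R x = (R', some y)) :
    insT (R :: T) x = R' :: insT T y ∧ idx (R :: T) x = idx T y + 1 := by
  simp [insT, idx, h]

lemma ins_cases (R : List ℕ) (x : ℕ) :
    (∃ R', ins R x = (R', none)) ∨ ∃ R' y, ins R x = (R', some y) := by
  rcases h : ins R x with ⟨R', _ | y⟩
  · exact Or.inl ⟨R', rfl⟩
  · exact Or.inr ⟨R', y, rfl⟩

lemma headD_insT (T : List (List ℕ)) (x : ℕ) : (insT T x).headD [] = (ins (T.headD []) x).1 := by
  cases T with
  | nil => rfl
  | cons R T =>
    rcases ins_cases R x with ⟨R', h⟩ | ⟨R', y, h⟩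
    · rw [(insT_none h).1]; simp [h]
    · rw [(insT_some h).1]; simp [h]

lemma Tab.inc_head {T : List (List ℕ)} (h : Tab T) : Inc (T.headD []) := by
  cases T with
  | nil => exact List.Pairwise.nil
  | cons R T => exact h.2.1

lemma shp_cons_zero (R : List ℕ) (T : List (List ℕ)) : shp (R :: T) 0 = R.length := by simp [shp]
lemma shp_cons_succ (R : List ℕ) (T : List (List ℕ)) (i : ℕ) : shp (R :: T) (i + 1) = shp T i := by
  simp [shp]
lemma shp_nil (i : ℕ) : shp [] i = 0 := by simp [shp]
lemma shp_zero (T : List (List ℕ)) : shp T 0 = (T.headD []).length := by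
  cases T <;> simp [shp]

lemma Tab.anti_succ {T : List (List ℕ)} (h : Tab T) (i : ℕ) : shp T (i + 1) ≤ shp T i := by
  induction T generalizing i with
  | nil => simp [shp]
  | cons R T ih =>
    cases i with
    | zero =>
      rw [shp_cons_succ, shp_cons_zero, shp_zero]
      exact above_length h.2.2.1
    | succ i =>
      rw [shp_cons_succ, shp_cons_succ]
      exact ih h.2.2.2 i

lemma Tab.anti {T : List (List ℕ)} (h : Tab T) : Antitone (shp T) :=
  antitone_nat_of_succ_le h.anti_succ

lemma shp_pos_iff {T : List (List ℕ)} (h : Tab T) (i : ℕ) : 0 < shp T i ↔ i < T.length := by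
  induction T generalizing i with
  | nil => simp [shp]
  | cons R T ih =>
    cases i with
    | zero =>
      rw [shp_cons_zero]
      simp only [List.length_cons, Nat.zero_lt_succ, iff_true]
      exact List.length_pos_iff.mpr h.1
    | succ i =>
      rw [shp_cons_succ, ih h.2.2.2]
      simp

/-- `L1` -/
lemma insT_spec {n : ℕ} {T : List (List ℕ)} {x : ℕ} (hT : Tab T) (hr : Red n (word T ++ [x])) :
    Tab (insT T x) ∧ P (word (insT T x)) = P (word T ++ [x]) ∧
      (word (insT T x)).length = (word T).length + 1 ∧
      (∀ z ∈ word (insT T x), z ∈ word T ++ [x]) ∧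
      shp (insT T x) = Function.update (shp T) (idx T x) (shp T (idx T x) + 1) := by
  induction T generalizing x with
  | nil =>
    refine ⟨⟨by simp, List.pairwise_singleton _ _, by simp [above_nil], trivial⟩, ?_, ?_, ?_, ?_⟩
    · simp [insT, word]
    · simp [insT, word]
    · simp [insT, word]
    · funext i
      cases i with
      | zero => simp [insT, idx, shp]
      | succ i => simp [insT, idx, shp, Function.update]
  | cons R T ih =>
    obtain ⟨h1, h2, h3, h4⟩ := hT
    have hw : word (R :: T) ++ [x] = word T ++ (R ++ [x]) := by simp [word]
    rw [hw] at hr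
    have hok := ok_of_red h2 hr.right
    rcases ins_cases R x with ⟨R', h⟩ | ⟨R', y, h⟩
    · obtain ⟨e1, e2⟩ := insT_none (T := T) h
      obtain ⟨e3, e4⟩ := ins_none h
      rw [e1, e2]
      subst e3
      refine ⟨⟨by simp, ?_, above_append h3 x, h4⟩, ?_, ?_, ?_, ?_⟩
      · have := ins_inc (x := x) h2
        rw [h] at this; exact this
      · rw [hw]; rfl
      · simp [word]; omega
      · intro z hz; rw [hw]; exact hz
      · funext i
        cases i with
        | zero => simp [shp]
        | succ i => simp [shp, Function.update]
    · obtain ⟨e1, e2⟩ := insT_some (T := T) h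
      obtain ⟨e3, e4⟩ := ins_P h2 hok h
      obtain ⟨e5, e6, _⟩ := ins_some h
      have hr2 : Red n ((word T ++ [y]) ++ R') := by
        apply hr.congr
        · intro j hj
          simp only [List.append_assoc, List.cons_append, List.nil_append, List.mem_append] at hj
          rcases hj with hj | hj
          · exact hr.1 j (by simp [hj])
          · exact hr.1 j (by rw [List.mem_append]; exact Or.inr (e4 j hj))
        · rw [List.append_assoc, P_append, P_append (word T), e3]; rfl
        · simp only [List.length_append, List.length_cons, List.length_nil]; omega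
      obtain ⟨i1, i2, i3, i4, i5⟩ := ih h4 hr2.left
      rw [e1, e2]
      refine ⟨⟨?_, ?_, ?_, i1⟩, ?_, ?_, ?_, ?_⟩
      · intro h0
        rw [h0] at e5
        exact h1 (List.length_eq_zero_iff.mp e5.symm)
      · have := ins_inc (x := x) h2
        rw [h] at this; exact this
      · rw [headD_insT]; exact above_step h3 h
      · rw [hw]
        show P (word (insT T y) ++ R') = _
        rw [P_append, i2, ← P_append, List.append_assoc, P_append, P_append (word T), e3]
        rfl
      · show (word (insT T y) ++ R').length = (word T ++ R).length + 1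
        simp only [List.length_append]; omega
      · intro z hz
        rw [hw]
        have hz' : z ∈ word (insT T y) ++ R' := hz
        rw [List.mem_append] at hz' ⊢
        rcases hz' with hz' | hz'
        · have := i4 z hz'
          rw [List.mem_append] at this
          rcases this with h | h
          · exact Or.inl h
          · exact Or.inr (e4 z (by simp only [List.mem_singleton] at h; simp [h]))
        · exact Or.inr (e4 z (by simp [hz']))
      · funext i
        cases i with
        | zero =>
          rw [shp_cons_zero, Function.update_of_ne (by omega), shp_cons_zero, e5]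
        | succ i =>
          rw [shp_cons_succ, i5]
          by_cases hi : i = idx T y
          · subst hi
            simp [shp_cons_succ]
          · rw [Function.update_of_ne hi, Function.update_of_ne (by omega), shp_cons_succ]

/-- `L2` -/
lemma insT_inj {n : ℕ} {T₁ T₂ : List (List ℕ)} {x₁ x₂ : ℕ} (h₁ : Tab T₁) (h₂ : Tab T₂)
    (r₁ : Red n (word T₁ ++ [x₁])) (r₂ : Red n (word T₂ ++ [x₂]))
    (he : insT T₁ x₁ = insT T₂ x₂) (hi : idx T₁ x₁ = idx T₂ x₂) : T₁ = T₂ ∧ x₁ = x₂ := by
  have key : ∀ {R : List ℕ} {T : List (List ℕ)} {x y : ℕ}, Tab (R :: T) →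
      Red n (word (R :: T) ++ [x]) → ∀ {R'}, ins R x = (R', some y) →
        Red n (word T ++ [y]) ∧ rins R' y = (x, R) := by
    intro R T x y hT hr R' h
    obtain ⟨h1, h2, h3, h4⟩ := hT
    have hw : word (R :: T) ++ [x] = word T ++ (R ++ [x]) := by simp [word]
    rw [hw] at hr
    have hok := ok_of_red h2 hr.right
    obtain ⟨e3, e4⟩ := ins_P h2 hok h
    obtain ⟨e5, e6, _⟩ := ins_some h
    have hr2 : Red n ((word T ++ [y]) ++ R') := by
      apply hr.congr
      · intro j hj
        simp only [List.append_assoc, List.cons_append, List.nil_append, List.mem_append] at hj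
        rcases hj with hj | hj
        · exact hr.1 j (by simp [hj])
        · exact hr.1 j (by rw [List.mem_append]; exact Or.inr (e4 j hj))
      · rw [List.append_assoc, P_append, P_append (word T), e3]; rfl
      · simp only [List.length_append, List.length_cons, List.length_nil]; omega
    exact ⟨hr2.left, rins_ins h2 hok h⟩
  induction T₁ generalizing T₂ x₁ x₂ with
  | nil =>
    cases T₂ with
    | nil => simp only [insT, List.cons.injEq, and_true] at he; exact ⟨rfl, he⟩
    | cons R T =>
      exfalso
      rcases ins_cases R x₂ with ⟨R', h⟩ | ⟨R', y, h⟩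
      · obtain ⟨e1, e2⟩ := insT_none (T := T) h
        obtain ⟨e3, e4⟩ := ins_none h
        rw [e1] at he
        simp only [insT, List.cons.injEq] at he
        rw [e3] at he
        have : R.length = 0 := by
          have := congrArg List.length he.1
          simp at this; simp [this]
        exact h₂.1 (List.length_eq_zero_iff.mp this)
      · obtain ⟨e1, e2⟩ := insT_some (T := T) h
        rw [e2] at hi
        simp [idx] at hi
  | cons R T ih =>
    cases T₂ with
    | nil =>
      exfalso
      rcases ins_cases R x₁ with ⟨R', h⟩ | ⟨R', y, h⟩
      · obtain ⟨e1, e2⟩ := insT_none (T := T) h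
        obtain ⟨e3, e4⟩ := ins_none h
        rw [e1] at he
        simp only [insT, List.cons.injEq] at he
        rw [e3] at he
        have : R.length = 0 := by
          have := congrArg List.length he.1
          simp at this; simp [this]
        exact h₁.1 (List.length_eq_zero_iff.mp this)
      · obtain ⟨e1, e2⟩ := insT_some (T := T) h
        rw [e2] at hi
        simp [idx] at hi
    | cons R₂ T₂ =>
      rcases ins_cases R x₁ with ⟨R', h⟩ | ⟨R', y, h⟩
      · obtain ⟨e1, e2⟩ := insT_none (T := T) h
        obtain ⟨e3, e4⟩ := ins_none h
        rw [e2] at hi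
        rcases ins_cases R₂ x₂ with ⟨R₂', h'⟩ | ⟨R₂', y₂, h'⟩
        · obtain ⟨e1', e2'⟩ := insT_none (T := T₂) h'
          obtain ⟨e3', e4'⟩ := ins_none h'
          rw [e1, e1', e3, e3'] at he
          simp only [List.cons.injEq] at he
          have := List.append_inj' he.1 rfl
          simp only [List.cons.injEq, and_true] at this
          rw [this.1, he.2]
          exact ⟨rfl, this.2⟩
        · obtain ⟨e1', e2'⟩ := insT_some (T := T₂) h'
          rw [e2'] at hi
          omega
      · obtain ⟨e1, e2⟩ := insT_some (T := T) h
        rw [e2] at hi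
        rcases ins_cases R₂ x₂ with ⟨R₂', h'⟩ | ⟨R₂', y₂, h'⟩
        · obtain ⟨e1', e2'⟩ := insT_none (T := T₂) h'
          rw [e2'] at hi
          omega
        · obtain ⟨e1', e2'⟩ := insT_some (T := T₂) h'
          rw [e2'] at hi
          rw [e1, e1'] at he
          simp only [List.cons.injEq] at he
          obtain ⟨k1, k2⟩ := key h₁ r₁ h
          obtain ⟨k3, k4⟩ := key h₂ r₂ h'
          obtain ⟨f1, f2⟩ := ih h₁.2.2.2 h₂.2.2.2 k1 k3 he.2 (by omega)
          rw [he.1, f2, k4] at k2
          simp only [Prod.mk.injEq] at k2
          exact ⟨by rw [k2.2, f1], k2.1.symm⟩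

lemma rins_mem {a : ℕ} {L : List ℕ} {y : ℕ} : (rins (a :: L) y).1 ∈ a :: L ∧
    ∀ z ∈ (rins (a :: L) y).2, z = y ∨ z ∈ a :: L := by
  induction L generalizing a with
  | nil => rw [rins_single]; simp
  | cons s R ih =>
    rcases lt_trichotomy y s with h1 | h1 | h1
    · rw [rins_lt R h1]
      refine ⟨by simp, fun z hz => ?_⟩
      rcases List.mem_cons.mp hz with h | h
      · exact Or.inl h
      · exact Or.inr (by simp [h])
    · subst h1
      rw [rins_eq]
      exact ⟨by simp, fun z hz => Or.inr hz⟩
    · rw [rins_gt R h1]
      obtain ⟨i1, i2⟩ := ih (a := s)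
      refine ⟨by simp only [List.mem_cons] at i1 ⊢; tauto, fun z hz => ?_⟩
      rcases List.mem_cons.mp hz with h | h
      · right; simp [h]
      · rcases i2 z h with h | h
        · exact Or.inl h
        · right; simp only [List.mem_cons] at h ⊢; tauto

/-- `L3` -/
lemma exists_insT {n : ℕ} {T' : List (List ℕ)} (hT : Tab T') (hr : Red n (word T')) (i : ℕ)
    (hi : shp T' (i + 1) < shp T' i) :
    ∃ T x, Tab T ∧ Red n (word T ++ [x]) ∧ insT T x = T' ∧ idx T x = i := by
  induction T' generalizing i with
  | nil => simp [shp] at hi
  | cons R' S' ih =>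
    obtain ⟨h1, h2, h3, h4⟩ := hT
    cases i with
    | zero =>
      rw [shp_cons_succ, shp_cons_zero, shp_zero] at hi
      obtain ⟨R, x, rfl⟩ : ∃ R x, R' = R ++ [x] := ⟨R'.dropLast, R'.getLast h1,
        (List.dropLast_append_getLast h1).symm⟩
      have hlt : ∀ r ∈ R, r < x := fun r hr' => (List.pairwise_append.mp h2).2.2 r hr' x (by simp)
      by_cases hR : R = []
      · subst hR
        have hS : S' = [] := by
          cases S' with
          | nil => rfl
          | cons a S =>
            exfalso
            simp only [List.headD_cons, List.nil_append, List.length_cons, List.length_nil] at hi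
            have : a.length = 0 := by omega
            exact h4.1 (List.length_eq_zero_iff.mp this)
        subst hS
        exact ⟨[], x, trivial, hr, rfl, rfl⟩
      · refine ⟨R :: S', x, ⟨hR, (List.pairwise_append.mp h2).1, above_of_append h3 ?_, h4⟩, ?_, ?_, ?_⟩
        · simp only [List.length_append, List.length_cons, List.length_nil] at hi; omega
        · have : word (R :: S') ++ [x] = word ((R ++ [x]) :: S') := by simp [word]
          rw [this]; exact hr
        · exact (insT_none (ins_append hlt)).1
        · exact (insT_none (ins_append hlt)).2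
    | succ i =>
      rw [shp_cons_succ, shp_cons_succ] at hi
      have hw : word (R' :: S') = word S' ++ R' := rfl
      rw [hw] at hr
      obtain ⟨S, y, j1, j2, j3, j4⟩ := ih h4 hr.left i hi
      obtain ⟨s1, s2, s3, s4, s5⟩ := insT_spec j1 j2
      rw [j3] at s1 s2 s3 s4
      -- the word of `S`, then `y`, then `R'`
      have hr2 : Red n (word S ++ [y] ++ R') := by
        apply hr.congr
        · intro j hj
          rw [List.mem_append] at hj
          rcases hj with hj | hj
          · exact j2.1 j hj
          · exact hr.1 j (by simp [hj])
        · rw [P_append, P_append (word S'), s2]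
        · simp only [List.length_append, List.length_cons, List.length_nil]; omega
      have hr3 : Red n (y :: R') := by
        rw [List.append_assoc] at hr2
        exact hr2.right
      have hok' := ok'_of_red h2 hr3
      obtain ⟨b, B, hb, hby⟩ := ins_head_le (S.headD []) y
      rw [← headD_insT, j3] at hb
      obtain ⟨a, L, rfl⟩ := List.exists_cons_of_ne_nil h1
      rw [hb] at h3
      have hay : a < y := lt_of_lt_of_le h3.1 hby
      obtain ⟨i1, i2, i3, i4, i5⟩ := rins_spec h2 hok' rfl hay
      set x := (rins (a :: L) y).1 with hx
      set R := (rins (a :: L) y).2 with hR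
      obtain ⟨e3, e4⟩ := ins_P i1 i3 i2
      obtain ⟨e5, e6, _⟩ := ins_some i2
      have hokS : Ok (S.headD []) y := by
        cases S with
        | nil => intro h; simp at h
        | cons s S =>
          have : word (s :: S) ++ [y] = word S ++ (s ++ [y]) := by simp [word]
          rw [this] at j2
          exact ok_of_red j1.2.1 j2.right
      have hAb : Above R (S.headD []) := by
        apply above_unstep i1 j1.inc_head hokS i2
        rw [← headD_insT, j3, hb]
        exact h3
      refine ⟨R :: S, x, ⟨?_, i1, hAb, j1⟩, ?_, ?_, ?_⟩
      · intro h0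
        rw [h0] at e5
        simp at e5
      · have hw2 : word (R :: S) ++ [x] = word S ++ (R ++ [x]) := by simp [word]
        rw [hw2]
        rw [List.append_assoc] at hr2
        apply hr2.congr
        · intro j hj
          rw [List.mem_append] at hj
          rcases hj with hj | hj
          · exact hr2.1 j (by simp [hj])
          · obtain ⟨m1, m2⟩ := rins_mem (a := a) (L := L) (y := y)
            rcases List.mem_append.mp hj with hj | hj
            · rcases m2 j hj with h | h
              · exact hr2.1 j (by simp [h])
              · exact hr2.1 j (by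
                  simp only [List.mem_append, List.mem_cons] at h ⊢; tauto)
            · rw [List.mem_singleton] at hj
              subst hj
              exact hr2.1 x (by
                  simp only [List.mem_append, List.mem_cons] at m1 ⊢; tauto)
        · rw [P_append, P_append (word S), e3]; rfl
        · simp only [List.length_append, List.length_cons, List.length_nil]
          simp only [List.length_cons] at e5
          omega
      · rw [(insT_some i2).1, j3]
      · rw [(insT_some i2).2, j4]

end Pool.Agent.SNL63
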