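import Pool.Agent.SNL63.DDefs
import Pool.Agent.SNL63.Tab
import Pool.Agent.SNL63.HookF

/-!
Definitions for the swap process: sums over letters, the semicircle law, weighted chains of shapes.
-/

namespace Pool.Agent.SNL63

open Pool.Agent.SN8 MeasureTheory Set Filter Topology
open scoped ENNReal Real

/-- the semicircle law on `[-1,1]` -/
noncomputable def semi : Measure ℝ :=
  (volume.restrict (Icc (-1) 1)).withDensity (fun u => ENNReal.ofReal (2 / π * √(1 - u ^ 2)))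

/-- the sum of `g` over the rescaled letters `2 j / n - 1` of a word -/
noncomputable def ssum (g : ℝ → ℝ) (n : ℕ) (l : List ℕ) : ℝ :=
  (l.map (fun j : ℕ => g (2 * (j : ℝ) / n - 1))).sum

/-- the test functions `1 / (ζ - u)` -/
noncomputable def gz (ζ u : ℝ) : ℝ := 1 / (ζ - u)

/-- `(z + n) ∏ (z - ℓ_i - 1) / (z - ℓ_i)` with `ℓ_i = lam i - i - 1` -/
noncomputable def HH (n : ℕ) (lam : ℕ → ℕ) (z : ℝ) : ℝ :=
  (z + n) * ∏ i ∈ Finset.range n, (z - lam i + i) / (z - lam i + i + 1)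

/-- the mean of `g` over the removed corner of a shape, times the number of cells: the corner of
row `i` has the rescaled content `(lam i - 1 - i) / n` -/
noncomputable def hmean (n : ℕ) (lam : ℕ → ℕ) (g : ℝ → ℝ) : ℝ :=
  ∑ i ∈ corners n lam, share n lam i * g (((lam i : ℝ) - 1 - i) / n)

/-- weighted chains: the corner removed from row `i` of length `c` has the weight `w i c` -/
noncomputable def BW (n : ℕ) (w : ℕ → ℕ → ℝ) : ℕ → ℕ → (ℕ → ℕ) → ℝ
  | 0, k, lam => (F n k lam : ℝ)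
  | s + 1, k, lam => ∑ i ∈ corners n lam, w i (lam i) * BW n w s k (dec lam i)

/-- the law of large numbers for the letters of a short window at the end, with speed `n²` -/
def Win (g : ℝ → ℝ) : Prop :=
  ∀ ε > (0 : ℝ), ∃ κ₀ > (0 : ℝ), ∀ κ : ℝ, 0 < κ → κ ≤ κ₀ → ∃ c > (0 : ℝ), ∃ n₀ : ℕ, ∀ n ≥ n₀,
    ∀ s : ℕ, κ * (n.choose 2 : ℝ) - 1 ≤ s → (s : ℝ) ≤ κ * (n.choose 2 : ℝ) →
      (({k | IsNetwork n k ∧ ε * s < |ssum g n (k.drop (n.choose 2 - s)) - s * ∫ u, g u ∂semi|} :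
        Set (List ℕ)).ncard : ℝ) ≤ Real.exp (-c * (n : ℝ) ^ 2) * nets n

/-- Permutons of time `t`: uniform marginals, inversion density `t`, every place is crossed, and the
crossing masses are at most those allowed by the semicircle law. -/
structure Adm (t : ℝ) (ν : Measure (ℝ × ℝ)) : Prop where
  fst : ν.map Prod.fst = unif
  snd : ν.map Prod.snd = unif
  pos : ∀ a ∈ Ioo (-1 : ℝ) 1, ν (Rc a) ≠ 0
  pos' : ∀ a ∈ Ioo (-1 : ℝ) 1, ν (Rc' a) ≠ 0
  band : ∀ a ∈ Ioo (-1 : ℝ) 1, ν (Rc a) ≤ ENNReal.ofReal (2 / π * t * √(1 - a ^ 2))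
  band' : ∀ a ∈ Ioo (-1 : ℝ) 1, ν (Rc' a) ≤ ENNReal.ofReal (2 / π * (1 - t) * √(1 - a ^ 2))
  inv : (ν.prod ν) {p | (p.1.1 - p.2.1) * (p.1.2 - p.2.2) < 0} = ENNReal.ofReal t

end Pool.Agent.SNL63
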