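import Pool.Agent.SNL63.Cpt
import Pool.Agent.SNL63.SDefs

/-!
# Compactness: the event that `eta` leaves an open set which contains all admissible permutons
-/

namespace Pool.Agent.SNL63

open MeasureTheory Set Filter Topology Pool.Agent.SN8
open scoped ENNReal Real NNReal BoundedContinuousFunction

/-- the inversions of two points -/
def Iv : Set ((ℝ × ℝ) × (ℝ × ℝ)) := {p | (p.1.1 - p.2.1) * (p.1.2 - p.2.2) < 0}

theorem isOpen_Iv : IsOpen Iv := _root_.isOpen_lt (by fun_prop) continuous_const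

theorem measurableSet_Iv : MeasurableSet Iv := isOpen_Iv.measurableSet

theorem unif_singleton (a : ℝ) : unif {a} = 0 := by
  rw [unif, Measure.smul_apply, smul_eq_mul]
  have : (volume.restrict (Icc (-1 : ℝ) 1)) {a} = 0 :=
    le_antisymm ((Measure.restrict_apply_le _ _).trans (by simp)) zero_le
  rw [this, mul_zero]

theorem fst_line {ν : Measure (ℝ × ℝ)} (h : ν.map Prod.fst = unif) (a : ℝ) : ν {p | p.1 = a} = 0 := by
  have h1 : ν (Prod.fst ⁻¹' {a}) = 0 := by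
    rw [← Measure.map_apply measurable_fst (measurableSet_singleton a), h, unif_singleton]
  exact h1

theorem snd_line {ν : Measure (ℝ × ℝ)} (h : ν.map Prod.snd = unif) (a : ℝ) : ν {p | p.2 = a} = 0 := by
  have h1 : ν (Prod.snd ⁻¹' {a}) = 0 := by
    rw [← Measure.map_apply measurable_snd (measurableSet_singleton a), h, unif_singleton]
  exact h1

theorem frontier_Iv {ν : Measure (ℝ × ℝ)} [IsProbabilityMeasure ν] (h1 : ν.map Prod.fst = unif)
    (h2 : ν.map Prod.snd = unif) : (ν.prod ν) (frontier Iv) = 0 := by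
  have h3 : frontier Iv ⊆ {p : (ℝ × ℝ) × (ℝ × ℝ) | p.1.1 = p.2.1} ∪ {p | p.1.2 = p.2.2} := by
    intro p hp
    have h4 := frontier_lt_subset_eq (f := fun p : (ℝ × ℝ) × (ℝ × ℝ) => (p.1.1 - p.2.1) * (p.1.2 - p.2.2))
      (g := fun _ => (0 : ℝ)) (by fun_prop) continuous_const hp
    rcases mul_eq_zero.1 (show (p.1.1 - p.2.1) * (p.1.2 - p.2.2) = 0 from h4) with h5 | h5
    · exact Or.inl (sub_eq_zero.1 h5)
    · exact Or.inr (sub_eq_zero.1 h5)
  refine measure_mono_null h3 (measure_union_null ?_ ?_)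
  · rw [Measure.prod_apply (measurableSet_eq_fun (by fun_prop) (by fun_prop))]
    rw [lintegral_eq_zero_iff']
    · refine Eventually.of_forall fun x => ?_
      have : Prod.mk x ⁻¹' {p : (ℝ × ℝ) × (ℝ × ℝ) | p.1.1 = p.2.1} = {p | p.1 = x.1} := by
        ext p
        simp [eq_comm]
      exact (congrArg ν this).trans (fst_line h1 _)
    · exact (measurable_measure_prodMk_left (measurableSet_eq_fun (by fun_prop) (by fun_prop))).aemeasurable
  · rw [Measure.prod_apply (measurableSet_eq_fun (by fun_prop) (by fun_prop))]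
    rw [lintegral_eq_zero_iff']
    · refine Eventually.of_forall fun x => ?_
      have : Prod.mk x ⁻¹' {p : (ℝ × ℝ) × (ℝ × ℝ) | p.1.2 = p.2.2} = {p | p.2 = x.2} := by
        ext p
        simp [eq_comm]
      exact (congrArg ν this).trans (snd_line h2 _)
    · exact (measurable_measure_prodMk_left (measurableSet_eq_fun (by fun_prop) (by fun_prop))).aemeasurable

/-- the inversions of a prefix of a network -/
theorem count_inv {n s : ℕ} {k : List ℕ} (hk : IsNetwork n k) (hs : s ≤ n.choose 2) :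
    (((Finset.Icc 1 n) ×ˢ (Finset.Icc 1 n)).filter (fun p : ℕ × ℕ =>
      ((p.1 : ℝ) - p.2) * ((place (k.take s) p.1 : ℝ) - place (k.take s) p.2) < 0)).card = 2 * s := by
  obtain ⟨σ, hσ⟩ : ∃ σ : ℕ → ℕ, σ = place (k.take s) := ⟨_, rfl⟩
  have hinv : (invSet n (P (k.take s))).card = s := (time_eq hk hs).1
  have hsupp : Supp n (P (k.take s)) := Supp.P fun j hj => hk.2.1 j (List.mem_of_mem_take hj)
  have hσP : ∀ x, σ x = (P (k.take s))⁻¹ x := fun x => by rw [hσ, place_eq]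
  have hPσ : ∀ x, P (k.take s) (σ x) = x := fun x => by rw [hσP]; simp
  have hσmem : ∀ x, 1 ≤ x → x ≤ n → 1 ≤ σ x ∧ σ x ≤ n := fun x h1 h2 => by
    rw [hσP]
    exact hsupp.inv.mem h1 h2
  have hσinj : Function.Injective σ := fun a b h => by
    rw [← hPσ a, h, hPσ]
  rw [← hσ]
  -- the pairs with `i < j`
  have hlt : (((Finset.Icc 1 n) ×ˢ (Finset.Icc 1 n)).filter (fun p : ℕ × ℕ => p.1 < p.2 ∧ σ p.2 < σ p.1)).card = s := by
    rw [← hinv]
    refine Finset.card_bij (fun p _ => (σ p.2, σ p.1)) ?_ ?_ ?_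
    · rintro ⟨i, j⟩ hp
      simp only [Finset.mem_filter, Finset.mem_product, Finset.mem_Icc] at hp
      rw [mem_invSet, hPσ, hPσ]
      exact ⟨(hσmem j hp.1.2.1 hp.1.2.2).1, (hσmem i hp.1.1.1 hp.1.1.2).2, hp.2.2, hp.2.1⟩
    · rintro ⟨i, j⟩ _ ⟨i', j'⟩ _ h
      simp only [Prod.mk.injEq] at h
      rw [hσinj h.1, hσinj h.2]
    · rintro ⟨a, b⟩ h
      rw [mem_invSet] at h
      have e1 : ∀ x, σ (P (k.take s) x) = x := fun x => by rw [hσP]; simp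
      refine ⟨(P (k.take s) b, P (k.take s) a), ?_, by simp only [e1]⟩
      simp only [Finset.mem_filter, Finset.mem_product, Finset.mem_Icc, e1]
      have h1 := hsupp.mem (show 1 ≤ a from h.1) (by omega)
      have h2 := hsupp.mem (show 1 ≤ b by omega) h.2.1
      exact ⟨⟨h2, h1⟩, h.2.2.2, h.2.2.1⟩
  have hgt : (((Finset.Icc 1 n) ×ˢ (Finset.Icc 1 n)).filter (fun p : ℕ × ℕ => p.2 < p.1 ∧ σ p.1 < σ p.2)).card = s := by
    rw [← hlt]
    refine Finset.card_bij (fun p _ => (p.2, p.1)) ?_ ?_ ?_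
    · rintro ⟨i, j⟩ hp
      simp only [Finset.mem_filter, Finset.mem_product, Finset.mem_Icc] at hp ⊢
      tauto
    · rintro ⟨i, j⟩ _ ⟨i', j'⟩ _ h
      simp only [Prod.mk.injEq] at h
      rw [h.1, h.2]
    · rintro ⟨i, j⟩ hp
      simp only [Finset.mem_filter, Finset.mem_product, Finset.mem_Icc] at hp
      refine ⟨(j, i), ?_, rfl⟩
      simp only [Finset.mem_filter, Finset.mem_product, Finset.mem_Icc]
      tauto
  have hun : ((Finset.Icc 1 n) ×ˢ (Finset.Icc 1 n)).filter (fun p : ℕ × ℕ =>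
      ((p.1 : ℝ) - p.2) * ((σ p.1 : ℝ) - σ p.2) < 0) =
      ((Finset.Icc 1 n) ×ˢ (Finset.Icc 1 n)).filter (fun p : ℕ × ℕ => p.1 < p.2 ∧ σ p.2 < σ p.1) ∪
      ((Finset.Icc 1 n) ×ˢ (Finset.Icc 1 n)).filter (fun p : ℕ × ℕ => p.2 < p.1 ∧ σ p.1 < σ p.2) := by
    rw [← Finset.filter_or]
    refine Finset.filter_congr fun p _ => ?_
    rw [mul_neg_iff, sub_pos, sub_neg, sub_neg, sub_pos, Nat.cast_lt, Nat.cast_lt, Nat.cast_lt, Nat.cast_lt]
    tauto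
  rw [hun, Finset.card_union_of_disjoint, hlt, hgt]
  · ring
  · rw [Finset.disjoint_left]
    intro p h1 h2
    simp only [Finset.mem_filter] at h1 h2
    omega

theorem lintegral_eta (n : ℕ) (k : List ℕ) (t : ℝ) {f : ℝ × ℝ → ℝ≥0∞} (hf : Measurable f) :
    ∫⁻ x, f x ∂(eta n k t) = (n : ℝ≥0∞)⁻¹ * ∑ i ∈ Finset.Icc 1 n, f (glob n k i 0, glob n k i t) := by
  rw [eta, lintegral_smul_measure, lintegral_finsetSum_measure, smul_eq_mul]
  congr 1
  exact Finset.sum_congr rfl fun i _ => lintegral_dirac' _ hf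

theorem eta_prod_Iv {n : ℕ} (hn : 1 ≤ n) {k : List ℕ} (hk : IsNetwork n k) {t : ℝ} (ht : t ≤ 1) :
    ((eta n k t).prod (eta n k t)) Iv = ENNReal.ofReal (2 * (⌊(n.choose 2 : ℝ) * t⌋₊ : ℝ) / (n : ℝ) ^ 2) := by
  classical
  have := isProbabilityMeasure_eta hn k t
  obtain ⟨s, hs⟩ : ∃ s, s = ⌊(n.choose 2 : ℝ) * t⌋₊ := ⟨_, rfl⟩
  have hsN : s ≤ n.choose 2 := by
    rw [hs]
    refine Nat.floor_le_of_le ?_
    have : (0 : ℝ) ≤ (n.choose 2 : ℝ) := Nat.cast_nonneg _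
    nlinarith
  have hn0 : (0 : ℝ) < n := by exact_mod_cast hn
  rw [Measure.prod_apply measurableSet_Iv, lintegral_eta n k t (measurable_measure_prodMk_left measurableSet_Iv)]
  have h1 : ∀ i ∈ Finset.Icc 1 n, (eta n k t) (Prod.mk (glob n k i 0, glob n k i t) ⁻¹' Iv) =
      (n : ℝ≥0∞)⁻¹ * (((Finset.Icc 1 n).filter (fun j : ℕ => ((i : ℝ) - j) *
        ((place (k.take s) i : ℝ) - place (k.take s) j) < 0)).card : ℝ≥0∞) := by
    intro i _
    rw [eta_apply n k t (measurable_prodMk_left measurableSet_Iv)]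
    congr 3
    refine Finset.filter_congr fun j _ => ?_
    rw [mem_preimage]
    simp only [Iv, mem_ofPred_eq]
    rw [glob_zero, glob_zero, glob, glob, ← hs]
    have e1 : (2 * (i : ℝ) / n - 1 - (2 * (j : ℝ) / n - 1)) *
        (2 * (place (k.take s) i : ℝ) / n - 1 - (2 * (place (k.take s) j : ℝ) / n - 1)) =
        (4 / (n : ℝ) ^ 2) * (((i : ℝ) - j) * ((place (k.take s) i : ℝ) - place (k.take s) j)) := by
      field_simp
      ring
    rw [e1]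
    have e2 : 0 < 4 / (n : ℝ) ^ 2 := by positivity
    constructor
    · intro h
      by_contra hc
      push Not at hc
      have := mul_nonneg e2.le hc
      linarith
    · intro h
      exact mul_neg_of_pos_of_neg e2 h
  rw [Finset.sum_congr rfl h1, ← Finset.mul_sum]
  have h2 : ∑ i ∈ Finset.Icc 1 n, (((Finset.Icc 1 n).filter (fun j : ℕ => ((i : ℝ) - j) *
        ((place (k.take s) i : ℝ) - place (k.take s) j) < 0)).card : ℝ≥0∞) = ((2 * s : ℕ) : ℝ≥0∞) := by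
    rw [← count_inv hk hsN, Finset.card_filter, Finset.sum_product]
    push_cast
    refine Finset.sum_congr rfl fun i _ => ?_
    rw [Finset.card_filter]
    push_cast
    rfl
  rw [h2, ← hs]
  have hnn : (n : ℝ≥0∞)⁻¹ = ENNReal.ofReal ((n : ℝ)⁻¹) := by
    rw [ENNReal.ofReal_inv_of_pos hn0, ENNReal.ofReal_natCast]
  rw [hnn, ← ENNReal.ofReal_natCast, ← ENNReal.ofReal_mul (by positivity),
    ← ENNReal.ofReal_mul (by positivity)]
  congr 1
  push_cast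
  field_simp

theorem keyE (U : Set (ProbabilityMeasure (ℝ × ℝ))) (hU : IsOpen U)
    (hA : ∀ t ∈ Icc (0 : ℝ) 1, ∃ μ ∈ U, (μ : Measure (ℝ × ℝ)) = arch t)
    (E : ℕ → ℕ → List ℕ → Prop)
    (hC : ∀ (𝓕 : Ultrafilter ℕ) (n : ℕ → ℕ) (k : ℕ → List ℕ) (t : ℕ → ℝ) (μ : ℕ → ProbabilityMeasure (ℝ × ℝ))
      (ν : ProbabilityMeasure (ℝ × ℝ)) (t₀ : ℝ), (𝓕 : Filter ℕ) ≤ atTop → (∀ J, IsNetwork (n J) (k J)) →
      (∀ J, 1 ≤ n J) → Tendsto n 𝓕 atTop → (∀ J, t J ∈ Icc (0 : ℝ) 1) →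
      (∀ J, (μ J : Measure (ℝ × ℝ)) = eta (n J) (k J) (t J)) → Tendsto μ 𝓕 (𝓝 ν) → Tendsto t 𝓕 (𝓝 t₀) →
      t₀ ∈ Ioo (0 : ℝ) 1 → Crossed (ν : Measure (ℝ × ℝ)) → (∀ J j, j < J → ¬ E j (n J) (k J)) → ν ∈ U)
    (δ : ℕ → ℝ) (hδ : ∀ j, 0 < δ j) :
    ∃ J : ℕ, ∀ n ≥ J, 1 ≤ n → ∀ k, IsNetwork n k → Leaves n U k →
      ∃ j < J, Low (1 / ((j : ℝ) + 2)) (δ j) n k ∨ Low' (1 / ((j : ℝ) + 2)) (δ j) n k ∨ E j n k := by
  by_contra hcon
  push Not at hcon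
  choose n hn hn1 k hk hL hlow using hcon
  choose t ht hout using hL
  obtain ⟨μ, hμ⟩ : ∃ μ : ℕ → ProbabilityMeasure (ℝ × ℝ), ∀ J, (μ J : Measure (ℝ × ℝ)) = eta (n J) (k J) (t J) :=
    ⟨fun J => ⟨eta (n J) (k J) (t J), isProbabilityMeasure_eta (hn1 J) _ _⟩, fun J => rfl⟩
  have hμU : ∀ J, μ J ∉ U := fun J h => hout J _ h (hμ J)
  obtain ⟨𝓕, h𝓕⟩ : ∃ 𝓕 : Ultrafilter ℕ, (𝓕 : Filter ℕ) ≤ atTop := ⟨hyperfilter ℕ, Nat.hyperfilter_le_atTop⟩
  -- the limits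
  obtain ⟨ν, -, hν⟩ := isCompact_iff_ultrafilter_le_nhds'.1 compact_sq (𝓕.map μ) (by
    rw [Ultrafilter.mem_map]
    refine Filter.Eventually.of_forall fun J => ?_
    intro _
    have h1 : (μ J : Measure (ℝ × ℝ)) Sqᶜ = 0 := by
      rw [hμ]
      exact eta_Sq_compl (hk J) _
    have h2 : ((μ J Sqᶜ : ℝ≥0) : ℝ≥0∞) = 0 := by
      rw [ProbabilityMeasure.ennreal_coeFn_eq_coeFn_toMeasure]
      exact h1
    exact le_of_eq (by exact_mod_cast h2))
  replace hν : Tendsto μ 𝓕 (𝓝 ν) := hν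
  obtain ⟨t₀, ht₀, htt⟩ := isCompact_iff_ultrafilter_le_nhds'.1 (isCompact_Icc (a := (0 : ℝ)) (b := 1)) (𝓕.map t) (by
    rw [Ultrafilter.mem_map]
    exact Filter.Eventually.of_forall fun J => ht J)
  replace htt : Tendsto t 𝓕 (𝓝 t₀) := htt
  have hninf : Tendsto n 𝓕 atTop := (tendsto_atTop_mono hn tendsto_id).mono_left h𝓕
  have hf : (ν : Measure (ℝ × ℝ)).map Prod.fst = unif := marg_limit hν hninf continuous_fst (fun J => by
    rw [hμ]
    exact (eta_margins (hk J) _).1)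
  have hs : (ν : Measure (ℝ × ℝ)).map Prod.snd = unif := marg_limit hν hninf continuous_snd (fun J => by
    rw [hμ]
    exact (eta_margins (hk J) _).2)
  have hνU : ν ∉ U := by
    intro h
    have := hν.eventually (hU.mem_nhds h)
    obtain ⟨J, hJ⟩ := this.exists
    exact hμU J hJ
  rcases eq_or_lt_of_le ht₀.1 with h0 | h0
  · -- the time tends to zero
    obtain ⟨μ₀, hμ₀, hμ₀'⟩ := hA 0 ⟨le_rfl, zero_le_one⟩
    have h1 : (ν : Measure (ℝ × ℝ)) = unif.map (fun x => (x, x)) := by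
      refine graph_measure continuous_id (fun r hr => ?_) hf
      refine limit_null hν (isOpen_lt continuous_const (by fun_prop)) (a := fun J => 2 * t J / r) ?_ ?_
      · have := (htt.const_mul 2).div_const r
        rw [← h0] at this
        simpa using this
      · refine Eventually.of_forall fun J => ?_
        rw [hμ]
        refine le_trans (measure_mono ?_) (eta_diag (hn1 J) (hk J) (ht J).1 hr)
        intro p hp
        simp only [mem_ofPred_eq] at hp ⊢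
        rw [abs_sub_comm]
        exact hp.le
    have h2 : ν = μ₀ := by
      apply Subtype.ext
      show (ν : Measure (ℝ × ℝ)) = μ₀
      rw [hμ₀', arch_zero, h1]
    exact hνU (h2 ▸ hμ₀)
  rcases eq_or_lt_of_le ht₀.2 with h1 | h1
  · -- the time tends to one
    obtain ⟨μ₀, hμ₀, hμ₀'⟩ := hA 1 ⟨zero_le_one, le_rfl⟩
    have h2 : (ν : Measure (ℝ × ℝ)) = unif.map (fun x => (x, -x)) := by
      refine graph_measure continuous_neg (fun r hr => ?_) hf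
      refine limit_null hν (isOpen_lt continuous_const (by fun_prop)) (a := fun J => (2 * (1 - t J) + 4 / (n J : ℝ)) / r)
        ?_ ?_
      · have e1 : Tendsto (fun J => 4 / (n J : ℝ)) 𝓕 (𝓝 0) :=
          (tendsto_const_nhds.div_atTop tendsto_natCast_atTop_atTop).comp hninf
        have := ((((htt.const_sub 1).const_mul 2).add e1)).div_const r
        rw [h1] at this
        simpa using this
      · refine Eventually.of_forall fun J => ?_
        rw [hμ]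
        refine le_trans (measure_mono ?_) (eta_anti (hn1 J) (hk J) (ht J).2 hr)
        intro p hp
        simp only [mem_ofPred_eq] at hp ⊢
        have e2 : p.2 - -p.1 = p.1 + p.2 := by ring
        rw [e2] at hp
        exact hp.le
    have h3 : ν = μ₀ := by
      apply Subtype.ext
      show (ν : Measure (ℝ × ℝ)) = μ₀
      rw [hμ₀', arch_one, h2]
    exact hνU (h3 ▸ hμ₀)
  -- the time stays inside
  apply hνU
  have hpos : ∀ a ∈ Ioo (-1 : ℝ) 1, ∃ j : ℕ, a ∈ Icc (-1 + 1 / ((j : ℝ) + 2)) (1 - 1 / ((j : ℝ) + 2)) ∧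
      1 / ((j : ℝ) + 2) < t₀ ∧ t₀ < 1 - 1 / ((j : ℝ) + 2) := by
    intro a ha
    obtain ⟨m, hm⟩ : ∃ m : ℝ, m = min (min (a + 1) (1 - a)) (min t₀ (1 - t₀)) := ⟨_, rfl⟩
    have hm0 : 0 < m := by
      rw [hm]
      exact lt_min (lt_min (by linarith [ha.1]) (by linarith [ha.2])) (lt_min h0 (by linarith))
    obtain ⟨j, hj⟩ := exists_nat_one_div_lt hm0
    have h2 : 1 / ((j : ℝ) + 2) < m := by
      refine lt_of_le_of_lt ?_ hj
      exact one_div_le_one_div_of_le (by positivity) (by linarith)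
    have m1 : m ≤ a + 1 := by rw [hm]; exact (min_le_left _ _).trans (min_le_left _ _)
    have m2 : m ≤ 1 - a := by rw [hm]; exact (min_le_left _ _).trans (min_le_right _ _)
    have m3 : m ≤ t₀ := by rw [hm]; exact (min_le_right _ _).trans (min_le_left _ _)
    have m4 : m ≤ 1 - t₀ := by rw [hm]; exact (min_le_right _ _).trans (min_le_right _ _)
    exact ⟨j, ⟨by linarith, by linarith⟩, by linarith, by linarith⟩
  refine hC 𝓕 n k t μ ν t₀ h𝓕 hk hn1 hninf ht hμ hν htt ⟨h0, h1⟩ ⟨hf, hs, ?_, ?_⟩ (fun J j hj => (hlow J j hj).2.2)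
  · intro a ha h2
    obtain ⟨j, hj, hj1, hj2⟩ := hpos a ha
    have h3 : ∀ᶠ J in (𝓕 : Filter ℕ), (μ J : Measure (ℝ × ℝ)) (Rc a) < ENNReal.ofReal (δ j) := by
      refine hν.eventually ((SN8.isOpen_lt (isClosed_Icc.prod isClosed_Icc) _).mem_nhds ?_)
      show (ν : Measure (ℝ × ℝ)) (Rc a) < ENNReal.ofReal (δ j)
      rw [h2]
      exact ENNReal.ofReal_pos.2 (hδ j)
    have h4 : ∀ᶠ J in (𝓕 : Filter ℕ), 1 / ((j : ℝ) + 2) < t J := htt.eventually (lt_mem_nhds hj1)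
    have h5 : ∀ᶠ J in (𝓕 : Filter ℕ), j < J := h𝓕 (eventually_gt_atTop j)
    obtain ⟨J, h6, h7, h8⟩ := (h3.and (h4.and h5)).exists
    refine (hlow J j h8).1 ⟨t J, ⟨h7.le, (ht J).2⟩, a, hj, ?_⟩
    rw [← hμ]
    refine le_trans (measure_mono ?_) h6.le
    rintro ⟨x, y⟩ ⟨hx, hy⟩
    exact ⟨hx, hy.1.le, hy.2⟩
  · intro a ha h2
    obtain ⟨j, hj, hj1, hj2⟩ := hpos a ha
    have h3 : ∀ᶠ J in (𝓕 : Filter ℕ), (μ J : Measure (ℝ × ℝ)) (Rc' a) < ENNReal.ofReal (δ j) := by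
      refine hν.eventually ((SN8.isOpen_lt (isClosed_Icc.prod isClosed_Icc) _).mem_nhds ?_)
      show (ν : Measure (ℝ × ℝ)) (Rc' a) < ENNReal.ofReal (δ j)
      rw [h2]
      exact ENNReal.ofReal_pos.2 (hδ j)
    have h4 : ∀ᶠ J in (𝓕 : Filter ℕ), t J < 1 - 1 / ((j : ℝ) + 2) := htt.eventually (gt_mem_nhds hj2)
    have h5 : ∀ᶠ J in (𝓕 : Filter ℕ), j < J := h𝓕 (eventually_gt_atTop j)
    obtain ⟨J, h6, h7, h8⟩ := (h3.and (h4.and h5)).exists
    refine (hlow J j h8).2.1 ⟨t J, ⟨(ht J).1, h7.le⟩, a, hj, ?_⟩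
    rw [← hμ]
    refine le_trans (measure_mono ?_) h6.le
    rintro ⟨x, y⟩ ⟨hx, hy⟩
    exact ⟨hx, hy.1.le, hy.2⟩


/-- the events of the bands -/
def Bd (ε : ℝ) (n : ℕ) (k : List ℕ) : Prop :=
  ∃ t ∈ Icc (0 : ℝ) 1, ∃ a ∈ Icc (-1 : ℝ) 1,
    ENNReal.ofReal (2 / π * t * √(1 - a ^ 2) + ε) < eta n k t (Ro a) ∨
    ENNReal.ofReal (2 / π * (1 - t) * √(1 - a ^ 2) + ε) < eta n k t (Ro' a)

theorem floor_tendsto {l : Filter ℕ} {n : ℕ → ℕ} {t : ℕ → ℝ} {t₀ : ℝ} (hn1 : ∀ J, 1 ≤ n J) (hn : Tendsto n l atTop)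
    (ht : ∀ J, t J ∈ Icc (0 : ℝ) 1) (htt : Tendsto t l (𝓝 t₀)) :
    Tendsto (fun J => 2 * (⌊((n J).choose 2 : ℝ) * t J⌋₊ : ℝ) / (n J : ℝ) ^ 2) l (𝓝 t₀) := by
  have hnr : Tendsto (fun J => (n J : ℝ)) l atTop := tendsto_natCast_atTop_atTop.comp hn
  have hi : Tendsto (fun J => ((n J : ℝ))⁻¹) l (𝓝 0) := tendsto_inv_atTop_zero.comp hnr
  have e1 : Tendsto (fun J => t J * (1 - ((n J : ℝ))⁻¹)) l (𝓝 t₀) := by
    have := htt.mul (hi.const_sub 1)
    simpa using this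
  have e2 : Tendsto (fun J => t J * (1 - ((n J : ℝ))⁻¹) - 2 * (((n J : ℝ))⁻¹ * ((n J : ℝ))⁻¹)) l (𝓝 t₀) := by
    have := e1.sub ((hi.mul hi).const_mul 2)
    simpa using this
  refine tendsto_of_tendsto_of_tendsto_of_le_of_le e2 e1 ?_ ?_
  · intro J
    have h0 : (0 : ℝ) < n J := by exact_mod_cast hn1 J
    have h1 := Nat.lt_floor_add_one (((n J).choose 2 : ℝ) * t J)
    rw [choose_two_real] at h1
    simp only
    rw [choose_two_real, le_div_iff₀ (by positivity)]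
    have h2 : (t J * (1 - ((n J : ℝ))⁻¹) - 2 * (((n J : ℝ))⁻¹ * ((n J : ℝ))⁻¹)) * (n J : ℝ) ^ 2 =
        2 * ((n J : ℝ) * (n J - 1) / 2 * t J) - 2 := by
      field_simp
    rw [h2]
    linarith
  · intro J
    have h0 : (0 : ℝ) < n J := by exact_mod_cast hn1 J
    have h0' : (1 : ℝ) ≤ n J := by exact_mod_cast hn1 J
    have h1 := Nat.floor_le (show 0 ≤ ((n J).choose 2 : ℝ) * t J from mul_nonneg (Nat.cast_nonneg _) (ht J).1)
    rw [choose_two_real] at h1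
    simp only
    rw [choose_two_real, div_le_iff₀ (by positivity)]
    have h2 : (t J * (1 - ((n J : ℝ))⁻¹)) * (n J : ℝ) ^ 2 = 2 * ((n J : ℝ) * (n J - 1) / 2 * t J) := by
      field_simp
    rw [h2]
    linarith

/-- the band passes to the limit -/
theorem band_limit {𝓕 : Ultrafilter ℕ} {μ : ℕ → ProbabilityMeasure (ℝ × ℝ)} {ν : ProbabilityMeasure (ℝ × ℝ)}
    (hν : Tendsto μ 𝓕 (𝓝 ν)) (hf : (ν : Measure (ℝ × ℝ)).map Prod.fst = unif)
    (hs : (ν : Measure (ℝ × ℝ)).map Prod.snd = unif) {S O : Set (ℝ × ℝ)} (hO : IsOpen O) {a b : ℝ}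
    (hSO : S ⊆ O ∪ ({p | p.1 = a} ∪ {p | p.2 = b})) {f : ℕ → ℝ} {f₀ : ℝ} (hft : Tendsto f 𝓕 (𝓝 f₀))
    (h : ∀ ε : ℝ, 0 < ε → ∀ᶠ J in (𝓕 : Filter ℕ), (μ J : Measure (ℝ × ℝ)) O ≤ ENNReal.ofReal (f J + ε)) :
    (ν : Measure (ℝ × ℝ)) S ≤ ENNReal.ofReal f₀ := by
  have h1 : (ν : Measure (ℝ × ℝ)) S ≤ (ν : Measure (ℝ × ℝ)) O := by
    refine (measure_mono hSO).trans ((measure_union_le _ _).trans ?_)
    rw [measure_union_null (fst_line hf a) (snd_line hs b), add_zero]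
  refine h1.trans ?_
  have h2 := ProbabilityMeasure.le_liminf_measure_open_of_tendsto hν hO
  have h3 : ∀ ε : ℝ, 0 < ε → (ν : Measure (ℝ × ℝ)) O ≤ ENNReal.ofReal (f₀ + ε) := by
    intro ε hε
    refine h2.trans ?_
    have h4 : Tendsto (fun J => ENNReal.ofReal (f J + ε)) 𝓕 (𝓝 (ENNReal.ofReal (f₀ + ε))) :=
      ENNReal.tendsto_ofReal (hft.add_const ε)
    rw [← h4.liminf_eq]
    exact liminf_le_liminf (h ε hε)
  have h5 : Tendsto (fun ε : ℝ => ENNReal.ofReal (f₀ + ε)) (𝓝[>] 0) (𝓝 (ENNReal.ofReal (f₀ + 0))) :=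
    ENNReal.tendsto_ofReal (tendsto_const_nhds.add (tendsto_nhdsWithin_of_tendsto_nhds tendsto_id))
  rw [add_zero] at h5
  exact ge_of_tendsto h5 (eventually_nhdsWithin_of_forall fun ε hε => h3 ε hε)

theorem leaves_bound_adm
    (hlow : ∀ ε : ℝ, 0 < ε → ε < 1 → ∃ δ > (0 : ℝ), ∃ c₁ > (0 : ℝ), ∃ c₂ > (0 : ℝ), ∀ n : ℕ, 2 ≤ n →
      prob n (Low ε δ n) ≤ c₁ * Real.exp (-c₂ * (n : ℝ) ^ 2) ∧
      prob n (Low' ε δ n) ≤ c₁ * Real.exp (-c₂ * (n : ℝ) ^ 2))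
    (hband : ∀ ε : ℝ, 0 < ε → ∃ c₁ > (0 : ℝ), ∃ c₂ > (0 : ℝ), ∀ n : ℕ, 2 ≤ n →
      prob n (fun k => ∃ t ∈ Icc (0 : ℝ) 1, ∃ a ∈ Icc (-1 : ℝ) 1,
        ENNReal.ofReal (2 / π * t * √(1 - a ^ 2) + ε) < eta n k t (Ro a) ∨
        ENNReal.ofReal (2 / π * (1 - t) * √(1 - a ^ 2) + ε) < eta n k t (Ro' a)) ≤
      c₁ * Real.exp (-c₂ * (n : ℝ) ^ 2))
    (U : Set (ProbabilityMeasure (ℝ × ℝ))) (hU : IsOpen U)
    (hA : ∀ t ∈ Icc (0 : ℝ) 1, ∃ μ ∈ U, (μ : Measure (ℝ × ℝ)) = arch t)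
    (hC : ∀ t ∈ Ioo (0 : ℝ) 1, ∀ ν : ProbabilityMeasure (ℝ × ℝ), Adm t (ν : Measure (ℝ × ℝ)) → ν ∈ U) :
    ∃ c₁ > (0 : ℝ), ∃ c₂ > (0 : ℝ), ∀ n : ℕ, 2 ≤ n →
      prob n (Leaves n U) ≤ c₁ * Real.exp (-c₂ * (n : ℝ) ^ 2) := by
  have hlow' : ∀ j : ℕ, ∃ δ > (0 : ℝ), ∃ c₁ > (0 : ℝ), ∃ c₂ > (0 : ℝ), ∀ n : ℕ, 2 ≤ n →
      prob n (Low (1 / ((j : ℝ) + 2)) δ n) ≤ c₁ * Real.exp (-c₂ * (n : ℝ) ^ 2) ∧
      prob n (Low' (1 / ((j : ℝ) + 2)) δ n) ≤ c₁ * Real.exp (-c₂ * (n : ℝ) ^ 2) := fun j =>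
    hlow _ (by positivity) (by
      rw [div_lt_one (by positivity)]
      have : (0 : ℝ) ≤ j := Nat.cast_nonneg _
      linarith)
  have hband' : ∀ j : ℕ, ∃ c₁ > (0 : ℝ), ∃ c₂ > (0 : ℝ), ∀ n : ℕ, 2 ≤ n →
      prob n (Bd (1 / ((j : ℝ) + 2)) n) ≤ c₁ * Real.exp (-c₂ * (n : ℝ) ^ 2) := fun j => hband _ (by positivity)
  choose δ hδ a₁ ha₁ a₂ ha₂ hb using hlow'
  choose b₁ hb₁ b₂ hb₂ hbb using hband'
  obtain ⟨J, hJ⟩ := keyE U hU hA (fun j n k => Bd (1 / ((j : ℝ) + 2)) n k) (by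
    intro 𝓕 n k t μ ν t₀ h𝓕 hk hn1 hninf ht hμ hν htt ht₀ hcr hE
    have hnb : ∀ ε : ℝ, 0 < ε → ∀ᶠ J in (𝓕 : Filter ℕ), ¬ Bd ε (n J) (k J) := by
      intro ε hε
      obtain ⟨j, hj⟩ := exists_nat_one_div_lt hε
      have h1 : ∀ᶠ J in (𝓕 : Filter ℕ), j < J := h𝓕 (eventually_gt_atTop j)
      filter_upwards [h1] with J hJ hB
      refine hE J j hJ ?_
      obtain ⟨t, ht, a, ha, h2⟩ := hB
      have h3 : 1 / ((j : ℝ) + 2) ≤ ε := by
        refine le_trans (one_div_le_one_div_of_le (by positivity) (by linarith)) hj.le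
      refine ⟨t, ht, a, ha, h2.imp (fun h => lt_of_le_of_lt (ENNReal.ofReal_le_ofReal (by linarith)) h)
        (fun h => lt_of_le_of_lt (ENNReal.ofReal_le_ofReal (by linarith)) h)⟩
    refine hC t₀ ht₀ ν ⟨hcr.fst, hcr.snd, hcr.pos, hcr.pos', ?_, ?_, ?_⟩
    · intro a ha
      refine band_limit (a := a) (b := a) hν hcr.fst hcr.snd (O := Iio a ×ˢ Ioi a) (isOpen_Iio.prod isOpen_Ioi) ?_
        (f := fun J => 2 / π * t J * √(1 - a ^ 2)) ((htt.const_mul (2 / π)).mul_const _) ?_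
      · rintro ⟨x, y⟩ ⟨hx, hy⟩
        rcases eq_or_lt_of_le hx.2 with h1 | h1
        · exact Or.inr (Or.inl h1)
        · rcases eq_or_lt_of_le hy.1 with h2 | h2
          · exact Or.inr (Or.inr h2.symm)
          · exact Or.inl ⟨h1, h2⟩
      · intro ε hε
        filter_upwards [hnb ε hε] with J hJ
        by_contra hc
        push Not at hc
        refine hJ ⟨t J, ht J, a, ⟨ha.1.le, ha.2.le⟩, Or.inl (lt_of_lt_of_le hc ?_)⟩
        rw [hμ]
        refine eta_le_of_subset (hk J) _ (measurableSet_Iio.prod measurableSet_Ioi)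
          (measurableSet_Icc.prod measurableSet_Ioc) ?_
        rintro ⟨x, y⟩ ⟨⟨hx, hy⟩, hx', hy'⟩
        exact ⟨⟨hx'.1, le_of_lt hx⟩, hy, hy'.2⟩
    · intro a ha
      refine band_limit (a := -a) (b := a) hν hcr.fst hcr.snd (O := Ioi (-a) ×ˢ Ioi a) (isOpen_Ioi.prod isOpen_Ioi) ?_
        (f := fun J => 2 / π * (1 - t J) * √(1 - a ^ 2)) (((htt.const_sub 1).const_mul (2 / π)).mul_const _) ?_
      · rintro ⟨x, y⟩ ⟨hx, hy⟩
        rcases eq_or_lt_of_le hx.1 with h1 | h1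
        · exact Or.inr (Or.inl h1.symm)
        · rcases eq_or_lt_of_le hy.1 with h2 | h2
          · exact Or.inr (Or.inr h2.symm)
          · exact Or.inl ⟨h1, h2⟩
      · intro ε hε
        filter_upwards [hnb ε hε] with J hJ
        by_contra hc
        push Not at hc
        refine hJ ⟨t J, ht J, a, ⟨ha.1.le, ha.2.le⟩, Or.inr (lt_of_lt_of_le hc ?_)⟩
        rw [hμ]
        refine eta_le_of_subset (hk J) _ (measurableSet_Ioi.prod measurableSet_Ioi)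
          (measurableSet_Icc.prod measurableSet_Ioc) ?_
        rintro ⟨x, y⟩ ⟨⟨hx, hy⟩, hx', hy'⟩
        exact ⟨⟨le_of_lt hx, hx'.2⟩, hy, hy'.2⟩
    · have h1 : Tendsto (fun J => (μ J).prod (μ J)) 𝓕 (𝓝 (ν.prod ν)) :=
        (ProbabilityMeasure.continuous_prod.tendsto (ν, ν)).comp (hν.prodMk_nhds hν)
      have h2 := ProbabilityMeasure.tendsto_measure_of_null_frontier_of_tendsto' h1 (E := Iv)
        (frontier_Iv hcr.fst hcr.snd)
      have h3 : ∀ J, (((μ J).prod (μ J) : ProbabilityMeasure _) : Measure ((ℝ × ℝ) × (ℝ × ℝ))) Iv =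
          ENNReal.ofReal (2 * (⌊((n J).choose 2 : ℝ) * t J⌋₊ : ℝ) / (n J : ℝ) ^ 2) := by
        intro J
        rw [ProbabilityMeasure.toMeasure_prod, hμ]
        exact eta_prod_Iv (hn1 J) (hk J) (ht J).2
      simp only [h3] at h2
      exact tendsto_nhds_unique h2 (ENNReal.tendsto_ofReal (floor_tendsto hn1 hninf ht htt))) δ hδ
  -- a common exponent
  obtain ⟨c₂, hc₂, hc₂'⟩ : ∃ c₂ > (0 : ℝ), ∀ j < J, c₂ ≤ a₂ j ∧ c₂ ≤ b₂ j := by
    clear hJ
    induction J with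
    | zero => exact ⟨1, one_pos, fun j hj => absurd hj (Nat.not_lt_zero _)⟩
    | succ J ih =>
      obtain ⟨c, hc, hc'⟩ := ih
      refine ⟨min c (min (a₂ J) (b₂ J)), lt_min hc (lt_min (ha₂ J) (hb₂ J)), fun j hj => ?_⟩
      rcases Nat.lt_succ_iff_lt_or_eq.1 hj with h1 | rfl
      · exact ⟨(min_le_left _ _).trans (hc' j h1).1, (min_le_left _ _).trans (hc' j h1).2⟩
      · exact ⟨(min_le_right _ _).trans (min_le_left _ _), (min_le_right _ _).trans (min_le_right _ _)⟩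
  obtain ⟨S, hS⟩ : ∃ S : ℝ, S = ∑ j ∈ Finset.range J, (2 * a₁ j + b₁ j) := ⟨_, rfl⟩
  have hS0 : 0 ≤ S := by
    rw [hS]
    exact Finset.sum_nonneg fun j _ => by
      have := ha₁ j
      have := hb₁ j
      positivity
  refine ⟨S + Real.exp (c₂ * (J : ℝ) ^ 2), by positivity, c₂, hc₂, ?_⟩
  intro n hn
  have hexp : 0 < Real.exp (-c₂ * (n : ℝ) ^ 2) := Real.exp_pos _
  rcases lt_or_ge n J with h1 | h1
  · refine (prob_le_one n _).trans ?_
    have h2 : 1 ≤ Real.exp (c₂ * (J : ℝ) ^ 2) * Real.exp (-c₂ * (n : ℝ) ^ 2) := by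
      rw [← Real.exp_add]
      apply Real.one_le_exp
      have h3 : (n : ℝ) ≤ J := by exact_mod_cast h1.le
      have h4 : (n : ℝ) ^ 2 ≤ (J : ℝ) ^ 2 := by gcongr
      nlinarith
    have h3 : 0 ≤ S * Real.exp (-c₂ * (n : ℝ) ^ 2) := by positivity
    rw [add_mul]
    linarith
  · have h2 : prob n (Leaves n U) ≤ ∑ j ∈ Finset.range J,
        prob n (fun k => Low (1 / ((j : ℝ) + 2)) (δ j) n k ∨ Low' (1 / ((j : ℝ) + 2)) (δ j) n k ∨
          Bd (1 / ((j : ℝ) + 2)) n k) := by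
      refine le_trans (prob_mono ?_) (prob_exists_le n _ J)
      intro k hk hL
      exact hJ n h1 (by omega) k hk hL
    have h3 : ∑ j ∈ Finset.range J,
        prob n (fun k => Low (1 / ((j : ℝ) + 2)) (δ j) n k ∨ Low' (1 / ((j : ℝ) + 2)) (δ j) n k ∨
          Bd (1 / ((j : ℝ) + 2)) n k) ≤
        ∑ j ∈ Finset.range J, (2 * a₁ j + b₁ j) * Real.exp (-c₂ * (n : ℝ) ^ 2) := by
      refine Finset.sum_le_sum fun j hj => ?_
      rw [Finset.mem_range] at hj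
      obtain ⟨h4, h5⟩ := hb j n hn
      have h4' := hbb j n hn
      have hx : ∀ c : ℝ, c₂ ≤ c → Real.exp (-c * (n : ℝ) ^ 2) ≤ Real.exp (-c₂ * (n : ℝ) ^ 2) := by
        intro c hc
        apply Real.exp_le_exp.2
        have h8 : (0 : ℝ) ≤ (n : ℝ) ^ 2 := by positivity
        nlinarith
      have h7 : a₁ j * Real.exp (-a₂ j * (n : ℝ) ^ 2) ≤ a₁ j * Real.exp (-c₂ * (n : ℝ) ^ 2) :=
        mul_le_mul_of_nonneg_left (hx _ (hc₂' j hj).1) (ha₁ j).le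
      have h7' : b₁ j * Real.exp (-b₂ j * (n : ℝ) ^ 2) ≤ b₁ j * Real.exp (-c₂ * (n : ℝ) ^ 2) :=
        mul_le_mul_of_nonneg_left (hx _ (hc₂' j hj).2) (hb₁ j).le
      have h8 := prob_or_le n (Low (1 / ((j : ℝ) + 2)) (δ j) n)
        (fun k => Low' (1 / ((j : ℝ) + 2)) (δ j) n k ∨ Bd (1 / ((j : ℝ) + 2)) n k)
      have h9 := prob_or_le n (Low' (1 / ((j : ℝ) + 2)) (δ j) n) (Bd (1 / ((j : ℝ) + 2)) n)
      linarith
    rw [← Finset.sum_mul, ← hS] at h3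
    have h4 : 0 ≤ Real.exp (c₂ * (J : ℝ) ^ 2) * Real.exp (-c₂ * (n : ℝ) ^ 2) := by positivity
    rw [add_mul]
    linarith

end Pool.Agent.SNL63
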