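import Pool.Agent.SNL63.NetEG

/-!
Few particles beyond a place: the shapes of such networks contain a cell.
-/

namespace Pool.Agent.SNL63

open Pool.Agent.SN8 Finset

/-- If at most `c` of the particles beyond `M` are carried beyond the place `K`, then row
`n - c - K - 1` has at least `n - c - M` cells. -/
theorem cell_of_few {n M K c : ℕ} {T : List (List ℕ)} (hT : Tab T)
    (hr : ∀ j ∈ word T, 1 ≤ j ∧ j + 1 ≤ n) (hK : c + K < n)
    (H : ((Icc (M + 1) n).filter (fun x => K < place (word T) x)).card ≤ c) :
    n - c - M ≤ shp T (n - c - K - 1) := by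
  set M' := n - c - K - 1 with hM'
  set B := T.drop M' with hB
  set C := T.take M' with hC
  have hw : word T = word B ++ word C := by
    rw [← word_append, hB, hC, List.take_append_drop]
  have hsupp : Supp n (P (word B)) := Supp.P fun j hj => hr j (by rw [hw]; simp [hj])
  have hCl : C.length ≤ M' := by rw [hC, List.length_take]; omega
  have key : ∃ j ≤ c, P (word B) (n - j) ≤ M := by
    by_contra hno
    push Not at hno
    have hsub : (range (c + 1)).image (fun j => P (word B) (n - j)) ⊆
        (Icc (M + 1) n).filter (fun x => K < place (word T) x) := by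
      intro z hz
      rw [mem_image] at hz
      obtain ⟨j, hj, rfl⟩ := hz
      rw [mem_range] at hj
      have hz2 := hsupp.mem (x := n - j) (by omega) (by omega)
      have hz3 := hno j (by omega)
      rw [mem_filter, mem_Icc]
      refine ⟨⟨by omega, hz2.2⟩, ?_⟩
      have hpz : place (word B) (P (word B) (n - j)) = n - j := by rw [place_eq]; simp
      have h1 := disp_rows (T := C) (fun R hR => hT.inc_mem R (List.mem_of_mem_take hR)) (n - j)
      rw [hw, place_append, hpz]
      omega
    have hcard := card_le_card hsub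
    rw [card_image_of_injOn, card_range] at hcard
    · omega
    · intro a ha b hb hab
      simp only [coe_range, Set.mem_Iio] at ha hb
      have := (P (word B)).injective hab
      omega
  obtain ⟨j, hj, hjM⟩ := key
  have hpz : place (word B) (P (word B) (n - j)) = n - j := by rw [place_eq]; simp
  have h3 := disp_cols (shp T M') (T := B) (hT.drop _).tb (by
    rw [hB, shp]
    simp [List.headD_eq_head?_getD, List.head?_drop, List.getD_eq_getElem?_getD])
    (P (word B) (n - j))
  rw [hpz] at h3
  omega

/-- the shape of the reversed network at time `N - s` -/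
def shapeAt (n s : ℕ) (k : List ℕ) : ℕ → ℕ := shp (tab (k.reverse.take (n.choose 2 - s)))

/-- The number of ways to remove `s + k` cells, corner by corner, such that the shape after the
first `s` removals satisfies `Q`. -/
def AQ (n : ℕ) (Q : (ℕ → ℕ) → Prop) [DecidablePred Q] : ℕ → ℕ → (ℕ → ℕ) → ℕ
  | 0, k, lam => if Q lam then F n k lam else 0
  | s + 1, k, lam => ∑ i ∈ corners n lam, AQ n Q s k (dec lam i)

theorem A_eq_AQ (n M K : ℕ) : ∀ (s k : ℕ) (lam : ℕ → ℕ),
    SNL63.A n M K s k lam = AQ n (fun lam => K ≤ lam (M - 1)) s k lam := by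
  intro s
  induction s with
  | zero => intro k lam; rw [SNL63.A, AQ]
  | succ s ih =>
    intro k lam
    rw [SNL63.A, AQ]
    exact Finset.sum_congr rfl fun i _ => ih k _

theorem AQ_mono {n : ℕ} {Q R : (ℕ → ℕ) → Prop} [DecidablePred Q] [DecidablePred R]
    (h : ∀ lam, Q lam → R lam) : ∀ (s k : ℕ) (lam : ℕ → ℕ), AQ n Q s k lam ≤ AQ n R s k lam := by
  intro s
  induction s with
  | zero =>
    intro k lam
    rw [AQ, AQ]
    by_cases hq : Q lam
    · rw [if_pos hq, if_pos (h lam hq)]
    · rw [if_neg hq]; exact Nat.zero_le _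
  | succ s ih =>
    intro k lam
    rw [AQ, AQ]
    exact Finset.sum_le_sum fun i _ => ih k _

theorem AQ_le_F {n : ℕ} (Q : (ℕ → ℕ) → Prop) [DecidablePred Q] : ∀ (s k : ℕ) (lam : ℕ → ℕ),
    AQ n Q s k lam ≤ F n (s + k) lam := by
  intro s
  induction s with
  | zero =>
    intro k lam
    rw [AQ, Nat.zero_add]
    split_ifs
    · exact le_rfl
    · exact Nat.zero_le _
  | succ s ih =>
    intro k lam
    rw [AQ, Nat.add_right_comm, F]
    exact Finset.sum_le_sum fun i _ => ih k _

/-- weighted sums over the shapes after `s` removals -/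
noncomputable def AV (n : ℕ) (v : (ℕ → ℕ) → ℝ) : ℕ → ℕ → (ℕ → ℕ) → ℝ
  | 0, k, lam => v lam * F n k lam
  | s + 1, k, lam => ∑ i ∈ corners n lam, AV n v s k (dec lam i)

/-- The shapes inside: `AQ` is at most `AV` if the weight is nonnegative, and at least `1` on the
shapes of size `k` inside the given one for which `Q` holds. -/
theorem AQ_le_AV {n : ℕ} {Q : (ℕ → ℕ) → Prop} [DecidablePred Q] {v : (ℕ → ℕ) → ℝ}
    (hv : ∀ lam, 0 ≤ v lam) (I : ℕ → (ℕ → ℕ) → Prop)
    (hI : ∀ s lam, I (s + 1) lam → ∀ i ∈ corners n lam, I s (dec lam i))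
    (h : ∀ lam, I 0 lam → Q lam → 1 ≤ v lam) : ∀ (s k : ℕ) (lam : ℕ → ℕ), I s lam →
      (AQ n Q s k lam : ℝ) ≤ AV n v s k lam := by
  intro s
  induction s with
  | zero =>
    intro k lam hl
    rw [AQ, AV]
    split_ifs with hq
    · have h1 := h lam hl hq
      have h2 : (0 : ℝ) ≤ F n k lam := Nat.cast_nonneg _
      nlinarith
    · have h1 := hv lam
      push_cast
      positivity
  | succ s ih =>
    intro k lam hl
    rw [AQ, AV]
    push_cast
    exact Finset.sum_le_sum fun i hi => ih k _ (hI s lam hl i hi)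

theorem fib_card_Q {n : ℕ} (Q : (ℕ → ℕ) → Prop) [DecidablePred Q] : ∀ (s : ℕ) {k : ℕ}
    {T : List (List ℕ)}, Tab T → Red n (word T) → (word T).length = s + k →
    ({a | a ∈ Fib n T ∧ Q (shp (tab (a.take k)))} : Set (List ℕ)).ncard = AQ n Q s k (shp T) := by
  intro s
  induction s with
  | zero =>
    intro k T hT hr hl
    have e : ∀ a ∈ Fib n T, shp (tab (a.take k)) = shp T := by
      intro a ha
      rw [List.take_of_length_le (by rw [fib_length ha]; omega), ha.2]
    rw [AQ]
    split_ifs with h
    · rw [← fib_card k hT hr (by omega)]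
      congr 1
      ext a
      constructor
      · exact fun h => h.1
      · intro ha; exact ⟨ha, by rw [e a ha]; exact h⟩
    · rw [Set.ncard_eq_zero ((fib_finite n T).subset fun a ha => ha.1)]
      ext a
      simp only [Set.mem_ofPred_eq, Set.mem_empty_iff_false, iff_false, not_and]
      intro ha
      rw [e a ha]; exact h
  | succ s ih =>
    intro k T hT hr hl
    obtain ⟨Tp, h1, h2⟩ := step hT hr (ℓ := s + k) (by omega)
    have h3 := h2 (fun a => Q (shp (tab (a.take k))))
    have h4 : ({a | a ∈ Fib n T ∧ Q (shp (tab (a.take k)))} : Set (List ℕ)) =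
        {a | a ∈ Fib n T ∧ Q (shp (tab (a.dropLast.take k)))} := by
      ext a
      simp only [Set.mem_ofPred_eq]
      refine and_congr_right fun ha => ?_
      have hlen := fib_length ha
      rw [List.dropLast_eq_take, List.take_take, min_eq_left (by omega)]
    rw [h4, h3, AQ]
    refine Finset.sum_congr rfl fun i hi => ?_
    obtain ⟨a1, a2, a3, a4⟩ := h1 i hi
    rw [ih a1 a2 a3, a4]

/-- The number of networks whose shape at the step `s` satisfies `Q`. -/
theorem net_card_Q {n s : ℕ} (hs : s ≤ n.choose 2) (Q : (ℕ → ℕ) → Prop) [DecidablePred Q] :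
    ({k | IsNetwork n k ∧ Q (shapeAt n s k)} : Set (List ℕ)).ncard =
      AQ n Q s (n.choose 2 - s) (stair n) := by
  obtain ⟨h1, h2, h3⟩ := T0_tab n
  rw [← shp_T0, ← fib_card_Q Q s h1 h2 (by omega),
    ← Set.ncard_image_of_injective {k | IsNetwork n k ∧ Q (shapeAt n s k)}
      List.reverse_injective]
  congr 1
  ext a
  simp only [Set.mem_image, Set.mem_ofPred_eq]
  constructor
  · rintro ⟨k, ⟨hk, hq⟩, rfl⟩
    exact ⟨(net_iff n _).mp (reverse_network hk), hq⟩
  · rintro ⟨ha, hq⟩
    refine ⟨a.reverse, ⟨reverse_network ((net_iff n _).mpr ha), ?_⟩, List.reverse_reverse a⟩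
    rw [shapeAt, List.reverse_reverse]
    exact hq

/-- the number of the particles `x ≤ m` which are beyond the place `m'` after the word `l` -/
def cross2 (m m' : ℕ) (l : List ℕ) : ℕ := ((Icc 1 m).filter (fun x => m' < place l x)).card

lemma red_take_reverse {n s : ℕ} {k : List ℕ} (hk : IsNetwork n k) :
    Red n (k.reverse.take (n.choose 2 - s)) := by
  have := red_of_network (reverse_network hk)
  rw [← List.take_append_drop (n.choose 2 - s) k.reverse] at this
  exact this.left

/-- Few particles `x ≤ m` beyond the place `m'`: the shape contains a cell. -/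
theorem cell_of_cross2 {n m m' c s : ℕ} {k : List ℕ} (hk : IsNetwork n k) (hm : m ≤ n)
    (hc : c + m' < n) (h : cross2 m m' (k.take s) ≤ c) :
    m - c ≤ shapeAt n s k (n - c - m' - 1) := by
  have hr := red_take_reverse (s := s) hk
  obtain ⟨t1, t2, t3, t4⟩ := tab_spec hr
  have := cell_of_few (n := n) (M := n - m) (K := m') (c := c) t1
    (fun j hj => hr.1 j (t4 j hj)) hc ?_
  · rw [shapeAt]
    omega
  · refine le_trans ?_ h
    rw [cross2]
    apply card_le_card_of_injOn (fun x => n + 1 - x)
    · intro x hx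
      simp only [coe_filter, mem_Icc, Set.mem_ofPred_eq] at hx ⊢
      obtain ⟨⟨hx1, hx2⟩, hx3⟩ := hx
      rw [place_congr t2, place_reverse hk, rev_apply, if_pos ⟨by omega, hx2⟩] at hx3
      exact ⟨by omega, hx3⟩
    · intro x hx y hy hxy
      simp only [coe_filter, mem_Icc, Set.mem_ofPred_eq] at hx hy hxy
      omega

/-- The number of networks with few crossings and a property of the shape. -/
theorem cross2_card_le {n m m' c s : ℕ} (hs : s ≤ n.choose 2) (hm : m ≤ n) (hc : c + m' < n) :
    ({k | IsNetwork n k ∧ cross2 m m' (k.take s) ≤ c} : Set (List ℕ)).ncard ≤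
      AQ n (fun lam => m - c ≤ lam (n - c - m' - 1)) s (n.choose 2 - s) (stair n) := by
  rw [← net_card_Q hs]
  exact Set.ncard_le_ncard (fun k hk => ⟨hk.1, cell_of_cross2 hk.1 hm hc hk.2⟩)
    ((networks_finite n).subset fun k hk => hk.1)

end Pool.Agent.SNL63
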