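import Pool.Agent.SNL63.SDefs
import Pool.Agent.SNL63.CellC

/-!
Definitions for the limit shape: the depth profile, its Stieltjes transform, the sum over the
removed cells, and the permutons allowed by the limit shape.
-/

namespace Pool.Agent.SNL63

open Pool.Agent.SN8 MeasureTheory Set Filter Topology
open scoped ENNReal Real

/-- the rescaled number of cells of content `u` removed up to time `t` -/
noncomputable def DD (u t : ℝ) : ℝ := 1 / π * ∫ x in (0 : ℝ)..t, √(1 - u ^ 2 - x ^ 2) / (1 - x ^ 2)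

/-- the limit of `HH n lam (n ζ) / (n (1 - τ))` -/
noncomputable def Hlim (τ ζ : ℝ) : ℝ := (τ * ζ + √(ζ ^ 2 - (1 - τ ^ 2))) / (1 - τ ^ 2)

/-- the sum of `g` over the rescaled contents of the cells of the staircase outside `lam` -/
noncomputable def rsum (g : ℝ → ℝ) (n : ℕ) (lam : ℕ → ℕ) : ℝ :=
  ∑ i ∈ Finset.range n, ∑ j ∈ Finset.Ico (lam i) (n - 1 - i), g (((j : ℝ) - i) / n)

/-- Permutons of time `t`: uniform marginals, inversion density `t`, the crossing masses are at most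
those allowed by the semicircle law, and the masses of the quadrants `[-1,a] × [b,1]` and
`[-a,1] × [b,1]` are at least those forced by the limit shape. -/
structure Adm2 (t : ℝ) (ν : Measure (ℝ × ℝ)) : Prop where
  fst : ν.map Prod.fst = unif
  snd : ν.map Prod.snd = unif
  band : ∀ a ∈ Ioo (-1 : ℝ) 1, ν (Rc a) ≤ ENNReal.ofReal (2 / π * t * √(1 - a ^ 2))
  band' : ∀ a ∈ Ioo (-1 : ℝ) 1, ν (Rc' a) ≤ ENNReal.ofReal (2 / π * (1 - t) * √(1 - a ^ 2))
  low : ∀ a ∈ Icc (-1 : ℝ) 1, ∀ b ∈ Icc (-1 : ℝ) 1,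
    ENNReal.ofReal (DD ((a + b) / 2) t + (a - b) / 4) ≤ ν (Icc (-1) a ×ˢ Icc b 1)
  low' : ∀ a ∈ Icc (-1 : ℝ) 1, ∀ b ∈ Icc (-1 : ℝ) 1,
    ENNReal.ofReal (DD ((a + b) / 2) (1 - t) + (a - b) / 4) ≤ ν (Icc (-a) 1 ×ˢ Icc b 1)
  inv : (ν.prod ν) {p | (p.1.1 - p.2.1) * (p.1.2 - p.2.2) < 0} = ENNReal.ofReal t

end Pool.Agent.SNL63
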