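import Pool.Agent.SNL63.SwapLD
import Pool.Agent.SNL63.PDefs

/-!
# Compactness: the event that `eta` leaves an open set which contains all permutons allowed by the
semicircle law and the limit shape
-/

namespace Pool.Agent.SNL63

open MeasureTheory Set Filter Topology Pool.Agent.SN8
open scoped ENNReal Real NNReal BoundedContinuousFunction

/-- the events of the quadrants -/
def Qd (ε : ℝ) (n : ℕ) (k : List ℕ) : Prop :=
  ∃ t ∈ Icc (0 : ℝ) 1, ∃ a ∈ Icc (-1 : ℝ) 1, ∃ b ∈ Icc (-1 : ℝ) 1,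
    eta n k t (Icc (-1) a ×ˢ Ioc b 1) < ENNReal.ofReal (DD ((a + b) / 2) t + (a - b) / 4 - ε) ∨
    eta n k t (Icc (-a) 1 ×ˢ Ioc b 1) <
      ENNReal.ofReal (DD ((a + b) / 2) (1 - t) + (a - b) / 4 - ε)

/-- lower bounds of the masses of closed sets pass to the limit -/
theorem low_limit {𝓕 : Ultrafilter ℕ} {μ : ℕ → ProbabilityMeasure (ℝ × ℝ)}
    {ν : ProbabilityMeasure (ℝ × ℝ)} (hν : Tendsto μ 𝓕 (𝓝 ν)) {C : Set (ℝ × ℝ)} (hC : IsClosed C)
    {f : ℕ → ℝ} {f₀ : ℝ} (hft : Tendsto f 𝓕 (𝓝 f₀))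
    (h : ∀ ε : ℝ, 0 < ε → ∀ᶠ J in (𝓕 : Filter ℕ),
      ENNReal.ofReal (f J - ε) ≤ (μ J : Measure (ℝ × ℝ)) C) :
    ENNReal.ofReal f₀ ≤ (ν : Measure (ℝ × ℝ)) C := by
  have h2 := ProbabilityMeasure.limsup_measure_closed_le_of_tendsto hν hC
  have h3 : ∀ ε : ℝ, 0 < ε → ENNReal.ofReal (f₀ - ε) ≤ (ν : Measure (ℝ × ℝ)) C := by
    intro ε hε
    refine le_trans ?_ h2
    have h4 : Tendsto (fun J => ENNReal.ofReal (f J - ε)) 𝓕 (𝓝 (ENNReal.ofReal (f₀ - ε))) :=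
      ENNReal.tendsto_ofReal (hft.sub_const ε)
    rw [← h4.limsup_eq]
    exact limsup_le_limsup (h ε hε)
  have h5 : Tendsto (fun ε : ℝ => ENNReal.ofReal (f₀ - ε)) (𝓝[>] 0) (𝓝 (ENNReal.ofReal (f₀ - 0))) :=
    ENNReal.tendsto_ofReal (tendsto_const_nhds.sub (tendsto_nhdsWithin_of_tendsto_nhds tendsto_id))
  rw [sub_zero] at h5
  exact le_of_tendsto h5 (eventually_nhdsWithin_of_forall fun ε hε => h3 ε hε)

theorem leaves_bound_adm2
    (hcont : ∀ u : ℝ, ContinuousOn (DD u) (Icc 0 1))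
    (hquad : ∀ ε : ℝ, 0 < ε → ∃ c₁ > (0 : ℝ), ∃ c₂ > (0 : ℝ), ∀ n : ℕ, 2 ≤ n →
      prob n (fun k => ∃ t ∈ Icc (0 : ℝ) 1, ∃ a ∈ Icc (-1 : ℝ) 1, ∃ b ∈ Icc (-1 : ℝ) 1,
        eta n k t (Icc (-1) a ×ˢ Ioc b 1) < ENNReal.ofReal (DD ((a + b) / 2) t + (a - b) / 4 - ε) ∨
        eta n k t (Icc (-a) 1 ×ˢ Ioc b 1) <
          ENNReal.ofReal (DD ((a + b) / 2) (1 - t) + (a - b) / 4 - ε)) ≤
      c₁ * Real.exp (-c₂ * (n : ℝ) ^ 2))
    (U : Set (ProbabilityMeasure (ℝ × ℝ))) (hU : IsOpen U)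
    (hA : ∀ t ∈ Icc (0 : ℝ) 1, ∃ μ ∈ U, (μ : Measure (ℝ × ℝ)) = arch t)
    (hC : ∀ t ∈ Ioo (0 : ℝ) 1, ∀ ν : ProbabilityMeasure (ℝ × ℝ),
      Adm2 t (ν : Measure (ℝ × ℝ)) → ν ∈ U) :
    ∃ c₁ > (0 : ℝ), ∃ c₂ > (0 : ℝ), ∀ n : ℕ, 2 ≤ n →
      prob n (Leaves n U) ≤ c₁ * Real.exp (-c₂ * (n : ℝ) ^ 2) := by
  have hlow' : ∀ j : ℕ, ∃ δ > (0 : ℝ), ∃ c₁ > (0 : ℝ), ∃ c₂ > (0 : ℝ), ∀ n : ℕ, 2 ≤ n →
      prob n (Low (1 / ((j : ℝ) + 2)) δ n) ≤ c₁ * Real.exp (-c₂ * (n : ℝ) ^ 2) ∧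
      prob n (Low' (1 / ((j : ℝ) + 2)) δ n) ≤ c₁ * Real.exp (-c₂ * (n : ℝ) ^ 2) := fun j =>
    low_bound' (by positivity) (by
      rw [div_lt_one (by positivity)]
      have : (0 : ℝ) ≤ j := Nat.cast_nonneg _
      linarith)
  have hband' : ∀ j : ℕ, ∃ c₁ > (0 : ℝ), ∃ c₂ > (0 : ℝ), ∀ n : ℕ, 2 ≤ n →
      prob n (Bd (1 / ((j : ℝ) + 2)) n) ≤ c₁ * Real.exp (-c₂ * (n : ℝ) ^ 2) :=
    fun j => band (by positivity)
  have hquad' : ∀ j : ℕ, ∃ c₁ > (0 : ℝ), ∃ c₂ > (0 : ℝ), ∀ n : ℕ, 2 ≤ n →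
      prob n (Qd (1 / ((j : ℝ) + 2)) n) ≤ c₁ * Real.exp (-c₂ * (n : ℝ) ^ 2) :=
    fun j => hquad _ (by positivity)
  choose δ hδ a₁ ha₁ a₂ ha₂ hb using hlow'
  choose b₁ hb₁ b₂ hb₂ hbb using hband'
  choose d₁ hd₁ d₂ hd₂ hdd using hquad'
  obtain ⟨J, hJ⟩ := keyE U hU hA (fun j n k => Bd (1 / ((j : ℝ) + 2)) n k ∨ Qd (1 / ((j : ℝ) + 2)) n k) (by
    intro 𝓕 n k t μ ν t₀ h𝓕 hk hn1 hninf ht hμ hν htt ht₀ hcr hE
    have hnb : ∀ ε : ℝ, 0 < ε → ∀ᶠ J in (𝓕 : Filter ℕ), ¬ Bd ε (n J) (k J) := by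
      intro ε hε
      obtain ⟨j, hj⟩ := exists_nat_one_div_lt hε
      have h1 : ∀ᶠ J in (𝓕 : Filter ℕ), j < J := h𝓕 (eventually_gt_atTop j)
      filter_upwards [h1] with J hJ hB
      refine hE J j hJ (Or.inl ?_)
      obtain ⟨t, ht, a, ha, h2⟩ := hB
      have h3 : 1 / ((j : ℝ) + 2) ≤ ε := by
        refine le_trans (one_div_le_one_div_of_le (by positivity) (by linarith)) hj.le
      refine ⟨t, ht, a, ha, h2.imp (fun h => lt_of_le_of_lt (ENNReal.ofReal_le_ofReal (by linarith)) h)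
        (fun h => lt_of_le_of_lt (ENNReal.ofReal_le_ofReal (by linarith)) h)⟩
    have hnq : ∀ ε : ℝ, 0 < ε → ∀ᶠ J in (𝓕 : Filter ℕ), ¬ Qd ε (n J) (k J) := by
      intro ε hε
      obtain ⟨j, hj⟩ := exists_nat_one_div_lt hε
      have h1 : ∀ᶠ J in (𝓕 : Filter ℕ), j < J := h𝓕 (eventually_gt_atTop j)
      filter_upwards [h1] with J hJ hB
      refine hE J j hJ (Or.inr ?_)
      obtain ⟨t, ht, a, ha, b, hb, h2⟩ := hB
      have h3 : 1 / ((j : ℝ) + 2) ≤ ε := by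
        refine le_trans (one_div_le_one_div_of_le (by positivity) (by linarith)) hj.le
      refine ⟨t, ht, a, ha, b, hb,
        h2.imp (fun h => lt_of_lt_of_le h (ENNReal.ofReal_le_ofReal (by linarith)))
        (fun h => lt_of_lt_of_le h (ENNReal.ofReal_le_ofReal (by linarith)))⟩
    have hDt : ∀ u : ℝ, Tendsto (fun J => DD u (t J)) 𝓕 (𝓝 (DD u t₀)) := by
      intro u
      have h1 := (hcont u).continuousWithinAt (x := t₀) ⟨ht₀.1.le, ht₀.2.le⟩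
      refine h1.tendsto.comp ?_
      rw [tendsto_nhdsWithin_iff]
      exact ⟨htt, Eventually.of_forall ht⟩
    have hDt' : ∀ u : ℝ, Tendsto (fun J => DD u (1 - t J)) 𝓕 (𝓝 (DD u (1 - t₀))) := by
      intro u
      have h1 := (hcont u).continuousWithinAt (x := 1 - t₀) ⟨by linarith [ht₀.2], by linarith [ht₀.1]⟩
      refine h1.tendsto.comp ?_
      rw [tendsto_nhdsWithin_iff]
      exact ⟨htt.const_sub 1, Eventually.of_forall fun J =>
        ⟨by linarith [(ht J).2], by linarith [(ht J).1]⟩⟩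
    refine hC t₀ ht₀ ν ⟨hcr.fst, hcr.snd, ?_, ?_, ?_, ?_, ?_⟩
    · intro a ha
      refine band_limit (a := a) (b := a) hν hcr.fst hcr.snd (O := Iio a ×ˢ Ioi a) (isOpen_Iio.prod isOpen_Ioi) ?_
        (f := fun J => 2 / π * t J * √(1 - a ^ 2)) ((htt.const_mul (2 / π)).mul_const _) ?_
      · rintro ⟨x, y⟩ ⟨hx, hy⟩
        rcases eq_or_lt_of_le hx.2 with h1 | h1
        · exact Or.inr (Or.inl h1)
        · rcases eq_or_lt_of_le hy.1 with h2 | h2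
          · exact Or.inr (Or.inr h2.symm)
          · exact Or.inl ⟨h1, h2⟩
      · intro ε hε
        filter_upwards [hnb ε hε] with J hJ
        by_contra hc
        push Not at hc
        refine hJ ⟨t J, ht J, a, ⟨ha.1.le, ha.2.le⟩, Or.inl (lt_of_lt_of_le hc ?_)⟩
        rw [hμ]
        refine eta_le_of_subset (hk J) _ (measurableSet_Iio.prod measurableSet_Ioi)
          (measurableSet_Icc.prod measurableSet_Ioc) ?_
        rintro ⟨x, y⟩ ⟨⟨hx, hy⟩, hx', hy'⟩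
        exact ⟨⟨hx'.1, le_of_lt hx⟩, hy, hy'.2⟩
    · intro a ha
      refine band_limit (a := -a) (b := a) hν hcr.fst hcr.snd (O := Ioi (-a) ×ˢ Ioi a) (isOpen_Ioi.prod isOpen_Ioi) ?_
        (f := fun J => 2 / π * (1 - t J) * √(1 - a ^ 2)) (((htt.const_sub 1).const_mul (2 / π)).mul_const _) ?_
      · rintro ⟨x, y⟩ ⟨hx, hy⟩
        rcases eq_or_lt_of_le hx.1 with h1 | h1
        · exact Or.inr (Or.inl h1.symm)
        · rcases eq_or_lt_of_le hy.1 with h2 | h2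
          · exact Or.inr (Or.inr h2.symm)
          · exact Or.inl ⟨h1, h2⟩
      · intro ε hε
        filter_upwards [hnb ε hε] with J hJ
        by_contra hc
        push Not at hc
        refine hJ ⟨t J, ht J, a, ⟨ha.1.le, ha.2.le⟩, Or.inr (lt_of_lt_of_le hc ?_)⟩
        rw [hμ]
        refine eta_le_of_subset (hk J) _ (measurableSet_Ioi.prod measurableSet_Ioi)
          (measurableSet_Icc.prod measurableSet_Ioc) ?_
        rintro ⟨x, y⟩ ⟨⟨hx, hy⟩, hx', hy'⟩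
        exact ⟨⟨le_of_lt hx, hx'.2⟩, hy, hy'.2⟩
    · intro a ha b hb
      refine low_limit hν (isClosed_Icc.prod isClosed_Icc)
        (f := fun J => DD ((a + b) / 2) (t J) + (a - b) / 4) ((hDt _).add_const _) ?_
      intro ε hε
      filter_upwards [hnq ε hε] with J hJ
      by_contra hc
      push Not at hc
      refine hJ ⟨t J, ht J, a, ha, b, hb, Or.inl (lt_of_le_of_lt ?_ hc)⟩
      rw [hμ]
      exact measure_mono (prod_mono_right Ioc_subset_Icc_self)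
    · intro a ha b hb
      refine low_limit hν (isClosed_Icc.prod isClosed_Icc)
        (f := fun J => DD ((a + b) / 2) (1 - t J) + (a - b) / 4) ((hDt' _).add_const _) ?_
      intro ε hε
      filter_upwards [hnq ε hε] with J hJ
      by_contra hc
      push Not at hc
      refine hJ ⟨t J, ht J, a, ha, b, hb, Or.inr (lt_of_le_of_lt ?_ hc)⟩
      rw [hμ]
      exact measure_mono (prod_mono_right Ioc_subset_Icc_self)
    · have h1 : Tendsto (fun J => (μ J).prod (μ J)) 𝓕 (𝓝 (ν.prod ν)) :=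
        (ProbabilityMeasure.continuous_prod.tendsto (ν, ν)).comp (hν.prodMk_nhds hν)
      have h2 := ProbabilityMeasure.tendsto_measure_of_null_frontier_of_tendsto' h1 (E := Iv)
        (frontier_Iv hcr.fst hcr.snd)
      have h3 : ∀ J, (((μ J).prod (μ J) : ProbabilityMeasure _) : Measure ((ℝ × ℝ) × (ℝ × ℝ))) Iv =
          ENNReal.ofReal (2 * (⌊((n J).choose 2 : ℝ) * t J⌋₊ : ℝ) / (n J : ℝ) ^ 2) := by
        intro J
        rw [ProbabilityMeasure.toMeasure_prod, hμ]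
        exact eta_prod_Iv (hn1 J) (hk J) (ht J).2
      simp only [h3] at h2
      exact tendsto_nhds_unique h2 (ENNReal.tendsto_ofReal (floor_tendsto hn1 hninf ht htt))) δ hδ
  -- a common exponent
  obtain ⟨c₂, hc₂, hc₂'⟩ : ∃ c₂ > (0 : ℝ), ∀ j < J, c₂ ≤ a₂ j ∧ c₂ ≤ b₂ j ∧ c₂ ≤ d₂ j := by
    clear hJ
    induction J with
    | zero => exact ⟨1, one_pos, fun j hj => absurd hj (Nat.not_lt_zero _)⟩
    | succ J ih =>
      obtain ⟨c, hc, hc'⟩ := ih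
      refine ⟨min c (min (a₂ J) (min (b₂ J) (d₂ J))), lt_min hc (lt_min (ha₂ J) (lt_min (hb₂ J) (hd₂ J))),
        fun j hj => ?_⟩
      rcases Nat.lt_succ_iff_lt_or_eq.1 hj with h1 | rfl
      · exact ⟨(min_le_left _ _).trans (hc' j h1).1, (min_le_left _ _).trans (hc' j h1).2.1,
          (min_le_left _ _).trans (hc' j h1).2.2⟩
      · exact ⟨(min_le_right _ _).trans (min_le_left _ _),
          (min_le_right _ _).trans ((min_le_right _ _).trans (min_le_left _ _)),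
          (min_le_right _ _).trans ((min_le_right _ _).trans (min_le_right _ _))⟩
  obtain ⟨S, hS⟩ : ∃ S : ℝ, S = ∑ j ∈ Finset.range J, (2 * a₁ j + b₁ j + d₁ j) := ⟨_, rfl⟩
  have hS0 : 0 ≤ S := by
    rw [hS]
    exact Finset.sum_nonneg fun j _ => by
      have := ha₁ j
      have := hb₁ j
      have := hd₁ j
      positivity
  refine ⟨S + Real.exp (c₂ * (J : ℝ) ^ 2), by positivity, c₂, hc₂, ?_⟩
  intro n hn
  have hexp : 0 < Real.exp (-c₂ * (n : ℝ) ^ 2) := Real.exp_pos _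
  rcases lt_or_ge n J with h1 | h1
  · refine (prob_le_one n _).trans ?_
    have h2 : 1 ≤ Real.exp (c₂ * (J : ℝ) ^ 2) * Real.exp (-c₂ * (n : ℝ) ^ 2) := by
      rw [← Real.exp_add]
      apply Real.one_le_exp
      have h3 : (n : ℝ) ≤ J := by exact_mod_cast h1.le
      have h4 : (n : ℝ) ^ 2 ≤ (J : ℝ) ^ 2 := by gcongr
      nlinarith
    have h3 : 0 ≤ S * Real.exp (-c₂ * (n : ℝ) ^ 2) := by positivity
    rw [add_mul]
    linarith
  · have h2 : prob n (Leaves n U) ≤ ∑ j ∈ Finset.range J,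
        prob n (fun k => Low (1 / ((j : ℝ) + 2)) (δ j) n k ∨ Low' (1 / ((j : ℝ) + 2)) (δ j) n k ∨
          (Bd (1 / ((j : ℝ) + 2)) n k ∨ Qd (1 / ((j : ℝ) + 2)) n k)) := by
      refine le_trans (prob_mono ?_) (prob_exists_le n _ J)
      intro k hk hL
      exact hJ n h1 (by omega) k hk hL
    have h3 : ∑ j ∈ Finset.range J,
        prob n (fun k => Low (1 / ((j : ℝ) + 2)) (δ j) n k ∨ Low' (1 / ((j : ℝ) + 2)) (δ j) n k ∨
          (Bd (1 / ((j : ℝ) + 2)) n k ∨ Qd (1 / ((j : ℝ) + 2)) n k)) ≤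
        ∑ j ∈ Finset.range J, (2 * a₁ j + b₁ j + d₁ j) * Real.exp (-c₂ * (n : ℝ) ^ 2) := by
      refine Finset.sum_le_sum fun j hj => ?_
      rw [Finset.mem_range] at hj
      obtain ⟨h4, h5⟩ := hb j n hn
      have h4' := hbb j n hn
      have h4'' := hdd j n hn
      have hx : ∀ c : ℝ, c₂ ≤ c → Real.exp (-c * (n : ℝ) ^ 2) ≤ Real.exp (-c₂ * (n : ℝ) ^ 2) := by
        intro c hc
        apply Real.exp_le_exp.2
        have h8 : (0 : ℝ) ≤ (n : ℝ) ^ 2 := by positivity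
        nlinarith
      have h7 : a₁ j * Real.exp (-a₂ j * (n : ℝ) ^ 2) ≤ a₁ j * Real.exp (-c₂ * (n : ℝ) ^ 2) :=
        mul_le_mul_of_nonneg_left (hx _ (hc₂' j hj).1) (ha₁ j).le
      have h7' : b₁ j * Real.exp (-b₂ j * (n : ℝ) ^ 2) ≤ b₁ j * Real.exp (-c₂ * (n : ℝ) ^ 2) :=
        mul_le_mul_of_nonneg_left (hx _ (hc₂' j hj).2.1) (hb₁ j).le
      have h7'' : d₁ j * Real.exp (-d₂ j * (n : ℝ) ^ 2) ≤ d₁ j * Real.exp (-c₂ * (n : ℝ) ^ 2) :=
        mul_le_mul_of_nonneg_left (hx _ (hc₂' j hj).2.2) (hd₁ j).le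
      have h8 := prob_or_le n (Low (1 / ((j : ℝ) + 2)) (δ j) n)
        (fun k => Low' (1 / ((j : ℝ) + 2)) (δ j) n k ∨
          (Bd (1 / ((j : ℝ) + 2)) n k ∨ Qd (1 / ((j : ℝ) + 2)) n k))
      have h9 := prob_or_le n (Low' (1 / ((j : ℝ) + 2)) (δ j) n)
        (fun k => Bd (1 / ((j : ℝ) + 2)) n k ∨ Qd (1 / ((j : ℝ) + 2)) n k)
      have h10 := prob_or_le n (Bd (1 / ((j : ℝ) + 2)) n) (Qd (1 / ((j : ℝ) + 2)) n)
      linarith
    rw [← Finset.sum_mul, ← hS] at h3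
    have h4 : 0 ≤ Real.exp (c₂ * (J : ℝ) ^ 2) * Real.exp (-c₂ * (n : ℝ) ^ 2) := by positivity
    rw [add_mul]
    linarith

end Pool.Agent.SNL63
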