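import Mathlib

/-!
# The analytic part of the large deviation bound

`ana`: from the base bound and the recursion to the bound `exp (-c n ^ 2)`.
-/

set_option autoImplicit false

namespace Pool.Agent.SNL63

open Finset

/-- the recursion, iterated -/
theorem iter_bound (u : ℕ → ℕ → ℕ → ℕ → ℝ) (h0 : ∀ n m s₀ d, 0 ≤ u n m s₀ d)
    (hstep : ∀ n m s₀ d, 1 ≤ m → m < n → 3 ≤ n →
      u n m s₀ (d + 1) ≤ u n m s₀ 0 + (n : ℝ) ^ 2 * 4 ^ (2 * n) * u (n - 2) (m - 1) (s₀ - 2 * n) d)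
    {N M S D : ℕ} {B Q : ℝ} (hQ : (N : ℝ) ^ 2 * 4 ^ (2 * N) ≤ Q) (hQ1 : 1 ≤ Q) (hB0 : 0 ≤ B)
    (hcond : ∀ i < D, 1 ≤ M - i ∧ M - i < N - 2 * i ∧ 3 ≤ N - 2 * i)
    (hB : ∀ i ≤ D, ∀ s, S ≤ s + 2 * N * i → u (N - 2 * i) (M - i) s 0 ≤ B) :
    ∀ d i s, i + d ≤ D → S ≤ s + 2 * N * i → u (N - 2 * i) (M - i) s d ≤ (d + 1) * Q ^ d * B := by
  intro d
  induction d with
  | zero =>
    intro i s hi hs
    simpa using hB i (by omega) s hs
  | succ d ih =>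
    intro i s hi hs
    obtain ⟨h1, h2, h3⟩ := hcond i (by omega)
    have h4 := hstep (N - 2 * i) (M - i) s d h1 h2 h3
    have e1 : 2 * N * (i + 1) = 2 * N * i + 2 * N := by ring
    have h5 := ih (i + 1) (s - 2 * (N - 2 * i)) (by omega) (by omega)
    have e2 : N - 2 * i - 2 = N - 2 * (i + 1) := by omega
    have e3 : M - i - 1 = M - (i + 1) := by omega
    rw [e2, e3] at h4
    have h6 := hB i (by omega) s hs
    have h7 : ((N - 2 * i : ℕ) : ℝ) ^ 2 * 4 ^ (2 * (N - 2 * i)) ≤ Q := by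
      refine le_trans ?_ hQ
      have a1 : ((N - 2 * i : ℕ) : ℝ) ≤ N := by exact_mod_cast Nat.sub_le _ _
      have a2 : (0 : ℝ) ≤ ((N - 2 * i : ℕ) : ℝ) := Nat.cast_nonneg _
      have a3 : (4 : ℝ) ^ (2 * (N - 2 * i)) ≤ 4 ^ (2 * N) := pow_le_pow_right₀ (by norm_num) (by omega)
      exact mul_le_mul (pow_le_pow_left₀ a2 a1 2) a3 (by positivity) (by positivity)
    have hQ0 : 0 ≤ Q := by linarith
    have hd0 : (0 : ℝ) ≤ d := Nat.cast_nonneg _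
    have h8 : ((N - 2 * i : ℕ) : ℝ) ^ 2 * 4 ^ (2 * (N - 2 * i)) *
        u (N - 2 * (i + 1)) (M - (i + 1)) (s - 2 * (N - 2 * i)) d ≤ Q * ((d + 1) * Q ^ d * B) :=
      mul_le_mul h7 h5 (h0 _ _ _ _) hQ0
    have h9 : B ≤ Q ^ (d + 1) * B := le_mul_of_one_le_left hB0 (one_le_pow₀ hQ1)
    have h10 : u (N - 2 * i) (M - i) s (d + 1) ≤ Q ^ (d + 1) * B + Q * ((d + 1) * Q ^ d * B) := by linarith
    refine h10.trans (le_of_eq ?_)
    push_cast
    ring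

/-- the base bound, estimated -/
theorem base_bound {N n m s θ : ℕ} {ε a : ℝ} (hε : 0 < ε) (hε1 : ε ≤ 1 / 2) (ha : a = ε ^ 6 / 1048576)
    (hn : (N : ℝ) / 2 + 1 ≤ n) (hnN : n ≤ N) (hm : ε * N / 2 ≤ m) (hmN : m ≤ N) (hs : ε * (N : ℝ) ^ 2 / 4 ≤ s)
    (hθ : (θ : ℝ) ≤ ε ^ 3 * N / 1024) (hθ' : ε ^ 3 * N / 2048 ≤ θ) (hN : 2 ≤ N) :
    ((n.choose 2 : ℝ) + 1) * ((1 - θ * √((θ : ℝ) * m) / (2 * (n.choose 2 : ℝ))) ^ s * 2 ^ (θ ^ 2)) ≤
      (N : ℝ) ^ 2 * Real.exp (-a * (N : ℝ) ^ 2) := by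
  have hN0 : (2 : ℝ) ≤ N := by exact_mod_cast hN
  have hn2 : (2 : ℝ) ≤ n := by linarith
  have hnN' : (n : ℝ) ≤ N := by exact_mod_cast hnN
  have hmN' : (m : ℝ) ≤ N := by exact_mod_cast hmN
  have hC : (n.choose 2 : ℝ) = n * (n - 1) / 2 := by
    rw [Nat.cast_choose_two]
  have hθ0 : (0 : ℝ) ≤ θ := Nat.cast_nonneg _
  have hC1 : (n.choose 2 : ℝ) + 1 ≤ (N : ℝ) ^ 2 := by
    rw [hC]; nlinarith
  have hC2 : 2 * (n.choose 2 : ℝ) ≤ (N : ℝ) ^ 2 := by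
    rw [hC]; nlinarith
  have hC3 : (N : ℝ) ^ 2 / 8 ≤ 2 * (n.choose 2 : ℝ) := by
    rw [hC]; nlinarith
  have hC0 : (0 : ℝ) < 2 * (n.choose 2 : ℝ) := lt_of_lt_of_le (by positivity) hC3
  -- the root
  have hr1 : ε ^ 2 * N / 64 ≤ √((θ : ℝ) * m) := by
    apply Real.le_sqrt_of_sq_le
    have h1 : ε ^ 3 * N / 2048 * (ε * N / 2) ≤ (θ : ℝ) * m :=
      mul_le_mul hθ' hm (by positivity) hθ0
    nlinarith [h1]
  have hε3 : ε ^ 3 ≤ 1 / 8 := by
    calc ε ^ 3 ≤ (1 / 2) ^ 3 := pow_le_pow_left₀ hε.le hε1 3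
      _ = 1 / 8 := by norm_num
  have hθN : (θ : ℝ) ≤ N / 8 := by
    have : ε ^ 3 * N ≤ 1 / 8 * N := mul_le_mul_of_nonneg_right hε3 (by linarith)
    linarith
  have hr2 : √((θ : ℝ) * m) ≤ N := by
    apply Real.sqrt_le_iff.2
    refine ⟨by linarith, ?_⟩
    have h1 : (θ : ℝ) * m ≤ N * N := mul_le_mul (by linarith) hmN' (Nat.cast_nonneg _) (by linarith)
    nlinarith
  obtain ⟨x, hx⟩ : ∃ x : ℝ, x = θ * √((θ : ℝ) * m) / (2 * (n.choose 2 : ℝ)) := ⟨_, rfl⟩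
  have hx1 : x ≤ 1 := by
    rw [hx, div_le_one hC0]
    have h1 : (θ : ℝ) * √((θ : ℝ) * m) ≤ N / 8 * N := mul_le_mul hθN hr2 (Real.sqrt_nonneg _) (by positivity)
    nlinarith
  have hx2 : ε ^ 5 / 131072 ≤ x := by
    rw [hx, le_div_iff₀ hC0]
    have h1 : ε ^ 3 * N / 2048 * (ε ^ 2 * N / 64) ≤ θ * √((θ : ℝ) * m) :=
      mul_le_mul hθ' hr1 (by positivity) hθ0
    have h2 : ε ^ 5 / 131072 * (2 * (n.choose 2 : ℝ)) ≤ ε ^ 5 / 131072 * (N : ℝ) ^ 2 :=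
      mul_le_mul_of_nonneg_left hC2 (by positivity)
    nlinarith
  have hx0 : 0 ≤ x := le_trans (by positivity) hx2
  rw [← hx]
  have h1 : (1 - x) ^ s ≤ Real.exp (-(2 * a * (N : ℝ) ^ 2)) := by
    have h2 : (1 - x) ^ s ≤ (Real.exp (-x)) ^ s := pow_le_pow_left₀ (by linarith) (Real.one_sub_le_exp_neg x) s
    refine h2.trans ?_
    rw [← Real.exp_nat_mul]
    apply Real.exp_le_exp.2
    have h3 : ε ^ 5 / 131072 * (ε * (N : ℝ) ^ 2 / 4) ≤ x * s := mul_le_mul hx2 hs (by positivity) hx0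
    rw [ha]
    nlinarith
  have h4 : (2 : ℝ) ^ (θ ^ 2) ≤ Real.exp (a * (N : ℝ) ^ 2) := by
    have h5 : (2 : ℝ) ^ (θ ^ 2) ≤ (Real.exp 1) ^ (θ ^ 2) :=
      pow_le_pow_left₀ (by norm_num) (by linarith [Real.add_one_le_exp (1 : ℝ)]) _
    refine h5.trans ?_
    rw [← Real.exp_nat_mul]
    apply Real.exp_le_exp.2
    push_cast
    have h6 : (θ : ℝ) ^ 2 ≤ (ε ^ 3 * N / 1024) ^ 2 := pow_le_pow_left₀ hθ0 hθ 2
    rw [ha]
    nlinarith
  have h7 : (1 - x) ^ s * 2 ^ (θ ^ 2) ≤ Real.exp (-(2 * a * (N : ℝ) ^ 2)) * Real.exp (a * (N : ℝ) ^ 2) :=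
    mul_le_mul h1 h4 (by positivity) (Real.exp_nonneg _)
  rw [← Real.exp_add] at h7
  have h8 : -(2 * a * (N : ℝ) ^ 2) + a * (N : ℝ) ^ 2 = -a * (N : ℝ) ^ 2 := by ring
  rw [h8] at h7
  exact mul_le_mul hC1 h7 (mul_nonneg (pow_nonneg (by linarith) _) (by positivity)) (by positivity)

/-- `u n m s₀ d` stands for `(U n m s₀ d).ncard / nets n`. -/
theorem ana (u : ℕ → ℕ → ℕ → ℕ → ℝ)
    (h0 : ∀ n m s₀ d, 0 ≤ u n m s₀ d)
    (hbase : ∀ n m s₀ θ, 1 ≤ m → m < n → 1 ≤ θ → θ ≤ m → θ ≤ n - m →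
      u n m s₀ 0 ≤ ((n.choose 2 : ℝ) + 1) *
        ((1 - θ * √((θ : ℝ) * m) / (2 * (n.choose 2 : ℝ))) ^ s₀ * 2 ^ (θ ^ 2)))
    (hstep : ∀ n m s₀ d, 1 ≤ m → m < n → 3 ≤ n →
      u n m s₀ (d + 1) ≤ u n m s₀ 0 + (n : ℝ) ^ 2 * 4 ^ (2 * n) * u (n - 2) (m - 1) (s₀ - 2 * n) d)
    {ε : ℝ} (hε : 0 < ε) (hε1 : ε ≤ 1 / 2) :
    ∃ δ > (0 : ℝ), ∃ c > (0 : ℝ), ∃ n₀ : ℕ, ∀ n ≥ n₀, ∀ m s₀ d : ℕ, ε * n ≤ m → (m : ℝ) ≤ (1 - ε) * n →
      ε * (n.choose 2 : ℝ) - 1 ≤ s₀ → (d : ℝ) ≤ δ * n → u n m s₀ d ≤ Real.exp (-c * (n : ℝ) ^ 2) := by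
  obtain ⟨a, ha⟩ : ∃ a : ℝ, a = ε ^ 6 / 1048576 := ⟨_, rfl⟩
  have ha0 : 0 < a := by rw [ha]; positivity
  have hε5 : ε ^ 5 ≤ 1 / 32 := by
    calc ε ^ 5 ≤ (1 / 2) ^ 5 := pow_le_pow_left₀ hε.le hε1 5
      _ = 1 / 32 := by norm_num
  have hε3 : ε ^ 3 ≤ 1 / 8 := by
    calc ε ^ 3 ≤ (1 / 2) ^ 3 := pow_le_pow_left₀ hε.le hε1 3
      _ = 1 / 8 := by norm_num
  have haε : a ≤ ε / 1024 := by
    rw [ha]
    have : ε ^ 6 = ε * ε ^ 5 := by ring
    rw [this]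
    have := mul_le_mul_of_nonneg_left hε5 hε.le
    linarith
  have haε3 : a ≤ ε ^ 3 / 1024 := by
    rw [ha]
    have : ε ^ 6 = ε ^ 3 * ε ^ 3 := by ring
    rw [this]
    have := mul_le_mul_of_nonneg_left hε3 (pow_pos hε 3).le
    have h2 : 0 < ε ^ 3 := pow_pos hε 3
    linarith
  refine ⟨a / 8, by positivity, a / 4, by positivity, ⌈8 / a⌉₊ + 8, ?_⟩
  intro N hN M S D hM hM' hS hD
  have hNa : 8 / a ≤ N := by
    refine (Nat.le_ceil _).trans ?_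
    exact_mod_cast (show ⌈8 / a⌉₊ ≤ N by omega)
  have hN8 : (8 : ℝ) ≤ N := by exact_mod_cast (show 8 ≤ N by omega)
  have haN : 8 ≤ a * N := by
    rw [div_le_iff₀ ha0] at hNa
    linarith
  have hεN : 8192 ≤ ε * N := by
    have := mul_le_mul_of_nonneg_right haε (show (0 : ℝ) ≤ N by linarith)
    linarith
  have hε3N : 8192 ≤ ε ^ 3 * N := by
    have := mul_le_mul_of_nonneg_right haε3 (show (0 : ℝ) ≤ N by linarith)
    linarith
  have hDN : (D : ℝ) ≤ ε * N / 8192 := by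
    have := mul_le_mul_of_nonneg_right haε (show (0 : ℝ) ≤ N by linarith)
    linarith
  have hεN2 : ε * N ≤ N / 2 := by
    have := mul_le_mul_of_nonneg_right hε1 (show (0 : ℝ) ≤ N by linarith)
    linarith
  have hMN : M < N := by
    have : (M : ℝ) < N := by nlinarith
    exact_mod_cast this
  -- the parameter
  obtain ⟨θ, hθ⟩ : ∃ θ : ℕ, θ = ⌊ε ^ 3 * N / 1024⌋₊ := ⟨_, rfl⟩
  have hθ1 : (θ : ℝ) ≤ ε ^ 3 * N / 1024 := by
    rw [hθ]
    exact Nat.floor_le (by positivity)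
  have hθ2 : ε ^ 3 * N / 1024 < θ + 1 := by
    rw [hθ]
    exact Nat.lt_floor_add_one _
  have hθ3 : ε ^ 3 * N / 2048 ≤ θ := by linarith
  have hθ4 : 1 ≤ θ := by
    have : (0 : ℝ) < θ := by linarith
    exact_mod_cast this
  have hθN : (θ : ℝ) ≤ ε * N / 1024 := by
    have h1 : ε ^ 3 ≤ ε := by
      have : ε ^ 3 = ε * ε ^ 2 := by ring
      rw [this]
      have h2 : ε ^ 2 ≤ 1 := pow_le_one₀ hε.le (by linarith)
      nlinarith
    have := mul_le_mul_of_nonneg_right h1 (show (0 : ℝ) ≤ N by linarith)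
    linarith
  -- the numbers after `i` steps
  have hi : ∀ i ≤ D, (i : ℝ) ≤ ε * N / 8192 := fun i hi => le_trans (by exact_mod_cast hi) hDN
  have hiM : ∀ i ≤ D, i ≤ M := by
    intro i h
    have h1 := hi i h
    have : (i : ℝ) ≤ M := by linarith
    exact_mod_cast this
  have hiN : ∀ i ≤ D, 2 * i ≤ N := by
    intro i h
    have h1 := hi i h
    have : (2 * i : ℝ) ≤ N := by linarith
    exact_mod_cast this
  have hcM : ∀ i ≤ D, ((M - i : ℕ) : ℝ) = M - i := fun i h => Nat.cast_sub (hiM i h)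
  have hcN : ∀ i ≤ D, ((N - 2 * i : ℕ) : ℝ) = N - 2 * i := by
    intro i h
    rw [Nat.cast_sub (hiN i h)]
    push_cast
    ring
  have hB : ∀ i ≤ D, ∀ s, S ≤ s + 2 * N * i → u (N - 2 * i) (M - i) s 0 ≤
      (N : ℝ) ^ 2 * Real.exp (-a * (N : ℝ) ^ 2) := by
    intro i h s hs
    have h1 := hi i h
    have h2 := hcM i h
    have h3 := hcN i h
    have b1 : 1 ≤ M - i := by
      have : (0 : ℝ) < ((M - i : ℕ) : ℝ) := by rw [h2]; linarith
      exact_mod_cast this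
    have b2 : M - i < N - 2 * i := by
      have : ((M - i : ℕ) : ℝ) < ((N - 2 * i : ℕ) : ℝ) := by
        rw [h2, h3]
        nlinarith
      exact_mod_cast this
    have b3 : θ ≤ M - i := by
      have : (θ : ℝ) ≤ ((M - i : ℕ) : ℝ) := by rw [h2]; linarith
      exact_mod_cast this
    have b4 : θ ≤ N - 2 * i - (M - i) := by
      have h4 : ((N - 2 * i - (M - i) : ℕ) : ℝ) = (N - 2 * i) - (M - i) := by
        rw [Nat.cast_sub b2.le, h2, h3]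
      have : (θ : ℝ) ≤ ((N - 2 * i - (M - i) : ℕ) : ℝ) := by
        rw [h4]
        nlinarith
      exact_mod_cast this
    refine (hbase (N - 2 * i) (M - i) s θ b1 b2 hθ4 b3 b4).trans ?_
    refine base_bound hε hε1 ha ?_ (by omega) ?_ (by omega) ?_ hθ1 hθ3 (by omega)
    · rw [h3]; linarith
    · rw [h2]; linarith
    · have hsR : (S : ℝ) ≤ s + 2 * N * i := by exact_mod_cast hs
      have hC : (N.choose 2 : ℝ) = N * (N - 1) / 2 := Nat.cast_choose_two ℝ N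
      rw [hC] at hS
      have h5 : 2 * (N : ℝ) * i ≤ 2 * N * (ε * N / 8192) := mul_le_mul_of_nonneg_left h1 (by linarith)
      nlinarith
  have hcond : ∀ i < D, 1 ≤ M - i ∧ M - i < N - 2 * i ∧ 3 ≤ N - 2 * i := by
    intro i h
    have h1 := hi i h.le
    have h2 := hcM i h.le
    have h3 := hcN i h.le
    refine ⟨?_, ?_, ?_⟩
    · have : (0 : ℝ) < ((M - i : ℕ) : ℝ) := by rw [h2]; linarith
      exact_mod_cast this
    · have : ((M - i : ℕ) : ℝ) < ((N - 2 * i : ℕ) : ℝ) := by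
        rw [h2, h3]
        nlinarith
      exact_mod_cast this
    · have : (3 : ℝ) ≤ ((N - 2 * i : ℕ) : ℝ) := by rw [h3]; linarith
      exact_mod_cast this
  have hexp2 : ∀ x : ℝ, 0 ≤ x → x ^ 2 ≤ Real.exp x := by
    intro x hx
    have h1 : x / 2 + 1 ≤ Real.exp (x / 2) := Real.add_one_le_exp _
    have h2 : Real.exp x = Real.exp (x / 2) ^ 2 := by
      rw [← Real.exp_nat_mul]
      congr 1
      push_cast
      ring
    have h3 : Real.exp (x / 2) ≥ 1 := by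
      have := Real.add_one_le_exp (x / 2)
      linarith
    -- `exp (x/2) ≥ x`, from `exp (x/4) ≥ x/4 + 1`, `(x/4+1)^2 ≥ x`
    have h4 : x / 4 + 1 ≤ Real.exp (x / 4) := Real.add_one_le_exp _
    have h5 : Real.exp (x / 2) = Real.exp (x / 4) ^ 2 := by
      rw [← Real.exp_nat_mul]
      congr 1
      push_cast
      ring
    have h6 : x ≤ Real.exp (x / 2) := by
      rw [h5]
      have h7 : (x / 4 + 1) ^ 2 ≤ Real.exp (x / 4) ^ 2 := pow_le_pow_left₀ (by linarith) h4 2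
      nlinarith [sq_nonneg (x / 4 - 1)]
    rw [h2]
    exact pow_le_pow_left₀ hx h6 2
  have hQ : (N : ℝ) ^ 2 * 4 ^ (2 * N) ≤ Real.exp (4 * N) := by
    have h1 : (N : ℝ) ^ 2 ≤ Real.exp N := hexp2 N (by linarith)
    have h2 : (4 : ℝ) ^ (2 * N) ≤ Real.exp (3 * N) := by
      rw [pow_mul]
      have h3 : (4 : ℝ) ^ 2 ≤ Real.exp 3 := by
        have h4 : (2.7182818283 : ℝ) < Real.exp 1 := Real.exp_one_gt_d9
        have h5 : Real.exp 3 = Real.exp 1 ^ 3 := by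
          rw [← Real.exp_nat_mul]
          congr 1
          norm_num
        rw [h5]
        have h6 : (2.7 : ℝ) ^ 3 ≤ Real.exp 1 ^ 3 := pow_le_pow_left₀ (by norm_num) (by linarith) 3
        refine le_trans ?_ h6
        norm_num
      have h7 : ((4 : ℝ) ^ 2) ^ N ≤ Real.exp 3 ^ N := pow_le_pow_left₀ (by norm_num) h3 N
      refine h7.trans (le_of_eq ?_)
      rw [← Real.exp_nat_mul]
      congr 1
      ring
    have h8 : Real.exp (4 * N) = Real.exp N * Real.exp (3 * N) := by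
      rw [← Real.exp_add]
      congr 1
      ring
    rw [h8]
    exact mul_le_mul h1 h2 (by positivity) (Real.exp_nonneg _)
  have hmain := iter_bound u h0 hstep (N := N) (M := M) (S := S) (D := D) hQ
    (by
      have := Real.add_one_le_exp (4 * (N : ℝ))
      linarith) (by positivity) hcond hB D 0 S (by omega) (by omega)
  rw [mul_zero, Nat.sub_zero, Nat.sub_zero] at hmain
  refine hmain.trans ?_
  have c1 : (D : ℝ) + 1 ≤ Real.exp N := by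
    have h1 := Real.add_one_le_exp (N : ℝ)
    have h2 : (D : ℝ) ≤ N := by linarith
    linarith
  have c2 : Real.exp (4 * N) ^ D ≤ Real.exp (a / 2 * (N : ℝ) ^ 2) := by
    rw [← Real.exp_nat_mul]
    apply Real.exp_le_exp.2
    have h1 : (D : ℝ) * (4 * N) ≤ a / 8 * N * (4 * N) := mul_le_mul_of_nonneg_right hD (by linarith)
    nlinarith
  have c3 : (N : ℝ) ^ 2 ≤ Real.exp N := hexp2 N (by linarith)
  have c4 : ((D : ℝ) + 1) * Real.exp (4 * N) ^ D * ((N : ℝ) ^ 2 * Real.exp (-a * (N : ℝ) ^ 2)) ≤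
      Real.exp N * Real.exp (a / 2 * (N : ℝ) ^ 2) * (Real.exp N * Real.exp (-a * (N : ℝ) ^ 2)) := by
    refine mul_le_mul (mul_le_mul c1 c2 (by positivity) (Real.exp_nonneg _))
      (mul_le_mul_of_nonneg_right c3 (Real.exp_nonneg _)) (by positivity) (by positivity)
  refine c4.trans ?_
  rw [← Real.exp_add, ← Real.exp_add, ← Real.exp_add]
  apply Real.exp_le_exp.2
  have c5 : 8 * (N : ℝ) ≤ a * N * N := mul_le_mul_of_nonneg_right haN (by linarith)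
  nlinarith

end Pool.Agent.SNL63
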