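import Pool.Agent.SNL63.EnDefs

/-!
# The mass of the inversions of two independent points of the Archimedean measure
-/

namespace Pool.Agent.SNL63

open Pool.Agent.SN8 MeasureTheory Set Filter Topology
open scoped ENNReal Real

/-- the rotation of the plane by `-θ` -/
noncomputable def aiRot (θ : ℝ) (p : ℝ × ℝ) : ℝ × ℝ :=
  (p.1 * Real.cos θ + p.2 * Real.sin θ, -p.1 * Real.sin θ + p.2 * Real.cos θ)

theorem aiRot_continuous (θ : ℝ) : Continuous (aiRot θ) := by
  unfold aiRot
  fun_prop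

theorem aiRot_vol (θ : ℝ) : MeasurePreserving (aiRot θ) volume volume := by
  have h1 := Complex.volume_preserving_equiv_real_prod
  have h2 : MeasurePreserving (rotation (Circle.exp (-θ))) volume volume :=
    (rotation (Circle.exp (-θ))).measurePreserving
  have h3 := (h1.comp h2).comp h1.symm
  have h4 : aiRot θ = ((⇑Complex.measurableEquivRealProd ∘ ⇑(rotation (Circle.exp (-θ)))) ∘
      ⇑Complex.measurableEquivRealProd.symm) := by
    funext p
    have e1 : Complex.measurableEquivRealProd.symm p = (⟨p.1, p.2⟩ : ℂ) := rfl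
    simp only [Function.comp_apply, e1, rotation_apply, Circle.coe_exp]
    have e2 : Complex.exp (((-θ : ℝ) : ℂ) * Complex.I) = ⟨Real.cos θ, -Real.sin θ⟩ := by
      rw [Complex.exp_mul_I, ← Complex.ofReal_cos, ← Complex.ofReal_sin, Real.cos_neg, Real.sin_neg]
      apply Complex.ext
      · simp [Complex.cos_ofReal_re]
      · simp [Complex.sin_ofReal_re]
    rw [e2]
    have e3 : ∀ z : ℂ, Complex.measurableEquivRealProd z = (z.re, z.im) := fun z => rfl
    rw [e3]
    simp only [aiRot, Complex.mul_re, Complex.mul_im]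
    ext <;> simp <;> ring
  rw [h4]
  exact h3

theorem aiRot_density (θ : ℝ) (p : ℝ × ℝ) : archDensity (aiRot θ p) = archDensity p := by
  have h := Real.cos_sq_add_sin_sq θ
  have e1 : (aiRot θ p).1 ^ 2 + (aiRot θ p).2 ^ 2 = p.1 ^ 2 + p.2 ^ 2 := by
    simp only [aiRot]
    have : (p.1 * Real.cos θ + p.2 * Real.sin θ) ^ 2 + (-p.1 * Real.sin θ + p.2 * Real.cos θ) ^ 2 =
      (p.1 ^ 2 + p.2 ^ 2) * (Real.cos θ ^ 2 + Real.sin θ ^ 2) := by ring
    rw [this, h, mul_one]
  have e2 : 1 - (aiRot θ p).1 ^ 2 - (aiRot θ p).2 ^ 2 = 1 - p.1 ^ 2 - p.2 ^ 2 := by linarith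
  simp only [archDensity, e1, e2]

theorem aiRot_archHalf (θ : ℝ) : MeasurePreserving (aiRot θ) archHalf archHalf := by
  refine ⟨(aiRot_continuous θ).measurable, ?_⟩
  ext S hS
  rw [Measure.map_apply (aiRot_continuous θ).measurable hS, archHalf,
    withDensity_apply _ ((aiRot_continuous θ).measurable hS), withDensity_apply _ hS,
    ← (aiRot_vol θ).setLIntegral_comp_preimage hS measurable_archDensity]
  simp only [aiRot_density]

/-- the double cone -/
def aiA (s : ℝ) : Set (ℝ × ℝ) := {v | v.1 * (v.1 * Real.cos (π * s) + v.2 * Real.sin (π * s)) < 0}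

theorem isOpen_aiA (s : ℝ) : IsOpen (aiA s) := _root_.isOpen_lt (by fun_prop) continuous_const

/-- the indicator of the set of the angles `u` with `cos u < cos (π (1 - s))` -/
noncomputable def aiF (s u : ℝ) : ℝ := if Real.cos u < Real.cos (π * (1 - s)) then 1 else 0

theorem aiF_periodic (s : ℝ) : Function.Periodic (aiF s) (2 * π) := by
  intro u
  simp only [aiF, Real.cos_add_two_pi]

theorem aiF_meas (s : ℝ) : Measurable (aiF s) := by
  unfold aiF
  exact Measurable.ite (measurableSet_lt Real.continuous_cos.measurable measurable_const)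
    measurable_const measurable_const

theorem aiF_int (s a b : ℝ) : IntervalIntegrable (aiF s) volume a b := by
  have h : IntervalIntegrable (fun _ : ℝ => (1 : ℝ)) volume a b := intervalIntegrable_const
  refine h.mono_fun (aiF_meas s).aestronglyMeasurable (Eventually.of_forall fun u => ?_)
  simp only [aiF]
  split_ifs <;> simp

theorem aiF_base {s : ℝ} (hs : s ∈ Icc (0 : ℝ) 1) : ∫ u in (-π)..π, aiF s u = 2 * π * s := by
  have hpi := Real.pi_pos
  have e0 : 0 ≤ π * (1 - s) := mul_nonneg hpi.le (by linarith [hs.2])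
  have e1 : π * (1 - s) ≤ π := by nlinarith [hs.1]
  have h1 : ∫ u in (0 : ℝ)..π, aiF s u = π * s := by
    have a1 : ∫ u in (0 : ℝ)..(π * (1 - s)), aiF s u = 0 := by
      rw [intervalIntegral.integral_congr (g := fun _ => (0 : ℝ)), intervalIntegral.integral_zero]
      intro u hu
      rw [uIcc_of_le e0] at hu
      simp only [aiF]
      rw [if_neg]
      rw [not_lt]
      exact Real.cos_le_cos_of_nonneg_of_le_pi hu.1 e1 hu.2
    have a2 : ∫ u in (π * (1 - s))..π, aiF s u = ∫ u in (π * (1 - s))..π, (1 : ℝ) := by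
      apply intervalIntegral.integral_congr_ae
      refine Eventually.of_forall fun u hu => ?_
      rw [uIoc_of_le e1] at hu
      simp only [aiF]
      rw [if_pos]
      exact Real.cos_lt_cos_of_nonneg_of_le_pi e0 hu.2 hu.1
    rw [← intervalIntegral.integral_add_adjacent_intervals (aiF_int s 0 (π * (1 - s)))
      (aiF_int s (π * (1 - s)) π), a1, a2]
    simp
    ring
  have h2 : ∫ u in (-π)..0, aiF s u = π * s := by
    have a3 : ∫ u in (-π)..0, aiF s u = ∫ u in (-π)..(-0), aiF s (-u) := by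
      rw [neg_zero]
      refine intervalIntegral.integral_congr fun u _ => ?_
      simp only [aiF, Real.cos_neg]
    rw [a3, intervalIntegral.integral_comp_neg]
    simpa using h1
  rw [← intervalIntegral.integral_add_adjacent_intervals (aiF_int s (-π) 0) (aiF_int s 0 π), h1, h2]
  ring

theorem aiF_rot {s : ℝ} (hs : s ∈ Icc (0 : ℝ) 1) (d : ℝ) :
    ∫ θ in (-π)..π, aiF s (d - 2 * θ) = 2 * π * s := by
  rw [intervalIntegral.integral_comp_sub_mul (aiF s) (two_ne_zero) d]
  have h1 : ∫ u in (d - 2 * π)..(d - 2 * (-π)), aiF s u =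
      (∫ u in (d - 2 * π)..(d - 2 * π + 2 * π), aiF s u) + ∫ u in d..(d + 2 * π), aiF s u := by
    rw [show d - 2 * π + 2 * π = d by ring, show d - 2 * (-π) = d + 2 * π by ring]
    exact (intervalIntegral.integral_add_adjacent_intervals (aiF_int s _ _) (aiF_int s _ _)).symm
  have h2 : ∀ c : ℝ, ∫ u in c..(c + 2 * π), aiF s u = 2 * π * s := by
    intro c
    rw [(aiF_periodic s).intervalIntegral_add_eq c (-π), ← aiF_base hs]
    congr 1
    ring
  rw [h1, h2, h2]
  simp only [smul_eq_mul]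
  ring

/-- the angles for which the rotated vector lies in the cone -/
theorem aiAngles {s : ℝ} (hs : s ∈ Icc (0 : ℝ) 1) {v : ℝ × ℝ} (hv : v ≠ 0) :
    (volume.restrict (Ioc (-π) π)) {θ | aiRot θ v ∈ aiA s} = ENNReal.ofReal (2 * π * s) := by
  obtain ⟨r, φ, hr, h1, h2⟩ : ∃ r φ : ℝ, 0 < r ∧ v.1 = r * Real.cos φ ∧ v.2 = r * Real.sin φ := by
    obtain ⟨z, hz⟩ : ∃ z : ℂ, z = ⟨v.1, v.2⟩ := ⟨_, rfl⟩
    have hz0 : z ≠ 0 := by
      intro h
      apply hv
      rw [h] at hz
      have e1 := congrArg Complex.re hz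
      have e2 := congrArg Complex.im hz
      simp only [Complex.zero_re, Complex.zero_im] at e1 e2
      exact Prod.ext e1.symm e2.symm
    refine ⟨‖z‖, Complex.arg z, norm_pos_iff.2 hz0, ?_, ?_⟩
    · rw [Complex.norm_mul_cos_arg, hz]
    · rw [Complex.norm_mul_sin_arg, hz]
  have hset : ∀ θ, aiRot θ v ∈ aiA s ↔ Real.cos ((2 * φ - π * s) - 2 * θ) < Real.cos (π * (1 - s)) := by
    intro θ
    have e1 : (aiRot θ v).1 = r * Real.cos (φ - θ) := by
      simp only [aiRot, h1, h2, Real.cos_sub]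
      ring
    have e2 : (aiRot θ v).2 = r * Real.sin (φ - θ) := by
      simp only [aiRot, h1, h2, Real.sin_sub]
      ring
    have e3 : (aiRot θ v).1 * ((aiRot θ v).1 * Real.cos (π * s) + (aiRot θ v).2 * Real.sin (π * s)) =
        r ^ 2 * (Real.cos (φ - θ) * Real.cos (φ - θ - π * s)) := by
      rw [e1, e2, Real.cos_sub (φ - θ) (π * s)]
      ring
    have e4 : Real.cos (φ - θ) * Real.cos (φ - θ - π * s) =
        (Real.cos ((2 * φ - π * s) - 2 * θ) - Real.cos (π * (1 - s))) / 2 := by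
      have e5 : Real.cos ((2 * φ - π * s) - 2 * θ) =
          Real.cos ((φ - θ) + (φ - θ - π * s)) := by congr 1; ring
      have e6 : Real.cos (π * (1 - s)) = - Real.cos ((φ - θ) - (φ - θ - π * s)) := by
        rw [← Real.cos_pi_sub]
        congr 1
        ring
      rw [e5, e6, Real.cos_add, Real.cos_sub (φ - θ) (φ - θ - π * s)]
      ring
    show (aiRot θ v).1 * ((aiRot θ v).1 * Real.cos (π * s) + (aiRot θ v).2 * Real.sin (π * s)) < 0 ↔ _
    rw [e3, e4]
    have hr2 : 0 < r ^ 2 := by positivity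
    constructor
    · intro h
      by_contra hc
      push Not at hc
      have : 0 ≤ r ^ 2 * ((Real.cos ((2 * φ - π * s) - 2 * θ) - Real.cos (π * (1 - s))) / 2) :=
        mul_nonneg hr2.le (by linarith)
      linarith
    · intro h
      exact mul_neg_of_pos_of_neg hr2 (by linarith)
  have hS : MeasurableSet {θ : ℝ | aiRot θ v ∈ aiA s} := by
    have : {θ : ℝ | aiRot θ v ∈ aiA s} =
        {θ | Real.cos ((2 * φ - π * s) - 2 * θ) < Real.cos (π * (1 - s))} := by
      ext θ
      exact hset θ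
    rw [this]
    exact measurableSet_lt (by fun_prop) measurable_const
  have hfin : (volume.restrict (Ioc (-π) π)) {θ | aiRot θ v ∈ aiA s} ≠ ∞ := by
    refine ne_top_of_le_ne_top ?_ (measure_mono (subset_univ _))
    rw [Measure.restrict_apply MeasurableSet.univ, univ_inter, Real.volume_Ioc]
    exact ENNReal.ofReal_ne_top
  have hI : ∫ θ in (-π)..π, aiF s ((2 * φ - π * s) - 2 * θ) =
      ((volume.restrict (Ioc (-π) π)) {θ | aiRot θ v ∈ aiA s}).toReal := by
    rw [intervalIntegral.integral_of_le (by linarith [Real.pi_pos])]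
    have e7 : (fun θ => aiF s ((2 * φ - π * s) - 2 * θ)) =
        {θ : ℝ | aiRot θ v ∈ aiA s}.indicator 1 := by
      funext θ
      by_cases h : aiRot θ v ∈ aiA s
      · rw [indicator_of_mem (show θ ∈ {θ : ℝ | aiRot θ v ∈ aiA s} from h)]
        simp only [aiF, if_pos ((hset θ).1 h), Pi.one_apply]
      · rw [indicator_of_notMem (show θ ∉ {θ : ℝ | aiRot θ v ∈ aiA s} from h)]
        simp only [aiF, if_neg (fun h' => h ((hset θ).2 h'))]
    rw [e7, integral_indicator_one hS]
    rfl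
  rw [aiF_rot hs] at hI
  rw [← ENNReal.ofReal_toReal hfin, ← hI]

theorem archHalf_singleton (p : ℝ × ℝ) : archHalf {p} = 0 := by
  rw [archHalf]
  exact withDensity_absolutelyContinuous _ _ (by simp)

theorem arch_inv {s : ℝ} (hs : s ∈ Icc (0 : ℝ) 1) : ((arch s).prod (arch s)) Iv = ENNReal.ofReal s := by
  have hpi := Real.pi_pos
  -- reduce to `archHalf`
  have hm := measurable_archMap s
  have h0 : ((arch s).prod (arch s)) Iv =
      (archHalf.prod archHalf) {q : (ℝ × ℝ) × (ℝ × ℝ) | q.1 - q.2 ∈ aiA s} := by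
    rw [arch, Measure.map_prod_map _ _ hm hm, Measure.map_apply (hm.prodMap hm) measurableSet_Iv]
    congr 1
    ext ⟨p, q⟩
    simp only [mem_preimage, Iv, mem_ofPred_eq, Prod.map, aiA, Prod.fst_sub, Prod.snd_sub]
    rw [show p.1 * Real.cos (π * s) + p.2 * Real.sin (π * s) -
      (q.1 * Real.cos (π * s) + q.2 * Real.sin (π * s)) =
      (p.1 - q.1) * Real.cos (π * s) + (p.2 - q.2) * Real.sin (π * s) by ring]
  rw [h0]
  -- the invariance
  have hB : MeasurableSet {q : (ℝ × ℝ) × (ℝ × ℝ) | q.1 - q.2 ∈ aiA s} :=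
    ((isOpen_aiA s).preimage (continuous_fst.sub continuous_snd)).measurableSet
  have h1 : ∀ θ : ℝ, (archHalf.prod archHalf) {q : (ℝ × ℝ) × (ℝ × ℝ) | aiRot θ (q.1 - q.2) ∈ aiA s} =
      (archHalf.prod archHalf) {q : (ℝ × ℝ) × (ℝ × ℝ) | q.1 - q.2 ∈ aiA s} := by
    intro θ
    have h2 := (aiRot_archHalf θ).prod (aiRot_archHalf θ)
    rw [← h2.measure_preimage hB.nullMeasurableSet]
    congr 1
    ext ⟨p, q⟩
    simp only [mem_preimage, mem_ofPred_eq, Prod.map]
    have : aiRot θ (p - q) = aiRot θ p - aiRot θ q := by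
      simp only [aiRot, Prod.fst_sub, Prod.snd_sub, Prod.mk_sub_mk]
      ext <;> simp <;> ring
    rw [this]
  -- the average over the rotations
  have hrc : Continuous (fun x : ℝ × ((ℝ × ℝ) × (ℝ × ℝ)) => aiRot x.1 (x.2.1 - x.2.2)) := by
    unfold aiRot
    fun_prop
  have hC : MeasurableSet {x : ℝ × ((ℝ × ℝ) × (ℝ × ℝ)) | aiRot x.1 (x.2.1 - x.2.2) ∈ aiA s} :=
    ((isOpen_aiA s).preimage hrc).measurableSet
  have h3 : ((volume.restrict (Ioc (-π) π)).prod (archHalf.prod archHalf))
      {x : ℝ × ((ℝ × ℝ) × (ℝ × ℝ)) | aiRot x.1 (x.2.1 - x.2.2) ∈ aiA s} =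
      ENNReal.ofReal (2 * π) * (archHalf.prod archHalf) {q : (ℝ × ℝ) × (ℝ × ℝ) | q.1 - q.2 ∈ aiA s} := by
    rw [Measure.prod_apply hC]
    have : ∀ θ : ℝ, (archHalf.prod archHalf) (Prod.mk θ ⁻¹'
        {x : ℝ × ((ℝ × ℝ) × (ℝ × ℝ)) | aiRot x.1 (x.2.1 - x.2.2) ∈ aiA s}) =
        (archHalf.prod archHalf) {q : (ℝ × ℝ) × (ℝ × ℝ) | q.1 - q.2 ∈ aiA s} := fun θ => h1 θ
    simp only [this, lintegral_const, Measure.restrict_apply MeasurableSet.univ, univ_inter,
      Real.volume_Ioc]
    rw [mul_comm]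
    congr 2
    ring
  have h4 : ((volume.restrict (Ioc (-π) π)).prod (archHalf.prod archHalf))
      {x : ℝ × ((ℝ × ℝ) × (ℝ × ℝ)) | aiRot x.1 (x.2.1 - x.2.2) ∈ aiA s} = ENNReal.ofReal (2 * π * s) := by
    rw [Measure.prod_apply_symm hC]
    have hae : ∀ᵐ q ∂(archHalf.prod archHalf), q.1 - q.2 ≠ 0 := by
      rw [ae_iff]
      have hD : MeasurableSet {q : (ℝ × ℝ) × (ℝ × ℝ) | ¬ (q.1 - q.2 ≠ 0)} := by
        have : {q : (ℝ × ℝ) × (ℝ × ℝ) | ¬ (q.1 - q.2 ≠ 0)} = {q | q.1 - q.2 = 0} := by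
          ext q
          simp
        rw [this]
        exact (isClosed_singleton.preimage (continuous_fst.sub continuous_snd)).measurableSet
      rw [Measure.prod_apply hD, lintegral_eq_zero_iff (measurable_measure_prodMk_left hD)]
      refine Eventually.of_forall fun p => ?_
      have : Prod.mk p ⁻¹' {q : (ℝ × ℝ) × (ℝ × ℝ) | ¬ (q.1 - q.2 ≠ 0)} = {p} := by
        ext q
        simp [sub_eq_zero, eq_comm]
      exact (congrArg archHalf this).trans (archHalf_singleton p)
    rw [lintegral_congr_ae (g := fun _ => ENNReal.ofReal (2 * π * s))]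
    · simp
    · filter_upwards [hae] with q hq
      exact aiAngles hs hq
  have h2pi : 0 < 2 * π := by positivity
  rw [h3, ENNReal.ofReal_mul (p := 2 * π) h2pi.le] at h4
  exact (ENNReal.mul_right_inj (ENNReal.ofReal_pos.2 h2pi).ne' ENNReal.ofReal_ne_top).1 h4

end Pool.Agent.SNL63
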