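import Pool.Agent.SNL63.Ends

/-!
# The rotation invariance of the Archimedean measure
-/

namespace Pool.Agent.SNL63

open Pool.Agent.SN8 MeasureTheory Set Filter Topology
open scoped ENNReal Real

/-- the rotations of the plane preserve the Lebesgue measure -/
theorem rot_preserving (θ : ℝ) : MeasurePreserving (fun p : ℝ × ℝ =>
    (p.1 * Real.cos θ + p.2 * Real.sin θ, -p.1 * Real.sin θ + p.2 * Real.cos θ)) volume volume := by
  refine ⟨by fun_prop, ?_⟩
  have hL : (fun p : ℝ × ℝ =>
      (p.1 * Real.cos θ + p.2 * Real.sin θ, -p.1 * Real.sin θ + p.2 * Real.cos θ)) =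
      ⇑(Matrix.toLin (Module.Basis.finTwoProd ℝ) (Module.Basis.finTwoProd ℝ)
        !![Real.cos θ, Real.sin θ; -Real.sin θ, Real.cos θ]) := by
    funext p
    rw [Matrix.toLin_finTwoProd_apply]
    ext <;> simp only <;> ring
  have hdet : LinearMap.det (Matrix.toLin (Module.Basis.finTwoProd ℝ) (Module.Basis.finTwoProd ℝ)
        !![Real.cos θ, Real.sin θ; -Real.sin θ, Real.cos θ]) = 1 := by
    rw [LinearMap.det_toLin, Matrix.det_fin_two_of]
    nlinarith [Real.sin_sq_add_cos_sq θ]
  rw [hL, Measure.map_linearMap_addHaar_eq_smul_addHaar _ (by rw [hdet]; exact one_ne_zero), hdet]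
  simp

theorem archHalf_rot (θ : ℝ) : archHalf.map (fun p : ℝ × ℝ =>
    (p.1 * Real.cos θ + p.2 * Real.sin θ, -p.1 * Real.sin θ + p.2 * Real.cos θ)) = archHalf := by
  have hm := rot_preserving θ
  ext A hA
  rw [Measure.map_apply hm.measurable hA, archHalf, withDensity_apply _ (hm.measurable hA),
    withDensity_apply _ hA, ← hm.setLIntegral_comp_preimage hA measurable_archDensity]
  refine lintegral_congr fun p => ?_
  unfold archDensity
  have e1 : (p.1 * Real.cos θ + p.2 * Real.sin θ) ^ 2 + (-p.1 * Real.sin θ + p.2 * Real.cos θ) ^ 2 =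
      p.1 ^ 2 + p.2 ^ 2 := by
    have := Real.sin_sq_add_cos_sq θ
    linear_combination (p.1 ^ 2 + p.2 ^ 2) * this
  have e2 : 1 - (p.1 * Real.cos θ + p.2 * Real.sin θ) ^ 2 -
      (-p.1 * Real.sin θ + p.2 * Real.cos θ) ^ 2 = 1 - p.1 ^ 2 - p.2 ^ 2 := by
    linarith
  simp only [e1, e2]

/-- every projection of the Archimedean measure is uniform -/
theorem archHalf_proj (θ : ℝ) :
    archHalf.map (fun p : ℝ × ℝ => p.1 * Real.cos θ + p.2 * Real.sin θ) = unif := by
  have h := congrArg (fun μ : Measure (ℝ × ℝ) => μ.map Prod.fst) (archHalf_rot θ)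
  beta_reduce at h
  rw [archHalf_fst, Measure.map_map measurable_fst (by fun_prop)] at h
  exact h

theorem arch_snd (t : ℝ) : (arch t).map Prod.snd = unif := by
  rw [arch, Measure.map_map measurable_snd (measurable_archMap t), ← archHalf_proj (π * t)]
  rfl

theorem arch_two (a b : ℝ) : archHalf.map (fun p : ℝ × ℝ =>
    (p.1 * Real.cos (π * a) + p.2 * Real.sin (π * a), p.1 * Real.cos (π * b) + p.2 * Real.sin (π * b))) =
      arch (b - a) := by
  have h : arch (b - a) = (archHalf.map (fun p : ℝ × ℝ =>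
      (p.1 * Real.cos (π * a) + p.2 * Real.sin (π * a),
        -p.1 * Real.sin (π * a) + p.2 * Real.cos (π * a)))).map
      (fun p => (p.1, p.1 * Real.cos (π * (b - a)) + p.2 * Real.sin (π * (b - a)))) := by
    rw [archHalf_rot, arch]
  rw [h, Measure.map_map (measurable_archMap (b - a)) (by fun_prop)]
  congr 1
  funext p
  simp only [Function.comp]
  congr 1
  have e : π * b = π * a + π * (b - a) := by ring
  rw [e, Real.cos_add, Real.sin_add]
  ring

theorem unif_sq : ∫ x, x ^ 2 ∂unif = 1 / 3 := by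
  rw [unif, integral_smul_measure, integral_Icc_eq_integral_Ioc,
    ← intervalIntegral.integral_of_le (by norm_num), integral_pow]
  norm_num

theorem arch_energy (t : ℝ) :
    ∫ p, (p.1 - p.2) ^ 2 ∂(arch t) = 2 / 3 * (1 - Real.cos (π * t)) := by
  have h1 : ∫ p, (p.1 * Real.cos (π * t / 2 - π / 2) + p.2 * Real.sin (π * t / 2 - π / 2)) ^ 2
      ∂archHalf = 1 / 3 := by
    rw [← unif_sq, ← archHalf_proj (π * t / 2 - π / 2),
      integral_map (by fun_prop) (by fun_prop)]
  rw [arch, integral_map (measurable_archMap t).aemeasurable (by fun_prop)]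
  have h2 : ∀ p : ℝ × ℝ, (p.1 - (p.1 * Real.cos (π * t) + p.2 * Real.sin (π * t))) ^ 2 =
      4 * Real.sin (π * t / 2) ^ 2 *
        (p.1 * Real.cos (π * t / 2 - π / 2) + p.2 * Real.sin (π * t / 2 - π / 2)) ^ 2 := by
    intro p
    rw [Real.cos_sub_pi_div_two, Real.sin_sub_pi_div_two]
    have e : π * t = 2 * (π * t / 2) := by ring
    rw [e, Real.cos_two_mul', Real.sin_two_mul]
    have h3 := Real.sin_sq_add_cos_sq (π * t / 2)
    have e' : 2 * (π * t / 2) / 2 = π * t / 2 := by ring
    rw [e']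
    have h4 : p.1 - (p.1 * (Real.cos (π * t / 2) ^ 2 - Real.sin (π * t / 2) ^ 2) +
        p.2 * (2 * Real.sin (π * t / 2) * Real.cos (π * t / 2))) =
        2 * Real.sin (π * t / 2) * (p.1 * Real.sin (π * t / 2) + p.2 * -Real.cos (π * t / 2)) := by
      linear_combination p.1 * (-h3)
    rw [h4]
    ring
  simp only [h2]
  rw [integral_const_mul, h1]
  have e : π * t = 2 * (π * t / 2) := by ring
  have h5 : Real.cos (π * t) = 1 - 2 * Real.sin (π * t / 2) ^ 2 := by
    conv_lhs => rw [e, Real.cos_two_mul']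
    have h3 := Real.sin_sq_add_cos_sq (π * t / 2)
    linarith
  rw [h5]
  ring

end Pool.Agent.SNL63
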