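import Pool.Agent.SNL63.Ana
import Pool.Agent.SNL63.HookF

/-!
# The bound for the number of networks with few crossings

Assembly: `ana`, `stair_ratio` (landed) and `A_le`, `U_step`, `nets_eq`, `cross_zero_le` (as
hypotheses) give exactly the hypothesis `hU` of `low_bound`.
-/

namespace Pool.Agent.SNL63

open Pool.Agent.SN8 Finset

theorem F_stair_pos (n : ℕ) : 0 < F n (n.choose 2) (stair n) := by
  have h1 := hook_formula (shape_stair n)
  rw [sum_stair] at h1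
  have h2 := Nat.factorial_pos (n.choose 2)
  rw [← h1] at h2
  exact Nat.pos_of_ne_zero (fun h => by rw [h, zero_mul] at h2; exact lt_irrefl _ h2)

theorem factor_mem {n m θ : ℕ} (_hm : 1 ≤ m) (hmn : m < n) (h1 : 1 ≤ θ) (h2 : θ ≤ m)
    (h3 : θ ≤ n - m) :
    0 ≤ 1 - θ * √((θ : ℝ) * m) / (2 * (n.choose 2 : ℝ)) ∧
      1 - θ * √((θ : ℝ) * m) / (2 * (n.choose 2 : ℝ)) ≤ 1 := by
  have hn : (2 : ℝ) ≤ n := by exact_mod_cast (by omega : 2 ≤ n)
  have hθ : 2 * (θ : ℝ) ≤ n := by exact_mod_cast (by omega : 2 * θ ≤ n)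
  have hθ3 : (θ : ℝ) ≤ n - m := by
    have h4 : θ + m ≤ n := by omega
    have h5 : (θ : ℝ) + m ≤ n := by exact_mod_cast h4
    linarith
  have hsq : √((θ : ℝ) * m) ≤ n / 2 := by
    rw [Real.sqrt_le_iff]
    refine ⟨by positivity, ?_⟩
    have : (θ : ℝ) * m ≤ (n - m) * m := mul_le_mul_of_nonneg_right hθ3 (Nat.cast_nonneg _)
    nlinarith [sq_nonneg ((n : ℝ) - 2 * m)]
  have hch : 2 * (n.choose 2 : ℝ) = n * (n - 1) := by
    rw [Nat.cast_choose_two]; ring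
  have hpos : (0 : ℝ) < n * (n - 1) := by
    apply mul_pos <;> linarith
  rw [hch]
  have hnum : (θ : ℝ) * √((θ : ℝ) * m) ≤ n * (n - 1) := by
    have h5 : (θ : ℝ) * √((θ : ℝ) * m) ≤ (n / 2) * (n / 2) :=
      mul_le_mul (by linarith) hsq (Real.sqrt_nonneg _) (by linarith)
    nlinarith
  have hnum0 : 0 ≤ (θ : ℝ) * √((θ : ℝ) * m) := by positivity
  constructor
  · rw [sub_nonneg, div_le_one hpos]
    exact hnum
  · have : 0 ≤ θ * √((θ : ℝ) * m) / ((n : ℝ) * (n - 1)) := by positivity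
    linarith

section

variable
    (hA : ∀ n M K θ s k : ℕ, M + K = n → 1 ≤ M → 1 ≤ K → 1 ≤ θ → θ ≤ M → θ ≤ K →
      s + k = n.choose 2 →
      (A n M K s k (stair n) : ℝ) ≤
        (1 - θ * √((θ : ℝ) * K) / (2 * (n.choose 2 : ℝ))) ^ s * 2 ^ (θ ^ 2) *
          F n (s + k) (stair n))
    (hstep : ∀ n m s₀ d : ℕ, 1 ≤ m → m < n → 3 ≤ n →
      (U n m s₀ (d + 1)).ncard ≤ (U n m s₀ 0).ncard +
        n ^ 2 * ((n.choose 2).choose (n - 1) * 2 ^ (n - 1)) *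
          (((n - 1).choose 2).choose (n - 2) * 2 ^ (n - 2)) *
            (U (n - 2) (m - 1) (s₀ - 2 * n) d).ncard)
    (hnets : ∀ n : ℕ, nets n = F n (n.choose 2) (stair n))
    (hcross : ∀ n m s : ℕ, 1 ≤ m → m < n → s ≤ n.choose 2 →
      ({k | IsNetwork n k ∧ cross m (k.take s) = 0} : Set (List ℕ)).ncard ≤
        A n (n - m) m s (n.choose 2 - s) (stair n))

include hnets in
theorem nets_pos_of (n : ℕ) : 0 < nets n := by
  rw [hnets]; exact F_stair_pos n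

include hA hnets hcross in
theorem base_card (n m s₀ θ : ℕ) (hm : 1 ≤ m) (hmn : m < n) (h1 : 1 ≤ θ) (h2 : θ ≤ m)
    (h3 : θ ≤ n - m) :
    ((U n m s₀ 0).ncard : ℝ) ≤ ((n.choose 2 : ℝ) + 1) *
      ((1 - θ * √((θ : ℝ) * m) / (2 * (n.choose 2 : ℝ))) ^ s₀ * 2 ^ (θ ^ 2)) * nets n := by
  obtain ⟨hf0, hf1⟩ := factor_mem hm hmn h1 h2 h3
  set f : ℝ := 1 - θ * √((θ : ℝ) * m) / (2 * (n.choose 2 : ℝ)) with hf
  set N : ℕ := n.choose 2 with hN
  have hsub : U n m s₀ 0 ⊆ ⋃ s ∈ Finset.Icc s₀ N,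
      ({k | IsNetwork n k ∧ cross m (k.take s) = 0} : Set (List ℕ)) := by
    rintro k ⟨hk, s, hs0, hsN, hc⟩
    simp only [Set.mem_iUnion, Set.mem_ofPred_eq, exists_prop]
    exact ⟨s, Finset.mem_Icc.2 ⟨hs0, hsN⟩, hk, Nat.le_zero.1 hc⟩
  have hfin : (⋃ s ∈ Finset.Icc s₀ N,
      ({k | IsNetwork n k ∧ cross m (k.take s) = 0} : Set (List ℕ))).Finite := by
    apply Set.Finite.subset (networks_finite n)
    intro k hk
    simp only [Set.mem_iUnion, Set.mem_ofPred_eq, exists_prop] at hk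
    obtain ⟨s, _, hk, _⟩ := hk
    exact hk
  have hcard : (U n m s₀ 0).ncard ≤ ∑ s ∈ Finset.Icc s₀ N,
      ({k | IsNetwork n k ∧ cross m (k.take s) = 0} : Set (List ℕ)).ncard :=
    (Set.ncard_le_ncard hsub hfin).trans (Finset.set_ncard_biUnion_le _ _)
  have hterm : ∀ s ∈ Finset.Icc s₀ N,
      ((({k | IsNetwork n k ∧ cross m (k.take s) = 0} : Set (List ℕ)).ncard : ℕ) : ℝ) ≤
        f ^ s₀ * 2 ^ (θ ^ 2) * nets n := by
    intro s hs
    rw [Finset.mem_Icc] at hs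
    have e1 : ((({k | IsNetwork n k ∧ cross m (k.take s) = 0} : Set (List ℕ)).ncard : ℕ) : ℝ) ≤
        (A n (n - m) m s (N - s) (stair n) : ℝ) := by
      exact_mod_cast hcross n m s hm hmn hs.2
    have e2 := hA n (n - m) m θ s (N - s) (by omega) (by omega) hm h1 h3 h2 (by omega)
    have e3 : s + (N - s) = N := by omega
    rw [e3, ← hnets n] at e2
    have e4 : f ^ s ≤ f ^ s₀ := pow_le_pow_of_le_one hf0 hf1 hs.1
    have e5 : f ^ s * 2 ^ (θ ^ 2) * (nets n : ℝ) ≤ f ^ s₀ * 2 ^ (θ ^ 2) * nets n := by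
      apply mul_le_mul_of_nonneg_right _ (Nat.cast_nonneg _)
      exact mul_le_mul_of_nonneg_right e4 (by positivity)
    exact e1.trans (e2.trans e5)
  have hsum : ((U n m s₀ 0).ncard : ℝ) ≤ ∑ s ∈ Finset.Icc s₀ N, f ^ s₀ * 2 ^ (θ ^ 2) * nets n := by
    calc ((U n m s₀ 0).ncard : ℝ) ≤ ((∑ s ∈ Finset.Icc s₀ N,
          ({k | IsNetwork n k ∧ cross m (k.take s) = 0} : Set (List ℕ)).ncard : ℕ) : ℝ) := by
          exact_mod_cast hcard
      _ = ∑ s ∈ Finset.Icc s₀ N,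
          ((({k | IsNetwork n k ∧ cross m (k.take s) = 0} : Set (List ℕ)).ncard : ℕ) : ℝ) := by
          push_cast; rfl
      _ ≤ _ := Finset.sum_le_sum hterm
  rw [Finset.sum_const, Nat.card_Icc, nsmul_eq_mul] at hsum
  have hc : ((N + 1 - s₀ : ℕ) : ℝ) ≤ (N : ℝ) + 1 := by
    have : N + 1 - s₀ ≤ N + 1 := Nat.sub_le _ _
    exact_mod_cast this
  have hnn : 0 ≤ f ^ s₀ * 2 ^ (θ ^ 2) * (nets n : ℝ) := by positivity
  calc ((U n m s₀ 0).ncard : ℝ) ≤ ((N + 1 - s₀ : ℕ) : ℝ) * (f ^ s₀ * 2 ^ (θ ^ 2) * nets n) := hsum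
    _ ≤ ((N : ℝ) + 1) * (f ^ s₀ * 2 ^ (θ ^ 2) * nets n) := mul_le_mul_of_nonneg_right hc hnn
    _ = _ := by ring

include hnets in
theorem ratio_two {n : ℕ} (hn : 3 ≤ n) :
    ((n.choose 2).choose (n - 1) * 2 ^ (n - 1)) *
      (((n - 1).choose 2).choose (n - 2) * 2 ^ (n - 2)) * nets (n - 2) ≤ 4 ^ (2 * n) * nets n := by
  have h1 := stair_ratio (n := n) (by omega)
  have h2 := stair_ratio (n := n - 1) (by omega)
  have e1 : n - 1 - 1 = n - 2 := by omega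
  rw [e1, ← hnets, ← hnets] at h2
  rw [← hnets, ← hnets] at h1
  calc ((n.choose 2).choose (n - 1) * 2 ^ (n - 1)) *
      (((n - 1).choose 2).choose (n - 2) * 2 ^ (n - 2)) * nets (n - 2)
      = ((n.choose 2).choose (n - 1) * 2 ^ (n - 1)) *
        ((((n - 1).choose 2).choose (n - 2) * 2 ^ (n - 2)) * nets (n - 2)) := by ring
    _ ≤ ((n.choose 2).choose (n - 1) * 2 ^ (n - 1)) * (4 ^ (n - 2) * nets (n - 1)) :=
        Nat.mul_le_mul_left _ h2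
    _ = 4 ^ (n - 2) * ((n.choose 2).choose (n - 1) * 2 ^ (n - 1) * nets (n - 1)) := by ring
    _ ≤ 4 ^ (n - 2) * (4 ^ (n - 1) * nets n) := Nat.mul_le_mul_left _ h1
    _ = 4 ^ ((n - 2) + (n - 1)) * nets n := by rw [pow_add]; ring
    _ ≤ 4 ^ (2 * n) * nets n :=
        Nat.mul_le_mul_right _ (Nat.pow_le_pow_right (by norm_num) (by omega))

include hstep hnets in
theorem step_ratio (n m s₀ d : ℕ) (hm : 1 ≤ m) (hmn : m < n) (hn : 3 ≤ n) :
    ((U n m s₀ (d + 1)).ncard : ℝ) / nets n ≤ ((U n m s₀ 0).ncard : ℝ) / nets n +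
      (n : ℝ) ^ 2 * 4 ^ (2 * n) *
        (((U (n - 2) (m - 1) (s₀ - 2 * n) d).ncard : ℝ) / nets (n - 2)) := by
  have hp : (0 : ℝ) < nets n := by exact_mod_cast nets_pos_of hnets n
  have hp2 : (0 : ℝ) < nets (n - 2) := by exact_mod_cast nets_pos_of hnets (n - 2)
  have h1 := hstep n m s₀ d hm hmn hn
  have h2 := ratio_two hnets hn
  set a := (n.choose 2).choose (n - 1) * 2 ^ (n - 1) with ha
  set b := ((n - 1).choose 2).choose (n - 2) * 2 ^ (n - 2) with hb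
  set u := (U (n - 2) (m - 1) (s₀ - 2 * n) d).ncard with hu
  have h1r : ((U n m s₀ (d + 1)).ncard : ℝ) ≤ ((U n m s₀ 0).ncard : ℝ) +
      (n : ℝ) ^ 2 * a * b * u := by exact_mod_cast h1
  have h2r : (a : ℝ) * b * nets (n - 2) ≤ 4 ^ (2 * n) * nets n := by exact_mod_cast h2
  rw [div_le_iff₀ hp, add_mul, div_mul_cancel₀ _ hp.ne']
  refine h1r.trans ?_
  have h3 : (a : ℝ) * b * u ≤ 4 ^ (2 * n) * (u / nets (n - 2)) * nets n := by
    have h4 : (a : ℝ) * b ≤ 4 ^ (2 * n) * nets n / nets (n - 2) := by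
      rw [le_div_iff₀ hp2]; exact h2r
    calc (a : ℝ) * b * u ≤ (4 ^ (2 * n) * nets n / nets (n - 2)) * u :=
          mul_le_mul_of_nonneg_right h4 (Nat.cast_nonneg _)
      _ = _ := by ring
  have h5 : (n : ℝ) ^ 2 * a * b * u ≤
      (n : ℝ) ^ 2 * (4 ^ (2 * n) * (u / nets (n - 2)) * nets n) := by
    calc (n : ℝ) ^ 2 * a * b * u = (n : ℝ) ^ 2 * (a * b * u) := by ring
      _ ≤ _ := mul_le_mul_of_nonneg_left h3 (by positivity)
  calc ((U n m s₀ 0).ncard : ℝ) + (n : ℝ) ^ 2 * a * b * u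
      ≤ ((U n m s₀ 0).ncard : ℝ) + (n : ℝ) ^ 2 * (4 ^ (2 * n) * (u / nets (n - 2)) * nets n) := by
        linarith
    _ = _ := by ring

include hA hstep hnets hcross in
/-- The hypothesis `hU` of `low_bound`. -/
theorem U_bound_of : ∀ ε : ℝ, 0 < ε → ε ≤ 1 / 2 → ∃ δ > (0 : ℝ), ∃ c > (0 : ℝ), ∃ n₀ : ℕ,
    ∀ n ≥ n₀, ∀ m s₀ d : ℕ, ε * n ≤ m → (m : ℝ) ≤ (1 - ε) * n →
      ε * (n.choose 2 : ℝ) - 1 ≤ s₀ → (d : ℝ) ≤ δ * n →
        ((U n m s₀ d).ncard : ℝ) ≤ Real.exp (-c * (n : ℝ) ^ 2) * nets n := by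
  intro ε hε hε1
  obtain ⟨δ, hδ, c, hc, n₀, h⟩ := ana (fun n m s₀ d => ((U n m s₀ d).ncard : ℝ) / nets n)
    (fun n m s₀ d => by positivity)
    (fun n m s₀ θ hm hmn h1 h2 h3 => by
      have hp : (0 : ℝ) < nets n := by exact_mod_cast nets_pos_of hnets n
      rw [div_le_iff₀ hp]
      exact base_card hA hnets hcross n m s₀ θ hm hmn h1 h2 h3)
    (fun n m s₀ d hm hmn hn => step_ratio hstep hnets n m s₀ d hm hmn hn) hε hε1
  refine ⟨δ, hδ, c, hc, n₀, fun n hn m s₀ d h1 h2 h3 h4 => ?_⟩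
  have hp : (0 : ℝ) < nets n := by exact_mod_cast nets_pos_of hnets n
  have h5 := h n hn m s₀ d h1 h2 h3 h4
  rwa [div_le_iff₀ hp] at h5

end

end Pool.Agent.SNL63
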