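import Pool.Agent.SNL63.EtaCross

/-!
# From the networks to the permutation matrix measures
-/

namespace Pool.Agent.SNL63

open MeasureTheory Set Filter Topology Pool.Agent.SN8
open scoped ENNReal Real

/-! ### The events -/

/-- Few crossings. -/
def FewC (n : ℕ) (ε δ : ℝ) (k : List ℕ) : Prop :=
  ∃ m s : ℕ, ε * n ≤ m ∧ (m : ℝ) ≤ (1 - ε) * n ∧ ε * (n.choose 2 : ℝ) - 1 ≤ s ∧ s ≤ n.choose 2 ∧
    (cross m (k.take s) : ℝ) ≤ δ * n

theorem cross_le_of_eta {n c : ℕ} (hn : 1 ≤ n) {δ : ℝ} (hδ : 0 ≤ δ)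
    (h : (n : ℝ≥0∞)⁻¹ * (c : ℝ≥0∞) ≤ ENNReal.ofReal δ) : (c : ℝ) ≤ δ * n := by
  have hn0 : (n : ℝ≥0∞) ≠ 0 := by
    simp only [ne_eq, Nat.cast_eq_zero]; omega
  have hnt : (n : ℝ≥0∞) ≠ ⊤ := ENNReal.natCast_ne_top n
  have h1 : (c : ℝ≥0∞) ≤ ENNReal.ofReal (δ * n) := by
    rw [ENNReal.ofReal_mul hδ, ENNReal.ofReal_natCast]
    calc (c : ℝ≥0∞) = (n : ℝ≥0∞)⁻¹ * (c : ℝ≥0∞) * n := by
          rw [mul_comm (n : ℝ≥0∞)⁻¹, mul_assoc, ENNReal.inv_mul_cancel hn0 hnt, mul_one]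
      _ ≤ ENNReal.ofReal δ * n := by gcongr
  rw [← ENNReal.ofReal_natCast, ENNReal.ofReal_le_ofReal_iff (by positivity)] at h1
  exact h1

theorem low_fewC {n : ℕ} {ε δ : ℝ} (hε : 0 < ε) (hδ : 0 ≤ δ) (hn : 4 / ε ≤ n) {k : List ℕ}
    (hk : IsNetwork n k) (h : Low ε δ n k) : FewC n (ε / 4) δ k := by
  obtain ⟨t, ht, a, ha, h1⟩ := h
  replace h1 := (eta_le_of_subset hk t (measurableSet_Iic.prod measurableSet_Ioi)
    (measurableSet_Icc.prod measurableSet_Ioc : MeasurableSet (Ro a)) (by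
      rintro ⟨x, y⟩ ⟨⟨hx, hy⟩, hx', hy'⟩
      exact ⟨⟨hx'.1, hx⟩, hy, hy'.2⟩)).trans h1
  have hn0 : (0 : ℝ) < n := lt_of_lt_of_le (by positivity) hn
  have hn1 : 1 ≤ n := by
    have : 0 < n := by exact_mod_cast hn0
    omega
  have hN : (0 : ℝ) ≤ (n.choose 2 : ℝ) := Nat.cast_nonneg _
  rw [eta_cross hn1 k t (by linarith [ha.1]) (by linarith [ha.2])] at h1
  have h2 := cross_le_of_eta hn1 hδ h1
  have h3 : (n : ℝ) * (a + 1) / 2 < ⌊(n : ℝ) * (a + 1) / 2⌋₊ + 1 := Nat.lt_floor_add_one _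
  have h4 : (⌊(n : ℝ) * (a + 1) / 2⌋₊ : ℝ) ≤ (n : ℝ) * (a + 1) / 2 := Nat.floor_le (by
    have : 0 ≤ a + 1 := by linarith [ha.1]
    positivity)
  have h5 : (n.choose 2 : ℝ) * t < ⌊(n.choose 2 : ℝ) * t⌋₊ + 1 := Nat.lt_floor_add_one _
  have h6 : 4 ≤ n * ε := by
    rw [div_le_iff₀ hε] at hn
    exact hn
  refine ⟨_, _, ?_, ?_, ?_, ?_, h2⟩
  · nlinarith [ha.1]
  · nlinarith [ha.2]
  · nlinarith [ht.1]
  · refine Nat.floor_le_of_le ?_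
    nlinarith [ht.2]

theorem low'_fewC {n : ℕ} {ε δ : ℝ} (hε : 0 < ε) (hδ : 0 ≤ δ) (hn : 4 / ε ≤ n) {k : List ℕ}
    (hk : IsNetwork n k) (h : Low' ε δ n k) : FewC n (ε / 4) δ k.reverse := by
  obtain ⟨t, ht, a, ha, h1⟩ := h
  replace h1 := (eta_le_of_subset hk t (measurableSet_Ici.prod measurableSet_Ioi)
    (measurableSet_Icc.prod measurableSet_Ioc : MeasurableSet (Ro' a)) (by
      rintro ⟨x, y⟩ ⟨⟨hx, hy⟩, hx', hy'⟩
      exact ⟨⟨hx, hx'.2⟩, hy, hy'.2⟩)).trans h1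
  have hn0 : (0 : ℝ) < n := lt_of_lt_of_le (by positivity) hn
  have hn1 : 1 ≤ n := by
    have : 0 < n := by exact_mod_cast hn0
    omega
  have hN : (0 : ℝ) ≤ (n.choose 2 : ℝ) := Nat.cast_nonneg _
  have h0 := (eta_cross_rev hn1 hk (a := a) (t := t) (by linarith [ha.1]) (by linarith [ht.2])).trans h1
  have h2 := cross_le_of_eta hn1 hδ h0
  have h3 : (n : ℝ) * (a + 1) / 2 < ⌊(n : ℝ) * (a + 1) / 2⌋₊ + 1 := Nat.lt_floor_add_one _
  have h4 : (⌊(n : ℝ) * (a + 1) / 2⌋₊ : ℝ) ≤ (n : ℝ) * (a + 1) / 2 := Nat.floor_le (by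
    have : 0 ≤ a + 1 := by linarith [ha.1]
    positivity)
  have h5 : (⌊(n.choose 2 : ℝ) * t⌋₊ : ℝ) ≤ (n.choose 2 : ℝ) * t := Nat.floor_le (mul_nonneg hN ht.1)
  have h6 : 4 ≤ n * ε := by
    rw [div_le_iff₀ hε] at hn
    exact hn
  have h7 : ⌊(n.choose 2 : ℝ) * t⌋₊ ≤ n.choose 2 := by
    refine Nat.floor_le_of_le ?_
    nlinarith [ht.2]
  refine ⟨_, _, ?_, ?_, ?_, ?_, h2⟩
  · nlinarith [ha.1]
  · nlinarith [ha.2]
  · rw [Nat.cast_sub h7]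
    nlinarith [ht.2]
  · omega

/-! ### Probabilities -/

theorem prob_nonneg (n : ℕ) (E : List ℕ → Prop) : 0 ≤ prob n E := by
  unfold prob
  positivity

theorem prob_le_one (n : ℕ) (E : List ℕ → Prop) : prob n E ≤ 1 := by
  unfold prob
  refine div_le_one_of_le₀ ?_ (Nat.cast_nonneg _)
  have h : ({k | IsNetwork n k ∧ E k} : Set (List ℕ)).ncard ≤ ({k | IsNetwork n k} : Set (List ℕ)).ncard :=
    Set.ncard_le_ncard (fun k hk => hk.1) (networks_finite n)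
  exact_mod_cast h

theorem prob_mono {n : ℕ} {E E' : List ℕ → Prop} (h : ∀ k, IsNetwork n k → E k → E' k) :
    prob n E ≤ prob n E' := by
  unfold prob
  refine div_le_div_of_nonneg_right ?_ (Nat.cast_nonneg _)
  have h1 : ({k | IsNetwork n k ∧ E k} : Set (List ℕ)).ncard ≤ ({k | IsNetwork n k ∧ E' k} : Set (List ℕ)).ncard :=
    Set.ncard_le_ncard (fun k hk => ⟨hk.1, h k hk.1 hk.2⟩) ((networks_finite n).subset fun k hk => hk.1)
  exact_mod_cast h1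

theorem prob_or_le (n : ℕ) (E E' : List ℕ → Prop) : prob n (fun k => E k ∨ E' k) ≤ prob n E + prob n E' := by
  unfold prob
  rw [← add_div]
  refine div_le_div_of_nonneg_right ?_ (Nat.cast_nonneg _)
  have h : ({k | IsNetwork n k ∧ (E k ∨ E' k)} : Set (List ℕ)) =
      {k | IsNetwork n k ∧ E k} ∪ {k | IsNetwork n k ∧ E' k} := by
    ext k
    simp only [mem_ofPred_eq, mem_union]
    tauto
  rw [h]
  exact_mod_cast Set.ncard_union_le _ _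

theorem prob_reverse (n : ℕ) (E : List ℕ → Prop) : prob n (fun k => E k.reverse) = prob n E := by
  unfold prob
  congr 2
  have h : ({k | IsNetwork n k ∧ E k} : Set (List ℕ)) =
      List.reverse '' {k | IsNetwork n k ∧ E k.reverse} := by
    ext k
    simp only [mem_ofPred_eq, mem_image]
    constructor
    · rintro ⟨h1, h2⟩
      exact ⟨k.reverse, ⟨network_reverse h1, by rwa [List.reverse_reverse]⟩, List.reverse_reverse k⟩
    · rintro ⟨l, ⟨h1, h2⟩, rfl⟩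
      exact ⟨network_reverse h1, h2⟩
  rw [h, Set.ncard_image_of_injective _ List.reverse_injective]

theorem exists_const {f : ℕ → ℝ} (h1 : ∀ n, f n ≤ 1) {c : ℝ} {n₀ : ℕ}
    (h : ∀ n ≥ n₀, f n ≤ Real.exp (-c * (n : ℝ) ^ 2)) (hc : 0 < c) :
    ∃ c₁ > (0 : ℝ), ∀ n, f n ≤ c₁ * Real.exp (-c * (n : ℝ) ^ 2) := by
  refine ⟨Real.exp (c * (n₀ : ℝ) ^ 2), Real.exp_pos _, fun n => ?_⟩
  rw [← Real.exp_add]
  rcases le_total n₀ n with hn | hn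
  · refine (h n hn).trans (Real.exp_le_exp.2 ?_)
    have : 0 ≤ c * (n₀ : ℝ) ^ 2 := by positivity
    linarith
  · refine (h1 n).trans (Real.one_le_exp ?_)
    have h2 : (n : ℝ) ^ 2 ≤ (n₀ : ℝ) ^ 2 := by
      have : (n : ℝ) ≤ n₀ := by exact_mod_cast hn
      gcongr
    nlinarith

/-- A union over the places `m`. -/
theorem fewC_union
    (hU : ∀ ε : ℝ, 0 < ε → ε ≤ 1 / 2 → ∃ δ > (0 : ℝ), ∃ c > (0 : ℝ), ∃ n₀ : ℕ, ∀ n ≥ n₀,
      ∀ m s₀ d : ℕ, ε * n ≤ m → (m : ℝ) ≤ (1 - ε) * n → ε * (n.choose 2 : ℝ) - 1 ≤ s₀ →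
        (d : ℝ) ≤ δ * n → ((U n m s₀ d).ncard : ℝ) ≤ Real.exp (-c * (n : ℝ) ^ 2) * nets n)
    {ε : ℝ} (hε : 0 < ε) (hε1 : ε ≤ 1 / 2) :
    ∃ δ > (0 : ℝ), ∃ c > (0 : ℝ), ∃ n₀ : ℕ, ∀ n ≥ n₀, prob n (FewC n ε δ) ≤ Real.exp (-c * (n : ℝ) ^ 2) := by
  obtain ⟨δ, hδ, c, hc, n₀, h⟩ := hU ε hε hε1
  refine ⟨δ, hδ, c / 2, by positivity, max n₀ ⌈2 / c⌉₊, fun n hn => ?_⟩
  have hn1 : n₀ ≤ n := le_of_max_le_left hn
  have hn2 : 2 / c ≤ n := by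
    refine (Nat.le_ceil _).trans ?_
    exact_mod_cast le_of_max_le_right hn
  obtain ⟨s₀, hs₀⟩ : ∃ s₀, s₀ = ⌈ε * (n.choose 2 : ℝ) - 1⌉₊ := ⟨_, rfl⟩
  obtain ⟨d, hd⟩ : ∃ d, d = ⌊δ * n⌋₊ := ⟨_, rfl⟩
  obtain ⟨I, hI⟩ : ∃ I : Finset ℕ, I = (Finset.range (n + 1)).filter
      (fun m : ℕ => ε * n ≤ m ∧ (m : ℝ) ≤ (1 - ε) * n) := ⟨_, rfl⟩
  have h1 : ({k | IsNetwork n k ∧ FewC n ε δ k} : Set (List ℕ)) ⊆ ⋃ m ∈ I, U n m s₀ d := by
    rintro k ⟨hk, m, s, e1, e2, e3, e4, e5⟩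
    rw [mem_iUnion₂]
    refine ⟨m, ?_, hk, s, ?_, e4, ?_⟩
    · rw [hI, Finset.mem_filter, Finset.mem_range]
      refine ⟨?_, e1, e2⟩
      have h2 : (m : ℝ) ≤ n := by
        have : (0 : ℝ) ≤ n := Nat.cast_nonneg n
        nlinarith
      have h3 : m ≤ n := by exact_mod_cast h2
      omega
    · rw [hs₀]
      exact Nat.ceil_le.2 e3
    · rw [hd]
      exact Nat.le_floor e5
  have hfin : ∀ m, (U n m s₀ d).Finite := fun m => (networks_finite n).subset fun k hk => hk.1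
  have h2 : ((({k | IsNetwork n k ∧ FewC n ε δ k} : Set (List ℕ)).ncard : ℕ) : ℝ) ≤
      ∑ m ∈ I, ((U n m s₀ d).ncard : ℝ) := by
    have e1 : ({k | IsNetwork n k ∧ FewC n ε δ k} : Set (List ℕ)).ncard ≤ (⋃ m ∈ I, U n m s₀ d).ncard :=
      Set.ncard_le_ncard h1 (Set.Finite.biUnion I.finite_toSet fun m _ => hfin m)
    have e2 : (⋃ m ∈ I, U n m s₀ d).ncard ≤ ∑ m ∈ I, (U n m s₀ d).ncard := by
      clear hI h1 e1
      induction I using Finset.induction_on with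
      | empty => simp
      | insert m I hm ih =>
        rw [Finset.set_biUnion_insert, Finset.sum_insert hm]
        exact (Set.ncard_union_le _ _).trans (by omega)
    exact_mod_cast e1.trans e2
  have h3 : ∑ m ∈ I, ((U n m s₀ d).ncard : ℝ) ≤ ((n : ℝ) + 1) * (Real.exp (-c * (n : ℝ) ^ 2) * nets n) := by
    have e1 : ∀ m ∈ I, ((U n m s₀ d).ncard : ℝ) ≤ Real.exp (-c * (n : ℝ) ^ 2) * nets n := by
      intro m hm
      rw [hI, Finset.mem_filter] at hm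
      refine h n hn1 m s₀ d hm.2.1 hm.2.2 ?_ ?_
      · rw [hs₀]
        exact Nat.le_ceil _
      · rw [hd]
        exact Nat.floor_le (by positivity)
    refine (Finset.sum_le_card_nsmul I _ _ e1).trans ?_
    rw [nsmul_eq_mul]
    refine mul_le_mul_of_nonneg_right ?_ (by positivity)
    have e2 : I.card ≤ n + 1 := by
      rw [hI]
      refine (Finset.card_filter_le _ _).trans ?_
      rw [Finset.card_range]
    exact_mod_cast e2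
  have h4 : ((n : ℝ) + 1) * Real.exp (-c * (n : ℝ) ^ 2) ≤ Real.exp (-(c / 2) * (n : ℝ) ^ 2) := by
    have e1 : (n : ℝ) + 1 ≤ Real.exp n := Real.add_one_le_exp _
    have e2 : Real.exp n ≤ Real.exp (c / 2 * (n : ℝ) ^ 2) := by
      refine Real.exp_le_exp.2 ?_
      have e3 : 2 ≤ n * c := by
        rw [div_le_iff₀ hc] at hn2
        exact hn2
      have e4 : (0 : ℝ) ≤ n := Nat.cast_nonneg n
      nlinarith
    have e3 : Real.exp (-(c / 2) * (n : ℝ) ^ 2) =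
        Real.exp (c / 2 * (n : ℝ) ^ 2) * Real.exp (-c * (n : ℝ) ^ 2) := by
      rw [← Real.exp_add]
      congr 1
      ring
    rw [e3]
    exact mul_le_mul_of_nonneg_right (e1.trans e2) (Real.exp_pos _).le
  unfold prob
  refine div_le_of_le_mul₀ (Nat.cast_nonneg _) (Real.exp_pos _).le ?_
  refine (h2.trans h3).trans ?_
  rw [← mul_assoc]
  exact mul_le_mul_of_nonneg_right h4 (Nat.cast_nonneg _)

/-- **From the networks to the permutation matrix measures.** -/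
theorem low_bound
    (hU : ∀ ε : ℝ, 0 < ε → ε ≤ 1 / 2 → ∃ δ > (0 : ℝ), ∃ c > (0 : ℝ), ∃ n₀ : ℕ, ∀ n ≥ n₀,
      ∀ m s₀ d : ℕ, ε * n ≤ m → (m : ℝ) ≤ (1 - ε) * n → ε * (n.choose 2 : ℝ) - 1 ≤ s₀ →
        (d : ℝ) ≤ δ * n → ((U n m s₀ d).ncard : ℝ) ≤ Real.exp (-c * (n : ℝ) ^ 2) * nets n)
    {ε : ℝ} (hε : 0 < ε) (hε1 : ε < 1) :
    ∃ δ > (0 : ℝ), ∃ c₁ > (0 : ℝ), ∃ c₂ > (0 : ℝ), ∀ n : ℕ, 2 ≤ n →
      prob n (Low ε δ n) ≤ c₁ * Real.exp (-c₂ * (n : ℝ) ^ 2) ∧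
      prob n (Low' ε δ n) ≤ c₁ * Real.exp (-c₂ * (n : ℝ) ^ 2) := by
  obtain ⟨δ, hδ, c, hc, n₀, h⟩ := fewC_union hU (ε := ε / 4) (by positivity) (by linarith)
  have h1 : ∀ n ≥ max n₀ ⌈4 / ε⌉₊, max (prob n (Low ε δ n)) (prob n (Low' ε δ n)) ≤
      Real.exp (-c * (n : ℝ) ^ 2) := by
    intro n hn
    have h1 := h n (le_of_max_le_left hn)
    have h2 : 4 / ε ≤ n := by
      refine (Nat.le_ceil _).trans ?_
      exact_mod_cast le_of_max_le_right hn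
    refine max_le ((prob_mono fun k hk hk' => low_fewC hε hδ.le h2 hk hk').trans h1) ?_
    rw [← prob_reverse] at h1
    exact (prob_mono fun k hk hk' => low'_fewC hε hδ.le h2 hk hk').trans h1
  obtain ⟨c₁, hc₁, h2⟩ := exists_const (f := fun n => max (prob n (Low ε δ n)) (prob n (Low' ε δ n)))
    (fun n => max_le (prob_le_one _ _) (prob_le_one _ _)) h1 hc
  exact ⟨δ, hδ, c₁, hc₁, c, hc, fun n _ => ⟨(le_max_left _ _).trans (h2 n), (le_max_right _ _).trans (h2 n)⟩⟩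

end Pool.Agent.SNL63
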