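import Pool.Agent.SNL63.Ends
import Pool.Agent.SNL63.Event
import Mathlib

/-!
# Compactness: from the crossing events to the event that `eta` leaves an open set
-/

namespace Pool.Agent.SNL63

open MeasureTheory Set Filter Topology Pool.Agent.SN8
open scoped ENNReal Real NNReal BoundedContinuousFunction

theorem isCompact_Sq : IsCompact Sq := isCompact_Icc.prod isCompact_Icc

theorem compact_sq : IsCompact {μ : ProbabilityMeasure (ℝ × ℝ) | ∀ _ : ℕ, μ Sqᶜ ≤ 0} :=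
  isCompact_setOfPred_probabilityMeasure_mass_eq_compl_isCompact_le (u := fun _ => (0 : ℝ≥0)) (K := fun _ => Sq)
    tendsto_const_nhds (fun _ => isCompact_Sq) (Or.inr (fun _ _ _ => le_rfl))

instance : IsFiniteMeasure unif := by
  constructor
  rw [unif, Measure.smul_apply, Measure.restrict_apply MeasurableSet.univ, univ_inter, Real.volume_Icc, smul_eq_mul]
  exact ENNReal.mul_lt_top (by simp) ENNReal.ofReal_lt_top

/-- the limit of the measures has the limit of the marginals -/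
theorem marg_limit {ι : Type*} {l : Filter ι} [l.NeBot] {μ : ι → ProbabilityMeasure (ℝ × ℝ)}
    {ν : ProbabilityMeasure (ℝ × ℝ)} (h : Tendsto μ l (𝓝 ν)) {f : ι → ℕ} (hf : Tendsto f l atTop) {p : ℝ × ℝ → ℝ}
    (hp : Continuous p) (hm : ∀ i, ((μ i : Measure (ℝ × ℝ))).map p = margin (f i)) :
    (ν : Measure (ℝ × ℝ)).map p = unif := by
  refine ext_of_forall_integral_eq_of_IsFiniteMeasure fun g => ?_
  have h1 := ProbabilityMeasure.tendsto_iff_forall_integral_tendsto.1 h (g.compContinuous ⟨p, hp⟩)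
  have h2 := margin_tendsto hf g g.continuous ⟨‖g‖, fun x => g.norm_coe_le_norm x⟩
  have h3 : ∀ i, ∫ x, (g.compContinuous ⟨p, hp⟩) x ∂(μ i : Measure (ℝ × ℝ)) = ∫ x, g x ∂(margin (f i)) := by
    intro i
    rw [← hm i, integral_map hp.measurable.aemeasurable g.continuous.aestronglyMeasurable]
    rfl
  simp only [h3] at h1
  have h4 := tendsto_nhds_unique h1 h2
  rw [← h4, integral_map hp.measurable.aemeasurable g.continuous.aestronglyMeasurable]
  rfl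

/-- a closed set whose complement has small mass has full mass in the limit -/
theorem limit_null {ι : Type*} {l : Filter ι} [l.NeBot] {μ : ι → ProbabilityMeasure (ℝ × ℝ)}
    {ν : ProbabilityMeasure (ℝ × ℝ)} (h : Tendsto μ l (𝓝 ν)) {G : Set (ℝ × ℝ)} (hG : IsOpen G) {a : ι → ℝ}
    (ha : Tendsto a l (𝓝 0)) (hm : ∀ᶠ i in l, (μ i : Measure (ℝ × ℝ)) G ≤ ENNReal.ofReal (a i)) :
    (ν : Measure (ℝ × ℝ)) G = 0 := by
  by_contra hne
  have h1 := ProbabilityMeasure.le_liminf_measure_open_of_tendsto h hG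
  have h2 : Tendsto (fun i => ENNReal.ofReal (a i)) l (𝓝 0) := by
    have := ENNReal.tendsto_ofReal ha
    rwa [ENNReal.ofReal_zero] at this
  have h3 : Tendsto (fun i => (μ i : Measure (ℝ × ℝ)) G) l (𝓝 0) :=
    tendsto_of_tendsto_of_tendsto_of_le_of_le' tendsto_const_nhds h2 (Eventually.of_forall fun _ => zero_le) hm
  rw [h3.liminf_eq] at h1
  exact hne (le_antisymm h1 zero_le)

/-- a measure living on a graph is determined by its first marginal -/
theorem graph_measure {ν : ProbabilityMeasure (ℝ × ℝ)} {g : ℝ → ℝ} (hg : Continuous g)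
    (h0 : ∀ r : ℝ, 0 < r → (ν : Measure (ℝ × ℝ)) {p | r < |p.2 - g p.1|} = 0)
    (hf : (ν : Measure (ℝ × ℝ)).map Prod.fst = unif) : (ν : Measure (ℝ × ℝ)) = unif.map (fun x => (x, g x)) := by
  have h1 : (ν : Measure (ℝ × ℝ)) {p | p.2 ≠ g p.1} = 0 := by
    have h2 : {p : ℝ × ℝ | p.2 ≠ g p.1} ⊆ ⋃ n : ℕ, {p | 1 / ((n : ℝ) + 1) < |p.2 - g p.1|} := by
      intro p hp
      have h3 : 0 < |p.2 - g p.1| := abs_pos.2 (sub_ne_zero.2 hp)
      obtain ⟨n, hn⟩ := exists_nat_one_div_lt h3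
      exact mem_iUnion.2 ⟨n, hn⟩
    refine measure_mono_null h2 (measure_iUnion_null fun n => h0 _ (by positivity))
  rw [← hf, Measure.map_map (by fun_prop) measurable_fst]
  have h3 : (fun p : ℝ × ℝ => p) =ᵐ[(ν : Measure (ℝ × ℝ))] ((fun x => (x, g x)) ∘ Prod.fst) := by
    rw [Filter.EventuallyEq, ae_iff]
    refine measure_mono_null ?_ h1
    intro p hp
    simp only [Function.comp, mem_ofPred_eq] at hp ⊢
    intro h4
    exact hp (by ext <;> simp [h4])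
  rw [← Measure.map_congr h3, Measure.map_id']

theorem key (U : Set (ProbabilityMeasure (ℝ × ℝ))) (hU : IsOpen U)
    (hA : ∀ t ∈ Icc (0 : ℝ) 1, ∃ μ ∈ U, (μ : Measure (ℝ × ℝ)) = arch t)
    (hC : ∀ ν : ProbabilityMeasure (ℝ × ℝ), Crossed (ν : Measure (ℝ × ℝ)) → ν ∈ U) (δ : ℕ → ℝ) (hδ : ∀ j, 0 < δ j) :
    ∃ J : ℕ, ∀ n ≥ J, 1 ≤ n → ∀ k, IsNetwork n k → Leaves n U k →
      ∃ j < J, Low (1 / ((j : ℝ) + 2)) (δ j) n k ∨ Low' (1 / ((j : ℝ) + 2)) (δ j) n k := by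
  by_contra hcon
  push Not at hcon
  choose n hn hn1 k hk hL hlow using hcon
  choose t ht hout using hL
  obtain ⟨μ, hμ⟩ : ∃ μ : ℕ → ProbabilityMeasure (ℝ × ℝ), ∀ J, (μ J : Measure (ℝ × ℝ)) = eta (n J) (k J) (t J) :=
    ⟨fun J => ⟨eta (n J) (k J) (t J), isProbabilityMeasure_eta (hn1 J) _ _⟩, fun J => rfl⟩
  have hμU : ∀ J, μ J ∉ U := fun J h => hout J _ h (hμ J)
  obtain ⟨𝓕, h𝓕⟩ : ∃ 𝓕 : Ultrafilter ℕ, (𝓕 : Filter ℕ) ≤ atTop := ⟨hyperfilter ℕ, Nat.hyperfilter_le_atTop⟩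
  -- the limits
  obtain ⟨ν, -, hν⟩ := isCompact_iff_ultrafilter_le_nhds'.1 compact_sq (𝓕.map μ) (by
    rw [Ultrafilter.mem_map]
    refine Filter.Eventually.of_forall fun J => ?_
    intro _
    have h1 : (μ J : Measure (ℝ × ℝ)) Sqᶜ = 0 := by
      rw [hμ]
      exact eta_Sq_compl (hk J) _
    have h2 : ((μ J Sqᶜ : ℝ≥0) : ℝ≥0∞) = 0 := by
      rw [ProbabilityMeasure.ennreal_coeFn_eq_coeFn_toMeasure]
      exact h1
    exact le_of_eq (by exact_mod_cast h2))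
  replace hν : Tendsto μ 𝓕 (𝓝 ν) := hν
  obtain ⟨t₀, ht₀, htt⟩ := isCompact_iff_ultrafilter_le_nhds'.1 (isCompact_Icc (a := (0 : ℝ)) (b := 1)) (𝓕.map t) (by
    rw [Ultrafilter.mem_map]
    exact Filter.Eventually.of_forall fun J => ht J)
  replace htt : Tendsto t 𝓕 (𝓝 t₀) := htt
  have hninf : Tendsto n 𝓕 atTop := (tendsto_atTop_mono hn tendsto_id).mono_left h𝓕
  have hf : (ν : Measure (ℝ × ℝ)).map Prod.fst = unif := marg_limit hν hninf continuous_fst (fun J => by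
    rw [hμ]
    exact (eta_margins (hk J) _).1)
  have hs : (ν : Measure (ℝ × ℝ)).map Prod.snd = unif := marg_limit hν hninf continuous_snd (fun J => by
    rw [hμ]
    exact (eta_margins (hk J) _).2)
  have hνU : ν ∉ U := by
    intro h
    have := hν.eventually (hU.mem_nhds h)
    obtain ⟨J, hJ⟩ := this.exists
    exact hμU J hJ
  rcases eq_or_lt_of_le ht₀.1 with h0 | h0
  · -- the time tends to zero
    obtain ⟨μ₀, hμ₀, hμ₀'⟩ := hA 0 ⟨le_rfl, zero_le_one⟩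
    have h1 : (ν : Measure (ℝ × ℝ)) = unif.map (fun x => (x, x)) := by
      refine graph_measure continuous_id (fun r hr => ?_) hf
      refine limit_null hν (isOpen_lt continuous_const (by fun_prop)) (a := fun J => 2 * t J / r) ?_ ?_
      · have := (htt.const_mul 2).div_const r
        rw [← h0] at this
        simpa using this
      · refine Eventually.of_forall fun J => ?_
        rw [hμ]
        refine le_trans (measure_mono ?_) (eta_diag (hn1 J) (hk J) (ht J).1 hr)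
        intro p hp
        simp only [mem_ofPred_eq] at hp ⊢
        rw [abs_sub_comm]
        exact hp.le
    have h2 : ν = μ₀ := by
      apply Subtype.ext
      show (ν : Measure (ℝ × ℝ)) = μ₀
      rw [hμ₀', arch_zero, h1]
    exact hνU (h2 ▸ hμ₀)
  rcases eq_or_lt_of_le ht₀.2 with h1 | h1
  · -- the time tends to one
    obtain ⟨μ₀, hμ₀, hμ₀'⟩ := hA 1 ⟨zero_le_one, le_rfl⟩
    have h2 : (ν : Measure (ℝ × ℝ)) = unif.map (fun x => (x, -x)) := by
      refine graph_measure continuous_neg (fun r hr => ?_) hf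
      refine limit_null hν (isOpen_lt continuous_const (by fun_prop)) (a := fun J => (2 * (1 - t J) + 4 / (n J : ℝ)) / r)
        ?_ ?_
      · have e1 : Tendsto (fun J => 4 / (n J : ℝ)) 𝓕 (𝓝 0) :=
          (tendsto_const_nhds.div_atTop tendsto_natCast_atTop_atTop).comp hninf
        have := ((((htt.const_sub 1).const_mul 2).add e1)).div_const r
        rw [h1] at this
        simpa using this
      · refine Eventually.of_forall fun J => ?_
        rw [hμ]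
        refine le_trans (measure_mono ?_) (eta_anti (hn1 J) (hk J) (ht J).2 hr)
        intro p hp
        simp only [mem_ofPred_eq] at hp ⊢
        have e2 : p.2 - -p.1 = p.1 + p.2 := by ring
        rw [e2] at hp
        exact hp.le
    have h3 : ν = μ₀ := by
      apply Subtype.ext
      show (ν : Measure (ℝ × ℝ)) = μ₀
      rw [hμ₀', arch_one, h2]
    exact hνU (h3 ▸ hμ₀)
  -- the time stays inside
  apply hνU
  have hpos : ∀ a ∈ Ioo (-1 : ℝ) 1, ∃ j : ℕ, a ∈ Icc (-1 + 1 / ((j : ℝ) + 2)) (1 - 1 / ((j : ℝ) + 2)) ∧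
      1 / ((j : ℝ) + 2) < t₀ ∧ t₀ < 1 - 1 / ((j : ℝ) + 2) := by
    intro a ha
    obtain ⟨m, hm⟩ : ∃ m : ℝ, m = min (min (a + 1) (1 - a)) (min t₀ (1 - t₀)) := ⟨_, rfl⟩
    have hm0 : 0 < m := by
      rw [hm]
      exact lt_min (lt_min (by linarith [ha.1]) (by linarith [ha.2])) (lt_min h0 (by linarith))
    obtain ⟨j, hj⟩ := exists_nat_one_div_lt hm0
    have h2 : 1 / ((j : ℝ) + 2) < m := by
      refine lt_of_le_of_lt ?_ hj
      exact one_div_le_one_div_of_le (by positivity) (by linarith)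
    have m1 : m ≤ a + 1 := by rw [hm]; exact (min_le_left _ _).trans (min_le_left _ _)
    have m2 : m ≤ 1 - a := by rw [hm]; exact (min_le_left _ _).trans (min_le_right _ _)
    have m3 : m ≤ t₀ := by rw [hm]; exact (min_le_right _ _).trans (min_le_left _ _)
    have m4 : m ≤ 1 - t₀ := by rw [hm]; exact (min_le_right _ _).trans (min_le_right _ _)
    exact ⟨j, ⟨by linarith, by linarith⟩, by linarith, by linarith⟩
  refine hC ν ⟨hf, hs, ?_, ?_⟩
  · intro a ha h2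
    obtain ⟨j, hj, hj1, hj2⟩ := hpos a ha
    have h3 : ∀ᶠ J in (𝓕 : Filter ℕ), (μ J : Measure (ℝ × ℝ)) (Rc a) < ENNReal.ofReal (δ j) := by
      refine hν.eventually ((SN8.isOpen_lt (isClosed_Icc.prod isClosed_Icc) _).mem_nhds ?_)
      show (ν : Measure (ℝ × ℝ)) (Rc a) < ENNReal.ofReal (δ j)
      rw [h2]
      exact ENNReal.ofReal_pos.2 (hδ j)
    have h4 : ∀ᶠ J in (𝓕 : Filter ℕ), 1 / ((j : ℝ) + 2) < t J := htt.eventually (lt_mem_nhds hj1)
    have h5 : ∀ᶠ J in (𝓕 : Filter ℕ), j < J := h𝓕 (eventually_gt_atTop j)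
    obtain ⟨J, h6, h7, h8⟩ := (h3.and (h4.and h5)).exists
    refine (hlow J j h8).1 ⟨t J, ⟨h7.le, (ht J).2⟩, a, hj, ?_⟩
    rw [← hμ]
    refine le_trans (measure_mono ?_) h6.le
    rintro ⟨x, y⟩ ⟨hx, hy⟩
    exact ⟨hx, hy.1.le, hy.2⟩
  · intro a ha h2
    obtain ⟨j, hj, hj1, hj2⟩ := hpos a ha
    have h3 : ∀ᶠ J in (𝓕 : Filter ℕ), (μ J : Measure (ℝ × ℝ)) (Rc' a) < ENNReal.ofReal (δ j) := by
      refine hν.eventually ((SN8.isOpen_lt (isClosed_Icc.prod isClosed_Icc) _).mem_nhds ?_)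
      show (ν : Measure (ℝ × ℝ)) (Rc' a) < ENNReal.ofReal (δ j)
      rw [h2]
      exact ENNReal.ofReal_pos.2 (hδ j)
    have h4 : ∀ᶠ J in (𝓕 : Filter ℕ), t J < 1 - 1 / ((j : ℝ) + 2) := htt.eventually (gt_mem_nhds hj2)
    have h5 : ∀ᶠ J in (𝓕 : Filter ℕ), j < J := h𝓕 (eventually_gt_atTop j)
    obtain ⟨J, h6, h7, h8⟩ := (h3.and (h4.and h5)).exists
    refine (hlow J j h8).2 ⟨t J, ⟨(ht J).1, h7.le⟩, a, hj, ?_⟩
    rw [← hμ]
    refine le_trans (measure_mono ?_) h6.le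
    rintro ⟨x, y⟩ ⟨hx, hy⟩
    exact ⟨hx, hy.1.le, hy.2⟩

/-- the probability of a finite union -/
theorem prob_exists_le (n : ℕ) (E : ℕ → List ℕ → Prop) (J : ℕ) :
    prob n (fun k => ∃ j < J, E j k) ≤ ∑ j ∈ Finset.range J, prob n (E j) := by
  induction J with
  | zero =>
    simp only [Finset.range_zero, Finset.sum_empty]
    unfold prob
    simp
  | succ J ih =>
    rw [Finset.sum_range_succ]
    refine le_trans (prob_mono (E' := fun k => (∃ j < J, E j k) ∨ E J k) ?_)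
      ((prob_or_le n _ _).trans (add_le_add ih le_rfl))
    rintro k - ⟨j, hj, h⟩
    rcases Nat.lt_succ_iff_lt_or_eq.1 hj with h1 | rfl
    · exact Or.inl ⟨j, h1, h⟩
    · exact Or.inr h

theorem leaves_bound
    (hlow : ∀ ε : ℝ, 0 < ε → ε < 1 → ∃ δ > (0 : ℝ), ∃ c₁ > (0 : ℝ), ∃ c₂ > (0 : ℝ), ∀ n : ℕ, 2 ≤ n →
      prob n (Low ε δ n) ≤ c₁ * Real.exp (-c₂ * (n : ℝ) ^ 2) ∧
      prob n (Low' ε δ n) ≤ c₁ * Real.exp (-c₂ * (n : ℝ) ^ 2))
    (U : Set (ProbabilityMeasure (ℝ × ℝ))) (hU : IsOpen U)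
    (hA : ∀ t ∈ Icc (0 : ℝ) 1, ∃ μ ∈ U, (μ : Measure (ℝ × ℝ)) = arch t)
    (hC : ∀ ν : ProbabilityMeasure (ℝ × ℝ), Crossed (ν : Measure (ℝ × ℝ)) → ν ∈ U) :
    ∃ c₁ > (0 : ℝ), ∃ c₂ > (0 : ℝ), ∀ n : ℕ, 2 ≤ n →
      prob n (Leaves n U) ≤ c₁ * Real.exp (-c₂ * (n : ℝ) ^ 2) := by
  have hlow' : ∀ j : ℕ, ∃ δ > (0 : ℝ), ∃ c₁ > (0 : ℝ), ∃ c₂ > (0 : ℝ), ∀ n : ℕ, 2 ≤ n →
      prob n (Low (1 / ((j : ℝ) + 2)) δ n) ≤ c₁ * Real.exp (-c₂ * (n : ℝ) ^ 2) ∧
      prob n (Low' (1 / ((j : ℝ) + 2)) δ n) ≤ c₁ * Real.exp (-c₂ * (n : ℝ) ^ 2) := fun j =>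
    hlow _ (by positivity) (by
      rw [div_lt_one (by positivity)]
      have : (0 : ℝ) ≤ j := Nat.cast_nonneg _
      linarith)
  choose δ hδ a₁ ha₁ a₂ ha₂ hb using hlow'
  obtain ⟨J, hJ⟩ := key U hU hA hC δ hδ
  -- a common exponent
  obtain ⟨c₂, hc₂, hc₂'⟩ : ∃ c₂ > (0 : ℝ), ∀ j < J, c₂ ≤ a₂ j := by
    clear hJ
    induction J with
    | zero => exact ⟨1, one_pos, fun j hj => absurd hj (Nat.not_lt_zero _)⟩
    | succ J ih =>
      obtain ⟨c, hc, hc'⟩ := ih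
      refine ⟨min c (a₂ J), lt_min hc (ha₂ J), fun j hj => ?_⟩
      rcases Nat.lt_succ_iff_lt_or_eq.1 hj with h1 | rfl
      · exact (min_le_left _ _).trans (hc' j h1)
      · exact min_le_right _ _
  obtain ⟨S, hS⟩ : ∃ S : ℝ, S = ∑ j ∈ Finset.range J, 2 * a₁ j := ⟨_, rfl⟩
  have hS0 : 0 ≤ S := by
    rw [hS]
    exact Finset.sum_nonneg fun j _ => by have := ha₁ j; positivity
  refine ⟨S + Real.exp (c₂ * (J : ℝ) ^ 2), by positivity, c₂, hc₂, ?_⟩
  intro n hn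
  have hexp : 0 < Real.exp (-c₂ * (n : ℝ) ^ 2) := Real.exp_pos _
  rcases lt_or_ge n J with h1 | h1
  · refine (prob_le_one n _).trans ?_
    have h2 : 1 ≤ Real.exp (c₂ * (J : ℝ) ^ 2) * Real.exp (-c₂ * (n : ℝ) ^ 2) := by
      rw [← Real.exp_add]
      apply Real.one_le_exp
      have h3 : (n : ℝ) ≤ J := by exact_mod_cast h1.le
      have h4 : (n : ℝ) ^ 2 ≤ (J : ℝ) ^ 2 := by gcongr
      nlinarith
    have h3 : 0 ≤ S * Real.exp (-c₂ * (n : ℝ) ^ 2) := by positivity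
    rw [add_mul]
    linarith
  · have h2 : prob n (Leaves n U) ≤ ∑ j ∈ Finset.range J,
        prob n (fun k => Low (1 / ((j : ℝ) + 2)) (δ j) n k ∨ Low' (1 / ((j : ℝ) + 2)) (δ j) n k) := by
      refine le_trans (prob_mono ?_) (prob_exists_le n _ J)
      intro k hk hL
      exact hJ n h1 (by omega) k hk hL
    have h3 : ∑ j ∈ Finset.range J,
        prob n (fun k => Low (1 / ((j : ℝ) + 2)) (δ j) n k ∨ Low' (1 / ((j : ℝ) + 2)) (δ j) n k) ≤
        ∑ j ∈ Finset.range J, 2 * a₁ j * Real.exp (-c₂ * (n : ℝ) ^ 2) := by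
      refine Finset.sum_le_sum fun j hj => ?_
      rw [Finset.mem_range] at hj
      obtain ⟨h4, h5⟩ := hb j n hn
      have h6 : Real.exp (-a₂ j * (n : ℝ) ^ 2) ≤ Real.exp (-c₂ * (n : ℝ) ^ 2) := by
        apply Real.exp_le_exp.2
        have h7 := hc₂' j hj
        have h8 : (0 : ℝ) ≤ (n : ℝ) ^ 2 := by positivity
        nlinarith
      have h7 : a₁ j * Real.exp (-a₂ j * (n : ℝ) ^ 2) ≤ a₁ j * Real.exp (-c₂ * (n : ℝ) ^ 2) :=
        mul_le_mul_of_nonneg_left h6 (ha₁ j).le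
      have h8 := prob_or_le n (Low (1 / ((j : ℝ) + 2)) (δ j) n) (Low' (1 / ((j : ℝ) + 2)) (δ j) n)
      linarith
    rw [← Finset.sum_mul, ← hS] at h3
    have h4 : 0 ≤ Real.exp (c₂ * (J : ℝ) ^ 2) * Real.exp (-c₂ * (n : ℝ) ^ 2) := by positivity
    rw [add_mul]
    linarith

end Pool.Agent.SNL63
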