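import Pool.Agent.SNL63.SW
import Pool.Agent.SNL63.Cpt

/-!
# The upper bound for the crossings

If the letters of all blocks of the word follow the semicircle law, then every place `a` is crossed by a mass at most
`2 / π * t * √(1 - a ^ 2)`, up to a small error: a particle which crosses `a` crosses all the places of a window around
`a`, up to the particles which start or end in the window.
-/

namespace Pool.Agent.SNL63

open Pool.Agent.SN8 MeasureTheory Set Filter Topology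
open scoped ENNReal Real

/-! ### Crossings and letters -/

theorem band_place_snoc (l : List ℕ) (j x : ℕ) : place (l ++ [j]) x = sw j (place l x) := by
  simp [place, sw, List.foldl_append]

theorem band_place_inj (l : List ℕ) : Function.Injective (place l) := by
  intro x y h
  rw [place_eq, place_eq] at h
  exact (P l)⁻¹.injective h

theorem cross_snoc (m j : ℕ) (l : List ℕ) : cross m (l ++ [j]) ≤ cross m l + if j = m then 1 else 0 := by
  unfold cross
  have h : (Finset.Icc 1 m).filter (fun x => m < place (l ++ [j]) x) ⊆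
      (Finset.Icc 1 m).filter (fun x => m < place l x) ∪
        (Finset.Icc 1 m).filter (fun x => j = m ∧ place l x = j) := by
    intro x hx
    rw [Finset.mem_filter] at hx
    rw [Finset.mem_union, Finset.mem_filter, Finset.mem_filter]
    by_cases h1 : m < place l x
    · exact Or.inl ⟨hx.1, h1⟩
    · right
      refine ⟨hx.1, ?_⟩
      have h2 := hx.2
      rw [band_place_snoc, sw_apply] at h2
      split_ifs at h2 with h3 h4 <;> omega
  refine (Finset.card_le_card h).trans ((Finset.card_union_le _ _).trans (Nat.add_le_add_left ?_ _))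
  split_ifs with hj
  · refine Finset.card_le_one.2 fun x hx y hy => ?_
    rw [Finset.mem_filter] at hx hy
    exact band_place_inj l (hx.2.2.trans hy.2.2.symm)
  · rw [Nat.le_zero, Finset.card_eq_zero, Finset.filter_eq_empty_iff]
    exact fun x _ hx => hj hx.1

theorem cross_le_count (m : ℕ) (l : List ℕ) : cross m l ≤ l.count m := by
  induction l using List.reverseRecOn with
  | nil =>
    unfold cross
    rw [Finset.card_eq_zero.2]
    · exact Nat.zero_le _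
    rw [Finset.filter_eq_empty_iff]
    intro x hx
    rw [Finset.mem_Icc] at hx
    simp only [place, List.foldl_nil]
    omega
  | append_singleton l j ih =>
    have h := cross_snoc m j l
    rw [List.count_append]
    have h1 : (if j = m then 1 else 0) ≤ List.count m [j] := by
      split_ifs with hj
      · simp [hj]
      · exact Nat.zero_le _
    omega

theorem cross_lip (m m' : ℕ) (l : List ℕ) : cross m l ≤ cross m' l + (m - m') + (m' - m) := by
  rcases le_total m m' with h | h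
  · have h1 : (Finset.Icc 1 m).filter (fun x => m < place l x) ⊆
        (Finset.Icc 1 m').filter (fun x => m' < place l x) ∪
          (Finset.Icc 1 m).filter (fun x => place l x ∈ Finset.Ioc m m') := by
      intro x hx
      rw [Finset.mem_filter, Finset.mem_Icc] at hx
      rw [Finset.mem_union, Finset.mem_filter, Finset.mem_filter, Finset.mem_Icc, Finset.mem_Icc, Finset.mem_Ioc]
      by_cases h2 : m' < place l x
      · exact Or.inl ⟨⟨hx.1.1, hx.1.2.trans h⟩, h2⟩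
      · exact Or.inr ⟨hx.1, hx.2, not_lt.1 h2⟩
    have h2 : ((Finset.Icc 1 m).filter (fun x => place l x ∈ Finset.Ioc m m')).card ≤ m' - m := by
      rw [← Nat.card_Ioc]
      exact Finset.card_le_card_of_injOn (place l) (fun x hx => (Finset.mem_filter.1 hx).2)
        (band_place_inj l).injOn
    have h3 := (Finset.card_le_card h1).trans (Finset.card_union_le _ _)
    unfold cross
    omega
  · have h1 : (Finset.Icc 1 m).filter (fun x => m < place l x) ⊆
        (Finset.Icc 1 m').filter (fun x => m' < place l x) ∪ Finset.Ioc m' m := by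
      intro x hx
      rw [Finset.mem_filter, Finset.mem_Icc] at hx
      rw [Finset.mem_union, Finset.mem_filter, Finset.mem_Icc, Finset.mem_Ioc]
      by_cases h2 : x ≤ m'
      · exact Or.inl ⟨⟨hx.1.1, h2⟩, by omega⟩
      · exact Or.inr ⟨by omega, hx.1.2⟩
    have h3 := (Finset.card_le_card h1).trans (Finset.card_union_le _ _)
    rw [Nat.card_Ioc] at h3
    unfold cross
    omega

theorem cross_le_left (m : ℕ) (l : List ℕ) : cross m l ≤ m := by
  have h := cross_lip m 0 l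
  have h1 : cross 0 l = 0 := by simp [cross]
  omega

theorem cross_le_right {n m : ℕ} {l : List ℕ} (hl : ∀ j ∈ l, 1 ≤ j ∧ j + 1 ≤ n) (hm : m ≤ n) :
    cross m l ≤ n - m := by
  have h := cross_lip m n l
  have h1 : cross n l = 0 := by
    unfold cross
    rw [Finset.card_eq_zero, Finset.filter_eq_empty_iff]
    intro x hx
    rw [Finset.mem_Icc] at hx
    rw [place_eq, not_lt]
    exact ((Supp.P hl).inv.mem hx.1 hx.2).2
  omega

theorem cross_window {m w : ℕ} (hw : w ≤ m) (l : List ℕ) :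
    (2 * w + 1) * cross m l ≤ ∑ i ∈ Finset.Icc (m - w) (m + w), l.count i + (2 * w + 1) * w := by
  have h : ∀ i ∈ Finset.Icc (m - w) (m + w), cross m l ≤ l.count i + w := by
    intro i hi
    rw [Finset.mem_Icc] at hi
    have h1 := cross_lip m i l
    have h2 := cross_le_count i l
    omega
  have h2 := Finset.sum_le_sum h
  rw [Finset.sum_const, Finset.sum_add_distrib, Finset.sum_const, Nat.card_Icc, smul_eq_mul, smul_eq_mul,
    show m + w + 1 - (m - w) = 2 * w + 1 by omega] at h2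
  exact h2

theorem count_le_ssum {g : ℝ → ℝ} (hg : ∀ u, 0 ≤ g u) {n : ℕ} {W : Finset ℕ}
    (hW : ∀ i ∈ W, 1 ≤ g (2 * (i : ℝ) / n - 1)) (l : List ℕ) :
    ((∑ i ∈ W, l.count i : ℕ) : ℝ) ≤ ssum g n l := by
  induction l with
  | nil => simp [ssum]
  | cons j l ih =>
    have h1 : ∑ i ∈ W, (j :: l).count i = ∑ i ∈ W, l.count i + if j ∈ W then 1 else 0 := by
      simp only [List.count_cons, Finset.sum_add_distrib, beq_iff_eq, Finset.sum_ite_eq]
    have h2 : ssum g n (j :: l) = g (2 * (j : ℝ) / n - 1) + ssum g n l := by simp [ssum]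
    rw [h1, h2, Nat.cast_add]
    split_ifs with hj
    · have := hW j hj
      push_cast at ih ⊢
      linarith
    · have := hg (2 * (j : ℝ) / n - 1)
      push_cast at ih ⊢
      linarith

/-! ### The test functions -/

/-- a bump: `1` at distance at most `h + h ^ 2` from `c`, and `0` at distance at least `h + 2 * h ^ 2` -/
noncomputable def bump (h c u : ℝ) : ℝ := max 0 (min 1 ((h + 2 * h ^ 2 - |u - c|) / h ^ 2))

theorem bump_continuous {h : ℝ} (c : ℝ) : Continuous (bump h c) := by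
  unfold bump
  fun_prop

theorem bump_nonneg (h c u : ℝ) : 0 ≤ bump h c u := le_max_left _ _

theorem bump_le_one (h c u : ℝ) : bump h c u ≤ 1 := max_le zero_le_one (min_le_left _ _)

theorem bump_one {h c u : ℝ} (hh : 0 < h) (hu : |u - c| ≤ h + h ^ 2) : 1 ≤ bump h c u := by
  refine le_trans ?_ (le_max_right _ _)
  refine le_min le_rfl ?_
  rw [le_div_iff₀ (by positivity)]
  linarith

theorem bump_zero {h c u : ℝ} (hh : 0 < h) (hu : h + 2 * h ^ 2 ≤ |u - c|) : bump h c u = 0 := by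
  refine max_eq_left ((min_le_right _ _).trans ?_)
  exact div_nonpos_of_nonpos_of_nonneg (by linarith) (by positivity)

theorem band_sqrt {a u r : ℝ} (ha : a ∈ Icc (-1 : ℝ) 1) (hu : u ∈ Icc (-1 : ℝ) 1) (h : |u - a| ≤ 2 * r) :
    √(1 - u ^ 2) ≤ √(1 - a ^ 2) + √(4 * r) := by
  have hr : 0 ≤ r := by
    have := abs_nonneg (u - a)
    linarith
  have h1 : a ^ 2 - u ^ 2 ≤ 4 * r := by
    have h2 : a ^ 2 - u ^ 2 = -((u - a) * (u + a)) := by ring
    have h3 : |(u - a) * (u + a)| ≤ 2 * r * 2 := by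
      rw [abs_mul]
      refine mul_le_mul h ?_ (abs_nonneg _) (by linarith)
      rw [abs_le]
      constructor <;> linarith [ha.1, ha.2, hu.1, hu.2]
    have h4 := neg_abs_le ((u - a) * (u + a))
    linarith
  have h5 : 0 ≤ 1 - a ^ 2 := by nlinarith [ha.1, ha.2]
  have h6 : 0 ≤ 4 * r := by linarith
  rw [Real.sqrt_le_iff]
  refine ⟨by positivity, ?_⟩
  have h7 := Real.sq_sqrt h5
  have h8 := Real.sq_sqrt h6
  have h9 : 0 ≤ √(1 - a ^ 2) * √(4 * r) := by positivity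
  nlinarith

theorem semi_Icc_le {a c r : ℝ} (ha : a ∈ Icc (-1 : ℝ) 1) (hr : 0 ≤ r) (hc : |c - a| ≤ r) :
    semi.real (Icc (c - r) (c + r)) ≤ 2 / π * (√(1 - a ^ 2) + √(4 * r)) * (2 * r) := by
  obtain ⟨M, hM⟩ : ∃ M, M = 2 / π * (√(1 - a ^ 2) + √(4 * r)) := ⟨_, rfl⟩
  have hM0 : 0 ≤ M := by rw [hM]; positivity
  have h1 : semi (Icc (c - r) (c + r)) ≤ ENNReal.ofReal M * ENNReal.ofReal (2 * r) := by
    unfold semi
    rw [withDensity_apply _ measurableSet_Icc, Measure.restrict_restrict measurableSet_Icc]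
    refine (setLIntegral_mono' (g := fun _ => ENNReal.ofReal M) (measurableSet_Icc.inter measurableSet_Icc) ?_).trans ?_
    · intro u hu
      apply ENNReal.ofReal_le_ofReal
      rw [hM]
      refine mul_le_mul_of_nonneg_left (band_sqrt ha hu.2 ?_) (by positivity)
      have h2 : |u - c| ≤ r := abs_le.2 ⟨by linarith [hu.1.1], by linarith [hu.1.2]⟩
      have h3 := abs_sub_le u c a
      linarith
    · rw [setLIntegral_const]
      refine mul_le_mul_right ((measure_mono inter_subset_left).trans ?_) _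
      rw [Real.volume_Icc]
      apply ENNReal.ofReal_le_ofReal
      linarith
  have h2 := ENNReal.toReal_mono (ENNReal.mul_ne_top ENNReal.ofReal_ne_top ENNReal.ofReal_ne_top) h1
  rw [ENNReal.toReal_mul, ENNReal.toReal_ofReal hM0, ENNReal.toReal_ofReal (by linarith)] at h2
  rw [← hM]
  exact h2

theorem int_bump_le {h a c : ℝ} (hh : 0 < h) (ha : a ∈ Icc (-1 : ℝ) 1) (hc : |c - a| ≤ h ^ 2) :
    ∫ u, bump h c u ∂semi ≤ 2 / π * (√(1 - a ^ 2) + √(4 * (h + 2 * h ^ 2))) * (2 * (h + 2 * h ^ 2)) := by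
  have hr : 0 ≤ h + 2 * h ^ 2 := by positivity
  refine le_trans ?_ (semi_Icc_le ha hr (hc.trans (by nlinarith [sq_nonneg h])))
  rw [← integral_indicator_one measurableSet_Icc]
  refine integral_mono (SW_int (bump_continuous c).continuousOn)
    ((integrable_const (1 : ℝ)).indicator measurableSet_Icc) ?_
  intro u
  by_cases hu : u ∈ Icc (c - (h + 2 * h ^ 2)) (c + (h + 2 * h ^ 2))
  · rw [indicator_of_mem hu]
    exact bump_le_one _ _ _
  · rw [indicator_of_notMem hu]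
    refine (bump_zero hh ?_).le
    by_contra hcon
    push Not at hcon
    have h1 := abs_lt.1 hcon
    exact hu ⟨by linarith [h1.1], by linarith [h1.2]⟩

theorem int_bump_nonneg (h c : ℝ) : 0 ≤ ∫ u, bump h c u ∂semi := integral_nonneg fun u => bump_nonneg h c u

/-! ### Arithmetic -/

theorem band_arith {p q τ S n N D w X I : ℝ} (hp0 : 0 ≤ p) (hp1 : p ≤ 1) (hq : 0 < q) (hq4 : q ≤ 1 / 4)
    (hτ0 : 0 ≤ τ) (hτ1 : τ ≤ 1) (hS0 : 0 ≤ S) (hS1 : S ≤ 1) (hn : 3 ≤ q ^ 4 * n) (hN : N ≤ n ^ 2 / 2)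
    (hI0 : 0 ≤ I) (hI : I ≤ p * (S + 3 * q) * (2 * (q ^ 2 * (1 + 2 * q ^ 2)))) (hD : q ^ 2 * n - 3 ≤ D)
    (hw : w ≤ q ^ 2 * n / 2) (hX : D * X ≤ (τ * N + 1) * I + q ^ 4 * N + D * w) :
    X + 1 ≤ n * (p * τ * S + 8 * q) := by
  obtain ⟨h, hh⟩ : ∃ h, h = q ^ 2 := ⟨_, rfl⟩
  have hh0 : 0 < h := by rw [hh]; positivity
  have hhq : h ≤ q / 4 := by rw [hh]; nlinarith
  have hh4 : q ^ 4 = h ^ 2 := by rw [hh]; ring
  rw [← hh] at hI hD hw
  rw [hh4] at hn hX
  have hn0 : 0 < n := by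
    by_contra hcon
    push Not at hcon
    nlinarith [sq_nonneg h]
  have hh1 : h ≤ 1 / 16 := by linarith
  have hqn : 192 ≤ q * n := by
    have h1 : h ^ 2 ≤ q / 64 := by nlinarith
    have h2 : h ^ 2 * n ≤ q / 64 * n := mul_le_mul_of_nonneg_right h1 hn0.le
    linarith
  have hn1 : 768 ≤ n := by nlinarith
  obtain ⟨K, hK⟩ : ∃ K, K = p * (S + 3 * q) := ⟨_, rfl⟩
  rw [← hK] at hI
  have hK0 : 0 ≤ K := by rw [hK]; positivity
  have hK1 : K ≤ 7 / 4 := by
    have h1 : p * (S + 3 * q) ≤ 1 * (S + 3 * q) := mul_le_mul_of_nonneg_right hp1 (by positivity)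
    rw [hK]; linarith
  have hK2 : K ≤ p * S + 3 * q := by
    have h1 : p * (3 * q) ≤ 1 * (3 * q) := mul_le_mul_of_nonneg_right hp1 (by positivity)
    rw [hK]; linarith
  -- the bracket
  have hτN : τ * N + 1 ≤ τ * n ^ 2 / 2 + 1 := by
    have := mul_le_mul_of_nonneg_left hN hτ0
    linarith
  have hτn : 0 ≤ τ * n ^ 2 := by positivity
  have e1 : (τ * N + 1) * I ≤ h * ((τ * n ^ 2 + 2) * ((1 + 2 * h) * K)) := by
    have h1 : (τ * N + 1) * I ≤ (τ * n ^ 2 / 2 + 1) * I := mul_le_mul_of_nonneg_right hτN hI0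
    have h2 : (τ * n ^ 2 / 2 + 1) * I ≤ (τ * n ^ 2 / 2 + 1) * (K * (2 * (h * (1 + 2 * h)))) :=
      mul_le_mul_of_nonneg_left hI (by linarith)
    have h3 : (τ * n ^ 2 / 2 + 1) * (K * (2 * (h * (1 + 2 * h)))) = h * ((τ * n ^ 2 + 2) * ((1 + 2 * h) * K)) := by
      ring
    linarith
  have e2 : (1 + 2 * h) * K ≤ (1 - h) * ((1 + 4 * h) * K) := by
    have h1 : 1 + 2 * h ≤ (1 - h) * (1 + 4 * h) := by nlinarith
    have h2 := mul_le_mul_of_nonneg_right h1 hK0
    linarith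
  have e3 : (τ * n ^ 2 + 2) * ((1 + 2 * h) * K) ≤ (1 - h) * ((τ * n ^ 2 + 2) * ((1 + 4 * h) * K)) := by
    have h1 := mul_le_mul_of_nonneg_left e2 (by linarith : 0 ≤ τ * n ^ 2 + 2)
    linarith
  have e4 : h ^ 2 * N ≤ h * ((1 - h) * (h * n ^ 2)) := by
    have h1 : h ^ 2 * N ≤ h ^ 2 * (n ^ 2 / 2) := mul_le_mul_of_nonneg_left hN (by positivity)
    have h2 : 0 ≤ h ^ 2 * n ^ 2 * (1 / 2 - h) := by
      have : 0 ≤ 1 / 2 - h := by linarith
      positivity
    nlinarith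
  have e5 : (τ * n ^ 2 + 2) * ((1 + 4 * h) * K) + h * n ^ 2 ≤ n ^ 2 * (p * τ * S + 6 * q) := by
    have h1 : τ * n ^ 2 * K ≤ τ * n ^ 2 * (p * S + 3 * q) := mul_le_mul_of_nonneg_left hK2 hτn
    have h2 : τ * n ^ 2 * (3 * q) ≤ 1 * n ^ 2 * (3 * q) :=
      mul_le_mul_of_nonneg_right (mul_le_mul_of_nonneg_right hτ1 (by positivity)) (by positivity)
    have h3 : τ * n ^ 2 * (4 * h * K) ≤ n ^ 2 * (4 * h * (7 / 4)) := by
      have h4 : τ * n ^ 2 ≤ n ^ 2 := by nlinarith [sq_nonneg n]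
      have h5 : 4 * h * K ≤ 4 * h * (7 / 4) := mul_le_mul_of_nonneg_left hK1 (by positivity)
      exact mul_le_mul h4 h5 (by positivity) (by positivity)
    have h6 : 2 * ((1 + 4 * h) * K) ≤ 5 := by nlinarith
    have h7 : 5 ≤ q * n ^ 2 := by nlinarith
    have h8 : n ^ 2 * (4 * h * (7 / 4)) ≤ n ^ 2 * (7 / 4 * q) := by
      refine mul_le_mul_of_nonneg_left ?_ (by positivity)
      linarith
    have h9 : h * n ^ 2 ≤ q / 4 * n ^ 2 := mul_le_mul_of_nonneg_right hhq (by positivity)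
    have h10 : (τ * n ^ 2 + 2) * ((1 + 4 * h) * K) =
        τ * n ^ 2 * K + τ * n ^ 2 * (4 * h * K) + 2 * ((1 + 4 * h) * K) := by ring
    rw [h10]
    nlinarith
  obtain ⟨B, hB⟩ : ∃ B, B = n * (p * τ * S + 6 * q) := ⟨_, rfl⟩
  have hB0 : 0 ≤ B := by rw [hB]; positivity
  have e6 : (τ * N + 1) * I + h ^ 2 * N ≤ h * (1 - h) * n * B := by
    have h1 : 0 ≤ h * (1 - h) := mul_nonneg hh0.le (by linarith)
    have h2 := mul_le_mul_of_nonneg_left e5 h1
    have h3 := mul_le_mul_of_nonneg_left e3 hh0.le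
    have h4 : h * (1 - h) * n * B = h * (1 - h) * (n ^ 2 * (p * τ * S + 6 * q)) := by rw [hB]; ring
    rw [h4]
    nlinarith
  have hD1 : h * (1 - h) * n ≤ D := by nlinarith
  have hD0 : 0 < D := by
    have : 0 < h * (1 - h) * n := mul_pos (mul_pos hh0 (by linarith)) hn0
    linarith
  have e7 : D * X ≤ D * (B + w) := by
    have h1 := mul_le_mul_of_nonneg_right hD1 hB0
    linarith
  have e8 : X ≤ B + w := le_of_mul_le_mul_left e7 hD0
  have h9 : h * n ≤ q / 4 * n := mul_le_mul_of_nonneg_right hhq hn0.le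
  rw [hB] at e8
  nlinarith

/-! ### The deterministic bound -/

theorem band_det {q : ℝ} (hq : 0 < q) (hq4 : q ≤ 1 / 4) {n : ℕ} (hn : 3 ≤ q ^ 4 * n) {l : List ℕ}
    (hl : ∀ j ∈ l, 1 ≤ j ∧ j + 1 ≤ n) {τ : ℝ} (hτ : τ ∈ Icc (0 : ℝ) 1)
    (hs : ∀ i < ⌊2 / q ^ 4⌋₊ + 1, ssum (bump (q ^ 2) (-1 + i * q ^ 4)) n l ≤
      (τ * (n.choose 2 : ℝ) + 1) * ∫ u, bump (q ^ 2) (-1 + i * q ^ 4) u ∂semi + q ^ 4 * (n.choose 2 : ℝ))
    {a : ℝ} (ha : a ∈ Icc (-1 : ℝ) 1) :
    (cross ⌊(n : ℝ) * (a + 1) / 2⌋₊ l : ℝ) + 1 ≤ n * (2 / π * τ * √(1 - a ^ 2) + 8 * q) := by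
  obtain ⟨m, hm⟩ : ∃ m, m = ⌊(n : ℝ) * (a + 1) / 2⌋₊ := ⟨_, rfl⟩
  rw [← hm]
  have hq2 : q ^ 2 ≤ q / 4 := by nlinarith
  have hq20 : 0 < q ^ 2 := by positivity
  have hq40 : 0 < q ^ 4 := by positivity
  have hn0 : (0 : ℝ) ≤ n := Nat.cast_nonneg _
  have hn0' : (0 : ℝ) < n := by
    rcases hn0.eq_or_lt with h | h
    · rw [← h] at hn
      norm_num at hn
    · exact h
  have hqn : 192 ≤ q * n := by
    have h1 : q ^ 4 ≤ q / 64 := by
      have : q ^ 4 = q ^ 2 * q ^ 2 := by ring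
      rw [this]
      nlinarith
    have h2 : q ^ 4 * n ≤ q / 64 * n := mul_le_mul_of_nonneg_right h1 hn0
    linarith
  have hmle : (m : ℝ) ≤ n * (a + 1) / 2 := by
    rw [hm]
    exact Nat.floor_le (by have : 0 ≤ a + 1 := by linarith [ha.1]
                           positivity)
  have hmlt : (n : ℝ) * (a + 1) / 2 < m + 1 := by
    rw [hm]
    exact Nat.lt_floor_add_one _
  have hmn : m ≤ n := by rw [hm]; exact floor_le_n ha.2
  have hS0 : 0 ≤ √(1 - a ^ 2) := Real.sqrt_nonneg _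
  have hpi : 0 ≤ 2 / π * τ * √(1 - a ^ 2) := mul_nonneg (mul_nonneg (by positivity) hτ.1) hS0
  have htriv : (cross m l : ℝ) ≤ q ^ 2 * n + 1 → (cross m l : ℝ) + 1 ≤ n * (2 / π * τ * √(1 - a ^ 2) + 8 * q) := by
    intro h1
    have h2 : q ^ 2 * n ≤ q / 4 * n := mul_le_mul_of_nonneg_right hq2 hn0
    have h3 : 0 ≤ n * (2 / π * τ * √(1 - a ^ 2)) := mul_nonneg hn0 hpi
    nlinarith
  rcases lt_or_ge a (-1 + 2 * q ^ 2) with h1 | h1
  · refine htriv ?_
    have h2 : (cross m l : ℝ) ≤ m := by exact_mod_cast cross_le_left m l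
    nlinarith
  rcases lt_or_ge (1 - 2 * q ^ 2) a with h2 | h2
  · refine htriv ?_
    have h3 : (cross m l : ℝ) ≤ n - m := by
      have := cross_le_right hl hmn
      have h4 : ((n - m : ℕ) : ℝ) = n - m := Nat.cast_sub hmn
      rw [← h4]
      exact_mod_cast this
    nlinarith
  -- the window
  obtain ⟨w, hw⟩ : ∃ w, w = ⌊q ^ 2 * n / 2⌋₊ - 1 := ⟨_, rfl⟩
  have hq2n : 48 ≤ q ^ 2 * n := by
    have h3 : q ^ 4 ≤ q ^ 2 / 16 := by
      have : q ^ 4 = q ^ 2 * q ^ 2 := by ring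
      rw [this]
      nlinarith
    have h4 : q ^ 4 * n ≤ q ^ 2 / 16 * n := mul_le_mul_of_nonneg_right h3 hn0
    linarith
  have hf1 : 1 ≤ ⌊q ^ 2 * n / 2⌋₊ := Nat.le_floor (by push_cast; linarith)
  have hf2 : (⌊q ^ 2 * n / 2⌋₊ : ℝ) ≤ q ^ 2 * n / 2 := Nat.floor_le (by positivity)
  have hf3 : q ^ 2 * n / 2 < (⌊q ^ 2 * n / 2⌋₊ : ℝ) + 1 := Nat.lt_floor_add_one _
  have hwr : (w : ℝ) = (⌊q ^ 2 * n / 2⌋₊ : ℝ) - 1 := by rw [hw, Nat.cast_sub hf1, Nat.cast_one]
  have hwm : w ≤ m := by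
    have h3 : (w : ℝ) ≤ m := by
      have h4 : (n : ℝ) * (2 * q ^ 2) ≤ n * (a + 1) := mul_le_mul_of_nonneg_left (by linarith) hn0
      linarith
    exact_mod_cast h3
  obtain ⟨i, hi⟩ : ∃ i, i = ⌊(a + 1) / q ^ 4⌋₊ := ⟨_, rfl⟩
  have ha1 : 0 ≤ (a + 1) / q ^ 4 := div_nonneg (by linarith [ha.1]) hq40.le
  have hi1 : (i : ℝ) * q ^ 4 ≤ a + 1 := by
    rw [← le_div_iff₀ hq40, hi]
    exact Nat.floor_le ha1
  have hi2 : a + 1 < ((i : ℝ) + 1) * q ^ 4 := by
    rw [← div_lt_iff₀ hq40, hi]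
    exact Nat.lt_floor_add_one _
  have hiJ : i < ⌊2 / q ^ 4⌋₊ + 1 := by
    rw [Nat.lt_succ_iff, hi]
    apply Nat.floor_le_floor
    exact div_le_div_of_nonneg_right (by linarith [ha.2]) hq40.le
  have hca : |(-1 + i * q ^ 4) - a| ≤ (q ^ 2) ^ 2 := by
    have : (q ^ 2) ^ 2 = q ^ 4 := by ring
    rw [this, abs_le]
    constructor <;> linarith
  have hW : ∀ j ∈ Finset.Icc (m - w) (m + w), 1 ≤ bump (q ^ 2) (-1 + i * q ^ 4) (2 * (j : ℝ) / n - 1) := by
    intro j hj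
    rw [Finset.mem_Icc] at hj
    refine bump_one hq20 ?_
    have h3 : (m : ℝ) ≤ j + w := by
      have : m ≤ j + w := by omega
      exact_mod_cast this
    have h4 : (j : ℝ) ≤ m + w := by exact_mod_cast hj.2
    have h5 : |2 * (j : ℝ) / n - 1 - a| ≤ q ^ 2 := by
      have h6 : 2 * (j : ℝ) / n - 1 - a = (2 * j - n * (1 + a)) / n := by
        field_simp
        ring
      rw [h6, abs_div, abs_of_pos hn0', div_le_iff₀ hn0', abs_le]
      constructor <;> linarith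
    have h7 := abs_sub_le (2 * (j : ℝ) / n - 1) a (-1 + i * q ^ 4)
    rw [abs_sub_comm a] at h7
    linarith
  have h3 := count_le_ssum (bump_nonneg (q ^ 2) (-1 + i * q ^ 4)) hW l
  have h4 : (((2 * w + 1) * cross m l : ℕ) : ℝ) ≤
      ((∑ i ∈ Finset.Icc (m - w) (m + w), l.count i + (2 * w + 1) * w : ℕ) : ℝ) := by
    exact_mod_cast cross_window hwm l
  rw [Nat.cast_add, Nat.cast_mul, Nat.cast_mul] at h4
  have h5 := hs i hiJ
  have hchoose : (n.choose 2 : ℝ) ≤ (n : ℝ) ^ 2 / 2 := by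
    rw [Nat.cast_choose_two]
    nlinarith
  have hsqrt : √(4 * (q ^ 2 + 2 * (q ^ 2) ^ 2)) ≤ 3 * q := by
    rw [Real.sqrt_le_iff]
    refine ⟨by positivity, ?_⟩
    nlinarith
  have hint : ∫ u, bump (q ^ 2) (-1 + i * q ^ 4) u ∂semi ≤
      2 / π * (√(1 - a ^ 2) + 3 * q) * (2 * (q ^ 2 * (1 + 2 * q ^ 2))) := by
    refine (int_bump_le hq20 ha hca).trans ?_
    have e1 : 2 * (q ^ 2 + 2 * (q ^ 2) ^ 2) = 2 * (q ^ 2 * (1 + 2 * q ^ 2)) := by ring
    rw [e1]
    refine mul_le_mul_of_nonneg_right (mul_le_mul_of_nonneg_left (by linarith) (by positivity)) (by positivity)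
  refine band_arith (p := 2 / π) (by positivity) ?_ hq hq4 hτ.1 hτ.2 hS0 ?_ hn hchoose (int_bump_nonneg _ _) hint
    (D := ((2 * w + 1 : ℕ) : ℝ)) (w := (w : ℝ)) ?_ ?_ ?_
  · rw [div_le_one Real.pi_pos]
    linarith [Real.pi_gt_three]
  · rw [Real.sqrt_le_one]
    nlinarith [sq_nonneg a]
  · push_cast
    linarith
  · linarith
  · linarith

/-! ### The reversed quadrant -/

/-- The mass of the quadrant `x ≥ -a`, `y > a` is at most the number of crossings of the reversed word. -/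
theorem eta_cross_rev_le {n : ℕ} (hn : 1 ≤ n) {k : List ℕ} (hk : IsNetwork n k) {a t : ℝ} (ha : a ∈ Icc (-1 : ℝ) 1)
    (ht1 : t ≤ 1) :
    eta n k t (Ici (-a) ×ˢ Ioi a) ≤ (n : ℝ≥0∞)⁻¹ * ((cross ⌊(n : ℝ) * (a + 1) / 2⌋₊
        (k.reverse.take (n.choose 2 - ⌊(n.choose 2 : ℝ) * t⌋₊)) + 1 : ℕ) : ℝ≥0∞) := by
  classical
  rw [eta_apply n k t (measurableSet_Ici.prod measurableSet_Ioi)]
  obtain ⟨m, hm⟩ : ∃ m, m = ⌊(n : ℝ) * (a + 1) / 2⌋₊ := ⟨_, rfl⟩
  obtain ⟨s, hs⟩ : ∃ s, s = ⌊(n.choose 2 : ℝ) * t⌋₊ := ⟨_, rfl⟩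
  have hsN : s ≤ n.choose 2 := by
    rw [hs]
    refine Nat.floor_le_of_le ?_
    have : (0 : ℝ) ≤ (n.choose 2 : ℝ) := Nat.cast_nonneg _
    nlinarith
  rw [← hm, ← hs]
  refine mul_le_mul_right (Nat.cast_le.2 ?_) _
  unfold cross
  have hins : ((Finset.Icc 1 m).filter (fun x => m < place (k.reverse.take (n.choose 2 - s)) x)).card + 1 ≥
      (insert (m + 1) ((Finset.Icc 1 m).filter (fun x => m < place (k.reverse.take (n.choose 2 - s)) x))).card :=
    Finset.card_insert_le _ _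
  refine le_trans ?_ hins
  refine Finset.card_le_card_of_injOn (fun y => n + 1 - y) ?_ ?_
  · intro i hi
    rw [Finset.mem_coe, Finset.mem_filter, Finset.mem_Icc] at hi
    obtain ⟨⟨hi1, hi2⟩, hi3⟩ := hi
    rw [mem_prod, mem_Ici, mem_Ioi] at hi3
    obtain ⟨hi3, hi4⟩ := hi3
    simp only at hi3 hi4
    have h2 := place_reverse_take hk (s := n.choose 2 - s) (by omega) hi1 hi2
    rw [show n.choose 2 - (n.choose 2 - s) = s by omega] at h2
    have hy : n - i ≤ m := by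
      rw [hm, ← le_iff_floor hn ha.1]
      rw [glob_zero] at hi3
      have h4 : ((n - i : ℕ) : ℝ) = n - i := Nat.cast_sub hi2
      have hn0 : (0 : ℝ) < n := by exact_mod_cast hn
      rw [h4]
      have h5 : 2 * ((n : ℝ) - i) / n - 1 = -(2 * (i : ℝ) / n - 1) := by
        field_simp
        ring
      rw [h5]
      linarith
    have hp : m < place (k.take s) i := by
      rw [← not_le, hm, ← le_iff_floor hn ha.1, not_le]
      have h3 : glob n k i t = 2 * (place (k.take s) i : ℝ) / n - 1 := by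
        rw [glob, hs]
      rw [← h3]
      exact hi4
    simp only [Finset.coe_insert, Finset.coe_filter, Finset.mem_Icc]
    by_cases h6 : n + 1 - i = m + 1
    · exact Or.inl h6
    · exact Or.inr ⟨⟨by omega, by omega⟩, by rw [h2]; exact hp⟩
  · intro y₁ hy₁ y₂ hy₂ heq
    rw [Finset.mem_coe, Finset.mem_filter, Finset.mem_Icc] at hy₁ hy₂
    simp only at heq
    omega

theorem ssum_reverse (g : ℝ → ℝ) (n : ℕ) (l : List ℕ) : ssum g n l.reverse = ssum g n l := by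
  unfold ssum
  rw [List.map_reverse, List.sum_reverse]

theorem band_ofReal {n c : ℕ} (hn : 1 ≤ n) {x : ℝ} (h : (c : ℝ) ≤ n * x) :
    (n : ℝ≥0∞)⁻¹ * (c : ℝ≥0∞) ≤ ENNReal.ofReal x := by
  have hn0 : (n : ℝ≥0∞) ≠ 0 := by
    simp only [ne_eq, Nat.cast_eq_zero]
    omega
  have hnt : (n : ℝ≥0∞) ≠ ⊤ := ENNReal.natCast_ne_top n
  rw [← ENNReal.mul_le_mul_iff_right hn0 hnt, ← mul_assoc, ENNReal.mul_inv_cancel hn0 hnt, one_mul,
    ← ENNReal.ofReal_natCast, ← ENNReal.ofReal_natCast, ← ENNReal.ofReal_mul (Nat.cast_nonneg n)]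
  exact ENNReal.ofReal_le_ofReal h

/-- **The crossings are at most those of the semicircle law** -/
theorem cross_band
    (hS : ∀ g : ℝ → ℝ, Continuous g → ∀ ε : ℝ, 0 < ε → ∃ c₁ > (0 : ℝ), ∃ c₂ > (0 : ℝ), ∀ n : ℕ,
      2 ≤ n → prob n (fun k => ∃ i j, i ≤ j ∧ j ≤ n.choose 2 ∧ ε * (n.choose 2 : ℝ) <
        |ssum g n ((k.take j).drop i) - ((j : ℝ) - i) * ∫ u, g u ∂semi|) ≤
      c₁ * Real.exp (-c₂ * (n : ℝ) ^ 2)) {ε : ℝ} (hε : 0 < ε) :
    ∃ c₁ > (0 : ℝ), ∃ c₂ > (0 : ℝ), ∀ n : ℕ, 2 ≤ n →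
      prob n (fun k => ∃ t ∈ Icc (0 : ℝ) 1, ∃ a ∈ Icc (-1 : ℝ) 1,
        ENNReal.ofReal (2 / π * t * √(1 - a ^ 2) + ε) < eta n k t (Ro a) ∨
        ENNReal.ofReal (2 / π * (1 - t) * √(1 - a ^ 2) + ε) < eta n k t (Ro' a)) ≤
      c₁ * Real.exp (-c₂ * (n : ℝ) ^ 2) := by
  obtain ⟨q, hq⟩ : ∃ q, q = min (1 / 4) (ε / 8) := ⟨_, rfl⟩
  have hq0 : 0 < q := by rw [hq]; exact lt_min (by norm_num) (by positivity)
  have hq4 : q ≤ 1 / 4 := by rw [hq]; exact min_le_left _ _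
  have hq8 : 8 * q ≤ ε := by
    have : q ≤ ε / 8 := by rw [hq]; exact min_le_right _ _
    linarith
  obtain ⟨J, hJ⟩ : ∃ J, J = ⌊2 / q ^ 4⌋₊ + 1 := ⟨_, rfl⟩
  have hS' := fun j : ℕ => hS (bump (q ^ 2) (-1 + j * q ^ 4)) (bump_continuous _) (q ^ 4) (by positivity)
  choose a₁ ha₁ a₂ ha₂ hb using hS'
  obtain ⟨c₂, hc₂, hc₂'⟩ : ∃ c₂ > (0 : ℝ), ∀ j < J, c₂ ≤ a₂ j := by
    clear hJ
    induction J with
    | zero => exact ⟨1, one_pos, fun j hj => absurd hj (Nat.not_lt_zero _)⟩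
    | succ J ih =>
      obtain ⟨c, hc, hc'⟩ := ih
      refine ⟨min c (a₂ J), lt_min hc (ha₂ J), fun j hj => ?_⟩
      rcases Nat.lt_succ_iff_lt_or_eq.1 hj with h1 | rfl
      · exact (min_le_left _ _).trans (hc' j h1)
      · exact min_le_right _ _
  obtain ⟨n₁, hn₁⟩ : ∃ n₁ : ℕ, n₁ = ⌈3 / q ^ 4⌉₊ := ⟨_, rfl⟩
  refine ⟨∑ j ∈ Finset.range J, a₁ j + Real.exp (c₂ * (n₁ : ℝ) ^ 2), ?_, c₂, hc₂, ?_⟩
  · have h1 : 0 ≤ ∑ j ∈ Finset.range J, a₁ j := Finset.sum_nonneg fun j _ => (ha₁ j).le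
    have h2 := Real.exp_pos (c₂ * (n₁ : ℝ) ^ 2)
    linarith
  intro n hn
  rcases lt_or_ge n n₁ with hlt | hge
  · refine (prob_le_one n _).trans ?_
    have h1 : 0 ≤ ∑ j ∈ Finset.range J, a₁ j := Finset.sum_nonneg fun j _ => (ha₁ j).le
    have h2 : (n : ℝ) ^ 2 ≤ (n₁ : ℝ) ^ 2 := by
      have h3 : (n : ℝ) ≤ n₁ := by exact_mod_cast hlt.le
      exact pow_le_pow_left₀ (Nat.cast_nonneg _) h3 2
    have h3 : 1 ≤ Real.exp (c₂ * (n₁ : ℝ) ^ 2) * Real.exp (-c₂ * (n : ℝ) ^ 2) := by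
      rw [← Real.exp_add]
      apply Real.one_le_exp
      have := mul_le_mul_of_nonneg_left h2 hc₂.le
      linarith
    have h4 := Real.exp_pos (-c₂ * (n : ℝ) ^ 2)
    have h5 : 0 ≤ (∑ j ∈ Finset.range J, a₁ j) * Real.exp (-c₂ * (n : ℝ) ^ 2) := mul_nonneg h1 h4.le
    rw [add_mul]
    linarith
  have hqn : 3 ≤ q ^ 4 * n := by
    have h1 : 3 / q ^ 4 ≤ n₁ := by rw [hn₁]; exact Nat.le_ceil _
    have h2 : (n₁ : ℝ) ≤ n := by exact_mod_cast hge
    rw [div_le_iff₀ (by positivity)] at h1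
    have h3 : (n₁ : ℝ) * q ^ 4 ≤ n * q ^ 4 := mul_le_mul_of_nonneg_right h2 (by positivity)
    linarith
  obtain ⟨E, hE⟩ : ∃ E : ℕ → List ℕ → Prop, E = fun (r : ℕ) (k : List ℕ) => ∃ i j, i ≤ j ∧ j ≤ n.choose 2 ∧
      q ^ 4 * (n.choose 2 : ℝ) < |ssum (bump (q ^ 2) (-1 + r * q ^ 4)) n ((k.take j).drop i) -
        ((j : ℝ) - i) * ∫ u, bump (q ^ 2) (-1 + r * q ^ 4) u ∂semi| := ⟨_, rfl⟩
  have hdet : ∀ k, IsNetwork n k → (∃ t ∈ Icc (0 : ℝ) 1, ∃ a ∈ Icc (-1 : ℝ) 1,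
      ENNReal.ofReal (2 / π * t * √(1 - a ^ 2) + ε) < eta n k t (Ro a) ∨
      ENNReal.ofReal (2 / π * (1 - t) * √(1 - a ^ 2) + ε) < eta n k t (Ro' a)) → ∃ r < J, E r k := by
    rintro k hk ⟨t, ht, a, ha, h⟩
    by_contra hcon
    push Not at hcon
    have hcon' : ∀ r < J, ∀ i j, i ≤ j → j ≤ n.choose 2 →
        ssum (bump (q ^ 2) (-1 + r * q ^ 4)) n ((k.take j).drop i) ≤
          ((j : ℝ) - i) * ∫ u, bump (q ^ 2) (-1 + r * q ^ 4) u ∂semi + q ^ 4 * (n.choose 2 : ℝ) := by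
      intro r hr i j hij hj
      have h1 := hcon r hr
      rw [hE] at h1
      push Not at h1
      have h2 := (abs_le.1 (h1 i j hij hj)).2
      linarith
    obtain ⟨s, hs⟩ : ∃ s, s = ⌊(n.choose 2 : ℝ) * t⌋₊ := ⟨_, rfl⟩
    have hN0 : (0 : ℝ) ≤ (n.choose 2 : ℝ) := Nat.cast_nonneg _
    have hs1 : (s : ℝ) ≤ (n.choose 2 : ℝ) * t := by
      rw [hs]
      exact Nat.floor_le (mul_nonneg hN0 ht.1)
    have hs2 : (n.choose 2 : ℝ) * t < s + 1 := by
      rw [hs]
      exact Nat.lt_floor_add_one _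
    have hsN : s ≤ n.choose 2 := by
      have : (s : ℝ) ≤ (n.choose 2 : ℝ) := by nlinarith [ht.2]
      exact_mod_cast this
    have hn1 : 1 ≤ n := by omega
    rcases h with h | h
    · refine absurd h (not_lt.2 ?_)
      have h1 : eta n k t (Ro a) ≤ eta n k t (Iic a ×ˢ Ioi a) :=
        measure_mono (Set.prod_mono (fun x hx => hx.2) (fun x hx => hx.1))
      refine h1.trans ?_
      rw [eta_cross hn1 k t ha.1 ha.2]
      refine band_ofReal hn1 ?_
      have h2 := band_det hq0 hq4 hqn (l := k.take s) (fun j hj => hk.2.1 j (List.mem_of_mem_take hj)) ht (by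
        intro r hr
        have h3 := hcon' r (by rw [hJ]; exact hr) 0 s (Nat.zero_le _) hsN
        rw [List.drop_zero] at h3
        have h4 : ((s : ℝ) - (0 : ℕ)) * ∫ u, bump (q ^ 2) (-1 + r * q ^ 4) u ∂semi ≤
            (t * (n.choose 2 : ℝ) + 1) * ∫ u, bump (q ^ 2) (-1 + r * q ^ 4) u ∂semi := by
          refine mul_le_mul_of_nonneg_right ?_ (int_bump_nonneg _ _)
          rw [Nat.cast_zero]
          linarith
        linarith) ha
      rw [← hs]
      have h5 : (n : ℝ) * (2 / π * t * √(1 - a ^ 2) + 8 * q) ≤ n * (2 / π * t * √(1 - a ^ 2) + ε) :=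
        mul_le_mul_of_nonneg_left (by linarith) (Nat.cast_nonneg _)
      linarith
    · refine absurd h (not_lt.2 ?_)
      have h1 : eta n k t (Ro' a) ≤ eta n k t (Ici (-a) ×ˢ Ioi a) :=
        measure_mono (Set.prod_mono (fun x hx => hx.1) (fun x hx => hx.1))
      refine h1.trans ((eta_cross_rev_le hn1 hk ha ht.2).trans (band_ofReal hn1 ?_))
      rw [← hs]
      have e1 : k.reverse.take (n.choose 2 - s) = (k.drop s).reverse := by
        rw [List.take_reverse, hk.1]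
        congr 2
        omega
      have h2 := band_det hq0 hq4 hqn (l := k.reverse.take (n.choose 2 - s))
        (fun j hj => hk.2.1 j (List.mem_reverse.1 (List.mem_of_mem_take hj)))
        (τ := 1 - t) ⟨by linarith [ht.2], by linarith [ht.1]⟩ (by
        intro r hr
        have h3 := hcon' r (by rw [hJ]; exact hr) s (n.choose 2) hsN le_rfl
        rw [List.take_of_length_le hk.1.le] at h3
        rw [e1, ssum_reverse]
        have h4 : (((n.choose 2 : ℕ) : ℝ) - s) * ∫ u, bump (q ^ 2) (-1 + r * q ^ 4) u ∂semi ≤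
            ((1 - t) * (n.choose 2 : ℝ) + 1) * ∫ u, bump (q ^ 2) (-1 + r * q ^ 4) u ∂semi := by
          refine mul_le_mul_of_nonneg_right ?_ (int_bump_nonneg _ _)
          linarith
        linarith) ha
      push_cast
      have h5 : (n : ℝ) * (2 / π * (1 - t) * √(1 - a ^ 2) + 8 * q) ≤ n * (2 / π * (1 - t) * √(1 - a ^ 2) + ε) :=
        mul_le_mul_of_nonneg_left (by linarith) (Nat.cast_nonneg _)
      linarith
  refine (prob_mono hdet).trans ((prob_exists_le n E J).trans ?_)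
  have h1 : ∀ j ∈ Finset.range J, prob n (E j) ≤ a₁ j * Real.exp (-c₂ * (n : ℝ) ^ 2) := by
    intro j hj
    rw [Finset.mem_range] at hj
    have h2 := hb j n hn
    rw [hE]
    refine h2.trans (mul_le_mul_of_nonneg_left ?_ (ha₁ j).le)
    apply Real.exp_le_exp.2
    have h3 := mul_le_mul_of_nonneg_right (hc₂' j hj) (sq_nonneg (n : ℝ))
    linarith
  refine (Finset.sum_le_sum h1).trans ?_
  rw [← Finset.sum_mul]
  refine mul_le_mul_of_nonneg_right ?_ (Real.exp_pos _).le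
  have := Real.exp_pos (c₂ * (n₁ : ℝ) ^ 2)
  linarith

end Pool.Agent.SNL63
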