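import Pool.Agent.SNL63.EtaCross

/-!
# The ends of the Archimedean path, the marginals, and short times
-/

namespace Pool.Agent.SNL63

open MeasureTheory Set Filter Topology Pool.Agent.SN8
open scoped ENNReal Real

/-! ### The marginal of the Archimedean measure -/

theorem inner_integral {r : ℝ} (hr : 0 < r) :
    ∫⁻ y in Ioo (-r) r, ENNReal.ofReal (1 / (2 * π * √(r ^ 2 - y ^ 2))) = (2 : ℝ≥0∞)⁻¹ := by
  have hderiv : ∀ y ∈ Ioo (-r) r, HasDerivAt (fun y : ℝ => Real.arcsin (y / r) / (2 * π))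
      (1 / (2 * π * √(r ^ 2 - y ^ 2))) y := by
    intro y hy
    have h1 : y / r ≠ -1 := by
      intro h
      rw [div_eq_iff hr.ne'] at h
      linarith [hy.1]
    have h2 : y / r ≠ 1 := by
      intro h
      rw [div_eq_iff hr.ne'] at h
      linarith [hy.2]
    have h3 : HasDerivAt (fun y : ℝ => y / r) (1 / r) y := (hasDerivAt_id y).div_const r
    have h4 := ((Real.hasDerivAt_arcsin h1 h2).comp y h3).div_const (2 * π)
    have h5 : 1 / √(1 - (y / r) ^ 2) * (1 / r) / (2 * π) = 1 / (2 * π * √(r ^ 2 - y ^ 2)) := by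
      have h6 : r ^ 2 - y ^ 2 = (1 - (y / r) ^ 2) * r ^ 2 := by
        field_simp
      have h7 : 0 < 1 - (y / r) ^ 2 := by
        have h8 : 0 < r ^ 2 - y ^ 2 := by nlinarith [hy.1, hy.2]
        rw [h6] at h8
        exact pos_of_mul_pos_left h8 (by positivity)
      rw [h6, Real.sqrt_mul h7.le, Real.sqrt_sq hr.le]
      have h9 : √(1 - (y / r) ^ 2) ≠ 0 := (Real.sqrt_pos.2 h7).ne'
      field_simp
    rw [← h5]
    exact h4
  have hcont : ContinuousOn (fun y : ℝ => Real.arcsin (y / r) / (2 * π)) (Icc (-r) r) := by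
    refine Continuous.continuousOn ?_
    exact (Real.continuous_arcsin.comp (continuous_id.div_const r)).div_const _
  have hnn : ∀ y ∈ Ioo (-r) r, 0 ≤ 1 / (2 * π * √(r ^ 2 - y ^ 2)) := by
    intro y _
    positivity
  have hle : -r ≤ r := by linarith
  have hint : IntervalIntegrable (fun y : ℝ => 1 / (2 * π * √(r ^ 2 - y ^ 2))) volume (-r) r := by
    apply intervalIntegral.intervalIntegrable_deriv_of_nonneg
      (g := fun y : ℝ => Real.arcsin (y / r) / (2 * π))
    · rw [uIcc_of_le hle]; exact hcont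
    · intro x hx
      rw [min_eq_left hle, max_eq_right hle] at hx
      exact hderiv x hx
    · intro x hx
      rw [min_eq_left hle, max_eq_right hle] at hx
      exact hnn x hx
  have hval : ∫ y in (-r)..r, 1 / (2 * π * √(r ^ 2 - y ^ 2)) = 1 / 2 := by
    rw [intervalIntegral.integral_eq_sub_of_hasDerivAt_of_le hle hcont hderiv hint, div_self hr.ne',
      neg_div, div_self hr.ne', Real.arcsin_neg, Real.arcsin_one]
    have := Real.pi_ne_zero
    field_simp
    ring
  rw [← ofReal_integral_eq_lintegral_ofReal]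
  · rw [← integral_Ioc_eq_integral_Ioo, ← intervalIntegral.integral_of_le hle, hval,
      ENNReal.ofReal_div_of_pos (by norm_num), ENNReal.ofReal_one, one_div]
    simp
  · have := hint
    rw [intervalIntegrable_iff_integrableOn_Ioo_of_le hle] at this
    exact this
  · filter_upwards [ae_restrict_mem measurableSet_Ioo] with y hy
    exact hnn y hy

theorem inner_density (x : ℝ) :
    ∫⁻ y, archDensity (x, y) = (Ioo (-1 : ℝ) 1).indicator (fun _ => (2 : ℝ≥0∞)⁻¹) x := by
  by_cases hx : x ∈ Ioo (-1 : ℝ) 1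
  · rw [indicator_of_mem hx]
    have h1 : 0 < 1 - x ^ 2 := by nlinarith [hx.1, hx.2]
    obtain ⟨r, hr⟩ : ∃ r, r = √(1 - x ^ 2) := ⟨_, rfl⟩
    have hr0 : 0 < r := by
      rw [hr]
      exact Real.sqrt_pos.2 h1
    have hr2 : r ^ 2 = 1 - x ^ 2 := by
      rw [hr, Real.sq_sqrt h1.le]
    rw [← inner_integral hr0, ← lintegral_indicator measurableSet_Ioo]
    refine lintegral_congr fun y => ?_
    by_cases hy : y ∈ Ioo (-r) r
    · rw [indicator_of_mem hy]
      unfold archDensity
      have h2 : y ^ 2 < r ^ 2 := by nlinarith [hy.1, hy.2]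
      rw [if_pos (by simp only; linarith), hr2]
    · rw [indicator_of_notMem hy]
      unfold archDensity
      rw [if_neg]
      simp only
      intro h2
      apply hy
      have h3 : y ^ 2 < r ^ 2 := by linarith
      exact ⟨by nlinarith, by nlinarith⟩
  · rw [indicator_of_notMem hx]
    rw [lintegral_eq_zero_iff' (by
      refine Measurable.aemeasurable ?_
      exact measurable_archDensity.comp (by fun_prop))]
    refine Eventually.of_forall fun y => ?_
    unfold archDensity
    simp only [Pi.zero_apply]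
    rw [if_neg]
    intro h2
    apply hx
    have h3 : x ^ 2 < 1 := by nlinarith [sq_nonneg y]
    exact ⟨by nlinarith, by nlinarith⟩

theorem archHalf_fst : archHalf.map Prod.fst = unif := by
  ext A hA
  rw [Measure.map_apply measurable_fst hA, archHalf, withDensity_apply _ (measurable_fst hA)]
  have h1 : (Prod.fst ⁻¹' A : Set (ℝ × ℝ)) = A ×ˢ univ := by
    ext p
    simp
  rw [h1, Measure.volume_eq_prod, setLIntegral_prod _ (measurable_archDensity.aemeasurable)]
  simp only [Measure.restrict_univ, inner_density]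
  rw [lintegral_indicator measurableSet_Ioo, lintegral_const, Measure.restrict_apply MeasurableSet.univ,
    univ_inter, Measure.restrict_apply measurableSet_Ioo, unif, Measure.smul_apply, smul_eq_mul,
    Measure.restrict_apply hA]
  congr 1
  refine measure_congr ?_
  rw [inter_comm]
  exact (ae_eq_refl A).inter Ioo_ae_eq_Icc

theorem arch_zero : arch 0 = unif.map (fun x => (x, x)) := by
  rw [← archHalf_fst, Measure.map_map (by fun_prop) measurable_fst, arch]
  congr 1
  funext p
  simp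

theorem arch_one : arch 1 = unif.map (fun x => (x, -x)) := by
  rw [← archHalf_fst, Measure.map_map (by fun_prop) measurable_fst, arch]
  congr 1
  funext p
  simp

/-! ### The marginals -/

/-- both marginals of `eta` are the uniform law on `2 i / n - 1`, `i = 1, ..., n`; they converge -/
noncomputable def margin (n : ℕ) : Measure ℝ :=
  (n : ℝ≥0∞)⁻¹ • ∑ i ∈ Finset.Icc 1 n, Measure.dirac (2 * (i : ℝ) / n - 1)

theorem sum_place {M : Type*} [AddCommMonoid M] {n : ℕ} {l : List ℕ} (hl : ∀ j ∈ l, 1 ≤ j ∧ j + 1 ≤ n)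
    (f : ℕ → M) : ∑ i ∈ Finset.Icc 1 n, f (place l i) = ∑ i ∈ Finset.Icc 1 n, f i := by
  refine Finset.sum_bij' (fun i _ => place l i) (fun i _ => P l i) ?_ ?_ ?_ ?_ ?_
  · intro i hi
    rw [Finset.mem_Icc] at hi ⊢
    rw [place_eq]
    exact (Supp.P hl).inv.mem hi.1 hi.2
  · intro i hi
    rw [Finset.mem_Icc] at hi ⊢
    exact (Supp.P hl).mem hi.1 hi.2
  · intro i _
    rw [place_eq]
    exact (P l).apply_symm_apply i
  · intro i _
    rw [place_eq]
    exact (P l).symm_apply_apply i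
  · intro i _
    rfl

theorem eta_margins {n : ℕ} {k : List ℕ} (hk : IsNetwork n k) (t : ℝ) :
    (eta n k t).map Prod.fst = margin n ∧ (eta n k t).map Prod.snd = margin n := by
  constructor
  · ext A hA
    rw [Measure.map_apply measurable_fst hA, eta, margin, Measure.smul_apply, Measure.smul_apply,
      Measure.finsetSum_apply, Measure.finsetSum_apply]
    congr 1
    refine Finset.sum_congr rfl fun i _ => ?_
    rw [Measure.dirac_apply' _ (measurable_fst hA), Measure.dirac_apply' _ hA, ← glob_zero n k i]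
    rfl
  · ext A hA
    rw [Measure.map_apply measurable_snd hA, eta, margin, Measure.smul_apply, Measure.smul_apply,
      Measure.finsetSum_apply, Measure.finsetSum_apply]
    congr 1
    rw [← sum_place (l := k.take ⌊(n.choose 2 : ℝ) * t⌋₊) (fun j hj => hk.2.1 j (List.mem_of_mem_take hj))
      (fun i => Measure.dirac (2 * (i : ℝ) / n - 1) A)]
    refine Finset.sum_congr rfl fun i _ => ?_
    rw [Measure.dirac_apply' _ (measurable_snd hA), Measure.dirac_apply' _ hA]
    rfl

theorem integral_margin (n : ℕ) (g : ℝ → ℝ) :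
    ∫ x, g x ∂(margin n) = (n : ℝ)⁻¹ * ∑ i ∈ Finset.Icc 1 n, g (2 * (i : ℝ) / n - 1) := by
  rw [margin, integral_smul_measure, integral_finsetSum_measure]
  · simp only [integral_dirac, ENNReal.toReal_inv, ENNReal.toReal_natCast, smul_eq_mul]
  · intro i _
    exact integrable_dirac (by finiteness)

theorem integral_unif (g : ℝ → ℝ) : ∫ x, g x ∂unif = 2⁻¹ * ∫ x in (-1 : ℝ)..1, g x := by
  rw [unif, integral_smul_measure, integral_Icc_eq_integral_Ioc, ← intervalIntegral.integral_of_le (by norm_num)]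
  simp

theorem riemann {g : ℝ → ℝ} (hg : Continuous g) {ε : ℝ} (hε : 0 < ε) :
    ∃ n₀ : ℕ, ∀ n ≥ n₀, 1 ≤ n →
      |2 / n * ∑ i ∈ Finset.Icc 1 n, g (2 * (i : ℝ) / n - 1) - ∫ x in (-1 : ℝ)..1, g x| ≤ 2 * ε := by
  have huc : UniformContinuousOn g (Icc (-1) 1) :=
    isCompact_Icc.uniformContinuousOn_of_continuous hg.continuousOn
  rw [Metric.uniformContinuousOn_iff] at huc
  obtain ⟨δ, hδ, h⟩ := huc ε hε
  refine ⟨⌈2 / δ⌉₊ + 1, fun n hn hn1 => ?_⟩
  have hn0 : (0 : ℝ) < n := by exact_mod_cast hn1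
  have h2n : 2 / (n : ℝ) < δ := by
    have h1 : (2 / δ : ℝ) < n := by
      refine lt_of_le_of_lt (Nat.le_ceil _) ?_
      exact_mod_cast hn
    rw [div_lt_iff₀ hδ] at h1
    rw [div_lt_iff₀ hn0]
    linarith
  obtain ⟨a, ha⟩ : ∃ a : ℕ → ℝ, a = fun i : ℕ => 2 * (i : ℝ) / n - 1 := ⟨_, rfl⟩
  have ha0 : a 0 = -1 := by rw [ha]; simp
  have han : a n = 1 := by
    rw [ha]
    simp only
    field_simp
    ring
  have hstep : ∀ i, a (i + 1) = a i + 2 / n := by
    intro i
    rw [ha]
    simp only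
    push_cast
    ring
  have h1 : ∑ i ∈ Finset.range n, ∫ x in (a i)..(a (i + 1)), g x = ∫ x in (-1 : ℝ)..1, g x := by
    rw [intervalIntegral.sum_integral_adjacent_intervals (fun i _ => hg.intervalIntegrable _ _), ha0, han]
  have h2 : ∑ i ∈ Finset.Icc 1 n, g (2 * (i : ℝ) / n - 1) = ∑ i ∈ Finset.range n, g (a (i + 1)) := by
    rw [Finset.range_eq_Ico, Finset.sum_Ico_add' (fun i => g (a i)) 0 n 1]
    refine Finset.sum_congr ?_ fun i _ => by rw [ha]
    ext i
    rw [Finset.mem_Icc, Finset.mem_Ico]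
    omega
  rw [← h1, h2, Finset.mul_sum, ← Finset.sum_sub_distrib]
  refine (Finset.abs_sum_le_sum_abs _ _).trans ?_
  have h3 : ∀ i ∈ Finset.range n, |2 / n * g (a (i + 1)) - ∫ x in (a i)..(a (i + 1)), g x| ≤ ε * (2 / n) := by
    intro i hi
    rw [Finset.mem_range] at hi
    have e1 : ∫ x in (a i)..(a (i + 1)), (g (a (i + 1)) - g x) =
        2 / n * g (a (i + 1)) - ∫ x in (a i)..(a (i + 1)), g x := by
      rw [intervalIntegral.integral_sub (by simp) (hg.intervalIntegrable _ _), intervalIntegral.integral_const,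
        smul_eq_mul, hstep]
      congr 2
      ring
    rw [← e1, ← Real.norm_eq_abs]
    have e2 : a i ≤ a (i + 1) := by
      rw [hstep]
      have : 0 ≤ 2 / (n : ℝ) := by positivity
      linarith
    have e3 : -1 ≤ a i := by
      rw [ha]
      simp only
      have : 0 ≤ 2 * (i : ℝ) / n := by positivity
      linarith
    have e4 : a (i + 1) ≤ 1 := by
      rw [ha]
      simp only
      rw [sub_le_iff_le_add, div_le_iff₀ hn0]
      have : ((i + 1 : ℕ) : ℝ) ≤ n := by exact_mod_cast hi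
      linarith
    have e5 := intervalIntegral.norm_integral_le_of_norm_le_const (a := a i) (b := a (i + 1)) (C := ε)
      (f := fun x => g (a (i + 1)) - g x) (by
        intro x hx
        rw [uIoc_of_le e2] at hx
        have e6 := h (a (i + 1)) ⟨by linarith, e4⟩ x ⟨by linarith [hx.1], by linarith [hx.2]⟩ (by
          rw [Real.dist_eq, abs_of_nonneg (by linarith [hx.2])]
          have := hstep i
          linarith [hx.1])
        rw [Real.dist_eq] at e6
        rw [Real.norm_eq_abs]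
        exact e6.le)
    rw [hstep, add_sub_cancel_left, abs_of_nonneg (by positivity : 0 ≤ 2 / (n : ℝ)), ← hstep] at e5
    exact e5
  refine (Finset.sum_le_sum h3).trans ?_
  rw [Finset.sum_const, Finset.card_range, nsmul_eq_mul]
  have : (n : ℝ) * (ε * (2 / n)) = 2 * ε := by
    field_simp
  rw [this]

theorem margin_tendsto {ι : Type*} {l : Filter ι} {f : ι → ℕ} (hf : Tendsto f l atTop)
    (g : ℝ → ℝ) (hg : Continuous g) (_hb : ∃ C, ∀ x, |g x| ≤ C) :
    Tendsto (fun i => ∫ x, g x ∂(margin (f i))) l (𝓝 (∫ x, g x ∂unif)) := by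
  refine Tendsto.comp (y := atTop) (g := fun n => ∫ x, g x ∂(margin n)) ?_ hf
  rw [Metric.tendsto_atTop]
  intro ε hε
  obtain ⟨n₀, h⟩ := riemann hg (ε := ε / 2) (by positivity)
  refine ⟨n₀ + 1, fun n hn => ?_⟩
  have h1 := h n (by omega) (by omega)
  rw [Real.dist_eq, integral_margin, integral_unif]
  have h2 : (n : ℝ)⁻¹ * ∑ i ∈ Finset.Icc 1 n, g (2 * (i : ℝ) / n - 1) - 2⁻¹ * ∫ x in (-1 : ℝ)..1, g x =
      2⁻¹ * (2 / n * ∑ i ∈ Finset.Icc 1 n, g (2 * (i : ℝ) / n - 1) - ∫ x in (-1 : ℝ)..1, g x) := by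
    rw [mul_sub, ← mul_assoc]
    congr 2
    rw [div_eq_mul_inv]
    ring
  rw [h2, abs_mul, abs_of_pos (by norm_num : (0 : ℝ) < 2⁻¹)]
  linarith

/-! ### Short times -/

theorem place_concat (l : List ℕ) (j x : ℕ) : place (l ++ [j]) x = sw j (place l x) := by
  unfold place
  rw [List.foldl_append]
  rfl

theorem displacement {n : ℕ} : ∀ l : List ℕ, (∀ j ∈ l, 1 ≤ j ∧ j + 1 ≤ n) →
    ∑ i ∈ Finset.Icc 1 n, |(place l i : ℝ) - i| ≤ 2 * l.length := by
  intro l
  induction l using List.reverseRecOn with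
  | nil =>
    intro _
    simp [place]
  | append_singleton l j ih =>
    intro hl
    have hl' : ∀ j ∈ l, 1 ≤ j ∧ j + 1 ≤ n := fun j hj => hl j (List.mem_append_left _ hj)
    have h1 := ih hl'
    have hj := hl j (List.mem_append_right _ (List.mem_singleton.2 rfl))
    have h2 : ∀ i ∈ Finset.Icc 1 n, |(place (l ++ [j]) i : ℝ) - i| ≤
        |(place l i : ℝ) - i| + (if place l i = j then 1 else 0) + (if place l i = j + 1 then 1 else 0) := by
      intro i _
      rw [place_concat, sw_apply]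
      by_cases h3 : place l i = j
      · rw [if_pos h3, if_pos h3, if_neg (by omega), h3]
        have h4 : |((j + 1 : ℕ) : ℝ) - i| ≤ |(j : ℝ) - i| + |(1 : ℝ)| := by
          have : ((j + 1 : ℕ) : ℝ) - i = ((j : ℝ) - i) + 1 := by
            push_cast
            ring
          rw [this]
          exact abs_add_le _ _
        rw [abs_one] at h4
        linarith
      · rw [if_neg h3, if_neg h3]
        by_cases h5 : place l i = j + 1
        · rw [if_pos h5, if_pos h5, h5]
          have h4 : |(j : ℝ) - i| ≤ |((j + 1 : ℕ) : ℝ) - i| + |(-1 : ℝ)| := by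
            have : (j : ℝ) - i = (((j + 1 : ℕ) : ℝ) - i) + (-1) := by
              push_cast
              ring
            rw [this]
            exact abs_add_le _ _
          rw [abs_neg, abs_one] at h4
          linarith
        · rw [if_neg h5, if_neg h5]
          linarith
    refine (Finset.sum_le_sum h2).trans ?_
    rw [Finset.sum_add_distrib, Finset.sum_add_distrib, sum_place hl' (fun i => if i = j then (1 : ℝ) else 0),
      sum_place hl' (fun i => if i = j + 1 then (1 : ℝ) else 0), Finset.sum_ite_eq', Finset.sum_ite_eq',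
      if_pos (Finset.mem_Icc.2 ⟨by omega, by omega⟩), if_pos (Finset.mem_Icc.2 ⟨by omega, by omega⟩),
      List.length_append]
    push_cast
    simp only [List.length_singleton, Nat.cast_one]
    linarith

/-- The Markov inequality. -/
theorem markov {n : ℕ} (hn : 1 ≤ n) (k : List ℕ) (t : ℝ) {f : ℝ × ℝ → ℝ} (hf : Measurable f) (h0 : ∀ p, 0 ≤ f p)
    {r B : ℝ} (hr : 0 < r) (hB : ∑ i ∈ Finset.Icc 1 n, f (glob n k i 0, glob n k i t) ≤ B * n) :
    eta n k t {p | r ≤ f p} ≤ ENNReal.ofReal (B / r) := by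
  classical
  have hn0 : (0 : ℝ) < n := by exact_mod_cast hn
  rw [eta_apply n k t (measurableSet_le measurable_const hf)]
  obtain ⟨c, hc⟩ : ∃ c, c = ((Finset.Icc 1 n).filter fun i =>
    (glob n k i 0, glob n k i t) ∈ {p | r ≤ f p}).card := ⟨_, rfl⟩
  have h1 : (c : ℝ) * r ≤ B * n := by
    refine le_trans ?_ hB
    rw [hc, ← nsmul_eq_mul, ← Finset.sum_const]
    refine (Finset.sum_le_sum (g := fun i => f (glob n k i 0, glob n k i t)) fun i hi => ?_).trans ?_
    · exact (Finset.mem_filter.1 hi).2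
    · exact Finset.sum_le_sum_of_subset_of_nonneg (Finset.filter_subset _ _) fun i _ _ => h0 _
  rw [← hc]
  have h2 : (n : ℝ≥0∞)⁻¹ * (c : ℝ≥0∞) = ENNReal.ofReal ((n : ℝ)⁻¹ * c) := by
    rw [ENNReal.ofReal_mul (by positivity), ENNReal.ofReal_natCast, ENNReal.ofReal_inv_of_pos hn0,
      ENNReal.ofReal_natCast]
  rw [h2]
  refine ENNReal.ofReal_le_ofReal ?_
  rw [le_div_iff₀ hr, mul_assoc, inv_mul_le_iff₀ hn0]
  linarith

theorem choose_two_real (n : ℕ) : (n.choose 2 : ℝ) = n * (n - 1) / 2 := Nat.cast_choose_two ℝ n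

/-- short times: `eta` is near the diagonal -/
theorem eta_diag {n : ℕ} (hn : 1 ≤ n) {k : List ℕ} (hk : IsNetwork n k) {t r : ℝ} (ht : 0 ≤ t)
    (hr : 0 < r) : eta n k t {p | r ≤ |p.1 - p.2|} ≤ ENNReal.ofReal (2 * t / r) := by
  have hn0 : (0 : ℝ) < n := by exact_mod_cast hn
  refine markov hn k t (f := fun p => |p.1 - p.2|) (by fun_prop) (fun p => abs_nonneg _) hr ?_
  obtain ⟨l, hl⟩ : ∃ l, l = k.take ⌊(n.choose 2 : ℝ) * t⌋₊ := ⟨_, rfl⟩
  have h1 := displacement (n := n) l (fun j hj => hk.2.1 j (by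
    rw [hl] at hj
    exact List.mem_of_mem_take hj))
  have h2 : (l.length : ℝ) ≤ (n.choose 2 : ℝ) * t := by
    have e1 : l.length ≤ ⌊(n.choose 2 : ℝ) * t⌋₊ := by
      rw [hl, List.length_take]
      exact min_le_left _ _
    have e2 : (⌊(n.choose 2 : ℝ) * t⌋₊ : ℝ) ≤ (n.choose 2 : ℝ) * t := Nat.floor_le (by positivity)
    exact (Nat.cast_le.2 e1).trans e2
  have h3 : ∀ i ∈ Finset.Icc 1 n, |glob n k i 0 - glob n k i t| = 2 / n * |(place l i : ℝ) - i| := by
    intro i _
    rw [glob_zero, glob, ← hl, abs_sub_comm]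
    have : 2 * (place l i : ℝ) / n - 1 - (2 * (i : ℝ) / n - 1) = 2 / n * ((place l i : ℝ) - i) := by ring
    rw [this, abs_mul, abs_of_pos (by positivity)]
  rw [Finset.sum_congr rfl h3, ← Finset.mul_sum]
  have h4 := choose_two_real n
  calc 2 / (n : ℝ) * ∑ i ∈ Finset.Icc 1 n, |(place l i : ℝ) - i| ≤ 2 / n * (2 * ((n.choose 2 : ℝ) * t)) := by
        refine mul_le_mul_of_nonneg_left ?_ (by positivity)
        linarith
    _ = 2 * t * (n - 1) := by
        rw [h4]
        field_simp
    _ ≤ 2 * t * n := by nlinarith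

/-- late times: `eta` is near the antidiagonal -/
theorem eta_anti {n : ℕ} (hn : 1 ≤ n) {k : List ℕ} (hk : IsNetwork n k) {t r : ℝ} (ht : t ≤ 1)
    (hr : 0 < r) : eta n k t {p | r ≤ |p.1 + p.2|} ≤
      ENNReal.ofReal ((2 * (1 - t) + 4 / n) / r) := by
  have hn0 : (0 : ℝ) < n := by exact_mod_cast hn
  have hN : (0 : ℝ) ≤ (n.choose 2 : ℝ) := Nat.cast_nonneg _
  refine markov hn k t (f := fun p => |p.1 + p.2|) (by fun_prop) (fun p => abs_nonneg _) hr ?_
  obtain ⟨s, hs⟩ : ∃ s, s = ⌊(n.choose 2 : ℝ) * t⌋₊ := ⟨_, rfl⟩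
  have hsN : s ≤ n.choose 2 := by
    rw [hs]
    refine Nat.floor_le_of_le ?_
    nlinarith
  have hd : ∀ j ∈ k.drop s, 1 ≤ j ∧ j + 1 ≤ n := fun j hj => hk.2.1 j (List.mem_of_mem_drop hj)
  have ht' : ∀ j ∈ k.take s, 1 ≤ j ∧ j + 1 ≤ n := fun j hj => hk.2.1 j (List.mem_of_mem_take hj)
  have h1 := displacement (n := n) (k.drop s) hd
  rw [← sum_place ht' (fun i => |(place (k.drop s) i : ℝ) - i|)] at h1
  have h2 : ∀ i ∈ Finset.Icc 1 n, place (k.drop s) (place (k.take s) i) = n + 1 - i := by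
    intro i hi
    rw [Finset.mem_Icc] at hi
    rw [← hk.2.2 i hi.1 hi.2]
    conv_rhs => rw [← List.take_append_drop s k]
    unfold place
    rw [List.foldl_append]
  have h3 : ∀ i ∈ Finset.Icc 1 n, |glob n k i 0 + glob n k i t| ≤
      2 / n * (|(place (k.drop s) (place (k.take s) i) : ℝ) - (place (k.take s) i : ℝ)| + 1) := by
    intro i hi
    rw [h2 i hi]
    rw [Finset.mem_Icc] at hi
    rw [glob_zero, glob, ← hs]
    have e1 : 2 * (i : ℝ) / n - 1 + (2 * (place (k.take s) i : ℝ) / n - 1) =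
        2 / n * (-((((n + 1 - i : ℕ) : ℝ) - (place (k.take s) i : ℝ))) + 1) := by
      rw [Nat.cast_sub (by omega)]
      push_cast
      field_simp
      ring
    rw [e1, abs_mul, abs_of_pos (by positivity : 0 < 2 / (n : ℝ))]
    refine mul_le_mul_of_nonneg_left ?_ (by positivity)
    refine (abs_add_le _ _).trans ?_
    rw [abs_neg, abs_one]
  refine (Finset.sum_le_sum h3).trans ?_
  rw [← Finset.mul_sum, Finset.sum_add_distrib, Finset.sum_const, Nat.card_Icc, Nat.add_sub_cancel,
    nsmul_eq_mul, mul_one]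
  have h4 : ((k.drop s).length : ℝ) = (n.choose 2 : ℝ) - s := by
    rw [List.length_drop, hk.1, Nat.cast_sub hsN]
  rw [h4] at h1
  have h5 : (n.choose 2 : ℝ) * t < s + 1 := by
    rw [hs]
    exact Nat.lt_floor_add_one _
  have h6 := choose_two_real n
  rcases Nat.lt_or_ge n 2 with hn2 | hn2
  · obtain rfl : n = 1 := by omega
    have h7 : (Nat.choose 1 2 : ℝ) = 0 := by simp
    rw [h7] at h1
    have h8 : (0 : ℝ) ≤ s := Nat.cast_nonneg s
    push_cast at h1 ⊢
    linarith
  · have hn2' : (2 : ℝ) ≤ n := by exact_mod_cast hn2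
    have h7 : (n : ℝ)⁻¹ ≤ 2⁻¹ := by
      gcongr
    have h8 : 2 / (n : ℝ) * ((2 * ((n.choose 2 : ℝ) - s)) + n) ≤ 2 / n * ((2 * ((n.choose 2 : ℝ) * (1 - t) + 1)) + n) := by
      refine mul_le_mul_of_nonneg_left ?_ (by positivity)
      nlinarith
    have h9 : 2 / (n : ℝ) * ((2 * ((n.choose 2 : ℝ) * (1 - t) + 1)) + n) = 2 * (1 - t) * (n - 1) + 4 * (n : ℝ)⁻¹ + 2 := by
      rw [h6]
      field_simp
      ring
    have h10 : (2 * (1 - t) + 4 / (n : ℝ)) * n = 2 * (1 - t) * n + 4 := by
      field_simp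
    rw [h10]
    refine le_trans (le_trans (mul_le_mul_of_nonneg_left (add_le_add_left h1 _) (by positivity)) h8) ?_
    rw [h9]
    nlinarith

end Pool.Agent.SNL63
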