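import Pool.Agent.SNL63.Defs

/-!
Word surgery: deleting a particle from a word in adjacent transpositions, the number of words with
a given result, and the recursion for the number of networks with few crossings.
-/

namespace Pool.Agent.SNL63

open Pool.Agent.SN8 Finset

/-- delete the particle which starts at `p` -/
def rem (p : ℕ) : List ℕ → List ℕ
  | [] => []
  | j :: l => if j = p then rem (p + 1) l else if j + 1 = p then rem (p - 1) l else
      (if j < p then j else j - 1) :: rem p l

lemma rem_nil (p : ℕ) : rem p [] = [] := rfl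

lemma rem_eq {p j : ℕ} (l : List ℕ) (h : j = p) : rem p (j :: l) = rem (p + 1) l := by
  rw [rem, if_pos h]

lemma rem_eq' {p j : ℕ} (l : List ℕ) (h : j + 1 = p) : rem p (j :: l) = rem (p - 1) l := by
  rw [rem, if_neg (by omega), if_pos h]

lemma rem_cons {p j : ℕ} (l : List ℕ) (h : j ≠ p) (h' : j + 1 ≠ p) :
    rem p (j :: l) = (if j < p then j else j - 1) :: rem p l := by
  rw [rem, if_neg h, if_neg h']

theorem fibre_encard (p N : ℕ) (l' : List ℕ) :
    ({l | l.length = N ∧ rem p l = l'} : Set (List ℕ)).encard ≤
      ((N.choose l'.length * 2 ^ (N - l'.length) : ℕ) : ℕ∞) := by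
  induction N generalizing p l' with
  | zero =>
    cases l' with
    | nil =>
      refine (Set.encard_le_encard (t := {[]}) ?_).trans ?_
      · rintro l ⟨hl, -⟩
        exact List.length_eq_zero_iff.mp hl
      · simp
    | cons a l' =>
      have : ({l | l.length = 0 ∧ rem p l = a :: l'} : Set (List ℕ)) = ∅ := by
        rw [Set.eq_empty_iff_forall_notMem]
        rintro l ⟨hl, h2⟩
        rw [List.length_eq_zero_iff.mp hl, rem_nil] at h2
        exact absurd h2 (by simp)
      rw [this]
      simp
  | succ N ih =>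
    have key : ({l | l.length = N + 1 ∧ rem p l = l'} : Set (List ℕ)) ⊆
        ((fun l => p :: l) '' {l | l.length = N ∧ rem (p + 1) l = l'} ∪
          (fun l => (p - 1) :: l) '' {l | l.length = N ∧ rem (p - 1) l = l'}) ∪
        {l | ∃ a b l₁, l' = a :: b ∧ l₁.length = N ∧ rem p l₁ = b ∧
          l = (if a < p then a else a + 1) :: l₁} := by
      rintro l ⟨hl, h2⟩
      cases l with
      | nil => simp at hl
      | cons j l =>
        have hl' : l.length = N := by simpa using hl
        by_cases hj : j = p
        · left; left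
          rw [rem_eq l hj] at h2
          exact ⟨l, ⟨hl', h2⟩, by simp only; rw [hj]⟩
        · by_cases hj' : j + 1 = p
          · left; right
            rw [rem_eq' l hj'] at h2
            refine ⟨l, ⟨hl', h2⟩, ?_⟩
            simp only
            rw [← hj']; simp
          · right
            rw [rem_cons l hj hj'] at h2
            refine ⟨_, _, l, h2.symm, hl', rfl, ?_⟩
            congr 1
            split_ifs <;> omega
    refine (Set.encard_le_encard key).trans ((Set.encard_union_le _ _).trans ?_)
    have h1 : ((fun l => p :: l) '' {l | l.length = N ∧ rem (p + 1) l = l'} ∪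
          (fun l => (p - 1) :: l) '' {l | l.length = N ∧ rem (p - 1) l = l'}).encard ≤
        ((2 * (N.choose l'.length * 2 ^ (N - l'.length)) : ℕ) : ℕ∞) := by
      refine (Set.encard_union_le _ _).trans ?_
      rw [two_mul, Nat.cast_add]
      exact add_le_add ((Set.encard_image_le _ _).trans (ih (p + 1) l'))
        ((Set.encard_image_le _ _).trans (ih (p - 1) l'))
    cases l' with
    | nil =>
      have h2 : ({l | ∃ a b l₁, ([] : List ℕ) = a :: b ∧ l₁.length = N ∧ rem p l₁ = b ∧
          l = (if a < p then a else a + 1) :: l₁} : Set (List ℕ)) = ∅ := by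
        rw [Set.eq_empty_iff_forall_notMem]
        rintro l ⟨a, b, l₁, h, -⟩
        exact absurd h (by simp)
      rw [h2, Set.encard_empty, add_zero]
      refine h1.trans ?_
      norm_cast
      simp only [List.length_nil, Nat.choose_zero_right, Nat.sub_zero, one_mul, pow_succ]
      omega
    | cons a b =>
      have h2 : ({l | ∃ a' b' l₁, a :: b = a' :: b' ∧ l₁.length = N ∧ rem p l₁ = b' ∧
          l = (if a' < p then a' else a' + 1) :: l₁} : Set (List ℕ)).encard ≤
          ((N.choose b.length * 2 ^ (N - b.length) : ℕ) : ℕ∞) := by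
        refine (Set.encard_le_encard (t := (fun l => (if a < p then a else a + 1) :: l) ''
          {l | l.length = N ∧ rem p l = b}) ?_).trans
          ((Set.encard_image_le _ _).trans (ih p b))
        rintro l ⟨a', b', l₁, h, h3, h4, h5⟩
        obtain ⟨rfl, rfl⟩ := List.cons.inj h
        exact ⟨l₁, ⟨h3, h4⟩, h5.symm⟩
      refine (add_le_add h1 h2).trans ?_
      rw [← Nat.cast_add]
      norm_cast
      rw [List.length_cons]
      set c := b.length with hc
      rcases lt_trichotomy c N with h | h | h
      · have e1 : N - (c + 1) + 1 = N - c := by omega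
        have e2 : N + 1 - (c + 1) = N - c := by omega
        rw [e2, Nat.choose_succ_succ, ← e1, pow_succ]
        have := Nat.choose_succ_succ N c
        nlinarith [Nat.zero_le (N.choose (c+1) * 2 ^ (N - (c+1)))]
      · subst h
        simp
      · rw [Nat.choose_eq_zero_of_lt h, Nat.choose_eq_zero_of_lt (by omega : N < c + 1)]
        simp

theorem fibre_le (p N : ℕ) (l' : List ℕ) :
    ({l | l.length = N ∧ rem p l = l'} : Set (List ℕ)).ncard ≤
      N.choose l'.length * 2 ^ (N - l'.length) :=
  (Set.encard_le_coe_iff_finite_ncard_le.mp (fibre_encard p N l')).2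

lemma fibre_finite (p N : ℕ) (l' : List ℕ) :
    ({l | l.length = N ∧ rem p l = l'} : Set (List ℕ)).Finite :=
  (Set.encard_le_coe_iff_finite_ncard_le.mp (fibre_encard p N l')).1

/-- all words of length `N` whose reduction lies in a set `S` of words of length `a` -/
lemma fibre_set {p N a : ℕ} {S : Set (List ℕ)} (hS : S.Finite) (ha : ∀ l ∈ S, l.length = a) :
    ({l | l.length = N ∧ rem p l ∈ S} : Set (List ℕ)).Finite ∧
    ({l | l.length = N ∧ rem p l ∈ S} : Set (List ℕ)).ncard ≤
      (N.choose a * 2 ^ (N - a)) * S.ncard := by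
  classical
  have e : ({l | l.length = N ∧ rem p l ∈ S} : Set (List ℕ)) =
      ((hS.toFinset.biUnion fun l' => (fibre_finite p N l').toFinset : Finset (List ℕ)) :
        Set (List ℕ)) := by
    ext l
    simp
  rw [e]
  refine ⟨Finset.finite_toSet _, ?_⟩
  rw [Set.ncard_coe_finset]
  refine (Finset.card_biUnion_le_card_mul _ _ (N.choose a * 2 ^ (N - a)) ?_).trans ?_
  · intro l' hl'
    rw [Set.Finite.mem_toFinset] at hl'
    rw [← ha l' hl', ← Set.ncard_eq_toFinset_card _ (fibre_finite p N l')]
    exact fibre_le p N l'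
  · rw [mul_comm, ← Set.ncard_eq_toFinset_card _ hS]

/-! ### the particles after a deletion -/

lemma sg_place_cons (j : ℕ) (l : List ℕ) (x : ℕ) : place (j :: l) x = place l (sw j x) := rfl

lemma sg_place_append (l₁ l₂ : List ℕ) (x : ℕ) : place (l₁ ++ l₂) x = place l₂ (place l₁ x) := by
  simp [place, List.foldl_append]

lemma place_inj (l : List ℕ) {x y : ℕ} (h : place l x = place l y) : x = y := by
  rw [place_eq, place_eq] at h
  exact (P l)⁻¹.injective h

lemma sg_place_mem {n : ℕ} {l : List ℕ} (hl : ∀ j ∈ l, 1 ≤ j ∧ j + 1 ≤ n) {x : ℕ} (h1 : 1 ≤ x)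
    (h2 : x ≤ n) : 1 ≤ place l x ∧ place l x ≤ n := by
  rw [place_eq]
  exact (Supp.P hl).inv.mem h1 h2

/-- the new label of the position `y` when the position `p` is deleted -/
def sh (p y : ℕ) : ℕ := if y < p then y else y - 1

lemma rem_append (p : ℕ) (l₁ l₂ : List ℕ) :
    rem p (l₁ ++ l₂) = rem p l₁ ++ rem (place l₁ p) l₂ := by
  induction l₁ generalizing p with
  | nil => rfl
  | cons j l ih =>
    rw [sg_place_cons, sw_apply]
    by_cases h : j = p
    · rw [List.cons_append, rem_eq _ h, rem_eq _ h, ih, if_pos h.symm, h]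
    · by_cases h' : j + 1 = p
      · rw [List.cons_append, rem_eq' _ h', rem_eq' _ h', ih, if_neg (by omega),
          if_pos h'.symm]
        have : p - 1 = j := by omega
        rw [this]
      · have e : (if p = j then j + 1 else if p = j + 1 then j else p) = p := by
          split_ifs <;> omega
        rw [List.cons_append, rem_cons _ h h', rem_cons _ h h', ih, e, List.cons_append]

lemma place_rem (p z : ℕ) (h : z ≠ p) (l : List ℕ) :
    place (rem p l) (sh p z) = sh (place l p) (place l z) := by
  induction l generalizing p z with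
  | nil => rfl
  | cons j l ih =>
    rw [sg_place_cons, sg_place_cons]
    by_cases hj : j = p
    · rw [rem_eq _ hj]
      have e1 : sw j p = p + 1 := by rw [sw_apply]; simp [hj]
      have e2 : sh p z = sh (p + 1) (sw j z) := by
        rw [sw_apply]; unfold sh; split_ifs <;> omega
      rw [e1, e2]
      refine ih _ _ ?_
      rw [sw_apply]; split_ifs <;> omega
    · by_cases hj' : j + 1 = p
      · rw [rem_eq' _ hj']
        have e1 : sw j p = p - 1 := by rw [sw_apply]; split_ifs <;> omega
        have e2 : sh p z = sh (p - 1) (sw j z) := by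
          rw [sw_apply]; unfold sh; split_ifs <;> omega
        rw [e1, e2]
        refine ih _ _ ?_
        rw [sw_apply]; split_ifs <;> omega
      · rw [rem_cons _ hj hj', sg_place_cons]
        have e1 : sw j p = p := by rw [sw_apply]; split_ifs <;> omega
        have e2 : sw (if j < p then j else j - 1) (sh p z) = sh p (sw j z) := by
          rw [sw_apply, sw_apply]; unfold sh; split_ifs <;> omega
        rw [e1, e2]
        refine ih _ _ ?_
        rw [sw_apply]; split_ifs <;> omega

lemma rem_length_le (p : ℕ) (l : List ℕ) : (rem p l).length ≤ l.length := by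
  induction l generalizing p with
  | nil => simp [rem_nil]
  | cons j l ih =>
    by_cases hj : j = p
    · rw [rem_eq _ hj]; exact (ih _).trans (by simp)
    · by_cases hj' : j + 1 = p
      · rw [rem_eq' _ hj']; exact (ih _).trans (by simp)
      · rw [rem_cons _ hj hj']; simpa using ih p

lemma rem_letters {n : ℕ} {l : List ℕ} (hl : ∀ j ∈ l, 1 ≤ j ∧ j + 1 ≤ n) {p : ℕ} (h1 : 1 ≤ p)
    (h2 : p ≤ n) : ∀ j ∈ rem p l, 1 ≤ j ∧ j + 1 ≤ n - 1 := by
  induction l generalizing p with
  | nil => simp [rem_nil]
  | cons i l ih =>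
    have hi := hl i (by simp)
    have hl' : ∀ j ∈ l, 1 ≤ j ∧ j + 1 ≤ n := fun j hj => hl j (by simp [hj])
    by_cases hj : i = p
    · rw [rem_eq _ hj]; exact ih hl' (by omega) (by omega)
    · by_cases hj' : i + 1 = p
      · rw [rem_eq' _ hj']; exact ih hl' (by omega) (by omega)
      · rw [rem_cons _ hj hj']
        intro j hjm
        rw [List.mem_cons] at hjm
        rcases hjm with hjm | hjm
        · rw [hjm]; split_ifs <;> omega
        · exact ih hl' h1 h2 j hjm

/-- the particles whose order with the particle `p` has changed -/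
def chg (n p : ℕ) (l : List ℕ) : Finset ℕ :=
  (Icc 1 n).filter (fun z => z ≠ p ∧ ¬ (z < p ↔ place l z < place l p))

lemma card_chg {n : ℕ} {l : List ℕ} (hl : ∀ j ∈ l, 1 ≤ j ∧ j + 1 ≤ n) (p : ℕ) :
    (chg n p l).card + (rem p l).length ≤ l.length := by
  induction l generalizing p with
  | nil =>
    have : chg n p [] = ∅ := by
      rw [chg, Finset.filter_eq_empty_iff]
      rintro z - ⟨-, h⟩
      exact h Iff.rfl
    rw [this]; simp [rem_nil]
  | cons j l ih =>
    have hi := hl j (by simp)
    have hl' : ∀ i ∈ l, 1 ≤ i ∧ i + 1 ≤ n := fun i hi => hl i (by simp [hi])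
    have hsw : ∀ z, sw j z ∈ Icc 1 n ↔ z ∈ Icc 1 n := by
      intro z
      rw [sw_apply, Finset.mem_Icc, Finset.mem_Icc]
      split_ifs <;> omega
    have inj : Function.Injective (sw j) := (sw j).injective
    by_cases hj : j = p
    · rw [rem_eq _ hj, List.length_cons]
      have e1 : sw j p = p + 1 := by rw [sw_apply]; simp [hj]
      have h1 : chg n p (j :: l) ⊆ (chg n (p + 1) l).image (sw j) ∪ {p + 1} := by
        intro z hz
        rw [chg, Finset.mem_filter] at hz
        obtain ⟨a, b, c⟩ := hz
        rw [sg_place_cons, sg_place_cons, e1] at c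
        rw [Finset.mem_union, Finset.mem_image, Finset.mem_singleton]
        by_cases hz : z = p + 1
        · right; exact hz
        · left
          refine ⟨sw j z, ?_, sw_sw j z⟩
          have e3 : sw j z = z := by rw [sw_apply]; split_ifs <;> omega
          rw [chg, Finset.mem_filter, e3]
          rw [e3] at c
          refine ⟨a, hz, ?_⟩
          have : z < p + 1 ↔ z < p := by omega
          rw [this]; exact c
      have h2 := (Finset.card_le_card h1).trans (Finset.card_union_le _ _)
      rw [Finset.card_image_of_injective _ inj, Finset.card_singleton] at h2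
      have := ih hl' (p + 1)
      omega
    · by_cases hj' : j + 1 = p
      · rw [rem_eq' _ hj', List.length_cons]
        have e1 : sw j p = p - 1 := by rw [sw_apply]; split_ifs <;> omega
        have h1 : chg n p (j :: l) ⊆ (chg n (p - 1) l).image (sw j) ∪ {p - 1} := by
          intro z hz
          rw [chg, Finset.mem_filter] at hz
          obtain ⟨a, b, c⟩ := hz
          rw [sg_place_cons, sg_place_cons, e1] at c
          rw [Finset.mem_union, Finset.mem_image, Finset.mem_singleton]
          by_cases hz : z = p - 1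
          · right; exact hz
          · left
            refine ⟨sw j z, ?_, sw_sw j z⟩
            have e3 : sw j z = z := by rw [sw_apply]; split_ifs <;> omega
            rw [chg, Finset.mem_filter, e3]
            rw [e3] at c
            refine ⟨a, hz, ?_⟩
            have : z < p - 1 ↔ z < p := by omega
            rw [this]; exact c
        have h2 := (Finset.card_le_card h1).trans (Finset.card_union_le _ _)
        rw [Finset.card_image_of_injective _ inj, Finset.card_singleton] at h2
        have := ih hl' (p - 1)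
        omega
      · rw [rem_cons _ hj hj', List.length_cons, List.length_cons]
        have e1 : sw j p = p := by rw [sw_apply]; split_ifs <;> omega
        have h1 : chg n p (j :: l) ⊆ (chg n p l).image (sw j) := by
          intro z hz
          rw [chg, Finset.mem_filter] at hz
          obtain ⟨a, b, c⟩ := hz
          rw [sg_place_cons, sg_place_cons, e1] at c
          rw [Finset.mem_image]
          refine ⟨sw j z, ?_, sw_sw j z⟩
          rw [chg, Finset.mem_filter]
          refine ⟨(hsw z).mpr a, ?_, ?_⟩
          · rw [sw_apply]; split_ifs <;> omega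
          · have : sw j z < p ↔ z < p := by rw [sw_apply]; split_ifs <;> omega
            rw [this]; exact c
        have h2 := Finset.card_le_card h1
        rw [Finset.card_image_of_injective _ inj] at h2
        have := ih hl' p
        omega

lemma sg_inv_rev (n : ℕ) : SN8.inv n (rev n) = n.choose 2 := by
  have := inv_add_inv (Supp.one n)
  rw [SN8.inv_one, _root_.inv_one, one_mul] at this
  omega

/-- deleting a particle from a network -/
lemma rem_network {n : ℕ} {k : List ℕ} (hk : IsNetwork n k) {x : ℕ} (h1 : 1 ≤ x) (h2 : x ≤ n) :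
    IsNetwork (n - 1) (rem x k) := by
  obtain ⟨ha, hb, hc⟩ := hk
  have hlet := rem_letters hb h1 h2
  have hplace : ∀ y, 1 ≤ y → y ≤ n - 1 → place (rem x k) y = n - 1 + 1 - y := by
    intro y hy1 hy2
    set z := if y < x then y else y + 1 with hz
    have hzx : z ≠ x := by rw [hz]; split_ifs <;> omega
    have hsh : sh x z = y := by rw [hz]; unfold sh; split_ifs <;> omega
    have hz1 : 1 ≤ z := by rw [hz]; split_ifs <;> omega
    have hz2 : z ≤ n := by rw [hz]; split_ifs <;> omega
    have := place_rem x z hzx k
    rw [hsh, hc x h1 h2, hc z hz1 hz2] at this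
    rw [this]
    by_cases hyx : y < x
    · have : z = y := by rw [hz, if_pos hyx]
      rw [this]; unfold sh; rw [if_neg (by omega)]; omega
    · have : z = y + 1 := by rw [hz, if_neg hyx]
      rw [this]; unfold sh; rw [if_pos (by omega)]; omega
  refine ⟨?_, hlet, hplace⟩
  have hP : P (rem x k) = rev (n - 1) := by
    have : (P (rem x k))⁻¹ = rev (n - 1) := by
      ext y
      by_cases hy : 1 ≤ y ∧ y ≤ n - 1
      · rw [← place_eq, hplace y hy.1 hy.2, rev_apply, if_pos hy]
      · rw [(Supp.P hlet).inv y (by omega), rev_apply, if_neg hy]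
    rw [← rev_inv, ← this, inv_inv]
  have hge := inv_P_le (n := n - 1) _ hlet
  rw [hP, sg_inv_rev] at hge
  have hle := card_chg hb x
  have hchg : (chg n x k).card = n - 1 := by
    have : chg n x k = (Icc 1 n).erase x := by
      ext z
      rw [chg, Finset.mem_filter, Finset.mem_erase, Finset.mem_Icc]
      constructor
      · rintro ⟨a, b, -⟩; exact ⟨b, a⟩
      · rintro ⟨a, b⟩
        refine ⟨b, a, ?_⟩
        rw [hc z b.1 b.2, hc x h1 h2]
        omega
    rw [this, Finset.card_erase_of_mem (Finset.mem_Icc.mpr ⟨h1, h2⟩), Nat.card_Icc]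
    omega
  rw [hchg, ha] at hle
  have hch : n.choose 2 = (n - 1) + (n - 1).choose 2 := by
    obtain ⟨m, rfl⟩ : ∃ m, n = m + 1 := ⟨n - 1, by omega⟩
    rw [Nat.choose_succ_succ' m 1, Nat.choose_one_right]; rfl
  omega

/-- the time of the prefix after a deletion -/
lemma rem_take_length {n : ℕ} {k : List ℕ} (hk : IsNetwork n k) {x : ℕ} (h1 : 1 ≤ x) (h2 : x ≤ n)
    {s : ℕ} (hs : s ≤ n.choose 2) :
    rem x (k.take s) = (rem x k).take (rem x (k.take s)).length ∧
      s ≤ (rem x (k.take s)).length + (n - 1) ∧
      (rem x (k.take s)).length ≤ (n - 1).choose 2 := by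
  have hnet := rem_network hk h1 h2
  have e : rem x k = rem x (k.take s) ++ rem (place (k.take s) x) (k.drop s) := by
    conv_lhs => rw [← List.take_append_drop s k]
    rw [rem_append]
  have hl := hnet.1
  have hlen : (rem x k).length = (rem x (k.take s)).length +
      (rem (place (k.take s) x) (k.drop s)).length := by
    rw [e, List.length_append]
  have hd := rem_length_le (place (k.take s) x) (k.drop s)
  rw [List.length_drop, hk.1] at hd
  have hch : n.choose 2 = (n - 1) + (n - 1).choose 2 := by
    obtain ⟨m, rfl⟩ : ∃ m, n = m + 1 := ⟨n - 1, by omega⟩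
    rw [Nat.choose_succ_succ' m 1, Nat.choose_one_right]; rfl
  refine ⟨?_, by omega, by omega⟩
  rw [e, List.take_left']
  rfl

/-- if some particle `≤ m` is beyond `m`, two deletions lower the number of crossings -/
lemma cross_rem {n m c : ℕ} {l : List ℕ} (hl : ∀ j ∈ l, 1 ≤ j ∧ j + 1 ≤ n) (hm : 1 ≤ m)
    (hmn : m < n) (hc : cross m l = c + 1) :
    ∃ x y, 1 ≤ x ∧ x ≤ n ∧ 1 ≤ y ∧ y ≤ n - 1 ∧ cross (m - 1) (rem y (rem x l)) ≤ c := by
  have hpos : 0 < cross m l := by omega
  rw [cross, Finset.card_pos] at hpos
  obtain ⟨x, hx⟩ := hpos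
  rw [Finset.mem_filter, Finset.mem_Icc] at hx
  obtain ⟨⟨hx1, hx2⟩, hx3⟩ := hx
  obtain ⟨y, hy1, hy2, hy3⟩ : ∃ y, m < y ∧ y ≤ n ∧ place l y ≤ m := by
    by_contra hcon
    push Not at hcon
    have h1 : ((insert x (Icc (m + 1) n)).image (place l)) ⊆ Icc (m + 1) n := by
      intro q hq
      rw [Finset.mem_image] at hq
      obtain ⟨z, hz, rfl⟩ := hq
      rw [Finset.mem_insert, Finset.mem_Icc] at hz
      rw [Finset.mem_Icc]
      rcases hz with rfl | hz
      · exact ⟨hx3, (sg_place_mem hl hx1 (by omega)).2⟩
      · exact ⟨hcon z (by omega) hz.2, (sg_place_mem hl (by omega) hz.2).2⟩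
    have h2 := Finset.card_le_card h1
    rw [Finset.card_image_of_injective _ (fun a b h => place_inj l h),
      Finset.card_insert_of_notMem (by rw [Finset.mem_Icc]; omega)] at h2
    omega
  refine ⟨x, y - 1, hx1, by omega, by omega, by omega, ?_⟩
  have hsub : ∀ w ∈ (Icc 1 (m - 1)).filter (fun w => m - 1 < place (rem (y - 1) (rem x l)) w),
      (if w < x then w else w + 1) ∈ ((Icc 1 m).filter (fun z => m < place l z)).erase x := by
    intro w hw
    rw [Finset.mem_filter, Finset.mem_Icc] at hw
    obtain ⟨⟨hw1, hw2⟩, hw3⟩ := hw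
    set z := if w < x then w else w + 1 with hz
    have hzx : z ≠ x := by rw [hz]; split_ifs <;> omega
    have hsh : sh x z = w := by rw [hz]; unfold sh; split_ifs <;> omega
    have hz1 : 1 ≤ z := by rw [hz]; split_ifs <;> omega
    have hz2 : z ≤ m := by rw [hz]; split_ifs <;> omega
    rw [Finset.mem_erase, Finset.mem_filter, Finset.mem_Icc]
    refine ⟨hzx, ⟨hz1, hz2⟩, ?_⟩
    by_contra hcon
    have e1 : sh (y - 1) w = w := by unfold sh; rw [if_pos (by omega)]
    have e2 := place_rem (y - 1) w (by omega) (rem x l)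
    have e3 := place_rem x z hzx l
    have e4 := place_rem x y (by omega) l
    have e5 : sh x y = y - 1 := by unfold sh; rw [if_neg (by omega)]
    rw [hsh] at e3
    rw [e5] at e4
    rw [e1, e3, e4] at e2
    have e6 : place l z ≠ place l y := fun h => by have := place_inj l h; omega
    rw [e2] at hw3
    have e7 : sh (place l x) (place l y) = place l y := by unfold sh; rw [if_pos (by omega)]
    have e8 : sh (place l x) (place l z) = place l z := by unfold sh; rw [if_pos (by omega)]
    rw [e7, e8] at hw3
    unfold sh at hw3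
    split_ifs at hw3 <;> omega
  have hle := Finset.card_le_card_of_injOn (fun w => if w < x then w else w + 1)
    (fun w hw => hsub w hw) (by
      intro a _ b _ hab
      simp only at hab
      split_ifs at hab <;> omega)
  rw [Finset.card_erase_of_mem (by
    rw [Finset.mem_filter, Finset.mem_Icc]; exact ⟨⟨hx1, hx2⟩, hx3⟩)] at hle
  have hc' : ((Icc 1 m).filter (fun z => m < place l z)).card = c + 1 := hc
  rw [hc'] at hle
  exact hle

theorem U_step {n m s₀ d : ℕ} (hm : 1 ≤ m) (hmn : m < n) (hn : 3 ≤ n) :
    (U n m s₀ (d + 1)).ncard ≤ (U n m s₀ 0).ncard +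
      n ^ 2 * ((n.choose 2).choose (n - 1) * 2 ^ (n - 1)) *
        (((n - 1).choose 2).choose (n - 2) * 2 ^ (n - 2)) *
          (U (n - 2) (m - 1) (s₀ - 2 * n) d).ncard := by
  classical
  set S := U (n - 2) (m - 1) (s₀ - 2 * n) d with hS
  have hSfin : S.Finite := (networks_finite (n - 2)).subset (fun k hk => hk.1)
  have hSlen : ∀ l ∈ S, l.length = (n - 2).choose 2 := fun l hl => hl.1.1
  have hch1 : n.choose 2 = (n - 1) + (n - 1).choose 2 := by
    obtain ⟨m, rfl⟩ : ∃ m, n = m + 1 := ⟨n - 1, by omega⟩
    rw [Nat.choose_succ_succ' m 1, Nat.choose_one_right]; rfl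
  have hch2 : (n - 1).choose 2 = (n - 2) + (n - 2).choose 2 := by
    obtain ⟨m, rfl⟩ : ∃ m, n = m + 2 := ⟨n - 2, by omega⟩
    have e1 : m + 2 - 1 = m + 1 := by omega
    have e2 : m + 2 - 2 = m := by omega
    rw [e1, e2, Nat.choose_succ_succ' m 1, Nat.choose_one_right]
  set T : ℕ → Set (List ℕ) := fun y => {l | l.length = (n - 1).choose 2 ∧ rem y l ∈ S} with hT
  have hTb : ∀ y, (T y).Finite ∧ (T y).ncard ≤
      (((n - 1).choose 2).choose (n - 2) * 2 ^ (n - 2)) * S.ncard := by
    intro y
    have := fibre_set (p := y) (N := (n - 1).choose 2) hSfin hSlen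
    have e1 : (n - 1).choose 2 - (n - 2).choose 2 = n - 2 := by omega
    have e2 : ((n - 1).choose 2).choose ((n - 2).choose 2) =
        ((n - 1).choose 2).choose (n - 2) := by
      rw [← Nat.choose_symm (by omega : (n - 2).choose 2 ≤ (n - 1).choose 2), e1]
    rw [e1, e2] at this
    exact this
  set R : ℕ × ℕ → Set (List ℕ) := fun q => {l | l.length = n.choose 2 ∧ rem q.1 l ∈ T q.2} with hR
  have hRb : ∀ q, (R q).Finite ∧ (R q).ncard ≤
      ((n.choose 2).choose (n - 1) * 2 ^ (n - 1)) *
        ((((n - 1).choose 2).choose (n - 2) * 2 ^ (n - 2)) * S.ncard) := by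
    intro q
    have := fibre_set (p := q.1) (N := n.choose 2) (hTb q.2).1 (fun l hl => hl.1)
    have e1 : n.choose 2 - (n - 1).choose 2 = n - 1 := by omega
    have e2 : (n.choose 2).choose ((n - 1).choose 2) = (n.choose 2).choose (n - 1) := by
      rw [← Nat.choose_symm (by omega : (n - 1).choose 2 ≤ n.choose 2), e1]
    rw [e1, e2] at this
    exact ⟨this.1, this.2.trans (Nat.mul_le_mul_left _ (hTb q.2).2)⟩
  have hUfin : (U n m s₀ 0).Finite := (networks_finite n).subset (fun k hk => hk.1)
  set B : Finset (List ℕ) := (Icc 1 n ×ˢ Icc 1 n).biUnion (fun q => (hRb q).1.toFinset) with hB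
  have hsub : U n m s₀ (d + 1) ⊆ U n m s₀ 0 ∪ (B : Set (List ℕ)) := by
    rintro k ⟨hk, s, hs1, hs2, hs3⟩
    by_cases hc : cross m (k.take s) = 0
    · left; exact ⟨hk, s, hs1, hs2, by omega⟩
    · right
      obtain ⟨c, hc'⟩ : ∃ c, cross m (k.take s) = c + 1 := ⟨cross m (k.take s) - 1, by omega⟩
      have hlt : ∀ j ∈ k.take s, 1 ≤ j ∧ j + 1 ≤ n :=
        fun j hj => hk.2.1 j (List.mem_of_mem_take hj)
      obtain ⟨x, y, hx1, hx2, hy1, hy2, hxy⟩ := cross_rem hlt hm hmn hc'
      have hk1 := rem_network hk hx1 hx2
      obtain ⟨a1, a2, a3⟩ := rem_take_length hk hx1 hx2 hs2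
      set s1 := (rem x (k.take s)).length with hs1'
      have hk2 := rem_network hk1 hy1 hy2
      obtain ⟨b1, b2, b3⟩ := rem_take_length hk1 hy1 hy2 a3
      rw [← a1] at b1 b2 b3
      have e12 : n - 1 - 1 = n - 2 := by omega
      rw [e12] at hk2 b2 b3
      rw [hB, Finset.coe_biUnion, Set.mem_iUnion₂]
      refine ⟨(x, y), ?_, ?_⟩
      · simp only [Finset.coe_product, Finset.coe_Icc, Set.mem_prod, Set.mem_Icc]
        omega
      · rw [Set.Finite.coe_toFinset]
        refine ⟨hk.1, hk1.1, hk2, (rem y (rem x (k.take s))).length, by omega, b3, ?_⟩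
        rw [← b1]
        omega
  have h1 := Set.ncard_le_ncard hsub (hUfin.union (Finset.finite_toSet B))
  have h2 := Set.ncard_union_le (U n m s₀ 0) (B : Set (List ℕ))
  rw [Set.ncard_coe_finset] at h2
  have h3 : B.card ≤ (Icc 1 n ×ˢ Icc 1 n).card * (((n.choose 2).choose (n - 1) * 2 ^ (n - 1)) *
        ((((n - 1).choose 2).choose (n - 2) * 2 ^ (n - 2)) * S.ncard)) := by
    refine Finset.card_biUnion_le_card_mul _ _ _ ?_
    intro q _
    rw [← Set.ncard_eq_toFinset_card _ (hRb q).1]
    exact (hRb q).2
  rw [Finset.card_product, Nat.card_Icc] at h3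
  have e : (n + 1 - 1) * (n + 1 - 1) * (((n.choose 2).choose (n - 1) * 2 ^ (n - 1)) *
        ((((n - 1).choose 2).choose (n - 2) * 2 ^ (n - 2)) * S.ncard)) =
      n ^ 2 * ((n.choose 2).choose (n - 1) * 2 ^ (n - 1)) *
        (((n - 1).choose 2).choose (n - 2) * 2 ^ (n - 2)) * S.ncard := by
    have : n + 1 - 1 = n := by omega
    rw [this]; ring
  rw [e] at h3
  omega

end Pool.Agent.SNL63
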