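import Pool.Agent.SNL63.NetEG
import Pool.Agent.SNL63.Surg
import Pool.Agent.SNL63.ALe
import Pool.Agent.SNL63.Asm
import Pool.Agent.SNL63.Event
import Pool.Agent.SNL63.Ends

/-!
# The bound for the events about the permutation matrix measures
-/

namespace Pool.Agent.SNL63

open Pool.Agent.SN8 MeasureTheory Set Filter Topology
open scoped ENNReal Real

/-- **Every place of the bulk is crossed by a positive fraction of the particles, up to a probability `exp (- c n ^ 2)`.** -/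
theorem low_bound' {ε : ℝ} (hε : 0 < ε) (hε1 : ε < 1) :
    ∃ δ > (0 : ℝ), ∃ c₁ > (0 : ℝ), ∃ c₂ > (0 : ℝ), ∀ n : ℕ, 2 ≤ n →
      prob n (Low ε δ n) ≤ c₁ * Real.exp (-c₂ * (n : ℝ) ^ 2) ∧
      prob n (Low' ε δ n) ≤ c₁ * Real.exp (-c₂ * (n : ℝ) ^ 2) :=
  low_bound (U_bound_of (fun _ _ _ _ _ _ a b c d e f g => A_le a b c d e f g)
    (fun _ _ _ _ a b c => U_step a b c) nets_eq (fun _ _ _ a b c => cross_zero_le a b c)) hε hε1

end Pool.Agent.SNL63
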