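import Pool.Agent.SNL63.SDefs

/-!
# The exponential moment of the sum over the removed corners
-/

namespace Pool.Agent.SNL63

open Pool.Agent.SN8 MeasureTheory Set Filter Topology
open scoped ENNReal Real

theorem chern_exp_le {x : ℝ} (h : |x| ≤ 1) : Real.exp x ≤ 1 + x + x ^ 2 := by
  have h1 := Real.abs_exp_sub_one_sub_id_le h
  have h2 := le_abs_self (Real.exp x - 1 - x)
  linarith

theorem chern_content {n i : ℕ} {lam : ℕ → ℕ} (hst : ∀ i, lam i ≤ n - 1 - i) (hi : i ∈ corners n lam) :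
    ((lam i : ℝ) - 1 - i) / n ∈ Icc (-1 : ℝ) 1 := by
  have h1 := mem_corners.1 hi
  have hn : (0 : ℝ) < n := by
    have : 0 < n := by omega
    exact_mod_cast this
  have h2 : (lam i : ℝ) ≤ n := by
    have := hst i
    have : lam i ≤ n := by omega
    exact_mod_cast this
  have h3 : (1 : ℝ) ≤ lam i := by
    have : 1 ≤ lam i := by omega
    exact_mod_cast this
  have h4 : (i : ℝ) + 1 ≤ n := by exact_mod_cast h1.1
  have h5 : (0 : ℝ) ≤ i := Nat.cast_nonneg i
  constructor
  · rw [le_div_iff₀ hn]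
    linarith
  · rw [div_le_one hn]
    linarith

theorem chern_aux {n k : ℕ} {g : ℝ → ℝ} {θ m : ℝ} (hg : ∀ u ∈ Icc (-1 : ℝ) 1, 0 ≤ g u ∧ g u ≤ 1)
    (hθ : |θ| ≤ 1)
    (hm : ∀ (k' : ℕ) (lam : ℕ → ℕ), Shape n lam → (∀ i, lam i ≤ n - 1 - i) →
      ∑ i ∈ Finset.range n, lam i = k' → k ≤ k' → θ * hmean n lam g ≤ θ * m * k') :
    ∀ (s : ℕ) (lam : ℕ → ℕ), Shape n lam → (∀ i, lam i ≤ n - 1 - i) → ∑ i ∈ Finset.range n, lam i = s + k →
      BW n (fun i c => Real.exp (θ * g (((c : ℝ) - 1 - i) / n))) s k lam ≤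
        Real.exp (s * (θ * m + θ ^ 2)) * F n (s + k) lam := by
  intro s
  induction s with
  | zero =>
    intro lam _ _ _
    rw [BW, Nat.cast_zero, zero_mul, Real.exp_zero, one_mul, Nat.zero_add]
  | succ s ih =>
    intro lam h hst hsum
    have hsum' : ∑ i ∈ Finset.range n, lam i = (s + k) + 1 := by omega
    obtain ⟨E, hE⟩ : ∃ E, E = Real.exp (s * (θ * m + θ ^ 2)) := ⟨_, rfl⟩
    have hE0 : 0 < E := by
      rw [hE]
      exact Real.exp_pos _
    have hterm : ∀ i ∈ corners n lam, Real.exp (θ * g (((lam i : ℝ) - 1 - i) / n)) *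
        BW n (fun i c => Real.exp (θ * g (((c : ℝ) - 1 - i) / n))) s k (dec lam i) ≤
        E * ((1 + θ * g (((lam i : ℝ) - 1 - i) / n) + θ ^ 2) * F n (s + k) (dec lam i)) := by
      intro i hi
      have hi' := sum_dec hi
      have hst' : ∀ j, dec lam i j ≤ n - 1 - j := by
        intro j
        by_cases hj : j = i
        · rw [hj, dec_self]
          have := hst i
          omega
        · rw [dec_ne _ hj]
          exact hst j
      have hIH := ih (dec lam i) (shape_dec h hi) hst' (by omega)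
      rw [← hE] at hIH
      have hgi := hg _ (chern_content hst hi)
      obtain ⟨γ, hγ⟩ : ∃ γ, γ = g (((lam i : ℝ) - 1 - i) / n) := ⟨_, rfl⟩
      rw [← hγ] at hgi ⊢
      have h1 : |θ * γ| ≤ 1 := by
        rw [abs_mul, abs_of_nonneg hgi.1]
        calc |θ| * γ ≤ 1 * 1 := mul_le_mul hθ hgi.2 hgi.1 zero_le_one
          _ = 1 := one_mul 1
      have h2 := chern_exp_le h1
      have h3 : (θ * γ) ^ 2 ≤ θ ^ 2 := by
        rw [mul_pow]
        have : γ ^ 2 ≤ 1 := pow_le_one₀ hgi.1 hgi.2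
        nlinarith [sq_nonneg θ]
      have hF : (0 : ℝ) ≤ F n (s + k) (dec lam i) := Nat.cast_nonneg _
      calc Real.exp (θ * γ) * BW n (fun i c => Real.exp (θ * g (((c : ℝ) - 1 - i) / n))) s k (dec lam i)
          ≤ Real.exp (θ * γ) * (E * F n (s + k) (dec lam i)) :=
            mul_le_mul_of_nonneg_left hIH (Real.exp_pos _).le
        _ = Real.exp (θ * γ) * (E * F n (s + k) (dec lam i)) := rfl
        _ ≤ (1 + θ * γ + θ ^ 2) * (E * F n (s + k) (dec lam i)) :=
            mul_le_mul_of_nonneg_right (by linarith) (mul_nonneg hE0.le hF)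
        _ = _ := by ring
    have hBW : BW n (fun i c => Real.exp (θ * g (((c : ℝ) - 1 - i) / n))) (s + 1) k lam =
        ∑ i ∈ corners n lam, Real.exp (θ * g (((lam i : ℝ) - 1 - i) / n)) *
        BW n (fun i c => Real.exp (θ * g (((c : ℝ) - 1 - i) / n))) s k (dec lam i) := rfl
    rw [hBW]
    refine (Finset.sum_le_sum hterm).trans ?_
    rw [← Finset.mul_sum]
    have hk0 : (0 : ℝ) < ((s + k : ℕ) : ℝ) + 1 := by positivity
    have hk1 : (((s + k + 1 : ℕ)) : ℝ) = ((s + k : ℕ) : ℝ) + 1 := by push_cast; ring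
    -- multiply by the number of cells
    have h1 : (((s + k : ℕ) : ℝ) + 1) * ∑ i ∈ corners n lam,
        (1 + θ * g (((lam i : ℝ) - 1 - i) / n) + θ ^ 2) * F n (s + k) (dec lam i) =
        ((1 + θ ^ 2) * (((s + k : ℕ) : ℝ) + 1) + θ * hmean n lam g) * F n (s + k + 1) lam := by
      have e1 : ∑ i ∈ corners n lam, share n lam i = ((s + k : ℕ) : ℝ) + 1 := by
        rw [sum_share h, ← hk1, ← hsum']
        push_cast
        rfl
      rw [← e1, hmean, Finset.mul_sum, Finset.mul_sum, Finset.mul_sum, ← Finset.sum_add_distrib, Finset.sum_mul]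
      rw [e1]
      refine Finset.sum_congr rfl fun i hi => ?_
      have e2 := corner_share h hsum' hi
      calc (((s + k : ℕ) : ℝ) + 1) * ((1 + θ * g (((lam i : ℝ) - 1 - i) / n) + θ ^ 2) * F n (s + k) (dec lam i))
          = (1 + θ * g (((lam i : ℝ) - 1 - i) / n) + θ ^ 2) *
            ((((s + k : ℕ) : ℝ) + 1) * F n (s + k) (dec lam i)) := by ring
        _ = _ := by
          rw [e2]
          ring
    have h2 : ∑ i ∈ corners n lam, (1 + θ * g (((lam i : ℝ) - 1 - i) / n) + θ ^ 2) * F n (s + k) (dec lam i) ≤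
        (1 + θ * m + θ ^ 2) * F n (s + k + 1) lam := by
      refine le_of_mul_le_mul_left ?_ hk0
      rw [h1, ← mul_assoc]
      refine mul_le_mul_of_nonneg_right ?_ (Nat.cast_nonneg _)
      have e3 := hm _ lam h hst hsum' (by omega)
      rw [hk1] at e3
      linarith
    have h3 : 1 + θ * m + θ ^ 2 ≤ Real.exp (θ * m + θ ^ 2) := by
      have := Real.add_one_le_exp (θ * m + θ ^ 2)
      linarith
    have h4 : Real.exp (((s + 1 : ℕ) : ℝ) * (θ * m + θ ^ 2)) = E * Real.exp (θ * m + θ ^ 2) := by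
      rw [hE, ← Real.exp_add]
      congr 1
      push_cast
      ring
    rw [h4, show s + 1 + k = s + k + 1 by omega, mul_assoc]
    refine mul_le_mul_of_nonneg_left (h2.trans ?_) hE0.le
    exact mul_le_mul_of_nonneg_right h3 (Nat.cast_nonneg _)

/-- **The exponential moment.** -/
theorem BW_le {n s k : ℕ} {g : ℝ → ℝ} {θ m : ℝ} (hg : ∀ u ∈ Icc (-1 : ℝ) 1, 0 ≤ g u ∧ g u ≤ 1)
    (hθ : |θ| ≤ 1) (hsk : s + k = n.choose 2)
    (hm : ∀ (k' : ℕ) (lam : ℕ → ℕ), Shape n lam → (∀ i, lam i ≤ n - 1 - i) →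
      ∑ i ∈ Finset.range n, lam i = k' → k ≤ k' → θ * hmean n lam g ≤ θ * m * k') :
    BW n (fun i c => Real.exp (θ * g (((c : ℝ) - 1 - i) / n))) s k (stair n) ≤
      Real.exp (s * (θ * m + θ ^ 2)) * F n (n.choose 2) (stair n) := by
  rw [← hsk]
  exact chern_aux hg hθ hm s (stair n) (shape_stair n) (fun i => le_rfl) (by rw [sum_stair, hsk])

end Pool.Agent.SNL63
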