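import Pool.Agent.SNL63.PDefs

/-!
# The lower density of crossings: calculus
-/

namespace Pool.Agent.SNL63

open Pool.Agent.SN8 MeasureTheory Set Filter Topology
open scoped ENNReal Real

theorem DC_hasDeriv {R ζ u : ℝ} (hR : 0 < R) (hζ : R < ζ) (hu : u ∈ Ioo (-R) R) :
    HasDerivAt (fun u => √(R ^ 2 - u ^ 2) / (ζ - u) - Real.arcsin (u / R) +
      ζ / √(ζ ^ 2 - R ^ 2) * Real.arcsin ((ζ * u - R ^ 2) / (R * (ζ - u)))) (√(R ^ 2 - u ^ 2) / (ζ - u) ^ 2) u := by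
  obtain ⟨hu1, hu2⟩ := hu
  have hs0 : 0 < R ^ 2 - u ^ 2 := by nlinarith
  have hw0 : 0 < ζ ^ 2 - R ^ 2 := by nlinarith
  obtain ⟨s, hs⟩ : ∃ s, s = √(R ^ 2 - u ^ 2) := ⟨_, rfl⟩
  obtain ⟨w, hw⟩ : ∃ w, w = √(ζ ^ 2 - R ^ 2) := ⟨_, rfl⟩
  have hsp : 0 < s := by rw [hs]; exact Real.sqrt_pos.2 hs0
  have hwp : 0 < w := by rw [hw]; exact Real.sqrt_pos.2 hw0
  have hs2 : s ^ 2 = R ^ 2 - u ^ 2 := by rw [hs]; exact Real.sq_sqrt hs0.le
  have hw2 : w ^ 2 = ζ ^ 2 - R ^ 2 := by rw [hw]; exact Real.sq_sqrt hw0.le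
  have hd : 0 < ζ - u := by linarith
  have hid : HasDerivAt (fun u : ℝ => u) 1 u := hasDerivAt_id u
  -- the square root
  have h1 : HasDerivAt (fun u : ℝ => √(R ^ 2 - u ^ 2)) (-u / s) u := by
    have h2 : HasDerivAt (fun u : ℝ => R ^ 2 - u ^ 2) (-(2 * u)) u := by
      have := (hid.pow 2).const_sub (R ^ 2)
      simpa using this
    have h3 := h2.sqrt hs0.ne'
    rw [← hs] at h3
    convert h3 using 1
    field_simp
  have h2 : HasDerivAt (fun u : ℝ => ζ - u) (-1) u := by simpa using hid.const_sub ζ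
  have h3 := h1.div h2 hd.ne'
  rw [← hs] at h3
  -- the first arcsine
  have h4 : HasDerivAt (fun u : ℝ => Real.arcsin (u / R)) (1 / s) u := by
    have h5 : HasDerivAt (fun u : ℝ => u / R) (1 / R) u := hid.div_const R
    have h6 : u / R ≠ -1 := by
      intro h
      rw [div_eq_iff hR.ne'] at h
      linarith
    have h7 : u / R ≠ 1 := by
      intro h
      rw [div_eq_iff hR.ne'] at h
      linarith
    have h8 := (Real.hasDerivAt_arcsin h6 h7).comp u h5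
    have h9 : √(1 - (u / R) ^ 2) = s / R := by
      have : 1 - (u / R) ^ 2 = (s / R) ^ 2 := by
        rw [div_pow, div_pow, hs2]
        field_simp
      rw [this]
      exact Real.sqrt_sq (by positivity)
    rw [h9] at h8
    have h8' : HasDerivAt (fun u : ℝ => Real.arcsin (u / R)) (1 / (s / R) * (1 / R)) u := h8
    refine h8'.congr_deriv ?_
    field_simp
  -- the second arcsine
  have h10 : HasDerivAt (fun u : ℝ => Real.arcsin ((ζ * u - R ^ 2) / (R * (ζ - u)))) (w / ((ζ - u) * s)) u := by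
    have h11 : HasDerivAt (fun u : ℝ => ζ * u - R ^ 2) ζ u := by
      simpa using (hid.const_mul ζ).sub_const (R ^ 2)
    have h12 : HasDerivAt (fun u : ℝ => R * (ζ - u)) (R * (-1)) u := h2.const_mul R
    have h13 := h11.div h12 (by positivity)
    have hy : 1 - ((ζ * u - R ^ 2) / (R * (ζ - u))) ^ 2 = (w * s / (R * (ζ - u))) ^ 2 := by
      rw [div_pow, div_pow, mul_pow w s, hw2, hs2]
      field_simp
      ring
    have hy0 : 0 < 1 - ((ζ * u - R ^ 2) / (R * (ζ - u))) ^ 2 := by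
      rw [hy]
      positivity
    have h14 : (ζ * u - R ^ 2) / (R * (ζ - u)) ≠ -1 := by
      intro h
      rw [h] at hy0
      norm_num at hy0
    have h15 : (ζ * u - R ^ 2) / (R * (ζ - u)) ≠ 1 := by
      intro h
      rw [h] at hy0
      norm_num at hy0
    have h16 := (Real.hasDerivAt_arcsin h14 h15).comp u h13
    have h17 : √(1 - ((ζ * u - R ^ 2) / (R * (ζ - u))) ^ 2) = w * s / (R * (ζ - u)) := by
      rw [hy]
      exact Real.sqrt_sq (by positivity)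
    rw [h17] at h16
    have h16' : HasDerivAt (fun u : ℝ => Real.arcsin ((ζ * u - R ^ 2) / (R * (ζ - u))))
        (1 / (w * s / (R * (ζ - u))) *
          ((ζ * (R * (ζ - u)) - (ζ * u - R ^ 2) * (R * -1)) / (R * (ζ - u)) ^ 2)) u := h16
    refine h16'.congr_deriv ?_
    have h18 : ζ * (R * (ζ - u)) - (ζ * u - R ^ 2) * (R * (-1)) = R * w ^ 2 := by
      rw [hw2]
      ring
    rw [h18]
    field_simp
  have h19 : HasDerivAt (fun u => √(R ^ 2 - u ^ 2) / (ζ - u) - Real.arcsin (u / R) +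
      ζ / w * Real.arcsin ((ζ * u - R ^ 2) / (R * (ζ - u))))
      ((-u / s * (ζ - u) - s * -1) / (ζ - u) ^ 2 - 1 / s + ζ / w * (w / ((ζ - u) * s))) u :=
    (h3.sub h4).add (h10.const_mul (ζ / w))
  rw [← hw]
  refine h19.congr_deriv ?_
  rw [← hs]
  field_simp
  ring

theorem DC_int {R ζ : ℝ} (hR : 0 ≤ R) (hζ : R < ζ) :
    ∫ u in (-R)..R, √(R ^ 2 - u ^ 2) / (ζ - u) ^ 2 = π * (ζ / √(ζ ^ 2 - R ^ 2) - 1) := by
  rcases hR.eq_or_lt with h0 | h0
  · have hζ0 : 0 < ζ := by linarith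
    rw [← h0]
    simp only [neg_zero, intervalIntegral.integral_same, zero_pow two_ne_zero, sub_zero,
      Real.sqrt_sq hζ0.le, div_self hζ0.ne', sub_self, mul_zero]
  · have hw0 : 0 < ζ ^ 2 - R ^ 2 := by nlinarith
    have hne : ∀ u ∈ Icc (-R) R, ζ - u ≠ 0 := fun u hu => by
      have := hu.2
      linarith
    have hcont : ContinuousOn (fun u => √(R ^ 2 - u ^ 2) / (ζ - u) - Real.arcsin (u / R) +
        ζ / √(ζ ^ 2 - R ^ 2) * Real.arcsin ((ζ * u - R ^ 2) / (R * (ζ - u)))) (Icc (-R) R) := by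
      refine ((ContinuousOn.div (by fun_prop) (by fun_prop) hne).sub ?_).add (continuousOn_const.mul ?_)
      · exact (Real.continuous_arcsin.comp (continuous_id.div_const R)).continuousOn
      · refine Real.continuous_arcsin.comp_continuousOn (ContinuousOn.div (by fun_prop) (by fun_prop) ?_)
        intro u hu
        exact mul_ne_zero h0.ne' (hne u hu)
    have hint : IntervalIntegrable (fun u => √(R ^ 2 - u ^ 2) / (ζ - u) ^ 2) volume (-R) R := by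
      apply ContinuousOn.intervalIntegrable
      rw [uIcc_of_le (by linarith)]
      exact ContinuousOn.div (by fun_prop) (by fun_prop) fun u hu => pow_ne_zero 2 (hne u hu)
    rw [intervalIntegral.integral_eq_sub_of_hasDerivAt_of_le (by linarith) hcont
      (fun u hu => DC_hasDeriv h0 hζ hu) hint]
    have e1 : (ζ * R - R ^ 2) / (R * (ζ - R)) = 1 := by
      have : ζ - R ≠ 0 := by linarith
      field_simp
    have e2 : (ζ * -R - R ^ 2) / (R * (ζ - -R)) = -1 := by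
      have : ζ + R ≠ 0 := by linarith
      have h3 : ζ - -R = ζ + R := by ring
      rw [h3]
      field_simp
      ring
    have e3 : R / R = 1 := div_self h0.ne'
    have e4 : -R / R = -1 := by rw [neg_div, e3]
    simp only [e1, e2, e3, e4, Real.arcsin_neg, Real.arcsin_one, neg_sq, sub_self, Real.sqrt_zero, zero_div]
    ring

/-- the derivative in the time -/
theorem DC_hasDeriv_log {ζ x : ℝ} (hζ : 1 < ζ) (hx0 : 0 ≤ x) (hx1 : x < 1) :
    HasDerivAt (fun x => Real.log ((1 - x) * Hlim x ζ / √(ζ ^ 2 - 1)))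
      (1 / (1 - x ^ 2) * (ζ / √(ζ ^ 2 - (1 - x ^ 2)) - 1)) x := by
  have hr : 0 < ζ ^ 2 - 1 := by nlinarith
  have hw0 : 0 < ζ ^ 2 - (1 - x ^ 2) := by nlinarith [sq_nonneg x]
  obtain ⟨w, hw⟩ : ∃ w, w = √(ζ ^ 2 - (1 - x ^ 2)) := ⟨_, rfl⟩
  have hwp : 0 < w := by rw [hw]; exact Real.sqrt_pos.2 hw0
  have hw2 : w ^ 2 = ζ ^ 2 - (1 - x ^ 2) := by rw [hw]; exact Real.sq_sqrt hw0.le
  have hid : HasDerivAt (fun x : ℝ => x) 1 x := hasDerivAt_id x
  have hq : 0 < √(ζ ^ 2 - 1) := Real.sqrt_pos.2 hr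
  -- simplify the function
  have hfun : ∀ y : ℝ, y ≠ 1 → -1 < y → (1 - y) * Hlim y ζ / √(ζ ^ 2 - 1) =
      (y * ζ + √(ζ ^ 2 - (1 - y ^ 2))) / (1 + y) / √(ζ ^ 2 - 1) := by
    intro y hy hy'
    unfold Hlim
    have h1 : 1 - y ≠ 0 := sub_ne_zero.2 (Ne.symm hy)
    have h2 : 1 + y ≠ 0 := by linarith
    have h3 : 1 - y ^ 2 = (1 - y) * (1 + y) := by ring
    rw [h3]
    congr 1
    field_simp
  have hev : (fun y => Real.log ((1 - y) * Hlim y ζ / √(ζ ^ 2 - 1))) =ᶠ[𝓝 x]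
      fun y => Real.log ((y * ζ + √(ζ ^ 2 - (1 - y ^ 2))) / (1 + y) / √(ζ ^ 2 - 1)) := by
    filter_upwards [Ioo_mem_nhds (show -1 < x by linarith) hx1] with y hy
    rw [hfun y hy.2.ne hy.1]
  refine HasDerivAt.congr_of_eventuallyEq ?_ hev
  have h1 : HasDerivAt (fun y : ℝ => √(ζ ^ 2 - (1 - y ^ 2))) (x / w) x := by
    have h2 : HasDerivAt (fun y : ℝ => ζ ^ 2 - (1 - y ^ 2)) (2 * x) x := by
      have := ((hid.pow 2).const_sub 1).const_sub (ζ ^ 2)
      simpa using this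
    have h3 := h2.sqrt hw0.ne'
    rw [← hw] at h3
    convert h3 using 1
    field_simp
  have h2 : HasDerivAt (fun y : ℝ => y * ζ + √(ζ ^ 2 - (1 - y ^ 2))) (ζ + x / w) x := by
    have h := (hid.mul_const ζ).add h1
    rw [one_mul] at h
    exact h
  have h3 : HasDerivAt (fun y : ℝ => 1 + y) 1 x := hid.const_add 1
  have hA : 0 < x * ζ + w := by
    have : 0 ≤ x * ζ := mul_nonneg hx0 (by linarith)
    linarith
  have h1x : 0 < 1 + x := by linarith
  have h4 : HasDerivAt (fun y : ℝ => (y * ζ + √(ζ ^ 2 - (1 - y ^ 2))) / (1 + y) / √(ζ ^ 2 - 1))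
      (((ζ + x / w) * (1 + x) - (x * ζ + √(ζ ^ 2 - (1 - x ^ 2))) * 1) / (1 + x) ^ 2 / √(ζ ^ 2 - 1)) x :=
    (h2.div h3 h1x.ne').div_const (√(ζ ^ 2 - 1))
  have h5 := h4.log (by
    rw [← hw]
    positivity)
  rw [← hw] at h5 ⊢
  refine h5.congr_deriv (Eq.symm ?_)
  have h1x2 : 0 < 1 - x ^ 2 := by nlinarith
  have key : (x * ζ + w) * (w - x * ζ) = (ζ ^ 2 - 1) * (1 - x ^ 2) := by
    have : (x * ζ + w) * (w - x * ζ) = w ^ 2 - x ^ 2 * ζ ^ 2 := by ring
    rw [this, hw2]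
    ring
  have key2 : (ζ * w + x) * (w - x * ζ) = (ζ ^ 2 - 1) * (ζ - x * w) := by
    have : (ζ * w + x) * (w - x * ζ) = ζ * w ^ 2 - x * ζ ^ 2 * w + x * w - x ^ 2 * ζ := by ring
    rw [this, hw2]
    ring
  have hwx : w - x * ζ ≠ 0 := by
    intro h
    rw [h, mul_zero] at key
    have : 0 < (ζ ^ 2 - 1) * (1 - x ^ 2) := by positivity
    linarith
  have key3 : (ζ * w + x) * (1 - x ^ 2) = (ζ - x * w) * (x * ζ + w) := by
    apply mul_right_cancel₀ hwx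
    have e1 : (ζ * w + x) * (1 - x ^ 2) * (w - x * ζ) = (ζ * w + x) * (w - x * ζ) * (1 - x ^ 2) := by ring
    have e2 : (ζ - x * w) * (x * ζ + w) * (w - x * ζ) = (ζ - x * w) * ((x * ζ + w) * (w - x * ζ)) := by ring
    rw [e1, e2, key, key2]
    ring
  have h6 : ((ζ + x / w) * (1 + x) - (x * ζ + w) * 1) / (1 + x) ^ 2 / √(ζ ^ 2 - 1) /
      ((x * ζ + w) / (1 + x) / √(ζ ^ 2 - 1)) = (ζ * w + x) / (w * (x * ζ + w)) - 1 / (1 + x) := by
    field_simp
  rw [h6]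
  have h7 : (ζ * w + x) / (w * (x * ζ + w)) = (ζ - x * w) / (w * (1 - x ^ 2)) := by
    rw [div_eq_div_iff (by positivity) (by positivity)]
    calc (ζ * w + x) * (w * (1 - x ^ 2)) = w * ((ζ * w + x) * (1 - x ^ 2)) := by ring
      _ = w * ((ζ - x * w) * (x * ζ + w)) := by rw [key3]
      _ = (ζ - x * w) * (w * (x * ζ + w)) := by ring
  rw [h7]
  have h8 : 1 - x ^ 2 = (1 - x) * (1 + x) := by ring
  have h9 : 0 < 1 - x := by linarith
  rw [h8]
  field_simp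
  ring

theorem DC_inner {ζ x : ℝ} (hζ : 1 < ζ) (hx0 : 0 ≤ x) (hx1 : x < 1) :
    ∫ u in (-1 : ℝ)..1, √(1 - u ^ 2 - x ^ 2) / (1 - x ^ 2) / (ζ - u) ^ 2 =
      π * (1 / (1 - x ^ 2) * (ζ / √(ζ ^ 2 - (1 - x ^ 2)) - 1)) := by
  have h1x2 : 0 < 1 - x ^ 2 := by nlinarith
  obtain ⟨R, hR⟩ : ∃ R, R = √(1 - x ^ 2) := ⟨_, rfl⟩
  have hR2 : R ^ 2 = 1 - x ^ 2 := by rw [hR]; exact Real.sq_sqrt h1x2.le
  have hRp : 0 < R := by rw [hR]; exact Real.sqrt_pos.2 h1x2
  have hR1 : R ≤ 1 := by nlinarith [sq_nonneg x]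
  have h1 : ∀ u : ℝ, √(1 - u ^ 2 - x ^ 2) / (1 - x ^ 2) / (ζ - u) ^ 2 =
      1 / (1 - x ^ 2) * (√(R ^ 2 - u ^ 2) / (ζ - u) ^ 2) := by
    intro u
    have : 1 - u ^ 2 - x ^ 2 = R ^ 2 - u ^ 2 := by
      rw [hR2]
      ring
    rw [this]
    ring
  have hint : ∀ a b : ℝ, a ∈ Icc (-1 : ℝ) 1 → b ∈ Icc (-1 : ℝ) 1 →
      IntervalIntegrable (fun u => √(R ^ 2 - u ^ 2) / (ζ - u) ^ 2) volume a b := by
    intro a b ha hb
    apply ContinuousOn.intervalIntegrable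
    refine ContinuousOn.div (by fun_prop) (by fun_prop) fun u hu => pow_ne_zero 2 ?_
    have := (uIcc_subset_Icc ha hb hu).2
    linarith
  rw [intervalIntegral.integral_congr (fun u _ => h1 u), intervalIntegral.integral_const_mul]
  have m1 : (-1 : ℝ) ∈ Icc (-1 : ℝ) 1 := ⟨le_refl _, by norm_num⟩
  have m2 : (1 : ℝ) ∈ Icc (-1 : ℝ) 1 := ⟨by norm_num, le_refl _⟩
  have m3 : -R ∈ Icc (-1 : ℝ) 1 := ⟨by linarith, by linarith⟩
  have m4 : R ∈ Icc (-1 : ℝ) 1 := ⟨by linarith, hR1⟩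
  rw [← intervalIntegral.integral_add_adjacent_intervals (hint (-1) (-R) m1 m3) (hint (-R) 1 m3 m2),
    ← intervalIntegral.integral_add_adjacent_intervals (hint (-R) R m3 m4) (hint R 1 m4 m2)]
  have z1 : ∫ u in (-1 : ℝ)..(-R), √(R ^ 2 - u ^ 2) / (ζ - u) ^ 2 = 0 := by
    have : ∫ u in (-1 : ℝ)..(-R), √(R ^ 2 - u ^ 2) / (ζ - u) ^ 2 = ∫ u in (-1 : ℝ)..(-R), (0 : ℝ) := by
      apply intervalIntegral.integral_congr
      intro u hu
      rw [uIcc_of_le (by linarith)] at hu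
      have h2 : R ^ 2 - u ^ 2 ≤ 0 := by nlinarith [hu.2]
      simp only [Real.sqrt_eq_zero_of_nonpos h2, zero_div]
    rw [this, intervalIntegral.integral_zero]
  have z2 : ∫ u in R..(1 : ℝ), √(R ^ 2 - u ^ 2) / (ζ - u) ^ 2 = 0 := by
    have : ∫ u in R..(1 : ℝ), √(R ^ 2 - u ^ 2) / (ζ - u) ^ 2 = ∫ u in R..(1 : ℝ), (0 : ℝ) := by
      apply intervalIntegral.integral_congr
      intro u hu
      rw [uIcc_of_le (by linarith)] at hu
      have h2 : R ^ 2 - u ^ 2 ≤ 0 := by nlinarith [hu.1]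
      simp only [Real.sqrt_eq_zero_of_nonpos h2, zero_div]
    rw [this, intervalIntegral.integral_zero]
  rw [z1, z2, DC_int hRp.le (by linarith), hR2]
  ring

/-- **The potential of `DD`.** -/
theorem DC_potential {ζ τ : ℝ} (hζ : 1 < ζ) (h0 : 0 ≤ τ) (h1 : τ < 1) :
    ∫ u in (-1 : ℝ)..1, DD u τ / (ζ - u) ^ 2 = Real.log ((1 - τ) * Hlim τ ζ / √(ζ ^ 2 - 1)) := by
  have hr : 0 < ζ ^ 2 - 1 := by nlinarith
  have hne : ∀ x ∈ Icc (0 : ℝ) τ, 1 - x ^ 2 ≠ 0 := by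
    intro x hx
    have h2 := hx.1
    have h3 := hx.2
    have : 0 < 1 - x ^ 2 := by nlinarith
    exact this.ne'
  have hneζ : ∀ u ∈ Icc (-1 : ℝ) 1, ζ - u ≠ 0 := fun u hu => by
    have := hu.2
    linarith
  -- pull everything inside
  have e1 : ∀ u : ℝ, DD u τ / (ζ - u) ^ 2 =
      1 / π * ∫ x in (0 : ℝ)..τ, √(1 - u ^ 2 - x ^ 2) / (1 - x ^ 2) / (ζ - u) ^ 2 := by
    intro u
    unfold DD
    rw [intervalIntegral.integral_div, mul_div_assoc]
  rw [intervalIntegral.integral_congr (fun u _ => e1 u), intervalIntegral.integral_const_mul]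
  have hF : ContinuousOn (Function.uncurry fun u x : ℝ => √(1 - u ^ 2 - x ^ 2) / (1 - x ^ 2) / (ζ - u) ^ 2)
      (Icc (-1 : ℝ) 1 ×ˢ Icc (0 : ℝ) τ) := by
    unfold Function.uncurry
    refine ContinuousOn.div (ContinuousOn.div (by fun_prop) (by fun_prop) ?_) (by fun_prop) ?_
    · rintro ⟨u, x⟩ ⟨_, hx⟩
      exact hne x hx
    · rintro ⟨u, x⟩ ⟨hu, _⟩
      exact pow_ne_zero 2 (hneζ u hu)
  have hint : IntegrableOn (Function.uncurry fun u x : ℝ => √(1 - u ^ 2 - x ^ 2) / (1 - x ^ 2) / (ζ - u) ^ 2)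
      (uIoc (-1 : ℝ) 1 ×ˢ uIoc (0 : ℝ) τ) (volume.prod volume) := by
    refine IntegrableOn.mono_set (hF.integrableOn_compact (isCompact_Icc.prod isCompact_Icc)) ?_
    rw [uIoc_of_le (by norm_num), uIoc_of_le h0]
    exact prod_mono Ioc_subset_Icc_self Ioc_subset_Icc_self
  rw [intervalIntegral_intervalIntegral_swap hint]
  have e2 : ∀ x ∈ uIcc (0 : ℝ) τ, ∫ u in (-1 : ℝ)..1, √(1 - u ^ 2 - x ^ 2) / (1 - x ^ 2) / (ζ - u) ^ 2 =
      π * (1 / (1 - x ^ 2) * (ζ / √(ζ ^ 2 - (1 - x ^ 2)) - 1)) := by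
    intro x hx
    rw [uIcc_of_le h0] at hx
    exact DC_inner hζ hx.1 (lt_of_le_of_lt hx.2 h1)
  rw [intervalIntegral.integral_congr e2, intervalIntegral.integral_const_mul]
  have e3 : ∫ x in (0 : ℝ)..τ, 1 / (1 - x ^ 2) * (ζ / √(ζ ^ 2 - (1 - x ^ 2)) - 1) =
      Real.log ((1 - τ) * Hlim τ ζ / √(ζ ^ 2 - 1)) - Real.log ((1 - 0) * Hlim 0 ζ / √(ζ ^ 2 - 1)) := by
    apply intervalIntegral.integral_eq_sub_of_hasDerivAt
    · intro x hx
      rw [uIcc_of_le h0] at hx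
      exact DC_hasDeriv_log hζ hx.1 (lt_of_le_of_lt hx.2 h1)
    · apply ContinuousOn.intervalIntegrable
      rw [uIcc_of_le h0]
      refine ContinuousOn.mul (ContinuousOn.div (by fun_prop) (by fun_prop) hne)
        ((ContinuousOn.div (by fun_prop) (by fun_prop) ?_).sub continuousOn_const)
      intro x hx
      exact (Real.sqrt_pos.2 (by nlinarith [sq_nonneg x])).ne'
  have e4 : (1 - 0) * Hlim 0 ζ / √(ζ ^ 2 - 1) = 1 := by
    unfold Hlim
    have : 0 < √(ζ ^ 2 - 1) := Real.sqrt_pos.2 hr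
    norm_num
    exact this.ne'
  rw [e3, e4, Real.log_one, sub_zero]
  have := Real.pi_pos
  field_simp

/-! ### Properties of `DD` -/

/-- the integrand -/
noncomputable def dI (u x : ℝ) : ℝ := √(1 - u ^ 2 - x ^ 2) / (1 - x ^ 2)

theorem DD_eq (u t : ℝ) : DD u t = 1 / π * ∫ x in (0 : ℝ)..t, dI u x := rfl

theorem dI_nonneg {u x : ℝ} (hx : x ∈ Icc (0 : ℝ) 1) : 0 ≤ dI u x :=
  div_nonneg (Real.sqrt_nonneg _) (by nlinarith [hx.1, hx.2])

theorem dI_zero {u x : ℝ} (h : 1 - u ^ 2 ≤ x ^ 2) : dI u x = 0 := by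
  unfold dI
  rw [Real.sqrt_eq_zero_of_nonpos (by linarith), zero_div]

theorem dI_mono {u u' x : ℝ} (h : |u| ≤ |u'|) (hx : x ∈ Icc (0 : ℝ) 1) : dI u' x ≤ dI u x := by
  unfold dI
  have h1 : 0 ≤ 1 - x ^ 2 := by nlinarith [hx.1, hx.2]
  have h2 : u ^ 2 ≤ u' ^ 2 := sq_le_sq.2 h
  exact div_le_div_of_nonneg_right (Real.sqrt_le_sqrt (by linarith)) h1

theorem DD_neg (u t : ℝ) : DD (-u) t = DD u t := by
  unfold DD
  rw [neg_sq]

theorem DD_abs (u t : ℝ) : DD |u| t = DD u t := by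
  unfold DD
  rw [sq_abs]

theorem dI_hasDeriv {c R x : ℝ} (hR : 0 < R) (hc : c ^ 2 + R ^ 2 = 1) (hx0 : 0 < x) (hxR : x < R) :
    HasDerivAt (fun x => Real.arcsin (x / R) - c * Real.arcsin (c * x / (R * √(1 - x ^ 2)))) (dI c x) x := by
  have hR1 : R ≤ 1 := by nlinarith [sq_nonneg c]
  have hs0 : 0 < R ^ 2 - x ^ 2 := by nlinarith
  have hv0 : 0 < 1 - x ^ 2 := by nlinarith
  obtain ⟨s, hs⟩ : ∃ s, s = √(R ^ 2 - x ^ 2) := ⟨_, rfl⟩
  obtain ⟨v, hv⟩ : ∃ v, v = √(1 - x ^ 2) := ⟨_, rfl⟩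
  have hsp : 0 < s := by rw [hs]; exact Real.sqrt_pos.2 hs0
  have hvp : 0 < v := by rw [hv]; exact Real.sqrt_pos.2 hv0
  have hs2 : s ^ 2 = R ^ 2 - x ^ 2 := by rw [hs]; exact Real.sq_sqrt hs0.le
  have hv2 : v ^ 2 = 1 - x ^ 2 := by rw [hv]; exact Real.sq_sqrt hv0.le
  have hid : HasDerivAt (fun x : ℝ => x) 1 x := hasDerivAt_id x
  -- the first arcsine
  have h4 : HasDerivAt (fun u : ℝ => Real.arcsin (u / R)) (1 / s) x := by
    have h5 : HasDerivAt (fun u : ℝ => u / R) (1 / R) x := hid.div_const R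
    have h6 : x / R ≠ -1 := by
      intro h
      rw [div_eq_iff hR.ne'] at h
      linarith
    have h7 : x / R ≠ 1 := by
      intro h
      rw [div_eq_iff hR.ne'] at h
      linarith
    have h8 := (Real.hasDerivAt_arcsin h6 h7).comp x h5
    have h9 : √(1 - (x / R) ^ 2) = s / R := by
      have : 1 - (x / R) ^ 2 = (s / R) ^ 2 := by
        rw [div_pow, div_pow, hs2]
        field_simp
      rw [this]
      exact Real.sqrt_sq (by positivity)
    rw [h9] at h8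
    have h8' : HasDerivAt (fun u : ℝ => Real.arcsin (u / R)) (1 / (s / R) * (1 / R)) x := h8
    refine h8'.congr_deriv ?_
    field_simp
  -- the second arcsine
  have h10 : HasDerivAt (fun x : ℝ => Real.arcsin (c * x / (R * √(1 - x ^ 2)))) (c / (s * v ^ 2)) x := by
    have h1 : HasDerivAt (fun u : ℝ => √(1 - u ^ 2)) (-x / v) x := by
      have h2 : HasDerivAt (fun u : ℝ => 1 - u ^ 2) (-(2 * x)) x := by
        have := (hid.pow 2).const_sub 1
        simpa using this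
      have h3 := h2.sqrt hv0.ne'
      rw [← hv] at h3
      refine h3.congr_deriv ?_
      field_simp
    have h11 : HasDerivAt (fun u : ℝ => c * u) c x := by
      have := hid.const_mul c
      rw [mul_one] at this
      exact this
    have h12 : HasDerivAt (fun u : ℝ => R * √(1 - u ^ 2)) (R * (-x / v)) x := h1.const_mul R
    have hRv : R * √(1 - x ^ 2) ≠ 0 := by
      rw [← hv]
      positivity
    have h13 := h11.div h12 hRv
    rw [← hv] at h13
    have hy : 1 - (c * x / (R * v)) ^ 2 = (s / (R * v)) ^ 2 := by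
      rw [div_pow, div_pow, hs2, mul_pow c x, mul_pow R v]
      have hR2v2 : R ^ 2 * v ^ 2 ≠ 0 := by positivity
      rw [eq_div_iff hR2v2, sub_mul, div_mul_cancel₀ _ hR2v2, hv2]
      have : c ^ 2 = 1 - R ^ 2 := by linarith
      rw [this]
      ring
    have hy0 : 0 < 1 - (c * x / (R * v)) ^ 2 := by
      rw [hy]
      positivity
    have h14 : c * x / (R * v) ≠ -1 := by
      intro h
      rw [h] at hy0
      norm_num at hy0
    have h15 : c * x / (R * v) ≠ 1 := by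
      intro h
      rw [h] at hy0
      norm_num at hy0
    have h17 : √(1 - (c * x / (R * v)) ^ 2) = s / (R * v) := by
      rw [hy]
      exact Real.sqrt_sq (by positivity)
    have h15' : c * x / (R * √(1 - x ^ 2)) ≠ 1 := by rw [← hv]; exact h15
    have h14' : c * x / (R * √(1 - x ^ 2)) ≠ -1 := by rw [← hv]; exact h14
    have h16 := (Real.hasDerivAt_arcsin h14' h15').comp x h13
    rw [← hv, h17] at h16
    have h16' : HasDerivAt (fun x : ℝ => Real.arcsin (c * x / (R * √(1 - x ^ 2))))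
        (1 / (s / (R * v)) * ((c * (R * v) - c * x * (R * (-x / v))) / (R * v) ^ 2)) x := h16
    refine h16'.congr_deriv ?_
    have h18 : c * (R * v) - c * x * (R * (-x / v)) = c * R / v := by
      have : c * (R * v) - c * x * (R * (-x / v)) = c * R * (v ^ 2 + x ^ 2) / v := by
        field_simp
        ring
      rw [this, hv2]
      ring
    rw [h18]
    field_simp
  have h19 : HasDerivAt (fun x => Real.arcsin (x / R) - c * Real.arcsin (c * x / (R * √(1 - x ^ 2))))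
      (1 / s - c * (c / (s * v ^ 2))) x := h4.sub (h10.const_mul c)
  refine h19.congr_deriv ?_
  unfold dI
  have h20 : 1 - c ^ 2 - x ^ 2 = R ^ 2 - x ^ 2 := by linarith
  rw [h20, ← hs, ← hv2]
  have h21 : s ^ 2 = v ^ 2 - c ^ 2 := by
    rw [hs2, hv2]
    linarith
  have h22 : s / v ^ 2 = s ^ 2 / (s * v ^ 2) := by
    field_simp
  rw [h22, h21]
  field_simp

theorem dI_int_aux {c : ℝ} (hc0 : 0 ≤ c) (hc1 : c < 1) :
    IntervalIntegrable (dI c) volume 0 √(1 - c ^ 2) ∧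
      ∫ x in (0 : ℝ)..√(1 - c ^ 2), dI c x = π / 2 * (1 - c) := by
  have h0 : 0 < 1 - c ^ 2 := by nlinarith
  obtain ⟨R, hR⟩ : ∃ R, R = √(1 - c ^ 2) := ⟨_, rfl⟩
  rw [← hR]
  have hRp : 0 < R := by rw [hR]; exact Real.sqrt_pos.2 h0
  have hR2 : R ^ 2 = 1 - c ^ 2 := by rw [hR]; exact Real.sq_sqrt h0.le
  have hR1 : R ≤ 1 := by nlinarith [sq_nonneg c]
  have hcont : ContinuousOn (fun x => Real.arcsin (x / R) - c * Real.arcsin (c * x / (R * √(1 - x ^ 2))))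
      (Icc 0 R) := by
    refine ContinuousOn.sub (Real.continuous_arcsin.comp (continuous_id.div_const R)).continuousOn ?_
    rcases hc0.eq_or_lt with h | h
    · rw [← h]
      simp only [zero_mul]
      exact continuousOn_const
    · refine continuousOn_const.mul (Real.continuous_arcsin.comp_continuousOn
        (ContinuousOn.div (by fun_prop) (by fun_prop) ?_))
      intro x hx
      refine mul_ne_zero hRp.ne' (Real.sqrt_pos.2 ?_).ne'
      have h1 := hx.1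
      have h2 := hx.2
      have h3 : 0 < c ^ 2 := by positivity
      nlinarith
  have hderiv : ∀ x ∈ Ioo 0 R, HasDerivAt
      (fun x => Real.arcsin (x / R) - c * Real.arcsin (c * x / (R * √(1 - x ^ 2)))) (dI c x) x :=
    fun x hx => dI_hasDeriv hRp (by linarith) hx.1 hx.2
  have hnn : ∀ x ∈ Ioo 0 R, 0 ≤ dI c x := fun x hx => dI_nonneg ⟨hx.1.le, hx.2.le.trans hR1⟩
  have hint : IntervalIntegrable (dI c) volume 0 R := by
    rw [intervalIntegrable_iff_integrableOn_Ioc_of_le hRp.le]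
    exact intervalIntegral.integrableOn_deriv_of_nonneg hcont hderiv hnn
  refine ⟨hint, ?_⟩
  rw [intervalIntegral.integral_eq_sub_of_hasDerivAt_of_le hRp.le hcont hderiv hint]
  have e1 : R / R = 1 := div_self hRp.ne'
  have e2 : c * Real.arcsin (c * R / (R * √(1 - R ^ 2))) = c * (π / 2) := by
    rcases hc0.eq_or_lt with h | h
    · rw [← h, zero_mul, zero_mul]
    · have h1 : √(1 - R ^ 2) = c := by
        rw [hR2]
        have : 1 - (1 - c ^ 2) = c ^ 2 := by ring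
        rw [this]
        exact Real.sqrt_sq hc0
      rw [h1]
      have h2 : c * R / (R * c) = 1 := by
        field_simp
      rw [h2, Real.arcsin_one]
  simp only [e1, e2, zero_div, mul_zero, Real.arcsin_zero, Real.arcsin_one, sub_zero]
  ring

theorem dI_int_zero {u a b : ℝ} (h : ∀ x ∈ uIcc a b, 1 - u ^ 2 ≤ x ^ 2) :
    IntervalIntegrable (dI u) volume a b ∧ ∫ x in a..b, dI u x = 0 := by
  have h1 : ∀ x ∈ uIcc a b, dI u x = 0 := fun x hx => dI_zero (h x hx)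
  refine ⟨?_, ?_⟩
  · refine (intervalIntegrable_const (c := (0 : ℝ))).congr ?_
    intro x hx
    exact (h1 x (uIoc_subset_uIcc hx)).symm
  · rw [intervalIntegral.integral_congr (g := fun _ => (0 : ℝ)) h1, intervalIntegral.integral_zero]

theorem dI_intervalIntegrable (u : ℝ) : IntervalIntegrable (dI u) volume 0 1 := by
  have hab : dI u = dI |u| := by
    funext x
    unfold dI
    rw [sq_abs]
  rcases lt_or_ge |u| 1 with h | h
  · obtain ⟨h1, -⟩ := dI_int_aux (abs_nonneg u) h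
    rw [← hab] at h1
    refine h1.trans (dI_int_zero ?_).1
    intro x hx
    have hR1 : √(1 - |u| ^ 2) ≤ 1 := by
      rw [Real.sqrt_le_one]
      nlinarith [sq_nonneg |u|]
    rw [uIcc_of_le hR1] at hx
    have h2 : 0 ≤ 1 - |u| ^ 2 := by nlinarith [abs_nonneg u]
    have h3 : √(1 - |u| ^ 2) ^ 2 = 1 - |u| ^ 2 := Real.sq_sqrt h2
    rw [sq_abs] at h3
    rw [← h3, ← sq_abs u]
    have := hx.1
    have h4 := Real.sqrt_nonneg (1 - |u| ^ 2)
    nlinarith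
  · refine (dI_int_zero ?_).1
    intro x _
    have : 1 ≤ |u| ^ 2 := by nlinarith
    rw [sq_abs] at this
    nlinarith [sq_nonneg x]

theorem dI_integrable {u a b : ℝ} (ha : a ∈ Icc (0 : ℝ) 1) (hb : b ∈ Icc (0 : ℝ) 1) :
    IntervalIntegrable (dI u) volume a b :=
  (dI_intervalIntegrable u).mono_set (by
    rw [uIcc_of_le (zero_le_one : (0 : ℝ) ≤ 1)]
    exact uIcc_subset_Icc ha hb)

/-- the value at `1` -/
theorem DD_eq_of_le {u t : ℝ} (hu : |u| ≤ 1) (h : √(1 - u ^ 2) ≤ t) : DD u t = (1 - |u|) / 2 := by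
  rw [← DD_abs, DD_eq]
  have hs : √(1 - u ^ 2) = √(1 - |u| ^ 2) := by rw [sq_abs]
  rw [hs] at h
  rcases hu.lt_or_eq with h1 | h1
  · obtain ⟨h2, h3⟩ := dI_int_aux (abs_nonneg u) h1
    have h4 : ∀ x ∈ uIcc √(1 - |u| ^ 2) t, 1 - |u| ^ 2 ≤ x ^ 2 := by
      intro x hx
      rw [uIcc_of_le h] at hx
      have h5 : 0 ≤ 1 - |u| ^ 2 := by nlinarith [abs_nonneg u]
      have h6 : √(1 - |u| ^ 2) ^ 2 = 1 - |u| ^ 2 := Real.sq_sqrt h5
      have := hx.1
      have h7 := Real.sqrt_nonneg (1 - |u| ^ 2)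
      rw [← h6]
      nlinarith
    obtain ⟨h5, h6⟩ := dI_int_zero h4
    rw [← intervalIntegral.integral_add_adjacent_intervals h2 h5, h3, h6]
    have := Real.pi_pos
    field_simp
    ring
  · rw [h1]
    rw [(dI_int_zero (u := 1) (a := 0) (b := t) (fun x _ => by nlinarith [sq_nonneg x])).2]
    norm_num

theorem DD_one {u : ℝ} (hu : |u| ≤ 1) : DD u 1 = (1 - |u|) / 2 := by
  refine DD_eq_of_le hu ?_
  rw [Real.sqrt_le_one]
  nlinarith [sq_nonneg u]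

theorem DD_out {u : ℝ} (hu : 1 ≤ |u|) (t : ℝ) : DD u t = 0 := by
  rw [DD_eq, (dI_int_zero (u := u) (a := 0) (b := t) (fun x _ => ?_)).2, mul_zero]
  have : 1 ≤ |u| ^ 2 := by nlinarith
  rw [sq_abs] at this
  nlinarith [sq_nonneg x]

theorem DD_zero (u : ℝ) : DD u 0 = 0 := by
  unfold DD
  rw [intervalIntegral.integral_same, mul_zero]

theorem DD_sub {u t t' : ℝ} (ht : t ∈ Icc (0 : ℝ) 1) (ht' : t' ∈ Icc (0 : ℝ) 1) :
    DD u t' - DD u t = 1 / π * ∫ x in t..t', dI u x := by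
  have h0 : (0 : ℝ) ∈ Icc (0 : ℝ) 1 := ⟨le_rfl, zero_le_one⟩
  rw [DD_eq, DD_eq, ← mul_sub, intervalIntegral.integral_interval_sub_left (dI_integrable h0 ht')
    (dI_integrable h0 ht)]

theorem DD_le_DD {u t t' : ℝ} (h0 : 0 ≤ t) (h : t ≤ t') (h1 : t' ≤ 1) : DD u t ≤ DD u t' := by
  have ht : t ∈ Icc (0 : ℝ) 1 := ⟨h0, h.trans h1⟩
  have ht' : t' ∈ Icc (0 : ℝ) 1 := ⟨h0.trans h, h1⟩
  have h2 := DD_sub (u := u) ht ht'
  have h3 : 0 ≤ ∫ x in t..t', dI u x :=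
    intervalIntegral.integral_nonneg h fun x hx => dI_nonneg ⟨h0.trans hx.1, hx.2.trans h1⟩
  have h4 : 0 ≤ 1 / π * ∫ x in t..t', dI u x := mul_nonneg (by positivity) h3
  linarith

theorem DD_mono (u : ℝ) : MonotoneOn (DD u) (Icc 0 1) := fun _ ha _ hb hab => DD_le_DD ha.1 hab hb.2

theorem DD_nonneg (u t : ℝ) (ht : t ∈ Icc (0 : ℝ) 1) : 0 ≤ DD u t := by
  have := DD_le_DD (u := u) le_rfl ht.1 ht.2
  rwa [DD_zero] at this

theorem DD_le (u t : ℝ) (hu : u ∈ Icc (-1 : ℝ) 1) (ht : t ∈ Icc (0 : ℝ) 1) : DD u t ≤ (1 - |u|) / 2 := by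
  rw [← DD_one (abs_le.2 hu)]
  exact DD_le_DD ht.1 ht.2 le_rfl

/-- the difference of two columns grows with the time -/
theorem DD_diff {u u' t t' : ℝ} (hu : |u| ≤ |u'|) (h0 : 0 ≤ t) (h : t ≤ t') (h1 : t' ≤ 1) :
    DD u' t' - DD u' t ≤ DD u t' - DD u t := by
  have ht : t ∈ Icc (0 : ℝ) 1 := ⟨h0, h.trans h1⟩
  have ht' : t' ∈ Icc (0 : ℝ) 1 := ⟨h0.trans h, h1⟩
  rw [DD_sub ht ht', DD_sub ht ht']
  refine mul_le_mul_of_nonneg_left ?_ (by positivity)
  exact intervalIntegral.integral_mono_on h (dI_integrable ht ht') (dI_integrable ht ht')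
    fun x hx => dI_mono hu ⟨h0.trans hx.1, hx.2.trans h1⟩

theorem DD_anti {u u' t : ℝ} (hu : |u| ≤ |u'|) (ht : t ∈ Icc (0 : ℝ) 1) : DD u' t ≤ DD u t := by
  have := DD_diff hu le_rfl ht.1 ht.2
  rw [DD_zero, DD_zero] at this
  linarith

theorem DD_sub_le {u u' t : ℝ} (hu : |u| ≤ |u'|) (ht : t ∈ Icc (0 : ℝ) 1) :
    DD u t - DD u' t ≤ (|u'| - |u|) / 2 := by
  rcases le_total 1 |u| with h | h
  · rw [DD_out h, DD_out (h.trans hu)]
    linarith
  rcases le_total 1 |u'| with h' | h'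
  · rw [DD_out h' t, sub_zero]
    have := DD_le u t (abs_le.1 h) ht
    linarith
  · have h1 := DD_diff hu ht.1 ht.2 le_rfl
    rw [DD_one h, DD_one h'] at h1
    linarith

theorem DD_lip' (u u' : ℝ) {t : ℝ} (ht : t ∈ Icc (0 : ℝ) 1) : |DD u t - DD u' t| ≤ |u - u'| / 2 := by
  rcases le_total |u| |u'| with h | h
  · have h1 := DD_anti h ht
    have h2 := DD_sub_le h ht
    rw [abs_of_nonneg (by linarith)]
    have h3 := abs_sub_abs_le_abs_sub u' u
    rw [abs_sub_comm u' u] at h3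
    linarith
  · have h1 := DD_anti h ht
    have h2 := DD_sub_le h ht
    rw [abs_of_nonpos (by linarith)]
    have h3 := abs_sub_abs_le_abs_sub u u'
    linarith

theorem DD_cont_t (u : ℝ) : ContinuousOn (DD u) (Icc 0 1) := by
  have h1 : ContinuousOn (fun t => ∫ x in (0 : ℝ)..t, dI u x) (uIcc 0 1) :=
    intervalIntegral.continuousOn_primitive_interval (by
      rw [uIcc_of_le (zero_le_one : (0 : ℝ) ≤ 1)]
      exact (intervalIntegrable_iff_integrableOn_Icc_of_le zero_le_one enorm_ne_top).1 (dI_intervalIntegrable u))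
  rw [uIcc_of_le (zero_le_one : (0 : ℝ) ≤ 1)] at h1
  exact continuousOn_const.mul h1

theorem DD_cont' : ContinuousOn (fun p : ℝ × ℝ => DD p.1 p.2) (univ ×ˢ Icc 0 1) := by
  rintro ⟨u₀, t₀⟩ ⟨-, ht₀⟩
  rw [ContinuousWithinAt, Metric.tendsto_nhds]
  intro ε hε
  have h1 : ∀ᶠ p : ℝ × ℝ in 𝓝[univ ×ˢ Icc (0 : ℝ) 1] (u₀, t₀), |DD u₀ p.2 - DD u₀ t₀| < ε / 2 := by
    have h2 : Tendsto (fun p : ℝ × ℝ => p.2) (𝓝[univ ×ˢ Icc (0 : ℝ) 1] (u₀, t₀)) (𝓝[Icc 0 1] t₀) := by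
      refine tendsto_nhdsWithin_iff.2 ⟨(continuous_snd.tendsto _).mono_left nhdsWithin_le_nhds, ?_⟩
      filter_upwards [self_mem_nhdsWithin] with p hp
      exact hp.2
    have h3 := (Metric.tendsto_nhds.1 ((DD_cont_t u₀) t₀ ht₀)) (ε / 2) (by linarith)
    exact h2.eventually h3
  have h2 : ∀ᶠ p : ℝ × ℝ in 𝓝[univ ×ˢ Icc (0 : ℝ) 1] (u₀, t₀), |p.1 - u₀| < ε := by
    have h3 : Tendsto (fun p : ℝ × ℝ => p.1) (𝓝[univ ×ˢ Icc (0 : ℝ) 1] (u₀, t₀)) (𝓝 u₀) :=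
      (continuous_fst.tendsto _).mono_left nhdsWithin_le_nhds
    exact (Metric.tendsto_nhds.1 h3) ε hε
  filter_upwards [h1, h2, self_mem_nhdsWithin] with p hp1 hp2 hp3
  rw [Real.dist_eq]
  have h3 := DD_lip' p.1 u₀ hp3.2
  have h4 := abs_add_le (DD p.1 p.2 - DD u₀ p.2) (DD u₀ p.2 - DD u₀ t₀)
  have h5 : DD p.1 p.2 - DD u₀ p.2 + (DD u₀ p.2 - DD u₀ t₀) = DD p.1 p.2 - DD u₀ t₀ := by ring
  rw [h5] at h4
  linarith

theorem DD_lip (u u' t : ℝ) (_hu : u ∈ Icc (-1 : ℝ) 1) (_hu' : u' ∈ Icc (-1 : ℝ) 1)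
    (ht : t ∈ Icc (0 : ℝ) 1) : |DD u t - DD u' t| ≤ |u - u'| / 2 := DD_lip' u u' ht

theorem DD_cont : ContinuousOn (fun p : ℝ × ℝ => DD p.1 p.2) (Icc (-1) 1 ×ˢ Icc 0 1) :=
  DD_cont'.mono (prod_mono (subset_univ _) Subset.rfl)

theorem DD_stieltjes {τ ζ : ℝ} (h0 : 0 ≤ τ) (h1 : τ < 1) (hζ : 2 ≤ ζ) :
    ∫ u in (-1 : ℝ)..1, DD u τ / (ζ - u) ^ 2 = Real.log ((1 - τ) * Hlim τ ζ / √(ζ ^ 2 - 1)) :=
  DC_potential (by linarith) h0 h1

end Pool.Agent.SNL63
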