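import Pool.Agent.SNL63.Defs
import Pool.Agent.SN8.Eta

/-!
The rectangles, the events about `eta`, and the permutons all of whose bulk places are crossed.
-/

namespace Pool.Agent.SNL63

open Pool.Agent.SN8 MeasureTheory Set Filter Topology
open scoped ENNReal Real

/-- the uniform law on `[-1,1]` -/
noncomputable def unif : Measure ℝ := (2 : ℝ≥0∞)⁻¹ • volume.restrict (Icc (-1) 1)

/-- `[-1,a] × [a,1]` -/
def Rc (a : ℝ) : Set (ℝ × ℝ) := Icc (-1) a ×ˢ Icc a 1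
/-- `[-a,1] × [a,1]` -/
def Rc' (a : ℝ) : Set (ℝ × ℝ) := Icc (-a) 1 ×ˢ Icc a 1
/-- `[-1,a] × (a,1]` -/
def Ro (a : ℝ) : Set (ℝ × ℝ) := Icc (-1) a ×ˢ Ioc a 1
/-- `[-a,1] × (a,1]` -/
def Ro' (a : ℝ) : Set (ℝ × ℝ) := Icc (-a) 1 ×ˢ Ioc a 1

/-- At some time `t ∈ [ε,1]` some place `a` of the bulk has been crossed by a mass at most `δ`. -/
def Low (ε δ : ℝ) (n : ℕ) (k : List ℕ) : Prop :=
  ∃ t ∈ Icc ε 1, ∃ a ∈ Icc (-1 + ε) (1 - ε), eta n k t (Ro a) ≤ ENNReal.ofReal δ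

/-- The time-reversed event. -/
def Low' (ε δ : ℝ) (n : ℕ) (k : List ℕ) : Prop :=
  ∃ t ∈ Icc 0 (1 - ε), ∃ a ∈ Icc (-1 + ε) (1 - ε), eta n k t (Ro' a) ≤ ENNReal.ofReal δ

/-- Permutons (probability measures with uniform marginals on `[-1,1]`) for which every place
`a ∈ (-1,1)` is crossed. -/
structure Crossed (ν : Measure (ℝ × ℝ)) : Prop where
  fst : ν.map Prod.fst = unif
  snd : ν.map Prod.snd = unif
  pos : ∀ a ∈ Ioo (-1 : ℝ) 1, ν (Rc a) ≠ 0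
  pos' : ∀ a ∈ Ioo (-1 : ℝ) 1, ν (Rc' a) ≠ 0

end Pool.Agent.SNL63
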