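import Pool.Agent.SN8.Net

/-!
Large deviations of sorting networks: shapes, chains of shapes, and the events.
A shape is a function `lam : ℕ → ℕ` (row lengths, rows numbered from `0`).
-/

namespace Pool.Agent.SNL63

open Pool.Agent.SN8 Finset

/-- Remove the last cell of row `i`. -/
def dec (lam : ℕ → ℕ) (i : ℕ) : ℕ → ℕ := Function.update lam i (lam i - 1)

/-- The rows `i < n` whose last cell is a corner of `lam`. -/
def corners (n : ℕ) (lam : ℕ → ℕ) : Finset ℕ :=
  (range n).filter (fun i => lam (i + 1) < lam i)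

/-- The number of ways to remove `k` cells, corner by corner. -/
def F (n : ℕ) : ℕ → (ℕ → ℕ) → ℕ
  | 0, _ => 1
  | k + 1, lam => ∑ i ∈ corners n lam, F n k (dec lam i)

/-- The number of ways to remove `s + k` cells, corner by corner, such that after the first `s`
removals row `M - 1` still has at least `K` cells. -/
def A (n M K : ℕ) : ℕ → ℕ → (ℕ → ℕ) → ℕ
  | 0, k, lam => if K ≤ lam (M - 1) then F n k lam else 0
  | s + 1, k, lam => ∑ i ∈ corners n lam, A n M K s k (dec lam i)

/-- The staircase `(n - 1, n - 2, ..., 1)`. -/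
def stair (n : ℕ) : ℕ → ℕ := fun i => n - 1 - i

/-- The corners of the window `V` of width `θ` around the cell `(M - 1, K - 1)`: those in the rows
`M - θ, ..., M - 1`, and those in the rows `≥ M` whose column is at least `K - θ`. -/
def InV (M K θ : ℕ) (lam : ℕ → ℕ) (i : ℕ) : Prop :=
  (M ≤ i + θ ∧ i < M) ∨ (M ≤ i ∧ K < lam i + θ)

instance (M K θ : ℕ) (lam : ℕ → ℕ) : DecidablePred (InV M K θ lam) := fun _ => by
  unfold InV; infer_instance

/-- The number of sorting networks. -/
noncomputable def nets (n : ℕ) : ℕ := ({k | IsNetwork n k} : Set (List ℕ)).ncard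

/-- The number of particles `x ≤ m` beyond position `m` after the word `l`. -/
def cross (m : ℕ) (l : List ℕ) : ℕ := ((Icc 1 m).filter (fun x => m < place l x)).card

/-- Networks with at most `d` crossings of `m` at some time `s ≥ s₀`. -/
def U (n m s₀ d : ℕ) : Set (List ℕ) :=
  {k | IsNetwork n k ∧ ∃ s, s₀ ≤ s ∧ s ≤ n.choose 2 ∧ cross m (k.take s) ≤ d}

end Pool.Agent.SNL63
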