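import Mathlib

/-!
# The functions `1 / (ζ - u)²`, `ζ ≥ 2`, span a dense subspace of the continuous functions on `[-1,1]`
-/

namespace Pool.Agent.SNL63

open Set Filter Topology

/-- the continuous functions on `[-1,1]` -/
abbrev DnA := C(Icc (-1 : ℝ) 1, ℝ)

/-- `1 / (ζ - u)` -/
noncomputable def DnH (ζ : ℝ) (hζ : 2 ≤ ζ) : DnA :=
  ⟨fun u => 1 / (ζ - (u : ℝ)), by
    refine Continuous.div continuous_const (by fun_prop) fun u => ?_
    have := u.2.2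
    linarith⟩

theorem DnH_apply {ζ : ℝ} (hζ : 2 ≤ ζ) (u : Icc (-1 : ℝ) 1) : DnH ζ hζ u = 1 / (ζ - (u : ℝ)) := rfl

theorem DnH_sub {ζ δ : ℝ} (hζ : 2 ≤ ζ) (hδ : 0 ≤ δ) :
    DnH (ζ + δ) (by linarith) - DnH ζ hζ = -δ • (DnH ζ hζ * DnH (ζ + δ) (by linarith)) := by
  ext u
  have h1 := u.2.2
  have h2 : ζ - (u : ℝ) ≠ 0 := by linarith
  have h3 : ζ + δ - (u : ℝ) ≠ 0 := by linarith
  simp only [ContinuousMap.sub_apply, ContinuousMap.smul_apply, ContinuousMap.mul_apply, DnH_apply, smul_eq_mul]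
  field_simp
  ring

theorem DnH_norm {ζ : ℝ} (hζ : 2 ≤ ζ) : ‖DnH ζ hζ‖ ≤ 1 := by
  rw [ContinuousMap.norm_le _ zero_le_one]
  intro u
  have h1 := u.2.2
  rw [DnH_apply, Real.norm_eq_abs, abs_of_nonneg (by
    apply div_nonneg zero_le_one
    linarith), div_le_one (by linarith)]
  linarith

theorem DnH_tendsto {ζ : ℝ} (hζ : 2 ≤ ζ) :
    Tendsto (fun n : ℕ => DnH (ζ + 1 / ((n : ℝ) + 1)) (by
      have : (0 : ℝ) ≤ 1 / ((n : ℝ) + 1) := by positivity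
      linarith)) atTop (𝓝 (DnH ζ hζ)) := by
  rw [tendsto_iff_norm_sub_tendsto_zero]
  refine squeeze_zero (fun _ => norm_nonneg _) (fun n => ?_) tendsto_one_div_add_atTop_nhds_zero_nat
  have h0 : (0 : ℝ) ≤ 1 / ((n : ℝ) + 1) := by positivity
  rw [DnH_sub hζ h0, norm_smul, norm_neg, Real.norm_eq_abs, abs_of_nonneg h0]
  have h1 := norm_mul_le (DnH ζ hζ) (DnH (ζ + 1 / ((n : ℝ) + 1)) (by linarith))
  have h2 := DnH_norm hζ
  have h3 := DnH_norm (ζ := ζ + 1 / ((n : ℝ) + 1)) (by linarith)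
  have h4 : ‖DnH ζ hζ * DnH (ζ + 1 / ((n : ℝ) + 1)) (by linarith)‖ ≤ 1 :=
    h1.trans (mul_le_one₀ h2 (norm_nonneg _) h3)
  nlinarith

/-- the closed span -/
noncomputable def DnW : Submodule ℝ DnA :=
  (Submodule.span ℝ {f : DnA | ∃ (ζ : ℝ) (hζ : 2 ≤ ζ), f = DnH ζ hζ ^ 2}).topologicalClosure

theorem DnW_closed : IsClosed (DnW : Set DnA) := Submodule.isClosed_topologicalClosure _

theorem DnW_pow : ∀ (m : ℕ) {ζ : ℝ} (hζ : 2 ≤ ζ), DnH ζ hζ ^ (m + 2) ∈ DnW := by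
  intro m
  induction m with
  | zero =>
    intro ζ hζ
    exact Submodule.le_topologicalClosure _ (Submodule.subset_span ⟨ζ, hζ, rfl⟩)
  | succ m ih =>
    intro ζ hζ
    have hδ : ∀ n : ℕ, (0 : ℝ) < 1 / ((n : ℝ) + 1) := fun n => by positivity
    have hζn : ∀ n : ℕ, 2 ≤ ζ + 1 / ((n : ℝ) + 1) := fun n => by linarith [hδ n]
    -- the difference quotients
    have h1 : ∀ n : ℕ, -(1 / ((n : ℝ) + 1))⁻¹ • (DnH (ζ + 1 / ((n : ℝ) + 1)) (hζn n) ^ (m + 2) - DnH ζ hζ ^ (m + 2)) =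
        (∑ i ∈ Finset.range (m + 2), DnH (ζ + 1 / ((n : ℝ) + 1)) (hζn n) ^ i * DnH ζ hζ ^ (m + 2 - 1 - i)) *
          (DnH ζ hζ * DnH (ζ + 1 / ((n : ℝ) + 1)) (hζn n)) := by
      intro n
      rw [← geom_sum₂_mul, DnH_sub hζ (hδ n).le, mul_smul_comm, smul_smul, neg_mul_neg,
        inv_mul_cancel₀ (hδ n).ne', one_smul]
    have h2 : Tendsto (fun n : ℕ => (∑ i ∈ Finset.range (m + 2), DnH (ζ + 1 / ((n : ℝ) + 1)) (hζn n) ^ i *
        DnH ζ hζ ^ (m + 2 - 1 - i)) * (DnH ζ hζ * DnH (ζ + 1 / ((n : ℝ) + 1)) (hζn n))) atTop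
        (𝓝 ((∑ i ∈ Finset.range (m + 2), DnH ζ hζ ^ i * DnH ζ hζ ^ (m + 2 - 1 - i)) * (DnH ζ hζ * DnH ζ hζ))) := by
      refine Tendsto.mul (tendsto_finsetSum _ fun i _ => ?_) (tendsto_const_nhds.mul (DnH_tendsto hζ))
      exact ((DnH_tendsto hζ).pow i).mul tendsto_const_nhds
    have h3 : (∑ i ∈ Finset.range (m + 2), DnH ζ hζ ^ i * DnH ζ hζ ^ (m + 2 - 1 - i)) * (DnH ζ hζ * DnH ζ hζ) =
        ((m + 2 : ℕ) : ℝ) • DnH ζ hζ ^ (m + 1 + 2) := by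
      have h4 : ∀ i ∈ Finset.range (m + 2), DnH ζ hζ ^ i * DnH ζ hζ ^ (m + 2 - 1 - i) = DnH ζ hζ ^ (m + 1) := by
        intro i hi
        rw [Finset.mem_range] at hi
        rw [← pow_add]
        congr 1
        omega
      rw [Finset.sum_congr rfl h4, Finset.sum_const, Finset.card_range, Nat.cast_smul_eq_nsmul ℝ, smul_mul_assoc]
      congr 1
      ring
    have h5 : ((m + 2 : ℕ) : ℝ) • DnH ζ hζ ^ (m + 1 + 2) ∈ DnW := by
      rw [← h3]
      refine DnW_closed.mem_of_tendsto h2 (Eventually.of_forall fun n => ?_)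
      simp only [SetLike.mem_coe]
      rw [← h1 n]
      exact DnW.smul_mem _ (DnW.sub_mem (ih (hζn n)) (ih hζ))
    have h6 := DnW.smul_mem (((m + 2 : ℕ) : ℝ)⁻¹) h5
    rwa [smul_smul, inv_mul_cancel₀ (by positivity), one_smul] at h6

/-- the multipliers into `DnW` -/
noncomputable def DnM : Submodule ℝ DnA :=
  DnW.comap (LinearMap.mulLeft ℝ (DnH 3 (by norm_num) ^ 2))

theorem DnM_closed : IsClosed (DnM : Set DnA) := by
  have h1 : Continuous fun p : DnA => DnH 3 (by norm_num) ^ 2 * p := continuous_const.mul continuous_id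
  exact DnW_closed.preimage h1

theorem DnM_adjoin : ∀ p ∈ Algebra.adjoin ℝ ({DnH 3 (by norm_num)} : Set DnA), p ∈ DnM := by
  intro p hp
  rw [Algebra.adjoin_singleton_eq_range_aeval] at hp
  obtain ⟨P, rfl⟩ := hp
  simp only [AlgHom.toRingHom_eq_coe, RingHom.coe_coe]
  induction P using Polynomial.induction_on' with
  | add P Q hP hQ =>
    rw [map_add]
    exact DnM.add_mem hP hQ
  | monomial n a =>
    rw [Polynomial.aeval_monomial, ← Algebra.smul_def]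
    refine DnM.smul_mem _ ?_
    change DnH 3 (by norm_num) ^ 2 * DnH 3 (by norm_num) ^ n ∈ DnW
    rw [← pow_add, add_comm]
    exact DnW_pow n _

theorem DnM_top (p : DnA) : p ∈ DnM := by
  have hsep : (Algebra.adjoin ℝ ({DnH 3 (by norm_num)} : Set DnA)).SeparatesPoints := by
    intro x y hxy
    refine ⟨_, ⟨DnH 3 (by norm_num), Algebra.subset_adjoin (mem_singleton _), rfl⟩, ?_⟩
    intro h
    have h : 1 / (3 - (x : ℝ)) = 1 / (3 - (y : ℝ)) := h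
    have h1 := x.2.2
    have h2 := y.2.2
    have h3 : (3 : ℝ) - x ≠ 0 := by linarith
    have h4 : (3 : ℝ) - y ≠ 0 := by linarith
    rw [div_eq_div_iff h3 h4] at h
    apply hxy
    apply Subtype.ext
    linarith
  have h1 := ContinuousMap.subalgebra_topologicalClosure_eq_top_of_separatesPoints _ hsep
  have h2 : p ∈ (Algebra.adjoin ℝ ({DnH 3 (by norm_num)} : Set DnA)).topologicalClosure := by
    rw [h1]
    exact Algebra.mem_top
  have h3 : p ∈ closure ((Algebra.adjoin ℝ ({DnH 3 (by norm_num)} : Set DnA) : Subalgebra ℝ DnA) : Set DnA) := h2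
  exact closure_minimal (fun q hq => DnM_adjoin q hq) DnM_closed h3

theorem DnW_top (g : DnA) : g ∈ DnW := by
  obtain ⟨k, hk⟩ : ∃ k : DnA, ∀ u, k u = g u * (3 - (u : ℝ)) ^ 2 :=
    ⟨⟨fun u => g u * (3 - (u : ℝ)) ^ 2, by fun_prop⟩, fun _ => rfl⟩
  have h1 : DnH 3 (by norm_num) ^ 2 * k ∈ DnW := DnM_top k
  have h2 : DnH 3 (by norm_num) ^ 2 * k = g := by
    ext u
    have h3 := u.2.2
    have h4 : (3 : ℝ) - u ≠ 0 := by linarith
    rw [ContinuousMap.mul_apply, ContinuousMap.pow_apply, hk, DnH_apply]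
    field_simp
  rwa [h2] at h1

/-- **Density.** -/
theorem dens {g : ℝ → ℝ} (hg : ContinuousOn g (Icc (-1) 1)) {η : ℝ} (hη : 0 < η) :
    ∃ (N : ℕ) (a z : Fin N → ℝ), (∀ i, 2 ≤ z i) ∧
      ∀ u ∈ Icc (-1 : ℝ) 1, |g u - ∑ i, a i / (z i - u) ^ 2| ≤ η := by
  obtain ⟨G, hG⟩ : ∃ G : DnA, ∀ u : Icc (-1 : ℝ) 1, G u = g u :=
    ⟨⟨fun u => g u, hg.domRestrict⟩, fun _ => rfl⟩
  have h1 := DnW_top G
  have h2 : G ∈ closure ((Submodule.span ℝ {f : DnA | ∃ (ζ : ℝ) (hζ : 2 ≤ ζ), f = DnH ζ hζ ^ 2} :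
    Submodule ℝ DnA) : Set DnA) := h1
  obtain ⟨f, hf, hfd⟩ := Metric.mem_closure_iff.1 h2 η hη
  rw [SetLike.mem_coe, Submodule.mem_span_set'] at hf
  obtain ⟨N, a, s, hs⟩ := hf
  choose z hz hzs using fun i => (s i).2
  refine ⟨N, a, z, hz, fun u hu => ?_⟩
  have h3 : ∑ i, a i / (z i - u) ^ 2 = f ⟨u, hu⟩ := by
    rw [← hs, ContinuousMap.sum_apply]
    refine Finset.sum_congr rfl fun i _ => ?_
    rw [ContinuousMap.smul_apply, hzs i, ContinuousMap.pow_apply, DnH_apply, smul_eq_mul, one_div, inv_pow,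
      div_eq_mul_inv]
  have h4 : ‖(G - f) ⟨u, hu⟩‖ ≤ ‖G - f‖ := ContinuousMap.norm_coe_le_norm _ _
  rw [dist_eq_norm] at hfd
  rw [h3, ← hG ⟨u, hu⟩, ← ContinuousMap.sub_apply, ← Real.norm_eq_abs]
  exact h4.trans hfd.le

end Pool.Agent.SNL63
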