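import Pool.Agent.SNL63.Tab

/-!
Displacements: a strictly increasing word moves a particle to the left by at most one place, a
tableau with `L` columns moves a particle to the right by at most `L` places.
-/

namespace Pool.Agent.SNL63

open Pool.Agent.SN8

lemma place_nil (p : ℕ) : place [] p = p := rfl

lemma place_cons (j : ℕ) (l : List ℕ) (p : ℕ) : place (j :: l) p = place l (sw j p) := rfl

lemma place_append (a b : List ℕ) (p : ℕ) : place (a ++ b) p = place b (place a p) := by
  simp [place, List.foldl_append]

lemma place_congr {a b : List ℕ} (h : P a = P b) (p : ℕ) : place a p = place b p := by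
  rw [place_eq, place_eq, h]

lemma place_inc_ge {R : List ℕ} (hR : Inc R) : ∀ p, (∀ r ∈ R, p ≤ r) → p ≤ place R p := by
  induction R with
  | nil => intro p _; exact le_rfl
  | cons r R ih =>
    intro p hp
    have h1 := hp r (by simp)
    rw [place_cons, sw_apply]
    split_ifs with h2 h3
    · have := ih hR.tail (r + 1) (fun y hy => hR.lt y hy)
      omega
    · omega
    · exact ih hR.tail p (fun y hy => hp y (by simp [hy]))

lemma place_inc {R : List ℕ} (hR : Inc R) : ∀ p, p ≤ place R p + 1 := by
  induction R with
  | nil => intro p; simp [place_nil]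
  | cons r R ih =>
    intro p
    rw [place_cons, sw_apply]
    split_ifs with h2 h3
    · have := place_inc_ge hR.tail (r + 1) (fun y hy => hR.lt y hy)
      omega
    · have := place_inc_ge hR.tail r (fun y hy => (hR.lt y hy).le)
      omega
    · exact ih hR.tail p

lemma place_dec_le {C : List ℕ} (hC : C.Pairwise (· > ·)) : ∀ p, (∀ c ∈ C, c < p) →
    place C p ≤ p := by
  induction C with
  | nil => intro p _; exact le_rfl
  | cons c C ih =>
    rw [List.pairwise_cons] at hC
    intro p hp
    have h1 := hp c (by simp)
    rw [place_cons, sw_apply]
    split_ifs with h2 h3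
    · omega
    · have := ih hC.2 c (fun y hy => hC.1 y hy)
      omega
    · exact ih hC.2 p (fun y hy => hp y (by simp [hy]))

lemma place_dec {C : List ℕ} (hC : C.Pairwise (· > ·)) : ∀ p, place C p ≤ p + 1 := by
  induction C with
  | nil => intro p; simp [place_nil]
  | cons c C ih =>
    rw [List.pairwise_cons] at hC
    intro p
    rw [place_cons, sw_apply]
    split_ifs with h2 h3
    · have := place_dec_le hC.2 (c + 1) (fun y hy => by have := hC.1 y hy; omega)
      omega
    · have := place_dec_le hC.2 c (fun y hy => hC.1 y hy)
      omega
    · exact ih hC.2 p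

/-- tableaux, empty rows allowed -/
def Tb : List (List ℕ) → Prop
  | [] => True
  | R :: T => Inc R ∧ Above R (T.headD []) ∧ Tb T

lemma Tab.tb {T : List (List ℕ)} (h : Tab T) : Tb T := by
  induction T with
  | nil => trivial
  | cons R T ih => exact ⟨h.2.1, h.2.2.1, ih h.2.2.2⟩

lemma Tb.empty {T : List (List ℕ)} (h : Tb T) (h0 : T.headD [] = []) : word T = [] := by
  induction T with
  | nil => rfl
  | cons R T ih =>
    simp only [List.headD_cons] at h0
    subst h0
    have h1 : T.headD [] = [] := by
      have := h.2.1
      rcases hS : T.headD [] with _ | ⟨s, S⟩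
      · rfl
      · rw [hS] at this; exact absurd this (not_nil_above _ _)
    simp [word, ih h.2.2 h1]

/-- first column, read from below -/
def heads : List (List ℕ) → List ℕ
  | [] => []
  | R :: T => heads T ++ R.take 1

/-- the other columns -/
def tails (T : List (List ℕ)) : List (List ℕ) := T.map (List.drop 1)

lemma Tb.low {T : List (List ℕ)} (h : Tb T) {r : ℕ} {R : List ℕ}
    (hr : Above (r :: R) (T.headD [])) :
    (∀ z ∈ word T, r < z) ∧ (∀ z ∈ heads T, r < z) ∧ ∀ z ∈ word (tails T), r + 2 ≤ z := by
  induction T generalizing r R with
  | nil => simp [word, heads, tails]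
  | cons S T ih =>
    obtain ⟨h1, h2, h3⟩ := h
    simp only [List.headD_cons] at hr
    cases S with
    | nil =>
      have h4 : T.headD [] = [] := by
        rcases hS : T.headD [] with _ | ⟨s, S⟩
        · rfl
        · rw [hS] at h2; exact absurd h2 (not_nil_above _ _)
      obtain ⟨i1, i2, i3⟩ := ih (r := r) (R := R) h3 (by rw [h4]; simp)
      simp only [word, heads, tails, List.map_cons, List.append_nil, List.drop_nil, List.take_nil]
      exact ⟨i1, i2, i3⟩
    | cons s S =>
      obtain ⟨i1, i2, i3⟩ := ih h3 h2
      have hrs := hr.1
      refine ⟨?_, ?_, ?_⟩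
      · intro z hz
        have hz' : z ∈ word T ++ (s :: S) := hz
        rcases List.mem_append.mp hz' with hz | hz
        · have := i1 z hz; omega
        · rcases List.mem_cons.mp hz with h | h
          · omega
          · have := h1.lt z h; omega
      · intro z hz
        have hz' : z ∈ heads T ++ [s] := hz
        rcases List.mem_append.mp hz' with hz | hz
        · have := i2 z hz; omega
        · rw [List.mem_singleton] at hz; omega
      · intro z hz
        have hz' : z ∈ word (tails T) ++ S := hz
        rcases List.mem_append.mp hz' with hz | hz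
        · have := i3 z hz; omega
        · have := h1.lt z hz; omega

lemma Tb.peel {T : List (List ℕ)} (h : Tb T) : P (word T) = P (heads T) * P (word (tails T)) := by
  induction T with
  | nil => simp [word, heads, tails]
  | cons R T ih =>
    obtain ⟨h1, h2, h3⟩ := h
    have e1 : word (R :: T) = word T ++ R := rfl
    have e2 : heads (R :: T) = heads T ++ R.take 1 := rfl
    have e3 : word (tails (R :: T)) = word (tails T) ++ R.drop 1 := rfl
    rw [e1, e2, e3, P_append, P_append, P_append, ih h3]
    cases R with
    | nil => simp
    | cons r R =>
      have hc : Commute (sw r) (P (word (tails T))) := commute_P fun z hz => by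
        have := (h3.low h2).2.2 z hz
        unfold Far; omega
      simp only [List.take_succ_cons, List.take_zero, List.drop_succ_cons,
        List.drop_zero, P_cons, P_nil, mul_one]
      rw [mul_assoc, mul_assoc, ← mul_assoc (P (word (tails T))), ← hc.eq, mul_assoc]

lemma Tb.heads_dec {T : List (List ℕ)} (h : Tb T) : (heads T).Pairwise (· > ·) := by
  induction T with
  | nil => exact List.Pairwise.nil
  | cons R T ih =>
    obtain ⟨h1, h2, h3⟩ := h
    cases R with
    | nil => simpa [heads] using ih h3
    | cons r R =>
      have e2 : heads ((r :: R) :: T) = heads T ++ [r] := rfl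
      rw [e2, List.pairwise_append]
      refine ⟨ih h3, List.pairwise_singleton _ _, ?_⟩
      intro a ha b hb
      rw [List.mem_singleton] at hb
      subst hb
      exact (h3.low h2).2.1 a ha

lemma above_drop {R S : List ℕ} (h : Above R S) : Above (R.drop 1) (S.drop 1) := by
  cases S with
  | nil => simp
  | cons s S => cases R with
    | nil => exact absurd h (not_nil_above _ _)
    | cons r R => exact h.2

lemma headD_tails (T : List (List ℕ)) : (tails T).headD [] = (T.headD []).drop 1 := by
  cases T <;> simp [tails]

lemma Tb.tails {T : List (List ℕ)} (h : Tb T) : Tb (tails T) := by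
  induction T with
  | nil => trivial
  | cons R T ih =>
    obtain ⟨h1, h2, h3⟩ := h
    refine ⟨?_, ?_, ih h3⟩
    · cases R with
      | nil => exact h1
      | cons r R => exact h1.tail
    · have : (List.map (List.drop 1) T).headD [] = (T.headD []).drop 1 := headD_tails T
      rw [this]
      exact above_drop h2

lemma place_mul {a b c : List ℕ} (h : P a = P b * P c) (p : ℕ) :
    place a p = place c (place b p) := by
  rw [← place_append]
  exact place_congr (by rw [h, P_append]) p

lemma disp_cols (L : ℕ) : ∀ {T : List (List ℕ)}, Tb T → (T.headD []).length ≤ L → ∀ p,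
    place (word T) p ≤ p + L := by
  induction L with
  | zero =>
    intro T hT hL p
    rw [hT.empty (List.length_eq_zero_iff.mp (by omega))]
    simp [place_nil]
  | succ L ih =>
    intro T hT hL p
    rw [place_mul hT.peel]
    have h1 := ih hT.tails (by rw [headD_tails, List.length_drop]; omega) (place (heads T) p)
    have h2 := place_dec hT.heads_dec p
    omega

lemma disp_rows {T : List (List ℕ)} (hT : ∀ R ∈ T, Inc R) : ∀ p,
    p ≤ place (word T) p + T.length := by
  induction T with
  | nil => intro p; simp [word, place_nil]
  | cons R T ih =>
    intro p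
    have e1 : word (R :: T) = word T ++ R := rfl
    rw [e1, place_append]
    have h1 := ih (fun S hS => hT S (by simp [hS])) p
    have h2 := place_inc (hT R (by simp)) (place (word T) p)
    simp only [List.length_cons]
    omega

lemma word_append (A B : List (List ℕ)) : word (A ++ B) = word B ++ word A := by
  induction A with
  | nil => simp [word]
  | cons R A ih => simp [word, ih]

lemma Tab.inc_mem {T : List (List ℕ)} (h : Tab T) : ∀ R ∈ T, Inc R := by
  induction T with
  | nil => simp
  | cons R T ih =>
    intro S hS
    rcases List.mem_cons.mp hS with h1 | h1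
    · rw [h1]; exact h.2.1
    · exact ih h.2.2.2 S h1

lemma Tab.drop {T : List (List ℕ)} (h : Tab T) (k : ℕ) : Tab (T.drop k) := by
  induction k generalizing T with
  | zero => simpa using h
  | succ k ih => cases T with
    | nil => simp; trivial
    | cons R T => exact ih h.2.2.2

lemma mem_word_drop {T : List (List ℕ)} {k z : ℕ} (h : z ∈ word (T.drop k)) : z ∈ word T := by
  rw [← List.take_append_drop k T, word_append]
  simp [h]

/-- `L4`: if all particles beyond `M` have been carried to the places `1, ..., K`, then row `M - 1`
has at least `K` cells. -/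
theorem cell_of_crossed {n M K : ℕ} {T : List (List ℕ)} (hT : Tab T)
    (hr : ∀ j ∈ word T, 1 ≤ j ∧ j + 1 ≤ n) (hMK : M + K = n) (hM : 1 ≤ M)
    (H : ∀ x, M < x → x ≤ n → place (word T) x ≤ K) : K ≤ shp T (M - 1) := by
  set B := T.drop (M - 1) with hB
  set C := T.take (M - 1) with hC
  have hw : word T = word B ++ word C := by
    rw [← word_append, hB, hC, List.take_append_drop]
  have hsupp : Supp n (P (word B)) := Supp.P fun j hj => hr j (by rw [hw]; simp [hj])
  set z := P (word B) n with hz
  have hz2 := hsupp.mem (by omega : 1 ≤ n) le_rfl
  have hpz : place (word B) z = n := by rw [place_eq, hz]; simp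
  have h1 : n ≤ place (word T) z + C.length := by
    rw [hw, place_append, hpz]
    exact disp_rows (fun R hR => hT.inc_mem R (List.mem_of_mem_take hR)) n
  have h2 : C.length ≤ M - 1 := by rw [hC, List.length_take]; omega
  have hzM : z ≤ M := by
    by_contra hlt
    have := H z (by omega) hz2.2
    omega
  have h3 := disp_cols (shp T (M - 1)) (T := B) (hT.drop _).tb (by
    rw [hB, shp]
    simp [List.headD_eq_head?_getD, List.head?_drop, List.getD_eq_getElem?_getD]) z
  omega

end Pool.Agent.SNL63
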