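import Pool.Agent.SNL63.NetEG
import Pool.Agent.SNL63.SDefs

/-!
The Edelman–Greene correspondence with weights on the new cells; letters and new cells.
-/

namespace Pool.Agent.SNL63

open Pool.Agent.SN8 Finset

/-- the new cells (row, new length of the row) of the insertion of a word -/
def stp (T : List (List ℕ)) : List ℕ → List (ℕ × ℕ)
  | [] => []
  | x :: a => (idx T x, shp T (idx T x) + 1) :: stp (insT T x) a

lemma stp_length (T : List (List ℕ)) (a : List ℕ) : (stp T a).length = a.length := by
  induction a generalizing T with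
  | nil => rfl
  | cons x a ih => simp [stp, ih]

lemma stp_append (T : List (List ℕ)) (a : List ℕ) (x : ℕ) :
    stp T (a ++ [x]) = stp T a ++ [(idx (a.foldl insT T) x, shp (a.foldl insT T) (idx (a.foldl insT T) x) + 1)] := by
  induction a generalizing T with
  | nil => rfl
  | cons y a ih => simp [stp, ih]

lemma stp_nil_append (a : List ℕ) (x : ℕ) :
    stp [] (a ++ [x]) = stp [] a ++ [(idx (tab a) x, shp (tab a) (idx (tab a) x) + 1)] :=
  stp_append [] a x

/-- the last step of the insertion, with the letter -/
lemma step' {n ℓ : ℕ} {T : List (List ℕ)} (hT : Tab T) (hr : Red n (word T))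
    (hl : (word T).length = ℓ + 1) :
    ∃ (Tp : ℕ → List (List ℕ)) (xp : ℕ → ℕ), (∀ i ∈ corners n (shp T), Tab (Tp i) ∧
        Red n (word (Tp i)) ∧ (word (Tp i)).length = ℓ ∧ shp (Tp i) = dec (shp T) i ∧
        idx (Tp i) (xp i) = i ∧ shp (Tp i) i + 1 = shp T i) ∧
      Fib n T = (⋃ i ∈ (corners n (shp T) : Set ℕ), (fun a => a ++ [xp i]) '' Fib n (Tp i)) ∧
      (corners n (shp T) : Set ℕ).PairwiseDisjoint (fun i =>
        (fun a => a ++ [xp i]) '' Fib n (Tp i)) := by
  classical
  have hex : ∀ i : ℕ, ∃ p : List (List ℕ) × ℕ, i ∈ corners n (shp T) →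
      Tab p.1 ∧ Red n (word p.1 ++ [p.2]) ∧ insT p.1 p.2 = T ∧ idx p.1 p.2 = i := by
    intro i
    by_cases hi : i ∈ corners n (shp T)
    · obtain ⟨T', x, h⟩ := exists_insT hT hr i (mem_filter.mp hi).2
      exact ⟨(T', x), fun _ => h⟩
    · exact ⟨([], 0), fun h => absurd h hi⟩
  choose p hp using hex
  have hshape : ∀ T' x, Tab T' → Red n (word T' ++ [x]) → insT T' x = T →
      idx T' x ∈ corners n (shp T) ∧ (word T').length = ℓ ∧ shp T' = dec (shp T) (idx T' x) ∧
        shp T' (idx T' x) + 1 = shp T (idx T' x) := by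
    intro T' x h1 h2 h3
    obtain ⟨s1, s2, s3, s4, s5⟩ := insT_spec h1 h2
    rw [h3] at s1 s2 s3 s4 s5
    have hi1 : shp T (idx T' x + 1) = shp T' (idx T' x + 1) := by
      rw [s5, Function.update_of_ne (by omega)]
    have hi2 : shp T (idx T' x) = shp T' (idx T' x) + 1 := by rw [s5, Function.update_self]
    have hi3 := h1.anti_succ (idx T' x)
    refine ⟨?_, by omega, ?_, hi2.symm⟩
    · rw [corners, mem_filter, mem_range]
      refine ⟨?_, by omega⟩
      have := shape_le hT hr.1 (idx T' x)
      omega
    · funext j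
      by_cases hj : j = idx T' x
      · subst hj; rw [dec, Function.update_self]; omega
      · rw [dec, Function.update_of_ne hj, s5, Function.update_of_ne hj]
  refine ⟨fun i => (p i).1, fun i => (p i).2, ?_, ?_, ?_⟩
  · intro i hi
    obtain ⟨h1, h2, h3, h4⟩ := hp i hi
    obtain ⟨k1, k2, k3, k4⟩ := hshape _ _ h1 h2 h3
    rw [h4] at k3 k4
    exact ⟨h1, h2.left, k2, k3, h4, k4⟩
  · ext a
    simp only [Set.mem_iUnion, Set.mem_image, exists_prop, Finset.mem_coe]
    constructor
    · rintro ⟨ha1, ha2⟩
      have hne : a ≠ [] := by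
        rintro rfl
        rw [tab_nil] at ha2
        rw [← ha2] at hl
        simp [word] at hl
      obtain ⟨a', x, rfl⟩ : ∃ a' x, a = a' ++ [x] := ⟨a.dropLast, a.getLast hne,
        (List.dropLast_append_getLast hne).symm⟩
      rw [tab_append] at ha2
      obtain ⟨b1, b2, b3, b4⟩ := tab_spec ha1.left
      have hr' : Red n (word (tab a') ++ [x]) := by
        apply ha1.congr
        · intro j hj
          rw [List.mem_append] at hj
          rcases hj with hj | hj
          · exact ha1.1 j (by simp [b4 j hj])
          · exact ha1.1 j (by rw [List.mem_append]; exact Or.inr hj)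
        · rw [P_append, P_append, b2]
        · simp [b3]
      obtain ⟨c1, c2, c3, _⟩ := hshape _ _ b1 hr' ha2
      obtain ⟨h1, h2, h3, h4⟩ := hp _ c1
      obtain ⟨d1, d2⟩ := insT_inj b1 h1 hr' h2 (ha2.trans h3.symm) h4.symm
      refine ⟨idx (tab a') x, c1, a', ⟨ha1.left, d1⟩, ?_⟩
      rw [← d2]
    · rintro ⟨i, hi, a', ⟨ha1, ha2⟩, rfl⟩
      obtain ⟨h1, h2, h3, h4⟩ := hp i hi
      obtain ⟨b1, b2, b3, b4⟩ := tab_spec ha1
      rw [ha2] at b1 b2 b3 b4
      have hr' : Red n (a' ++ [(p i).2]) := by
        apply h2.congr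
        · intro j hj
          rw [List.mem_append] at hj
          rcases hj with hj | hj
          · exact ha1.1 j hj
          · exact h2.1 j (by rw [List.mem_append]; exact Or.inr hj)
        · rw [P_append, P_append, b2]
        · simp [b3]
      exact ⟨hr', by rw [tab_append, ha2, h3]⟩
  · intro i hi j hj hij
    rw [Function.onFun, Set.disjoint_left]
    rintro _ ⟨a, ⟨_, ha⟩, rfl⟩ ⟨b, ⟨_, hb⟩, hab⟩
    have h5 := List.append_inj' hab rfl
    have h6 : b = a := h5.1
    have h7 : (p j).2 = (p i).2 := by simpa using h5.2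
    apply hij
    have e1 : (p i).1 = (p j).1 := by
      have ha' : tab a = (p i).1 := ha
      have hb' : tab b = (p j).1 := hb
      rw [← ha', ← hb', h6]
    rw [← (hp i hi).2.2.2, ← (hp j hj).2.2.2, e1, h7]

/-- the product of the weights of the new cells of the letters after the first `k` -/
noncomputable def wt (w : ℕ → ℕ → ℝ) (k : ℕ) (a : List ℕ) : ℝ :=
  (((stp [] a).drop k).map (fun p => w p.1 p.2)).prod

theorem fib_weight {n : ℕ} (w : ℕ → ℕ → ℝ) : ∀ (s : ℕ) {k : ℕ} {T : List (List ℕ)}, Tab T →
    Red n (word T) → (word T).length = s + k →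
    ∑ᶠ a ∈ Fib n T, wt w k a = BW n w s k (shp T) := by
  intro s
  induction s with
  | zero =>
    intro k T hT hr hl
    rw [BW, ← fib_card k hT hr (by omega)]
    have h1 : ∀ a ∈ Fib n T, wt w k a = 1 := by
      intro a ha
      have h2 : (stp [] a).drop k = [] := by
        apply List.drop_of_length_le
        rw [stp_length, fib_length ha]; omega
      simp [wt, h2]
    rw [finsum_mem_congr rfl h1, finsum_mem_eq_finite_toFinset_sum _ (fib_finite n T),
      Finset.sum_const, Set.ncard_eq_toFinset_card _ (fib_finite n T)]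
    simp
  | succ s ih =>
    intro k T hT hr hl
    obtain ⟨Tp, xp, h1, h2, h3⟩ := step' hT hr (ℓ := s + k) (by omega)
    rw [h2, finsum_mem_biUnion h3 (Finset.finite_toSet _)
      (fun i _ => (fib_finite n (Tp i)).image _), finsum_mem_coe_finset, BW]
    refine Finset.sum_congr rfl fun i hi => ?_
    obtain ⟨a1, a2, a3, a4, a5, a6⟩ := h1 i hi
    rw [finsum_mem_image (fun a _ b _ hab => (List.append_inj' hab rfl).1), ← a4, ← ih a1 a2 a3,
      mul_finsum_mem]
    refine finsum_mem_congr rfl fun a ha => ?_
    have hlen : (stp [] a).length = s + k := by rw [stp_length, fib_length ha, a3]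
    rw [wt, stp_nil_append, ha.2, a5, a6, List.drop_append_of_le_length (by omega),
      List.map_append, List.prod_append]
    simp [wt, mul_comm]

/-! ### letters and new cells -/

/-- number of entries below `x` of an increasing row -/
def cnt : List ℕ → ℕ → ℕ
  | [], _ => 0
  | r :: R, x => if r < x then cnt R x + 1 else 0

lemma cnt_le {R : List ℕ} (hR : Inc R) {x : ℕ} : ∀ {a : ℕ}, (∀ z ∈ R, a < z) →
    cnt R x ≤ x - 1 - a := by
  induction R with
  | nil => intro a _; simp [cnt]
  | cons r R ih =>
    intro a h
    rw [cnt]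
    split_ifs with h1
    · have := ih hR.tail (a := r) (fun z hz => hR.lt z hz)
      have h2 := h r (by simp)
      omega
    · omega

lemma cnt_all {R : List ℕ} {x : ℕ} (h : ∀ r ∈ R, r < x) : cnt R x = R.length := by
  induction R with
  | nil => rfl
  | cons r R ih =>
    rw [cnt, if_pos (h r (by simp)), ih fun z hz => h z (by simp [hz])]
    rfl

lemma cnt_step {R S R' : List ℕ} {x y : ℕ} (hAb : Above R S) (h : ins R x = (R', some y)) :
    cnt S y ≤ cnt R x := by
  induction R generalizing S R' with
  | nil => simp [ins] at h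
  | cons r R ih =>
    cases S with
    | nil => simp [cnt]
    | cons s S =>
      have hrs := hAb.1
      rcases lt_trichotomy x r with h1 | h1 | h1
      · rw [ins_lt R h1] at h
        simp only [Prod.mk.injEq, Option.some.injEq] at h
        obtain ⟨rfl, rfl⟩ := h
        rw [cnt, if_neg (by omega)]; omega
      · subst h1
        rw [ins_eq] at h
        simp only [Prod.mk.injEq, Option.some.injEq] at h
        obtain ⟨rfl, rfl⟩ := h
        rw [cnt, if_neg (by omega)]; omega
      · rw [ins_gt R h1] at h
        simp only [Prod.mk.injEq] at h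
        obtain ⟨rfl, h3⟩ := h
        have h4 : ins R x = ((ins R x).1, some y) := Prod.ext rfl h3
        have := ih hAb.2 h4
        rw [cnt, cnt, if_pos h1]
        split_ifs <;> omega

lemma cell_col {T : List (List ℕ)} (hT : Tab T) (x : ℕ) :
    shp T (idx T x) ≤ cnt (T.headD []) x := by
  induction T generalizing x with
  | nil => simp [shp]
  | cons R T ih =>
    rcases ins_cases R x with ⟨R', h⟩ | ⟨R', y, h⟩
    · rw [(insT_none (T := T) h).2, shp_cons_zero, List.headD_cons, cnt_all (ins_none h).2]
    · rw [(insT_some (T := T) h).2, shp_cons_succ, List.headD_cons]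
      exact (ih hT.2.2.2 y).trans (cnt_step hT.2.2.1 h)

lemma head_sub_word (T : List (List ℕ)) : ∀ z ∈ T.headD [], z ∈ word T := by
  cases T with
  | nil => simp
  | cons R T =>
    intro z hz
    show z ∈ word T ++ R
    simp only [List.headD_cons] at hz
    simp [hz]

/-- `L7`: the letter and the new cell -/
lemma cell_letter {n : ℕ} {T : List (List ℕ)} {x : ℕ} (hT : Tab T) (hr : Red n (word T ++ [x])) :
    shp T (idx T x) + 1 ≤ x ∧ x + idx T x + 1 ≤ n := by
  constructor
  · have h1 := cell_col hT x
    have h2 := cnt_le hT.inc_head (x := x) (a := 0) (fun z hz => by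
      have := (hr.1 z (by rw [List.mem_append]; exact Or.inl (head_sub_word T z hz))).1
      omega)
    have h3 := (hr.1 x (by simp)).1
    omega
  · induction T generalizing x with
    | nil =>
      have := (hr.1 x (by simp)).2
      simp only [idx]
      omega
    | cons R T ih =>
      obtain ⟨h1, h2, h3, h4⟩ := hT
      have hx := (hr.1 x (by simp)).2
      have hw : word (R :: T) ++ [x] = word T ++ (R ++ [x]) := by simp [word]
      rw [hw] at hr
      have hok := ok_of_red h2 hr.right
      rcases ins_cases R x with ⟨R', h⟩ | ⟨R', y, h⟩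
      · rw [(insT_none (T := T) h).2]; omega
      · obtain ⟨e3, e4⟩ := ins_P h2 hok h
        obtain ⟨e5, e6, _⟩ := ins_some h
        have hr2 : Red n ((word T ++ [y]) ++ R') := by
          apply hr.congr
          · intro j hj
            simp only [List.append_assoc, List.cons_append, List.nil_append, List.mem_append] at hj
            rcases hj with hj | hj
            · exact hr.1 j (by simp [hj])
            · exact hr.1 j (by rw [List.mem_append]; exact Or.inr (e4 j hj))
          · rw [List.append_assoc, P_append, P_append (word T), e3]; rfl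
          · simp only [List.length_append, List.length_cons, List.length_nil]; omega
        rw [(insT_some (T := T) h).2]
        have := ih h4 hr2.left
        omega

lemma sum_shp {T : List (List ℕ)} (hT : Tab T) {n : ℕ} (h : T.length ≤ n) :
    ∑ i ∈ range n, shp T i = (word T).length := by
  induction T generalizing n with
  | nil => simp [shp, word]
  | cons R T ih =>
    obtain ⟨n, rfl⟩ : ∃ m, n = m + 1 := ⟨n - 1, by simp only [List.length_cons] at h; omega⟩
    rw [Finset.sum_range_succ']
    simp only [shp_cons_succ, shp_cons_zero]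
    rw [ih hT.2.2.2 (by simpa using h)]
    show _ = (word T ++ R).length
    rw [List.length_append]

lemma length_le_of_red {n : ℕ} {T : List (List ℕ)} (hT : Tab T)
    (hr : ∀ j ∈ word T, 1 ≤ j ∧ j + 1 ≤ n) : T.length ≤ n := by
  by_contra h
  push Not at h
  have h1 := (shp_pos_iff hT n).mpr h
  have h2 := shape_le hT hr n
  omega

lemma tri_sum (d : ℕ) : 2 * ∑ t ∈ range (d + 1), (d + 1 - t) = (d + 1) * (d + 2) := by
  induction d with
  | zero => simp
  | succ d ih =>
    rw [Finset.sum_range_succ']
    have : ∑ k ∈ range (d + 1), (d + 1 + 1 - (k + 1)) = ∑ t ∈ range (d + 1), (d + 1 - t) := by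
      apply Finset.sum_congr rfl; intro k _; omega
    rw [this, mul_add, ih]
    simp only [Nat.sub_zero]
    ring

/-- the depth of a new cell -/
lemma depth_le {n : ℕ} {T : List (List ℕ)} {x : ℕ} (hT : Tab T) (hr : Red n (word T ++ [x])) :
    (n - 2 - idx T x - shp T (idx T x)) ^ 2 ≤ 2 * (n.choose 2 - (word T).length) := by
  obtain ⟨c1, c2⟩ := cell_letter hT hr
  have hrT : ∀ j ∈ word T, 1 ≤ j ∧ j + 1 ≤ n := fun j hj => hr.1 j (by simp [hj])
  set i := idx T x with hi
  set q := shp T i with hq
  set d := n - 2 - i - q with hd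
  have hle : ∀ j, shp T j ≤ stair n j := fun j => shape_le hT hrT j
  have hsum1 : ∑ j ∈ range n, shp T j = (word T).length := sum_shp hT (length_le_of_red hT hrT)
  have hsum2 : ∑ j ∈ range n, stair n j = n.choose 2 := by
    have h := (T0_tab n)
    have h2 := sum_shp h.1 (length_le_of_red h.1 h.2.1.1)
    rw [shp_T0] at h2
    rw [h2, h.2.2]
  have hdiff : ∑ j ∈ range n, (stair n j - shp T j) = n.choose 2 - (word T).length := by
    rw [← hsum1, ← hsum2, Finset.sum_tsub_distrib _ (fun j _ => hle j)]
  have hsub : ∑ t ∈ range (d + 1), (d + 1 - t) ≤ ∑ j ∈ range n, (stair n j - shp T j) := by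
    calc ∑ t ∈ range (d + 1), (d + 1 - t)
        ≤ ∑ t ∈ range (d + 1), (stair n (i + t) - shp T (i + t)) := by
          apply Finset.sum_le_sum
          intro t ht
          rw [mem_range] at ht
          have h1 : shp T (i + t) ≤ q := hT.anti (by omega)
          have h2 : stair n (i + t) = n - 1 - (i + t) := rfl
          rw [h2]
          omega
      _ = ∑ j ∈ (range (d + 1)).image (fun t => i + t), (stair n j - shp T j) := by
          rw [Finset.sum_image]
          intro a _ b _ hab
          simpa using hab
      _ ≤ _ := by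
          apply Finset.sum_le_sum_of_subset
          intro j hj
          rw [mem_image] at hj
          obtain ⟨t, ht, rfl⟩ := hj
          rw [mem_range] at ht ⊢
          omega
  have htri := tri_sum d
  rw [hdiff] at hsub
  nlinarith

end Pool.Agent.SNL63
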