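import Pool.Agent.SNL63.DoSeq
import Pool.Agent.SNL63.EGW

/-!
# The number of the reduced tableaux of a given shape
-/

set_option autoImplicit false

namespace Pool.Agent.SNL63

open Pool.Agent.SN8 Finset

/-- the entry of a tableau -/
def ent (T : List (List ℕ)) (i j : ℕ) : ℕ := (T.getD i []).getD j 0

theorem above_getD : ∀ {R S : List ℕ}, Above R S → ∀ j < S.length, j < R.length ∧ R.getD j 0 < S.getD j 0 := by
  intro R S
  induction S generalizing R with
  | nil => intro _ j hj; simp at hj
  | cons s S ih =>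
    intro h j hj
    cases R with
    | nil => exact absurd h (not_nil_above _ _)
    | cons r R =>
      rw [above_cons] at h
      cases j with
      | zero => exact ⟨by simp, by simpa using h.1⟩
      | succ j =>
        have h1 := ih h.2 j (by simpa using hj)
        exact ⟨by simpa using h1.1, by simpa using h1.2⟩

theorem inc_getD {R : List ℕ} (h : Inc R) {j : ℕ} (hj : j + 1 < R.length) : R.getD j 0 < R.getD (j + 1) 0 := by
  rw [List.getD_eq_getElem _ _ (by omega), List.getD_eq_getElem _ _ hj]
  exact List.pairwise_iff_getElem.1 h j (j + 1) (by omega) hj (by omega)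

theorem tab_rows {T : List (List ℕ)} (hT : Tab T) (i : ℕ) :
    Inc (T.getD i []) ∧ Above (T.getD i []) (T.getD (i + 1) []) := by
  induction T generalizing i with
  | nil => exact ⟨List.Pairwise.nil, above_nil _⟩
  | cons R T ih =>
    cases i with
    | zero =>
      refine ⟨hT.2.1, ?_⟩
      have h := hT.2.2.1
      cases T with
      | nil => exact above_nil _
      | cons S T => exact h
    | succ i => exact ih hT.2.2.2 i

theorem ent_row {T : List (List ℕ)} (hT : Tab T) {i j : ℕ} (h : j + 1 < shp T i) : ent T i j < ent T i (j + 1) :=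
  inc_getD (tab_rows hT i).1 h

theorem ent_col {T : List (List ℕ)} (hT : Tab T) {i j : ℕ} (h : j < shp T (i + 1)) : ent T i j < ent T (i + 1) j :=
  (above_getD (tab_rows hT i).2 j h).2

theorem ent_mem {T : List (List ℕ)} {i j : ℕ} (h : j < shp T i) : ent T i j ∈ word T := by
  induction T generalizing i with
  | nil => simp [shp] at h
  | cons R T ih =>
    show _ ∈ word T ++ R
    rw [List.mem_append]
    cases i with
    | zero =>
      right
      rw [shp_cons_zero] at h
      show R.getD j 0 ∈ R
      rw [List.getD_eq_getElem _ _ h]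
      exact List.getElem_mem h
    | succ i =>
      left
      rw [shp_cons_succ] at h
      exact ih h

theorem ent_ge {T : List (List ℕ)} (hT : Tab T) (h1 : ∀ z ∈ word T, 1 ≤ z) {i j : ℕ} (h : j < shp T i) :
    i + j + 1 ≤ ent T i j := by
  have hcol : ∀ i, 0 < shp T i → i + 1 ≤ ent T i 0 := by
    intro i
    induction i with
    | zero =>
      intro h
      exact h1 _ (ent_mem h)
    | succ i ih =>
      intro h
      have h2 := ent_col hT h
      have h3 := ih (lt_of_lt_of_le h (hT.anti_succ i))
      omega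
  induction j with
  | zero => exact hcol i h
  | succ j ih =>
    have h2 := ent_row hT h
    have h3 := ih (by omega)
    omega

theorem tab_ext {T T' : List (List ℕ)} (hT : Tab T) (hT' : Tab T') (hs : shp T = shp T')
    (he : ∀ i j, j < shp T i → ent T i j = ent T' i j) : T = T' := by
  have hl : T.length = T'.length := by
    apply le_antisymm
    · by_contra h
      push Not at h
      have h1 := (shp_pos_iff hT T'.length).2 h
      rw [hs] at h1
      exact lt_irrefl _ ((shp_pos_iff hT' _).1 h1)
    · by_contra h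
      push Not at h
      have h1 := (shp_pos_iff hT' T.length).2 h
      rw [← hs] at h1
      exact lt_irrefl _ ((shp_pos_iff hT _).1 h1)
  apply List.ext_getElem hl
  intro i h1 h2
  have hr : T.getD i [] = T[i] := List.getD_eq_getElem _ _ h1
  have hr' : T'.getD i [] = T'[i] := List.getD_eq_getElem _ _ h2
  have hsi : T[i].length = T'[i].length := by
    have := congrFun hs i
    unfold shp at this
    rwa [hr, hr'] at this
  apply List.ext_getElem hsi
  intro j h3 h4
  have h5 := he i j (by unfold shp; rw [hr]; exact h3)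
  unfold ent at h5
  rw [hr, hr', List.getD_eq_getElem _ _ h3, List.getD_eq_getElem _ _ h4] at h5
  exact h5

/-- upward closed predicates on a range -/
theorem seg {M : ℕ} {p : ℕ → Prop} [DecidablePred p] (h : ∀ i, i + 1 < M → p i → p (i + 1)) {i : ℕ} (hi : i < M) :
    p i ↔ M ≤ i + ((range M).filter p).card := by
  have hup : ∀ d k, k + d < M → p k → p (k + d) := by
    intro d
    induction d with
    | zero => intro k _ hk; exact hk
    | succ d ih =>
      intro k hk hpk
      exact h (k + d) (by omega) (ih k (by omega) hpk)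
  constructor
  · intro hp
    have h1 : Ico i M ⊆ (range M).filter p := by
      intro k hk
      rw [mem_Ico] at hk
      rw [mem_filter, mem_range]
      refine ⟨hk.2, ?_⟩
      have := hup (k - i) i (by omega) hp
      rwa [Nat.add_sub_cancel' hk.1] at this
    have h2 := card_le_card h1
    rw [Nat.card_Ico] at h2
    omega
  · intro hM
    by_contra hp
    have h1 : (range M).filter p ⊆ Ico (i + 1) M := by
      intro k hk
      rw [mem_filter, mem_range] at hk
      rw [mem_Ico]
      refine ⟨?_, hk.1⟩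
      by_contra hki
      apply hp
      have := hup (i - k) k (by omega) hk.2
      rwa [Nat.add_sub_cancel' (by omega)] at this
    have h2 := card_le_card h1
    rw [Nat.card_Ico] at h2
    omega

/-- the cells of column `j` above the antidiagonal `m` which are missing or have a large entry -/
def Bg (n : ℕ) (T : List (List ℕ)) (m j i : ℕ) : Prop := shp T i ≤ j ∨ i + j + (n - m) ≤ ent T i j

instance (n : ℕ) (T : List (List ℕ)) (m j : ℕ) : DecidablePred (Bg n T m j) := fun _ => by
  unfold Bg
  infer_instance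

/-- their number -/
def rr (n : ℕ) (T : List (List ℕ)) (m j : ℕ) : ℕ := ((range (m + 1 - j)).filter (Bg n T m j)).card

theorem bg_up {n : ℕ} {T : List (List ℕ)} (hT : Tab T) {m j i : ℕ} (h : Bg n T m j i) : Bg n T m j (i + 1) := by
  unfold Bg at h ⊢
  have h1 := hT.anti_succ i
  rcases h with h | h
  · left
    omega
  · by_cases h2 : j < shp T (i + 1)
    · right
      have := ent_col hT h2
      omega
    · left
      omega

theorem bg_iff {n : ℕ} {T : List (List ℕ)} (hT : Tab T) {m j i : ℕ} (hi : i + j ≤ m) :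
    Bg n T m j i ↔ m + 1 ≤ i + j + rr n T m j := by
  have h := seg (M := m + 1 - j) (p := Bg n T m j) (fun i _ h => bg_up hT h) (i := i) (by omega)
  rw [h]
  unfold rr
  omega

/-- the missing cells of the antidiagonal -/
def PP (lam : ℕ → ℕ) (m : ℕ) : Finset ℕ := (range (m + 1)).filter (fun j => lam (m - j) ≤ j)

theorem rr_mem {n : ℕ} {T : List (List ℕ)} (hT : Tab T) (hw : ∀ z ∈ word T, 1 ≤ z ∧ z + 1 ≤ n) {m : ℕ}
    (hm : m + 2 ≤ n) : rr n T m ∈ SQ m (PP (shp T) m) := by
  refine ⟨?_, ?_, ?_, ?_⟩
  · intro j hj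
    have h1 := bg_iff (n := n) hT (m := m) (j := j) (i := m - j) (by omega)
    unfold PP
    rw [mem_filter, mem_range]
    constructor
    · intro h
      have h2 := h1.2 (by omega)
      rcases h2 with h2 | h2
      · exact ⟨by omega, h2⟩
      · refine ⟨by omega, ?_⟩
        by_contra h3
        have := (hw _ (ent_mem (T := T) (i := m - j) (j := j) (by omega))).2
        omega
    · rintro ⟨-, h⟩
      have := h1.1 (Or.inl h)
      omega
  · intro j hj
    have h1 : (range (m + 1 - j)).filter (Bg n T m j) ⊆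
        insert (m - j) ((range (m + 1 - (j + 1))).filter (Bg n T m (j + 1))) := by
      intro i hi
      rw [mem_filter, mem_range] at hi
      rw [mem_insert, mem_filter, mem_range]
      by_cases h2 : i = m - j
      · exact Or.inl h2
      · right
        refine ⟨by omega, ?_⟩
        unfold Bg at hi ⊢
        rcases hi.2 with h3 | h3
        · left
          omega
        · by_cases h4 : j + 1 < shp T i
          · right
            have := ent_row hT h4
            omega
          · left
            omega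
    exact (card_le_card h1).trans (card_insert_le _ _)
  · unfold rr
    refine (card_filter_le _ _).trans ?_
    rw [card_range]
    omega
  · intro j hj
    unfold rr
    have : m + 1 - j = 0 := by omega
    rw [this]
    simp

theorem tab_of_rr {n : ℕ} {T T' : List (List ℕ)} (hT : Tab T) (hT' : Tab T')
    (hw : ∀ z ∈ word T, 1 ≤ z ∧ z + 1 ≤ n) (hw' : ∀ z ∈ word T', 1 ≤ z ∧ z + 1 ≤ n) (hs : shp T = shp T')
    (hr : ∀ m, m + 2 ≤ n → rr n T m = rr n T' m) : T = T' := by
  have key : ∀ {T T' : List (List ℕ)}, Tab T → Tab T' → (∀ z ∈ word T, 1 ≤ z ∧ z + 1 ≤ n) →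
      (∀ z ∈ word T', 1 ≤ z ∧ z + 1 ≤ n) → shp T = shp T' → (∀ m, m + 2 ≤ n → rr n T m = rr n T' m) →
      ∀ i j, j < shp T i → ent T' i j ≤ ent T i j := by
    intro T T' hT hT' hw hw' hs hr i j hj
    by_contra h
    push Not at h
    have hj' : j < shp T' i := by rw [← hs]; exact hj
    have h1 := ent_ge hT (fun z hz => (hw z hz).1) hj
    have h2 := (hw' _ (ent_mem hj')).2
    obtain ⟨m, hm⟩ : ∃ m, m = n - (ent T' i j - (i + j)) := ⟨_, rfl⟩
    have h3 : Bg n T' m j i := Or.inr (by omega)
    rw [bg_iff hT' (by omega), ← hr m (by omega), ← bg_iff hT (by omega)] at h3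
    rcases h3 with h3 | h3
    · omega
    · omega
  refine tab_ext hT hT' hs fun i j hj => le_antisymm ?_ ?_
  · exact key hT' hT hw' hw hs.symm (fun m hm => (hr m hm).symm) i j (by rw [← hs]; exact hj)
  · exact key hT hT' hw hw' hs hr i j hj

theorem sum_PP {n s : ℕ} {lam : ℕ → ℕ} (hl : ∀ i, lam i ≤ n - 1 - i) (hs : ∑ i ∈ range n, lam i + s = n.choose 2) :
    ∑ m ∈ range (n - 1), (PP lam m).card = s := by
  have h1 : ∑ m ∈ range (n - 1), (PP lam m).card = ∑ m ∈ range (n - 1), ∑ j ∈ range (m + 1),
      (if lam (m - j) ≤ j then 1 else 0) := by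
    refine sum_congr rfl fun m _ => ?_
    unfold PP
    rw [card_filter]
  have h2 : ∑ m ∈ range (n - 1), ∑ j ∈ range (m + 1), (if lam (m - j) ≤ j then 1 else 0) =
      ∑ i ∈ range (n - 1), ∑ j ∈ range (n - 1 - i), (if lam i ≤ j then 1 else 0) := by
    rw [sum_sigma', sum_sigma']
    refine sum_bij' (fun x _ => ⟨x.1 - x.2, x.2⟩) (fun x _ => ⟨x.1 + x.2, x.2⟩) ?_ ?_ ?_ ?_ ?_
    · rintro ⟨m, j⟩ h
      simp only [mem_sigma, mem_range] at h ⊢
      omega
    · rintro ⟨i, j⟩ h
      simp only [mem_sigma, mem_range] at h ⊢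
      omega
    · rintro ⟨m, j⟩ h
      simp only [mem_sigma, mem_range] at h
      simp only [Sigma.mk.injEq, heq_eq_eq, and_true]
      omega
    · rintro ⟨i, j⟩ h
      simp only [mem_sigma, mem_range] at h
      simp only [Sigma.mk.injEq, heq_eq_eq, and_true]
      omega
    · rintro ⟨m, j⟩ h
      rfl
  have h3 : ∀ i ∈ range (n - 1), ∑ j ∈ range (n - 1 - i), (if lam i ≤ j then 1 else 0) + lam i = n - 1 - i := by
    intro i hi
    have h4 : (range (n - 1 - i)).filter (fun j => lam i ≤ j) = Ico (lam i) (n - 1 - i) := by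
      ext j
      rw [mem_filter, mem_range, mem_Ico]
      omega
    rw [← card_filter, h4, Nat.card_Ico]
    have := hl i
    omega
  have h4 : ∑ i ∈ range (n - 1), (∑ j ∈ range (n - 1 - i), (if lam i ≤ j then 1 else 0) + lam i) =
      ∑ i ∈ range (n - 1), (n - 1 - i) := sum_congr rfl h3
  rw [sum_add_distrib] at h4
  rw [h1, h2]
  have h5 : ∑ i ∈ range n, lam i = ∑ i ∈ range (n - 1), lam i := by
    rcases Nat.eq_zero_or_pos n with h | h
    · subst h
      rfl
    · obtain ⟨k, rfl⟩ : ∃ k, n = k + 1 := ⟨n - 1, by omega⟩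
      rw [sum_range_succ]
      have := hl k
      have : lam k = 0 := by omega
      rw [this]
      rfl
  have h6 : ∑ i ∈ range (n - 1), (n - 1 - i) = n.choose 2 := by
    rcases Nat.eq_zero_or_pos n with h | h
    · subst h
      rfl
    · obtain ⟨k, rfl⟩ : ∃ k, n = k + 1 := ⟨n - 1, by omega⟩
      have e1 : k + 1 - 1 = k := rfl
      rw [e1, Nat.choose_two_right]
      have h7 := Finset.sum_range_id_mul_two (k + 1)
      have h8 : ∀ k : ℕ, ∑ i ∈ range k, (k - i) = ∑ i ∈ range (k + 1), i := by
        intro k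
        induction k with
        | zero => rfl
        | succ k ih =>
          rw [Finset.sum_range_succ', Finset.sum_range_succ (fun i => i) (k + 1), ← ih]
          simp
      rw [h8]
      omega
  omega

/-- at most `4 ^ s` reduced tableaux of a given shape with `s` cells less than the staircase -/
theorem RT_shape_card (n s : ℕ) (hs : s ≤ n.choose 2) (lam : ℕ → ℕ) :
    ({T | T ∈ RT n (n.choose 2 - s) ∧ shp T = lam} : Set (List (List ℕ))).Finite ∧
    ({T | T ∈ RT n (n.choose 2 - s) ∧ shp T = lam} : Set (List (List ℕ))).ncard ≤ 4 ^ s := by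
  classical
  obtain ⟨A, hA⟩ : ∃ A : Set (List (List ℕ)), A = {T | T ∈ RT n (n.choose 2 - s) ∧ shp T = lam} := ⟨_, rfl⟩
  rw [← hA]
  rcases A.eq_empty_or_nonempty with h0 | ⟨T₀, h0⟩
  · rw [h0]
    simp
  have hl : ∀ i, lam i ≤ n - 1 - i := by
    rw [hA] at h0
    obtain ⟨⟨h1, h2, h3⟩, h4⟩ := h0
    intro i
    rw [← h4]
    exact shape_le h1 h2.1 i
  have hsum : ∑ i ∈ range n, lam i + s = n.choose 2 := by
    rw [hA] at h0
    obtain ⟨⟨h1, h2, h3⟩, h4⟩ := h0
    rw [← h4, sum_shp h1 (length_le_of_red h1 h2.1), h3]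
    omega
  obtain ⟨t, ht⟩ : ∃ t : Fin (n - 1) → Finset (ℕ → ℕ), ∀ m, t m = ((SQ_card m (PP lam m)).1).toFinset :=
    ⟨_, fun _ => rfl⟩
  obtain ⟨Φ, hΦ⟩ : ∃ Φ : List (List ℕ) → (Fin (n - 1) → (ℕ → ℕ)), ∀ T, Φ T = fun m : Fin (n - 1) => rr n T m :=
    ⟨fun T m => rr n T m, fun _ => rfl⟩
  have hmap : Set.MapsTo Φ A (Fintype.piFinset t : Set (Fin (n - 1) → (ℕ → ℕ))) := by
    intro T hT
    rw [hA] at hT
    obtain ⟨⟨h1, h2, h3⟩, h4⟩ := hT
    rw [Finset.mem_coe, Fintype.mem_piFinset]
    intro m
    rw [hΦ, ht, Set.Finite.mem_toFinset, ← h4]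
    exact rr_mem h1 h2.1 (by have := m.2; omega)
  have hinj : Set.InjOn Φ A := by
    intro T hT T' hT' hTT
    rw [hA] at hT hT'
    obtain ⟨⟨h1, h2, h3⟩, h4⟩ := hT
    obtain ⟨⟨h1', h2', h3'⟩, h4'⟩ := hT'
    rw [hΦ, hΦ] at hTT
    exact tab_of_rr h1 h1' h2.1 h2'.1 (h4.trans h4'.symm) fun m hm => congrFun hTT ⟨m, by omega⟩
  have hfin : A.Finite := Set.Finite.of_injOn hmap hinj (Finset.finite_toSet _)
  refine ⟨hfin, ?_⟩
  have h1 := Set.ncard_le_ncard_of_injOn Φ hmap hinj (Finset.finite_toSet _)
  refine h1.trans ?_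
  rw [Set.ncard_coe_finset, Fintype.card_piFinset]
  have h2 : ∀ m : Fin (n - 1), (t m).card ≤ 4 ^ (PP lam m).card := by
    intro m
    rw [ht, ← Set.ncard_eq_toFinset_card _ (SQ_card m (PP lam m)).1]
    exact (SQ_card m (PP lam m)).2
  refine (Finset.prod_le_prod' fun m _ => h2 m).trans ?_
  rw [Finset.prod_pow_eq_pow_sum, Fin.sum_univ_eq_sum_range (fun m => (PP lam m).card), sum_PP hl hsum]

end Pool.Agent.SNL63
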