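import Pool.Agent.SNL63.DoShp
import Pool.Agent.SNL63.DoTab

/-!
The number of reduced tableaux with `s` cells less than the staircase.
-/

namespace Pool.Agent.SNL63

open Pool.Agent.SN8

theorem RT_card (n s : ℕ) (hs : s ≤ n.choose 2) :
    (RT n (n.choose 2 - s)).Finite ∧ (RT n (n.choose 2 - s)).ncard ≤ 4 ^ (n + s) := by
  classical
  obtain ⟨hSf, hSc⟩ := shapes_card n
  obtain ⟨S, hS⟩ : ∃ S : Set (ℕ → ℕ), S = {lam | Antitone lam ∧ ∀ i, lam i ≤ stair n i} := ⟨_, rfl⟩
  rw [← hS] at hSf hSc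
  have hmem : ∀ T ∈ RT n (n.choose 2 - s), shp T ∈ S := by
    rintro T ⟨h1, h2, -⟩
    rw [hS]
    exact ⟨h1.anti, fun i => shape_le h1 h2.1 i⟩
  have hU : RT n (n.choose 2 - s) = ⋃ lam ∈ S, {T | T ∈ RT n (n.choose 2 - s) ∧ shp T = lam} := by
    ext T
    simp only [Set.mem_iUnion, exists_prop]
    exact ⟨fun h => ⟨_, hmem T h, h, rfl⟩, fun ⟨_, _, h, _⟩ => h⟩
  have hfin : (RT n (n.choose 2 - s)).Finite := by
    rw [hU]
    exact hSf.biUnion fun lam _ => (RT_shape_card n s hs lam).1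
  refine ⟨hfin, ?_⟩
  have h1 := Finset.card_le_mul_card_image (f := shp) hfin.toFinset (4 ^ s) (by
    intro lam _
    have h2 := (RT_shape_card n s hs lam)
    rw [Set.ncard_eq_toFinset_card _ h2.1] at h2
    refine le_trans (Finset.card_le_card ?_) h2.2
    intro T hT
    rw [Finset.mem_filter, Set.Finite.mem_toFinset] at hT
    rw [Set.Finite.mem_toFinset]
    exact hT)
  have h3 : (hfin.toFinset.image shp).card ≤ 4 ^ n := by
    rw [Set.ncard_eq_toFinset_card _ hSf] at hSc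
    refine le_trans (Finset.card_le_card ?_) hSc
    intro lam hlam
    rw [Finset.mem_image] at hlam
    obtain ⟨T, hT, rfl⟩ := hlam
    rw [Set.Finite.mem_toFinset] at hT ⊢
    exact hmem T hT
  rw [Set.ncard_eq_toFinset_card _ hfin]
  calc hfin.toFinset.card ≤ 4 ^ s * (hfin.toFinset.image shp).card := h1
    _ ≤ 4 ^ s * 4 ^ n := Nat.mul_le_mul_left _ h3
    _ = 4 ^ (n + s) := by rw [pow_add, mul_comm]

end Pool.Agent.SNL63
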