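import Pool.Agent.SNL63.SDefs

/-!
# Kerov's identity: the generating function of the removed corner

With `ℓ_i = lam i - i - 1` the partial fractions of `(z + n) ∏ (z - ℓ_i - 1) / (z - ℓ_i)` have the shares of the corners
as their coefficients, and the removal of a corner multiplies the product by `(z - y)² / ((z - y)² - 1)`.
-/

set_option autoImplicit false

namespace Pool.Agent.SNL63

open Pool.Agent.SN8 Finset

/-! ### Partial fractions -/

/-- the coefficients of the partial fractions -/
noncomputable def Kerov_B (x : ℕ → ℝ) (S : Finset ℕ) (a : ℕ) : ℝ := ∏ i ∈ S.erase a, (1 - 1 / (x a - x i))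

theorem Kerov_B_insert (x : ℕ → ℝ) {S : Finset ℕ} {a b : ℕ} (hb : b ∉ S) (ha : a ∈ S) :
    Kerov_B x (insert b S) a = (1 - 1 / (x a - x b)) * Kerov_B x S a := by
  have hab : b ≠ a := fun h => hb (h ▸ ha)
  unfold Kerov_B
  rw [erase_insert_of_ne hab, prod_insert (fun h => hb (mem_of_mem_erase h))]

theorem Kerov_B_self (x : ℕ → ℝ) {S : Finset ℕ} {b : ℕ} (hb : b ∉ S) :
    Kerov_B x (insert b S) b = ∏ i ∈ S, (1 - 1 / (x b - x i)) := by
  unfold Kerov_B
  rw [erase_insert hb]

theorem Kerov_pf {x : ℕ → ℝ} (hx : Function.Injective x) (S : Finset ℕ) :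
    ∀ z : ℝ, (∀ i ∈ S, z ≠ x i) → ∏ i ∈ S, (1 - 1 / (z - x i)) = 1 - ∑ a ∈ S, Kerov_B x S a / (z - x a) := by
  induction S using Finset.induction_on with
  | empty => intro z _; simp
  | insert b S hb ih =>
    intro z hz
    have hzb : z - x b ≠ 0 := sub_ne_zero.2 (hz b (mem_insert_self _ _))
    have h1 := ih z (fun i hi => hz i (mem_insert_of_mem hi))
    have h2 := ih (x b) (fun i hi h => hb ((hx h) ▸ hi))
    rw [prod_insert hb, sum_insert hb, Kerov_B_self x hb, h1, h2]
    have h3 : ∑ a ∈ S, Kerov_B x (insert b S) a / (z - x a) = ∑ a ∈ S, Kerov_B x S a / (z - x a) +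
        (∑ a ∈ S, Kerov_B x S a / (x b - x a) - ∑ a ∈ S, Kerov_B x S a / (z - x a)) / (z - x b) := by
      rw [← sum_sub_distrib, sum_div, ← sum_add_distrib]
      apply sum_congr rfl
      intro a ha
      have h4 : z - x a ≠ 0 := sub_ne_zero.2 (hz a (mem_insert_of_mem ha))
      have h5 : x b - x a ≠ 0 := sub_ne_zero.2 (fun h => hb ((hx h) ▸ ha))
      have h6 : x a - x b ≠ 0 := sub_ne_zero.2 (fun h => hb ((hx h) ▸ ha))
      rw [Kerov_B_insert x hb ha, show x a - x b = -(x b - x a) by ring]
      field_simp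
      ring
    rw [h3]
    field_simp
    ring

theorem Kerov_B_sum {x : ℕ → ℝ} (hx : Function.Injective x) (S : Finset ℕ) : ∑ a ∈ S, Kerov_B x S a = S.card := by
  induction S using Finset.induction_on with
  | empty => simp
  | insert b S hb ih =>
    have h2 := Kerov_pf hx S (x b) (fun i hi h => hb ((hx h) ▸ hi))
    rw [sum_insert hb, Kerov_B_self x hb, h2, card_insert_of_notMem hb]
    have h3 : ∑ a ∈ S, Kerov_B x (insert b S) a = ∑ a ∈ S, Kerov_B x S a + ∑ a ∈ S, Kerov_B x S a / (x b - x a) := by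
      rw [← sum_add_distrib]
      apply sum_congr rfl
      intro a ha
      have h5 : x b - x a ≠ 0 := sub_ne_zero.2 (fun h => hb ((hx h) ▸ ha))
      rw [Kerov_B_insert x hb ha, show x a - x b = -(x b - x a) by ring]
      field_simp
      ring
    rw [h3, ih]
    push_cast
    ring

/-- the partial fractions of `(z + n) ∏ (z - x_i - 1) / (z - x_i)` -/
theorem Kerov_pf' {x : ℕ → ℝ} (hx : Function.Injective x) (n : ℕ) {z : ℝ} (hz : ∀ i ∈ range n, z ≠ x i) :
    ∑ a ∈ range n, (x a + n) * Kerov_B x (range n) a / (z - x a) = z - (z + n) * ∏ i ∈ range n, (1 - 1 / (z - x i)) := by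
  rw [Kerov_pf hx _ z hz]
  have h1 := Kerov_B_sum hx (range n)
  rw [card_range] at h1
  have h2 : ∑ a ∈ range n, (x a + n) * Kerov_B x (range n) a / (z - x a) =
      (z + n) * ∑ a ∈ range n, Kerov_B x (range n) a / (z - x a) - ∑ a ∈ range n, Kerov_B x (range n) a := by
    rw [mul_sum, ← sum_sub_distrib]
    apply sum_congr rfl
    intro a ha
    have h3 : z - x a ≠ 0 := sub_ne_zero.2 (hz a ha)
    field_simp
    ring
  rw [h2, h1]
  ring

/-! ### The numbers `ℓ_i` -/

/-- `ℓ_i = lam i - i - 1` -/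
noncomputable def Kerov_l (lam : ℕ → ℕ) (i : ℕ) : ℝ := (lam i : ℝ) - 1 - i

theorem Kerov_l_inj {n : ℕ} {lam : ℕ → ℕ} (h : Shape n lam) : Function.Injective (Kerov_l lam) := by
  have h1 : ∀ i j : ℕ, i < j → Kerov_l lam j < Kerov_l lam i := by
    intro i j hij
    unfold Kerov_l
    have h2 : (lam j : ℝ) ≤ lam i := by exact_mod_cast h.anti hij.le
    have h3 : (i : ℝ) < j := by exact_mod_cast hij
    linarith
  intro i j hij
  rcases lt_trichotomy i j with h2 | h2 | h2
  · have := h1 i j h2
    linarith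
  · exact h2
  · have := h1 j i h2
    linarith

theorem Kerov_HH {n : ℕ} {lam : ℕ → ℕ} (h : Shape n lam) {z : ℝ} (hz : (lam 0 : ℝ) < z) :
    HH n lam z = (z + n) * ∏ i ∈ range n, (1 - 1 / (z - Kerov_l lam i)) := by
  unfold HH
  congr 1
  apply prod_congr rfl
  intro i _
  have h1 : (lam i : ℝ) ≤ lam 0 := by exact_mod_cast h.anti (Nat.zero_le i)
  have h2 : (0 : ℝ) ≤ i := Nat.cast_nonneg i
  have h3 : z - lam i + i + 1 ≠ 0 := by
    have : 0 < z - lam i + i + 1 := by linarith
    exact this.ne'
  have h4 : z - Kerov_l lam i = z - lam i + i + 1 := by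
    unfold Kerov_l
    ring
  rw [h4]
  field_simp
  ring

/-! ### Hooks of a row -/

/-- the product of `x / (x - 1)` over `2 ≤ x ≤ N` -/
theorem Kerov_tele (N : ℕ) (hN : 1 ≤ N) : ∏ x ∈ Icc 2 N, ((x : ℝ) / (x - 1)) = N := by
  induction N, hN using Nat.le_induction with
  | base => simp
  | succ N hN ih =>
    rw [prod_Icc_succ_top (by omega), ih]
    have h1 : (N : ℝ) ≠ 0 := by
      have : (0 : ℝ) < N := by exact_mod_cast hN
      exact this.ne'
    push_cast
    rw [show (N : ℝ) + 1 - 1 = N by ring]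
    field_simp

theorem Kerov_row {n : ℕ} {lam : ℕ → ℕ} (h : Shape n lam) {a : ℕ} (ha : a ∈ corners n lam) :
    ∏ j ∈ range (lam a - 1), (1 + 1 / (hm n lam a j : ℝ)) =
      (Kerov_l lam a + n) * ∏ i ∈ Ioo a n, (1 - 1 / (Kerov_l lam a - Kerov_l lam i)) := by
  have ha' := mem_corners.1 ha
  obtain ⟨N, hN⟩ : ∃ N, N + a + 1 = lam a + n := ⟨lam a + n - a - 1, by omega⟩
  have hN' : Kerov_l lam a + n = N := by
    have : (N : ℝ) + a + 1 = lam a + n := by exact_mod_cast hN
    unfold Kerov_l
    linarith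
  -- the two kinds of numbers
  have hf : ∀ j, j < lam a → hm n lam a j + 1 + j + a + 1 = lam a + col n lam j := by
    intro j hj
    have := (lt_iff_lt_col h a j).1 hj
    unfold hm
    omega
  have hcol : ∀ j, col n lam j ≤ n := by
    intro j
    unfold col
    have := card_filter_le (range n) (fun i => j < lam i)
    rwa [card_range] at this
  have hcolanti : ∀ j j', j ≤ j' → col n lam j' ≤ col n lam j := fun j j' hjj => mu_anti (n := n) lam hjj
  have hg : ∀ i ∈ Ioo a n, lam i < lam a := by
    intro i hi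
    rw [mem_Ioo] at hi
    have := h.anti (show a + 1 ≤ i by omega)
    omega
  have hinjf : Set.InjOn (fun j => hm n lam a j + 1) (range (lam a - 1) : Set ℕ) := by
    intro j hj j' hj' hjj
    rw [mem_coe, mem_range] at hj hj'
    have e : hm n lam a j + 1 = hm n lam a j' + 1 := hjj
    have h1 := hf j (by omega)
    have h2 := hf j' (by omega)
    rcases le_total j j' with h3 | h3
    · have := hcolanti j j' h3
      omega
    · have := hcolanti j' j h3
      omega
  have hinjg : Set.InjOn (fun i => lam a - lam i + (i - a)) (Ioo a n : Set ℕ) := by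
    intro i hi i' hi' hii
    have e : lam a - lam i + (i - a) = lam a - lam i' + (i' - a) := hii
    have h1 := hg i (mem_coe.1 hi)
    have h2 := hg i' (mem_coe.1 hi')
    have h3 := mem_Ioo.1 (mem_coe.1 hi)
    have h4 := mem_Ioo.1 (mem_coe.1 hi')
    rcases le_total i i' with h5 | h5
    · have := h.anti h5
      omega
    · have := h.anti h5
      omega
  have hdisj : Disjoint ((range (lam a - 1)).image (fun j => hm n lam a j + 1))
      ((Ioo a n).image (fun i => lam a - lam i + (i - a))) := by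
    rw [disjoint_left]
    intro x hx hx'
    rw [mem_image] at hx hx'
    obtain ⟨j, hj, rfl⟩ := hx
    obtain ⟨i, hi, hij⟩ := hx'
    rw [mem_range] at hj
    have h1 := hf j (by omega)
    have h2 := hg i hi
    have h3 := mem_Ioo.1 hi
    have h4 := lt_iff_lt_col h i j
    by_cases h5 : j < lam i
    · have := h4.1 h5
      omega
    · have : ¬ i < col n lam j := fun h6 => h5 (h4.2 h6)
      omega
  have hunion : (range (lam a - 1)).image (fun j => hm n lam a j + 1) ∪
      (Ioo a n).image (fun i => lam a - lam i + (i - a)) = Icc 2 N := by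
    apply eq_of_subset_of_card_le
    · intro x hx
      rw [mem_union, mem_image, mem_image] at hx
      rw [mem_Icc]
      rcases hx with ⟨j, hj, rfl⟩ | ⟨i, hi, rfl⟩
      · rw [mem_range] at hj
        have h1 := hf j (by omega)
        have h2 := hcol j
        have h3 := (lt_iff_lt_col h a j).1 (by omega)
        omega
      · have h2 := hg i hi
        have h3 := mem_Ioo.1 hi
        omega
    · rw [card_union_of_disjoint hdisj, card_image_of_injOn hinjf, card_image_of_injOn hinjg, card_range,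
        Nat.card_Ioo, Nat.card_Icc]
      omega
  have h1 := Kerov_tele N (by omega)
  rw [← hunion, prod_union hdisj, prod_image hinjf, prod_image hinjg] at h1
  have h2 : ∏ j ∈ range (lam a - 1), (((hm n lam a j + 1 : ℕ) : ℝ) / (((hm n lam a j + 1 : ℕ) : ℝ) - 1)) =
      ∏ j ∈ range (lam a - 1), (1 + 1 / (hm n lam a j : ℝ)) := by
    apply prod_congr rfl
    intro j hj
    rw [mem_range] at hj
    have h3 := hf j (by omega)
    have h4 := (lt_iff_lt_col h a j).1 (by omega)
    have h5 : 0 < hm n lam a j := by omega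
    have h6 : (0 : ℝ) < hm n lam a j := by exact_mod_cast h5
    push_cast
    rw [show (hm n lam a j : ℝ) + 1 - 1 = hm n lam a j by ring]
    field_simp
  have h3 : ∏ i ∈ Ioo a n, (((lam a - lam i + (i - a) : ℕ) : ℝ) / (((lam a - lam i + (i - a) : ℕ) : ℝ) - 1)) =
      (∏ i ∈ Ioo a n, (1 - 1 / (Kerov_l lam a - Kerov_l lam i)))⁻¹ := by
    rw [← prod_inv_distrib]
    apply prod_congr rfl
    intro i hi
    have h4 := hg i hi
    have h5 := mem_Ioo.1 hi
    have h6 : ((lam a - lam i + (i - a) : ℕ) : ℝ) = Kerov_l lam a - Kerov_l lam i := by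
      rw [Nat.cast_add, Nat.cast_sub h4.le, Nat.cast_sub h5.1.le]
      unfold Kerov_l
      ring
    have h7 : (1 : ℝ) < Kerov_l lam a - Kerov_l lam i := by
      rw [← h6]
      have : 1 < lam a - lam i + (i - a) := by omega
      exact_mod_cast this
    rw [h6]
    obtain ⟨t, ht⟩ : ∃ t, t = Kerov_l lam a - Kerov_l lam i := ⟨_, rfl⟩
    rw [← ht] at h7 ⊢
    have h8 : t - 1 ≠ 0 := by
      have : 0 < t - 1 := by linarith
      exact this.ne'
    have h9 : t ≠ 0 := by
      have : 0 < t := by linarith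
      exact this.ne'
    rw [show 1 - 1 / t = (t - 1) / t by field_simp, inv_div]
  have h4 : ∏ i ∈ Ioo a n, (1 - 1 / (Kerov_l lam a - Kerov_l lam i)) ≠ 0 := by
    rw [prod_ne_zero_iff]
    intro i hi
    have h4 := hg i hi
    have h5 := mem_Ioo.1 hi
    have h7 : (1 : ℝ) < Kerov_l lam a - Kerov_l lam i := by
      have h8 : (lam i : ℝ) + 1 ≤ lam a := by exact_mod_cast h4
      have h9 : (a : ℝ) < i := by exact_mod_cast h5.1
      unfold Kerov_l
      linarith
    have h8 : 1 / (Kerov_l lam a - Kerov_l lam i) < 1 := by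
      rw [div_lt_one (by linarith)]
      exact h7
    have : 0 < 1 - 1 / (Kerov_l lam a - Kerov_l lam i) := by linarith
    exact this.ne'
  rw [h2, h3] at h1
  rw [hN', ← h1, mul_assoc, inv_mul_cancel₀ h4, mul_one]

/-- the coefficient is the share -/
theorem Kerov_share {n : ℕ} {lam : ℕ → ℕ} (h : Shape n lam) {a : ℕ} (ha : a ∈ corners n lam) :
    (Kerov_l lam a + n) * Kerov_B (Kerov_l lam) (range n) a = share n lam a := by
  have ha' := mem_corners.1 ha
  have h1 : (range n).erase a = range a ∪ Ioo a n := by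
    ext i
    rw [mem_erase, mem_union, mem_range, mem_range, mem_Ioo]
    omega
  have h2 : Disjoint (range a) (Ioo a n) := by
    rw [disjoint_left]
    intro i hi hi'
    rw [mem_range] at hi
    rw [mem_Ioo] at hi'
    omega
  unfold Kerov_B
  rw [h1, prod_union h2, share, Kerov_row h ha]
  have h3 : ∏ i ∈ range a, (1 - 1 / (Kerov_l lam a - Kerov_l lam i)) =
      ∏ i ∈ range a, (1 + 1 / (hm n lam i (lam a - 1) : ℝ)) := by
    apply prod_congr rfl
    intro i hi
    rw [mem_range] at hi
    have h4 : hm n lam i (lam a - 1) = (lam i - lam a) + (a - i) := by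
      unfold hm
      rw [col_corner h ha]
      have := h.anti hi.le
      omega
    have h5 : (hm n lam i (lam a - 1) : ℝ) = Kerov_l lam i - Kerov_l lam a := by
      rw [h4, Nat.cast_add, Nat.cast_sub (h.anti hi.le), Nat.cast_sub hi.le]
      unfold Kerov_l
      ring
    rw [h5, show Kerov_l lam a - Kerov_l lam i = -(Kerov_l lam i - Kerov_l lam a) by ring, div_neg, sub_neg_eq_add]
  rw [h3]
  ring

/-- the coefficient vanishes at a row which is not a corner -/
theorem Kerov_zero {n : ℕ} {lam : ℕ → ℕ} (h : Shape n lam) {a : ℕ} (ha : a < n) (ha' : a ∉ corners n lam) :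
    (Kerov_l lam a + n) * Kerov_B (Kerov_l lam) (range n) a = 0 := by
  rw [mem_corners] at ha'
  have h1 : lam (a + 1) = lam a := by
    have := h.anti (Nat.le_succ a)
    have h2 : ¬ lam (a + 1) < lam a := fun h2 => ha' ⟨ha, h2⟩
    rw [Nat.succ_eq_add_one] at this
    omega
  rcases Nat.lt_or_ge (a + 1) n with h2 | h2
  · have h3 : Kerov_B (Kerov_l lam) (range n) a = 0 := by
      unfold Kerov_B
      apply prod_eq_zero (i := a + 1)
      · rw [mem_erase, mem_range]
        omega
      · unfold Kerov_l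
        rw [h1]
        push_cast
        rw [show (lam a : ℝ) - 1 - a - (lam a - 1 - (a + 1)) = 1 by ring]
        norm_num
    rw [h3, mul_zero]
  · have h3 : a + 1 = n := by omega
    have h4 : lam a = 0 := by
      rw [← h1, h3]
      exact h.zero
    have h5 : Kerov_l lam a + n = 0 := by
      unfold Kerov_l
      rw [h4, ← h3]
      push_cast
      ring
    rw [h5, zero_mul]

/-- Kerov's identity -/
theorem kerov {n : ℕ} {lam : ℕ → ℕ} (h : Shape n lam) {z : ℝ} (hz : (lam 0 : ℝ) < z) :
    ∑ i ∈ corners n lam, share n lam i / (z - ((lam i : ℝ) - 1 - i)) = z - HH n lam z := by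
  rw [Kerov_HH h hz, ← Kerov_pf' (Kerov_l_inj h) n]
  · have h1 : corners n lam ⊆ range n := by
      intro i hi
      rw [mem_range]
      exact (mem_corners.1 hi).1
    rw [← sum_subset h1]
    · apply sum_congr rfl
      intro i hi
      rw [Kerov_share h hi]
      rfl
    · intro i hi hi'
      rw [Kerov_zero h (mem_range.1 hi) hi', zero_div]
  · intro i _ hzi
    have h1 : (lam i : ℝ) ≤ lam 0 := by exact_mod_cast h.anti (Nat.zero_le i)
    have h2 : (0 : ℝ) ≤ i := Nat.cast_nonneg i
    rw [hzi] at hz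
    unfold Kerov_l at hz
    linarith

/-- the removal of a corner -/
theorem HH_dec {n : ℕ} {lam : ℕ → ℕ} (h : Shape n lam) {α : ℕ} (hα : α ∈ corners n lam) {z : ℝ}
    (hz : (lam 0 : ℝ) < z) :
    HH n (dec lam α) z = HH n lam z *
      ((z - ((lam α : ℝ) - 1 - α)) ^ 2 / ((z - ((lam α : ℝ) - 1 - α)) ^ 2 - 1)) := by
  have hα' := mem_corners.1 hα
  unfold HH
  rw [mul_assoc]
  congr 1
  rw [← mul_prod_erase _ _ (mem_range.2 hα'.1),
    ← mul_prod_erase (range n) (fun i => (z - lam i + i) / (z - lam i + i + 1)) (mem_range.2 hα'.1)]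
  have h1 : ∏ i ∈ (range n).erase α, (z - (dec lam α i : ℝ) + i) / (z - (dec lam α i : ℝ) + i + 1) =
      ∏ i ∈ (range n).erase α, (z - (lam i : ℝ) + i) / (z - lam i + i + 1) := by
    apply prod_congr rfl
    intro i hi
    rw [dec_ne _ (ne_of_mem_erase hi)]
  rw [h1, dec_self, Nat.cast_sub (by omega), Nat.cast_one]
  have h2 : (lam α : ℝ) ≤ lam 0 := by exact_mod_cast h.anti (Nat.zero_le α)
  have h3 : (0 : ℝ) ≤ α := Nat.cast_nonneg α
  obtain ⟨t, ht⟩ : ∃ t, t = z - ((lam α : ℝ) - 1 - α) := ⟨_, rfl⟩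
  have ht1 : 1 < t := by rw [ht]; linarith
  rw [← ht, show z - ((lam α : ℝ) - 1) + α = t by rw [ht]; ring, show z - (lam α : ℝ) + α = t - 1 by rw [ht]; ring]
  have h4 : t - 1 ≠ 0 := by
    have : 0 < t - 1 := by linarith
    exact this.ne'
  have h5 : t + 1 ≠ 0 := by
    have : 0 < t + 1 := by linarith
    exact this.ne'
  have h6 : t ≠ 0 := by
    have : 0 < t := by linarith
    exact this.ne'
  have h7 : t ^ 2 - 1 = (t - 1) * (t + 1) := by ring
  rw [h7, sub_add_cancel]
  field_simp

end Pool.Agent.SNL63
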