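import Pool.Agent.SNL63.DCalc
import Pool.Agent.SNL63.Band

/-!
# The masses of all quadrants at all times: lower bounds
-/

namespace Pool.Agent.SNL63

open MeasureTheory Set Filter Topology Pool.Agent.SN8
open scoped ENNReal Real

/-! ### The number of crossings grows -/

theorem cross2_step {n m m' s : ℕ} {k : List ℕ} (hk : IsNetwork n k) (hs : s < n.choose 2) :
    cross2 m m' (k.take s) ≤ cross2 m m' (k.take (s + 1)) := by
  obtain ⟨hlen, hmem, hP⟩ := (isNetwork_iff n k).1 hk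
  have hlt : s < k.length := by rw [hlen]; exact hs
  have e1 : k.take (s + 1) = k.take s ++ [k[s]] := (List.take_append_getElem hlt).symm
  obtain ⟨j, hj⟩ : ∃ j, j = k[s] := ⟨_, rfl⟩
  rw [← hj] at e1
  have hj1 : 1 ≤ j ∧ j + 1 ≤ n := by
    rw [hj]
    exact hmem _ (List.getElem_mem hlt)
  have i1 := (time_eq hk hs.le).1
  have i2 := (time_eq hk (Nat.succ_le_of_lt hs)).1
  rw [e1, P_append, P_singleton] at i2
  have hsupp : Supp n (P (k.take s)) := Supp.P fun i hi => hmem i (List.mem_of_mem_take hi)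
  have hord : P (k.take s) j < P (k.take s) (j + 1) := by
    by_contra hc
    have hne : P (k.take s) j ≠ P (k.take s) (j + 1) := fun h => by
      have := (P (k.take s)).injective h
      omega
    have := inv_mul_sw (P (k.take s)) hj1.1 hj1.2 (by omega)
    omega
  rw [e1]
  obtain ⟨a, ha⟩ : ∃ a, a = P (k.take s) j := ⟨_, rfl⟩
  obtain ⟨b, hb⟩ : ∃ b, b = P (k.take s) (j + 1) := ⟨_, rfl⟩
  have hpa : place (k.take s) a = j := by rw [ha, place_eq]; simp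
  have hpb : place (k.take s) b = j + 1 := by rw [hb, place_eq]; simp
  have ha1 : 1 ≤ a := by rw [ha]; exact (hsupp.mem hj1.1 (by omega)).1
  rw [← ha, ← hb] at hord
  unfold cross2
  by_cases hjm : j = m'
  · refine Finset.card_le_card_of_injOn (fun x => if x = b then a else x) ?_ ?_
    · intro x hx
      rw [Finset.mem_coe, Finset.mem_filter, Finset.mem_Icc] at hx
      rw [Finset.mem_coe, Finset.mem_filter, Finset.mem_Icc, band_place_snoc, sw_apply]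
      by_cases hxb : x = b
      · subst hxb
        simp only [if_true]
        rw [hpa]
        simp only [if_true]
        omega
      · simp only [if_neg hxb]
        have hne : place (k.take s) x ≠ j + 1 := fun h => hxb (band_place_inj _ (h.trans hpb.symm))
        rw [if_neg (by omega), if_neg hne]
        exact hx
    · intro x hx y hy hxy
      rw [Finset.mem_coe, Finset.mem_filter, Finset.mem_Icc] at hx hy
      simp only at hxy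
      split_ifs at hxy with h1 h2 h2
      · rw [h1, h2]
      · exfalso
        rw [← hxy, hpa] at hy
        omega
      · exfalso
        rw [hxy, hpa] at hx
        omega
      · exact hxy
  · refine Finset.card_le_card fun x hx => ?_
    rw [Finset.mem_filter, Finset.mem_Icc] at hx
    rw [Finset.mem_filter, Finset.mem_Icc, band_place_snoc, sw_apply]
    refine ⟨hx.1, ?_⟩
    split_ifs <;> omega

theorem cross2_mono {n m m' s s' : ℕ} {k : List ℕ} (hk : IsNetwork n k) (h : s ≤ s') (hs : s' ≤ n.choose 2) :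
    cross2 m m' (k.take s) ≤ cross2 m m' (k.take s') := by
  induction s', h using Nat.le_induction with
  | base => exact le_rfl
  | succ r _ ih => exact (ih (by omega)).trans (cross2_step hk (by omega))

theorem cross2_le (m m' : ℕ) (l : List ℕ) : cross2 m m' l ≤ m := by
  refine (Finset.card_filter_le _ _).trans ?_
  simp

/-! ### The masses of the quadrants -/

theorem eta_cross2 {n : ℕ} (hn : 1 ≤ n) (k : List ℕ) {a b : ℝ} (t : ℝ) (ha : a ∈ Icc (-1 : ℝ) 1)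
    (hb : b ∈ Icc (-1 : ℝ) 1) :
    eta n k t (Iic a ×ˢ Ioi b) = (n : ℝ≥0∞)⁻¹ *
      (cross2 ⌊(n : ℝ) * (a + 1) / 2⌋₊ ⌊(n : ℝ) * (b + 1) / 2⌋₊ (k.take ⌊(n.choose 2 : ℝ) * t⌋₊) : ℝ≥0∞) := by
  classical
  rw [eta_apply n k t (measurableSet_Iic.prod measurableSet_Ioi)]
  congr 2
  unfold cross2
  congr 1
  ext i
  have h1 : (glob n k i 0, glob n k i t) ∈ Iic a ×ˢ Ioi b ↔
      i ≤ ⌊(n : ℝ) * (a + 1) / 2⌋₊ ∧
        ⌊(n : ℝ) * (b + 1) / 2⌋₊ < place (k.take ⌊(n.choose 2 : ℝ) * t⌋₊) i := by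
    rw [mem_prod, mem_Iic, mem_Ioi, glob_zero, le_iff_floor hn ha.1]
    refine and_congr_right fun _ => ?_
    rw [← not_le, ← not_le, ← le_iff_floor hn hb.1]
    rfl
  rw [Finset.mem_filter, Finset.mem_filter, Finset.mem_Icc, Finset.mem_Icc, h1]
  have h2 := floor_le_n (n := n) ha.2
  constructor
  · rintro ⟨⟨h3, _⟩, h4, h5⟩
    exact ⟨⟨h3, h4⟩, h5⟩
  · rintro ⟨⟨h3, h4⟩, h5⟩
    exact ⟨⟨h3, h4.trans h2⟩, h4, h5⟩

theorem eta_cross2_rev {n : ℕ} (hn : 1 ≤ n) {k : List ℕ} (hk : IsNetwork n k) {a b t : ℝ}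
    (ha : a ∈ Icc (-1 : ℝ) 1) (hb : b ∈ Icc (-1 : ℝ) 1) (ht1 : t ≤ 1) :
    (n : ℝ≥0∞)⁻¹ * (cross2 ⌊(n : ℝ) * (a + 1) / 2⌋₊ ⌊(n : ℝ) * (b + 1) / 2⌋₊
        (k.reverse.take (n.choose 2 - ⌊(n.choose 2 : ℝ) * t⌋₊)) : ℝ≥0∞) ≤
      eta n k t (Ici (-a) ×ˢ Ioi b) := by
  classical
  rw [eta_apply n k t (measurableSet_Ici.prod measurableSet_Ioi)]
  gcongr
  obtain ⟨m, hm⟩ : ∃ m, m = ⌊(n : ℝ) * (a + 1) / 2⌋₊ := ⟨_, rfl⟩
  obtain ⟨m', hm'⟩ : ∃ m', m' = ⌊(n : ℝ) * (b + 1) / 2⌋₊ := ⟨_, rfl⟩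
  obtain ⟨s, hs⟩ : ∃ s, s = ⌊(n.choose 2 : ℝ) * t⌋₊ := ⟨_, rfl⟩
  have hsN : s ≤ n.choose 2 := by
    rw [hs]
    refine Nat.floor_le_of_le ?_
    have : (0 : ℝ) ≤ (n.choose 2 : ℝ) := Nat.cast_nonneg _
    nlinarith
  have hmn : m ≤ n := by
    rw [hm]
    exact floor_le_n ha.2
  rw [← hm, ← hm', ← hs]
  unfold cross2
  refine Finset.card_le_card_of_injOn (fun y => n + 1 - y) ?_ ?_
  · intro y hy
    rw [Finset.mem_coe, Finset.mem_filter, Finset.mem_Icc] at hy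
    obtain ⟨⟨hy1, hy2⟩, hy3⟩ := hy
    have h2 := place_reverse_take hk (s := n.choose 2 - s) (by omega) (x := n + 1 - y) (by omega) (by omega)
    rw [show n + 1 - (n + 1 - y) = y by omega, show n.choose 2 - (n.choose 2 - s) = s by omega] at h2
    simp only [Finset.coe_filter, Finset.mem_Icc, mem_ofPred_eq, mem_prod, mem_Ici, mem_Ioi]
    refine ⟨by omega, ?_, ?_⟩
    · rw [glob_zero]
      have h3 := (le_iff_floor hn ha.1 y).2 (by omega)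
      have h4 : ((n + 1 - y : ℕ) : ℝ) = n + 1 - y := by
        rw [Nat.cast_sub (by omega)]
        push_cast
        ring
      have hn0 : (0 : ℝ) < n := by exact_mod_cast hn
      rw [h4]
      have h5 : 2 * ((n : ℝ) + 1 - y) / n - 1 = 1 + 2 / n - 2 * y / n := by
        field_simp
        ring
      rw [h5]
      have h6 : 0 ≤ 2 / (n : ℝ) := by positivity
      linarith
    · rw [← not_le]
      have h3 : glob n k (n + 1 - y) t = 2 * (place (k.take s) (n + 1 - y) : ℝ) / n - 1 := by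
        rw [glob, hs]
      rw [h3, le_iff_floor hn hb.1, ← h2]
      omega
  · intro y₁ hy₁ y₂ hy₂ heq
    rw [Finset.mem_coe, Finset.mem_filter, Finset.mem_Icc] at hy₁ hy₂
    simp only at heq
    omega

/-! ### The bad event -/

/-- At one of the times `i / G` some quadrant has too small a mass. -/
def BadQ (n G : ℕ) (ε : ℝ) (k : List ℕ) : Prop :=
  ∃ i < G, ∃ m ≤ n, ∃ m' ≤ n, ∃ q ≤ n,
    (q : ℝ) / n + ((m' : ℝ) - m) / (2 * n) ≤ DD (((m : ℝ) + m' - n) / n) ((i : ℝ) / G) - ε ∧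
    cross2 m m' (k.take ⌊(n.choose 2 : ℝ) * ((i : ℝ) / G)⌋₊) ≤ q

theorem quad_det {n G : ℕ} {ε δ : ℝ} (hε : 0 < ε)
    (hδ : ∀ u ∈ Icc (-1 : ℝ) 1, ∀ u' ∈ Icc (-1 : ℝ) 1, ∀ t ∈ Icc (0 : ℝ) 1, ∀ t' ∈ Icc (0 : ℝ) 1,
      |u - u'| < δ → |t - t'| < δ → |DD u t - DD u' t'| < ε / 4)
    (hG0 : 0 < G) (hG : 1 / (G : ℝ) < δ) (hn0 : 0 < n) (hn : 2 / (n : ℝ) < δ) (hn' : 2 / (n : ℝ) ≤ ε)
    {k : List ℕ} (hk : IsNetwork n k)
    (hB : ¬ BadQ n G (ε / 4) k) {s : ℕ} {t a b : ℝ} (ht : t ∈ Icc (0 : ℝ) 1)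
    (hs : ⌊(n.choose 2 : ℝ) * t⌋₊ ≤ s) (hsN : s ≤ n.choose 2) (ha : a ∈ Icc (-1 : ℝ) 1) (hb : b ∈ Icc (-1 : ℝ) 1) :
    DD ((a + b) / 2) t + (a - b) / 4 - ε ≤
      (cross2 ⌊(n : ℝ) * (a + 1) / 2⌋₊ ⌊(n : ℝ) * (b + 1) / 2⌋₊ (k.take s) : ℝ) / n := by
  have hGp : (0 : ℝ) < G := by exact_mod_cast hG0
  have hnp : (0 : ℝ) < n := by exact_mod_cast hn0
  obtain ⟨i, hiG, hi1, hi2⟩ : ∃ i < G, (i : ℝ) / G ≤ t ∧ t - (i : ℝ) / G ≤ 1 / G := by
    rcases lt_or_eq_of_le ht.2 with h | h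
    · refine ⟨⌊t * G⌋₊, ?_, ?_, ?_⟩
      · rw [Nat.floor_lt (mul_nonneg ht.1 hGp.le)]
        nlinarith
      · rw [div_le_iff₀ hGp]
        exact Nat.floor_le (mul_nonneg ht.1 hGp.le)
      · have h1 := (Nat.lt_floor_add_one (t * G)).le
        rw [sub_le_iff_le_add, ← add_div, le_div_iff₀ hGp]
        linarith
    · refine ⟨G - 1, by omega, ?_, ?_⟩
      · rw [h, div_le_one hGp, Nat.cast_sub (by omega)]
        push_cast
        linarith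
      · rw [h, Nat.cast_sub (by omega)]
        push_cast
        rw [sub_div, div_self hGp.ne']
        linarith
  have hit : (i : ℝ) / G ∈ Icc (0 : ℝ) 1 := ⟨by positivity, hi1.trans ht.2⟩
  obtain ⟨m, hm⟩ : ∃ m, m = ⌊(n : ℝ) * (a + 1) / 2⌋₊ := ⟨_, rfl⟩
  obtain ⟨m', hm'⟩ : ∃ m', m' = ⌊(n : ℝ) * (b + 1) / 2⌋₊ := ⟨_, rfl⟩
  have hmn : m ≤ n := by rw [hm]; exact floor_le_n ha.2
  have hmn' : m' ≤ n := by rw [hm']; exact floor_le_n hb.2
  have hm1 : (m : ℝ) ≤ (n : ℝ) * (a + 1) / 2 := by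
    rw [hm]
    exact Nat.floor_le (by have := ha.1; have : 0 ≤ a + 1 := by linarith
                           positivity)
  have hm2 : (n : ℝ) * (a + 1) / 2 < m + 1 := by rw [hm]; exact Nat.lt_floor_add_one _
  have hm1' : (m' : ℝ) ≤ (n : ℝ) * (b + 1) / 2 := by
    rw [hm']
    exact Nat.floor_le (by have := hb.1; have : 0 ≤ b + 1 := by linarith
                           positivity)
  have hm2' : (n : ℝ) * (b + 1) / 2 < m' + 1 := by rw [hm']; exact Nat.lt_floor_add_one _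
  rw [← hm, ← hm']
  obtain ⟨q, hq⟩ : ∃ q, q = cross2 m m' (k.take ⌊(n.choose 2 : ℝ) * ((i : ℝ) / G)⌋₊) := ⟨_, rfl⟩
  have hqn : q ≤ n := by rw [hq]; exact (cross2_le _ _ _).trans hmn
  have hN0 : (0 : ℝ) ≤ (n.choose 2 : ℝ) := Nat.cast_nonneg _
  have hqs : q ≤ cross2 m m' (k.take s) := by
    rw [hq]
    exact cross2_mono hk ((Nat.floor_le_floor (mul_le_mul_of_nonneg_left hi1 hN0)).trans hs) hsN
  have h1 : DD (((m : ℝ) + m' - n) / n) ((i : ℝ) / G) - ε / 4 < (q : ℝ) / n + ((m' : ℝ) - m) / (2 * n) := by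
    by_contra hc
    exact hB ⟨i, hiG, m, hmn, m', hmn', q, hqn, not_lt.1 hc, hq.ge⟩
  have hu : (a + b) / 2 ∈ Icc (-1 : ℝ) 1 := ⟨by linarith [ha.1, hb.1], by linarith [ha.2, hb.2]⟩
  have hu' : ((m : ℝ) + m' - n) / n ∈ Icc (-1 : ℝ) 1 := by
    have e1 : (m : ℝ) ≤ n := by exact_mod_cast hmn
    have e2 : (m' : ℝ) ≤ n := by exact_mod_cast hmn'
    have e3 : (0 : ℝ) ≤ m := Nat.cast_nonneg _
    have e4 : (0 : ℝ) ≤ m' := Nat.cast_nonneg _
    constructor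
    · rw [le_div_iff₀ hnp]
      linarith
    · rw [div_le_iff₀ hnp]
      linarith
  have huu : |(a + b) / 2 - ((m : ℝ) + m' - n) / n| < δ := by
    refine lt_of_le_of_lt ?_ hn
    rw [abs_le]
    constructor
    · have e1 : ((m : ℝ) + m' - n) / n ≤ (a + b) / 2 := by
        rw [div_le_iff₀ hnp]
        linarith
      have : 0 ≤ 2 / (n : ℝ) := by positivity
      linarith
    · have e1 : (a + b) / 2 - 2 / n ≤ ((m : ℝ) + m' - n) / n := by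
        rw [le_div_iff₀ hnp, sub_mul, div_mul_cancel₀ _ hnp.ne']
        linarith
      linarith
  have htt : |t - (i : ℝ) / G| < δ := by
    rw [abs_of_nonneg (by linarith)]
    exact lt_of_le_of_lt hi2 hG
  have h2 := (abs_lt.1 (hδ _ hu _ hu' _ ht _ hit huu htt)).2
  have h3 : ((m' : ℝ) - m) / (2 * n) ≤ (b - a) / 4 + ε / 4 := by
    have e1 : ((m' : ℝ) - m) / (2 * n) ≤ (b - a) / 4 + 2 / n / 4 := by
      rw [div_le_iff₀ (by positivity)]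
      have : ((b - a) / 4 + 2 / (n : ℝ) / 4) * (2 * n) = (b - a) * n / 2 + 1 := by
        field_simp
        ring
      rw [this]
      linarith
    linarith
  have h4 : (q : ℝ) / n ≤ (cross2 m m' (k.take s) : ℝ) / n := by
    gcongr
  linarith

/-! ### Probabilities -/

theorem ncard_biUnion_le {ι α : Type*} (I : Finset ι) (S : ι → Set α) (hS : ∀ i ∈ I, (S i).Finite) :
    (⋃ i ∈ I, S i).ncard ≤ ∑ i ∈ I, (S i).ncard := by
  classical
  induction I using Finset.induction_on with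
  | empty => simp
  | insert m I hm ih =>
    rw [Finset.set_biUnion_insert, Finset.sum_insert hm]
    have := ih fun i hi => hS i (Finset.mem_insert_of_mem hi)
    exact (Set.ncard_union_le _ _).trans (by omega)

theorem bad_prob
    (hQ : ∀ τ ε : ℝ, 0 ≤ τ → τ < 1 → 0 < ε →
      ∃ c > (0 : ℝ), ∃ n₀ : ℕ, ∀ n ≥ n₀, ∀ m m' q : ℕ, m ≤ n → m' ≤ n →
      (q : ℝ) / n + ((m' : ℝ) - m) / (2 * n) ≤ DD (((m : ℝ) + m' - n) / n) τ - ε →
      (({k | IsNetwork n k ∧ cross2 m m' (k.take ⌊(n.choose 2 : ℝ) * τ⌋₊) ≤ q} :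
        Set (List ℕ)).ncard : ℝ) ≤ Real.exp (-c * (n : ℝ) ^ 2) * nets n)
    {G : ℕ} (hG : 0 < G) {ε : ℝ} (hε : 0 < ε) :
    ∃ c > (0 : ℝ), ∃ n₀ : ℕ, ∀ n ≥ n₀, prob n (BadQ n G ε) ≤ Real.exp (-c * (n : ℝ) ^ 2) := by
  have hGp : (0 : ℝ) < G := by exact_mod_cast hG
  have hQ' : ∀ i : ℕ, ∃ c > (0 : ℝ), ∃ n₀ : ℕ, ∀ n ≥ n₀, i < G → ∀ m m' q : ℕ, m ≤ n → m' ≤ n →
      (q : ℝ) / n + ((m' : ℝ) - m) / (2 * n) ≤ DD (((m : ℝ) + m' - n) / n) ((i : ℝ) / G) - ε →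
      (({k | IsNetwork n k ∧ cross2 m m' (k.take ⌊(n.choose 2 : ℝ) * ((i : ℝ) / G)⌋₊) ≤ q} :
        Set (List ℕ)).ncard : ℝ) ≤ Real.exp (-c * (n : ℝ) ^ 2) * nets n := by
    intro i
    by_cases hi : i < G
    · obtain ⟨c, hc, n₀, h⟩ := hQ ((i : ℝ) / G) ε (by positivity) (by
        rw [div_lt_one hGp]
        exact_mod_cast hi) hε
      exact ⟨c, hc, n₀, fun n hn _ => h n hn⟩
    · exact ⟨1, one_pos, 0, fun n _ h => absurd h hi⟩
  choose c hc N₀ h using hQ'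
  obtain ⟨c₀, hc₀, hc₀'⟩ : ∃ c₀ > (0 : ℝ), ∀ j < G, c₀ ≤ c j := by
    clear hG hGp h hQ
    induction G with
    | zero => exact ⟨1, one_pos, fun j hj => absurd hj (Nat.not_lt_zero _)⟩
    | succ J ih =>
      obtain ⟨d, hd, hd'⟩ := ih
      refine ⟨min d (c J), lt_min hd (hc J), fun j hj => ?_⟩
      rcases Nat.lt_succ_iff_lt_or_eq.1 hj with h1 | rfl
      · exact (min_le_left _ _).trans (hd' j h1)
      · exact min_le_right _ _
  refine ⟨c₀ / 2, by positivity, max (max ((Finset.range G).sup N₀) 1) ⌈64 * (G : ℝ) / c₀ ^ 2⌉₊, fun n hn => ?_⟩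
  have hn1 : (Finset.range G).sup N₀ ≤ n := (le_max_left _ _).trans ((le_max_left _ _).trans hn)
  have hn2 : 1 ≤ n := (le_max_right _ _).trans ((le_max_left _ _).trans hn)
  have hn3 : 64 * (G : ℝ) / c₀ ^ 2 ≤ n := (Nat.le_ceil _).trans (by exact_mod_cast (le_max_right _ _).trans hn)
  have hnp : (0 : ℝ) < n := by exact_mod_cast hn2
  have hnets : (0 : ℝ) ≤ nets n := Nat.cast_nonneg _
  obtain ⟨I, hI⟩ : ∃ I : Finset (ℕ × ℕ × ℕ × ℕ), I =
      ((Finset.range G) ×ˢ (Finset.range (n + 1)) ×ˢ (Finset.range (n + 1)) ×ˢ (Finset.range (n + 1))).filter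
        (fun p => (p.2.2.2 : ℝ) / n + ((p.2.2.1 : ℝ) - p.2.1) / (2 * n) ≤
          DD (((p.2.1 : ℝ) + p.2.2.1 - n) / n) ((p.1 : ℝ) / G) - ε) := by
    classical
    exact ⟨_, rfl⟩
  have hIc : (I.card : ℝ) ≤ G * ((n : ℝ) + 1) ^ 3 := by
    have h1 : I.card ≤ G * ((n + 1) * ((n + 1) * (n + 1))) := by
      rw [hI]
      refine (Finset.card_filter_le _ _).trans ?_
      simp
    have h2 : (I.card : ℝ) ≤ G * (((n : ℝ) + 1) * (((n : ℝ) + 1) * ((n : ℝ) + 1))) := by exact_mod_cast h1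
    refine h2.trans (le_of_eq ?_)
    ring
  obtain ⟨S, hS⟩ : ∃ S : ℕ × ℕ × ℕ × ℕ → Set (List ℕ), S = fun p =>
      {k | IsNetwork n k ∧ cross2 p.2.1 p.2.2.1 (k.take ⌊(n.choose 2 : ℝ) * ((p.1 : ℝ) / G)⌋₊) ≤ p.2.2.2} := ⟨_, rfl⟩
  have hfin : ∀ p, (S p).Finite := fun p => by
    rw [hS]
    exact (networks_finite n).subset fun k hk => hk.1
  have h1 : ({k | IsNetwork n k ∧ BadQ n G ε k} : Set (List ℕ)) ⊆ ⋃ p ∈ I, S p := by
    rintro k ⟨hk, i, hi, m, hm, m', hm', q, hq, e1, e2⟩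
    rw [mem_iUnion₂]
    refine ⟨(i, m, m', q), ?_, ?_⟩
    · rw [hI, Finset.mem_filter]
      refine ⟨?_, e1⟩
      simp only [Finset.mem_product, Finset.mem_range]
      omega
    · rw [hS]
      exact ⟨hk, e2⟩
  have h2 : ((({k | IsNetwork n k ∧ BadQ n G ε k} : Set (List ℕ)).ncard : ℕ) : ℝ) ≤
      ∑ p ∈ I, ((S p).ncard : ℝ) := by
    have e1 : ({k | IsNetwork n k ∧ BadQ n G ε k} : Set (List ℕ)).ncard ≤ (⋃ p ∈ I, S p).ncard :=
      Set.ncard_le_ncard h1 (Set.Finite.biUnion I.finite_toSet fun p _ => hfin p)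
    have e2 := ncard_biUnion_le I S fun p _ => hfin p
    exact_mod_cast e1.trans e2
  have h3 : ∀ p ∈ I, ((S p).ncard : ℝ) ≤ Real.exp (-c₀ * (n : ℝ) ^ 2) * nets n := by
    rintro ⟨i, m, m', q⟩ hp
    rw [hI, Finset.mem_filter] at hp
    simp only [Finset.mem_product, Finset.mem_range] at hp
    obtain ⟨⟨p1, p2, p3, p4⟩, p5⟩ := hp
    rw [hS]
    have e1 := h i n ((Finset.le_sup (f := N₀) (Finset.mem_range.2 p1)).trans hn1) p1 m m' q (by omega) (by omega) p5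
    refine e1.trans (mul_le_mul_of_nonneg_right (Real.exp_le_exp.2 ?_) hnets)
    have e2 := mul_le_mul_of_nonneg_right (hc₀' i p1) (sq_nonneg (n : ℝ))
    linarith
  have h4 : ∑ p ∈ I, ((S p).ncard : ℝ) ≤ G * ((n : ℝ) + 1) ^ 3 * (Real.exp (-c₀ * (n : ℝ) ^ 2) * nets n) := by
    refine (Finset.sum_le_sum h3).trans ?_
    rw [Finset.sum_const, nsmul_eq_mul]
    exact mul_le_mul_of_nonneg_right hIc (mul_nonneg (Real.exp_pos _).le hnets)
  have h5 : G * ((n : ℝ) + 1) ^ 3 ≤ Real.exp (c₀ / 2 * (n : ℝ) ^ 2) := by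
    have e1 := Real.pow_div_factorial_le_exp (c₀ / 2 * (n : ℝ) ^ 2) (by positivity) 2
    refine le_trans ?_ e1
    have e2 : ((n : ℝ) + 1) ^ 3 ≤ 8 * (n : ℝ) ^ 3 := by
      have : (n : ℝ) + 1 ≤ 2 * n := by
        have : (1 : ℝ) ≤ n := by exact_mod_cast hn2
        linarith
      calc ((n : ℝ) + 1) ^ 3 ≤ (2 * n) ^ 3 := by gcongr
        _ = 8 * (n : ℝ) ^ 3 := by ring
    have e3 : 64 * (G : ℝ) ≤ c₀ ^ 2 * n := by
      rw [div_le_iff₀ (by positivity)] at hn3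
      linarith
    have e4 : ((Nat.factorial 2 : ℕ) : ℝ) = 2 := by norm_num [Nat.factorial]
    rw [e4]
    have e5 : (c₀ / 2 * (n : ℝ) ^ 2) ^ 2 / 2 = c₀ ^ 2 * n * n ^ 3 / 8 := by ring
    rw [e5]
    have e6 : 64 * (G : ℝ) * n ^ 3 ≤ c₀ ^ 2 * n * n ^ 3 := mul_le_mul_of_nonneg_right e3 (by positivity)
    have e7 : (G : ℝ) * ((n : ℝ) + 1) ^ 3 ≤ G * (8 * (n : ℝ) ^ 3) := mul_le_mul_of_nonneg_left e2 hGp.le
    linarith
  have h6 : G * ((n : ℝ) + 1) ^ 3 * (Real.exp (-c₀ * (n : ℝ) ^ 2) * nets n) ≤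
      Real.exp (-(c₀ / 2) * (n : ℝ) ^ 2) * nets n := by
    calc G * ((n : ℝ) + 1) ^ 3 * (Real.exp (-c₀ * (n : ℝ) ^ 2) * nets n) ≤
          Real.exp (c₀ / 2 * (n : ℝ) ^ 2) * (Real.exp (-c₀ * (n : ℝ) ^ 2) * nets n) :=
          mul_le_mul_of_nonneg_right h5 (mul_nonneg (Real.exp_pos _).le hnets)
      _ = Real.exp (-(c₀ / 2) * (n : ℝ) ^ 2) * nets n := by
          rw [← mul_assoc, ← Real.exp_add]
          congr 2
          ring
  have h7 := h2.trans (h4.trans h6)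
  unfold prob
  exact div_le_of_le_mul₀ (Nat.cast_nonneg _) (Real.exp_pos _).le h7

/-- **The masses of all quadrants at all times are at least those forced by the limit shape** -/
theorem quad_low_of
    (hD : ContinuousOn (fun p : ℝ × ℝ => DD p.1 p.2) (Icc (-1) 1 ×ˢ Icc 0 1))
    (hQ : ∀ τ ε : ℝ, 0 ≤ τ → τ < 1 → 0 < ε →
      ∃ c > (0 : ℝ), ∃ n₀ : ℕ, ∀ n ≥ n₀, ∀ m m' q : ℕ, m ≤ n → m' ≤ n →
      (q : ℝ) / n + ((m' : ℝ) - m) / (2 * n) ≤ DD (((m : ℝ) + m' - n) / n) τ - ε →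
      (({k | IsNetwork n k ∧ cross2 m m' (k.take ⌊(n.choose 2 : ℝ) * τ⌋₊) ≤ q} :
        Set (List ℕ)).ncard : ℝ) ≤ Real.exp (-c * (n : ℝ) ^ 2) * nets n)
    {ε : ℝ} (hε : 0 < ε) :
    ∃ c₁ > (0 : ℝ), ∃ c₂ > (0 : ℝ), ∀ n : ℕ, 2 ≤ n →
      prob n (fun k => ∃ t ∈ Icc (0 : ℝ) 1, ∃ a ∈ Icc (-1 : ℝ) 1, ∃ b ∈ Icc (-1 : ℝ) 1,
        eta n k t (Icc (-1) a ×ˢ Ioc b 1) < ENNReal.ofReal (DD ((a + b) / 2) t + (a - b) / 4 - ε) ∨
        eta n k t (Icc (-a) 1 ×ˢ Ioc b 1) <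
          ENNReal.ofReal (DD ((a + b) / 2) (1 - t) + (a - b) / 4 - ε)) ≤
      c₁ * Real.exp (-c₂ * (n : ℝ) ^ 2) := by
  have huc := (isCompact_Icc.prod isCompact_Icc).uniformContinuousOn_of_continuous hD
  rw [Metric.uniformContinuousOn_iff] at huc
  obtain ⟨δ, hδ, huc⟩ := huc (ε / 4) (by positivity)
  have hδ' : ∀ u ∈ Icc (-1 : ℝ) 1, ∀ u' ∈ Icc (-1 : ℝ) 1, ∀ t ∈ Icc (0 : ℝ) 1, ∀ t' ∈ Icc (0 : ℝ) 1,
      |u - u'| < δ → |t - t'| < δ → |DD u t - DD u' t'| < ε / 4 := by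
    intro u hu u' hu' t ht t' ht' h1 h2
    have := huc (u, t) ⟨hu, ht⟩ (u', t') ⟨hu', ht'⟩ (by
      rw [Prod.dist_eq, Real.dist_eq, Real.dist_eq]
      exact max_lt h1 h2)
    rwa [Real.dist_eq] at this
  obtain ⟨G, hG⟩ := exists_nat_gt (1 / δ)
  have hGp : (0 : ℝ) < G := lt_trans (by positivity) hG
  have hG0 : 0 < G := by exact_mod_cast hGp
  have hG' : 1 / (G : ℝ) < δ := by
    rw [div_lt_iff₀ hGp]
    rw [div_lt_iff₀ hδ] at hG
    linarith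
  obtain ⟨c, hc, n₀, hprob⟩ := bad_prob hQ hG0 (ε := ε / 4) (by positivity)
  obtain ⟨N₁, hN₁⟩ := exists_nat_gt (2 / δ + 2 / ε)
  have key : ∀ n ≥ max n₀ (max N₁ 1), prob n (fun k => ∃ t ∈ Icc (0 : ℝ) 1, ∃ a ∈ Icc (-1 : ℝ) 1,
      ∃ b ∈ Icc (-1 : ℝ) 1,
        eta n k t (Icc (-1) a ×ˢ Ioc b 1) < ENNReal.ofReal (DD ((a + b) / 2) t + (a - b) / 4 - ε) ∨
        eta n k t (Icc (-a) 1 ×ˢ Ioc b 1) <
          ENNReal.ofReal (DD ((a + b) / 2) (1 - t) + (a - b) / 4 - ε)) ≤ 2 * Real.exp (-c * (n : ℝ) ^ 2) := by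
    intro n hn
    have hn1 : n₀ ≤ n := (le_max_left _ _).trans hn
    have hn2 : N₁ ≤ n := (le_max_left _ _).trans ((le_max_right _ _).trans hn)
    have hn3 : 1 ≤ n := (le_max_right _ _).trans ((le_max_right _ _).trans hn)
    have hnp : (0 : ℝ) < n := by exact_mod_cast hn3
    have hnN : 2 / δ + 2 / ε < n := lt_of_lt_of_le hN₁ (by exact_mod_cast hn2)
    have t1 : 0 < 2 / δ := by positivity
    have t2 : 0 < 2 / ε := by positivity
    have hna : 2 / (n : ℝ) < δ := by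
      rw [div_lt_iff₀ hnp]
      have : 2 / δ < n := by linarith
      rw [div_lt_iff₀ hδ] at this
      linarith
    have hnb : 2 / (n : ℝ) ≤ ε := by
      rw [div_le_iff₀ hnp]
      have : 2 / ε ≤ n := by linarith
      rw [div_le_iff₀ hε] at this
      linarith
    have hof : ∀ (x : ℝ) (q : ℕ), x ≤ (q : ℝ) / n → ENNReal.ofReal x ≤ (n : ℝ≥0∞)⁻¹ * (q : ℝ≥0∞) := by
      intro x q hx
      have e1 : (n : ℝ≥0∞)⁻¹ * (q : ℝ≥0∞) = ENNReal.ofReal ((q : ℝ) / n) := by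
        rw [div_eq_inv_mul, ENNReal.ofReal_mul (by positivity), ENNReal.ofReal_inv_of_pos hnp,
          ENNReal.ofReal_natCast, ENNReal.ofReal_natCast]
      rw [e1]
      exact ENNReal.ofReal_le_ofReal hx
    have hsub : ∀ k, IsNetwork n k → (∃ t ∈ Icc (0 : ℝ) 1, ∃ a ∈ Icc (-1 : ℝ) 1, ∃ b ∈ Icc (-1 : ℝ) 1,
        eta n k t (Icc (-1) a ×ˢ Ioc b 1) < ENNReal.ofReal (DD ((a + b) / 2) t + (a - b) / 4 - ε) ∨
        eta n k t (Icc (-a) 1 ×ˢ Ioc b 1) <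
          ENNReal.ofReal (DD ((a + b) / 2) (1 - t) + (a - b) / 4 - ε)) →
        BadQ n G (ε / 4) k ∨ BadQ n G (ε / 4) k.reverse := by
      rintro k hk ⟨t, ht, a, ha, b, hb, h⟩
      by_contra hcon
      rw [not_or] at hcon
      have hN0 : (0 : ℝ) ≤ (n.choose 2 : ℝ) := Nat.cast_nonneg _
      have hsN : ⌊(n.choose 2 : ℝ) * t⌋₊ ≤ n.choose 2 := by
        refine Nat.floor_le_of_le ?_
        nlinarith [ht.2]
      rcases h with h | h
      · refine absurd h (not_lt.2 ?_)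
        have e1 := quad_det hε hδ' hG0 hG' hn3 hna hnb hk hcon.1 ht le_rfl hsN ha hb
        refine (hof _ _ e1).trans ?_
        rw [← eta_cross2 hn3 k t ha hb]
        refine eta_le_of_subset hk t (measurableSet_Iic.prod measurableSet_Ioi)
          (measurableSet_Icc.prod measurableSet_Ioc) ?_
        rintro ⟨x, y⟩ ⟨⟨hx, hy⟩, hx', hy'⟩
        exact ⟨⟨hx'.1, hx⟩, hy, hy'.2⟩
      · refine absurd h (not_lt.2 ?_)
        have e0 : ⌊(n.choose 2 : ℝ) * (1 - t)⌋₊ ≤ n.choose 2 - ⌊(n.choose 2 : ℝ) * t⌋₊ := by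
          rw [← Nat.cast_le (α := ℝ), Nat.cast_sub hsN]
          have f1 : (⌊(n.choose 2 : ℝ) * (1 - t)⌋₊ : ℝ) ≤ (n.choose 2 : ℝ) * (1 - t) :=
            Nat.floor_le (mul_nonneg hN0 (by linarith [ht.2]))
          have f2 : (⌊(n.choose 2 : ℝ) * t⌋₊ : ℝ) ≤ (n.choose 2 : ℝ) * t := Nat.floor_le (mul_nonneg hN0 ht.1)
          linarith
        have e1 := quad_det hε hδ' hG0 hG' hn3 hna hnb (network_reverse hk) hcon.2
          (t := 1 - t) ⟨by linarith [ht.2], by linarith [ht.1]⟩ e0 (Nat.sub_le _ _) ha hb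
        refine (hof _ _ e1).trans ((eta_cross2_rev hn3 hk ha hb ht.2).trans ?_)
        refine eta_le_of_subset hk t (measurableSet_Ici.prod measurableSet_Ioi)
          (measurableSet_Icc.prod measurableSet_Ioc) ?_
        rintro ⟨x, y⟩ ⟨⟨hx, hy⟩, hx', hy'⟩
        exact ⟨⟨hx, hx'.2⟩, hy, hy'.2⟩
    refine (prob_mono hsub).trans ((prob_or_le n _ _).trans ?_)
    have e1 := hprob n hn1
    have e2 := prob_reverse n (BadQ n G (ε / 4))
    rw [e2]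
    linarith
  have key2 : ∀ n ≥ max n₀ (max N₁ 1), prob n (fun k => ∃ t ∈ Icc (0 : ℝ) 1, ∃ a ∈ Icc (-1 : ℝ) 1,
      ∃ b ∈ Icc (-1 : ℝ) 1,
        eta n k t (Icc (-1) a ×ˢ Ioc b 1) < ENNReal.ofReal (DD ((a + b) / 2) t + (a - b) / 4 - ε) ∨
        eta n k t (Icc (-a) 1 ×ˢ Ioc b 1) <
          ENNReal.ofReal (DD ((a + b) / 2) (1 - t) + (a - b) / 4 - ε)) / 2 ≤ Real.exp (-c * (n : ℝ) ^ 2) := by
    intro n hn
    have := key n hn
    linarith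
  obtain ⟨c₁, hc₁, h⟩ := exists_const (f := fun n => prob n (fun k => ∃ t ∈ Icc (0 : ℝ) 1, ∃ a ∈ Icc (-1 : ℝ) 1,
      ∃ b ∈ Icc (-1 : ℝ) 1,
        eta n k t (Icc (-1) a ×ˢ Ioc b 1) < ENNReal.ofReal (DD ((a + b) / 2) t + (a - b) / 4 - ε) ∨
        eta n k t (Icc (-a) 1 ×ˢ Ioc b 1) <
          ENNReal.ofReal (DD ((a + b) / 2) (1 - t) + (a - b) / 4 - ε)) / 2)
    (fun n => by
      have := prob_le_one n (fun k => ∃ t ∈ Icc (0 : ℝ) 1, ∃ a ∈ Icc (-1 : ℝ) 1,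
        ∃ b ∈ Icc (-1 : ℝ) 1,
        eta n k t (Icc (-1) a ×ˢ Ioc b 1) < ENNReal.ofReal (DD ((a + b) / 2) t + (a - b) / 4 - ε) ∨
        eta n k t (Icc (-a) 1 ×ˢ Ioc b 1) <
          ENNReal.ofReal (DD ((a + b) / 2) (1 - t) + (a - b) / 4 - ε))
      linarith) key2 hc
  refine ⟨2 * c₁, by positivity, c, hc, fun n _ => ?_⟩
  have := h n
  linarith

theorem quad_low
    (hQ : ∀ τ ε : ℝ, 0 ≤ τ → τ < 1 → 0 < ε →
      ∃ c > (0 : ℝ), ∃ n₀ : ℕ, ∀ n ≥ n₀, ∀ m m' q : ℕ, m ≤ n → m' ≤ n →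
      (q : ℝ) / n + ((m' : ℝ) - m) / (2 * n) ≤ DD (((m : ℝ) + m' - n) / n) τ - ε →
      (({k | IsNetwork n k ∧ cross2 m m' (k.take ⌊(n.choose 2 : ℝ) * τ⌋₊) ≤ q} :
        Set (List ℕ)).ncard : ℝ) ≤ Real.exp (-c * (n : ℝ) ^ 2) * nets n)
    {ε : ℝ} (hε : 0 < ε) :
    ∃ c₁ > (0 : ℝ), ∃ c₂ > (0 : ℝ), ∀ n : ℕ, 2 ≤ n →
      prob n (fun k => ∃ t ∈ Icc (0 : ℝ) 1, ∃ a ∈ Icc (-1 : ℝ) 1, ∃ b ∈ Icc (-1 : ℝ) 1,
        eta n k t (Icc (-1) a ×ˢ Ioc b 1) < ENNReal.ofReal (DD ((a + b) / 2) t + (a - b) / 4 - ε) ∨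
        eta n k t (Icc (-a) 1 ×ˢ Ioc b 1) <
          ENNReal.ofReal (DD ((a + b) / 2) (1 - t) + (a - b) / 4 - ε)) ≤
      c₁ * Real.exp (-c₂ * (n : ℝ) ^ 2) :=
  quad_low_of DD_cont hQ hε

end Pool.Agent.SNL63
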