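import Pool.Agent.SNL63.SwapLD
import Pool.Agent.SNL63.Quad
import Pool.Agent.SNL63.Adm2

/-!
# All pairs of times

The permutation matrix measures of the steps of the network between any two times. The rotated
network is uniform as well, so a union bound over the first time is enough.
-/

namespace Pool.Agent.SNL63

open Pool.Agent.SN8 MeasureTheory Set Filter Topology
open scoped ENNReal Real

/-- the rotation of a word by `i` letters -/
def rotN (n i : ℕ) (k : List ℕ) : List ℕ := k.drop i ++ (k.take i).map (fun j => n - j)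

theorem rotN_net {n i : ℕ} {k : List ℕ} (hk : IsNetwork n k) : IsNetwork n (rotN n i k) :=
  rot_split (by rw [List.take_append_drop]; exact hk)

theorem rotN_ncard {n i : ℕ} (hi : i ≤ n.choose 2) (E : List ℕ → Prop) :
    ({k | IsNetwork n k ∧ E (rotN n i k)} : Set (List ℕ)).ncard =
      ({k | IsNetwork n k ∧ E k} : Set (List ℕ)).ncard := by
  refine Set.ncard_congr (fun k _ => rotN n i k) ?_ ?_ ?_
  · rintro k ⟨hk, hE⟩
    exact ⟨rotN_net hk, hE⟩
  · rintro k k' ⟨hk, -⟩ ⟨hk', -⟩ h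
    have hl : ∀ j ∈ k.take i, 1 ≤ j ∧ j + 1 ≤ n := fun j hj => hk.2.1 j (List.mem_of_mem_take hj)
    have hl' : ∀ j ∈ k'.take i, 1 ≤ j ∧ j + 1 ≤ n := fun j hj => hk'.2.1 j (List.mem_of_mem_take hj)
    obtain ⟨h1, h2⟩ := List.append_inj h (by
      rw [List.length_drop, List.length_drop, hk.1, hk'.1])
    have h3 : k.take i = k'.take i := by
      rw [← rot_map_map hl, ← rot_map_map hl']
      exact congrArg _ h2
    rw [← List.take_append_drop i k, ← List.take_append_drop i k', h1, h3]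
  · rintro k ⟨hk, hE⟩
    obtain ⟨f, hf⟩ : ∃ f : ℕ → ℕ, f = fun j => n - j := ⟨_, rfl⟩
    have hl : ∀ j ∈ k.drop (n.choose 2 - i), 1 ≤ j ∧ j + 1 ≤ n :=
      fun j hj => hk.2.1 j (List.mem_of_mem_drop hj)
    have hnet : IsNetwork n ((k.drop (n.choose 2 - i)).map (fun j => n - j) ++ k.take (n.choose 2 - i)) :=
      rot_split' (by rw [List.take_append_drop]; exact hk)
    have hlen : ((k.drop (n.choose 2 - i)).map (fun j => n - j)).length = i := by
      rw [List.length_map, List.length_drop, hk.1]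
      omega
    have hφ : rotN n i ((k.drop (n.choose 2 - i)).map (fun j => n - j) ++ k.take (n.choose 2 - i)) = k := by
      unfold rotN
      rw [List.drop_left' hlen, List.take_left' hlen, rot_map_map hl, List.take_append_drop]
    exact ⟨_, ⟨hnet, by rw [hφ]; exact hE⟩, hφ⟩

theorem prob_rotN {n i : ℕ} (hi : i ≤ n.choose 2) (E : List ℕ → Prop) :
    prob n (fun k => E (rotN n i k)) = prob n E := by
  unfold prob
  rw [rotN_ncard hi]

theorem prob_rot_union (n : ℕ) (E : List ℕ → Prop) :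
    prob n (fun k => ∃ i < n.choose 2 + 1, E (rotN n i k)) ≤ ((n.choose 2 : ℝ) + 1) * prob n E := by
  refine (prob_exists_le n (fun i k => E (rotN n i k)) _).trans ?_
  rw [Finset.sum_congr rfl (fun i hi => prob_rotN (by
    rw [Finset.mem_range] at hi
    omega) E), Finset.sum_const, Finset.card_range, nsmul_eq_mul]
  push_cast
  exact le_rfl

/-- The union bound costs only the constants. -/
theorem all_rot {E : ℕ → List ℕ → Prop}
    (h : ∃ c₁ > (0 : ℝ), ∃ c₂ > (0 : ℝ), ∀ n : ℕ, 2 ≤ n → prob n (E n) ≤ c₁ * Real.exp (-c₂ * (n : ℝ) ^ 2)) :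
    ∃ c₁ > (0 : ℝ), ∃ c₂ > (0 : ℝ), ∀ n : ℕ, 2 ≤ n →
      prob n (fun k => ∃ i < n.choose 2 + 1, E n (rotN n i k)) ≤ c₁ * Real.exp (-c₂ * (n : ℝ) ^ 2) := by
  obtain ⟨c₁, hc₁, c₂, hc₂, h⟩ := h
  refine ⟨2 * c₁ / c₂, by positivity, c₂ / 2, by positivity, fun n hn => ?_⟩
  refine (prob_rot_union n (E n)).trans ?_
  have hn0 : (2 : ℝ) ≤ n := by exact_mod_cast hn
  have hN : (n.choose 2 : ℝ) = n * (n - 1) / 2 := Nat.cast_choose_two ℝ n
  have hN2 : (n.choose 2 : ℝ) + 1 ≤ (n : ℝ) ^ 2 := by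
    rw [hN]
    nlinarith
  have e1 : c₂ / 2 * (n : ℝ) ^ 2 ≤ Real.exp (c₂ / 2 * (n : ℝ) ^ 2) := by
    have := Real.add_one_le_exp (c₂ / 2 * (n : ℝ) ^ 2)
    linarith
  have e2 : (n : ℝ) ^ 2 ≤ 2 / c₂ * Real.exp (c₂ / 2 * (n : ℝ) ^ 2) := by
    have : (n : ℝ) ^ 2 = 2 / c₂ * (c₂ / 2 * (n : ℝ) ^ 2) := by
      field_simp
    calc (n : ℝ) ^ 2 = 2 / c₂ * (c₂ / 2 * (n : ℝ) ^ 2) := this
      _ ≤ _ := mul_le_mul_of_nonneg_left e1 (by positivity)
  calc ((n.choose 2 : ℝ) + 1) * prob n (E n) ≤ (n : ℝ) ^ 2 * (c₁ * Real.exp (-c₂ * (n : ℝ) ^ 2)) :=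
        mul_le_mul hN2 (h n hn) (prob_nonneg _ _) (by positivity)
    _ ≤ (2 / c₂ * Real.exp (c₂ / 2 * (n : ℝ) ^ 2)) * (c₁ * Real.exp (-c₂ * (n : ℝ) ^ 2)) :=
        mul_le_mul_of_nonneg_right e2 (by positivity)
    _ = 2 * c₁ / c₂ * (Real.exp (c₂ / 2 * (n : ℝ) ^ 2) * Real.exp (-c₂ * (n : ℝ) ^ 2)) := by ring
    _ = 2 * c₁ / c₂ * Real.exp (-(c₂ / 2) * (n : ℝ) ^ 2) := by
        rw [← Real.exp_add]
        congr 2
        ring

/-! ### The two-time measures -/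

/-- The joint law of the places of the particles at the times `s` and `t`. -/
noncomputable def eta2 (n : ℕ) (k : List ℕ) (s t : ℝ) : Measure (ℝ × ℝ) :=
  (n : ℝ≥0∞)⁻¹ • ∑ i ∈ Finset.Icc 1 n, Measure.dirac (glob n k i s, glob n k i t)

theorem eta2_zero (n : ℕ) (k : List ℕ) (t : ℝ) : eta2 n k 0 t = eta n k t := rfl

theorem eta2_rot {n : ℕ} (hn : 2 ≤ n) {k : List ℕ} (hk : IsNetwork n k) {s t : ℝ} (h0 : 0 ≤ s) (hst : s ≤ t)
    (h1 : t ≤ 1) :
    ∃ i < n.choose 2 + 1, ∃ r ∈ Icc (0 : ℝ) 1, |r - (t - s)| ≤ 1 / (n.choose 2 : ℝ) ∧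
      eta2 n k s t = eta n (rotN n i k) r := by
  have hn0 : (2 : ℝ) ≤ n := by exact_mod_cast hn
  obtain ⟨N, hN⟩ : ∃ N, N = n.choose 2 := ⟨_, rfl⟩
  have hNr : (n.choose 2 : ℝ) = n * (n - 1) / 2 := Nat.cast_choose_two ℝ n
  have hNpos : (0 : ℝ) < (N : ℝ) := by
    rw [hN, hNr]
    nlinarith
  rw [← hN]
  obtain ⟨i, hi⟩ : ∃ i, i = ⌊(N : ℝ) * s⌋₊ := ⟨_, rfl⟩
  obtain ⟨j, hj⟩ : ∃ j, j = ⌊(N : ℝ) * t⌋₊ := ⟨_, rfl⟩
  have hij : i ≤ j := by
    rw [hi, hj]
    exact Nat.floor_le_floor (mul_le_mul_of_nonneg_left hst hNpos.le)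
  have hjN : j ≤ N := by
    rw [hj]
    refine Nat.floor_le_of_le ?_
    nlinarith
  have i1 : (i : ℝ) ≤ N * s := by
    rw [hi]
    exact Nat.floor_le (by positivity)
  have i2 : (N : ℝ) * s < i + 1 := by
    rw [hi]
    exact Nat.lt_floor_add_one _
  have j1 : (j : ℝ) ≤ N * t := by
    rw [hj]
    exact Nat.floor_le (mul_nonneg hNpos.le (h0.trans hst))
  have j2 : (N : ℝ) * t < j + 1 := by
    rw [hj]
    exact Nat.lt_floor_add_one _
  obtain ⟨r, hr⟩ : ∃ r, r = ((j - i : ℕ) : ℝ) / N := ⟨_, rfl⟩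
  have hrN : (N : ℝ) * r = ((j - i : ℕ) : ℝ) := by
    rw [hr]
    field_simp
  have hcast : ((j - i : ℕ) : ℝ) = (j : ℝ) - i := Nat.cast_sub hij
  have hfl : ⌊(N : ℝ) * r⌋₊ = j - i := by
    rw [hrN]
    exact Nat.floor_natCast _
  refine ⟨i, by omega, r, ⟨?_, ?_⟩, ?_, ?_⟩
  · rw [hr]
    positivity
  · rw [hr, div_le_one hNpos]
    exact_mod_cast (by omega : j - i ≤ N)
  · have e1 : |(N : ℝ) * (r - (t - s))| ≤ 1 := by
      have e2 : (N : ℝ) * (r - (t - s)) = (j : ℝ) - i - (N * t - N * s) := by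
        rw [mul_sub, hrN, hcast]
        ring
      rw [e2, abs_le]
      constructor <;> linarith
    rw [abs_mul, abs_of_pos hNpos] at e1
    rw [le_div_iff₀ hNpos]
    linarith
  · -- the reindexing
    have hkl : ∀ l ∈ k.take i, 1 ≤ l ∧ l + 1 ≤ n := fun l hl => hk.2.1 l (List.mem_of_mem_take hl)
    have hsupp : Supp n (P (k.take i)) := Supp.P hkl
    have g1 : ∀ x, glob n (rotN n i k) (place (k.take i) x) 0 = glob n k x s := by
      intro x
      unfold glob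
      rw [mul_zero, Nat.floor_zero, List.take_zero, ← hN, ← hi]
      rfl
    have g2 : ∀ x, glob n (rotN n i k) (place (k.take i) x) r = glob n k x t := by
      intro x
      unfold glob
      rw [← hN, hfl, ← hj, ← place_append]
      have e1 : (rotN n i k).take (j - i) = (k.drop i).take (j - i) := by
        unfold rotN
        rw [List.take_append_of_le_length]
        rw [List.length_drop, hk.1]
        omega
      have e2 : k.take i ++ (k.drop i).take (j - i) = k.take j := by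
        have : j = i + (j - i) := by omega
        conv_rhs => rw [this, List.take_add]
      rw [e1, e2]
    unfold eta2 eta
    congr 1
    refine Finset.sum_nbij (fun x => place (k.take i) x) ?_ ?_ ?_ ?_
    · intro x hx
      rw [Finset.mem_Icc] at hx ⊢
      show 1 ≤ place (k.take i) x ∧ place (k.take i) x ≤ n
      rw [place_eq]
      exact hsupp.inv.mem hx.1 hx.2
    · intro x _ y _ hxy
      have hxy' : place (k.take i) x = place (k.take i) y := hxy
      rw [place_eq, place_eq] at hxy'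
      exact (P (k.take i))⁻¹.injective hxy'
    · intro y hy
      rw [Finset.coe_Icc, Set.mem_Icc] at hy
      refine ⟨P (k.take i) y, ?_, ?_⟩
      · rw [Finset.coe_Icc, Set.mem_Icc]
        exact hsupp.mem hy.1 hy.2
      · show place (k.take i) (P (k.take i) y) = y
        rw [place_eq]
        simp
    · intro x _
      show _ = Measure.dirac (glob n (rotN n i k) (place (k.take i) x) 0,
        glob n (rotN n i k) (place (k.take i) x) r)
      rw [g1, g2]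

/-! ### Neighbourhoods -/

/-- For some times `s ≤ t` the law of the step is outside `U`. -/
def Leaves2 (n : ℕ) (U : Set (ProbabilityMeasure (ℝ × ℝ))) (k : List ℕ) : Prop :=
  ∃ s t : ℝ, 0 ≤ s ∧ s ≤ t ∧ t ≤ 1 ∧ ∀ μ ∈ U, (μ : Measure (ℝ × ℝ)) ≠ eta2 n k s t

theorem leaves2_of {U : Set (ProbabilityMeasure (ℝ × ℝ))}
    (h : ∃ c₁ > (0 : ℝ), ∃ c₂ > (0 : ℝ), ∀ n : ℕ, 2 ≤ n →
      prob n (Leaves n U) ≤ c₁ * Real.exp (-c₂ * (n : ℝ) ^ 2)) :
    ∃ c₁ > (0 : ℝ), ∃ c₂ > (0 : ℝ), ∀ n : ℕ, 2 ≤ n →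
      prob n (Leaves2 n U) ≤ c₁ * Real.exp (-c₂ * (n : ℝ) ^ 2) := by
  obtain ⟨c₁, hc₁, c₂, hc₂, h⟩ := all_rot (E := fun n => Leaves n U) h
  refine ⟨c₁, hc₁, c₂, hc₂, fun n hn => (prob_mono fun k hk => ?_).trans (h n hn)⟩
  rintro ⟨s, t, h0, hst, h1, hU⟩
  obtain ⟨i, hi, r, hr, _, he⟩ := eta2_rot hn hk h0 hst h1
  exact ⟨i, hi, r, hr, fun μ hμ => by rw [← he]; exact hU μ hμ⟩

end Pool.Agent.SNL63
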