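import Pool.Agent.SNL63.NetEG
import Pool.Agent.SNL63.HookF
import Pool.Agent.SNL63.Rot2
import Pool.Agent.SNL63.Kerov

/-!
Definitions for the domination of the windows by independent letters.
-/

namespace Pool.Agent.SNL63

open Pool.Agent.SN8 MeasureTheory Set Filter Topology
open scoped ENNReal Real

/-- the reduced tableaux with `m` cells -/
def RT (n m : ℕ) : Set (List (List ℕ)) := {T | Tab T ∧ Red n (word T) ∧ (word T).length = m}

/-- the column heights of a filter of a triangle with the antidiagonal cells `P` -/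
def SQ (m : ℕ) (P : Finset ℕ) : Set (ℕ → ℕ) :=
  {r | (∀ j ≤ m, 1 ≤ r j ↔ j ∈ P) ∧ (∀ j < m, r j ≤ r (j + 1) + 1) ∧ r m ≤ 1 ∧ ∀ j, m < j → r j = 0}

/-- the words of length `s` in the letters `1, ..., n - 1` which move more than `q` particles by more
than `d` places -/
def FastW (n s q d : ℕ) : Set (List ℕ) :=
  {w | w.length = s ∧ (∀ j ∈ w, 1 ≤ j ∧ j + 1 ≤ n) ∧
    q < ({x ∈ Finset.Icc 1 n | (d : ℤ) < |(place w x : ℤ) - x|} : Finset ℕ).card}

end Pool.Agent.SNL63
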