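import Pool.Agent.SNL63.DoFrob
import Pool.Agent.SNL63.DoDefs

/-!
# The number of chains below the staircase
-/

namespace Pool.Agent.SNL63

open Pool.Agent.SN8 MeasureTheory Set Filter Topology
open scoped ENNReal Real

/-- the falling factorials are large -/
theorem desc_ge {N s : ℕ} (hs : s ≤ N) : (N : ℝ) ^ s ≤ Real.exp s * (N.descFactorial s : ℝ) := by
  have h1 : ∀ i ∈ Finset.range s, (N : ℝ) * ((s - i : ℕ) : ℝ) ≤ ((N - i : ℕ) : ℝ) * s := by
    intro i hi
    have hi' := (Finset.mem_range.1 hi).le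
    rw [Nat.cast_sub hi', Nat.cast_sub (hi'.trans hs)]
    have h2 : (s : ℝ) ≤ N := by exact_mod_cast hs
    have h3 : (0 : ℝ) ≤ i := Nat.cast_nonneg i
    nlinarith
  have h2 := Finset.prod_le_prod (s := Finset.range s) (fun i _ => by positivity) h1
  rw [Finset.prod_mul_distrib, Finset.prod_mul_distrib, Finset.prod_const, Finset.prod_const,
    Finset.card_range] at h2
  have h3 : ((N.descFactorial s : ℕ) : ℝ) = ∏ i ∈ Finset.range s, ((N - i : ℕ) : ℝ) := by
    rw [Nat.descFactorial_eq_prod_range]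
    push_cast
    rfl
  have h4 : ((s.factorial : ℕ) : ℝ) = ∏ i ∈ Finset.range s, ((s - i : ℕ) : ℝ) := by
    rw [← Nat.descFactorial_self, Nat.descFactorial_eq_prod_range]
    push_cast
    rfl
  rw [← h3, ← h4] at h2
  have h5 := Real.pow_div_factorial_le_exp (s : ℝ) (Nat.cast_nonneg s) s
  rw [div_le_iff₀ (by positivity)] at h5
  have h6 : (0 : ℝ) < s.factorial := by positivity
  have h7 : (0 : ℝ) ≤ N.descFactorial s := by positivity
  have h8 : (N : ℝ) ^ s * s.factorial ≤ (Real.exp s * N.descFactorial s) * s.factorial := by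
    calc (N : ℝ) ^ s * s.factorial ≤ N.descFactorial s * (s : ℝ) ^ s := h2
      _ ≤ N.descFactorial s * (Real.exp s * s.factorial) := mul_le_mul_of_nonneg_left h5 h7
      _ = _ := by ring
  exact le_of_mul_le_mul_right h8 h6

theorem harm_le {j n : ℕ} (hj : j < n) : ∑ i ∈ Finset.range j, (1 / ((j : ℝ) - i)) ≤ 1 + Real.log n := by
  have h1 : ∑ i ∈ Finset.range j, (1 / ((j : ℝ) - i)) = ((harmonic j : ℚ) : ℝ) := by
    rw [harmonic, ← Finset.sum_range_reflect]
    push_cast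
    apply Finset.sum_congr rfl
    intro i hi
    have hi' := Finset.mem_range.1 hi
    have h2 : ((j - 1 - i : ℕ) : ℝ) = j - 1 - i := by
      rw [Nat.cast_sub (by omega), Nat.cast_sub (by omega)]
      push_cast
      ring
    rw [h2, one_div]
    congr 1
    ring
  rw [h1]
  refine (harmonic_le_one_add_log j).trans ?_
  rcases Nat.eq_zero_or_pos j with h | h
  · rw [h]
    have : 0 ≤ Real.log n := Real.log_natCast_nonneg n
    simp [this]
  · have : Real.log j ≤ Real.log n := Real.log_le_log (by exact_mod_cast h) (by exact_mod_cast hj.le)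
    linarith

theorem le_harm {i n : ℕ} (hi : i < n) :
    Real.log ((n : ℝ) - i) ≤ ∑ j ∈ Finset.Ico (i + 1) n, (1 / ((j : ℝ) - i)) := by
  have h1 : ∑ j ∈ Finset.Ico (i + 1) n, (1 / ((j : ℝ) - i)) = ((harmonic (n - (i + 1)) : ℚ) : ℝ) := by
    rw [harmonic, Finset.sum_Ico_eq_sum_range]
    push_cast
    apply Finset.sum_congr rfl
    intro j _
    rw [one_div]
    congr 1
    ring
  rw [h1]
  have h2 := log_add_one_le_harmonic (n - (i + 1))
  have h3 : ((n - (i + 1) + 1 : ℕ) : ℝ) = n - i := by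
    rw [show n - (i + 1) + 1 = n - i by omega, Nat.cast_sub hi.le]
  rw [h3] at h2
  exact h2

theorem sum_pairs (n : ℕ) {d : ℕ → ℝ} (hd : ∀ i, 0 ≤ d i) :
    ∑ j ∈ Finset.range n, ∑ i ∈ Finset.range j, (d j - d i) / (2 * ((j : ℝ) - i)) ≤
      ∑ i ∈ Finset.range n, d i * ((1 + Real.log n - Real.log ((n : ℝ) - i)) / 2) := by
  have h1 : ∑ j ∈ Finset.range n, ∑ i ∈ Finset.range j, (d j - d i) / (2 * ((j : ℝ) - i)) =
      ∑ j ∈ Finset.range n, d j / 2 * ∑ i ∈ Finset.range j, (1 / ((j : ℝ) - i)) -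
        ∑ i ∈ Finset.range n, d i / 2 * ∑ j ∈ Finset.Ico (i + 1) n, (1 / ((j : ℝ) - i)) := by
    have h2 : ∑ i ∈ Finset.range n, d i / 2 * ∑ j ∈ Finset.Ico (i + 1) n, (1 / ((j : ℝ) - i)) =
        ∑ j ∈ Finset.range n, ∑ i ∈ Finset.range j, d i / 2 * (1 / ((j : ℝ) - i)) := by
      simp only [Finset.mul_sum]
      apply Finset.sum_comm'
      intro x y
      rw [Finset.mem_range, Finset.mem_Ico, Finset.mem_range, Finset.mem_range]
      omega
    rw [h2, ← Finset.sum_sub_distrib]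
    apply Finset.sum_congr rfl
    intro j _
    rw [Finset.mul_sum, ← Finset.sum_sub_distrib]
    apply Finset.sum_congr rfl
    intro i hi
    have hi' : (i : ℝ) < j := by exact_mod_cast Finset.mem_range.1 hi
    have h3 : (j : ℝ) - i ≠ 0 := by linarith
    field_simp
  rw [h1, ← Finset.sum_sub_distrib]
  apply Finset.sum_le_sum
  intro i hi
  have hi' := Finset.mem_range.1 hi
  have h2 := harm_le hi'
  have h3 := le_harm hi'
  have h4 := hd i
  have h5 := mul_le_mul_of_nonneg_left h2 (by linarith : 0 ≤ d i / 2)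
  have h6 := mul_le_mul_of_nonneg_left h3 (by linarith : 0 ≤ d i / 2)
  calc _ ≤ d i / 2 * (1 + Real.log n) - d i / 2 * Real.log ((n : ℝ) - i) := by linarith
    _ = _ := by ring

/-- the Vandermonde product of a shape, by the product of the staircase -/
theorem vand_le {n : ℕ} {lam : ℕ → ℕ} (h : Shape n lam) :
    ∏ j ∈ Finset.range n, ∏ i ∈ Finset.range j, ((lam i : ℝ) - i - ((lam j : ℝ) - j)) ≤
      (∏ j ∈ Finset.range n, ∏ i ∈ Finset.range j, ((stair n i : ℝ) - i - ((stair n j : ℝ) - j))) *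
        Real.exp (∑ j ∈ Finset.range n, ∑ i ∈ Finset.range j,
          (((stair n j : ℝ) - lam j) - ((stair n i : ℝ) - lam i)) / (2 * ((j : ℝ) - i))) := by
  have key : ∀ j ∈ Finset.range n, ∀ i ∈ Finset.range j,
      0 ≤ (lam i : ℝ) - i - ((lam j : ℝ) - j) ∧ (lam i : ℝ) - i - ((lam j : ℝ) - j) ≤
      ((stair n i : ℝ) - i - ((stair n j : ℝ) - j)) *
        Real.exp ((((stair n j : ℝ) - lam j) - ((stair n i : ℝ) - lam i)) / (2 * ((j : ℝ) - i))) := by
    intro j hj i hi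
    have hj' := Finset.mem_range.1 hj
    have hi' := Finset.mem_range.1 hi
    have h1 : (i : ℝ) < j := by exact_mod_cast hi'
    have h2 : (lam j : ℝ) ≤ lam i := by exact_mod_cast h.anti hi'.le
    have h3 : (stair n i : ℝ) = n - 1 - i := by
      unfold stair
      rw [Nat.cast_sub (by omega), Nat.cast_sub (by omega)]
      push_cast
      ring
    have h4 : (stair n j : ℝ) = n - 1 - j := by
      unfold stair
      rw [Nat.cast_sub (by omega), Nat.cast_sub (by omega)]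
      push_cast
      ring
    refine ⟨by linarith, ?_⟩
    rw [h3, h4]
    obtain ⟨x, hx⟩ : ∃ x, x = (((n : ℝ) - 1 - j - lam j) - ((n : ℝ) - 1 - i - lam i)) / (2 * ((j : ℝ) - i)) :=
      ⟨_, rfl⟩
    rw [← hx]
    have h5 : (j : ℝ) - i ≠ 0 := by linarith
    have h6 : x * (2 * ((j : ℝ) - i)) = ((n : ℝ) - 1 - j - lam j) - ((n : ℝ) - 1 - i - lam i) := by
      rw [hx]
      field_simp
    have h7 := mul_le_mul_of_nonneg_left (Real.add_one_le_exp x) (by linarith : 0 ≤ 2 * ((j : ℝ) - i))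
    calc (lam i : ℝ) - i - ((lam j : ℝ) - j) = 2 * ((j : ℝ) - i) * (x + 1) := by
          rw [mul_add, mul_comm _ x, h6]
          ring
      _ ≤ 2 * ((j : ℝ) - i) * Real.exp x := h7
      _ = _ := by ring
  rw [Real.exp_sum, ← Finset.prod_mul_distrib]
  apply Finset.prod_le_prod
  · intro j hj
    apply Finset.prod_nonneg
    intro i hi
    exact (key j hj i hi).1
  · intro j hj
    rw [Real.exp_sum, ← Finset.prod_mul_distrib]
    apply Finset.prod_le_prod
    · intro i hi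
      exact (key j hj i hi).1
    · intro i hi
      exact (key j hj i hi).2

theorem fact_le {l d : ℕ} : ((l + d).factorial : ℝ) ≤ (l.factorial : ℝ) * ((l + d : ℕ) : ℝ) ^ d := by
  have h1 := Nat.factorial_mul_descFactorial (Nat.le_add_left d l)
  rw [Nat.add_sub_cancel] at h1
  have h2 := Nat.mul_le_mul_left l.factorial (Nat.descFactorial_le_pow (l + d) d)
  rw [h1] at h2
  exact_mod_cast h2

/-- the factor of one cell -/
theorem cell_le {n i : ℕ} (hi : i < n) :
    ((2 * (n - 1 - i) : ℕ) : ℝ) * Real.exp ((1 + Real.log n - Real.log ((n : ℝ) - i)) / 2) ≤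
      2 * Real.exp 1 * n := by
  have h1 : (i : ℝ) < n := by exact_mod_cast hi
  have h0 : (0 : ℝ) ≤ i := Nat.cast_nonneg i
  have h2 : (0 : ℝ) < (n : ℝ) - i := by linarith
  have h3 : Real.log ((n : ℝ) - i) ≤ Real.log n := Real.log_le_log h2 (by linarith)
  have h4 : Real.exp ((1 + Real.log n - Real.log ((n : ℝ) - i)) / 2) ≤
      Real.exp 1 * (n / ((n : ℝ) - i)) := by
    refine (Real.exp_le_exp.2 (show _ ≤ 1 + Real.log n - Real.log ((n : ℝ) - i) by linarith)).trans ?_
    rw [Real.exp_sub, Real.exp_add, Real.exp_log (by linarith), Real.exp_log h2, mul_div_assoc]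
  have h5 : ((2 * (n - 1 - i) : ℕ) : ℝ) ≤ 2 * ((n : ℝ) - i) := by
    have h6 : 2 * (n - 1 - i) ≤ 2 * (n - i) := by omega
    have h7 : ((2 * (n - 1 - i) : ℕ) : ℝ) ≤ ((2 * (n - i) : ℕ) : ℝ) := by exact_mod_cast h6
    rw [Nat.cast_mul 2 (n - i), Nat.cast_sub hi.le] at h7
    push_cast at h7 ⊢
    exact h7
  calc _ ≤ 2 * ((n : ℝ) - i) * (Real.exp 1 * (n / ((n : ℝ) - i))) :=
        mul_le_mul h5 h4 (Real.exp_pos _).le (by linarith)
    _ = _ := by
        field_simp

theorem choose_two_ge {n : ℕ} (hn : 2 ≤ n) : (n : ℝ) ^ 2 / 4 ≤ ((n.choose 2 : ℕ) : ℝ) := by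
  rw [Nat.cast_choose_two]
  have h1 : (2 : ℝ) ≤ n := by exact_mod_cast hn
  nlinarith

/-- the number of chains below the staircase -/
theorem F_ratio : ∃ C > (0 : ℝ), ∀ n : ℕ, 2 ≤ n → ∀ lam : ℕ → ℕ, Shape n lam → (∀ i, lam i ≤ stair n i) →
    ∀ s : ℕ, ∑ i ∈ Finset.range n, lam i + s = n.choose 2 →
    (F n (n.choose 2 - s) lam : ℝ) ≤ (C / n) ^ s * F n (n.choose 2) (stair n) := by
  refine ⟨8 * Real.exp 1 * Real.exp 1, by positivity, ?_⟩
  intro n hn lam h hl s hs
  have hn0 : (0 : ℝ) < n := by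
    have : 0 < n := by omega
    exact_mod_cast this
  have hN4 := choose_two_ge hn
  have f2 := frobenius (shape_stair n)
  rw [sum_stair] at f2
  have f1 := frobenius h
  have hsum : ∑ i ∈ Finset.range n, lam i = n.choose 2 - s := by omega
  rw [hsum] at f1
  have hsN : s ≤ n.choose 2 := by omega
  obtain ⟨N, hN⟩ : ∃ N, N = n.choose 2 := ⟨_, rfl⟩
  rw [← hN] at f1 f2 hsN hN4 ⊢
  have hds : ∑ i ∈ Finset.range n, (stair n i - lam i) = s := by
    have h1 : ∑ i ∈ Finset.range n, (stair n i - lam i) + ∑ i ∈ Finset.range n, lam i =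
        ∑ i ∈ Finset.range n, stair n i := by
      rw [← Finset.sum_add_distrib]
      apply Finset.sum_congr rfl
      intro i _
      have := hl i
      omega
    rw [sum_stair] at h1
    omega
  obtain ⟨F₁, hF₁⟩ : ∃ F₁ : ℝ, F₁ = (F n (N - s) lam : ℝ) := ⟨_, rfl⟩
  obtain ⟨F₂, hF₂⟩ : ∃ F₂ : ℝ, F₂ = (F n N (stair n) : ℝ) := ⟨_, rfl⟩
  have hF₂0 : 0 ≤ F₂ := by rw [hF₂]; positivity
  have hF₁0 : 0 ≤ F₁ := by rw [hF₁]; positivity
  rw [← hF₁] at f1 ⊢
  rw [← hF₂] at f2 ⊢
  -- the factorials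
  have hP : ∏ i ∈ Finset.range n, ((stair n i + (n - 1 - i)).factorial : ℝ) ≤
      (∏ i ∈ Finset.range n, ((lam i + (n - 1 - i)).factorial : ℝ)) *
        ∏ i ∈ Finset.range n, ((2 * (n - 1 - i) : ℕ) : ℝ) ^ (stair n i - lam i) := by
    rw [← Finset.prod_mul_distrib]
    apply Finset.prod_le_prod
    · intro i _
      positivity
    · intro i _
      have h1 := fact_le (l := lam i + (n - 1 - i)) (d := stair n i - lam i)
      have h2 : lam i + (n - 1 - i) + (stair n i - lam i) = 2 * (n - 1 - i) := by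
        have := hl i
        unfold stair at *
        omega
      have h3 : stair n i + (n - 1 - i) = 2 * (n - 1 - i) := by
        unfold stair
        omega
      rw [h2] at h1
      rw [h3]
      exact h1
  obtain ⟨P₁, hP₁⟩ : ∃ P₁ : ℝ, P₁ = ∏ i ∈ Finset.range n, ((lam i + (n - 1 - i)).factorial : ℝ) := ⟨_, rfl⟩
  obtain ⟨P₂, hP₂⟩ : ∃ P₂ : ℝ, P₂ = ∏ i ∈ Finset.range n, ((stair n i + (n - 1 - i)).factorial : ℝ) := ⟨_, rfl⟩
  obtain ⟨E, hE⟩ : ∃ E : ℝ, E = ∏ i ∈ Finset.range n, ((2 * (n - 1 - i) : ℕ) : ℝ) ^ (stair n i - lam i) :=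
    ⟨_, rfl⟩
  have hP₁0 : 0 < P₁ := by
    rw [hP₁]
    apply Finset.prod_pos
    intro i _
    positivity
  rw [← hP₁, ← hP₂, ← hE] at hP
  rw [← hP₁] at f1
  rw [← hP₂] at f2
  -- the Vandermonde products
  have hV := vand_le h
  obtain ⟨V₁, hV₁⟩ : ∃ V₁ : ℝ, V₁ = ∏ j ∈ Finset.range n, ∏ i ∈ Finset.range j,
    ((lam i : ℝ) - i - ((lam j : ℝ) - j)) := ⟨_, rfl⟩
  obtain ⟨V₂, hV₂⟩ : ∃ V₂ : ℝ, V₂ = ∏ j ∈ Finset.range n, ∏ i ∈ Finset.range j,
    ((stair n i : ℝ) - i - ((stair n j : ℝ) - j)) := ⟨_, rfl⟩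
  obtain ⟨W, hW⟩ : ∃ W : ℝ, W = ∑ j ∈ Finset.range n, ∑ i ∈ Finset.range j,
          (((stair n j : ℝ) - lam j) - ((stair n i : ℝ) - lam i)) / (2 * ((j : ℝ) - i)) := ⟨_, rfl⟩
  rw [← hV₁, ← hV₂, ← hW] at hV
  rw [← hV₁] at f1
  rw [← hV₂] at f2
  have hV₂0 : 0 ≤ V₂ := by
    rw [hV₂]
    apply Finset.prod_nonneg
    intro j _
    apply Finset.prod_nonneg
    intro i hi
    have h1 : (i : ℝ) < j := by exact_mod_cast Finset.mem_range.1 hi
    have h2 : (stair n j : ℝ) ≤ stair n i := by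
      exact_mod_cast (shape_stair n).anti (Finset.mem_range.1 hi).le
    linarith
  have hd : ∀ i, 0 ≤ (stair n i : ℝ) - lam i := by
    intro i
    have : (lam i : ℝ) ≤ stair n i := by exact_mod_cast hl i
    linarith
  have hWle := sum_pairs n hd
  rw [← hW] at hWle
  have hWE : Real.exp W * E ≤ (2 * Real.exp 1 * n) ^ s := by
    have h1 : Real.exp W ≤ ∏ i ∈ Finset.range n,
        (Real.exp ((1 + Real.log n - Real.log ((n : ℝ) - i)) / 2)) ^ (stair n i - lam i) := by
      refine (Real.exp_le_exp.2 hWle).trans (le_of_eq ?_)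
      rw [Real.exp_sum]
      apply Finset.prod_congr rfl
      intro i _
      rw [← Real.exp_nat_mul, Nat.cast_sub (hl i)]
    have hE0 : 0 ≤ E := by
      rw [hE]
      apply Finset.prod_nonneg
      intro i _
      positivity
    refine (mul_le_mul_of_nonneg_right h1 hE0).trans ?_
    rw [hE, ← Finset.prod_mul_distrib, ← hds, ← Finset.prod_pow_eq_pow_sum]
    apply Finset.prod_le_prod
    · intro i _
      positivity
    · intro i hi
      rw [← mul_pow]
      apply pow_le_pow_left₀ (by positivity)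
      rw [mul_comm]
      exact cell_le (Finset.mem_range.1 hi)
  -- the factorials of the sizes
  have hfac : ((N - s).factorial : ℝ) * (N.descFactorial s : ℝ) = (N.factorial : ℝ) := by
    exact_mod_cast Nat.factorial_mul_descFactorial hsN
  have hdesc := desc_ge hsN
  -- put together
  have hV₁0 : 0 ≤ ((N - s).factorial : ℝ) * V₁ := by
    rw [← f1]
    positivity
  have step1 : F₁ * P₁ * (N : ℝ) ^ s ≤ Real.exp s * (N.factorial : ℝ) * V₁ := by
    rw [f1]
    calc ((N - s).factorial : ℝ) * V₁ * (N : ℝ) ^ s ≤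
          ((N - s).factorial : ℝ) * V₁ * (Real.exp s * (N.descFactorial s : ℝ)) :=
          mul_le_mul_of_nonneg_left hdesc hV₁0
      _ = Real.exp s * (((N - s).factorial : ℝ) * (N.descFactorial s : ℝ)) * V₁ := by ring
      _ = _ := by rw [hfac]
  have step2 : Real.exp s * (N.factorial : ℝ) * V₁ ≤ Real.exp s * Real.exp W * (F₂ * P₂) := by
    calc Real.exp s * (N.factorial : ℝ) * V₁ ≤ Real.exp s * (N.factorial : ℝ) * (V₂ * Real.exp W) :=
          mul_le_mul_of_nonneg_left hV (by positivity)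
      _ = Real.exp s * Real.exp W * ((N.factorial : ℝ) * V₂) := by ring
      _ = _ := by rw [f2]
  have step3 : Real.exp s * Real.exp W * (F₂ * P₂) ≤ Real.exp s * Real.exp W * (F₂ * (P₁ * E)) :=
    mul_le_mul_of_nonneg_left (mul_le_mul_of_nonneg_left hP hF₂0) (by positivity)
  have step4 : Real.exp s * Real.exp W * (F₂ * (P₁ * E)) ≤
      Real.exp s * (2 * Real.exp 1 * n) ^ s * F₂ * P₁ := by
    calc Real.exp s * Real.exp W * (F₂ * (P₁ * E)) = Real.exp s * (Real.exp W * E) * F₂ * P₁ := by ring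
      _ ≤ _ := by
        apply mul_le_mul_of_nonneg_right _ hP₁0.le
        apply mul_le_mul_of_nonneg_right _ hF₂0
        exact mul_le_mul_of_nonneg_left hWE (Real.exp_pos _).le
  have step5 : F₁ * (N : ℝ) ^ s ≤ Real.exp s * (2 * Real.exp 1 * n) ^ s * F₂ := by
    have h1 := ((step1.trans step2).trans step3).trans step4
    have h2 : F₁ * (N : ℝ) ^ s * P₁ ≤ Real.exp s * (2 * Real.exp 1 * n) ^ s * F₂ * P₁ := by
      calc F₁ * (N : ℝ) ^ s * P₁ = F₁ * P₁ * (N : ℝ) ^ s := by ring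
        _ ≤ _ := h1
    exact le_of_mul_le_mul_right h2 hP₁0
  have step6 : F₁ * ((n : ℝ) ^ 2 / 4) ^ s ≤ Real.exp s * (2 * Real.exp 1 * n) ^ s * F₂ :=
    (mul_le_mul_of_nonneg_left (pow_le_pow_left₀ (by positivity) hN4 s) hF₁0).trans step5
  have h9 : Real.exp s = Real.exp 1 ^ s := by
    rw [← Real.exp_nat_mul, mul_one]
  have h10 : Real.exp s * (2 * Real.exp 1 * n) ^ s =
      (8 * Real.exp 1 * Real.exp 1 / n) ^ s * ((n : ℝ) ^ 2 / 4) ^ s := by
    rw [h9, ← mul_pow, ← mul_pow]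
    congr 1
    field_simp
    ring
  rw [h10] at step6
  have h11 : (0 : ℝ) < ((n : ℝ) ^ 2 / 4) ^ s := by positivity
  refine le_of_mul_le_mul_right ?_ h11
  calc F₁ * ((n : ℝ) ^ 2 / 4) ^ s ≤ _ := step6
    _ = _ := by ring

end Pool.Agent.SNL63
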