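import Pool.Agent.SNL63.DoSuf
import Pool.Agent.SNL63.DoCard
import Pool.Agent.SNL63.DoHook
import Pool.Agent.SNL63.EGW
import Pool.Agent.SNL63.Asm

/-!
# Domination of the windows by independent letters
-/

namespace Pool.Agent.SNL63

open Pool.Agent.SN8 MeasureTheory Set Filter Topology
open scoped ENNReal Real

/-- a window is the last part of a rotated network, with the mirrored letters -/
theorem window_rotN {n i : ℕ} {k w : List ℕ} (hk : IsNetwork n k) (hi : i + w.length ≤ n.choose 2)
    (h : (k.drop i).take w.length = w) :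
    (rotN n (i + w.length) k).drop (n.choose 2 - w.length) = w.map (fun j => n - j) := by
  obtain ⟨s, hs⟩ : ∃ s, s = w.length := ⟨_, rfl⟩
  rw [← hs] at hi h ⊢
  have hlen : (k.drop (i + s)).length = n.choose 2 - (i + s) := by
    rw [List.length_drop, hk.1]
  have e1 : n.choose 2 - s = (k.drop (i + s)).length + i := by
    rw [hlen]
    omega
  unfold rotN
  rw [e1, ← List.drop_drop, List.drop_left, ← List.map_drop]
  congr 1
  have e2 : k.take (i + s) = k.take i ++ (k.drop i).take s := List.take_add
  have e3 : (k.take i).length = i := by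
    rw [List.length_take, hk.1]
    omega
  rw [e2, h]
  exact (congrArg (fun m => List.drop m (k.take i ++ w)) e3.symm).trans List.drop_left

/-- **domination by independent letters** -/
theorem domination : ∃ C > (0 : ℝ), ∀ n : ℕ, 2 ≤ n → ∀ (i : ℕ) (w : List ℕ), n ≤ w.length →
    i + w.length ≤ n.choose 2 →
    prob n (fun k => (k.drop i).take w.length = w) ≤ (C / n) ^ w.length := by
  obtain ⟨C, hC, hF⟩ := F_ratio
  refine ⟨16 * C, by positivity, fun n hn i w hw hi => ?_⟩
  have hn0 : (0 : ℝ) < n := by
    have : 0 < n := by omega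
    exact_mod_cast this
  obtain ⟨w', hw'⟩ : ∃ w', w' = w.map (fun j => n - j) := ⟨_, rfl⟩
  have hlen : w'.length = w.length := by rw [hw', List.length_map]
  obtain ⟨s, hs⟩ : ∃ s, s = w.length := ⟨_, rfl⟩
  rw [← hs] at hw hi
  have hws : w'.length = s := by omega
  have hFp : (0 : ℝ) < F n (n.choose 2) (stair n) := by exact_mod_cast F_stair_pos n
  -- the rotation
  have h1 : prob n (fun k => (k.drop i).take w.length = w) ≤
      prob n (fun k => k.drop (n.choose 2 - s) = w') := by
    rw [← prob_rotN (i := i + w.length) (by omega) (fun k => k.drop (n.choose 2 - s) = w')]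
    unfold prob
    refine div_le_div_of_nonneg_right ?_ (Nat.cast_nonneg _)
    rw [Nat.cast_le]
    refine Set.ncard_le_ncard ?_ ?_
    · rintro k ⟨hk1, hk2⟩
      refine ⟨hk1, ?_⟩
      have := window_rotN hk1 (by omega) hk2
      show (rotN n (i + w.length) k).drop (n.choose 2 - s) = w'
      rw [hs, hw']
      exact this
    · exact (networks_finite n).subset fun k hk => hk.1
  refine h1.trans ?_
  -- the number of networks with the last letters `w'`
  obtain ⟨hfin, hcard⟩ := RT_card n s (by omega)
  have h2 := suffix_le (n := n) (w := w') (by omega) (B := (C / n) ^ s * F n (n.choose 2) (stair n))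
    (by positivity) (by rw [hws]; exact hfin) (by
      rw [hws]
      rintro T ⟨t1, t2, t3⟩
      refine hF n hn (shp T) ⟨t1.anti, ?_⟩ (fun j => shape_le t1 t2.1 j) s ?_
      · have := shape_le t1 t2.1 n
        omega
      · rw [sum_shp t1 (length_le_of_red t1 t2.1), t3]
        omega)
  rw [hws] at h2
  unfold prob
  have h3 : (({k | IsNetwork n k} : Set (List ℕ)).ncard : ℝ) = F n (n.choose 2) (stair n) := by
    have := nets_eq n
    unfold nets at this
    rw [this]
  rw [h3, div_le_iff₀ hFp]
  refine h2.trans ?_
  have h4 : ((RT n (n.choose 2 - s)).ncard : ℝ) ≤ 16 ^ s := by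
    have e1 : (4 : ℕ) ^ (n + s) ≤ 4 ^ (s + s) := Nat.pow_le_pow_right (by norm_num) (by omega)
    have e2 : (4 : ℕ) ^ (s + s) = 16 ^ s := by
      rw [← two_mul, pow_mul]
      norm_num
    have e3 := hcard.trans (e1.trans e2.le)
    exact_mod_cast e3
  calc ((RT n (n.choose 2 - s)).ncard : ℝ) * ((C / n) ^ s * F n (n.choose 2) (stair n))
      ≤ 16 ^ s * ((C / n) ^ s * F n (n.choose 2) (stair n)) := mul_le_mul_of_nonneg_right h4 (by positivity)
    _ = (16 * C / n) ^ w.length * F n (n.choose 2) (stair n) := by
        rw [← hs, ← mul_assoc, ← mul_pow]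
        congr 2
        ring

end Pool.Agent.SNL63
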