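import Pool.Agent.SNL63.DoDefs

/-!
The words which move many particles far.
-/

namespace Pool.Agent.SNL63

open Pool.Agent.SN8 Finset

/-- the number of the steps which touch one of the particles which start in `S` -/
def tch : List ℕ → Finset ℕ → ℕ
  | [], _ => 0
  | j :: l, S => (if j ∈ S ∨ j + 1 ∈ S then 1 else 0) + tch l (S.image (fun x => sw j x))

theorem sum_swap_le (j : ℕ) (S : Finset ℕ) :
    ∑ x ∈ S, |((sw j x : ℕ) : ℤ) - x| ≤ 2 * ((if j ∈ S ∨ j + 1 ∈ S then 1 else 0 : ℕ) : ℤ) := by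
  have h0 : ∀ x ∈ S, |((sw j x : ℕ) : ℤ) - x| = (if x = j then 1 else 0) + (if x = j + 1 then 1 else 0) := by
    intro x _
    rw [sw_apply]
    by_cases h1 : x = j
    · subst h1
      simp
    · by_cases h2 : x = j + 1
      · subst h2
        simp
      · simp [h1, h2]
  rw [sum_congr rfl h0, sum_add_distrib, sum_ite_eq', sum_ite_eq']
  by_cases h1 : j ∈ S <;> by_cases h2 : j + 1 ∈ S <;> simp [h1, h2]

/-- the displacements are bounded by the number of the steps which touch the particles -/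
theorem disp_le (l : List ℕ) : ∀ S : Finset ℕ, ∑ x ∈ S, |((place l x : ℕ) : ℤ) - x| ≤ 2 * (tch l S : ℤ) := by
  induction l with
  | nil =>
    intro S
    simp [tch, place]
  | cons j l ih =>
    intro S
    have h1 : ∑ x ∈ S, |((place (j :: l) x : ℕ) : ℤ) - x| ≤
        ∑ x ∈ S, |((place l (sw j x) : ℕ) : ℤ) - (sw j x : ℕ)| + ∑ x ∈ S, |((sw j x : ℕ) : ℤ) - x| := by
      rw [← sum_add_distrib]
      refine sum_le_sum fun x _ => ?_
      have e : place (j :: l) x = place l (sw j x) := rfl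
      rw [e]
      exact abs_sub_le _ _ _
    have h2 : ∑ x ∈ S, |((place l (sw j x) : ℕ) : ℤ) - (sw j x : ℕ)| =
        ∑ y ∈ S.image (fun x => sw j x), |((place l y : ℕ) : ℤ) - y| := by
      rw [sum_image]
      intro x _ y _ hxy
      exact (sw j).injective hxy
    have h3 := ih (S.image (fun x => sw j x))
    have h4 := sum_swap_le j S
    have h5 : (tch (j :: l) S : ℤ) = ((if j ∈ S ∨ j + 1 ∈ S then 1 else 0 : ℕ) : ℤ) +
        (tch l (S.image (fun x => sw j x)) : ℤ) := by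
      rw [tch]
      push_cast
      rfl
    rw [h2] at h1
    rw [h5]
    linarith

/-- the words of length `s` in the letters `1, ..., n - 1` -/
def Wd (n : ℕ) : ℕ → Finset (List ℕ)
  | 0 => {[]}
  | s + 1 => (Icc 1 (n - 1) ×ˢ Wd n s).image (fun p => p.1 :: p.2)

theorem mem_Wd {n : ℕ} : ∀ {s : ℕ} {w : List ℕ}, w ∈ Wd n s ↔ w.length = s ∧ ∀ j ∈ w, 1 ≤ j ∧ j + 1 ≤ n
  | 0, w => by
    rw [Wd, mem_singleton]
    constructor
    · rintro rfl
      simp
    · rintro ⟨h, -⟩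
      exact List.length_eq_zero_iff.1 h
  | s + 1, w => by
    rw [Wd, mem_image]
    constructor
    · rintro ⟨⟨j, l⟩, hp, rfl⟩
      rw [mem_product, mem_Icc, mem_Wd] at hp
      obtain ⟨⟨h1, h2⟩, h3, h4⟩ := hp
      refine ⟨by simp only [List.length_cons, h3], ?_⟩
      intro i hi
      rcases List.mem_cons.1 hi with rfl | hi
      · constructor
        · exact h1
        · have h1' : 1 ≤ i := h1
          have h2' : i ≤ n - 1 := h2
          omega
      · exact h4 i hi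
    · rintro ⟨h1, h2⟩
      cases w with
      | nil => simp at h1
      | cons j l =>
        refine ⟨(j, l), ?_, rfl⟩
        rw [mem_product, mem_Icc, mem_Wd]
        have h3 := h2 j (List.mem_cons_self)
        refine ⟨⟨h3.1, ?_⟩, by simpa using h1, fun i hi => h2 i (List.mem_cons_of_mem _ hi)⟩
        show j ≤ n - 1
        omega

theorem sum_Wd {n s : ℕ} (g : List ℕ → ℝ) :
    ∑ w ∈ Wd n (s + 1), g w = ∑ j ∈ Icc 1 (n - 1), ∑ l ∈ Wd n s, g (j :: l) := by
  rw [Wd, sum_image, sum_product]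
  rintro ⟨j, l⟩ _ ⟨j', l'⟩ _ h
  simp only [List.cons.injEq] at h
  rw [h.1, h.2]

theorem sum_one_step (n : ℕ) {z : ℝ} (hz : 1 ≤ z) (S : Finset ℕ) :
    ∑ j ∈ Icc 1 (n - 1), z ^ (2 * (if j ∈ S ∨ j + 1 ∈ S then 1 else 0)) ≤ n + 2 * S.card * z ^ 2 := by
  have hz2 : 0 ≤ z ^ 2 := by positivity
  have h1 : ∀ j ∈ Icc 1 (n - 1), z ^ (2 * (if j ∈ S ∨ j + 1 ∈ S then 1 else 0)) ≤
      1 + (if j ∈ S then z ^ 2 else 0) + (if j + 1 ∈ S then z ^ 2 else 0) := by
    intro j _
    by_cases h1 : j ∈ S <;> by_cases h2 : j + 1 ∈ S <;> simp [h1, h2] <;> linarith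
  refine (sum_le_sum h1).trans ?_
  rw [sum_add_distrib, sum_add_distrib, ← sum_filter, ← sum_filter, sum_const, sum_const, sum_const, nsmul_eq_mul,
    nsmul_eq_mul, nsmul_eq_mul, Nat.card_Icc]
  have h2 : (((Icc 1 (n - 1)).filter (fun j => j ∈ S)).card : ℝ) ≤ S.card := by
    exact_mod_cast card_le_card (fun j hj => (mem_filter.1 hj).2)
  have h3 : (((Icc 1 (n - 1)).filter (fun j => j + 1 ∈ S)).card : ℝ) ≤ S.card := by
    exact_mod_cast card_le_card_of_injOn (fun j => j + 1) (fun j hj => (mem_filter.1 hj).2)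
      (fun x _ y _ h => by simpa using h)
  have h4 : ((n - 1 + 1 - 1 : ℕ) : ℝ) ≤ n := by exact_mod_cast (by omega : n - 1 + 1 - 1 ≤ n)
  have h5 := mul_le_mul_of_nonneg_right h2 hz2
  have h6 := mul_le_mul_of_nonneg_right h3 hz2
  linarith

theorem sum_tch (n : ℕ) {z : ℝ} (hz : 1 ≤ z) : ∀ (s : ℕ) (S : Finset ℕ),
    ∑ w ∈ Wd n s, z ^ (2 * tch w S) ≤ (n + 2 * S.card * z ^ 2) ^ s
  | 0, S => by
    rw [Wd, sum_singleton, tch, pow_zero]
    simp
  | s + 1, S => by
    have hB : (0 : ℝ) ≤ n + 2 * S.card * z ^ 2 := by positivity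
    have h1 : ∀ j : ℕ, ∑ l ∈ Wd n s, z ^ (2 * tch (j :: l) S) ≤
        z ^ (2 * (if j ∈ S ∨ j + 1 ∈ S then 1 else 0)) * (n + 2 * S.card * z ^ 2) ^ s := by
      intro j
      have h2 := sum_tch n hz s (S.image (fun x => sw j x))
      rw [card_image_of_injective _ (fun x y h => (sw j).injective h)] at h2
      have h3 : ∀ l ∈ Wd n s, z ^ (2 * tch (j :: l) S) =
          z ^ (2 * (if j ∈ S ∨ j + 1 ∈ S then 1 else 0)) * z ^ (2 * tch l (S.image (fun x => sw j x))) := by
        intro l _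
        rw [tch, mul_add, pow_add]
      rw [sum_congr rfl h3, ← mul_sum]
      exact mul_le_mul_of_nonneg_left h2 (by positivity)
    rw [sum_Wd]
    refine (sum_le_sum fun j _ => h1 j).trans ?_
    rw [← sum_mul, pow_succ, mul_comm]
    exact mul_le_mul_of_nonneg_left (sum_one_step n hz S) (pow_nonneg hB s)

/-- the number of words which move many particles far -/
theorem fast_card {n s q d : ℕ} (hn : 2 ≤ n) {z : ℝ} (hz : 1 ≤ z) :
    (FastW n s q d).Finite ∧
    ((FastW n s q d).ncard : ℝ) ≤ 2 ^ n * (n + 2 * (q + 1) * z ^ 2) ^ s / z ^ ((q + 1) * (d + 1)) := by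
  have hz0 : 0 < z := by linarith
  have hsub : FastW n s q d ⊆ ((Wd n s : Finset (List ℕ)) : Set (List ℕ)) := by
    intro w hw
    exact mem_coe.2 (mem_Wd.2 ⟨hw.1, hw.2.1⟩)
  refine ⟨(finite_toSet _).subset hsub, ?_⟩
  obtain ⟨Fa, hFa⟩ : ∃ Fa : Finset ℕ → Finset (List ℕ), ∀ A, Fa A = (Wd n s).filter
      (fun w => ∀ x ∈ A, (d : ℤ) < |((place w x : ℕ) : ℤ) - x|) := ⟨_, fun _ => rfl⟩
  have h1 : FastW n s q d ⊆ (((powersetCard (q + 1) (Icc 1 n)).biUnion Fa : Finset (List ℕ)) : Set (List ℕ)) := by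
    intro w hw
    obtain ⟨A, hA, hAc⟩ := exists_subset_card_eq (Nat.succ_le_of_lt hw.2.2)
    rw [mem_coe, mem_biUnion]
    refine ⟨A, ?_, ?_⟩
    · rw [mem_powersetCard]
      exact ⟨hA.trans (filter_subset _ _), hAc⟩
    · rw [hFa, mem_filter]
      exact ⟨mem_coe.1 (hsub hw), fun x hx => (mem_filter.1 (hA hx)).2⟩
  have h2 : (FastW n s q d).ncard ≤ ((powersetCard (q + 1) (Icc 1 n)).biUnion Fa).card := by
    have := Set.ncard_le_ncard h1 (finite_toSet _)
    rwa [Set.ncard_coe_finset] at this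
  have h3 : ∀ A ∈ powersetCard (q + 1) (Icc 1 n), ((Fa A).card : ℝ) * z ^ ((q + 1) * (d + 1)) ≤
      (n + 2 * (q + 1) * z ^ 2) ^ s := by
    intro A hA
    have hAc := (mem_powersetCard.1 hA).2
    have h4 := sum_tch n hz s A
    rw [hAc] at h4
    push_cast at h4
    refine le_trans ?_ h4
    rw [← nsmul_eq_mul]
    refine (card_nsmul_le_sum (Fa A) (fun w => z ^ (2 * tch w A)) _ ?_).trans (sum_le_sum_of_subset_of_nonneg ?_ ?_)
    · intro w hw
      rw [hFa, mem_filter] at hw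
      apply pow_le_pow_right₀ hz
      have h5 : ((q + 1) * (d + 1) : ℤ) ≤ ∑ x ∈ A, |((place w x : ℕ) : ℤ) - x| := by
        have h6 := card_nsmul_le_sum A (fun x => |((place w x : ℕ) : ℤ) - x|) (d + 1 : ℤ) (fun x hx => hw.2 x hx)
        rw [hAc, nsmul_eq_mul] at h6
        push_cast at h6
        exact h6
      have h6 := disp_le w A
      have h7 : ((q + 1) * (d + 1) : ℤ) ≤ 2 * (tch w A : ℤ) := h5.trans h6
      exact_mod_cast h7
    · rw [hFa]
      exact filter_subset _ _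
    · intro w _ _
      positivity
  rw [le_div_iff₀ (by positivity)]
  have h4 : ((powersetCard (q + 1) (Icc 1 n)).card : ℝ) ≤ 2 ^ n := by
    rw [card_powersetCard, Nat.card_Icc]
    have := Nat.choose_le_two_pow (n + 1 - 1) (q + 1)
    rw [Nat.add_sub_cancel] at this ⊢
    exact_mod_cast this
  have h5 : (((powersetCard (q + 1) (Icc 1 n)).biUnion Fa).card : ℝ) ≤
      ∑ A ∈ powersetCard (q + 1) (Icc 1 n), ((Fa A).card : ℝ) := by
    exact_mod_cast card_biUnion_le
  have h6 : ((FastW n s q d).ncard : ℝ) ≤ ∑ A ∈ powersetCard (q + 1) (Icc 1 n), ((Fa A).card : ℝ) :=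
    le_trans (by exact_mod_cast h2) h5
  have hz1 : 0 ≤ z ^ ((q + 1) * (d + 1)) := by positivity
  refine (mul_le_mul_of_nonneg_right h6 hz1).trans ?_
  rw [sum_mul]
  refine (sum_le_sum h3).trans ?_
  rw [sum_const, nsmul_eq_mul]
  exact mul_le_mul_of_nonneg_right h4 (by positivity)

end Pool.Agent.SNL63
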