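import Pool.Agent.SNL63.Kerov

/-!
# The Frobenius form of the hook length formula
-/

namespace Pool.Agent.SNL63

open Pool.Agent.SN8

/-- the Vandermonde product -/
noncomputable def vand (n : ℕ) (x : ℕ → ℝ) : ℝ := ∏ j ∈ Finset.range n, ∏ i ∈ Finset.range j, (x i - x j)

theorem vand_update {x : ℕ → ℝ} (hx : Function.Injective x) (a : ℕ) (n : ℕ) :
    vand n (Function.update x a (x a - 1)) =
      if a < n then vand n x * Kerov_B x (Finset.range n) a else vand n x := by
  induction n with
  | zero => simp [vand]
  | succ n ih =>
    have e : ∀ y : ℕ → ℝ, vand (n + 1) y = vand n y * ∏ i ∈ Finset.range n, (y i - y n) := by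
      intro y
      unfold vand
      rw [Finset.prod_range_succ]
    have hni : n ∉ Finset.range n := by simp
    rw [e, e, ih, Finset.range_add_one]
    rcases lt_trichotomy a n with h | h | h
    · rw [if_pos h, if_pos (by omega), Kerov_B_insert x hni (Finset.mem_range.2 h)]
      have h1 : ∏ i ∈ Finset.range n, (Function.update x a (x a - 1) i - Function.update x a (x a - 1) n) =
          (1 - 1 / (x a - x n)) * ∏ i ∈ Finset.range n, (x i - x n) := by
        have ha : a ∈ Finset.range n := Finset.mem_range.2 h
        rw [← Finset.mul_prod_erase _ _ ha, ← Finset.mul_prod_erase _ _ ha, Function.update_self,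
          Function.update_of_ne (by omega : n ≠ a)]
        have h2 : ∏ i ∈ (Finset.range n).erase a, (Function.update x a (x a - 1) i - x n) =
            ∏ i ∈ (Finset.range n).erase a, (x i - x n) := by
          apply Finset.prod_congr rfl
          intro i hi
          rw [Function.update_of_ne (Finset.ne_of_mem_erase hi)]
        rw [h2, ← mul_assoc]
        congr 1
        have h3 : x a - x n ≠ 0 := sub_ne_zero.2 fun h4 => by
          have := hx h4
          omega
        field_simp
        ring
      rw [h1]
      ring
    · subst h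
      rw [if_neg (lt_irrefl _), if_pos (by omega), Kerov_B_self x hni]
      have h1 : ∏ i ∈ Finset.range a, (Function.update x a (x a - 1) i - Function.update x a (x a - 1) a) =
          (∏ i ∈ Finset.range a, (x i - x a)) * ∏ i ∈ Finset.range a, (1 - 1 / (x a - x i)) := by
        rw [← Finset.prod_mul_distrib]
        apply Finset.prod_congr rfl
        intro i hi
        have hi' := Finset.mem_range.1 hi
        rw [Function.update_self, Function.update_of_ne (by omega : i ≠ a)]
        have h3 : x a - x i ≠ 0 := sub_ne_zero.2 fun h4 => by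
          have := hx h4
          omega
        field_simp
        ring
      rw [h1]
      ring
    · rw [if_neg (by omega), if_neg (by omega)]
      have h1 : ∏ i ∈ Finset.range n, (Function.update x a (x a - 1) i - Function.update x a (x a - 1) n) =
          ∏ i ∈ Finset.range n, (x i - x n) := by
        apply Finset.prod_congr rfl
        intro i hi
        have hi' := Finset.mem_range.1 hi
        rw [Function.update_of_ne (by omega : i ≠ a), Function.update_of_ne (by omega : n ≠ a)]
      rw [h1]

theorem vand_dec {n : ℕ} {lam : ℕ → ℕ} (h : Shape n lam) {a : ℕ} (ha : a ∈ corners n lam) :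
    vand n (Kerov_l (dec lam a)) = vand n (Kerov_l lam) * Kerov_B (Kerov_l lam) (Finset.range n) a := by
  have ha' := mem_corners.1 ha
  have h1 : Kerov_l (dec lam a) = Function.update (Kerov_l lam) a (Kerov_l lam a - 1) := by
    funext i
    by_cases hi : i = a
    · subst hi
      rw [Function.update_self]
      unfold Kerov_l
      rw [dec_self, Nat.cast_sub (by omega)]
      push_cast
      ring
    · rw [Function.update_of_ne hi]
      unfold Kerov_l
      rw [dec_ne lam hi]
  rw [h1, vand_update (Kerov_l_inj h), if_pos ha'.1]

theorem HP_vand (n : ℕ) : ∀ (k : ℕ) {lam : ℕ → ℕ}, Shape n lam → ∑ i ∈ Finset.range n, lam i = k →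
    HP n lam * vand n (Kerov_l lam) = ∏ i ∈ Finset.range n, ((lam i + (n - 1 - i)).factorial : ℝ) := by
  intro k
  induction k with
  | zero =>
    intro lam h hk
    have h1 : ∀ i ∈ Finset.range n, lam i = 0 := by
      intro i hi
      exact (Finset.sum_eq_zero_iff.1 hk) i hi
    have h2 : HP n lam = 1 := by
      unfold HP
      apply Finset.prod_eq_one
      intro i hi
      rw [h1 i hi]
      simp
    rw [h2, one_mul]
    have h3 : ∏ i ∈ Finset.range n, ((lam i + (n - 1 - i)).factorial : ℝ) =
        ∏ j ∈ Finset.range n, (j.factorial : ℝ) := by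
      rw [← Finset.prod_range_reflect (fun j => (j.factorial : ℝ)) n]
      apply Finset.prod_congr rfl
      intro i hi
      rw [h1 i hi, zero_add]
    rw [h3]
    unfold vand
    apply Finset.prod_congr rfl
    intro j hj
    have h4 : ∏ i ∈ Finset.range j, (Kerov_l lam i - Kerov_l lam j) = ∏ i ∈ Finset.range j, ((i : ℝ) + 1) := by
      rw [← Finset.prod_range_reflect (fun i => (i : ℝ) + 1) j]
      apply Finset.prod_congr rfl
      intro i hi
      have hi' := Finset.mem_range.1 hi
      have hj' := Finset.mem_range.1 hj
      unfold Kerov_l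
      rw [h1 i (Finset.mem_range.2 (by omega)), h1 j hj, Nat.cast_sub (by omega : i ≤ j - 1),
        Nat.cast_sub (by omega : 1 ≤ j)]
      push_cast
      ring
    rw [h4, ← Finset.prod_range_add_one_eq_factorial]
    push_cast
    rfl
  | succ k ih =>
    intro lam h hk
    have hne : (corners n lam).Nonempty := by
      by_contra hc
      rw [Finset.not_nonempty_iff_eq_empty] at hc
      have h1 := hook_real n (k + 1) h hk
      have h2 : F n (k + 1) lam = 0 := by
        simp [F, hc]
      rw [h2] at h1
      have h3 : ((k + 1).factorial : ℝ) ≠ 0 := by positivity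
      apply h3
      rw [← h1]
      simp
    obtain ⟨a, ha⟩ := hne
    have ha' := mem_corners.1 ha
    have hs := sum_dec ha
    have h1 := ih (shape_dec h ha) (by omega)
    have h2 := HP_dec h ha
    have h3 := Kerov_share h ha
    have h4 := vand_dec h ha
    have h5 : ∏ i ∈ Finset.range n, ((lam i + (n - 1 - i)).factorial : ℝ) =
        (Kerov_l lam a + n) * ∏ i ∈ Finset.range n, ((dec lam a i + (n - 1 - i)).factorial : ℝ) := by
      have hm : a ∈ Finset.range n := Finset.mem_range.2 ha'.1
      rw [← Finset.mul_prod_erase _ _ hm, ← Finset.mul_prod_erase _ _ hm]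
      have h6 : ∏ i ∈ (Finset.range n).erase a, ((dec lam a i + (n - 1 - i)).factorial : ℝ) =
          ∏ i ∈ (Finset.range n).erase a, ((lam i + (n - 1 - i)).factorial : ℝ) := by
        apply Finset.prod_congr rfl
        intro i hi
        rw [dec_ne lam (Finset.ne_of_mem_erase hi)]
      rw [h6, ← mul_assoc, dec_self]
      congr 1
      have h7 : lam a + (n - 1 - a) = (lam a - 1 + (n - 1 - a)) + 1 := by omega
      have h8 : Kerov_l lam a + n = ((lam a - 1 + (n - 1 - a) : ℕ) : ℝ) + 1 := by
        unfold Kerov_l
        rw [Nat.cast_add, Nat.cast_sub (by omega : 1 ≤ lam a), Nat.cast_sub (by omega : a ≤ n - 1),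
          Nat.cast_sub (by omega : 1 ≤ n)]
        push_cast
        ring
      rw [h7, Nat.factorial_succ, h8]
      push_cast
      ring
    rw [h5, ← h1, h4, h2, ← h3]
    ring

theorem frobenius {n : ℕ} {lam : ℕ → ℕ} (h : Shape n lam) :
     (F n (∑ i ∈ Finset.range n, lam i) lam : ℝ) * ∏ i ∈ Finset.range n, ((lam i + (n - 1 - i)).factorial : ℝ) =
       ((∑ i ∈ Finset.range n, lam i).factorial : ℝ) *
         ∏ j ∈ Finset.range n, ∏ i ∈ Finset.range j, ((lam i : ℝ) - i - ((lam j : ℝ) - j)) := by
  have h1 := hook_real n _ h rfl
  have h2 := HP_vand n _ h rfl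
  have h3 : vand n (Kerov_l lam) =
      ∏ j ∈ Finset.range n, ∏ i ∈ Finset.range j, ((lam i : ℝ) - i - ((lam j : ℝ) - j)) := by
    unfold vand
    apply Finset.prod_congr rfl
    intro j _
    apply Finset.prod_congr rfl
    intro i _
    unfold Kerov_l
    ring
  rw [← h3, ← h1, ← h2]
  ring

end Pool.Agent.SNL63
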