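import Pool.Agent.SNL63.EnDefs

/-!
# Energy criterion, E1: elementary facts on the correlations
-/

namespace Pool.Agent.SNL63

open Pool.Agent.SN8 MeasureTheory Set Filter Topology
open scoped ENNReal Real

theorem KK_comm (n : ℕ) (k : List ℕ) (i j : ℕ) : KK n k i j = KK n k j i := by
  unfold KK
  congr 1
  exact Finset.sum_congr rfl fun x _ => mul_comm _ _

theorem sum_lin (n : ℕ) : ∑ i ∈ Finset.Icc 1 n, (i : ℝ) = n * (n + 1) / 2 := by
  induction n with
  | zero => simp
  | succ m ih =>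
    rw [Finset.sum_Icc_succ_top (by omega), ih]
    push_cast
    ring

theorem sum_sq (n : ℕ) : ∑ i ∈ Finset.Icc 1 n, (i : ℝ) ^ 2 = n * (n + 1) * (2 * n + 1) / 6 := by
  induction n with
  | zero => simp
  | succ m ih =>
    rw [Finset.sum_Icc_succ_top (by omega), ih]
    push_cast
    ring

theorem sum_pos_sq {n : ℕ} (hn : 1 ≤ n) :
    ∑ i ∈ Finset.Icc 1 n, (2 * (i : ℝ) / n - 1) ^ 2 = ((n : ℝ) ^ 2 + 2) / (3 * n) := by
  have hn0 : (n : ℝ) ≠ 0 := by
    have : 0 < n := hn
    positivity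
  have h1 : ∀ i ∈ Finset.Icc 1 n, (2 * (i : ℝ) / n - 1) ^ 2 = 4 / (n : ℝ) ^ 2 * (i : ℝ) ^ 2 - 4 / n * i + 1 := by
    intro i _
    field_simp
    ring
  rw [Finset.sum_congr rfl h1, Finset.sum_add_distrib, Finset.sum_sub_distrib, ← Finset.mul_sum, ← Finset.mul_sum,
    sum_sq, sum_lin, Finset.sum_const, Nat.card_Icc, nsmul_eq_mul, mul_one]
  have h2 : ((n + 1 - 1 : ℕ) : ℝ) = n := by simp
  rw [h2]
  field_simp
  ring

theorem net_take {n : ℕ} {k : List ℕ} (hk : IsNetwork n k) (i : ℕ) : ∀ j ∈ k.take i, 1 ≤ j ∧ j + 1 ≤ n :=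
  fun j hj => hk.2.1 j (List.mem_of_mem_take hj)

theorem KK_self {n : ℕ} (hn : 1 ≤ n) {k : List ℕ} (hk : IsNetwork n k) {i : ℕ} (hi : i ≤ n.choose 2) :
    KK n k i i = 1 / 3 + 2 / (3 * (n : ℝ) ^ 2) := by
  have _ := hi
  have hn0 : (n : ℝ) ≠ 0 := by
    have : 0 < n := hn
    positivity
  unfold KK pos
  rw [sum_place (net_take hk i) (fun y => (2 * (y : ℝ) / n - 1) * (2 * (y : ℝ) / n - 1))]
  have h1 : ∀ y ∈ Finset.Icc 1 n, (2 * (y : ℝ) / n - 1) * (2 * (y : ℝ) / n - 1) = (2 * (y : ℝ) / n - 1) ^ 2 :=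
    fun y _ => by ring
  rw [Finset.sum_congr rfl h1, sum_pos_sq hn]
  field_simp

theorem KK_ends {n : ℕ} (hn : 1 ≤ n) {k : List ℕ} (hk : IsNetwork n k) :
    KK n k 0 (n.choose 2) = -(1 / 3) + 4 / (3 * (n : ℝ) ^ 2) := by
  have hn0 : (n : ℝ) ≠ 0 := by
    have : 0 < n := hn
    positivity
  unfold KK pos
  have h1 : ∀ x ∈ Finset.Icc 1 n, (2 * (place (k.take 0) x : ℝ) / n - 1) *
      (2 * (place (k.take (n.choose 2)) x : ℝ) / n - 1) =
      2 / n * (2 / n * (x : ℝ) - 1) - (2 * (x : ℝ) / n - 1) ^ 2 := by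
    intro x hx
    rw [Finset.mem_Icc] at hx
    have h2 : k.take (n.choose 2) = k := List.take_of_length_le hk.1.le
    have h3 : place (k.take 0) x = x := rfl
    rw [h2, h3, hk.2.2 x hx.1 hx.2, Nat.cast_sub (by omega)]
    push_cast
    field_simp
    ring
  rw [Finset.sum_congr rfl h1, Finset.sum_sub_distrib, sum_pos_sq hn, ← Finset.mul_sum, Finset.sum_sub_distrib,
    ← Finset.mul_sum, sum_lin, Finset.sum_const, Nat.card_Icc, nsmul_eq_mul, mul_one]
  have h2 : ((n + 1 - 1 : ℕ) : ℝ) = n := by simp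
  rw [h2]
  field_simp
  ring

theorem EE_eq (n : ℕ) (k : List ℕ) (i j : ℕ) : EE n k i j = KK n k i i + KK n k j j - 2 * KK n k i j := by
  unfold EE KK
  rw [← add_div, mul_div_assoc', ← sub_div, ← Finset.sum_add_distrib, Finset.mul_sum, ← Finset.sum_sub_distrib]
  congr 1
  exact Finset.sum_congr rfl fun x _ => by ring

/-- the place after `j` swaps, from the place after `i` swaps -/
theorem place_take_take {k : List ℕ} {i j : ℕ} (hij : i ≤ j) (x : ℕ) :
    place (k.take j) x = place ((k.drop i).take (j - i)) (place (k.take i) x) := by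
  have h1 : k.take j = k.take i ++ (k.drop i).take (j - i) := by
    have : j = i + (j - i) := by omega
    conv_lhs => rw [this, List.take_add]
  rw [h1, place_append]

theorem EE_le {n : ℕ} (hn : 1 ≤ n) {k : List ℕ} (hk : IsNetwork n k) {i j : ℕ} (hij : i ≤ j) (hj : j ≤ n.choose 2) :
    EE n k i j ≤ 8 * ((j : ℝ) - i) / (n : ℝ) ^ 2 := by
  have _ := hj
  have hn0 : (0 : ℝ) < n := by exact_mod_cast hn
  obtain ⟨l, hl⟩ : ∃ l, l = (k.drop i).take (j - i) := ⟨_, rfl⟩
  have hll : ∀ a ∈ l, 1 ≤ a ∧ a + 1 ≤ n := by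
    intro a ha
    rw [hl] at ha
    exact hk.2.1 a (List.mem_of_mem_drop (List.mem_of_mem_take ha))
  have hlen : (l.length : ℝ) ≤ (j : ℝ) - i := by
    have h1 : l.length ≤ j - i := by
      rw [hl]
      exact List.length_take_le _ _
    have h2 : ((j - i : ℕ) : ℝ) = (j : ℝ) - i := Nat.cast_sub hij
    rw [← h2]
    exact_mod_cast h1
  -- the sum of the displacements
  have h1 : ∑ x ∈ Finset.Icc 1 n, |(place (k.take j) x : ℝ) - place (k.take i) x| ≤ 2 * l.length := by
    refine le_trans (le_of_eq ?_) (displacement l hll)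
    rw [← sum_place (net_take hk i) (fun y => |(place l y : ℝ) - y|)]
    refine Finset.sum_congr rfl fun x _ => ?_
    rw [place_take_take hij x, hl]
  have h2 : ∀ x ∈ Finset.Icc 1 n, (pos n k j x - pos n k i x) ^ 2 ≤
      4 / n * |(place (k.take j) x : ℝ) - place (k.take i) x| := by
    intro x hx
    rw [Finset.mem_Icc] at hx
    have hmem : ∀ m, 1 ≤ place (k.take m) x ∧ place (k.take m) x ≤ n := by
      intro m
      rw [place_eq]
      exact (Supp.P (net_take hk m)).inv.mem hx.1 hx.2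
    obtain ⟨a1, a2⟩ := hmem i
    obtain ⟨b1, b2⟩ := hmem j
    obtain ⟨d, hd⟩ : ∃ d : ℝ, d = (place (k.take j) x : ℝ) - place (k.take i) x := ⟨_, rfl⟩
    have hdn : |d| ≤ n := by
      rw [hd, abs_le]
      have e1 : (1 : ℝ) ≤ place (k.take i) x := by exact_mod_cast a1
      have e2 : (place (k.take i) x : ℝ) ≤ n := by exact_mod_cast a2
      have e3 : (1 : ℝ) ≤ place (k.take j) x := by exact_mod_cast b1
      have e4 : (place (k.take j) x : ℝ) ≤ n := by exact_mod_cast b2
      constructor <;> linarith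
    have h3 : pos n k j x - pos n k i x = 2 / n * d := by
      unfold pos
      rw [hd]
      field_simp
      ring
    rw [h3, ← hd]
    have h4 : (2 / n * d) ^ 2 = 4 / (n : ℝ) ^ 2 * (|d| * |d|) := by
      rw [abs_mul_abs_self]
      field_simp
      ring
    rw [h4]
    have h5 : |d| * |d| ≤ n * |d| := mul_le_mul_of_nonneg_right hdn (abs_nonneg _)
    calc 4 / (n : ℝ) ^ 2 * (|d| * |d|) ≤ 4 / (n : ℝ) ^ 2 * (n * |d|) :=
          mul_le_mul_of_nonneg_left h5 (by positivity)
      _ = 4 / n * |d| := by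
          field_simp
  unfold EE
  rw [div_le_div_iff₀ hn0 (by positivity)]
  have h3 : ∑ x ∈ Finset.Icc 1 n, (pos n k j x - pos n k i x) ^ 2 ≤ 4 / n * (2 * ((j : ℝ) - i)) := by
    refine (Finset.sum_le_sum h2).trans ?_
    rw [← Finset.mul_sum]
    exact mul_le_mul_of_nonneg_left (h1.trans (by linarith)) (by positivity)
  calc (∑ x ∈ Finset.Icc 1 n, (pos n k j x - pos n k i x) ^ 2) * (n : ℝ) ^ 2
      ≤ 4 / n * (2 * ((j : ℝ) - i)) * (n : ℝ) ^ 2 := mul_le_mul_of_nonneg_right h3 (by positivity)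
    _ = 8 * ((j : ℝ) - i) * n := by
        field_simp
        ring

theorem EE_rot {n : ℕ} {k : List ℕ} (hk : IsNetwork n k) {i q : ℕ} (hi : i + q ≤ n.choose 2) :
    EE n (rotN n i k) 0 q = EE n k i (i + q) := by
  unfold EE
  congr 1
  rw [← sum_place (net_take hk i) (fun y => (pos n (rotN n i k) q y - pos n (rotN n i k) 0 y) ^ 2)]
  refine Finset.sum_congr rfl fun x _ => ?_
  have h1 : pos n (rotN n i k) 0 (place (k.take i) x) = pos n k i x := rfl
  have h2 : pos n (rotN n i k) q (place (k.take i) x) = pos n k (i + q) x := by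
    unfold pos
    have e1 : (rotN n i k).take q = (k.drop i).take q := by
      unfold rotN
      rw [List.take_append_of_le_length]
      rw [List.length_drop, hk.1]
      omega
    have e2 : place (k.take (i + q)) x = place ((k.drop i).take q) (place (k.take i) x) := by
      rw [place_take_take (k := k) (by omega : i ≤ i + q) x]
      congr 2
      omega
    rw [e1, e2]
  rw [h1, h2]

theorem integral_eta {n : ℕ} (hn : 1 ≤ n) (k : List ℕ) (t : ℝ) :
    ∫ p, (p.1 - p.2) ^ 2 ∂(eta n k t) = EE n k 0 (sw_ n t) := by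
  have _ := hn
  rw [eta, integral_smul_measure, integral_finsetSum_measure]
  · simp only [integral_dirac, ENNReal.toReal_inv, ENNReal.toReal_natCast, smul_eq_mul]
    unfold EE
    rw [div_eq_inv_mul]
    congr 1
    refine Finset.sum_congr rfl fun x _ => ?_
    rw [glob_eq_pos, glob_eq_pos]
    have h0 : sw_ n 0 = 0 := by
      unfold sw_
      rw [mul_zero, Nat.floor_zero]
    rw [h0]
    ring
  · intro i _
    exact integrable_dirac (by finiteness)

end Pool.Agent.SNL63
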