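import Pool.Agent.SNL63.Adm
import Pool.Agent.SNL63.Rot2

/-!
Definitions for the energy criterion.
-/

namespace Pool.Agent.SNL63

open Pool.Agent.SN8 MeasureTheory Set Filter Topology
open scoped ENNReal Real

/-- the rescaled place of the particle `x` after `i` swaps -/
noncomputable def pos (n : ℕ) (k : List ℕ) (i x : ℕ) : ℝ := 2 * (place (k.take i) x : ℝ) / n - 1

/-- the mean of the products of the rescaled places after `i` and after `j` swaps -/
noncomputable def KK (n : ℕ) (k : List ℕ) (i j : ℕ) : ℝ :=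
  (∑ x ∈ Finset.Icc 1 n, pos n k i x * pos n k j x) / n

/-- the mean square displacement between `i` and `j` swaps -/
noncomputable def EE (n : ℕ) (k : List ℕ) (i j : ℕ) : ℝ :=
  (∑ x ∈ Finset.Icc 1 n, (pos n k j x - pos n k i x) ^ 2) / n

/-- the number of swaps up to time `t` -/
noncomputable def sw_ (n : ℕ) (t : ℝ) : ℕ := ⌊(n.choose 2 : ℝ) * t⌋₊

theorem glob_eq_pos (n : ℕ) (k : List ℕ) (x : ℕ) (t : ℝ) : glob n k x t = pos n k (sw_ n t) x := rfl

/-- the number of particles which are not `ε`-close to their sine curve at time `u` -/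
noncomputable def farCard (n : ℕ) (k : List ℕ) (ε u : ℝ) : ℕ :=
  ({x ∈ Finset.Icc 1 n | ε < |glob n k x u - (Real.cos (π * u) * glob n k x 0 +
    Real.sin (π * u) * glob n k x (1 / 2))|} : Finset ℕ).card

/-- the number of particles which at some time are not `ε`-close to their sine curve -/
noncomputable def supCard (n : ℕ) (k : List ℕ) (ε : ℝ) : ℕ := by
  classical
  exact ({x ∈ Finset.Icc 1 n | ∃ u ∈ Icc (0 : ℝ) 1, ε < |glob n k x u - (Real.cos (π * u) * glob n k x 0 +
    Real.sin (π * u) * glob n k x (1 / 2))|} : Finset ℕ).card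

end Pool.Agent.SNL63
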