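import Pool.Agent.SNL63.DoDefs
import Pool.Agent.SNL63.EnDefs
import Pool.Agent.SNL63.EnAlg

/-!
Most particles move with bounded speed, from the domination of the windows by independent letters.
-/

namespace Pool.Agent.SNL63

open Pool.Agent.SN8 MeasureTheory Set Filter Topology
open scoped ENNReal Real

theorem prob_exists_finset {β : Type*} (n : ℕ) (S : Finset β) (E : β → List ℕ → Prop) :
    prob n (fun k => ∃ b ∈ S, E b k) ≤ ∑ b ∈ S, prob n (E b) := by
  classical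
  induction S using Finset.induction_on with
  | empty =>
    rw [Finset.sum_empty]
    have : prob n (fun k => ∃ b ∈ (∅ : Finset β), E b k) = 0 := by
      simp [prob]
    exact this.le
  | insert b S hb ih =>
    rw [Finset.sum_insert hb]
    refine le_trans (prob_mono (E' := fun k => E b k ∨ ∃ b ∈ S, E b k) ?_)
      ((prob_or_le n (E b) (fun k => ∃ b ∈ S, E b k)).trans (add_le_add_right ih _))
    rintro k _ ⟨c, hc, h⟩
    rcases Finset.mem_insert.1 hc with rfl | hc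
    · exact Or.inl h
    · exact Or.inr ⟨c, hc, h⟩

/-- a window word in a finite set, by the domination -/
theorem prob_window_le {C : ℝ} {n : ℕ}
    (hdom : ∀ (i : ℕ) (w : List ℕ), n ≤ w.length → i + w.length ≤ n.choose 2 →
      prob n (fun k => (k.drop i).take w.length = w) ≤ (C / n) ^ w.length)
    {i m : ℕ} (hnm : n ≤ m) (him : i + m ≤ n.choose 2) {S : Set (List ℕ)} (hS : S.Finite)
    (hlen : ∀ w ∈ S, w.length = m) :
    prob n (fun k => (k.drop i).take m ∈ S) ≤ S.ncard * (C / n) ^ m := by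
  have h1 : prob n (fun k => (k.drop i).take m ∈ S) ≤
      prob n (fun k => ∃ w ∈ hS.toFinset, (k.drop i).take m = w) :=
    prob_mono fun k _ h => ⟨_, hS.mem_toFinset.2 h, rfl⟩
  refine h1.trans ((prob_exists_finset n _ _).trans ?_)
  rw [Set.ncard_eq_toFinset_card S hS, ← nsmul_eq_mul]
  refine Finset.sum_le_card_nsmul _ _ _ fun w hw => ?_
  have hw' := hlen w (hS.mem_toFinset.1 hw)
  have := hdom i w (by omega) (by omega)
  rwa [hw'] at this

/-- the bound for one window -/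
theorem window_fast {C : ℝ} (hC : 1 ≤ C) {n : ℕ} (hn : 2 ≤ n)
    (hdom : ∀ (i : ℕ) (w : List ℕ), n ≤ w.length → i + w.length ≤ n.choose 2 →
      prob n (fun k => (k.drop i).take w.length = w) ≤ (C / n) ^ w.length)
    (hfast : ∀ (s q d : ℕ) (z : ℝ), 1 ≤ z → (FastW n s q d).Finite ∧
      ((FastW n s q d).ncard : ℝ) ≤ 2 ^ n * (n + 2 * (q + 1) * z ^ 2) ^ s / z ^ ((q + 1) * (d + 1)))
    {A K : ℝ} (hA : A = 8 * (1 + Real.log (4 * C))) (hK3 : 3 ≤ K) (hK4 : (4 * A) ^ 2 ≤ K) {f : ℝ}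
    (hf : f = A / (K * Real.log K)) (hnf : 1 ≤ f * n) {i m : ℕ} (hnm : n ≤ m) (him : i + m ≤ n.choose 2) :
    prob n (fun k => (k.drop i).take m ∈ FastW n m ⌊f * n⌋₊ ⌊K * ((m : ℝ) - 1) / n⌋₊) ≤ Real.exp (-m) := by
  have hn0 : (0 : ℝ) < n := by
    have : 0 < n := by omega
    exact_mod_cast this
  have hm2 : (2 : ℝ) ≤ m := by exact_mod_cast (by omega : 2 ≤ m)
  have hK0 : 0 < K := by linarith
  have hL : 1 ≤ Real.log K := by
    rw [Real.le_log_iff_exp_le hK0]
    have := Real.exp_one_lt_d9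
    linarith
  have hlogC : 0 ≤ Real.log (4 * C) := Real.log_nonneg (by linarith)
  have hA0 : 0 < A := by
    rw [hA]
    linarith
  have hf0 : 0 < f := by
    rw [hf]
    exact div_pos hA0 (mul_pos hK0 (by linarith))
  have hsq : 4 * A ≤ √K := Real.le_sqrt_of_sq_le hK4
  have hsK : √K * √K = K := Real.mul_self_sqrt hK0.le
  have hs0 : 0 < √K := Real.sqrt_pos.2 hK0
  have hs1 : 1 ≤ √K := by
    rw [Real.one_le_sqrt]
    linarith
  have hfK : f * K * Real.log K = A := by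
    rw [hf]
    have : K * Real.log K ≠ 0 := (mul_pos hK0 (by linarith)).ne'
    field_simp
  -- 4 f √K ≤ 1
  have h4f : 4 * f * √K ≤ 1 := by
    have h1 : 4 * (f * K * Real.log K) ≤ √K := by
      rw [hfK]
      exact hsq
    have h2 : 4 * f * K * 1 ≤ 4 * f * K * Real.log K := mul_le_mul_of_nonneg_left hL (by positivity)
    have h3 : 4 * f * √K * √K ≤ 1 * √K := by
      rw [mul_assoc, hsK]
      linarith
    exact le_of_mul_le_mul_right h3 hs0
  obtain ⟨y, hy⟩ : ∃ y : ℝ, y = 1 / (4 * f) := ⟨_, rfl⟩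
  have hyK : √K ≤ y := by
    rw [hy, le_div_iff₀ (by positivity)]
    linarith
  have hy1 : 1 ≤ y := hs1.trans hyK
  obtain ⟨z, hz⟩ : ∃ z : ℝ, z = √y := ⟨_, rfl⟩
  have hz1 : 1 ≤ z := by
    rw [hz, Real.one_le_sqrt]
    exact hy1
  have hz2 : z ^ 2 = y := by
    rw [hz]
    exact Real.sq_sqrt (by linarith)
  have hz0 : 0 < z := by linarith
  have hlogz : Real.log K / 4 ≤ Real.log z := by
    have h1 : Real.log (√K) ≤ Real.log y := Real.log_le_log hs0 hyK
    rw [Real.log_sqrt hK0.le] at h1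
    rw [hz, Real.log_sqrt (by linarith)]
    linarith
  obtain ⟨q, hq⟩ : ∃ q : ℕ, q = ⌊f * n⌋₊ := ⟨_, rfl⟩
  obtain ⟨d, hd⟩ : ∃ d : ℕ, d = ⌊K * ((m : ℝ) - 1) / n⌋₊ := ⟨_, rfl⟩
  rw [← hq, ← hd]
  have q1 : (q : ℝ) ≤ f * n := hq ▸ Nat.floor_le (by positivity)
  have q2 : f * n < q + 1 := hq ▸ Nat.lt_floor_add_one _
  have d2 : K * ((m : ℝ) - 1) / n < d + 1 := hd ▸ Nat.lt_floor_add_one _
  -- the exponent
  have hexp : A * m / 8 ≤ ((q + 1) * (d + 1) : ℕ) * Real.log z := by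
    have h1 : f * n * (K * ((m : ℝ) - 1) / n) ≤ (q + 1) * (d + 1) :=
      mul_le_mul q2.le d2.le (by
        have : (0 : ℝ) ≤ (m : ℝ) - 1 := by linarith
        positivity) (by positivity)
    have h2 : f * n * (K * ((m : ℝ) - 1) / n) = f * K * ((m : ℝ) - 1) := by
      field_simp
    rw [h2] at h1
    have h3 : f * K * (m / 2) ≤ f * K * ((m : ℝ) - 1) :=
      mul_le_mul_of_nonneg_left (by linarith) (by positivity)
    have h4 : f * K * (m / 2) * (Real.log K / 4) ≤ ((q : ℝ) + 1) * (d + 1) * Real.log z :=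
      mul_le_mul (h3.trans h1) hlogz (by linarith) (by positivity)
    have h5 : f * K * (m / 2) * (Real.log K / 4) = A * m / 8 := by
      rw [← hfK]
      ring
    rw [h5] at h4
    push_cast
    exact h4
  have hzpow : z ^ ((q + 1) * (d + 1)) = Real.exp (((q + 1) * (d + 1) : ℕ) * Real.log z) := by
    rw [Real.exp_nat_mul, Real.exp_log hz0]
  obtain ⟨hfin, hcard⟩ := hfast m q d z hz1
  have hP := prob_window_le hdom hnm him hfin (fun w hw => hw.1)
  refine hP.trans ?_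
  have hbase : (n : ℝ) + 2 * (q + 1) * z ^ 2 ≤ 2 * n := by
    rw [hz2]
    have h1 : ((q : ℝ) + 1) ≤ 2 * f * n := by linarith
    have h2 : 2 * ((q : ℝ) + 1) * y ≤ 2 * (2 * f * n) * y :=
      mul_le_mul_of_nonneg_right (by linarith) (by linarith)
    have h3 : 2 * (2 * f * n) * y = n := by
      rw [hy]
      field_simp
      ring
    linarith
  have hCn : 0 ≤ C / n := div_nonneg (by linarith) hn0.le
  calc ((FastW n m q d).ncard : ℝ) * (C / n) ^ m
      ≤ (2 ^ n * (n + 2 * (q + 1) * z ^ 2) ^ m / z ^ ((q + 1) * (d + 1))) * (C / n) ^ m :=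
        mul_le_mul_of_nonneg_right hcard (by positivity)
    _ ≤ (2 ^ m * (2 * n) ^ m / Real.exp (A * m / 8)) * (C / n) ^ m := by
        refine mul_le_mul_of_nonneg_right ?_ (by positivity)
        rw [hzpow]
        refine div_le_div₀ (by positivity) ?_ (Real.exp_pos _) (Real.exp_le_exp.2 hexp)
        refine mul_le_mul (pow_le_pow_right₀ (by norm_num) hnm) (pow_le_pow_left₀ (by positivity) hbase m)
          (by positivity) (by positivity)
    _ = Real.exp (-m) := by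
        have h1 : Real.exp (A * m / 8) = (Real.exp 1 * (4 * C)) ^ m := by
          have h2 : A * m / 8 = m * (1 + Real.log (4 * C)) := by
            rw [hA]
            ring
          rw [h2, Real.exp_nat_mul, Real.exp_add, Real.exp_log (by linarith)]
        have h3 : Real.exp (-(m : ℝ)) = (Real.exp 1)⁻¹ ^ m := by
          rw [← Real.exp_neg, ← Real.exp_nat_mul]
          congr 1
          ring
        rw [h1, h3, div_mul_eq_mul_div, ← mul_pow, ← mul_pow, ← div_pow]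
        congr 1
        have hC0 : C ≠ 0 := by linarith
        have he : Real.exp 1 ≠ 0 := (Real.exp_pos 1).ne'
        field_simp
        ring

theorem eta2_apply (n : ℕ) (k : List ℕ) (s u : ℝ) {S : Set (ℝ × ℝ)} (hS : MeasurableSet S)
    [DecidablePred fun i : ℕ => (glob n k i s, glob n k i u) ∈ S] :
    eta2 n k s u S =
      (n : ℝ≥0∞)⁻¹ * (((Finset.Icc 1 n).filter fun i => (glob n k i s, glob n k i u) ∈ S).card : ℝ≥0∞) := by
  rw [eta2, Measure.smul_apply, smul_eq_mul, Measure.finsetSum_apply, Finset.card_filter, Nat.cast_sum]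
  congr 1
  refine Finset.sum_congr rfl fun i _ => ?_
  rw [Measure.dirac_apply' _ hS, indicator_apply]
  split_ifs <;> simp

/-- fast particles give a window word with fast particles -/
theorem window_of_fast {n : ℕ} (hn : 2 ≤ n) {k : List ℕ} (hk : IsNetwork n k) {K f s u : ℝ} (hK : 0 < K)
    (hf : 0 ≤ f) (h0 : 0 ≤ s) (hsu : s ≤ u) (hu : u ≤ 1) {m : ℕ} (hm : sw_ n s + m = sw_ n u) (hm1 : 1 ≤ m)
    (h : ENNReal.ofReal f < eta2 n k s u {p | K * (u - s) < |p.1 - p.2|}) :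
    (k.drop (sw_ n s)).take m ∈ FastW n m ⌊f * n⌋₊ ⌊K * ((m : ℝ) - 1) / n⌋₊ := by
  classical
  have hn0 : (0 : ℝ) < n := by
    have : 0 < n := by omega
    exact_mod_cast this
  have hN : sw_ n u ≤ n.choose 2 := by
    apply Nat.floor_le_of_le
    have : (0 : ℝ) ≤ n.choose 2 := Nat.cast_nonneg _
    nlinarith
  rw [eta2_apply n k s u (measurableSet_lt measurable_const (by fun_prop))] at h
  have h1 : f * n < (((Finset.Icc 1 n).filter fun i => (glob n k i s, glob n k i u) ∈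
      {p : ℝ × ℝ | K * (u - s) < |p.1 - p.2|}).card : ℝ) := by
    by_contra hc
    push Not at hc
    refine absurd h (not_lt.2 ?_)
    rw [← ENNReal.div_eq_inv_mul, ← ENNReal.ofReal_natCast, ← ENNReal.ofReal_natCast,
      ← ENNReal.ofReal_div_of_pos hn0]
    apply ENNReal.ofReal_le_ofReal
    rw [div_le_iff₀ hn0]
    exact hc
  refine ⟨?_, ?_, ?_⟩
  · rw [List.length_take, List.length_drop, hk.1]
    omega
  · intro j hj
    exact hk.2.1 j (List.mem_of_mem_drop (List.mem_of_mem_take hj))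
  · refine lt_of_lt_of_le ((Nat.floor_lt (by positivity)).2 h1) ?_
    refine Finset.card_le_card_of_injOn (fun x => place (k.take (sw_ n s)) x) ?_ ?_
    · intro x hx
      rw [Finset.mem_coe, Finset.mem_filter, Finset.mem_Icc] at hx
      obtain ⟨hx1, hx2⟩ := hx
      have hx2' : K * (u - s) < |glob n k x s - glob n k x u| := hx2
      rw [Finset.mem_coe, Finset.mem_filter, Finset.mem_Icc]
      refine ⟨glob_place_mem hk _ hx1.1 hx1.2, ?_⟩
      have e1 : place ((k.drop (sw_ n s)).take m) (place (k.take (sw_ n s)) x) = place (k.take (sw_ n u)) x := by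
        rw [place_take_take (k := k) (by omega : sw_ n s ≤ sw_ n u) x]
        congr 2
        omega
      show ((⌊K * ((m : ℝ) - 1) / n⌋₊ : ℕ) : ℤ) <
        |(place ((k.drop (sw_ n s)).take m) (place (k.take (sw_ n s)) x) : ℤ) - (place (k.take (sw_ n s)) x : ℕ)|
      rw [e1]
      have e2 : glob n k x s - glob n k x u = -(2 / n) *
          (((place (k.take (sw_ n u)) x : ℤ) - (place (k.take (sw_ n s)) x : ℤ) : ℤ) : ℝ) := by
        rw [glob_eq_pos, glob_eq_pos, pos, pos]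
        push_cast
        field_simp
        ring
      rw [e2, abs_mul, abs_neg, abs_of_pos (by positivity : (0 : ℝ) < 2 / n), ← Int.cast_abs] at hx2'
      have hm1' : (1 : ℝ) ≤ m := by exact_mod_cast hm1
      have e3 : (n.choose 2 : ℝ) = n * (n - 1) / 2 := Nat.cast_choose_two ℝ n
      have e4 : ((m : ℝ) - 1) ≤ (n.choose 2 : ℝ) * (u - s) := by
        have a1 : (sw_ n u : ℝ) ≤ (n.choose 2 : ℝ) * u :=
          Nat.floor_le (mul_nonneg (Nat.cast_nonneg _) (h0.trans hsu))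
        have a2 : (n.choose 2 : ℝ) * s < (sw_ n s : ℝ) + 1 := Nat.lt_floor_add_one _
        have a3 : (sw_ n s : ℝ) + m = sw_ n u := by exact_mod_cast hm
        linarith
      have e5 : K * ((m : ℝ) - 1) / n ≤ K * (n / 2 * (u - s)) := by
        rw [div_le_iff₀ hn0, mul_assoc]
        refine mul_le_mul_of_nonneg_left ?_ hK.le
        have a4 : 0 ≤ u - s := by linarith
        rw [e3] at e4
        nlinarith
      have e6 : K * (n / 2 * (u - s)) < ((|(place (k.take (sw_ n u)) x : ℤ) -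
          (place (k.take (sw_ n s)) x : ℤ)| : ℤ) : ℝ) := by
        have a5 := mul_lt_mul_of_pos_right hx2' (by positivity : (0 : ℝ) < n / 2)
        have a6 : 2 / (n : ℝ) * ((|(place (k.take (sw_ n u)) x : ℤ) -
          (place (k.take (sw_ n s)) x : ℤ)| : ℤ) : ℝ) * (n / 2) = ((|(place (k.take (sw_ n u)) x : ℤ) -
          (place (k.take (sw_ n s)) x : ℤ)| : ℤ) : ℝ) := by
          field_simp
        rw [a6] at a5
        linarith
      have e7 : ((⌊K * ((m : ℝ) - 1) / n⌋₊ : ℕ) : ℝ) ≤ K * ((m : ℝ) - 1) / n :=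
        Nat.floor_le (div_nonneg (mul_nonneg hK.le (by linarith)) hn0.le)
      have e8 : (((⌊K * ((m : ℝ) - 1) / n⌋₊ : ℕ) : ℤ) : ℝ) < ((|(place (k.take (sw_ n u)) x : ℤ) -
          (place (k.take (sw_ n s)) x : ℤ)| : ℤ) : ℝ) := by
        push_cast at e7 e6 e5 ⊢
        linarith
      exact_mod_cast e8
    · intro x _ y _ hxy
      simp only [place_eq] at hxy
      exact (P (k.take (sw_ n s)))⁻¹.injective hxy

/-- `n ^ 4 e ^ (-κ n² / 4)` is small -/
theorem poly_exp {κ : ℝ} (hκ : 0 < κ) (n : ℕ) :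
    (n : ℝ) ^ 4 * Real.exp (1 - κ * (n : ℝ) ^ 2 / 4) ≤
      (128 / κ ^ 2 * Real.exp 1) * Real.exp (-(κ / 8) * (n : ℝ) ^ 2) := by
  have hx : 0 ≤ κ * (n : ℝ) ^ 2 / 8 := by positivity
  have h1 := Real.quadratic_le_exp_of_nonneg hx
  have h2 : (n : ℝ) ^ 4 ≤ 128 / κ ^ 2 * Real.exp (κ * (n : ℝ) ^ 2 / 8) := by
    have h3 : (κ * (n : ℝ) ^ 2 / 8) ^ 2 / 2 ≤ Real.exp (κ * (n : ℝ) ^ 2 / 8) := by linarith
    have h4 : (n : ℝ) ^ 4 = 128 / κ ^ 2 * ((κ * (n : ℝ) ^ 2 / 8) ^ 2 / 2) := by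
      field_simp
      ring
    rw [h4]
    exact mul_le_mul_of_nonneg_left h3 (by positivity)
  have h5 : Real.exp (1 - κ * (n : ℝ) ^ 2 / 4) =
      Real.exp 1 * (Real.exp (-(κ * (n : ℝ) ^ 2 / 8)) * Real.exp (-(κ / 8) * (n : ℝ) ^ 2)) := by
    rw [← Real.exp_add, ← Real.exp_add]
    congr 1
    ring
  have h6 : Real.exp (κ * (n : ℝ) ^ 2 / 8) * Real.exp (-(κ * (n : ℝ) ^ 2 / 8)) = 1 := by
    rw [← Real.exp_add, add_neg_cancel, Real.exp_zero]
  rw [h5]
  calc (n : ℝ) ^ 4 * (Real.exp 1 * (Real.exp (-(κ * (n : ℝ) ^ 2 / 8)) * Real.exp (-(κ / 8) * (n : ℝ) ^ 2)))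
      ≤ (128 / κ ^ 2 * Real.exp (κ * (n : ℝ) ^ 2 / 8)) *
        (Real.exp 1 * (Real.exp (-(κ * (n : ℝ) ^ 2 / 8)) * Real.exp (-(κ / 8) * (n : ℝ) ^ 2))) :=
        mul_le_mul_of_nonneg_right h2 (by positivity)
    _ = (128 / κ ^ 2 * Real.exp 1) * Real.exp (-(κ / 8) * (n : ℝ) ^ 2) *
        (Real.exp (κ * (n : ℝ) ^ 2 / 8) * Real.exp (-(κ * (n : ℝ) ^ 2 / 8))) := by ring
    _ = _ := by rw [h6, mul_one]

/-- **most particles move with bounded speed**, from the domination and the number of fast words -/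
theorem lipschitz_of
    (hdom : ∃ C > (0 : ℝ), ∀ n : ℕ, 2 ≤ n → ∀ (i : ℕ) (w : List ℕ), n ≤ w.length →
      i + w.length ≤ n.choose 2 →
      prob n (fun k => (k.drop i).take w.length = w) ≤ (C / n) ^ w.length)
    (hfast : ∀ n : ℕ, 2 ≤ n → ∀ (s q d : ℕ) (z : ℝ), 1 ≤ z → (FastW n s q d).Finite ∧
      ((FastW n s q d).ncard : ℝ) ≤ 2 ^ n * (n + 2 * (q + 1) * z ^ 2) ^ s / z ^ ((q + 1) * (d + 1))) :
    ∃ A > (0 : ℝ), ∃ K₀ > (1 : ℝ), ∀ K ≥ K₀, ∀ κ > (0 : ℝ), ∃ c₁ > (0 : ℝ), ∃ c₂ > (0 : ℝ),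
    ∀ n : ℕ, 2 ≤ n →
      prob n (fun k => ∃ s u : ℝ, 0 ≤ s ∧ s + κ ≤ u ∧ u ≤ 1 ∧
        ENNReal.ofReal (A / (K * Real.log K)) < eta2 n k s u {p | K * (u - s) < |p.1 - p.2|}) ≤
      c₁ * Real.exp (-c₂ * (n : ℝ) ^ 2) := by
  obtain ⟨C', hC', hdom⟩ := hdom
  obtain ⟨C, hC⟩ : ∃ C : ℝ, C = max C' 1 := ⟨_, rfl⟩
  have hC1 : 1 ≤ C := hC ▸ le_max_right _ _
  have hCC : C' ≤ C := hC ▸ le_max_left _ _
  obtain ⟨A, hA⟩ : ∃ A : ℝ, A = 8 * (1 + Real.log (4 * C)) := ⟨_, rfl⟩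
  have hlogC : 0 ≤ Real.log (4 * C) := Real.log_nonneg (by linarith)
  have hA0 : 0 < A := by
    rw [hA]
    linarith
  refine ⟨A, hA0, max 3 ((4 * A) ^ 2), lt_of_lt_of_le (by norm_num) (le_max_left _ _), ?_⟩
  intro K hK κ hκ
  have hK3 : 3 ≤ K := (le_max_left _ _).trans hK
  have hK4 : (4 * A) ^ 2 ≤ K := (le_max_right _ _).trans hK
  have hK0 : 0 < K := by linarith
  have hL : 1 ≤ Real.log K := by
    rw [Real.le_log_iff_exp_le hK0]
    have := Real.exp_one_lt_d9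
    linarith
  obtain ⟨f, hf⟩ : ∃ f : ℝ, f = A / (K * Real.log K) := ⟨_, rfl⟩
  have hf0 : 0 < f := by
    rw [hf]
    exact div_pos hA0 (mul_pos hK0 (by linarith))
  obtain ⟨n₁, hn₁⟩ : ∃ n₁ : ℕ, max (1 / f) (8 / κ) < n₁ := exists_nat_gt _
  rw [← hf]
  refine ⟨128 / κ ^ 2 * Real.exp 1 + Real.exp (κ / 8 * (n₁ : ℝ) ^ 2), by positivity, κ / 8, by positivity, ?_⟩
  intro n hn
  rcases lt_or_ge n n₁ with hlt | hge
  · refine (prob_le_one n _).trans ?_
    have h2 : 1 ≤ Real.exp (κ / 8 * (n₁ : ℝ) ^ 2) * Real.exp (-(κ / 8) * (n : ℝ) ^ 2) := by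
      rw [← Real.exp_add]
      apply Real.one_le_exp
      have h3 : (n : ℝ) ≤ n₁ := by exact_mod_cast hlt.le
      have h4 : (n : ℝ) ^ 2 ≤ (n₁ : ℝ) ^ 2 := by gcongr
      nlinarith
    have h3 : 0 ≤ 128 / κ ^ 2 * Real.exp 1 * Real.exp (-(κ / 8) * (n : ℝ) ^ 2) := by positivity
    rw [add_mul]
    linarith
  · have hn0 : (0 : ℝ) < n := by
      have : 0 < n := by omega
      exact_mod_cast this
    have hn2 : (2 : ℝ) ≤ n := by exact_mod_cast hn
    have hn₁n : (n₁ : ℝ) ≤ n := by exact_mod_cast hge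
    have hnf : 1 ≤ f * n := by
      have h1 : 1 / f < n := lt_of_le_of_lt (le_max_left _ _) (hn₁.trans_le hn₁n)
      rw [div_lt_iff₀ hf0] at h1
      linarith
    have hnκ : 8 ≤ κ * n := by
      have h1 : 8 / κ < n := lt_of_le_of_lt (le_max_right _ _) (hn₁.trans_le hn₁n)
      rw [div_lt_iff₀ hκ] at h1
      linarith
    have hN : (n.choose 2 : ℝ) = n * (n - 1) / 2 := Nat.cast_choose_two ℝ n
    have hNκ : κ * (n : ℝ) ^ 2 / 4 ≤ (n.choose 2 : ℝ) * κ := by
      rw [hN]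
      have : (n : ℝ) * n ≤ 2 * (n * (n - 1)) := by nlinarith
      nlinarith
    have hdom' : ∀ (i : ℕ) (w : List ℕ), n ≤ w.length → i + w.length ≤ n.choose 2 →
        prob n (fun k => (k.drop i).take w.length = w) ≤ (C / n) ^ w.length := fun i w h1 h2 =>
      (hdom n hn i w h1 h2).trans (pow_le_pow_left₀ (div_nonneg hC'.le hn0.le)
        (div_le_div_of_nonneg_right hCC hn0.le) _)
    classical
    -- the windows
    obtain ⟨S, hS⟩ : ∃ S : Finset (ℕ × ℕ), S = ((Finset.range (n.choose 2 + 1)) ×ˢ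
        (Finset.range (n.choose 2 + 1))).filter (fun p => p.1 + p.2 ≤ n.choose 2 ∧
          (n.choose 2 : ℝ) * κ - 1 ≤ p.2) := ⟨_, rfl⟩
    have h1 : prob n (fun k => ∃ s u : ℝ, 0 ≤ s ∧ s + κ ≤ u ∧ u ≤ 1 ∧
        ENNReal.ofReal f < eta2 n k s u {p | K * (u - s) < |p.1 - p.2|}) ≤
        prob n (fun k => ∃ p ∈ S, (k.drop p.1).take p.2 ∈
          FastW n p.2 ⌊f * n⌋₊ ⌊K * ((p.2 : ℝ) - 1) / n⌋₊) := by
      refine prob_mono ?_
      rintro k hk ⟨s, u, hs0, hsu, hu1, h⟩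
      have hN0 : (0 : ℝ) ≤ n.choose 2 := Nat.cast_nonneg _
      have hsu' : s ≤ u := by linarith
      have hle : sw_ n s ≤ sw_ n u := Nat.floor_le_floor (mul_le_mul_of_nonneg_left hsu' hN0)
      obtain ⟨m, hm⟩ := Nat.exists_eq_add_of_le hle
      have hNu : sw_ n u ≤ n.choose 2 := by
        apply Nat.floor_le_of_le
        nlinarith
      have a1 : (sw_ n s : ℝ) ≤ (n.choose 2 : ℝ) * s := Nat.floor_le (mul_nonneg hN0 hs0)
      have a2 : (n.choose 2 : ℝ) * u < (sw_ n u : ℝ) + 1 := Nat.lt_floor_add_one _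
      have a3 : (sw_ n u : ℝ) = sw_ n s + m := by exact_mod_cast hm
      have a4 : (n.choose 2 : ℝ) * κ ≤ (n.choose 2 : ℝ) * (u - s) :=
        mul_le_mul_of_nonneg_left (by linarith) hN0
      have a5 : (n.choose 2 : ℝ) * κ - 1 ≤ m := by
        rw [mul_sub] at a4
        linarith
      have a6 : (1 : ℝ) ≤ m := by
        have : 2 * (n : ℝ) ≤ κ * (n : ℝ) ^ 2 / 4 := by nlinarith
        linarith
      have a7 : 1 ≤ m := by exact_mod_cast a6
      refine ⟨(sw_ n s, m), ?_, window_of_fast hn hk hK0 hf0.le hs0 hsu' hu1 hm.symm a7 h⟩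
      rw [hS, Finset.mem_filter, Finset.mem_product, Finset.mem_range, Finset.mem_range]
      exact ⟨⟨by omega, by simp only; omega⟩, by simp only; omega, a5⟩
    refine (h1.trans (prob_exists_finset n S _)).trans ?_
    have h2 : ∀ p ∈ S, prob n (fun k => (k.drop p.1).take p.2 ∈
        FastW n p.2 ⌊f * n⌋₊ ⌊K * ((p.2 : ℝ) - 1) / n⌋₊) ≤ Real.exp (1 - κ * (n : ℝ) ^ 2 / 4) := by
      intro p hp
      rw [hS, Finset.mem_filter] at hp
      obtain ⟨_, hp1, hp2⟩ := hp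
      have a6 : (n : ℝ) ≤ p.2 := by
        have : 2 * (n : ℝ) ≤ κ * (n : ℝ) ^ 2 / 4 := by nlinarith
        linarith
      have a7 : n ≤ p.2 := by exact_mod_cast a6
      refine (window_fast hC1 hn hdom' (hfast n hn) hA hK3 hK4 hf hnf a7 hp1).trans ?_
      apply Real.exp_le_exp.2
      linarith
    refine (Finset.sum_le_card_nsmul _ _ _ h2).trans ?_
    rw [nsmul_eq_mul]
    have h3 : (S.card : ℝ) ≤ (n : ℝ) ^ 4 := by
      have b1 : S.card ≤ (n.choose 2 + 1) * (n.choose 2 + 1) := by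
        rw [hS]
        refine (Finset.card_filter_le _ _).trans ?_
        rw [Finset.card_product, Finset.card_range]
      have b2 : (n.choose 2 : ℝ) + 1 ≤ (n : ℝ) ^ 2 := by
        rw [hN]
        nlinarith
      have b3 : (S.card : ℝ) ≤ ((n.choose 2 : ℝ) + 1) * ((n.choose 2 : ℝ) + 1) := by exact_mod_cast b1
      refine b3.trans ?_
      have b4 : (n : ℝ) ^ 4 = (n : ℝ) ^ 2 * (n : ℝ) ^ 2 := by ring
      rw [b4]
      exact mul_le_mul b2 b2 (by positivity) (by positivity)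
    refine (mul_le_mul_of_nonneg_right h3 (Real.exp_pos _).le).trans ?_
    refine (poly_exp hκ n).trans ?_
    refine mul_le_mul_of_nonneg_right ?_ (Real.exp_pos _).le
    have : 0 ≤ Real.exp (κ / 8 * (n₁ : ℝ) ^ 2) := (Real.exp_pos _).le
    linarith

end Pool.Agent.SNL63
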