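import Pool.Agent.SNL63.DoDefs
import Pool.Agent.SNL63.Cpt
import Pool.Agent.SNL63.Disp

/-!
# Most particles move with bounded speed, from the domination of the windows
-/

namespace Pool.Agent.SNL63

open Pool.Agent.SN8 MeasureTheory Set Filter Topology
open scoped ENNReal Real

namespace Lip

/-- The numbers. -/
theorem num {C K : ℝ} (hC : 1 ≤ C) {A : ℝ} (hA : A = 8 * Real.log (4 * Real.exp 1 * C))
    (hK : 16 * A ^ 2 + 3 ≤ K) {f : ℝ} (hf : f = A / (K * Real.log K)) :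
    0 < A ∧ 0 < f ∧ 4 * f ≤ 1 ∧ A ≤ 2 * (f * K * (-Real.log (4 * f))) := by
  have he : (2 : ℝ) < Real.exp 1 := by
    have := Real.exp_one_gt_d9
    linarith
  have he3 : Real.exp 1 < 3 := by
    have := Real.exp_one_lt_d9
    linarith
  have hA0 : 0 < A := by
    rw [hA]
    have : 0 < Real.log (4 * Real.exp 1 * C) := Real.log_pos (by nlinarith)
    linarith
  have hK3 : 3 ≤ K := by nlinarith
  have hK0 : 0 < K := by linarith
  have hlog : 1 ≤ Real.log K := by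
    rw [Real.le_log_iff_exp_le hK0]
    linarith
  have hlog0 : 0 < Real.log K := by linarith
  have hf0 : 0 < f := by
    rw [hf]
    positivity
  have h4A : 4 * A ≤ K := by nlinarith [sq_nonneg (4 * A - 1)]
  have hKK : K ≤ K * Real.log K := by nlinarith
  have h4f : 4 * f ≤ 1 := by
    rw [hf, mul_div_assoc', div_le_one (by positivity)]
    linarith
  refine ⟨hA0, hf0, h4f, ?_⟩
  -- `log K ≤ 2 L`
  have hfK : f * K = A / Real.log K := by
    rw [hf]
    field_simp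
  have hL : Real.log K ≤ 2 * (-Real.log (4 * f)) := by
    have h1 : -Real.log (4 * f) = Real.log (K * Real.log K / (4 * A)) := by
      rw [← Real.log_inv, hf]
      congr 1
      field_simp
    have h2 : 2 * Real.log (K * Real.log K / (4 * A)) =
        Real.log ((K * Real.log K / (4 * A)) ^ 2) := by
      rw [Real.log_pow]
      norm_num
    rw [h1, h2]
    apply Real.log_le_log hK0
    rw [div_pow, le_div_iff₀ (by positivity)]
    have h3 : (4 * A) ^ 2 ≤ K := by nlinarith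
    calc K * (4 * A) ^ 2 ≤ K * K := mul_le_mul_of_nonneg_left h3 hK0.le
      _ ≤ (K * Real.log K) * (K * Real.log K) := mul_le_mul hKK hKK hK0.le (by positivity)
      _ = _ := by ring
  rw [hfK]
  have h5 : A / Real.log K * Real.log K = A := by field_simp
  have h6 : 0 ≤ A / Real.log K := by positivity
  nlinarith [mul_le_mul_of_nonneg_left hL h6]

/-- The bound for one window. -/
theorem window {C K : ℝ} (hC : 1 ≤ C) {A : ℝ} (hA : A = 8 * Real.log (4 * Real.exp 1 * C))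
    (hK : 16 * A ^ 2 + 3 ≤ K) {f : ℝ} (hf : f = A / (K * Real.log K)) {n m : ℕ} (hn : 2 ≤ n)
    (hfn : 1 ≤ f * n) (hm : n ≤ m) {z : ℝ} (hz : z = Real.exp (-Real.log (4 * f) / 2)) :
    1 ≤ z ∧ (2 : ℝ) ^ n * (n + 2 * ((⌊f * n⌋₊ : ℕ) + 1) * z ^ 2) ^ m /
      z ^ ((⌊f * n⌋₊ + 1) * (⌊K * ((m : ℝ) - 1) / n⌋₊ + 1)) * (C / n) ^ m ≤ Real.exp (-(m : ℝ)) := by
  obtain ⟨hA0, hf0, h4f, hAL⟩ := num hC hA hK hf
  have hK0 : 0 < K := by nlinarith
  have hn0 : (0 : ℝ) < n := by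
    have : (0 : ℕ) < n := by omega
    exact_mod_cast this
  have hn2 : (2 : ℝ) ≤ n := by exact_mod_cast hn
  have hm2 : (2 : ℝ) ≤ m := by
    have : 2 ≤ m := by omega
    exact_mod_cast this
  obtain ⟨L, hL⟩ : ∃ L, L = -Real.log (4 * f) := ⟨_, rfl⟩
  rw [← hL] at hAL hz
  have hL0 : 0 ≤ L := by
    rw [hL]
    have := Real.log_nonpos (by positivity) h4f
    linarith
  have hz1 : 1 ≤ z := by
    rw [hz]
    exact Real.one_le_exp (by positivity)
  refine ⟨hz1, ?_⟩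
  have hz2 : z ^ 2 = 1 / (4 * f) := by
    rw [hz, ← Real.exp_nat_mul]
    have : ((2 : ℕ) : ℝ) * (L / 2) = -Real.log (4 * f) := by
      rw [hL]
      push_cast
      ring
    rw [this, Real.exp_neg, Real.exp_log (by positivity), one_div]
  obtain ⟨q, hq⟩ : ∃ q, q = ⌊f * n⌋₊ := ⟨_, rfl⟩
  obtain ⟨d, hd⟩ : ∃ d, d = ⌊K * ((m : ℝ) - 1) / n⌋₊ := ⟨_, rfl⟩
  rw [← hq, ← hd]
  have hq1 : f * n < q + 1 := by
    rw [hq]
    exact Nat.lt_floor_add_one _
  have hq2 : (q : ℝ) ≤ f * n := by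
    rw [hq]
    exact Nat.floor_le (by positivity)
  have hd1 : K * ((m : ℝ) - 1) / n < d + 1 := by
    rw [hd]
    exact Nat.lt_floor_add_one _
  -- the exponent
  have hE : f * K * m / 2 ≤ (((q + 1) * (d + 1) : ℕ) : ℝ) := by
    push_cast
    have h1 : f * n * (K * ((m : ℝ) - 1) / n) ≤ ((q : ℝ) + 1) * (d + 1) := by
      apply mul_le_mul hq1.le hd1.le _ (by positivity)
      have : 0 ≤ (m : ℝ) - 1 := by linarith
      positivity
    have h2 : f * n * (K * ((m : ℝ) - 1) / n) = f * K * ((m : ℝ) - 1) := by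
      field_simp
    rw [h2] at h1
    refine le_trans ?_ h1
    have h3 : 0 < f * K := by positivity
    nlinarith
  have hzE : Real.exp (A * m / 8) ≤ z ^ ((q + 1) * (d + 1)) := by
    rw [hz, ← Real.exp_nat_mul]
    apply Real.exp_le_exp.mpr
    have h1 : f * K * m / 2 * (L / 2) ≤ (((q + 1) * (d + 1) : ℕ) : ℝ) * (L / 2) :=
      mul_le_mul_of_nonneg_right hE (by positivity)
    refine le_trans ?_ h1
    have h2 : A * m / 8 ≤ (2 * (f * K * L)) * m / 8 := by
      have : A * m ≤ (2 * (f * K * L)) * m := mul_le_mul_of_nonneg_right hAL (by positivity)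
      linarith
    refine h2.trans (le_of_eq ?_)
    ring
  have hbase : (n : ℝ) + 2 * (q + 1) * z ^ 2 ≤ 2 * n := by
    rw [hz2]
    have h1 : 2 * ((q : ℝ) + 1) * (1 / (4 * f)) ≤ 2 * (2 * (f * n)) * (1 / (4 * f)) := by
      apply mul_le_mul_of_nonneg_right _ (by positivity)
      linarith
    have h2 : 2 * (2 * (f * n)) * (1 / (4 * f)) = n := by
      field_simp
      ring
    linarith
  have hbase0 : (0 : ℝ) ≤ (n : ℝ) + 2 * (q + 1) * z ^ 2 := by positivity
  have hexp : Real.exp (A * m / 8) = (4 * Real.exp 1 * C) ^ m := by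
    have h1 : A * m / 8 = m * Real.log (4 * Real.exp 1 * C) := by
      rw [hA]
      ring
    have hpos : (0 : ℝ) < 4 * Real.exp 1 * C := by positivity
    rw [h1, Real.exp_nat_mul, Real.exp_log hpos]
  calc (2 : ℝ) ^ n * (n + 2 * ((q : ℝ) + 1) * z ^ 2) ^ m / z ^ ((q + 1) * (d + 1)) * (C / n) ^ m
      ≤ (2 : ℝ) ^ m * (2 * n) ^ m / (4 * Real.exp 1 * C) ^ m * (C / n) ^ m := by
        apply mul_le_mul_of_nonneg_right _ (by positivity)
        apply div_le_div₀ (by positivity) _ (by positivity) (by rw [← hexp]; exact hzE)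
        apply mul_le_mul _ (pow_le_pow_left₀ hbase0 hbase m) (by positivity) (by positivity)
        exact pow_le_pow_right₀ (by norm_num) hm
    _ = (2 * (2 * n) / (4 * Real.exp 1 * C) * (C / n)) ^ m := by
        rw [← mul_pow, ← div_pow, ← mul_pow]
    _ = (Real.exp (-1)) ^ m := by
        congr 1
        rw [Real.exp_neg]
        field_simp
        ring
    _ = Real.exp (-(m : ℝ)) := by
        rw [← Real.exp_nat_mul]
        congr 1
        ring

/-! ### The event -/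

theorem eta2_apply (n : ℕ) (k : List ℕ) (s t : ℝ) {S : Set (ℝ × ℝ)} (hS : MeasurableSet S)
    [DecidablePred fun i : ℕ => (glob n k i s, glob n k i t) ∈ S] :
    eta2 n k s t S =
      (n : ℝ≥0∞)⁻¹ * (((Finset.Icc 1 n).filter fun i => (glob n k i s, glob n k i t) ∈ S).card : ℝ≥0∞) := by
  rw [eta2, Measure.smul_apply, smul_eq_mul, Measure.finsetSum_apply, Finset.card_filter, Nat.cast_sum]
  congr 1
  refine Finset.sum_congr rfl fun i _ => ?_
  rw [Measure.dirac_apply' _ hS, indicator_apply]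
  split_ifs <;> simp

theorem meas (c : ℝ) : MeasurableSet {p : ℝ × ℝ | c < |p.1 - p.2|} :=
  measurableSet_lt measurable_const (continuous_abs.measurable.comp (measurable_fst.sub measurable_snd))

/-- The window of a pair of times. -/
theorem event {n : ℕ} (hn : 2 ≤ n) {k : List ℕ} (hk : IsNetwork n k) {K f s u κ : ℝ} (hK : 0 < K)
    (hf : 0 ≤ f) (hκ : 0 < κ) (h0 : 0 ≤ s) (hsu : s + κ ≤ u) (hu : u ≤ 1)
    (h : ENNReal.ofReal f < eta2 n k s u {p | K * (u - s) < |p.1 - p.2|}) :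
    ∃ i < n.choose 2 + 1, ∃ m < n.choose 2 + 1, κ * (n.choose 2 : ℝ) - 1 < m ∧ i + m ≤ n.choose 2 ∧
      (k.drop i).take m ∈ FastW n m ⌊f * n⌋₊ ⌊K * ((m : ℝ) - 1) / n⌋₊ := by
  classical
  have hn0 : (2 : ℝ) ≤ n := by exact_mod_cast hn
  have hnpos : (0 : ℝ) < n := by linarith
  obtain ⟨N, hN⟩ : ∃ N, N = n.choose 2 := ⟨_, rfl⟩
  have hNr : (n.choose 2 : ℝ) = n * (n - 1) / 2 := Nat.cast_choose_two ℝ n
  have hNr' : (N : ℝ) = n * (n - 1) / 2 := by rw [hN, hNr]
  have hNpos : (0 : ℝ) < (N : ℝ) := by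
    rw [hNr']
    nlinarith
  obtain ⟨i, hi⟩ : ∃ i, i = ⌊(N : ℝ) * s⌋₊ := ⟨_, rfl⟩
  obtain ⟨j, hj⟩ : ∃ j, j = ⌊(N : ℝ) * u⌋₊ := ⟨_, rfl⟩
  have hij : i ≤ j := by
    rw [hi, hj]
    exact Nat.floor_le_floor (mul_le_mul_of_nonneg_left (by linarith) hNpos.le)
  have hjN : j ≤ N := by
    rw [hj]
    refine Nat.floor_le_of_le ?_
    nlinarith
  have i1 : (i : ℝ) ≤ N * s := by
    rw [hi]
    exact Nat.floor_le (by positivity)
  have i2 : (N : ℝ) * s < i + 1 := by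
    rw [hi]
    exact Nat.lt_floor_add_one _
  have j1 : (j : ℝ) ≤ N * u := by
    rw [hj]
    exact Nat.floor_le (mul_nonneg hNpos.le (by linarith))
  have j2 : (N : ℝ) * u < j + 1 := by
    rw [hj]
    exact Nat.lt_floor_add_one _
  obtain ⟨m, hm⟩ := Nat.exists_eq_add_of_le hij
  have hmr : (j : ℝ) = i + m := by
    rw [hm]
    push_cast
    ring
  rw [← hN]
  refine ⟨i, by omega, m, by omega, ?_, by omega, ?_⟩
  · have : κ * N ≤ N * (u - s) := by nlinarith
    nlinarith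
  obtain ⟨w, hw⟩ : ∃ w, w = (k.drop i).take m := ⟨_, rfl⟩
  have hkj : k.take j = k.take i ++ w := by
    rw [hw, hm, List.take_add]
  rw [← hw]
  refine ⟨?_, ?_, ?_⟩
  · rw [hw, List.length_take, List.length_drop, hk.1, ← hN]
    omega
  · intro a ha
    rw [hw] at ha
    exact hk.2.1 a (List.mem_of_mem_drop (List.mem_of_mem_take ha))
  -- the number of particles
  rw [eta2_apply n k s u (meas _)] at h
  obtain ⟨S, hS⟩ : ∃ S, S = (Finset.Icc 1 n).filter fun x =>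
    (glob n k x s, glob n k x u) ∈ {p : ℝ × ℝ | K * (u - s) < |p.1 - p.2|} := ⟨_, rfl⟩
  rw [← hS] at h
  have h1 : f * n < (S.card : ℝ) := by
    by_contra hcon
    push Not at hcon
    refine absurd h (not_lt.mpr ?_)
    have h2 : (S.card : ℝ≥0∞) = ENNReal.ofReal (S.card : ℝ) := (ENNReal.ofReal_natCast _).symm
    have h3 : (n : ℝ≥0∞)⁻¹ = ENNReal.ofReal ((n : ℝ)⁻¹) := by
      rw [ENNReal.ofReal_inv_of_pos hnpos, ENNReal.ofReal_natCast]
    rw [h2, h3, ← ENNReal.ofReal_mul (by positivity)]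
    apply ENNReal.ofReal_le_ofReal
    rw [inv_mul_le_iff₀ hnpos, mul_comm]
    exact hcon
  have h2 : ⌊f * n⌋₊ < S.card := by
    have h3 : ((⌊f * n⌋₊ : ℕ) : ℝ) ≤ f * n := Nat.floor_le (by positivity)
    exact_mod_cast h3.trans_lt h1
  refine h2.trans_le ?_
  have hsupp : Supp n (P (k.take i)) :=
    Supp.P fun a ha => hk.2.1 a (List.mem_of_mem_take ha)
  refine Finset.card_le_card_of_injOn (fun x => place (k.take i) x) ?_ ?_
  · intro x hx
    rw [Finset.mem_coe, hS, Finset.mem_filter, Finset.mem_Icc] at hx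
    obtain ⟨⟨hx1, hx2⟩, hx3⟩ := hx
    obtain ⟨y, hy⟩ : ∃ y, y = place (k.take i) x := ⟨_, rfl⟩
    have hy' : 1 ≤ y ∧ y ≤ n := by
      rw [hy, place_eq]
      exact hsupp.inv.mem hx1 hx2
    rw [Finset.mem_coe, Finset.mem_filter, Finset.mem_Icc]
    simp only
    rw [← hy]
    refine ⟨hy', ?_⟩
    rw [mem_ofPred_eq] at hx3
    have g1 : glob n k x s = 2 * (y : ℝ) / n - 1 := by
      unfold glob
      rw [← hN, ← hi, ← hy]
    have g2 : glob n k x u = 2 * (place w y : ℝ) / n - 1 := by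
      unfold glob
      rw [← hN, ← hj, hkj, place_append, ← hy]
    have h4 : K * (u - s) < 2 / n * |(place w y : ℝ) - y| := by
      have h5 : glob n k x s - glob n k x u = -(2 / n * ((place w y : ℝ) - y)) := by
        rw [g1, g2]
        ring
      simp only at hx3
      rw [h5, abs_neg, abs_mul, abs_of_pos (by positivity : (0 : ℝ) < 2 / n)] at hx3
      exact hx3
    have h5 : K * (u - s) * n / 2 < |(place w y : ℝ) - y| := by
      have h6 : K * (u - s) * n / 2 < 2 / n * |(place w y : ℝ) - y| * n / 2 := by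
        have := mul_lt_mul_of_pos_right h4 hnpos
        linarith
      have h7 : 2 / n * |(place w y : ℝ) - y| * n / 2 = |(place w y : ℝ) - y| := by
        field_simp
      rwa [h7] at h6
    have h6 : ((⌊K * ((m : ℝ) - 1) / n⌋₊ : ℕ) : ℝ) ≤ K * (u - s) * n / 2 := by
      have h7 : K * ((m : ℝ) - 1) / n ≤ K * (u - s) * n / 2 := by
        rw [div_le_iff₀ hnpos]
        have h8 : (m : ℝ) - 1 ≤ N * (u - s) := by nlinarith
        have h9 : (N : ℝ) * (u - s) ≤ (u - s) * n / 2 * n := by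
          rw [hNr']
          have : 0 ≤ u - s := by linarith
          nlinarith
        have h10 := mul_le_mul_of_nonneg_left (h8.trans h9) hK.le
        linarith
      have h8 : 0 ≤ K * (u - s) * n / 2 := by
        have : 0 ≤ u - s := by linarith
        positivity
      have h9 : ((⌊K * ((m : ℝ) - 1) / n⌋₊ : ℕ) : ℝ) ≤ ((⌊K * (u - s) * n / 2⌋₊ : ℕ) : ℝ) := by
        exact_mod_cast Nat.floor_le_floor h7
      exact h9.trans (Nat.floor_le h8)
    have h7 := h6.trans_lt h5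
    have h8 : (((⌊K * ((m : ℝ) - 1) / n⌋₊ : ℕ) : ℤ) : ℝ) < ((|(place w y : ℤ) - y| : ℤ) : ℝ) := by
      push_cast
      exact h7
    exact_mod_cast h8
  · intro x _ x' _ hxx
    simp only at hxx
    rw [place_eq, place_eq] at hxx
    exact (P (k.take i))⁻¹.injective hxx

/-! ### Probabilities -/

theorem prob_mem_le (n : ℕ) (φ : List ℕ → List ℕ) (S : Set (List ℕ)) (hS : S.Finite) (B : ℝ)
    (hB : ∀ w ∈ S, prob n (fun k => φ k = w) ≤ B) : prob n (fun k => φ k ∈ S) ≤ S.ncard * B := by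
  classical
  induction S, hS using Set.Finite.induction_on with
  | empty => simp [prob]
  | @insert a S ha hS ih =>
    have h1 := ih fun w hw => hB w (mem_insert_of_mem _ hw)
    have h2 := hB a (mem_insert _ _)
    rw [Set.ncard_insert_of_notMem ha hS]
    refine (prob_mono (E' := fun k => φ k = a ∨ φ k ∈ S) fun k _ hk => mem_insert_iff.mp hk).trans ?_
    refine (prob_or_le n _ _).trans ?_
    push_cast
    linarith

end Lip

/-- **most particles move with bounded speed**, from the domination -/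
theorem lipschitz_of
    (hdom : ∃ C > (0 : ℝ), ∀ n : ℕ, 2 ≤ n → ∀ (i : ℕ) (w : List ℕ), n ≤ w.length →
      i + w.length ≤ n.choose 2 →
      prob n (fun k => (k.drop i).take w.length = w) ≤ (C / n) ^ w.length)
    (hfast : ∀ {n s q d : ℕ}, 2 ≤ n → ∀ {z : ℝ}, 1 ≤ z →
      (FastW n s q d).Finite ∧
      ((FastW n s q d).ncard : ℝ) ≤ 2 ^ n * (n + 2 * (q + 1) * z ^ 2) ^ s / z ^ ((q + 1) * (d + 1))) :
    ∃ A > (0 : ℝ), ∃ K₀ > (1 : ℝ), ∀ K ≥ K₀, ∀ κ > (0 : ℝ), ∃ c₁ > (0 : ℝ), ∃ c₂ > (0 : ℝ),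
    ∀ n : ℕ, 2 ≤ n →
      prob n (fun k => ∃ s u : ℝ, 0 ≤ s ∧ s + κ ≤ u ∧ u ≤ 1 ∧
        ENNReal.ofReal (A / (K * Real.log K)) < eta2 n k s u {p | K * (u - s) < |p.1 - p.2|}) ≤
      c₁ * Real.exp (-c₂ * (n : ℝ) ^ 2) := by
  obtain ⟨C', hC', hdom⟩ := hdom
  obtain ⟨C, hCdef⟩ : ∃ C, C = max C' 1 := ⟨_, rfl⟩
  have hC : 1 ≤ C := by rw [hCdef]; exact le_max_right _ _
  have hCC : C' ≤ C := by rw [hCdef]; exact le_max_left _ _
  obtain ⟨A, hA⟩ : ∃ A, A = 8 * Real.log (4 * Real.exp 1 * C) := ⟨_, rfl⟩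
  obtain ⟨hA0, -, -, -⟩ := Lip.num hC hA le_rfl rfl
  refine ⟨A, hA0, 16 * A ^ 2 + 3, by nlinarith, fun K hK κ hκ => ?_⟩
  obtain ⟨f, hf⟩ : ∃ f, f = A / (K * Real.log K) := ⟨_, rfl⟩
  obtain ⟨-, hf0, h4f, -⟩ := Lip.num hC hA hK hf
  have hK0 : 0 < K := by nlinarith
  rw [← hf]
  obtain ⟨n₀, hn₀⟩ : ∃ n₀ : ℕ, n₀ = ⌈1 + 4 / κ + 1 / f⌉₊ := ⟨_, rfl⟩
  have hn₀' : 1 + 4 / κ + 1 / f ≤ (n₀ : ℝ) := by
    rw [hn₀]
    exact Nat.le_ceil _
  refine ⟨max (Real.exp (κ / 8 * (n₀ : ℝ) ^ 2)) (Real.exp 1 * (128 / κ ^ 2)), by positivity,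
    κ / 8, by positivity, fun n hn => ?_⟩
  rcases lt_or_ge n n₀ with hlt | hge
  · refine (prob_le_one _ _).trans ?_
    have h1 : (n : ℝ) ≤ n₀ := by exact_mod_cast hlt.le
    have h2 : (0 : ℝ) ≤ n := Nat.cast_nonneg _
    calc (1 : ℝ) = Real.exp (κ / 8 * (n : ℝ) ^ 2) * Real.exp (-(κ / 8) * (n : ℝ) ^ 2) := by
          rw [← Real.exp_add]
          simp
      _ ≤ Real.exp (κ / 8 * (n₀ : ℝ) ^ 2) * Real.exp (-(κ / 8) * (n : ℝ) ^ 2) := by
          apply mul_le_mul_of_nonneg_right _ (Real.exp_pos _).le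
          apply Real.exp_le_exp.mpr
          apply mul_le_mul_of_nonneg_left _ (by positivity)
          exact pow_le_pow_left₀ h2 h1 2
      _ ≤ _ := mul_le_mul_of_nonneg_right (le_max_left _ _) (Real.exp_pos _).le
  -- large `n`
  have hn0 : (2 : ℝ) ≤ n := by exact_mod_cast hn
  have hnpos : (0 : ℝ) < n := by linarith
  have hnn₀ : 1 + 4 / κ + 1 / f ≤ (n : ℝ) := hn₀'.trans (by exact_mod_cast hge)
  have hfn : 1 ≤ f * n := by
    have h1 : 1 / f ≤ (n : ℝ) := by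
      have : 0 < 4 / κ := by positivity
      linarith
    rw [div_le_iff₀ hf0] at h1
    linarith
  have hκn : 4 ≤ κ * ((n : ℝ) - 1) := by
    have h1 : 4 / κ ≤ (n : ℝ) - 1 := by
      have : 0 < 1 / f := by positivity
      linarith
    rw [div_le_iff₀ hκ] at h1
    linarith
  have hNr : (n.choose 2 : ℝ) = n * (n - 1) / 2 := Nat.cast_choose_two ℝ n
  obtain ⟨N, hN⟩ : ∃ N, N = n.choose 2 := ⟨_, rfl⟩
  rw [← hN] at hNr
  have hbig : ∀ m : ℕ, κ * (N : ℝ) - 1 < m → n ≤ m := by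
    intro m hm
    have h1 : (n : ℝ) + 1 ≤ κ * N := by
      rw [hNr]
      nlinarith
    have h2 : (n : ℝ) < m := by linarith
    exact_mod_cast h2.le
  obtain ⟨z, hz⟩ : ∃ z, z = Real.exp (-Real.log (4 * f) / 2) := ⟨_, rfl⟩
  -- one window
  have hwin : ∀ i m : ℕ, prob n (fun k => κ * (N : ℝ) - 1 < m ∧ i + m ≤ N ∧
      (k.drop i).take m ∈ FastW n m ⌊f * n⌋₊ ⌊K * ((m : ℝ) - 1) / n⌋₊) ≤
        Real.exp (-(κ * N - 1)) := by
    intro i m
    by_cases hm : κ * (N : ℝ) - 1 < m ∧ i + m ≤ N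
    · obtain ⟨hm1, hm2⟩ := hm
      have hnm := hbig m hm1
      obtain ⟨hz1, hw⟩ := Lip.window hC hA hK hf hn hfn hnm hz
      obtain ⟨hfin, hcard⟩ := hfast (n := n) (s := m) (q := ⌊f * n⌋₊)
        (d := ⌊K * ((m : ℝ) - 1) / n⌋₊) hn hz1
      have h1 : prob n (fun k => (k.drop i).take m ∈
          FastW n m ⌊f * n⌋₊ ⌊K * ((m : ℝ) - 1) / n⌋₊) ≤
          (FastW n m ⌊f * n⌋₊ ⌊K * ((m : ℝ) - 1) / n⌋₊).ncard * (C / n) ^ m := by
        refine Lip.prob_mem_le n (fun k => (k.drop i).take m) _ hfin _ ?_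
        intro w hw'
        have hlen : w.length = m := hw'.1
        have h2 := hdom n hn i w (by omega) (by omega)
        rw [hlen] at h2
        refine h2.trans ?_
        apply pow_le_pow_left₀ (by positivity)
        exact div_le_div_of_nonneg_right hCC hnpos.le
      refine (prob_mono fun k _ hk => hk.2.2).trans (h1.trans ?_)
      refine (mul_le_mul_of_nonneg_right hcard (by positivity)).trans (hw.trans ?_)
      apply Real.exp_le_exp.mpr
      linarith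
    · refine le_trans (prob_mono (E' := fun _ => False) fun k _ hk => hm ⟨hk.1, hk.2.1⟩) ?_
      have : prob n (fun _ => False) = 0 := by simp [prob]
      rw [this]
      exact (Real.exp_pos _).le
  have hmain : prob n (fun k => ∃ s u : ℝ, 0 ≤ s ∧ s + κ ≤ u ∧ u ≤ 1 ∧
        ENNReal.ofReal f < eta2 n k s u {p | K * (u - s) < |p.1 - p.2|}) ≤
      ((N : ℝ) + 1) * (((N : ℝ) + 1) * Real.exp (-(κ * N - 1))) := by
    refine (prob_mono (E' := fun k => ∃ i < N + 1, ∃ m < N + 1, κ * (N : ℝ) - 1 < m ∧ i + m ≤ N ∧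
      (k.drop i).take m ∈ FastW n m ⌊f * n⌋₊ ⌊K * ((m : ℝ) - 1) / n⌋₊) ?_).trans ?_
    · rintro k hk ⟨s, u, h0, hsu, hu, h⟩
      have := Lip.event hn hk hK0 hf0.le hκ h0 hsu hu h
      rw [← hN] at this
      exact this
    refine (prob_exists_le n (fun i k => ∃ m < N + 1, κ * (N : ℝ) - 1 < m ∧ i + m ≤ N ∧
      (k.drop i).take m ∈ FastW n m ⌊f * n⌋₊ ⌊K * ((m : ℝ) - 1) / n⌋₊) (N + 1)).trans ?_
    refine (Finset.sum_le_sum (g := fun _ => ((N : ℝ) + 1) * Real.exp (-(κ * N - 1)))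
      fun i _ => ?_).trans ?_
    · refine (prob_exists_le n (fun m k => κ * (N : ℝ) - 1 < m ∧ i + m ≤ N ∧
        (k.drop i).take m ∈ FastW n m ⌊f * n⌋₊ ⌊K * ((m : ℝ) - 1) / n⌋₊) (N + 1)).trans ?_
      refine (Finset.sum_le_sum (g := fun _ => Real.exp (-(κ * N - 1))) fun m _ => hwin i m).trans ?_
      rw [Finset.sum_const, Finset.card_range, nsmul_eq_mul]
      push_cast
      exact le_rfl
    · rw [Finset.sum_const, Finset.card_range, nsmul_eq_mul]
      push_cast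
      exact le_rfl
  refine hmain.trans ?_
  -- `(N + 1)^2 e^{1 - κ N} ≤ c₁ e^{- κ n^2 / 8}`
  have hN2 : (N : ℝ) + 1 ≤ (n : ℝ) ^ 2 := by
    rw [hNr]
    nlinarith
  have hN3 : (n : ℝ) ^ 2 / 4 ≤ N := by
    rw [hNr]
    nlinarith
  have hN0 : (0 : ℝ) ≤ (N : ℝ) + 1 := by positivity
  obtain ⟨x, hx⟩ : ∃ x, x = κ / 8 * (n : ℝ) ^ 2 := ⟨_, rfl⟩
  have hx0 : 0 ≤ x := by rw [hx]; positivity
  have h1 : x ^ 2 / 2 ≤ Real.exp x := by
    have := Real.quadratic_le_exp_of_nonneg hx0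
    linarith
  have h2 : ((n : ℝ) ^ 2) ^ 2 ≤ 128 / κ ^ 2 * Real.exp x := by
    have h3 : ((n : ℝ) ^ 2) ^ 2 = 128 / κ ^ 2 * (x ^ 2 / 2) := by
      rw [hx]
      field_simp
      ring
    rw [h3]
    exact mul_le_mul_of_nonneg_left h1 (by positivity)
  calc ((N : ℝ) + 1) * (((N : ℝ) + 1) * Real.exp (-(κ * N - 1)))
      = ((N : ℝ) + 1) ^ 2 * Real.exp (-(κ * N - 1)) := by ring
    _ ≤ ((n : ℝ) ^ 2) ^ 2 * Real.exp (1 - 2 * x) := by
        apply mul_le_mul (pow_le_pow_left₀ hN0 hN2 2) _ (Real.exp_pos _).le (by positivity)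
        apply Real.exp_le_exp.mpr
        have h4 : κ * ((n : ℝ) ^ 2 / 4) ≤ κ * N := mul_le_mul_of_nonneg_left hN3 hκ.le
        rw [hx]
        linarith
    _ ≤ (128 / κ ^ 2 * Real.exp x) * Real.exp (1 - 2 * x) :=
        mul_le_mul_of_nonneg_right h2 (Real.exp_pos _).le
    _ = Real.exp 1 * (128 / κ ^ 2) * (Real.exp x * Real.exp (-(2 * x))) := by
        rw [sub_eq_add_neg, Real.exp_add]
        ring
    _ = Real.exp 1 * (128 / κ ^ 2) * Real.exp (-(κ / 8) * (n : ℝ) ^ 2) := by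
        rw [← Real.exp_add]
        congr 2
        rw [hx]
        ring
    _ ≤ _ := mul_le_mul_of_nonneg_right (le_max_right _ _) (Real.exp_pos _).le

end Pool.Agent.SNL63
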