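import Pool.Agent.SNL63.DoDefs

/-!
# The number of the column heights of a filter of a triangle

Going down from `j = m` to `j = 0`, every step at a point of `P` multiplies the sum of the weights
`(r 0 + 1) * 2 ^ (r 0)` by at most four, and the other steps do not increase it.
-/

set_option autoImplicit false

namespace Pool.Agent.SNL63

open Finset

/-- the weight of a height -/
def wSQ (v : ℕ) : ℕ := (v + 1) * 2 ^ v

theorem one_le_wSQ (v : ℕ) : 1 ≤ wSQ v := by
  unfold wSQ
  exact Nat.one_le_iff_ne_zero.2 (by positivity)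

theorem wSQ_sum (N : ℕ) : ∑ v ∈ Icc 1 (N + 1), wSQ v = 4 * wSQ N := by
  induction N with
  | zero => simp [wSQ]
  | succ N ih =>
    rw [Finset.sum_Icc_succ_top (by omega), ih]
    unfold wSQ
    ring

/-- put the height `v` in front -/
def consSQ (x : (_ : ℕ → ℕ) × ℕ) : ℕ → ℕ := fun j => if j = 0 then x.2 else x.1 (j - 1)

theorem consSQ_inj : Function.Injective consSQ := by
  rintro ⟨r, v⟩ ⟨r', v'⟩ h
  have h0 : v = v' := by
    have := congrFun h 0
    simpa [consSQ] using this
  have h1 : r = r' := by
    funext j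
    have := congrFun h (j + 1)
    simpa [consSQ] using this
  subst h0
  subst h1
  rfl

theorem SQ_sum (m : ℕ) : ∀ P : Finset ℕ, ∃ S : Finset (ℕ → ℕ), SQ m P ⊆ (S : Set (ℕ → ℕ)) ∧
    ∑ r ∈ S, wSQ (r 0) ≤ 4 ^ P.card := by
  classical
  induction m with
  | zero =>
    intro P
    refine ⟨{fun j => if j = 0 then (if 0 ∈ P then 1 else 0) else 0}, ?_, ?_⟩
    · rintro r ⟨h1, -, h3, h4⟩
      have h1' := h1 0 le_rfl
      simp only [Finset.coe_singleton, Set.mem_singleton_iff]
      funext j
      rcases Nat.eq_zero_or_pos j with rfl | hj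
      · by_cases hP : 0 ∈ P
        · have := h1'.2 hP
          simp only [if_true, hP]
          omega
        · have : ¬ 1 ≤ r 0 := fun h => hP (h1'.1 h)
          simp only [if_true, hP, if_false]
          omega
      · rw [h4 j hj]
        simp [hj.ne']
    · rw [Finset.sum_singleton]
      by_cases hP : 0 ∈ P
      · simp only [if_true, hP]
        have hc : 1 ≤ P.card := Finset.card_pos.2 ⟨0, hP⟩
        calc wSQ 1 = 4 ^ 1 := by simp [wSQ]
          _ ≤ 4 ^ P.card := Nat.pow_le_pow_right (by norm_num) hc
      · simp only [if_true, hP, if_false]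
        calc wSQ 0 = 4 ^ 0 := by simp [wSQ]
          _ ≤ 4 ^ P.card := Nat.pow_le_pow_right (by norm_num) (Nat.zero_le _)
  | succ m ih =>
    intro P
    set P' : Finset ℕ := (P.erase 0).image (fun x => x - 1) with hP'
    have hmem : ∀ j, j ∈ P' ↔ j + 1 ∈ P := by
      intro j
      rw [hP', Finset.mem_image]
      constructor
      · rintro ⟨x, hx, hxj⟩
        rw [Finset.mem_erase] at hx
        have : x = j + 1 := by omega
        rw [← this]
        exact hx.2
      · intro h
        exact ⟨j + 1, Finset.mem_erase.2 ⟨by omega, h⟩, by omega⟩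
    have hcard : P'.card ≤ (P.erase 0).card := Finset.card_image_le
    obtain ⟨S, hS, hsum⟩ := ih P'
    set T : Finset ((_ : ℕ → ℕ) × ℕ) :=
      S.sigma (fun r => if 0 ∈ P then Icc 1 (r 0 + 1) else {0}) with hT
    refine ⟨T.image consSQ, ?_, ?_⟩
    · rintro r ⟨h1, h2, h3, h4⟩
      rw [Finset.mem_coe, Finset.mem_image]
      refine ⟨⟨fun j => r (j + 1), r 0⟩, ?_, ?_⟩
      · rw [hT, Finset.mem_sigma]
        constructor
        · have : (fun j => r (j + 1)) ∈ SQ m P' := by
            refine ⟨fun j hj => ?_, fun j hj => ?_, h3, fun j hj => ?_⟩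
            · rw [hmem]
              exact h1 (j + 1) (by omega)
            · exact h2 (j + 1) (by omega)
            · exact h4 (j + 1) (by omega)
          exact hS this
        · have h5 := h1 0 (Nat.zero_le _)
          have h6 := h2 0 (by omega)
          by_cases hP : 0 ∈ P
          · rw [if_pos hP]
            simp only [Finset.mem_Icc]
            exact ⟨h5.2 hP, h6⟩
          · rw [if_neg hP, Finset.mem_singleton]
            have : ¬ 1 ≤ r 0 := fun h => hP (h5.1 h)
            change r 0 = 0
            omega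
      · funext j
        rcases Nat.eq_zero_or_pos j with rfl | hj
        · simp [consSQ]
        · simp only [consSQ, if_neg hj.ne']
          congr 1
          omega
    · rw [Finset.sum_image (fun x _ y _ h => consSQ_inj h), hT, Finset.sum_sigma]
      simp only [consSQ, if_true]
      by_cases hP : 0 ∈ P
      · simp only [if_pos hP, wSQ_sum]
        rw [← Finset.mul_sum]
        have h7 : (P.erase 0).card + 1 = P.card := Finset.card_erase_add_one hP
        calc 4 * ∑ r ∈ S, wSQ (r 0) ≤ 4 * 4 ^ P'.card := Nat.mul_le_mul_left _ hsum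
          _ = 4 ^ (P'.card + 1) := by rw [pow_succ]; ring
          _ ≤ 4 ^ P.card := Nat.pow_le_pow_right (by norm_num) (by omega)
      · simp only [if_neg hP, Finset.sum_singleton]
        have h7 : (P.erase 0).card ≤ P.card := Finset.card_erase_le
        calc ∑ r ∈ S, wSQ 0 ≤ ∑ r ∈ S, wSQ (r 0) := by
              apply Finset.sum_le_sum
              intro r _
              have : wSQ 0 = 1 := by simp [wSQ]
              rw [this]
              exact one_le_wSQ _
          _ ≤ 4 ^ P'.card := hsum
          _ ≤ 4 ^ P.card := Nat.pow_le_pow_right (by norm_num) (by omega)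

theorem SQ_card (m : ℕ) (P : Finset ℕ) : (SQ m P).Finite ∧ (SQ m P).ncard ≤ 4 ^ P.card := by
  obtain ⟨S, hS, hsum⟩ := SQ_sum m P
  refine ⟨S.finite_toSet.subset hS, ?_⟩
  calc (SQ m P).ncard ≤ (S : Set (ℕ → ℕ)).ncard := Set.ncard_le_ncard hS S.finite_toSet
    _ = S.card := Set.ncard_coe_finset S
    _ = ∑ r ∈ S, 1 := by simp
    _ ≤ ∑ r ∈ S, wSQ (r 0) := Finset.sum_le_sum fun r _ => one_le_wSQ _
    _ ≤ 4 ^ P.card := hsum

end Pool.Agent.SNL63
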