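import Pool.Agent.SNL63.DoDefs

/-!
The number of shapes below the staircase.
-/

namespace Pool.Agent.SNL63

open Pool.Agent.SN8

/-- at most `4 ^ n` shapes below the staircase -/
theorem shapes_card (n : ℕ) : ({lam : ℕ → ℕ | Antitone lam ∧ ∀ i, lam i ≤ stair n i} : Set (ℕ → ℕ)).Finite ∧
    ({lam : ℕ → ℕ | Antitone lam ∧ ∀ i, lam i ≤ stair n i} : Set (ℕ → ℕ)).ncard ≤ 4 ^ n := by
  classical
  obtain ⟨S, hS⟩ : ∃ S : Set (ℕ → ℕ), S = {lam | Antitone lam ∧ ∀ i, lam i ≤ stair n i} := ⟨_, rfl⟩
  rw [← hS]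
  obtain ⟨l, hl⟩ : ∃ l : (ℕ → ℕ) → Fin n → ℕ, ∀ lam i, l lam i = lam i + (n - 1 - i) := ⟨_, fun _ _ => rfl⟩
  have hanti : ∀ lam ∈ S, StrictAnti (l lam) := by
    intro lam h i j hij
    rw [hS] at h
    have h1 := h.1 (show (i : ℕ) ≤ j from hij.le)
    have h2 : (i : ℕ) < j := hij
    rw [hl, hl]
    have := j.2
    omega
  have hmap : Set.MapsTo (fun lam => Finset.univ.image (l lam)) S
      ((Finset.range (2 * n)).powerset : Set (Finset ℕ)) := by
    intro lam h
    rw [hS] at h
    rw [Finset.mem_coe, Finset.mem_powerset]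
    intro x hx
    rw [Finset.mem_image] at hx
    obtain ⟨i, -, rfl⟩ := hx
    have h1 := h.2 i
    unfold stair at h1
    rw [hl, Finset.mem_range]
    have := i.2
    omega
  have hinj : Set.InjOn (fun lam => Finset.univ.image (l lam)) S := by
    intro lam h lam' h' he
    have h1 : Set.range (l lam) = Set.range (l lam') := by
      have := congrArg (fun s : Finset ℕ => (s : Set ℕ)) he
      simpa using this
    have h2 := ((hanti lam h).range_inj (hanti lam' h')).1 h1
    rw [hS] at h h'
    funext i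
    by_cases hi : i < n
    · have h3 := congrFun h2 ⟨i, hi⟩
      rw [hl, hl] at h3
      simpa using h3
    · have h3 := h.2 i
      have h4 := h'.2 i
      unfold stair at h3 h4
      omega
  refine ⟨Set.Finite.of_injOn hmap hinj (Finset.finite_toSet _), ?_⟩
  refine (Set.ncard_le_ncard_of_injOn _ hmap hinj (Finset.finite_toSet _)).trans ?_
  rw [Set.ncard_coe_finset, Finset.card_powerset, Finset.card_range, pow_mul]
  norm_num

end Pool.Agent.SNL63
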