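import Pool.Agent.SNL63.DoDefs

/-!
# The number of networks with given last letters
-/

namespace Pool.Agent.SNL63

open Pool.Agent.SN8 MeasureTheory Set Filter Topology
open scoped ENNReal Real

/-- the number of networks with given last letters, by the insertion tableaux of the other letters -/
theorem suffix_le {n : ℕ} {w : List ℕ} (hw : w.length ≤ n.choose 2) {B : ℝ} (hB0 : 0 ≤ B)
    (hfin : (RT n (n.choose 2 - w.length)).Finite)
    (hB : ∀ T ∈ RT n (n.choose 2 - w.length), (F n (n.choose 2 - w.length) (shp T) : ℝ) ≤ B) :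
    (({k | IsNetwork n k ∧ k.drop (n.choose 2 - w.length) = w} : Set (List ℕ)).ncard : ℝ) ≤
      (RT n (n.choose 2 - w.length)).ncard * B := by
  obtain ⟨m, hm⟩ : ∃ m, m = n.choose 2 - w.length := ⟨_, rfl⟩
  rw [← hm] at hfin hB ⊢
  have hfinU : (⋃ T ∈ hfin.toFinset, Fib n T).Finite :=
    Set.Finite.biUnion (Finset.finite_toSet _) (fun T _ => fib_finite n T)
  have hsub : ({k | IsNetwork n k ∧ k.drop m = w} : Set (List ℕ)) ⊆
      (fun a => a ++ w) '' (⋃ T ∈ hfin.toFinset, Fib n T) := by
    rintro k ⟨hk, hd⟩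
    have hr := red_of_network hk
    have hkw : k.take m ++ w = k := by
      rw [← hd]
      exact List.take_append_drop m k
    have hra : Red n (k.take m) := by
      rw [← hkw] at hr
      exact hr.left
    have hlen : (k.take m).length = m := by
      rw [List.length_take]
      have := hk.1
      omega
    refine ⟨k.take m, ?_, hkw⟩
    obtain ⟨i1, i2, i3, i4⟩ := tab_spec hra
    refine Set.mem_biUnion (x := tab (k.take m)) ?_ ⟨hra, rfl⟩
    have : tab (k.take m) ∈ RT n m := ⟨i1, tab_red hra, by rw [i3, hlen]⟩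
    simpa using this
  have h1 : ({k | IsNetwork n k ∧ k.drop m = w} : Set (List ℕ)).ncard ≤
      ∑ T ∈ hfin.toFinset, (Fib n T).ncard :=
    ((Set.ncard_le_ncard hsub (hfinU.image _)).trans (Set.ncard_image_le hfinU)).trans
      (Finset.set_ncard_biUnion_le _ _)
  have h2 : (∑ T ∈ hfin.toFinset, ((Fib n T).ncard : ℝ)) ≤ ∑ T ∈ hfin.toFinset, B := by
    apply Finset.sum_le_sum
    intro T hT
    have hT' : T ∈ RT n m := by simpa using hT
    have h3 := fib_card m hT'.1 hT'.2.1 hT'.2.2
    rw [h3]
    exact hB T hT'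
  rw [Finset.sum_const, nsmul_eq_mul, ← Set.ncard_eq_toFinset_card _ hfin] at h2
  refine le_trans ?_ h2
  exact_mod_cast h1

end Pool.Agent.SNL63
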