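import Mathlib

/-!
Two numerical inequalities for the domination of windows: factorials, products of ratios.
-/

namespace Pool.Agent.SNL63

open Finset
open scoped Real

/-- D3b1. -/
theorem pow_fact_le {N s : ℕ} (hs : s ≤ N) :
    (N : ℝ) ^ s * ((N - s).factorial : ℝ) ≤ Real.exp 1 ^ s * (N.factorial : ℝ) := by
  induction s generalizing N with
  | zero => simp
  | succ s ih =>
    obtain ⟨M, rfl⟩ : ∃ M, N = M + 1 := ⟨N - 1, by omega⟩
    have hsM : s ≤ M := by omega
    have h1 := ih hsM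
    have he : (0 : ℝ) < Real.exp 1 := Real.exp_pos 1
    have h2 : ((M : ℝ) + 1) ^ s ≤ Real.exp 1 * (M : ℝ) ^ s := by
      rcases Nat.eq_zero_or_pos M with h0 | h0
      · have : s = 0 := by omega
        subst this
        have := Real.add_one_le_exp (1 : ℝ)
        simp only [pow_zero, mul_one]
        linarith
      · have hM0 : (0 : ℝ) < M := by exact_mod_cast h0
        have h3 : ((M : ℝ) + 1) = (1 + 1 / M) * M := by field_simp
        have h4 : (1 + 1 / (M : ℝ)) ^ s ≤ Real.exp 1 := by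
          have h5 : 1 + 1 / (M : ℝ) ≤ Real.exp (1 / M) := by
            have := Real.add_one_le_exp (1 / (M : ℝ))
            linarith
          have h6 : (1 + 1 / (M : ℝ)) ^ s ≤ Real.exp (1 / M) ^ s := pow_le_pow_left₀ (by positivity) h5 s
          refine h6.trans ?_
          rw [← Real.exp_nat_mul]
          apply Real.exp_le_exp.2
          rw [mul_one_div, div_le_one hM0]
          exact_mod_cast hsM
        rw [h3, mul_pow]
        exact mul_le_mul_of_nonneg_right h4 (by positivity)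
    have h7 : M + 1 - (s + 1) = M - s := by omega
    rw [h7, Nat.factorial_succ]
    push_cast
    have h8 : (0 : ℝ) ≤ ((M - s).factorial : ℝ) := Nat.cast_nonneg _
    have hM1 : (0 : ℝ) ≤ (M : ℝ) + 1 := by positivity
    calc ((M : ℝ) + 1) ^ (s + 1) * ((M - s).factorial : ℝ)
        = ((M : ℝ) + 1) * (((M : ℝ) + 1) ^ s * ((M - s).factorial : ℝ)) := by ring
      _ ≤ ((M : ℝ) + 1) * (Real.exp 1 * (M : ℝ) ^ s * ((M - s).factorial : ℝ)) :=
          mul_le_mul_of_nonneg_left (mul_le_mul_of_nonneg_right h2 h8) hM1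
      _ = ((M : ℝ) + 1) * (Real.exp 1 * ((M : ℝ) ^ s * ((M - s).factorial : ℝ))) := by ring
      _ ≤ ((M : ℝ) + 1) * (Real.exp 1 * (Real.exp 1 ^ s * (M.factorial : ℝ))) :=
          mul_le_mul_of_nonneg_left (mul_le_mul_of_nonneg_left h1 he.le) hM1
      _ = Real.exp 1 ^ (s + 1) * (((M : ℝ) + 1) * (M.factorial : ℝ)) := by ring

private theorem sum_low (j : ℕ) : ∑ i ∈ range j, 1 / ((j : ℝ) - i) = (harmonic j : ℝ) := by
  rw [harmonic]
  push_cast
  rw [← sum_range_reflect]
  refine sum_congr rfl fun i hi => ?_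
  have hi' := mem_range.1 hi
  have h1 : ((j - 1 - i : ℕ) : ℝ) = (j : ℝ) - 1 - i := by
    rw [Nat.cast_sub (by omega), Nat.cast_sub (by omega)]
    simp
  rw [h1, one_div]
  congr 1
  ring

private theorem sum_high (i n : ℕ) : ∑ j ∈ Ico (i + 1) n, 1 / ((j : ℝ) - i) = (harmonic (n - (i + 1)) : ℝ) := by
  rw [harmonic, sum_Ico_eq_sum_range]
  push_cast
  refine sum_congr rfl fun k _ => ?_
  rw [one_div]
  congr 1
  ring

/-- D3b2. -/
theorem prod_ratio_le {n : ℕ} {d : ℕ → ℕ} (hpos : ∀ i j, i < j → j < n → (0 : ℝ) < 2 * ((j : ℝ) - i) - d i + d j) :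
    ∏ i ∈ range n, ∏ j ∈ Ico (i + 1) n, ((2 * ((j : ℝ) - i) - d i + d j) / (2 * ((j : ℝ) - i))) ≤
      ∏ j ∈ range n, (√(Real.exp 1 * ((j : ℝ) + 1) / ((n : ℝ) - j))) ^ (d j) := by
  have hij : ∀ i j : ℕ, i < j → (0 : ℝ) < (j : ℝ) - i := by
    intro i j h
    have : (i : ℝ) < j := by exact_mod_cast h
    linarith
  have h1 : ∏ i ∈ range n, ∏ j ∈ Ico (i + 1) n, ((2 * ((j : ℝ) - i) - d i + d j) / (2 * ((j : ℝ) - i))) ≤
      ∏ i ∈ range n, ∏ j ∈ Ico (i + 1) n, Real.exp (((d j : ℝ) - d i) / (2 * ((j : ℝ) - i))) := by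
    refine prod_le_prod (fun i _ => prod_nonneg fun j hj => ?_) (fun i _ => prod_le_prod (fun j hj => ?_)
      (fun j hj => ?_))
    · rw [mem_Ico] at hj
      have := hij i j (by omega)
      exact (div_pos (hpos i j (by omega) hj.2) (by linarith)).le
    · rw [mem_Ico] at hj
      have := hij i j (by omega)
      exact (div_pos (hpos i j (by omega) hj.2) (by linarith)).le
    · rw [mem_Ico] at hj
      have h2 := hij i j (by omega)
      have h3 : (2 * ((j : ℝ) - i) - d i + d j) / (2 * ((j : ℝ) - i)) =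
          ((d j : ℝ) - d i) / (2 * ((j : ℝ) - i)) + 1 := by
        field_simp
        ring
      rw [h3]
      exact Real.add_one_le_exp _
  refine h1.trans ?_
  have h2 : ∏ i ∈ range n, ∏ j ∈ Ico (i + 1) n, Real.exp (((d j : ℝ) - d i) / (2 * ((j : ℝ) - i))) =
      Real.exp (∑ i ∈ range n, ∑ j ∈ Ico (i + 1) n, ((d j : ℝ) - d i) / (2 * ((j : ℝ) - i))) := by
    rw [Real.exp_sum]
    exact prod_congr rfl fun i _ => by rw [Real.exp_sum]
  rw [h2]
  have h3 : ∑ i ∈ range n, ∑ j ∈ Ico (i + 1) n, ((d j : ℝ) - d i) / (2 * ((j : ℝ) - i)) =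
      ∑ j ∈ range n, (d j : ℝ) * (((harmonic j : ℝ) - (harmonic (n - (j + 1)) : ℝ)) / 2) := by
    have h4 : ∑ i ∈ range n, ∑ j ∈ Ico (i + 1) n, ((d j : ℝ) - d i) / (2 * ((j : ℝ) - i)) =
        ∑ i ∈ range n, ∑ j ∈ Ico (i + 1) n, (d j : ℝ) / 2 * (1 / ((j : ℝ) - i)) -
          ∑ i ∈ range n, ∑ j ∈ Ico (i + 1) n, (d i : ℝ) / 2 * (1 / ((j : ℝ) - i)) := by
      rw [← sum_sub_distrib]
      refine sum_congr rfl fun i _ => ?_
      rw [← sum_sub_distrib]
      refine sum_congr rfl fun j hj => ?_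
      rw [mem_Ico] at hj
      have := hij i j (by omega)
      field_simp
    have h5 : ∑ i ∈ range n, ∑ j ∈ Ico (i + 1) n, (d j : ℝ) / 2 * (1 / ((j : ℝ) - i)) =
        ∑ j ∈ range n, ∑ i ∈ range j, (d j : ℝ) / 2 * (1 / ((j : ℝ) - i)) := by
      refine sum_comm' fun i j => ?_
      rw [mem_range, mem_Ico, mem_range, mem_range]
      omega
    rw [h4, h5, ← sum_sub_distrib]
    refine sum_congr rfl fun j _ => ?_
    rw [← mul_sum, ← mul_sum, sum_low, sum_high]
    ring
  rw [h3, Real.exp_sum]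
  refine prod_le_prod (fun j _ => (Real.exp_pos _).le) (fun j hj => ?_)
  have hj' := mem_range.1 hj
  rw [Real.exp_nat_mul]
  refine pow_le_pow_left₀ (Real.exp_pos _).le ?_ _
  rw [Real.exp_half]
  apply Real.sqrt_le_sqrt
  have hj1 : (0 : ℝ) < (j : ℝ) + 1 := by positivity
  have hnj : (0 : ℝ) < (n : ℝ) - j := hij j n hj'
  have h6 : (harmonic j : ℝ) ≤ 1 + Real.log ((j : ℝ) + 1) := by
    refine (harmonic_le_one_add_log j).trans ?_
    rcases Nat.eq_zero_or_pos j with h0 | h0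
    · subst h0
      simp
    · have : Real.log (j : ℝ) ≤ Real.log ((j : ℝ) + 1) := Real.log_le_log (by exact_mod_cast h0) (by linarith)
      linarith
  have h7 : Real.log ((n : ℝ) - j) ≤ (harmonic (n - (j + 1)) : ℝ) := by
    have := log_add_one_le_harmonic (n - (j + 1))
    have h8 : ((n - (j + 1) : ℕ) : ℝ) + 1 = (n : ℝ) - j := by
      rw [Nat.cast_sub (by omega)]
      push_cast
      ring
    push_cast at this
    rwa [h8] at this
  have h9 : Real.exp 1 * ((j : ℝ) + 1) / ((n : ℝ) - j) =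
      Real.exp (1 + Real.log ((j : ℝ) + 1) - Real.log ((n : ℝ) - j)) := by
    rw [Real.exp_sub, Real.exp_add, Real.exp_log hj1, Real.exp_log hnj]
  rw [h9]
  exact Real.exp_le_exp.2 (by linarith)

end Pool.Agent.SNL63
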