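import Pool.Agent.SNL63.Disp

/-!
The Edelman–Greene correspondence as a count of words by shapes.
-/

namespace Pool.Agent.SNL63

open Pool.Agent.SN8 Finset

/-- the insertion tableau of a word -/
def tab (a : List ℕ) : List (List ℕ) := a.foldl insT []

lemma tab_nil : tab [] = [] := rfl

lemma tab_append (a : List ℕ) (x : ℕ) : tab (a ++ [x]) = insT (tab a) x := by
  simp [tab, List.foldl_append]

/-- `L6` -/
lemma tab_spec {n : ℕ} {a : List ℕ} (h : Red n a) :
    Tab (tab a) ∧ P (word (tab a)) = P a ∧ (word (tab a)).length = a.length ∧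
      ∀ z ∈ word (tab a), z ∈ a := by
  induction a using List.reverseRecOn with
  | nil => exact ⟨trivial, rfl, rfl, by simp [tab, word]⟩
  | append_singleton a x ih =>
    obtain ⟨i1, i2, i3, i4⟩ := ih h.left
    have hr : Red n (word (tab a) ++ [x]) := by
      apply h.congr
      · intro j hj
        rw [List.mem_append] at hj
        rcases hj with hj | hj
        · exact h.1 j (by simp [i4 j hj])
        · exact h.1 j (by rw [List.mem_append]; exact Or.inr hj)
      · rw [P_append, P_append, i2]
      · simp [i3]
    obtain ⟨j1, j2, j3, j4, j5⟩ := insT_spec i1 hr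
    rw [tab_append]
    refine ⟨j1, ?_, ?_, ?_⟩
    · rw [j2, P_append, P_append, i2]
    · rw [j3, i3]; simp
    · intro z hz
      have := j4 z hz
      rw [List.mem_append] at this ⊢
      rcases this with h | h
      · exact Or.inl (i4 z h)
      · exact Or.inr h

lemma tab_red {n : ℕ} {a : List ℕ} (h : Red n a) : Red n (word (tab a)) := by
  obtain ⟨i1, i2, i3, i4⟩ := tab_spec h
  exact h.congr (fun j hj => h.1 j (i4 j hj)) i2 i3

lemma inc_length_le {R : List ℕ} (hR : Inc R) : ∀ {a m : ℕ}, (∀ z ∈ R, a < z ∧ z ≤ a + m) →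
    R.length ≤ m := by
  induction R with
  | nil => intro a m _; simp
  | cons r R ih =>
    intro a m h
    have h1 := h r (by simp)
    have := ih hR.tail (a := r) (m := a + m - r) (fun z hz => by
      have h2 := hR.lt z hz
      have h3 := h z (by simp [hz])
      omega)
    simp only [List.length_cons]
    omega

lemma inc_eq_range {R : List ℕ} (hR : Inc R) : ∀ {a m : ℕ}, (∀ z ∈ R, a < z ∧ z ≤ a + m) →
    R.length = m → R = List.range' (a + 1) m := by
  induction R with
  | nil => intro a m _ h; simp only [List.length_nil] at h; subst h; rfl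
  | cons r R ih =>
    intro a m h hl
    have h1 := h r (by simp)
    have h4 := inc_length_le hR.tail (a := r) (m := a + m - r) (fun z hz => by
      have h2 := hR.lt z hz
      have h3 := h z (by simp [hz])
      omega)
    simp only [List.length_cons] at hl
    have hr : r = a + 1 := by omega
    subst hr
    obtain ⟨m, rfl⟩ : ∃ m', m = m' + 1 := ⟨m - 1, by omega⟩
    rw [List.range'_succ]
    congr 1
    apply ih hR.tail (a := a + 1) (m := m)
    · intro z hz
      have h2 := hR.lt z hz
      have h3 := h z (by simp [hz])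
      omega
    · omega

/-- entries of the next row -/
lemma above_gt {R S : List ℕ} {a : ℕ} (hS : Inc S) (h : Above R S) (hR : ∀ z ∈ R, a < z) :
    ∀ z ∈ S, a + 1 < z := by
  cases S with
  | nil => simp
  | cons s S => cases R with
    | nil => exact absurd h (not_nil_above _ _)
    | cons r R =>
      intro z hz
      have h1 := hR r (by simp)
      have h2 := h.1
      rcases List.mem_cons.mp hz with h3 | h3
      · omega
      · have := hS.lt z h3; omega

lemma shape_le_aux {n : ℕ} {T : List (List ℕ)} (hT : Tab T) : ∀ (a : ℕ), (∀ z ∈ T.headD [], a < z) →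
    (∀ z ∈ word T, z + 1 ≤ n) → ∀ i, shp T i ≤ n - 1 - a - i := by
  induction T with
  | nil => intro a _ _ i; simp [shp]
  | cons R T ih =>
    intro a h1 h2 i
    obtain ⟨t1, t2, t3, t4⟩ := hT
    have hw : word (R :: T) = word T ++ R := rfl
    cases i with
    | zero =>
      rw [shp_cons_zero]
      apply inc_length_le t2 (a := a)
      intro z hz
      have h3 := h1 z (by simpa using hz)
      have h4 := h2 z (by rw [hw]; simp [hz])
      omega
    | succ i =>
      rw [shp_cons_succ]
      have := ih t4 (a + 1) (above_gt t4.inc_head t3 (by simpa using h1))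
        (fun z hz => h2 z (by rw [hw]; simp [hz])) i
      omega

lemma shape_le {n : ℕ} {T : List (List ℕ)} (hT : Tab T) (h : ∀ j ∈ word T, 1 ≤ j ∧ j + 1 ≤ n)
    (i : ℕ) : shp T i ≤ n - 1 - i := by
  have := shape_le_aux hT 0 (n := n) ?_ (fun z hz => (h z hz).2) i
  · omega
  · intro z hz
    cases T with
    | nil => simp at hz
    | cons R T =>
      have : z ∈ word (R :: T) := by
        show z ∈ word T ++ R
        simp only [List.headD_cons] at hz
        simp [hz]
      have := (h z this).1
      omega

/-- the full tableau with rows `(a+1, ..., a+k), (a+2, ..., a+k), ...` -/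
def stT : ℕ → ℕ → List (List ℕ)
  | _, 0 => []
  | a, k + 1 => List.range' (a + 1) (k + 1) :: stT (a + 1) k

lemma full_aux {T : List (List ℕ)} (hT : Tab T) : ∀ (k a : ℕ), (∀ z ∈ T.headD [], a < z) →
    (∀ z ∈ word T, z ≤ a + k) → (word T).length ≤ (k + 1).choose 2 ∧
      ((word T).length = (k + 1).choose 2 → T = stT a k) := by
  induction T with
  | nil =>
    intro k a _ _
    refine ⟨by simp [word], fun h => ?_⟩
    cases k with
    | zero => rfl
    | succ k =>
      exfalso
      have h1 : 0 < (k + 1 + 1).choose 2 := Nat.choose_pos (by omega)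
      simp [word] at h
      omega
  | cons R T ih =>
    intro k a h1 h2
    obtain ⟨t1, t2, t3, t4⟩ := hT
    have hw : word (R :: T) = word T ++ R := rfl
    have hent : ∀ z ∈ R, a < z ∧ z ≤ a + k := fun z hz =>
      ⟨h1 z (by simpa using hz), h2 z (by rw [hw]; simp [hz])⟩
    have hlen := inc_length_le t2 hent
    have hpos : 0 < R.length := List.length_pos_iff.mpr t1
    obtain ⟨k, rfl⟩ : ∃ k', k = k' + 1 := ⟨k - 1, by omega⟩
    obtain ⟨i1, i2⟩ := ih t4 k (a + 1) (above_gt t4.inc_head t3 (by simpa using h1))
      (fun z hz => by have := h2 z (by rw [hw]; simp [hz]); omega)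
    have hc : (k + 1 + 1).choose 2 = (k + 1) + (k + 1).choose 2 := by
      rw [Nat.choose_succ_succ' (k + 1) 1, Nat.choose_one_right]
    rw [hw, List.length_append, hc]
    refine ⟨by omega, fun h => ?_⟩
    have h3 : R = List.range' (a + 1) (k + 1) := inc_eq_range t2 hent (by omega)
    have h4 := i2 (by omega)
    show R :: T = List.range' (a + 1) (k + 1) :: stT (a + 1) k
    rw [h3, h4]

lemma shp_stT : ∀ (k a i : ℕ), shp (stT a k) i = k - i := by
  intro k
  induction k with
  | zero => intro _ i; simp [stT, shp]
  | succ k ih =>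
    intro a i
    cases i with
    | zero => rw [stT, shp_cons_zero]; simp
    | succ i => rw [stT, shp_cons_succ, ih]; omega

/-- the words with insertion tableau `T` -/
def Fib (n : ℕ) (T : List (List ℕ)) : Set (List ℕ) := {a | Red n a ∧ tab a = T}

lemma fib_length {n : ℕ} {T : List (List ℕ)} {a : List ℕ} (h : a ∈ Fib n T) :
    a.length = (word T).length := by
  rw [← h.2, (tab_spec h.1).2.2.1]

lemma fib_finite (n : ℕ) (T : List (List ℕ)) : (Fib n T).Finite :=
  (A_finite n (word T).length).subset fun a ha => ⟨fib_length ha, ha.1.1⟩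

/-- the last step of the insertion -/
lemma step {n ℓ : ℕ} {T : List (List ℕ)} (hT : Tab T) (hr : Red n (word T))
    (hl : (word T).length = ℓ + 1) :
    ∃ Tp : ℕ → List (List ℕ), (∀ i ∈ corners n (shp T), Tab (Tp i) ∧ Red n (word (Tp i)) ∧
        (word (Tp i)).length = ℓ ∧ shp (Tp i) = dec (shp T) i) ∧
      ∀ Q : List ℕ → Prop, ({a | a ∈ Fib n T ∧ Q a.dropLast} : Set (List ℕ)).ncard =
        ∑ i ∈ corners n (shp T), ({a | a ∈ Fib n (Tp i) ∧ Q a} : Set (List ℕ)).ncard := by
  classical
  have hex : ∀ i : ℕ, ∃ p : List (List ℕ) × ℕ, i ∈ corners n (shp T) →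
      Tab p.1 ∧ Red n (word p.1 ++ [p.2]) ∧ insT p.1 p.2 = T ∧ idx p.1 p.2 = i := by
    intro i
    by_cases hi : i ∈ corners n (shp T)
    · obtain ⟨T', x, h⟩ := exists_insT hT hr i (mem_filter.mp hi).2
      exact ⟨(T', x), fun _ => h⟩
    · exact ⟨([], 0), fun h => absurd h hi⟩
  choose p hp using hex
  have hshape : ∀ T' x, Tab T' → Red n (word T' ++ [x]) → insT T' x = T →
      idx T' x ∈ corners n (shp T) ∧ (word T').length = ℓ ∧ shp T' = dec (shp T) (idx T' x) := by
    intro T' x h1 h2 h3
    obtain ⟨s1, s2, s3, s4, s5⟩ := insT_spec h1 h2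
    rw [h3] at s1 s2 s3 s4 s5
    have hi1 : shp T (idx T' x + 1) = shp T' (idx T' x + 1) := by
      rw [s5, Function.update_of_ne (by omega)]
    have hi2 : shp T (idx T' x) = shp T' (idx T' x) + 1 := by rw [s5, Function.update_self]
    have hi3 := h1.anti_succ (idx T' x)
    refine ⟨?_, by omega, ?_⟩
    · rw [corners, mem_filter, mem_range]
      refine ⟨?_, by omega⟩
      have := shape_le hT hr.1 (idx T' x)
      omega
    · funext j
      by_cases hj : j = idx T' x
      · subst hj; rw [dec, Function.update_self]; omega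
      · rw [dec, Function.update_of_ne hj, s5, Function.update_of_ne hj]
  refine ⟨fun i => (p i).1, ?_, ?_⟩
  · intro i hi
    obtain ⟨h1, h2, h3, h4⟩ := hp i hi
    obtain ⟨k1, k2, k3⟩ := hshape _ _ h1 h2 h3
    rw [h4] at k3
    exact ⟨h1, h2.left, k2, k3⟩
  · intro Q
    have hset : ({a | a ∈ Fib n T ∧ Q a.dropLast} : Set (List ℕ)) =
        ⋃ i ∈ corners n (shp T), (fun a => a ++ [(p i).2]) '' {a | a ∈ Fib n (p i).1 ∧ Q a} := by
      ext a
      simp only [Set.mem_ofPred_eq, Set.mem_iUnion, Set.mem_image, exists_prop]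
      constructor
      · rintro ⟨⟨ha1, ha2⟩, ha3⟩
        have hne : a ≠ [] := by
          rintro rfl
          rw [tab_nil] at ha2
          rw [← ha2] at hl
          simp [word] at hl
        obtain ⟨a', x, rfl⟩ : ∃ a' x, a = a' ++ [x] := ⟨a.dropLast, a.getLast hne,
          (List.dropLast_append_getLast hne).symm⟩
        rw [List.dropLast_concat] at ha3
        rw [tab_append] at ha2
        obtain ⟨b1, b2, b3, b4⟩ := tab_spec ha1.left
        have hr' : Red n (word (tab a') ++ [x]) := by
          apply ha1.congr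
          · intro j hj
            rw [List.mem_append] at hj
            rcases hj with hj | hj
            · exact ha1.1 j (by simp [b4 j hj])
            · exact ha1.1 j (by rw [List.mem_append]; exact Or.inr hj)
          · rw [P_append, P_append, b2]
          · simp [b3]
        obtain ⟨c1, c2, c3⟩ := hshape _ _ b1 hr' ha2
        obtain ⟨h1, h2, h3, h4⟩ := hp _ c1
        obtain ⟨d1, d2⟩ := insT_inj b1 h1 hr' h2 (ha2.trans h3.symm) h4.symm
        refine ⟨idx (tab a') x, c1, a', ⟨⟨ha1.left, d1⟩, ha3⟩, ?_⟩
        rw [← d2]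
      · rintro ⟨i, hi, a', ⟨⟨ha1, ha2⟩, ha3⟩, rfl⟩
        obtain ⟨h1, h2, h3, h4⟩ := hp i hi
        obtain ⟨b1, b2, b3, b4⟩ := tab_spec ha1
        rw [ha2] at b1 b2 b3 b4
        have hr' : Red n (a' ++ [(p i).2]) := by
          apply h2.congr
          · intro j hj
            rw [List.mem_append] at hj
            rcases hj with hj | hj
            · exact ha1.1 j hj
            · exact h2.1 j (by rw [List.mem_append]; exact Or.inr hj)
          · rw [P_append, P_append, b2]
          · simp [b3]
        refine ⟨⟨hr', ?_⟩, ?_⟩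
        · rw [tab_append, ha2, h3]
        · rw [List.dropLast_concat]; exact ha3
    have hdisj : (corners n (shp T) : Set ℕ).PairwiseDisjoint (fun i =>
        (fun a => a ++ [(p i).2]) '' {a | a ∈ Fib n (p i).1 ∧ Q a}) := by
      intro i hi j hj hij
      rw [Function.onFun, Set.disjoint_left]
      rintro _ ⟨a, ⟨⟨_, ha⟩, _⟩, rfl⟩ ⟨b, ⟨⟨_, hb⟩, _⟩, hab⟩
      have := List.append_inj' hab rfl
      simp only [List.cons.injEq, and_true] at this
      apply hij
      have e1 : (p i).1 = (p j).1 := by rw [← ha, ← hb, this.1]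
      rw [← (hp i hi).2.2.2, ← (hp j hj).2.2.2, e1, this.2]
    have hfin : ∀ i ∈ corners n (shp T),
        ((fun a => a ++ [(p i).2]) '' {a | a ∈ Fib n (p i).1 ∧ Q a}).Finite := fun i _ =>
      ((fib_finite n (p i).1).subset fun a ha => ha.1).image _
    rw [hset]
    have key : ∀ (s : Finset ℕ) (f : ℕ → Set (List ℕ)), (∀ i ∈ s, (f i).Finite) →
        (s : Set ℕ).PairwiseDisjoint f → (⋃ i ∈ s, f i).ncard = ∑ i ∈ s, (f i).ncard := by
      intro s f
      induction s using Finset.induction_on with
      | empty => intro _ _; simp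
      | insert a s ha ih =>
        intro h1 h2
        have f1 : (f a).Finite := h1 a (by simp)
        have f2 : (⋃ i ∈ s, f i).Finite :=
          Set.Finite.biUnion (Finset.finite_toSet s) (fun i hi => h1 i (by simp at hi; simp [hi]))
        have f3 : Disjoint (f a) (⋃ i ∈ s, f i) := by
          rw [Set.disjoint_iUnion₂_right]
          intro i hi
          exact h2 (by simp) (by simp [hi]) (by rintro rfl; exact ha hi)
        rw [Finset.sum_insert ha, Finset.set_biUnion_insert, Set.ncard_union_eq f3 f1 f2,
          ih (fun i hi => h1 i (by simp [hi])) (h2.subset (by simp))]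
    rw [key _ _ hfin hdisj]
    refine Finset.sum_congr rfl fun i _ => ?_
    rw [Set.ncard_image_of_injective]
    intro a b hab
    exact (List.append_inj' hab rfl).1

lemma tab_eq_nil {T : List (List ℕ)} (hT : Tab T) (h : (word T).length = 0) : T = [] := by
  cases T with
  | nil => rfl
  | cons R T =>
    exfalso
    have h1 : (word T ++ R).length = 0 := h
    rw [List.length_append] at h1
    exact hT.1 (List.length_eq_zero_iff.mp (by omega))

theorem fib_card {n : ℕ} : ∀ (ℓ : ℕ) {T : List (List ℕ)}, Tab T → Red n (word T) →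
    (word T).length = ℓ → (Fib n T).ncard = F n ℓ (shp T) := by
  intro ℓ
  induction ℓ with
  | zero =>
    intro T hT hr hl
    have := tab_eq_nil hT hl
    subst this
    have : Fib n [] = {[]} := by
      ext a
      rw [Set.mem_singleton_iff]
      constructor
      · intro ha
        have := fib_length ha
        simp only [word, List.length_nil] at this
        exact List.length_eq_zero_iff.mp this
      · rintro rfl
        exact ⟨hr, rfl⟩
    rw [this, Set.ncard_singleton, F]
  | succ ℓ ih =>
    intro T hT hr hl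
    obtain ⟨Tp, h1, h2⟩ := step hT hr hl
    have := h2 (fun _ => True)
    simp only [and_true, Set.ofPred_mem_eq] at this
    rw [this, F]
    refine Finset.sum_congr rfl fun i hi => ?_
    obtain ⟨a1, a2, a3, a4⟩ := h1 i hi
    rw [ih a1 a2 a3, a4]

theorem fib_card_A {n M K : ℕ} : ∀ (s : ℕ) {k : ℕ} {T : List (List ℕ)}, Tab T → Red n (word T) →
    (word T).length = s + k →
    ({a | a ∈ Fib n T ∧ K ≤ shp (tab (a.take k)) (M - 1)} : Set (List ℕ)).ncard =
      A n M K s k (shp T) := by
  intro s
  induction s with
  | zero =>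
    intro k T hT hr hl
    have e : ∀ a ∈ Fib n T, shp (tab (a.take k)) (M - 1) = shp T (M - 1) := by
      intro a ha
      rw [List.take_of_length_le (by rw [fib_length ha]; omega), ha.2]
    rw [A]
    split_ifs with h
    · rw [← fib_card k hT hr (by omega)]
      congr 1
      ext a
      constructor
      · exact fun h => h.1
      · intro ha; exact ⟨ha, by rw [e a ha]; exact h⟩
    · rw [Set.ncard_eq_zero ((fib_finite n T).subset fun a ha => ha.1)]
      ext a
      simp only [Set.mem_ofPred_eq, Set.mem_empty_iff_false, iff_false, not_and]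
      intro ha
      rw [e a ha]; exact h
  | succ s ih =>
    intro k T hT hr hl
    obtain ⟨Tp, h1, h2⟩ := step hT hr (ℓ := s + k) (by omega)
    have h3 := h2 (fun a => K ≤ shp (tab (a.take k)) (M - 1))
    have h4 : ({a | a ∈ Fib n T ∧ K ≤ shp (tab (a.take k)) (M - 1)} : Set (List ℕ)) =
        {a | a ∈ Fib n T ∧ K ≤ shp (tab (a.dropLast.take k)) (M - 1)} := by
      ext a
      simp only [Set.mem_ofPred_eq]
      refine and_congr_right fun ha => ?_
      have hlen := fib_length ha
      rw [List.dropLast_eq_take, List.take_take, min_eq_left (by omega)]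
    rw [h4, h3, A]
    refine Finset.sum_congr rfl fun i hi => ?_
    obtain ⟨a1, a2, a3, a4⟩ := h1 i hi
    rw [ih a1 a2 a3, a4]

end Pool.Agent.SNL63
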