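import Pool.Agent.SNL63.EnDefs
import Pool.Agent.SNL63.ArchRot
import Pool.Agent.SNL63.ArchInv

/-!
The energy at one fixed time is controlled by a neighbourhood of the Archimedean path.
-/

namespace Pool.Agent.SNL63

open Pool.Agent.SN8 MeasureTheory Set Filter Topology
open scoped ENNReal Real

/-- the truncated square of the displacement -/
noncomputable def tsq : BoundedContinuousFunction (ℝ × ℝ) ℝ :=
  BoundedContinuousFunction.ofNormedAddCommGroup (fun p => min ((p.1 - p.2) ^ 2) 4) (by fun_prop) 4 (by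
    intro p
    rw [Real.norm_eq_abs, abs_of_nonneg (le_min (sq_nonneg _) (by norm_num))]
    exact min_le_right _ _)

theorem tsq_apply (p : ℝ × ℝ) : tsq p = min ((p.1 - p.2) ^ 2) 4 := rfl

theorem isOpen_tsq (c : ℝ) : IsOpen {μ : ProbabilityMeasure (ℝ × ℝ) | ∫ p, tsq p ∂(μ : Measure (ℝ × ℝ)) < c} :=
  _root_.isOpen_lt (ProbabilityMeasure.continuous_integral_boundedContinuousFunction tsq) continuous_const

theorem isOpen_Iv_gt (c : ℝ≥0∞) : IsOpen {μ : ProbabilityMeasure (ℝ × ℝ) |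
    c < ((μ : Measure (ℝ × ℝ)).prod (μ : Measure (ℝ × ℝ))) Iv} := by
  rw [isOpen_iff_eventually]
  intro μ hμ
  have h1 : Tendsto (fun ν : ProbabilityMeasure (ℝ × ℝ) => ν.prod ν) (𝓝 μ) (𝓝 (μ.prod μ)) :=
    (ProbabilityMeasure.continuous_prod.tendsto (μ, μ)).comp (tendsto_id.prodMk_nhds tendsto_id)
  have h2 := ProbabilityMeasure.le_liminf_measure_open_of_tendsto h1 isOpen_Iv
  simp only [ProbabilityMeasure.toMeasure_prod] at h2
  exact eventually_lt_of_lt_liminf (lt_of_lt_of_le hμ h2)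

theorem arch_ae (s : ℝ) : ∀ᵐ p ∂(arch s), (p.1 - p.2) ^ 2 ≤ 4 := by
  rw [arch, ae_map_iff (measurable_archMap s).aemeasurable (measurableSet_le (by fun_prop) measurable_const)]
  rw [archHalf, ae_withDensity_iff measurable_archDensity]
  refine Eventually.of_forall fun p hp => ?_
  have h1 : p.1 ^ 2 + p.2 ^ 2 < 1 := by
    by_contra h
    exact hp (if_neg h)
  have h2 := Real.sin_sq_add_cos_sq (π * s)
  have h3 := Real.neg_one_le_cos (π * s)
  have h4 := Real.cos_le_one (π * s)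
  show (p.1 - (p.1 * Real.cos (π * s) + p.2 * Real.sin (π * s))) ^ 2 ≤ 4
  generalize Real.cos (π * s) = c at *
  generalize Real.sin (π * s) = d at *
  have h5 : (p.1 - (p.1 * c + p.2 * d)) ^ 2 + (p.1 * d + p.2 * (1 - c)) ^ 2 =
      (p.1 ^ 2 + p.2 ^ 2) * (2 - 2 * c) := by
    have : d ^ 2 = 1 - c ^ 2 := by linarith
    linear_combination (p.1 ^ 2 + p.2 ^ 2) * this
  have h6 : (p.1 ^ 2 + p.2 ^ 2) * (2 - 2 * c) ≤ 1 * (2 - 2 * c) :=
    mul_le_mul_of_nonneg_right h1.le (by linarith)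
  nlinarith [sq_nonneg (p.1 * d + p.2 * (1 - c))]

theorem eta_ae {n : ℕ} {k : List ℕ} (hk : IsNetwork n k) (t : ℝ) : ∀ᵐ p ∂(eta n k t), (p.1 - p.2) ^ 2 ≤ 4 := by
  have h1 : ∀ᵐ p ∂(eta n k t), p ∈ Sq := by
    rw [ae_iff]
    exact eta_Sq_compl hk t
  filter_upwards [h1] with p hp
  obtain ⟨⟨h2, h3⟩, h4, h5⟩ := hp
  nlinarith

theorem eta_Iv_le {n : ℕ} (hn : 2 ≤ n) {k : List ℕ} (hk : IsNetwork n k) {t : ℝ} (ht : t ∈ Icc (0 : ℝ) 1) :
    ((eta n k t).prod (eta n k t)) Iv ≤ ENNReal.ofReal t := by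
  rw [eta_prod_Iv (by omega) hk ht.2]
  apply ENNReal.ofReal_le_ofReal
  have hn0 : (0 : ℝ) < n := by
    have : 0 < n := by omega
    exact_mod_cast this
  rw [div_le_iff₀ (by positivity)]
  have h1 : (⌊(n.choose 2 : ℝ) * t⌋₊ : ℝ) ≤ (n.choose 2 : ℝ) * t :=
    Nat.floor_le (mul_nonneg (Nat.cast_nonneg _) ht.1)
  have h2 : (n.choose 2 : ℝ) = n * (n - 1) / 2 := Nat.cast_choose_two ℝ n
  have h5 : (n.choose 2 : ℝ) * t = n * (n - 1) / 2 * t := by rw [h2]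
  have h3 := ht.1
  have h4 : 0 ≤ t * n := by positivity
  nlinarith

/-- the converse, from the energy and the number of inversions of the Archimedean measures -/
theorem converse_of (hen : ∀ s : ℝ, ∫ p, (p.1 - p.2) ^ 2 ∂(arch s) = 2 / 3 * (1 - Real.cos (π * s)))
    (hinv : ∀ s ∈ Icc (0 : ℝ) 1, ((arch s).prod (arch s)) Iv = ENNReal.ofReal s)
    {ε t : ℝ} (hε : 0 < ε) (ht : t ∈ Ioc (0 : ℝ) 1) :
    ∃ U : Set (ProbabilityMeasure (ℝ × ℝ)), IsOpen U ∧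
      (∀ s ∈ Icc (0 : ℝ) 1, ∃ μ ∈ U, (μ : Measure (ℝ × ℝ)) = arch s) ∧
      ∀ n : ℕ, 2 ≤ n → prob n (fun k => (π ^ 2 / 3 + ε) * t ^ 2 < ∫ p, (p.1 - p.2) ^ 2 ∂(eta n k t)) ≤
        prob n (Leaves n U) := by
  refine ⟨{μ | ∫ p, tsq p ∂(μ : Measure (ℝ × ℝ)) < (π ^ 2 / 3 + ε) * t ^ 2} ∪
    {μ | ENNReal.ofReal t < ((μ : Measure (ℝ × ℝ)).prod (μ : Measure (ℝ × ℝ))) Iv},
    (isOpen_tsq _).union (isOpen_Iv_gt _), ?_, ?_⟩
  · intro s hs
    refine ⟨⟨arch s, inferInstance⟩, ?_, rfl⟩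
    rcases le_or_gt s t with h | h
    · left
      show ∫ p, tsq p ∂(arch s) < _
      have h1 : ∫ p, tsq p ∂(arch s) = ∫ p, (p.1 - p.2) ^ 2 ∂(arch s) := by
        refine integral_congr_ae ?_
        filter_upwards [arch_ae s] with p hp
        rw [tsq_apply, min_eq_left hp]
      rw [h1, hen]
      have h2 := Real.one_sub_sq_div_two_le_cos (x := π * s)
      have h3 : s ^ 2 ≤ t ^ 2 := pow_le_pow_left₀ hs.1 h 2
      have h4 : π ^ 2 * s ^ 2 ≤ π ^ 2 * t ^ 2 := mul_le_mul_of_nonneg_left h3 (sq_nonneg _)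
      have h5 : 0 < ε * t ^ 2 := mul_pos hε (pow_pos ht.1 2)
      nlinarith
    · right
      show ENNReal.ofReal t < ((arch s).prod (arch s)) Iv
      rw [hinv s hs]
      exact (ENNReal.ofReal_lt_ofReal_iff (ht.1.trans h)).2 h
  · intro n hn
    refine prob_mono fun k hk h => ⟨t, ⟨ht.1.le, ht.2⟩, fun μ hμ he => ?_⟩
    rcases hμ with hμ | hμ
    · have h1 : ∫ p, tsq p ∂(eta n k t) = ∫ p, (p.1 - p.2) ^ 2 ∂(eta n k t) := by
        refine integral_congr_ae ?_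
        filter_upwards [eta_ae hk t] with p hp
        rw [tsq_apply, min_eq_left hp]
      have h2 : ∫ p, tsq p ∂(μ : Measure (ℝ × ℝ)) < (π ^ 2 / 3 + ε) * t ^ 2 := hμ
      rw [he, h1] at h2
      exact absurd h2 (not_lt.2 h.le)
    · have h2 : ENNReal.ofReal t < ((μ : Measure (ℝ × ℝ)).prod (μ : Measure (ℝ × ℝ))) Iv := hμ
      rw [he] at h2
      exact absurd h2 (not_lt.2 (eta_Iv_le hn hk ⟨ht.1.le, ht.2⟩))

theorem converse {ε t : ℝ} (hε : 0 < ε) (ht : t ∈ Ioc (0 : ℝ) 1) :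
    ∃ U : Set (ProbabilityMeasure (ℝ × ℝ)), IsOpen U ∧
      (∀ s ∈ Icc (0 : ℝ) 1, ∃ μ ∈ U, (μ : Measure (ℝ × ℝ)) = arch s) ∧
      ∀ n : ℕ, 2 ≤ n → prob n (fun k => (π ^ 2 / 3 + ε) * t ^ 2 < ∫ p, (p.1 - p.2) ^ 2 ∂(eta n k t)) ≤
        prob n (Leaves n U) :=
  converse_of arch_energy (fun _ hs => arch_inv hs) hε ht

end Pool.Agent.SNL63
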