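import Pool.Agent.SNL63.EnAlg

/-!
A union over the permutations costs only the factor `n ^ n`.
-/

namespace Pool.Agent.SNL63

open Pool.Agent.SN8 MeasureTheory Set Filter Topology
open scoped ENNReal Real

theorem en_prob_exists {β : Type*} (n : ℕ) (S : Finset β) (E : β → List ℕ → Prop) :
    prob n (fun k => ∃ b ∈ S, E b k) ≤ ∑ b ∈ S, prob n (E b) := by
  classical
  induction S using Finset.induction_on with
  | empty =>
    rw [Finset.sum_empty]
    have : prob n (fun k => ∃ b ∈ (∅ : Finset β), E b k) = 0 := by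
      simp [prob]
    exact this.le
  | insert b S hb ih =>
    rw [Finset.sum_insert hb]
    refine le_trans (prob_mono (E' := fun k => E b k ∨ ∃ b ∈ S, E b k) ?_)
      ((prob_or_le n (E b) (fun k => ∃ b ∈ S, E b k)).trans (add_le_add_right ih _))
    rintro k _ ⟨c, hc, h⟩
    rcases Finset.mem_insert.1 hc with rfl | hc
    · exact Or.inl h
    · exact Or.inr ⟨c, hc, h⟩

theorem perm_union {n : ℕ} (m : ℕ) {Q : (ℕ → ℕ) → Prop} {B : ℝ} (hB0 : 0 ≤ B)
    (hB : ∀ w : ℕ → ℕ, Q w → prob n (fun k => ∀ x ∈ Finset.Icc 1 n, place (k.take m) x = w x) ≤ B)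
    (hQ : ∀ w w' : ℕ → ℕ, (∀ x ∈ Finset.Icc 1 n, w x = w' x) → Q w → Q w') :
    prob n (fun k => Q (fun x => place (k.take m) x)) ≤ (n : ℝ) ^ n * B := by
  classical
  obtain ⟨ext, hext⟩ : ∃ ext : (Fin n → ℕ) → ℕ → ℕ, ext = fun f x =>
    if h : 1 ≤ x ∧ x ≤ n then f ⟨x - 1, by omega⟩ else 0 := ⟨_, rfl⟩
  obtain ⟨S, hS⟩ : ∃ S : Finset (Fin n → ℕ), S = (Fintype.piFinset fun _ : Fin n => Finset.Icc 1 n).filter
    fun f => Q (ext f) := ⟨_, rfl⟩
  have hcard : (S.card : ℝ) ≤ (n : ℝ) ^ n := by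
    have h1 : S.card ≤ n ^ n := by
      rw [hS]
      refine (Finset.card_filter_le _ _).trans (le_of_eq ?_)
      simp
    exact_mod_cast h1
  have h1 : prob n (fun k => Q (fun x => place (k.take m) x)) ≤
      prob n (fun k => ∃ f ∈ S, ∀ x ∈ Finset.Icc 1 n, place (k.take m) x = ext f x) := by
    refine prob_mono fun k hk hq => ?_
    have hsupp : Supp n (P (k.take m)) := Supp.P fun a ha => hk.2.1 a (List.mem_of_mem_take ha)
    have hmem : ∀ x ∈ Finset.Icc 1 n, place (k.take m) x ∈ Finset.Icc 1 n := by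
      intro x hx
      rw [Finset.mem_Icc] at hx ⊢
      rw [place_eq]
      exact hsupp.inv.mem hx.1 hx.2
    have hval : ∀ x ∈ Finset.Icc 1 n, place (k.take m) x =
        ext (fun y : Fin n => place (k.take m) ((y : ℕ) + 1)) x := by
      intro x hx
      rw [Finset.mem_Icc] at hx
      rw [hext]
      simp only [hx.1, hx.2, and_self, dite_true]
      congr 1
      omega
    refine ⟨fun y => place (k.take m) ((y : ℕ) + 1), ?_, hval⟩
    rw [hS, Finset.mem_filter, Fintype.mem_piFinset]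
    refine ⟨fun y => hmem _ ?_, hQ _ _ hval hq⟩
    rw [Finset.mem_Icc]
    have := y.2
    omega
  refine h1.trans ((en_prob_exists n S _).trans ?_)
  have h2 : ∑ f ∈ S, prob n (fun k => ∀ x ∈ Finset.Icc 1 n, place (k.take m) x = ext f x) ≤
      ∑ _f ∈ S, B := by
    refine Finset.sum_le_sum fun f hf => hB _ ?_
    rw [hS, Finset.mem_filter] at hf
    exact hf.2
  refine h2.trans ?_
  rw [Finset.sum_const, nsmul_eq_mul]
  exact mul_le_mul_of_nonneg_right hcard hB0

/-- the energy of a permutation -/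
theorem EE_zero {n : ℕ} (k : List ℕ) (m : ℕ) :
    EE n k 0 m = 4 / (n : ℝ) ^ 3 * ∑ x ∈ Finset.Icc 1 n, ((place (k.take m) x : ℝ) - x) ^ 2 := by
  unfold EE pos
  rw [Finset.mul_sum, Finset.sum_div]
  refine Finset.sum_congr rfl fun x _ => ?_
  rw [List.take_zero, place_nil]
  rcases Nat.eq_zero_or_pos n with rfl | hn
  · simp
  · have : (n : ℝ) ≠ 0 := by positivity
    field_simp
    ring

end Pool.Agent.SNL63
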