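import Pool.Agent.SNL63.EnMain
import Pool.Agent.SNL63.EnPerm

/-!
# The energy criterion
-/

namespace Pool.Agent.SNL63

open Pool.Agent.SN8 MeasureTheory Set Filter Topology
open scoped ENNReal Real NNReal

/-- a factor `n ^ 2` costs only the constants -/
theorem exp_of_sq {f g : ℕ → ℝ} (hf : ∀ n, f n ≤ 1) {n₀ : ℕ} (h : ∀ n ≥ n₀, f n ≤ (n : ℝ) ^ 2 * g n)
    (hg : ∃ c₁ > (0 : ℝ), ∃ c₂ > (0 : ℝ), ∀ n : ℕ, 2 ≤ n → g n ≤ c₁ * Real.exp (-c₂ * (n : ℝ) ^ 2)) :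
    ∃ c₁ > (0 : ℝ), ∃ c₂ > (0 : ℝ), ∀ n : ℕ, 2 ≤ n → f n ≤ c₁ * Real.exp (-c₂ * (n : ℝ) ^ 2) := by
  obtain ⟨c₁, hc₁, c₂, hc₂, hg⟩ := hg
  refine const_of_ge (n₀ := max 2 n₀) hf (c₁ := 2 / c₂ * c₁) (c₂ := c₂ / 2) (by positivity) (by positivity)
    fun n hn => ?_
  have hn2 : 2 ≤ n := (le_max_left _ _).trans hn
  refine (h n ((le_max_right _ _).trans hn)).trans ?_
  have h1 : (n : ℝ) ^ 2 * g n ≤ (n : ℝ) ^ 2 * (c₁ * Real.exp (-c₂ * (n : ℝ) ^ 2)) :=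
    mul_le_mul_of_nonneg_left (hg n hn2) (by positivity)
  refine h1.trans ?_
  have h2 : c₂ / 2 * (n : ℝ) ^ 2 ≤ Real.exp (c₂ / 2 * (n : ℝ) ^ 2) := by
    have := Real.add_one_le_exp (c₂ / 2 * (n : ℝ) ^ 2)
    linarith
  have h3 : (n : ℝ) ^ 2 ≤ 2 / c₂ * Real.exp (c₂ / 2 * (n : ℝ) ^ 2) := by
    have h4 : (n : ℝ) ^ 2 = 2 / c₂ * (c₂ / 2 * (n : ℝ) ^ 2) := by field_simp
    rw [h4]
    have h5 := mul_le_mul_of_nonneg_left h2 (show (0 : ℝ) ≤ 2 / c₂ by positivity)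
    rw [← h4]
    linarith
  have h4 : Real.exp (-c₂ * (n : ℝ) ^ 2) = Real.exp (-(c₂ / 2) * (n : ℝ) ^ 2) * Real.exp (-(c₂ / 2) * (n : ℝ) ^ 2) := by
    rw [← Real.exp_add]
    congr 1
    ring
  have h5 : Real.exp (c₂ / 2 * (n : ℝ) ^ 2) * Real.exp (-(c₂ / 2) * (n : ℝ) ^ 2) = 1 := by
    rw [← Real.exp_add, ← Real.exp_zero]
    congr 1
    ring
  rw [h4]
  have h6 : (0 : ℝ) < Real.exp (-(c₂ / 2) * (n : ℝ) ^ 2) := Real.exp_pos _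
  calc (n : ℝ) ^ 2 * (c₁ * (Real.exp (-(c₂ / 2) * (n : ℝ) ^ 2) * Real.exp (-(c₂ / 2) * (n : ℝ) ^ 2)))
      ≤ (2 / c₂ * Real.exp (c₂ / 2 * (n : ℝ) ^ 2)) *
        (c₁ * (Real.exp (-(c₂ / 2) * (n : ℝ) ^ 2) * Real.exp (-(c₂ / 2) * (n : ℝ) ^ 2))) :=
        mul_le_mul_of_nonneg_right h3 (by positivity)
    _ = 2 / c₂ * c₁ * Real.exp (-(c₂ / 2) * (n : ℝ) ^ 2) *
        (Real.exp (c₂ / 2 * (n : ℝ) ^ 2) * Real.exp (-(c₂ / 2) * (n : ℝ) ^ 2)) := by ring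
    _ = 2 / c₂ * c₁ * Real.exp (-(c₂ / 2) * (n : ℝ) ^ 2) := by rw [h5, mul_one]

/-- a factor `n ^ n` costs only the constants -/
theorem exp_of_pow {f g : ℕ → ℝ} (hf : ∀ n, f n ≤ 1) {n₀ : ℕ} (h : ∀ n ≥ n₀, f n ≤ (n : ℝ) ^ n * g n)
    (hg : ∃ c₁ > (0 : ℝ), ∃ c₂ > (0 : ℝ), ∀ n : ℕ, 2 ≤ n → g n ≤ c₁ * Real.exp (-c₂ * (n : ℝ) ^ 2)) :
    ∃ c₁ > (0 : ℝ), ∃ c₂ > (0 : ℝ), ∀ n : ℕ, 2 ≤ n → f n ≤ c₁ * Real.exp (-c₂ * (n : ℝ) ^ 2) := by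
  obtain ⟨c₁, hc₁, c₂, hc₂, hg⟩ := hg
  -- `log n ≤ c₂ n / 2` for large `n`
  have hlog : ∀ᶠ n : ℕ in atTop, Real.log n ≤ c₂ / 2 * n := by
    have h1 : (fun x : ℝ => Real.log x) =o[atTop] fun x => x := Real.isLittleO_log_id_atTop
    have h2 := (h1.bound (show 0 < c₂ / 2 by positivity))
    have h3 := tendsto_natCast_atTop_atTop (R := ℝ) |>.eventually h2
    filter_upwards [h3, eventually_ge_atTop 1] with n hn hn1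
    have hn1' : (1 : ℝ) ≤ n := by exact_mod_cast hn1
    rw [Real.norm_of_nonneg (Real.log_nonneg hn1'), Real.norm_of_nonneg (by positivity)] at hn
    exact hn
  obtain ⟨n₁, hn₁⟩ := eventually_atTop.1 hlog
  refine const_of_ge (n₀ := max 2 (max n₀ n₁)) hf (c₁ := c₁) (c₂ := c₂ / 2) hc₁ (by positivity)
    fun n hn => ?_
  have hn2 : 2 ≤ n := (le_max_left _ _).trans hn
  have hn0 : n₀ ≤ n := (le_max_left _ _).trans ((le_max_right _ _).trans hn)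
  have hn1 : n₁ ≤ n := (le_max_right _ _).trans ((le_max_right _ _).trans hn)
  have hnpos : (0 : ℝ) < n := by
    have : 0 < n := by omega
    exact_mod_cast this
  refine (h n hn0).trans ((mul_le_mul_of_nonneg_left (hg n hn2) (by positivity)).trans ?_)
  have h1 : (n : ℝ) ^ n ≤ Real.exp (c₂ / 2 * (n : ℝ) ^ 2) := by
    rw [← Real.exp_log (show (0 : ℝ) < (n : ℝ) ^ n by positivity), Real.log_pow]
    apply Real.exp_le_exp.2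
    have := mul_le_mul_of_nonneg_left (hn₁ n hn1) hnpos.le
    nlinarith
  have h2 : Real.exp (-(c₂ / 2) * (n : ℝ) ^ 2) =
      Real.exp (c₂ / 2 * (n : ℝ) ^ 2) * Real.exp (-c₂ * (n : ℝ) ^ 2) := by
    rw [← Real.exp_add]
    congr 1
    ring
  rw [h2]
  have h3 : (0 : ℝ) < Real.exp (-c₂ * (n : ℝ) ^ 2) := Real.exp_pos _
  calc (n : ℝ) ^ n * (c₁ * Real.exp (-c₂ * (n : ℝ) ^ 2))
      = c₁ * ((n : ℝ) ^ n * Real.exp (-c₂ * (n : ℝ) ^ 2)) := by ring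
    _ ≤ c₁ * (Real.exp (c₂ / 2 * (n : ℝ) ^ 2) * Real.exp (-c₂ * (n : ℝ) ^ 2)) := by
        apply mul_le_mul_of_nonneg_left _ hc₁.le
        exact mul_le_mul_of_nonneg_right h1 h3.le

theorem farCard_le_supCard (n : ℕ) (k : List ℕ) (ε : ℝ) {u : ℝ} (hu : u ∈ Icc (0 : ℝ) 1) :
    farCard n k ε u ≤ supCard n k ε := by
  classical
  unfold farCard supCard
  refine Finset.card_le_card ?_
  intro x hx
  rw [Finset.mem_filter] at hx ⊢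
  exact ⟨hx.1, u, hu, hx.2⟩

/-- **the energy criterion** -/
theorem criterion : List.TFAE [
    (∀ U : Set (ProbabilityMeasure (ℝ × ℝ)), IsOpen U →
      (∀ t ∈ Icc (0 : ℝ) 1, ∃ μ ∈ U, (μ : Measure (ℝ × ℝ)) = arch t) →
      ∃ c₁ > (0 : ℝ), ∃ c₂ > (0 : ℝ), ∀ n : ℕ, 2 ≤ n →
        prob n (Leaves n U) ≤ c₁ * Real.exp (-c₂ * (n : ℝ) ^ 2)),
    (∀ V : Set (ℝ × ProbabilityMeasure (ℝ × ℝ)), IsOpen V →
      (∀ t ∈ Icc (0 : ℝ) 1, ∃ μ : ProbabilityMeasure (ℝ × ℝ),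
        (μ : Measure (ℝ × ℝ)) = arch t ∧ (t, μ) ∈ V) →
      ∃ c₁ > (0 : ℝ), ∃ c₂ > (0 : ℝ), ∀ n : ℕ, 2 ≤ n →
        prob n (fun k => ∃ s t : ℝ, 0 ≤ s ∧ s ≤ t ∧ t ≤ 1 ∧
          ∀ μ : ProbabilityMeasure (ℝ × ℝ), (μ : Measure (ℝ × ℝ)) = eta2 n k s t →
            (t - s, μ) ∉ V) ≤ c₁ * Real.exp (-c₂ * (n : ℝ) ^ 2)),
    (∀ ε > (0 : ℝ), ∃ c₁ > (0 : ℝ), ∃ c₂ > (0 : ℝ), ∀ n : ℕ, 2 ≤ n →
      prob n (fun k => ε * n < supCard n k ε) ≤ c₁ * Real.exp (-c₂ * (n : ℝ) ^ 2)),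
    (∀ ε > (0 : ℝ), ∀ t ∈ Ioc (0 : ℝ) 1, ∃ c₁ > (0 : ℝ), ∃ c₂ > (0 : ℝ), ∀ n : ℕ, 2 ≤ n →
      prob n (fun k => (π ^ 2 / 3 + ε) * t ^ 2 < ∫ p, (p.1 - p.2) ^ 2 ∂(eta n k t)) ≤
        c₁ * Real.exp (-c₂ * (n : ℝ) ^ 2)),
    (∀ ε > (0 : ℝ), ∀ t₀ > (0 : ℝ), ∃ t ∈ Ioo (0 : ℝ) t₀, ∃ c₁ > (0 : ℝ), ∃ c₂ > (0 : ℝ),
      ∀ n : ℕ, 2 ≤ n →
      prob n (fun k => (π ^ 2 / 3 + ε) * t ^ 2 < ∫ p, (p.1 - p.2) ^ 2 ∂(eta n k t)) ≤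
        c₁ * Real.exp (-c₂ * (n : ℝ) ^ 2)),
    (∀ ε > (0 : ℝ), ∀ t₀ > (0 : ℝ), ∃ t ∈ Ioo (0 : ℝ) t₀, ∃ c₁ > (0 : ℝ), ∃ c₂ > (0 : ℝ),
      ∀ n : ℕ, 2 ≤ n → ∀ w : ℕ → ℕ,
      (π ^ 2 / 3 + ε) * t ^ 2 < 4 / (n : ℝ) ^ 3 * ∑ x ∈ Finset.Icc 1 n, ((w x : ℝ) - x) ^ 2 →
      prob n (fun k => ∀ x ∈ Finset.Icc 1 n, place (k.take ⌊(n.choose 2 : ℝ) * t⌋₊) x = w x) ≤
        c₁ * Real.exp (-c₂ * (n : ℝ) ^ 2))] := by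
  tfae_have 1 → 4 := by
    intro h ε hε t ht
    obtain ⟨U, hU, hA, hn⟩ := converse hε ht
    obtain ⟨c₁, hc₁, c₂, hc₂, h1⟩ := h U hU hA
    exact ⟨c₁, hc₁, c₂, hc₂, fun n hn2 => (hn n hn2).trans (h1 n hn2)⟩
  tfae_have 4 → 5 := by
    intro h ε hε t₀ ht₀
    exact ⟨min (t₀ / 2) 1, ⟨lt_min (by positivity) one_pos,
      lt_of_le_of_lt (min_le_left _ _) (by linarith)⟩, h ε hε _ ⟨lt_min (by positivity) one_pos, min_le_right _ _⟩⟩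
  tfae_have 5 → 2 := by
    intro h V hV hA
    obtain ⟨ε, hε, t₀, ht₀, h1⟩ := transfer V hV hA
    obtain ⟨t, ht, h2⟩ := h ε hε t₀ ht₀
    obtain ⟨n₀, h3⟩ := h1 t ⟨ht.1, ht.2.le⟩
    exact exp_of_sq (fun n => prob_le_one n _) h3 h2
  tfae_have 5 → 3 := by
    intro h ε' hε'
    obtain ⟨ε, hε, t₀, ht₀, h1⟩ := sine_transfer hε'
    obtain ⟨t, ht, h2⟩ := h ε hε t₀ ht₀
    obtain ⟨n₀, h3⟩ := h1 t ⟨ht.1, ht.2.le⟩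
    exact exp_of_sq (fun n => prob_le_one n _) h3 h2
  tfae_have 2 → 1 := by
    intro h U hU hA
    obtain ⟨c₁, hc₁, c₂, hc₂, h1⟩ := h (Prod.snd ⁻¹' U) (hU.preimage continuous_snd) (fun t ht => by
      obtain ⟨μ, hμ, hμ'⟩ := hA t ht
      exact ⟨μ, hμ', hμ⟩)
    refine ⟨c₁, hc₁, c₂, hc₂, fun n hn => (prob_mono fun k hk => ?_).trans (h1 n hn)⟩
    rintro ⟨t, ht, h2⟩
    refine ⟨0, t, le_rfl, ht.1, ht.2, fun μ hμ hμU => h2 μ hμU ?_⟩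
    rw [hμ, eta2_zero]
  tfae_have 3 → 4 := by
    intro h ε hε t ht
    obtain ⟨ε', hε', n₀, h1⟩ := sine_conv hε ht
    obtain ⟨c₁, hc₁, c₂, hc₂, h2⟩ := h ε' hε'
    refine const_of_ge (n₀ := max 2 n₀) (fun n => prob_le_one n _) hc₁ hc₂ fun n hn => ?_
    have hn2 : 2 ≤ n := (le_max_left _ _).trans hn
    refine (prob_mono fun k hk hE => ?_).trans (h2 n hn2)
    by_contra hc
    have h3 := h1 n ((le_max_right _ _).trans hn) k hk (fun u hu => by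
      refine le_trans ?_ (not_lt.1 hc)
      exact_mod_cast farCard_le_supCard n k ε' hu)
    rw [integral_eta (by omega)] at hE
    exact absurd h3 (not_le.2 hE)
  tfae_have 5 → 6 := by
    intro h ε hε t₀ ht₀
    obtain ⟨t, ht, c₁, hc₁, c₂, hc₂, h1⟩ := h ε hε t₀ ht₀
    refine ⟨t, ht, c₁, hc₁, c₂, hc₂, fun n hn w hw => (prob_mono fun k hk hE => ?_).trans (h1 n hn)⟩
    rw [integral_eta (by omega), EE_zero]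
    refine lt_of_lt_of_eq hw ?_
    congr 1
    exact Finset.sum_congr rfl fun x hx => by rw [sw_, hE x hx]
  tfae_have 6 → 5 := by
    intro h ε hε t₀ ht₀
    obtain ⟨t, ht, c₁, hc₁, c₂, hc₂, h1⟩ := h ε hε t₀ ht₀
    refine ⟨t, ht, ?_⟩
    refine exp_of_pow (n₀ := 2) (g := fun n => c₁ * Real.exp (-c₂ * (n : ℝ) ^ 2))
      (fun n => prob_le_one n _) (fun n hn => ?_) ⟨c₁, hc₁, c₂, hc₂, fun n _ => le_rfl⟩
    have h2 := perm_union (n := n) ⌊(n.choose 2 : ℝ) * t⌋₊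
      (Q := fun w => (π ^ 2 / 3 + ε) * t ^ 2 < 4 / (n : ℝ) ^ 3 * ∑ x ∈ Finset.Icc 1 n, ((w x : ℝ) - x) ^ 2)
      (B := c₁ * Real.exp (-c₂ * (n : ℝ) ^ 2)) (by positivity) (h1 n hn) (fun w w' hw hq => by
        refine lt_of_lt_of_eq hq ?_
        congr 1
        exact Finset.sum_congr rfl fun x hx => by rw [hw x hx])
    refine le_trans (prob_mono fun k hk hE => ?_) h2
    rw [integral_eta (by omega), EE_zero] at hE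
    exact hE
  tfae_finish

end Pool.Agent.SNL63
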