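import Pool.Agent.SNL63.EnAlg

/-!
The correlations of a network whose energies for small lags are almost minimal.
-/

namespace Pool.Agent.SNL63

open Pool.Agent.SN8 MeasureTheory Set Filter Topology
open scoped ENNReal Real

/-- the common value of the mean squares of the rescaled places -/
noncomputable def SS (n : ℕ) : ℝ := 1 / 3 + 2 / (3 * (n : ℝ) ^ 2)

theorem SS_pos (n : ℕ) : 0 < SS n := by
  unfold SS
  positivity

theorem SS_ge (n : ℕ) : 1 / 3 ≤ SS n := by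
  unfold SS
  have : 0 ≤ 2 / (3 * (n : ℝ) ^ 2) := by positivity
  linarith

/-- the vector of the places -/
noncomputable def evec (n : ℕ) (k : List ℕ) (i : ℕ) : EuclideanSpace ℝ (Finset.Icc 1 n) :=
  WithLp.toLp 2 (fun x => pos n k i x / √n)

theorem inner_evec {n : ℕ} (hn : 1 ≤ n) (k : List ℕ) (i j : ℕ) :
    inner ℝ (evec n k i) (evec n k j) = KK n k i j := by
  have hn0 : (0 : ℝ) < n := by exact_mod_cast hn
  rw [PiLp.inner_apply]
  unfold KK evec
  rw [← Finset.sum_coe_sort (Finset.Icc 1 n) (fun x => pos n k i x * pos n k j x), Finset.sum_div]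
  refine Finset.sum_congr rfl fun x _ => ?_
  simp only [RCLike.inner_apply, conj_trivial]
  rw [div_mul_div_comm, Real.mul_self_sqrt hn0.le]
  ring

theorem norm_evec {n : ℕ} (hn : 1 ≤ n) {k : List ℕ} (hk : IsNetwork n k) {i : ℕ} (hi : i ≤ n.choose 2) :
    ‖evec n k i‖ = √(SS n) := by
  rw [@norm_eq_sqrt_real_inner _ _ _ (evec n k i), inner_evec hn, KK_self hn hk hi]
  rfl

/-- the angle between two times -/
noncomputable def ang (n : ℕ) (k : List ℕ) (i j : ℕ) : ℝ := Real.arccos (KK n k i j / SS n)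

theorem ang_eq {n : ℕ} (hn : 1 ≤ n) {k : List ℕ} (hk : IsNetwork n k) {i j : ℕ} (hi : i ≤ n.choose 2)
    (hj : j ≤ n.choose 2) : ang n k i j = InnerProductGeometry.angle (evec n k i) (evec n k j) := by
  unfold ang InnerProductGeometry.angle
  rw [inner_evec hn, norm_evec hn hk hi, norm_evec hn hk hj, Real.mul_self_sqrt (SS_pos n).le]

theorem ang_tri {n : ℕ} (hn : 1 ≤ n) {k : List ℕ} (hk : IsNetwork n k) {i j l : ℕ} (hi : i ≤ n.choose 2)
    (hj : j ≤ n.choose 2) (hl : l ≤ n.choose 2) : ang n k i l ≤ ang n k i j + ang n k j l := by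
  rw [ang_eq hn hk hi hj, ang_eq hn hk hj hl, ang_eq hn hk hi hl]
  exact InnerProductGeometry.angle_le_angle_add_angle _ _ _

theorem cos_ang {n : ℕ} (hn : 1 ≤ n) {k : List ℕ} (hk : IsNetwork n k) {i j : ℕ} (hi : i ≤ n.choose 2)
    (hj : j ≤ n.choose 2) : SS n * Real.cos (ang n k i j) = KK n k i j := by
  rw [ang_eq hn hk hi hj]
  have h := InnerProductGeometry.cos_angle_mul_norm_mul_norm (evec n k i) (evec n k j)
  rw [inner_evec hn, norm_evec hn hk hi, norm_evec hn hk hj, Real.mul_self_sqrt (SS_pos n).le] at h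
  rw [mul_comm]
  exact h

theorem ang_nonneg (n : ℕ) (k : List ℕ) (i j : ℕ) : 0 ≤ ang n k i j := Real.arccos_nonneg _

theorem ang_le_pi (n : ℕ) (k : List ℕ) (i j : ℕ) : ang n k i j ≤ π := Real.arccos_le_pi _

theorem ang_self {n : ℕ} (hn : 1 ≤ n) {k : List ℕ} (hk : IsNetwork n k) {i : ℕ} (hi : i ≤ n.choose 2) :
    ang n k i i = 0 := by
  unfold ang
  rw [KK_self hn hk hi]
  rw [show 1 / 3 + 2 / (3 * (n : ℝ) ^ 2) = SS n from rfl, div_self (SS_pos n).ne', Real.arccos_one]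

theorem ang_le {n : ℕ} (hn : 1 ≤ n) {k : List ℕ} (hk : IsNetwork n k) {i j : ℕ} (hi : i ≤ n.choose 2)
    (hj : j ≤ n.choose 2) {c : ℝ} (hc : EE n k i j ≤ c) : ang n k i j ≤ 2 * Real.arcsin (√(c / (4 * SS n))) := by
  have h0 := SS_pos n
  obtain ⟨θ, hθ⟩ : ∃ θ : ℝ, θ = ang n k i j := ⟨_, rfl⟩
  have h1 : EE n k i j = 2 * SS n * (1 - Real.cos θ) := by
    rw [EE_eq, KK_self hn hk hi, KK_self hn hk hj, ← cos_ang hn hk hi hj, ← hθ]
    unfold SS
    ring
  have h2 : Real.sin (θ / 2) ^ 2 ≤ c / (4 * SS n) := by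
    have h3 : Real.cos θ = 1 - 2 * Real.sin (θ / 2) ^ 2 := by
      have h4 := Real.cos_two_mul (θ / 2)
      have h5 := Real.sin_sq_add_cos_sq (θ / 2)
      rw [show 2 * (θ / 2) = θ by ring] at h4
      linarith
    rw [h3] at h1
    rw [le_div_iff₀ (by positivity)]
    linarith
  have h3 : θ / 2 ∈ Icc (-(π / 2)) (π / 2) := by
    have g1 := ang_nonneg n k i j
    have g2 := ang_le_pi n k i j
    have g3 := Real.pi_pos
    rw [← hθ] at g1 g2
    constructor <;> linarith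
  have h4 : Real.sin (θ / 2) ≤ √(c / (4 * SS n)) := by
    refine le_trans (le_abs_self _) ?_
    rw [← Real.sqrt_sq_eq_abs]
    exact Real.sqrt_le_sqrt h2
  have h5 := Real.monotone_arcsin h4
  rw [Real.arcsin_sin h3.1 h3.2] at h5
  rw [← hθ]
  linarith

theorem ang_chain {n : ℕ} (hn : 1 ≤ n) {k : List ℕ} (hk : IsNetwork n k) {q : ℕ} {α : ℝ}
    (hα : ∀ i, i + q ≤ n.choose 2 → ang n k i (i + q) ≤ α) (i : ℕ) :
    ∀ m : ℕ, i + m * q ≤ n.choose 2 → ang n k i (i + m * q) ≤ m * α := by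
  intro m
  induction m with
  | zero =>
    intro hm
    rw [Nat.zero_mul, Nat.add_zero] at hm ⊢
    rw [ang_self hn hk hm]
    simp
  | succ m ih =>
    intro hm
    have e1 : i + (m + 1) * q = i + m * q + q := by ring
    rw [e1] at hm ⊢
    have h1 := ih (by omega)
    have h2 := hα (i + m * q) hm
    have h3 := ang_tri hn hk (i := i) (j := i + m * q) (l := i + m * q + q) (by omega) (by omega) hm
    push_cast
    linarith

/-- the bound for the angle between two times -/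
theorem ang_upper {n : ℕ} (hn : 1 ≤ n) {k : List ℕ} (hk : IsNetwork n k) {t c : ℝ} (ht : 0 < t)
    (hq : 0 < sw_ n t)
    (hE : ∀ i : ℕ, i + sw_ n t ≤ n.choose 2 → EE n k i (i + sw_ n t) ≤ c * t ^ 2) {i j : ℕ} (hij : i ≤ j)
    (hj : j ≤ n.choose 2) :
    ang n k i j ≤ ((j : ℝ) - i) / (n.choose 2 : ℝ) * (((n.choose 2 : ℝ) * t) / (sw_ n t : ℝ)) *
      (2 * Real.arcsin (√(c * t ^ 2 / (4 * SS n))) / t) + 2 * Real.arcsin (√(4 * t / (4 * SS n))) := by
  obtain ⟨q, hq'⟩ : ∃ q : ℕ, q = sw_ n t := ⟨_, rfl⟩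
  rw [← hq'] at hE hq ⊢
  obtain ⟨α, hα⟩ : ∃ α : ℝ, α = 2 * Real.arcsin (√(c * t ^ 2 / (4 * SS n))) := ⟨_, rfl⟩
  rw [← hα]
  have hα0 : 0 ≤ α := by
    rw [hα]
    have := Real.arcsin_nonneg.2 (Real.sqrt_nonneg (c * t ^ 2 / (4 * SS n)))
    linarith
  have hN0 : (0 : ℝ) < n.choose 2 := by
    have h1 : (q : ℝ) ≤ (n.choose 2 : ℝ) * t := by
      rw [hq']
      exact Nat.floor_le (by positivity)
    have h2 : (0 : ℝ) < q := by exact_mod_cast hq
    by_contra hcon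
    have h3 : (n.choose 2 : ℝ) * t ≤ 0 := mul_nonpos_of_nonpos_of_nonneg (not_lt.1 hcon) ht.le
    linarith
  have hq0 : (0 : ℝ) < q := by exact_mod_cast hq
  obtain ⟨m, r, hr, hmr⟩ : ∃ m r : ℕ, r < q ∧ j = i + m * q + r := by
    refine ⟨(j - i) / q, (j - i) % q, Nat.mod_lt _ hq, ?_⟩
    have := Nat.div_add_mod' (j - i) q
    omega
  have h1 : ang n k i (i + m * q) ≤ m * α := by
    refine ang_chain hn hk (fun i' hi' => ?_) i m (by omega)
    rw [hα]
    exact ang_le hn hk (by omega) hi' (hE i' hi')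
  have h2 : ang n k (i + m * q) j ≤ 2 * Real.arcsin (√(4 * t / (4 * SS n))) := by
    refine ang_le hn hk (by omega) hj ?_
    refine (EE_le hn hk (by omega) hj).trans ?_
    have g1 : ((j : ℝ) - ((i + m * q : ℕ) : ℝ)) ≤ (n.choose 2 : ℝ) * t := by
      have g2 : ((j : ℝ) - ((i + m * q : ℕ) : ℝ)) = r := by
        rw [hmr]
        push_cast
        ring
      rw [g2]
      have g3 : (r : ℝ) ≤ q := by exact_mod_cast hr.le
      refine g3.trans ?_
      rw [hq']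
      exact Nat.floor_le (by positivity)
    have g2 : (n.choose 2 : ℝ) ≤ (n : ℝ) ^ 2 / 2 := by
      rw [Nat.cast_choose_two]
      nlinarith [show (0 : ℝ) ≤ n by positivity]
    have hn0 : (0 : ℝ) < n := by exact_mod_cast hn
    rw [div_le_iff₀ (by positivity)]
    nlinarith [mul_le_mul_of_nonneg_right g2 ht.le]
  have h3 := ang_tri hn hk (i := i) (j := i + m * q) (l := j) (by omega) (by omega) hj
  have h4 : (m : ℝ) * α ≤ ((j : ℝ) - i) / (n.choose 2 : ℝ) * (((n.choose 2 : ℝ) * t) / (q : ℝ)) * (α / t) := by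
    have g1 : ((j : ℝ) - i) / (n.choose 2 : ℝ) * (((n.choose 2 : ℝ) * t) / (q : ℝ)) * (α / t) =
        (((j : ℝ) - i) / q) * α := by
      field_simp
    rw [g1]
    refine mul_le_mul_of_nonneg_right ?_ hα0
    rw [le_div_iff₀ hq0]
    have g2 : (j : ℝ) = i + m * q + r := by exact_mod_cast hmr
    have g3 : (0 : ℝ) ≤ r := by positivity
    linarith
  linarith

theorem tendsto_SS (𝓕 : Filter ℕ) {n : ℕ → ℕ} (hn : Tendsto n 𝓕 atTop) :
    Tendsto (fun J => SS (n J)) 𝓕 (𝓝 (1 / 3)) := by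
  have h0 : Tendsto (fun J => (n J : ℝ)) 𝓕 atTop := tendsto_natCast_atTop_atTop.comp hn
  have h1 : Tendsto (fun x : ℝ => 2 / (3 * x ^ 2)) atTop (𝓝 0) := by
    refine Tendsto.const_div_atTop ?_ _
    exact (tendsto_pow_atTop (by norm_num)).const_mul_atTop (by norm_num)
  have h2 := (h1.comp h0).const_add (1 / 3)
  rw [add_zero] at h2
  exact h2

/-- the correlations of a sequence of networks whose energies for small lags are almost minimal -/
theorem geo_limit (𝓕 : Filter ℕ) [𝓕.NeBot] {n : ℕ → ℕ} {k : ℕ → List ℕ} {t e : ℕ → ℝ}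
    (hn : Tendsto n 𝓕 atTop) (hk : ∀ J, IsNetwork (n J) (k J)) (ht0 : ∀ J, 0 < t J)
    (ht : Tendsto t 𝓕 (𝓝 0)) (he0 : ∀ J, 0 ≤ e J) (he : Tendsto e 𝓕 (𝓝 0))
    (hnt : Tendsto (fun J => (n J : ℝ) * t J) 𝓕 atTop)
    (hE : ∀ J, ∀ i : ℕ, i + sw_ (n J) (t J) ≤ (n J).choose 2 →
      EE (n J) (k J) i (i + sw_ (n J) (t J)) ≤ (π ^ 2 / 3 + e J) * t J ^ 2)
    {i j : ℕ → ℕ} {a b : ℝ} (hij : ∀ J, i J ≤ j J) (hj : ∀ J, j J ≤ (n J).choose 2)
    (hia : Tendsto (fun J => (i J : ℝ) / ((n J).choose 2 : ℝ)) 𝓕 (𝓝 a))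
    (hjb : Tendsto (fun J => (j J : ℝ) / ((n J).choose 2 : ℝ)) 𝓕 (𝓝 b)) :
    Tendsto (fun J => KK (n J) (k J) (i J) (j J)) 𝓕 (𝓝 (1 / 3 * Real.cos (π * (b - a)))) := by
  have hpi := Real.pi_pos
  have hS := tendsto_SS 𝓕 hn
  have hn1 : ∀ᶠ J in 𝓕, 1 ≤ n J := hn.eventually_ge_atTop 1
  have hn2 : ∀ᶠ J in 𝓕, 2 ≤ n J := hn.eventually_ge_atTop 2
  -- the number of swaps of a step
  have hNt : Tendsto (fun J => ((n J).choose 2 : ℝ) * t J) 𝓕 atTop := by
    refine tendsto_atTop_mono' 𝓕 ?_ (hnt.const_mul_atTop (show (0 : ℝ) < 1 / 4 by norm_num))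
    filter_upwards [hn2] with J hJ
    rw [Nat.cast_choose_two]
    have h1 : (2 : ℝ) ≤ n J := by exact_mod_cast hJ
    have h2 := ht0 J
    have h3 : (0 : ℝ) ≤ (n J : ℝ) * t J := by positivity
    nlinarith [mul_nonneg h3 (show (0 : ℝ) ≤ n J - 2 by linarith)]
  have hq1 : ∀ᶠ J in 𝓕, 0 < sw_ (n J) (t J) := by
    filter_upwards [hNt.eventually_ge_atTop 1] with J hJ
    exact Nat.floor_pos.2 hJ
  have hqlim : Tendsto (fun J => (((n J).choose 2 : ℝ) * t J) / (sw_ (n J) (t J) : ℝ)) 𝓕 (𝓝 1) := by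
    have h1 : Tendsto (fun J => ((⌊((n J).choose 2 : ℝ) * t J⌋₊ : ℕ) : ℝ) / (((n J).choose 2 : ℝ) * t J)) 𝓕 (𝓝 1) :=
      (tendsto_nat_floor_div_atTop (R := ℝ)).comp hNt
    have h2 : Tendsto (fun J => (((⌊((n J).choose 2 : ℝ) * t J⌋₊ : ℕ) : ℝ) / (((n J).choose 2 : ℝ) * t J))⁻¹) 𝓕
        (𝓝 (1 : ℝ)) := by
      have h3 := h1.inv₀ one_ne_zero
      rwa [_root_.inv_one] at h3
    refine h2.congr fun J => ?_
    rw [inv_div]
    rfl
  -- the angle of a step
  have hβ : Tendsto (fun J => √((π ^ 2 / 3 + e J) / (4 * SS (n J)))) 𝓕 (𝓝 (π / 2)) := by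
    have h1 : Tendsto (fun J => (π ^ 2 / 3 + e J) / (4 * SS (n J))) 𝓕 (𝓝 ((π ^ 2 / 3 + 0) / (4 * (1 / 3)))) :=
      (he.const_add _).div (hS.const_mul 4) (by norm_num)
    have h2 := (Real.continuous_sqrt.tendsto _).comp h1
    have h3 : √((π ^ 2 / 3 + 0) / (4 * (1 / 3))) = π / 2 := by
      rw [show (π ^ 2 / 3 + 0) / (4 * (1 / 3)) = (π / 2) ^ 2 by ring]
      exact Real.sqrt_sq (by positivity)
    rw [h3] at h2
    exact h2
  have hβ0 : ∀ J, 0 < √((π ^ 2 / 3 + e J) / (4 * SS (n J))) := by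
    intro J
    have h1 := he0 J
    have h2 := SS_pos (n J)
    exact Real.sqrt_pos.2 (by positivity)
  have hslope : Tendsto (fun y : ℝ => y⁻¹ * Real.arcsin y) (𝓝[≠] 0) (𝓝 1) := by
    have h1 := Real.hasDerivAt_arcsin (x := 0) (by norm_num) (by norm_num)
    rw [hasDerivAt_iff_tendsto_slope_zero] at h1
    simpa using h1
  have hα : Tendsto (fun J => 2 * Real.arcsin (√((π ^ 2 / 3 + e J) * t J ^ 2 / (4 * SS (n J)))) / t J) 𝓕 (𝓝 π) := by
    have h1 : Tendsto (fun J => t J * √((π ^ 2 / 3 + e J) / (4 * SS (n J)))) 𝓕 (𝓝[≠] 0) := by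
      rw [tendsto_nhdsWithin_iff]
      refine ⟨?_, Eventually.of_forall fun J => ?_⟩
      · have := ht.mul hβ
        rwa [zero_mul] at this
      · exact (mul_pos (ht0 J) (hβ0 J)).ne'
    have h2 := ((hslope.comp h1).mul hβ).const_mul 2
    rw [one_mul, show 2 * (π / 2) = π by ring] at h2
    refine h2.congr fun J => ?_
    have g1 := ht0 J
    have g2 := hβ0 J
    have g3 : √((π ^ 2 / 3 + e J) * t J ^ 2 / (4 * SS (n J))) = t J * √((π ^ 2 / 3 + e J) / (4 * SS (n J))) := by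
      rw [show (π ^ 2 / 3 + e J) * t J ^ 2 / (4 * SS (n J)) = t J ^ 2 * ((π ^ 2 / 3 + e J) / (4 * SS (n J))) by ring,
        Real.sqrt_mul (by positivity), Real.sqrt_sq g1.le]
    rw [g3]
    simp only [Function.comp]
    generalize √((π ^ 2 / 3 + e J) / (4 * SS (n J))) = β at g2
    field_simp
  -- the rest
  have hω : Tendsto (fun J => 2 * Real.arcsin (√(4 * t J / (4 * SS (n J))))) 𝓕 (𝓝 0) := by
    have h1 : Tendsto (fun J => 4 * t J / (4 * SS (n J))) 𝓕 (𝓝 (4 * 0 / (4 * (1 / 3)))) :=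
      (ht.const_mul 4).div (hS.const_mul 4) (by norm_num)
    have h2 := ((Real.continuous_arcsin.comp Real.continuous_sqrt).tendsto _).comp h1
    have h3 := h2.const_mul 2
    simpa using h3
  have hN : Tendsto (fun J => (((n J).choose 2 : ℕ) : ℝ) / ((n J).choose 2 : ℝ)) 𝓕 (𝓝 1) := by
    refine tendsto_const_nhds.congr' ?_
    filter_upwards [hn2] with J hJ
    have : (0 : ℝ) < (n J).choose 2 := by exact_mod_cast Nat.choose_pos hJ
    rw [div_self this.ne']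
  -- upper bounds
  have key : ∀ (i j : ℕ → ℕ) (a b : ℝ), (∀ J, i J ≤ j J) → (∀ J, j J ≤ (n J).choose 2) →
      Tendsto (fun J => (i J : ℝ) / ((n J).choose 2 : ℝ)) 𝓕 (𝓝 a) →
      Tendsto (fun J => (j J : ℝ) / ((n J).choose 2 : ℝ)) 𝓕 (𝓝 b) →
      ∃ u : ℕ → ℝ, Tendsto u 𝓕 (𝓝 (π * (b - a))) ∧ ∀ᶠ J in 𝓕, ang (n J) (k J) (i J) (j J) ≤ u J := by
    intro i j a b hij hj hia hjb
    refine ⟨fun J => ((j J : ℝ) - i J) / ((n J).choose 2 : ℝ) *
      ((((n J).choose 2 : ℝ) * t J) / (sw_ (n J) (t J) : ℝ)) *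
      (2 * Real.arcsin (√((π ^ 2 / 3 + e J) * t J ^ 2 / (4 * SS (n J)))) / t J) +
      2 * Real.arcsin (√(4 * t J / (4 * SS (n J)))), ?_, ?_⟩
    · have h1 := (((hjb.sub hia).mul hqlim).mul hα).add hω
      rw [mul_one, add_zero, mul_comm] at h1
      refine h1.congr fun J => ?_
      rw [sub_div]
    · filter_upwards [hn1, hq1] with J hJ hq
      exact ang_upper hJ (hk J) (ht0 J) hq (hE J) (hij J) (hj J)
  obtain ⟨u, hu, hu'⟩ := key i j a b hij hj hia hjb
  obtain ⟨v, hv, hv'⟩ := key (fun _ => 0) i 0 a (fun J => Nat.zero_le _) (fun J => (hij J).trans (hj J))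
    (by simp) hia
  obtain ⟨w, hw, hw'⟩ := key j (fun J => (n J).choose 2) b 1 hj (fun J => le_rfl) hjb hN
  have hends : Tendsto (fun J => ang (n J) (k J) 0 ((n J).choose 2)) 𝓕 (𝓝 π) := by
    have h0 : Tendsto (fun J => (n J : ℝ)) 𝓕 atTop := tendsto_natCast_atTop_atTop.comp hn
    have h1 : Tendsto (fun x : ℝ => 4 / (3 * x ^ 2)) atTop (𝓝 0) := by
      refine Tendsto.const_div_atTop ?_ _
      exact (tendsto_pow_atTop (by norm_num)).const_mul_atTop (by norm_num)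
    have h2 : Tendsto (fun J => -(1 / 3) + 4 / (3 * (n J : ℝ) ^ 2)) 𝓕 (𝓝 (-(1 / 3) + 0)) :=
      (h1.comp h0).const_add _
    have h3 := (Real.continuous_arccos.tendsto _).comp (h2.div hS (by norm_num))
    rw [show (-(1 / 3) + 0 : ℝ) / (1 / 3) = -1 by norm_num, Real.arccos_neg_one] at h3
    refine h3.congr' ?_
    filter_upwards [hn1] with J hJ
    unfold ang
    rw [KK_ends hJ (hk J)]
    rfl
  have hang : Tendsto (fun J => ang (n J) (k J) (i J) (j J)) 𝓕 (𝓝 (π * (b - a))) := by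
    have h1 : Tendsto (fun J => ang (n J) (k J) 0 ((n J).choose 2) - v J - w J) 𝓕 (𝓝 (π * (b - a))) := by
      have h2 := (hends.sub hv).sub hw
      rw [show π - π * (a - 0) - π * (1 - b) = π * (b - a) by ring] at h2
      exact h2
    refine tendsto_of_tendsto_of_tendsto_of_le_of_le' h1 hu ?_ hu'
    filter_upwards [hn1, hv', hw'] with J hJ h2 h3
    have h4 := ang_tri hJ (hk J) (i := 0) (j := i J) (l := (n J).choose 2) (Nat.zero_le _)
      ((hij J).trans (hj J)) le_rfl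
    have h5 := ang_tri hJ (hk J) (i := i J) (j := j J) (l := (n J).choose 2) ((hij J).trans (hj J)) (hj J) le_rfl
    linarith
  have h1 := hS.mul ((Real.continuous_cos.tendsto _).comp hang)
  refine h1.congr' ?_
  filter_upwards [hn1] with J hJ
  exact cos_ang hJ (hk J) ((hij J).trans (hj J)) (hj J)

end Pool.Agent.SNL63
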