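import Pool.Agent.SNL63.PairsFin

/-!
# Compactness with the time: neighbourhoods of the graph of the path, for all pairs of times
-/

namespace Pool.Agent.SNL63

open MeasureTheory Set Filter Topology Pool.Agent.SN8
open scoped ENNReal Real NNReal BoundedContinuousFunction

/-- At some time `t` the measure `eta` is outside `V`, where the time may be misread by `1 / N`. -/
def LeavesS (n : ℕ) (V : Set (ℝ × ProbabilityMeasure (ℝ × ℝ))) (k : List ℕ) : Prop :=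
  ∃ t ∈ Icc (0 : ℝ) 1, ∃ τ ∈ Icc (0 : ℝ) 1, |t - τ| ≤ 1 / (n.choose 2 : ℝ) ∧
    ∀ μ : ProbabilityMeasure (ℝ × ℝ), (μ : Measure (ℝ × ℝ)) = eta n k t → (τ, μ) ∉ V

theorem inv_choose_tendsto {l : Filter ℕ} {n : ℕ → ℕ} (hn : Tendsto n l atTop) :
    Tendsto (fun J => 1 / ((n J).choose 2 : ℝ)) l (𝓝 0) := by
  have h1 : Tendsto (fun m : ℕ => 1 / (m.choose 2 : ℝ)) atTop (𝓝 0) := by
    have h2 : Tendsto (fun m : ℕ => 4 / (m : ℝ)) atTop (𝓝 0) :=
      tendsto_const_nhds.div_atTop tendsto_natCast_atTop_atTop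
    refine tendsto_of_tendsto_of_tendsto_of_le_of_le' tendsto_const_nhds h2
      (Eventually.of_forall fun m => by positivity) ?_
    filter_upwards [eventually_ge_atTop 2] with m hm
    have h3 : (2 : ℝ) ≤ m := by exact_mod_cast hm
    rw [Nat.cast_choose_two ℝ m, div_le_div_iff₀ (by nlinarith) (by linarith)]
    nlinarith
  exact h1.comp hn

theorem keyG (V : Set (ℝ × ProbabilityMeasure (ℝ × ℝ))) (hV : IsOpen V)
    (hA : ∀ t ∈ Icc (0 : ℝ) 1, ∃ μ : ProbabilityMeasure (ℝ × ℝ), (μ : Measure (ℝ × ℝ)) = arch t ∧ (t, μ) ∈ V)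
    (E : ℕ → ℕ → List ℕ → Prop)
    (hC : ∀ (𝓕 : Ultrafilter ℕ) (n : ℕ → ℕ) (k : ℕ → List ℕ) (t : ℕ → ℝ) (μ : ℕ → ProbabilityMeasure (ℝ × ℝ))
      (ν : ProbabilityMeasure (ℝ × ℝ)) (t₀ : ℝ), (𝓕 : Filter ℕ) ≤ atTop → (∀ J, IsNetwork (n J) (k J)) →
      (∀ J, 1 ≤ n J) → Tendsto n 𝓕 atTop → (∀ J, t J ∈ Icc (0 : ℝ) 1) →
      (∀ J, (μ J : Measure (ℝ × ℝ)) = eta (n J) (k J) (t J)) → Tendsto μ 𝓕 (𝓝 ν) → Tendsto t 𝓕 (𝓝 t₀) →
      t₀ ∈ Ioo (0 : ℝ) 1 → (ν : Measure (ℝ × ℝ)).map Prod.fst = unif → (ν : Measure (ℝ × ℝ)).map Prod.snd = unif →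
      (∀ J j, j < J → ¬ E j (n J) (k J)) → (t₀, ν) ∈ V) :
    ∃ J : ℕ, ∀ n ≥ J, 1 ≤ n → ∀ k, IsNetwork n k → LeavesS n V k → ∃ j < J, E j n k := by
  by_contra hcon
  push Not at hcon
  choose n hn hn1 k hk hL hlow using hcon
  choose t ht τ hτ hτt hout using hL
  obtain ⟨μ, hμ⟩ : ∃ μ : ℕ → ProbabilityMeasure (ℝ × ℝ), ∀ J, (μ J : Measure (ℝ × ℝ)) = eta (n J) (k J) (t J) :=
    ⟨fun J => ⟨eta (n J) (k J) (t J), isProbabilityMeasure_eta (hn1 J) _ _⟩, fun J => rfl⟩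
  have hμV : ∀ J, (τ J, μ J) ∉ V := fun J => hout J _ (hμ J)
  obtain ⟨𝓕, h𝓕⟩ : ∃ 𝓕 : Ultrafilter ℕ, (𝓕 : Filter ℕ) ≤ atTop := ⟨hyperfilter ℕ, Nat.hyperfilter_le_atTop⟩
  -- the limits
  obtain ⟨ν, -, hν⟩ := isCompact_iff_ultrafilter_le_nhds'.1 compact_sq (𝓕.map μ) (by
    rw [Ultrafilter.mem_map]
    refine Filter.Eventually.of_forall fun J => ?_
    intro _
    have h1 : (μ J : Measure (ℝ × ℝ)) Sqᶜ = 0 := by
      rw [hμ]
      exact eta_Sq_compl (hk J) _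
    have h2 : ((μ J Sqᶜ : ℝ≥0) : ℝ≥0∞) = 0 := by
      rw [ProbabilityMeasure.ennreal_coeFn_eq_coeFn_toMeasure]
      exact h1
    exact le_of_eq (by exact_mod_cast h2))
  replace hν : Tendsto μ 𝓕 (𝓝 ν) := hν
  obtain ⟨t₀, ht₀, htt⟩ := isCompact_iff_ultrafilter_le_nhds'.1 (isCompact_Icc (a := (0 : ℝ)) (b := 1)) (𝓕.map t) (by
    rw [Ultrafilter.mem_map]
    exact Filter.Eventually.of_forall fun J => ht J)
  replace htt : Tendsto t 𝓕 (𝓝 t₀) := htt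
  have hninf : Tendsto n 𝓕 atTop := (tendsto_atTop_mono hn tendsto_id).mono_left h𝓕
  have hττ : Tendsto τ 𝓕 (𝓝 t₀) := by
    have h1 : Tendsto (fun J => t J - τ J) 𝓕 (𝓝 0) :=
      squeeze_zero_norm (fun J => by rw [Real.norm_eq_abs]; exact hτt J) (inv_choose_tendsto hninf)
    have h2 := htt.sub h1
    simpa using h2
  have hf : (ν : Measure (ℝ × ℝ)).map Prod.fst = unif := marg_limit hν hninf continuous_fst (fun J => by
    rw [hμ]
    exact (eta_margins (hk J) _).1)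
  have hs : (ν : Measure (ℝ × ℝ)).map Prod.snd = unif := marg_limit hν hninf continuous_snd (fun J => by
    rw [hμ]
    exact (eta_margins (hk J) _).2)
  have hνV : (t₀, ν) ∉ V := by
    intro h
    have := (hττ.prodMk_nhds hν).eventually (hV.mem_nhds h)
    obtain ⟨J, hJ⟩ := this.exists
    exact hμV J hJ
  rcases eq_or_lt_of_le ht₀.1 with h0 | h0
  · -- the time tends to zero
    obtain ⟨μ₀, hμ₀', hμ₀⟩ := hA 0 ⟨le_rfl, zero_le_one⟩
    have h1 : (ν : Measure (ℝ × ℝ)) = unif.map (fun x => (x, x)) := by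
      refine graph_measure continuous_id (fun r hr => ?_) hf
      refine limit_null hν (isOpen_lt continuous_const (by fun_prop)) (a := fun J => 2 * t J / r) ?_ ?_
      · have := (htt.const_mul 2).div_const r
        rw [← h0] at this
        simpa using this
      · refine Eventually.of_forall fun J => ?_
        rw [hμ]
        refine le_trans (measure_mono ?_) (eta_diag (hn1 J) (hk J) (ht J).1 hr)
        intro p hp
        simp only [mem_ofPred_eq] at hp ⊢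
        rw [abs_sub_comm]
        exact hp.le
    have h2 : ν = μ₀ := by
      apply Subtype.ext
      show (ν : Measure (ℝ × ℝ)) = μ₀
      rw [hμ₀', arch_zero, h1]
    rw [← h0, h2] at hνV
    exact hνV hμ₀
  rcases eq_or_lt_of_le ht₀.2 with h1 | h1
  · -- the time tends to one
    obtain ⟨μ₀, hμ₀', hμ₀⟩ := hA 1 ⟨zero_le_one, le_rfl⟩
    have h2 : (ν : Measure (ℝ × ℝ)) = unif.map (fun x => (x, -x)) := by
      refine graph_measure continuous_neg (fun r hr => ?_) hf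
      refine limit_null hν (isOpen_lt continuous_const (by fun_prop)) (a := fun J => (2 * (1 - t J) + 4 / (n J : ℝ)) / r)
        ?_ ?_
      · have e1 : Tendsto (fun J => 4 / (n J : ℝ)) 𝓕 (𝓝 0) :=
          (tendsto_const_nhds.div_atTop tendsto_natCast_atTop_atTop).comp hninf
        have := ((((htt.const_sub 1).const_mul 2).add e1)).div_const r
        rw [h1] at this
        simpa using this
      · refine Eventually.of_forall fun J => ?_
        rw [hμ]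
        refine le_trans (measure_mono ?_) (eta_anti (hn1 J) (hk J) (ht J).2 hr)
        intro p hp
        simp only [mem_ofPred_eq] at hp ⊢
        have e2 : p.2 - -p.1 = p.1 + p.2 := by ring
        rw [e2] at hp
        exact hp.le
    have h3 : ν = μ₀ := by
      apply Subtype.ext
      show (ν : Measure (ℝ × ℝ)) = μ₀
      rw [hμ₀', arch_one, h2]
    rw [h1, h3] at hνV
    exact hνV hμ₀
  -- the time stays inside
  exact hνV (hC 𝓕 n k t μ ν t₀ h𝓕 hk hn1 hninf ht hμ hν htt ⟨h0, h1⟩ hf hs (fun J j hj => hlow J j hj))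

theorem leavesS_adm2 (V : Set (ℝ × ProbabilityMeasure (ℝ × ℝ))) (hV : IsOpen V)
    (hA : ∀ t ∈ Icc (0 : ℝ) 1, ∃ μ : ProbabilityMeasure (ℝ × ℝ), (μ : Measure (ℝ × ℝ)) = arch t ∧ (t, μ) ∈ V)
    (hC : ∀ t ∈ Ioo (0 : ℝ) 1, ∀ ν : ProbabilityMeasure (ℝ × ℝ), Adm2 t (ν : Measure (ℝ × ℝ)) → (t, ν) ∈ V) :
    ∃ c₁ > (0 : ℝ), ∃ c₂ > (0 : ℝ), ∀ n : ℕ, 2 ≤ n →
      prob n (LeavesS n V) ≤ c₁ * Real.exp (-c₂ * (n : ℝ) ^ 2) := by
  have hquad' : ∀ j : ℕ, ∃ c₁ > (0 : ℝ), ∃ c₂ > (0 : ℝ), ∀ n : ℕ, 2 ≤ n →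
      prob n (Qd (1 / ((j : ℝ) + 2)) n) ≤ c₁ * Real.exp (-c₂ * (n : ℝ) ^ 2) := fun j => quad_all (by positivity)
  have hband' : ∀ j : ℕ, ∃ c₁ > (0 : ℝ), ∃ c₂ > (0 : ℝ), ∀ n : ℕ, 2 ≤ n →
      prob n (Bd (1 / ((j : ℝ) + 2)) n) ≤ c₁ * Real.exp (-c₂ * (n : ℝ) ^ 2) := fun j => band (by positivity)
  choose a₁ ha₁ a₂ ha₂ hb using hquad'
  choose b₁ hb₁ b₂ hb₂ hbb using hband'
  obtain ⟨J, hJ⟩ := keyG V hV hA (fun j n k => Qd (1 / ((j : ℝ) + 2)) n k ∨ Bd (1 / ((j : ℝ) + 2)) n k) (by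
    intro 𝓕 n k t μ ν t₀ h𝓕 hk hn1 hninf ht hμ hν htt ht₀ hf hs hE
    have hnb : ∀ ε : ℝ, 0 < ε → ∀ᶠ J in (𝓕 : Filter ℕ), ¬ Qd ε (n J) (k J) ∧ ¬ Bd ε (n J) (k J) := by
      intro ε hε
      obtain ⟨j, hj⟩ := exists_nat_one_div_lt hε
      have h1 : ∀ᶠ J in (𝓕 : Filter ℕ), j < J := h𝓕 (eventually_gt_atTop j)
      have h3 : 1 / ((j : ℝ) + 2) ≤ ε := by
        refine le_trans (one_div_le_one_div_of_le (by positivity) (by linarith)) hj.le
      filter_upwards [h1] with J hJ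
      have h4 := hE J j hJ
      rw [not_or] at h4
      constructor
      · rintro ⟨t, ht, a, ha, b, hb, h2⟩
        exact h4.1 ⟨t, ht, a, ha, b, hb, h2.imp
          (fun h => lt_of_lt_of_le h (ENNReal.ofReal_le_ofReal (by linarith)))
          (fun h => lt_of_lt_of_le h (ENNReal.ofReal_le_ofReal (by linarith)))⟩
      · rintro ⟨t, ht, a, ha, h2⟩
        exact h4.2 ⟨t, ht, a, ha, h2.imp (fun h => lt_of_le_of_lt (ENNReal.ofReal_le_ofReal (by linarith)) h)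
          (fun h => lt_of_le_of_lt (ENNReal.ofReal_le_ofReal (by linarith)) h)⟩
    have hDt : ∀ u : ℝ, Tendsto (fun J => DD u (t J)) 𝓕 (𝓝 (DD u t₀)) := by
      intro u
      have h1 := (DD_cont_t u).continuousWithinAt (x := t₀) ⟨ht₀.1.le, ht₀.2.le⟩
      refine h1.tendsto.comp ?_
      rw [tendsto_nhdsWithin_iff]
      exact ⟨htt, Eventually.of_forall ht⟩
    have hDt' : ∀ u : ℝ, Tendsto (fun J => DD u (1 - t J)) 𝓕 (𝓝 (DD u (1 - t₀))) := by
      intro u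
      have h1 := (DD_cont_t u).continuousWithinAt (x := 1 - t₀) ⟨by linarith [ht₀.2], by linarith [ht₀.1]⟩
      refine h1.tendsto.comp ?_
      rw [tendsto_nhdsWithin_iff]
      exact ⟨htt.const_sub 1, Eventually.of_forall fun J =>
        ⟨by linarith [(ht J).2], by linarith [(ht J).1]⟩⟩
    refine hC t₀ ht₀ ν ⟨hf, hs, ?_, ?_, ?_, ?_, ?_⟩
    · intro a ha
      refine band_limit (a := a) (b := a) hν hf hs (O := Iio a ×ˢ Ioi a) (isOpen_Iio.prod isOpen_Ioi) ?_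
        (f := fun J => 2 / π * t J * √(1 - a ^ 2)) ((htt.const_mul (2 / π)).mul_const _) ?_
      · rintro ⟨x, y⟩ ⟨hx, hy⟩
        rcases eq_or_lt_of_le hx.2 with h1 | h1
        · exact Or.inr (Or.inl h1)
        · rcases eq_or_lt_of_le hy.1 with h2 | h2
          · exact Or.inr (Or.inr h2.symm)
          · exact Or.inl ⟨h1, h2⟩
      · intro ε hε
        filter_upwards [hnb ε hε] with J hJ
        by_contra hc
        push Not at hc
        refine hJ.2 ⟨t J, ht J, a, ⟨ha.1.le, ha.2.le⟩, Or.inl (lt_of_lt_of_le hc ?_)⟩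
        rw [hμ]
        refine eta_le_of_subset (hk J) _ (measurableSet_Iio.prod measurableSet_Ioi)
          (measurableSet_Icc.prod measurableSet_Ioc) ?_
        rintro ⟨x, y⟩ ⟨⟨hx, hy⟩, hx', hy'⟩
        exact ⟨⟨hx'.1, le_of_lt hx⟩, hy, hy'.2⟩
    · intro a ha
      refine band_limit (a := -a) (b := a) hν hf hs (O := Ioi (-a) ×ˢ Ioi a) (isOpen_Ioi.prod isOpen_Ioi) ?_
        (f := fun J => 2 / π * (1 - t J) * √(1 - a ^ 2)) (((htt.const_sub 1).const_mul (2 / π)).mul_const _) ?_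
      · rintro ⟨x, y⟩ ⟨hx, hy⟩
        rcases eq_or_lt_of_le hx.1 with h1 | h1
        · exact Or.inr (Or.inl h1.symm)
        · rcases eq_or_lt_of_le hy.1 with h2 | h2
          · exact Or.inr (Or.inr h2.symm)
          · exact Or.inl ⟨h1, h2⟩
      · intro ε hε
        filter_upwards [hnb ε hε] with J hJ
        by_contra hc
        push Not at hc
        refine hJ.2 ⟨t J, ht J, a, ⟨ha.1.le, ha.2.le⟩, Or.inr (lt_of_lt_of_le hc ?_)⟩
        rw [hμ]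
        refine eta_le_of_subset (hk J) _ (measurableSet_Ioi.prod measurableSet_Ioi)
          (measurableSet_Icc.prod measurableSet_Ioc) ?_
        rintro ⟨x, y⟩ ⟨⟨hx, hy⟩, hx', hy'⟩
        exact ⟨⟨le_of_lt hx, hx'.2⟩, hy, hy'.2⟩
    · intro a ha b hb
      refine low_limit hν (isClosed_Icc.prod isClosed_Icc)
        (f := fun J => DD ((a + b) / 2) (t J) + (a - b) / 4) ((hDt _).add_const _) ?_
      intro ε hε
      filter_upwards [hnb ε hε] with J hJ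
      by_contra hc
      push Not at hc
      refine hJ.1 ⟨t J, ht J, a, ha, b, hb, Or.inl (lt_of_le_of_lt ?_ hc)⟩
      rw [hμ]
      exact measure_mono (prod_mono_right Ioc_subset_Icc_self)
    · intro a ha b hb
      refine low_limit hν (isClosed_Icc.prod isClosed_Icc)
        (f := fun J => DD ((a + b) / 2) (1 - t J) + (a - b) / 4) ((hDt' _).add_const _) ?_
      intro ε hε
      filter_upwards [hnb ε hε] with J hJ
      by_contra hc
      push Not at hc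
      refine hJ.1 ⟨t J, ht J, a, ha, b, hb, Or.inr (lt_of_le_of_lt ?_ hc)⟩
      rw [hμ]
      exact measure_mono (prod_mono_right Ioc_subset_Icc_self)
    · have h1 : Tendsto (fun J => (μ J).prod (μ J)) 𝓕 (𝓝 (ν.prod ν)) :=
        (ProbabilityMeasure.continuous_prod.tendsto (ν, ν)).comp (hν.prodMk_nhds hν)
      have h2 := ProbabilityMeasure.tendsto_measure_of_null_frontier_of_tendsto' h1 (E := Iv)
        (frontier_Iv hf hs)
      have h3 : ∀ J, (((μ J).prod (μ J) : ProbabilityMeasure _) : Measure ((ℝ × ℝ) × (ℝ × ℝ))) Iv =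
          ENNReal.ofReal (2 * (⌊((n J).choose 2 : ℝ) * t J⌋₊ : ℝ) / (n J : ℝ) ^ 2) := by
        intro J
        rw [ProbabilityMeasure.toMeasure_prod, hμ]
        exact eta_prod_Iv (hn1 J) (hk J) (ht J).2
      simp only [h3] at h2
      exact tendsto_nhds_unique h2 (ENNReal.tendsto_ofReal (floor_tendsto hn1 hninf ht htt)))
  -- a common exponent
  obtain ⟨c₂, hc₂, hc₂'⟩ : ∃ c₂ > (0 : ℝ), ∀ j < J, c₂ ≤ a₂ j ∧ c₂ ≤ b₂ j := by
    clear hJ
    induction J with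
    | zero => exact ⟨1, one_pos, fun j hj => absurd hj (Nat.not_lt_zero _)⟩
    | succ J ih =>
      obtain ⟨c, hc, hc'⟩ := ih
      refine ⟨min c (min (a₂ J) (b₂ J)), lt_min hc (lt_min (ha₂ J) (hb₂ J)), fun j hj => ?_⟩
      rcases Nat.lt_succ_iff_lt_or_eq.1 hj with h1 | rfl
      · exact ⟨(min_le_left _ _).trans (hc' j h1).1, (min_le_left _ _).trans (hc' j h1).2⟩
      · exact ⟨(min_le_right _ _).trans (min_le_left _ _), (min_le_right _ _).trans (min_le_right _ _)⟩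
  obtain ⟨S, hS⟩ : ∃ S : ℝ, S = ∑ j ∈ Finset.range J, (a₁ j + b₁ j) := ⟨_, rfl⟩
  have hS0 : 0 ≤ S := by
    rw [hS]
    exact Finset.sum_nonneg fun j _ => by
      have := ha₁ j
      have := hb₁ j
      positivity
  refine ⟨S + Real.exp (c₂ * (J : ℝ) ^ 2), by positivity, c₂, hc₂, ?_⟩
  intro n hn
  have hexp : 0 < Real.exp (-c₂ * (n : ℝ) ^ 2) := Real.exp_pos _
  rcases lt_or_ge n J with h1 | h1
  · refine (prob_le_one n _).trans ?_
    have h2 : 1 ≤ Real.exp (c₂ * (J : ℝ) ^ 2) * Real.exp (-c₂ * (n : ℝ) ^ 2) := by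
      rw [← Real.exp_add]
      apply Real.one_le_exp
      have h3 : (n : ℝ) ≤ J := by exact_mod_cast h1.le
      have h4 : (n : ℝ) ^ 2 ≤ (J : ℝ) ^ 2 := by gcongr
      nlinarith
    have h3 : 0 ≤ S * Real.exp (-c₂ * (n : ℝ) ^ 2) := by positivity
    rw [add_mul]
    linarith
  · have h2 : prob n (LeavesS n V) ≤ ∑ j ∈ Finset.range J,
        prob n (fun k => Qd (1 / ((j : ℝ) + 2)) n k ∨ Bd (1 / ((j : ℝ) + 2)) n k) := by
      refine le_trans (prob_mono ?_) (prob_exists_le n _ J)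
      intro k hk hL
      exact hJ n h1 (by omega) k hk hL
    have h3 : ∑ j ∈ Finset.range J,
        prob n (fun k => Qd (1 / ((j : ℝ) + 2)) n k ∨ Bd (1 / ((j : ℝ) + 2)) n k) ≤
        ∑ j ∈ Finset.range J, (a₁ j + b₁ j) * Real.exp (-c₂ * (n : ℝ) ^ 2) := by
      refine Finset.sum_le_sum fun j hj => ?_
      rw [Finset.mem_range] at hj
      have h4 := hb j n hn
      have h4' := hbb j n hn
      have hx : ∀ c : ℝ, c₂ ≤ c → Real.exp (-c * (n : ℝ) ^ 2) ≤ Real.exp (-c₂ * (n : ℝ) ^ 2) := by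
        intro c hc
        apply Real.exp_le_exp.2
        have h8 : (0 : ℝ) ≤ (n : ℝ) ^ 2 := by positivity
        nlinarith
      have h7 : a₁ j * Real.exp (-a₂ j * (n : ℝ) ^ 2) ≤ a₁ j * Real.exp (-c₂ * (n : ℝ) ^ 2) :=
        mul_le_mul_of_nonneg_left (hx _ (hc₂' j hj).1) (ha₁ j).le
      have h7' : b₁ j * Real.exp (-b₂ j * (n : ℝ) ^ 2) ≤ b₁ j * Real.exp (-c₂ * (n : ℝ) ^ 2) :=
        mul_le_mul_of_nonneg_left (hx _ (hc₂' j hj).2) (hb₁ j).le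
      have h8 := prob_or_le n (Qd (1 / ((j : ℝ) + 2)) n) (Bd (1 / ((j : ℝ) + 2)) n)
      linarith
    rw [← Finset.sum_mul, ← hS] at h3
    have h4 : 0 ≤ Real.exp (c₂ * (J : ℝ) ^ 2) * Real.exp (-c₂ * (n : ℝ) ^ 2) := by positivity
    rw [add_mul]
    linarith

/-- **Neighbourhoods of the graph of the path and of the permutons allowed by the limit shape** -/
theorem graph_adm2 (V : Set (ℝ × ProbabilityMeasure (ℝ × ℝ))) (hV : IsOpen V)
    (hA : ∀ t ∈ Icc (0 : ℝ) 1, ∃ μ : ProbabilityMeasure (ℝ × ℝ), (μ : Measure (ℝ × ℝ)) = arch t ∧ (t, μ) ∈ V)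
    (hC : ∀ t ∈ Ioo (0 : ℝ) 1, ∀ ν : ProbabilityMeasure (ℝ × ℝ), Adm2 t (ν : Measure (ℝ × ℝ)) → (t, ν) ∈ V) :
    ∃ c₁ > (0 : ℝ), ∃ c₂ > (0 : ℝ), ∀ n : ℕ, 2 ≤ n →
      prob n (fun k => ∃ t ∈ Icc (0 : ℝ) 1, ∀ μ : ProbabilityMeasure (ℝ × ℝ),
        (μ : Measure (ℝ × ℝ)) = eta n k t → (t, μ) ∉ V) ≤ c₁ * Real.exp (-c₂ * (n : ℝ) ^ 2) := by
  obtain ⟨c₁, hc₁, c₂, hc₂, h⟩ := leavesS_adm2 V hV hA hC
  refine ⟨c₁, hc₁, c₂, hc₂, fun n hn => (prob_mono fun k _ => ?_).trans (h n hn)⟩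
  rintro ⟨t, ht, h1⟩
  exact ⟨t, ht, t, ht, by simp, h1⟩

/-- **The same for all pairs of times** -/
theorem graph2_adm2 (V : Set (ℝ × ProbabilityMeasure (ℝ × ℝ))) (hV : IsOpen V)
    (hA : ∀ t ∈ Icc (0 : ℝ) 1, ∃ μ : ProbabilityMeasure (ℝ × ℝ), (μ : Measure (ℝ × ℝ)) = arch t ∧ (t, μ) ∈ V)
    (hC : ∀ t ∈ Ioo (0 : ℝ) 1, ∀ ν : ProbabilityMeasure (ℝ × ℝ), Adm2 t (ν : Measure (ℝ × ℝ)) → (t, ν) ∈ V) :
    ∃ c₁ > (0 : ℝ), ∃ c₂ > (0 : ℝ), ∀ n : ℕ, 2 ≤ n →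
      prob n (fun k => ∃ s t : ℝ, 0 ≤ s ∧ s ≤ t ∧ t ≤ 1 ∧ ∀ μ : ProbabilityMeasure (ℝ × ℝ),
        (μ : Measure (ℝ × ℝ)) = eta2 n k s t → (t - s, μ) ∉ V) ≤ c₁ * Real.exp (-c₂ * (n : ℝ) ^ 2) := by
  obtain ⟨c₁, hc₁, c₂, hc₂, h⟩ := all_rot (E := fun n => LeavesS n V) (leavesS_adm2 V hV hA hC)
  refine ⟨c₁, hc₁, c₂, hc₂, fun n hn => (prob_mono fun k hk => ?_).trans (h n hn)⟩
  rintro ⟨s, t, h0, hst, h1, hout⟩
  obtain ⟨i, hi, r, hr, hrt, he⟩ := eta2_rot hn hk h0 hst h1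
  refine ⟨i, hi, r, hr, t - s, ⟨by linarith, by linarith⟩, hrt, fun μ hμ => hout μ ?_⟩
  rw [hμ, he]

end Pool.Agent.SNL63
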