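import Pool.Agent.SNL63.DCalc

/-!
# The octagon: the deterministic part

If the masses of all quadrants are at least those forced by the limit shape and the marginals are
uniform, then nearly all the mass lies in the octagon.
-/

namespace Pool.Agent.SNL63

open MeasureTheory Set Filter Topology
open scoped ENNReal Real

/-- A corner is covered by quadrants. -/
theorem oct_corner {Ω : Type*} [MeasurableSpace Ω] (μ : Measure Ω) [IsFiniteMeasure μ] (X Y : Ω → ℝ)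
    {S : Set Ω} {κ : ℝ} (hS : μ.real Sᶜ ≤ κ) (hX : ∀ ω ∈ S, X ω ≤ 1) (hY : ∀ ω ∈ S, Y ω ≤ 1) {R ε : ℝ}
    (hR : 0 ≤ R) (hκ : 0 ≤ κ) (hε : 0 < ε)
    (h : ∀ a ∈ Icc (-1 : ℝ) 1, ∀ b ∈ Icc (-1 : ℝ) 1, a + b = 2 * R →
      μ.real {ω | a < X ω ∧ b < Y ω} ≤ κ) :
    μ.real {ω | 2 * R + ε < X ω + Y ω} ≤ (4 / ε + 3) * κ := by
  obtain ⟨G, hG⟩ : ∃ G, G = ⌈4 / ε⌉₊ := ⟨_, rfl⟩
  have hG1 : 4 / ε ≤ G := by rw [hG]; exact Nat.le_ceil _
  have hG2 : (G : ℝ) < 4 / ε + 1 := by rw [hG]; exact Nat.ceil_lt_add_one (by positivity)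
  have hGp : (0 : ℝ) < G := lt_of_lt_of_le (by positivity) hG1
  obtain ⟨w, hw⟩ : ∃ w : ℝ, w = 2 / G := ⟨_, rfl⟩
  have hw0 : 0 < w := by rw [hw]; positivity
  have hwG : w * G = 2 := by rw [hw]; field_simp
  have hwε : 2 * w ≤ ε := by
    rw [hw, ← mul_div_assoc, div_le_iff₀ hGp]
    rw [div_le_iff₀ hε] at hG1
    linarith
  obtain ⟨Q, hQ⟩ : ∃ Q : ℕ → Set Ω, Q = fun i : ℕ =>
    {ω | -1 + (i : ℝ) * w < X ω ∧ 2 * R + 1 - (i : ℝ) * w < Y ω} := ⟨_, rfl⟩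
  have hQκ : ∀ i ∈ Finset.range (G + 1), μ.real (Q i) ≤ κ := by
    intro i hi
    rw [Finset.mem_range] at hi
    have hiG : (i : ℝ) ≤ G := by exact_mod_cast (by omega : i ≤ G)
    have hi1 : (i : ℝ) * w ≤ 2 := by
      calc (i : ℝ) * w ≤ G * w := mul_le_mul_of_nonneg_right hiG hw0.le
        _ = 2 := by rw [mul_comm, hwG]
    have hi0 : 0 ≤ (i : ℝ) * w := by positivity
    rcases le_or_gt (2 * R + 1 - i * w) 1 with hc | hc
    · rw [hQ]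
      exact h (-1 + i * w) ⟨by linarith, by linarith⟩ (2 * R + 1 - i * w) ⟨by linarith, hc⟩ (by ring)
    · refine (measureReal_mono ?_).trans hS
      intro ω hω hωS
      rw [hQ] at hω
      have := hω.2
      have := hY ω hωS
      linarith
  have hcov : {ω | 2 * R + ε < X ω + Y ω} ⊆ (⋃ i ∈ Finset.range (G + 1), Q i) ∪ Sᶜ := by
    intro ω hω
    by_cases hωS : ω ∈ S
    · left
      have h1 := hX ω hωS
      have h2 := hY ω hωS
      have h3 : 2 * R + ε < X ω + Y ω := hω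
      have h4 : 2 * w < X ω + 1 := by linarith
      have h5 : 2 ≤ (X ω + 1) / w := by
        rw [le_div_iff₀ hw0]
        exact h4.le
      obtain ⟨j, hj⟩ : ∃ j, j = ⌊(X ω + 1) / w⌋₊ := ⟨_, rfl⟩
      have hj2 : 2 ≤ j := by
        rw [hj]
        exact Nat.le_floor (by exact_mod_cast h5)
      have hj3 : (j : ℝ) ≤ (X ω + 1) / w := by
        rw [hj]
        exact Nat.floor_le (by linarith)
      have hj4 : (X ω + 1) / w < j + 1 := by
        rw [hj]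
        exact Nat.lt_floor_add_one _
      rw [le_div_iff₀ hw0] at hj3
      rw [div_lt_iff₀ hw0] at hj4
      obtain ⟨i, rfl⟩ : ∃ i, j = i + 1 := ⟨j - 1, by omega⟩
      push_cast at hj3 hj4
      rw [mem_iUnion₂]
      refine ⟨i, ?_, ?_⟩
      · rw [Finset.mem_range]
        have : (i : ℝ) * w < G * w := by
          rw [mul_comm (G : ℝ), hwG]
          linarith
        have : (i : ℝ) < G := lt_of_mul_lt_mul_right this hw0.le
        have : i < G := by exact_mod_cast this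
        omega
      · rw [hQ]
        show -1 + i * w < X ω ∧ 2 * R + 1 - i * w < Y ω
        constructor <;> linarith
    · right
      exact hωS
  calc μ.real {ω | 2 * R + ε < X ω + Y ω} ≤ μ.real ((⋃ i ∈ Finset.range (G + 1), Q i) ∪ Sᶜ) :=
        measureReal_mono hcov
    _ ≤ μ.real (⋃ i ∈ Finset.range (G + 1), Q i) + μ.real Sᶜ := measureReal_union_le _ _
    _ ≤ μ.real (⋃ i ∈ Finset.range (G + 1), Q i) + κ := by linarith
    _ ≤ ∑ i ∈ Finset.range (G + 1), μ.real (Q i) + κ := by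
        have := measureReal_biUnion_finset_le (μ := μ) (Finset.range (G + 1)) Q
        linarith
    _ ≤ ∑ i ∈ Finset.range (G + 1), κ + κ := by
        have := Finset.sum_le_sum hQκ
        linarith
    _ = (G + 2) * κ := by
        rw [Finset.sum_const, Finset.card_range, nsmul_eq_mul]
        push_cast
        ring
    _ ≤ (4 / ε + 3) * κ := by
        refine mul_le_mul_of_nonneg_right ?_ hκ
        linarith

theorem oct_disj {Ω : Type*} [MeasurableSpace Ω] (μ : Measure Ω) [IsFiniteMeasure μ] {A B C : Set Ω}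
    (hB : MeasurableSet B) (hd : Disjoint A B) (hA : A ⊆ C) (hBC : B ⊆ C) :
    μ.real A ≤ μ.real C - μ.real B := by
  have h1 := measureReal_union (μ := μ) hd hB
  have h2 := measureReal_mono (μ := μ) (union_subset hA hBC)
  linarith

/-- **The octagon.** -/
theorem oct_det (μ : Measure (ℝ × ℝ)) [IsFiniteMeasure μ]
    {τ δ ε : ℝ} (hsq : μ.real (Icc (-1 : ℝ) 1 ×ˢ Icc (-1 : ℝ) 1)ᶜ ≤ 4 * δ) (h0 : 0 ≤ τ) (h1 : τ ≤ 1)
    (hδ : 0 ≤ δ) (hε : 0 < ε)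
    (m1 : ∀ a ∈ Icc (-1 : ℝ) 1, μ.real {p | p.1 ≤ a} ≤ (1 + a) / 2 + δ)
    (m2 : ∀ a ∈ Icc (-1 : ℝ) 1, μ.real {p | -a ≤ p.1} ≤ (1 + a) / 2 + δ)
    (m3 : ∀ b ∈ Icc (-1 : ℝ) 1, μ.real {p | b < p.2} ≤ (1 - b) / 2 + δ)
    (q1 : ∀ a ∈ Icc (-1 : ℝ) 1, ∀ b ∈ Icc (-1 : ℝ) 1,
      DD ((a + b) / 2) τ + (a - b) / 4 - δ ≤ μ.real (Icc (-1) a ×ˢ Ioc b 1))
    (q2 : ∀ a ∈ Icc (-1 : ℝ) 1, ∀ b ∈ Icc (-1 : ℝ) 1,
      DD ((a + b) / 2) (1 - τ) + (a - b) / 4 - δ ≤ μ.real (Icc (-a) 1 ×ˢ Ioc b 1)) :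
    μ.real {p | 2 * √(1 - (1 - τ) ^ 2) + ε < |p.1 - p.2| ∨ 2 * √(1 - τ ^ 2) + ε < |p.1 + p.2|} ≤
      16 * (4 / ε + 3) * δ := by
  -- the value of `DD` at the boundary
  have hDD : ∀ t : ℝ, 0 ≤ t → t ≤ 1 → ∀ u : ℝ, |u| = √(1 - t ^ 2) → DD u t = (1 - |u|) / 2 := by
    intro t ht0 ht1 u hu
    have e1 : (0 : ℝ) ≤ 1 - t ^ 2 := by nlinarith
    refine DD_eq_of_le ?_ ?_
    · rw [hu]
      refine Real.sqrt_le_one.2 ?_
      nlinarith
    · rw [← sq_abs, hu, Real.sq_sqrt e1, sub_sub_cancel, Real.sqrt_sq ht0]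
  obtain ⟨R, hR⟩ : ∃ R, R = √(1 - τ ^ 2) := ⟨_, rfl⟩
  obtain ⟨R', hR'⟩ : ∃ R', R' = √(1 - (1 - τ) ^ 2) := ⟨_, rfl⟩
  have hR0 : 0 ≤ R := by rw [hR]; exact Real.sqrt_nonneg _
  have hR0' : 0 ≤ R' := by rw [hR']; exact Real.sqrt_nonneg _
  have hκ : 0 ≤ 4 * δ := by linarith
  have hI : ∀ a ∈ Icc (-1 : ℝ) 1, -a ∈ Icc (-1 : ℝ) 1 := fun a ha => ⟨by linarith [ha.2], by linarith [ha.1]⟩
  -- the four corners
  have c1 : μ.real {p : ℝ × ℝ | 2 * R + ε < p.1 + p.2} ≤ (4 / ε + 3) * (4 * δ) := by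
    refine oct_corner μ (fun p => p.1) (fun p => p.2) hsq (fun p hp => hp.1.2) (fun p hp => hp.2.2) hR0 hκ hε ?_
    intro a ha b hb hab
    have e1 := oct_disj μ (A := {p : ℝ × ℝ | a < p.1 ∧ b < p.2}) (B := Icc (-1) a ×ˢ Ioc b 1)
      (C := {p : ℝ × ℝ | b < p.2}) (measurableSet_Icc.prod measurableSet_Ioc) (by
        rw [Set.disjoint_left]
        rintro p ⟨hp, -⟩ ⟨⟨-, hp'⟩, -⟩
        exact absurd hp (not_lt.2 hp')) (fun p hp => hp.2) (fun p hp => hp.2.1)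
    have e2 := m3 b hb
    have e3 := q1 a ha b hb
    rw [hDD τ h0 h1 _ (by rw [abs_of_nonneg (by linarith), ← hR]; linarith), abs_of_nonneg (by linarith)] at e3
    linarith
  have c2 : μ.real {p : ℝ × ℝ | 2 * R + ε < -p.1 + -p.2} ≤ (4 / ε + 3) * (4 * δ) := by
    refine oct_corner μ (fun p => -p.1) (fun p => -p.2) hsq (fun p hp => by linarith [hp.1.1])
      (fun p hp => by linarith [hp.2.1]) hR0 hκ hε ?_
    intro a ha b hb hab
    have e1 := oct_disj μ (A := {p : ℝ × ℝ | a < -p.1 ∧ b < -p.2}) (B := Icc (-1) (-a) ×ˢ Ioc (-b) 1)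
      (C := {p : ℝ × ℝ | p.1 ≤ -a}) (measurableSet_Icc.prod measurableSet_Ioc) (by
        rw [Set.disjoint_left]
        rintro p ⟨-, hp⟩ ⟨-, ⟨hp', -⟩⟩
        linarith) (fun p hp => by
          have := hp.1
          show p.1 ≤ -a
          linarith) (fun p hp => hp.1.2)
    have e2 := m1 (-a) (hI a ha)
    have e3 := q1 (-a) (hI a ha) (-b) (hI b hb)
    rw [hDD τ h0 h1 _ (by rw [abs_of_nonpos (by linarith), ← hR]; linarith), abs_of_nonpos (by linarith)] at e3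
    linarith
  have c3 : μ.real {p : ℝ × ℝ | 2 * R' + ε < -p.1 + p.2} ≤ (4 / ε + 3) * (4 * δ) := by
    refine oct_corner μ (fun p => -p.1) (fun p => p.2) hsq (fun p hp => by linarith [hp.1.1])
      (fun p hp => hp.2.2) hR0' hκ hε ?_
    intro a ha b hb hab
    have e1 := oct_disj μ (A := {p : ℝ × ℝ | a < -p.1 ∧ b < p.2}) (B := Icc (-a) 1 ×ˢ Ioc b 1)
      (C := {p : ℝ × ℝ | b < p.2}) (measurableSet_Icc.prod measurableSet_Ioc) (by
        rw [Set.disjoint_left]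
        rintro p ⟨hp, -⟩ ⟨⟨hp', -⟩, -⟩
        linarith) (fun p hp => hp.2) (fun p hp => hp.2.1)
    have e2 := m3 b hb
    have e3 := q2 a ha b hb
    rw [hDD (1 - τ) (by linarith) (by linarith) _ (by rw [abs_of_nonneg (by linarith), ← hR']; linarith),
      abs_of_nonneg (by linarith)] at e3
    linarith
  have c4 : μ.real {p : ℝ × ℝ | 2 * R' + ε < p.1 + -p.2} ≤ (4 / ε + 3) * (4 * δ) := by
    refine oct_corner μ (fun p => p.1) (fun p => -p.2) hsq (fun p hp => hp.1.2)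
      (fun p hp => by linarith [hp.2.1]) hR0' hκ hε ?_
    intro a ha b hb hab
    have e1 := oct_disj μ (A := {p : ℝ × ℝ | a < p.1 ∧ b < -p.2}) (B := Icc (-(-a)) 1 ×ˢ Ioc (-b) 1)
      (C := {p : ℝ × ℝ | -(-a) ≤ p.1}) (measurableSet_Icc.prod measurableSet_Ioc) (by
        rw [Set.disjoint_left]
        rintro p ⟨-, hp⟩ ⟨-, ⟨hp', -⟩⟩
        linarith) (fun p hp => by
          have := hp.1
          show -(-a) ≤ p.1
          linarith) (fun p hp => hp.1.1)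
    have e2 := m2 (-a) (hI a ha)
    have e3 := q2 (-a) (hI a ha) (-b) (hI b hb)
    rw [hDD (1 - τ) (by linarith) (by linarith) _ (by rw [abs_of_nonpos (by linarith), ← hR']; linarith),
      abs_of_nonpos (by linarith)] at e3
    linarith
  rw [← hR, ← hR']
  have hcov : {p : ℝ × ℝ | 2 * R' + ε < |p.1 - p.2| ∨ 2 * R + ε < |p.1 + p.2|} ⊆
      (({p : ℝ × ℝ | 2 * R + ε < p.1 + p.2} ∪ {p : ℝ × ℝ | 2 * R + ε < -p.1 + -p.2}) ∪
        {p : ℝ × ℝ | 2 * R' + ε < -p.1 + p.2}) ∪ {p : ℝ × ℝ | 2 * R' + ε < p.1 + -p.2} := by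
    rintro p (hp | hp)
    · rcases lt_abs.1 hp with h | h
      · right
        show 2 * R' + ε < p.1 + -p.2
        linarith
      · left; right
        show 2 * R' + ε < -p.1 + p.2
        linarith
    · rcases lt_abs.1 hp with h | h
      · left; left; left
        exact h
      · left; left; right
        show 2 * R + ε < -p.1 + -p.2
        linarith
  refine (measureReal_mono hcov).trans ?_
  have u1 := measureReal_union_le (μ := μ) (({p : ℝ × ℝ | 2 * R + ε < p.1 + p.2} ∪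
      {p : ℝ × ℝ | 2 * R + ε < -p.1 + -p.2}) ∪ {p : ℝ × ℝ | 2 * R' + ε < -p.1 + p.2})
      {p : ℝ × ℝ | 2 * R' + ε < p.1 + -p.2}
  have u2 := measureReal_union_le (μ := μ) ({p : ℝ × ℝ | 2 * R + ε < p.1 + p.2} ∪
      {p : ℝ × ℝ | 2 * R + ε < -p.1 + -p.2}) {p : ℝ × ℝ | 2 * R' + ε < -p.1 + p.2}
  have u3 := measureReal_union_le (μ := μ) {p : ℝ × ℝ | 2 * R + ε < p.1 + p.2}
      {p : ℝ × ℝ | 2 * R + ε < -p.1 + -p.2}
  linarith

/-- The octagon, with one-sided bounds of the marginals. -/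
theorem octagon_det : ∀ ε : ℝ, 0 < ε → ∃ C > (0 : ℝ), ∀ τ ∈ Icc (0 : ℝ) 1, ∀ (μ : Measure (ℝ × ℝ)),
    IsProbabilityMeasure μ → ∀ δ : ℝ, 0 ≤ δ →
    (∀ a ∈ Icc (-1 : ℝ) 1, μ {p | p.1 ≤ a} ≤ ENNReal.ofReal ((1 + a) / 2 + δ)) →
    (∀ b ∈ Icc (-1 : ℝ) 1, μ {p | b < p.1} ≤ ENNReal.ofReal ((1 - b) / 2 + δ)) →
    (∀ a ∈ Icc (-1 : ℝ) 1, μ {p | p.2 ≤ a} ≤ ENNReal.ofReal ((1 + a) / 2 + δ)) →
    (∀ b ∈ Icc (-1 : ℝ) 1, μ {p | b < p.2} ≤ ENNReal.ofReal ((1 - b) / 2 + δ)) →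
    (∀ a ∈ Icc (-1 : ℝ) 1, ∀ b ∈ Icc (-1 : ℝ) 1,
      ENNReal.ofReal (DD ((a + b) / 2) τ + (a - b) / 4 - δ) ≤ μ (Icc (-1) a ×ˢ Ioc b 1) ∧
      ENNReal.ofReal (DD ((a + b) / 2) (1 - τ) + (a - b) / 4 - δ) ≤ μ (Icc (-a) 1 ×ˢ Ioc b 1)) →
    μ {p | 2 * √(1 - (1 - τ) ^ 2) + ε < |p.1 - p.2| ∨ 2 * √(1 - τ ^ 2) + ε < |p.1 + p.2|} ≤
      ENNReal.ofReal (C * δ) := by
  intro ε hε
  refine ⟨16 * (4 / ε + 3), by positivity, ?_⟩
  intro τ hτ μ _ δ hδ h1 h2 h3 h4 hq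
  have real : ∀ (S : Set (ℝ × ℝ)) (x : ℝ), 0 ≤ x → μ S ≤ ENNReal.ofReal x → μ.real S ≤ x := fun S x hx h =>
    ENNReal.toReal_le_of_le_ofReal hx h
  have hb0 : ∀ b ∈ Icc (-1 : ℝ) 1, 0 ≤ (1 - b) / 2 + δ := fun b hb => by linarith [hb.2]
  have ha0 : ∀ a ∈ Icc (-1 : ℝ) 1, 0 ≤ (1 + a) / 2 + δ := fun a ha => by linarith [ha.1]
  have i1 : (-1 : ℝ) ∈ Icc (-1 : ℝ) 1 := ⟨le_rfl, by norm_num⟩
  have i2 : (1 : ℝ) ∈ Icc (-1 : ℝ) 1 := ⟨by norm_num, le_rfl⟩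
  have hsq : μ.real (Icc (-1 : ℝ) 1 ×ˢ Icc (-1 : ℝ) 1)ᶜ ≤ 4 * δ := by
    have hcov : (Icc (-1 : ℝ) 1 ×ˢ Icc (-1 : ℝ) 1)ᶜ ⊆
        (({p : ℝ × ℝ | p.1 ≤ -1} ∪ {p | 1 < p.1}) ∪ {p | p.2 ≤ -1}) ∪ {p | 1 < p.2} := by
      intro p hp
      by_contra hc
      refine hp ⟨⟨?_, ?_⟩, ?_, ?_⟩
      · by_contra h
        exact hc (Or.inl (Or.inl (Or.inl (not_le.1 h).le)))
      · by_contra h
        exact hc (Or.inl (Or.inl (Or.inr (not_le.1 h))))
      · by_contra h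
        exact hc (Or.inl (Or.inr (not_le.1 h).le))
      · by_contra h
        exact hc (Or.inr (not_le.1 h))
    refine (measureReal_mono hcov).trans ?_
    have u1 := measureReal_union_le (μ := μ) (({p : ℝ × ℝ | p.1 ≤ -1} ∪ {p | 1 < p.1}) ∪ {p | p.2 ≤ -1})
      {p | 1 < p.2}
    have u2 := measureReal_union_le (μ := μ) ({p : ℝ × ℝ | p.1 ≤ -1} ∪ {p | 1 < p.1}) {p | p.2 ≤ -1}
    have u3 := measureReal_union_le (μ := μ) {p : ℝ × ℝ | p.1 ≤ -1} {p | 1 < p.1}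
    have v1 := real _ _ (ha0 _ i1) (h1 _ i1)
    have v2 := real _ _ (hb0 _ i2) (h2 _ i2)
    have v3 := real _ _ (ha0 _ i1) (h3 _ i1)
    have v4 := real _ _ (hb0 _ i2) (h4 _ i2)
    linarith
  have m2 : ∀ a ∈ Icc (-1 : ℝ) 1, μ.real {p | -a ≤ p.1} ≤ (1 + a) / 2 + δ := by
    intro a ha
    rcases lt_or_eq_of_le ha.2 with h | h
    · refine le_of_forall_pos_le_add fun e he => ?_
      obtain ⟨d, hd⟩ : ∃ d, d = min e (1 - a) := ⟨_, rfl⟩
      have hd0 : 0 < d := by rw [hd]; exact lt_min he (by linarith)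
      have hd1 : d ≤ e := by rw [hd]; exact min_le_left _ _
      have hd2 : d ≤ 1 - a := by rw [hd]; exact min_le_right _ _
      have hI : -a - d ∈ Icc (-1 : ℝ) 1 := ⟨by linarith, by linarith [ha.1]⟩
      have v := real _ _ (hb0 _ hI) (h2 _ hI)
      have w : μ.real {p | -a ≤ p.1} ≤ μ.real {p | -a - d < p.1} := measureReal_mono fun p hp => by
        have : -a ≤ p.1 := hp
        show -a - d < p.1
        linarith
      linarith
    · rw [h]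
      have : μ.real {p | -(1 : ℝ) ≤ p.1} ≤ 1 := measureReal_le_one
      linarith
  have hlow : ∀ (S : Set (ℝ × ℝ)) (x : ℝ), ENNReal.ofReal x ≤ μ S → x ≤ μ.real S := fun S x h =>
    (ENNReal.ofReal_le_iff_le_toReal (measure_ne_top _ _)).1 h
  have hdet := oct_det μ hsq hτ.1 hτ.2 hδ hε (fun a ha => real _ _ (ha0 a ha) (h1 a ha)) m2
    (fun b hb => real _ _ (hb0 b hb) (h4 b hb)) (fun a ha b hb => hlow _ _ (hq a ha b hb).1)
    (fun a ha b hb => hlow _ _ (hq a ha b hb).2)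
  exact (ENNReal.le_ofReal_iff_toReal_le (measure_ne_top _ _) (by positivity)).2 hdet

end Pool.Agent.SNL63
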