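import Pool.Agent.SNL63.PairsFin
import Pool.Agent.SNL63.Octagon

/-!
# The trajectories
-/

namespace Pool.Agent.SNL63

open Pool.Agent.SN8 MeasureTheory Set Filter Topology
open scoped ENNReal Real

theorem margin_apply (n : ℕ) {S : Set ℝ} (hS : MeasurableSet S) [DecidablePred fun i : ℕ => 2 * (i : ℝ) / n - 1 ∈ S] :
    margin n S = (n : ℝ≥0∞)⁻¹ * (((Finset.Icc 1 n).filter fun i : ℕ => 2 * (i : ℝ) / n - 1 ∈ S).card : ℝ≥0∞) := by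
  rw [margin, Measure.smul_apply, smul_eq_mul, Measure.finsetSum_apply, Finset.card_filter, Nat.cast_sum]
  congr 1
  refine Finset.sum_congr rfl fun i _ => ?_
  rw [Measure.dirac_apply' _ hS, indicator_apply]
  split_ifs <;> simp

theorem ennreal_div {n : ℕ} (hn : 1 ≤ n) (q : ℕ) :
    (n : ℝ≥0∞)⁻¹ * (q : ℝ≥0∞) = ENNReal.ofReal ((q : ℝ) / n) := by
  have hnp : (0 : ℝ) < n := by exact_mod_cast hn
  rw [div_eq_inv_mul, ENNReal.ofReal_mul (by positivity), ENNReal.ofReal_inv_of_pos hnp,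
    ENNReal.ofReal_natCast, ENNReal.ofReal_natCast]

theorem margin_Iic {n : ℕ} (hn : 1 ≤ n) {a : ℝ} (ha : a ∈ Icc (-1 : ℝ) 1) :
    margin n (Iic a) ≤ ENNReal.ofReal ((1 + a) / 2) := by
  classical
  have hnp : (0 : ℝ) < n := by exact_mod_cast hn
  rw [margin_apply n measurableSet_Iic, ennreal_div hn]
  refine ENNReal.ofReal_le_ofReal ?_
  rw [div_le_iff₀ hnp]
  have h1 : ((Finset.Icc 1 n).filter fun i : ℕ => 2 * (i : ℝ) / n - 1 ∈ Iic a) ⊆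
      Finset.Icc 1 ⌊(n : ℝ) * (a + 1) / 2⌋₊ := by
    intro i hi
    rw [Finset.mem_filter, Finset.mem_Icc] at hi
    rw [Finset.mem_Icc]
    exact ⟨hi.1.1, (le_iff_floor hn ha.1 i).1 hi.2⟩
  have h2 := Finset.card_le_card h1
  rw [Nat.card_Icc, Nat.add_sub_cancel] at h2
  have h3 : (⌊(n : ℝ) * (a + 1) / 2⌋₊ : ℝ) ≤ (n : ℝ) * (a + 1) / 2 := Nat.floor_le (by
    have : 0 ≤ a + 1 := by linarith [ha.1]
    positivity)
  have h4 : ((((Finset.Icc 1 n).filter fun i : ℕ => 2 * (i : ℝ) / n - 1 ∈ Iic a).card : ℕ) : ℝ) ≤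
      (⌊(n : ℝ) * (a + 1) / 2⌋₊ : ℝ) := by exact_mod_cast h2
  linarith

theorem margin_Ioi {n : ℕ} (hn : 1 ≤ n) {b : ℝ} (hb : b ∈ Icc (-1 : ℝ) 1) :
    margin n (Ioi b) ≤ ENNReal.ofReal ((1 - b) / 2 + 1 / n) := by
  classical
  have hnp : (0 : ℝ) < n := by exact_mod_cast hn
  rw [margin_apply n measurableSet_Ioi, ennreal_div hn]
  refine ENNReal.ofReal_le_ofReal ?_
  rw [div_le_iff₀ hnp]
  have h1 : ((Finset.Icc 1 n).filter fun i : ℕ => 2 * (i : ℝ) / n - 1 ∈ Ioi b) ⊆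
      Finset.Icc (⌊(n : ℝ) * (b + 1) / 2⌋₊ + 1) n := by
    intro i hi
    rw [Finset.mem_filter, Finset.mem_Icc] at hi
    rw [Finset.mem_Icc]
    refine ⟨?_, hi.1.2⟩
    by_contra hcon
    have := (le_iff_floor hn hb.1 i).2 (by omega)
    have h5 : b < 2 * (i : ℝ) / n - 1 := hi.2
    linarith
  have h2 := Finset.card_le_card h1
  rw [Nat.card_Icc] at h2
  have h6 : ⌊(n : ℝ) * (b + 1) / 2⌋₊ ≤ n := floor_le_n hb.2
  have h3 : (n : ℝ) * (b + 1) / 2 < (⌊(n : ℝ) * (b + 1) / 2⌋₊ : ℝ) + 1 := Nat.lt_floor_add_one _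
  have h7 : ((Finset.Icc 1 n).filter fun i : ℕ => 2 * (i : ℝ) / n - 1 ∈ Ioi b).card +
      ⌊(n : ℝ) * (b + 1) / 2⌋₊ ≤ n := by omega
  have h8 : ((((Finset.Icc 1 n).filter fun i : ℕ => 2 * (i : ℝ) / n - 1 ∈ Ioi b).card : ℕ) : ℝ) +
      (⌊(n : ℝ) * (b + 1) / 2⌋₊ : ℝ) ≤ n := by exact_mod_cast h7
  have h9 : ((1 - b) / 2 + 1 / n) * n = (n : ℝ) * (1 - b) / 2 + 1 := by
    field_simp
  rw [h9]
  linarith

theorem eta2_margins {n : ℕ} (hn : 2 ≤ n) {k : List ℕ} (hk : IsNetwork n k) {s t : ℝ} (h0 : 0 ≤ s)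
    (hst : s ≤ t) (h1 : t ≤ 1) :
    (eta2 n k s t).map Prod.fst = margin n ∧ (eta2 n k s t).map Prod.snd = margin n := by
  obtain ⟨i, hi, r, hr, _, he⟩ := eta2_rot hn hk h0 hst h1
  rw [he]
  exact eta_margins (rotN_net hk) r

theorem eta2_prob {n : ℕ} (hn : 1 ≤ n) (k : List ℕ) (s t : ℝ) : IsProbabilityMeasure (eta2 n k s t) := by
  refine ⟨?_⟩
  rw [eta2, Measure.smul_apply, smul_eq_mul, Measure.finsetSum_apply]
  simp only [measure_univ, Finset.sum_const, Nat.card_Icc, Nat.add_sub_cancel, nsmul_eq_mul, mul_one]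
  exact ENNReal.inv_mul_cancel (by
    rw [Nat.cast_ne_zero]
    omega) (ENNReal.natCast_ne_top n)

/-- too large a mass outside the octagon -/
def BO (ε τ : ℝ) (μ : Measure (ℝ × ℝ)) : Prop :=
  ENNReal.ofReal ε < μ {p | 2 * √(1 - (1 - τ) ^ 2) + ε < |p.1 - p.2| ∨ 2 * √(1 - τ ^ 2) + ε < |p.1 + p.2|}

/-- **The trajectories.** -/
theorem traj_of
    (hoct : ∀ ε : ℝ, 0 < ε → ∃ C > (0 : ℝ), ∀ τ ∈ Icc (0 : ℝ) 1, ∀ (μ : Measure (ℝ × ℝ)),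
      IsProbabilityMeasure μ → ∀ δ : ℝ, 0 ≤ δ →
      (∀ a ∈ Icc (-1 : ℝ) 1, μ {p | p.1 ≤ a} ≤ ENNReal.ofReal ((1 + a) / 2 + δ)) →
      (∀ b ∈ Icc (-1 : ℝ) 1, μ {p | b < p.1} ≤ ENNReal.ofReal ((1 - b) / 2 + δ)) →
      (∀ a ∈ Icc (-1 : ℝ) 1, μ {p | p.2 ≤ a} ≤ ENNReal.ofReal ((1 + a) / 2 + δ)) →
      (∀ b ∈ Icc (-1 : ℝ) 1, μ {p | b < p.2} ≤ ENNReal.ofReal ((1 - b) / 2 + δ)) →
      (∀ a ∈ Icc (-1 : ℝ) 1, ∀ b ∈ Icc (-1 : ℝ) 1,
        ENNReal.ofReal (DD ((a + b) / 2) τ + (a - b) / 4 - δ) ≤ μ (Icc (-1) a ×ˢ Ioc b 1) ∧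
        ENNReal.ofReal (DD ((a + b) / 2) (1 - τ) + (a - b) / 4 - δ) ≤ μ (Icc (-a) 1 ×ˢ Ioc b 1)) →
      μ {p | 2 * √(1 - (1 - τ) ^ 2) + ε < |p.1 - p.2| ∨ 2 * √(1 - τ ^ 2) + ε < |p.1 + p.2|} ≤
        ENNReal.ofReal (C * δ))
    {ε : ℝ} (hε : 0 < ε) :
    ∃ c₁ > (0 : ℝ), ∃ c₂ > (0 : ℝ), ∀ n : ℕ, 2 ≤ n →
      prob n (fun k => ∃ s t : ℝ, 0 ≤ s ∧ s ≤ t ∧ t ≤ 1 ∧ BO ε (t - s) (eta2 n k s t)) ≤
        c₁ * Real.exp (-c₂ * (n : ℝ) ^ 2) := by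
  obtain ⟨C, hC, hoct⟩ := hoct ε hε
  obtain ⟨δ, hδ⟩ : ∃ δ, δ = ε / C := ⟨_, rfl⟩
  have hδ0 : 0 < δ := by
    rw [hδ]
    positivity
  obtain ⟨c₁, hc₁, c₂, hc₂, h⟩ := quad2 hδ0
  obtain ⟨n₁, hn₁⟩ := exists_nat_ge (1 / δ)
  refine const_of_ge (n₀ := max 2 n₁) (fun n => prob_le_one n _) hc₁ hc₂ fun n hn => ?_
  have hn2 : 2 ≤ n := (le_max_left _ _).trans hn
  have hn3 : n₁ ≤ n := (le_max_right _ _).trans hn
  have hnp : (0 : ℝ) < n := by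
    have : 0 < n := by omega
    exact_mod_cast this
  have hnδ : 1 / (n : ℝ) ≤ δ := by
    have e1 : 1 / δ ≤ n := hn₁.trans (by exact_mod_cast hn3)
    rw [div_le_iff₀ hδ0] at e1
    rw [div_le_iff₀ hnp]
    linarith
  refine (prob_mono fun k hk => ?_).trans (h n hn2)
  rintro ⟨s, t, h0, hst, h1, hB⟩
  refine ⟨s, t, h0, hst, h1, ?_⟩
  by_contra hcon
  refine absurd hB (not_lt.2 ?_)
  obtain ⟨m1, m2⟩ := eta2_margins hn2 hk h0 hst h1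
  have hn1 : 1 ≤ n := by omega
  have f1 : ∀ a ∈ Icc (-1 : ℝ) 1, margin n (Iic a) ≤ ENNReal.ofReal ((1 + a) / 2 + δ) := fun a ha =>
    (margin_Iic hn1 ha).trans (ENNReal.ofReal_le_ofReal (by linarith))
  have f2 : ∀ b ∈ Icc (-1 : ℝ) 1, margin n (Ioi b) ≤ ENNReal.ofReal ((1 - b) / 2 + δ) := fun b hb =>
    (margin_Ioi hn1 hb).trans (ENNReal.ofReal_le_ofReal (by linarith))
  have := hoct (t - s) ⟨by linarith, by linarith⟩ (eta2 n k s t) (eta2_prob hn1 k s t) δ hδ0.le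
    (fun a ha => by
      have := f1 a ha
      rw [← m1, Measure.map_apply measurable_fst measurableSet_Iic] at this
      exact this)
    (fun b hb => by
      have := f2 b hb
      rw [← m1, Measure.map_apply measurable_fst measurableSet_Ioi] at this
      exact this)
    (fun a ha => by
      have := f1 a ha
      rw [← m2, Measure.map_apply measurable_snd measurableSet_Iic] at this
      exact this)
    (fun b hb => by
      have := f2 b hb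
      rw [← m2, Measure.map_apply measurable_snd measurableSet_Ioi] at this
      exact this)
    (fun a ha b hb => by
      constructor
      · by_contra hc
        exact hcon ⟨a, ha, b, hb, Or.inl (not_le.1 hc)⟩
      · by_contra hc
        exact hcon ⟨a, ha, b, hb, Or.inr (not_le.1 hc)⟩)
  refine this.trans (le_of_eq ?_)
  rw [hδ]
  congr 1
  field_simp

/-- **The trajectories: octagon and Hoelder bounds at speed `n ^ 2`.** Between any two times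
`s ≤ t`, all but `ε n` of the particles satisfy `|σ_G(x,t) - σ_G(x,s)| ≤ 2 √(1 - (1 - (t - s))²) + ε`
and `|σ_G(x,t) + σ_G(x,s)| ≤ 2 √(1 - (t - s)²) + ε`. -/
theorem traj {ε : ℝ} (hε : 0 < ε) :
    ∃ c₁ > (0 : ℝ), ∃ c₂ > (0 : ℝ), ∀ n : ℕ, 2 ≤ n →
      prob n (fun k => ∃ s t : ℝ, 0 ≤ s ∧ s ≤ t ∧ t ≤ 1 ∧ BO ε (t - s) (eta2 n k s t)) ≤
        c₁ * Real.exp (-c₂ * (n : ℝ) ^ 2) :=
  traj_of octagon_det hε

end Pool.Agent.SNL63
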