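import Pool.Agent.SNL63.EnDefs
import Pool.Agent.SNL63.Graph
import Pool.Agent.SNL63.Traj
import Pool.Agent.SNL63.ArchRot

/-!
# Energy criterion: the limit laws, from the limits of the correlations
-/

namespace Pool.Agent.SNL63

open Pool.Agent.SN8 MeasureTheory Set Filter Topology
open scoped ENNReal Real

/-- polar coordinates with an angle in `[0, π]` and a radius of any sign -/
theorem law_polar (A B : ℝ) : ∃ R τ : ℝ, τ ∈ Icc (0 : ℝ) 1 ∧ A = R * Real.cos (π * τ) ∧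
    B = R * Real.sin (π * τ) := by
  have h1 := Complex.norm_mul_cos_arg (⟨A, B⟩ : ℂ)
  have h2 := Complex.norm_mul_sin_arg (⟨A, B⟩ : ℂ)
  have h3 := Complex.neg_pi_lt_arg (⟨A, B⟩ : ℂ)
  have h4 := Complex.arg_le_pi (⟨A, B⟩ : ℂ)
  simp only at h1 h2
  generalize Complex.arg (⟨A, B⟩ : ℂ) = θ at h1 h2 h3 h4
  generalize ‖(⟨A, B⟩ : ℂ)‖ = r at h1 h2
  have hpi := Real.pi_pos
  by_cases h : 0 ≤ θ
  · refine ⟨r, θ / π, ⟨by positivity, (div_le_one hpi).2 h4⟩, ?_, ?_⟩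
    · rw [mul_div_cancel₀ _ hpi.ne', h1]
    · rw [mul_div_cancel₀ _ hpi.ne', h2]
  · push Not at h
    refine ⟨-r, θ / π + 1, ⟨?_, ?_⟩, ?_, ?_⟩
    · have : -1 ≤ θ / π := by
        rw [le_div_iff₀ hpi]
        linarith
      linarith
    · have : θ / π ≤ 0 := div_nonpos_of_nonpos_of_nonneg h.le hpi.le
      linarith
    · rw [show π * (θ / π + 1) = θ + π by field_simp, Real.cos_add_pi]
      linarith
    · rw [show π * (θ / π + 1) = θ + π by field_simp, Real.sin_add_pi]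
      linarith

theorem law_KK_comm (n : ℕ) (k : List ℕ) (i j : ℕ) : KK n k i j = KK n k j i := by
  unfold KK
  congr 1
  exact Finset.sum_congr rfl fun x _ => mul_comm _ _

/-- the limits of the correlations, without the order of the two times -/
theorem law_KK (𝓕 : Filter ℕ) {n : ℕ → ℕ} {k : ℕ → List ℕ}
    (hK : ∀ (i j : ℕ → ℕ) (a b : ℝ), (∀ J, i J ≤ j J) → (∀ J, j J ≤ (n J).choose 2) →
      Tendsto (fun J => (i J : ℝ) / ((n J).choose 2 : ℝ)) 𝓕 (𝓝 a) →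
      Tendsto (fun J => (j J : ℝ) / ((n J).choose 2 : ℝ)) 𝓕 (𝓝 b) →
      Tendsto (fun J => KK (n J) (k J) (i J) (j J)) 𝓕 (𝓝 (1 / 3 * Real.cos (π * (b - a)))))
    {i j : ℕ → ℕ} {a b : ℝ} (hi : ∀ J, i J ≤ (n J).choose 2) (hj : ∀ J, j J ≤ (n J).choose 2)
    (hia : Tendsto (fun J => (i J : ℝ) / ((n J).choose 2 : ℝ)) 𝓕 (𝓝 a))
    (hjb : Tendsto (fun J => (j J : ℝ) / ((n J).choose 2 : ℝ)) 𝓕 (𝓝 b)) :
    Tendsto (fun J => KK (n J) (k J) (i J) (j J)) 𝓕 (𝓝 (1 / 3 * Real.cos (π * (b - a)))) := by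
  have h := hK (fun J => min (i J) (j J)) (fun J => max (i J) (j J)) (min a b) (max a b)
    (fun J => min_le_max) (fun J => max_le (hi J) (hj J)) (by
      refine (hia.min hjb).congr fun J => ?_
      rw [Nat.cast_min, min_div_div_right (Nat.cast_nonneg _)]) (by
      refine (hia.max hjb).congr fun J => ?_
      rw [Nat.cast_max, max_div_div_right (Nat.cast_nonneg _)])
  have e1 : ∀ J, KK (n J) (k J) (min (i J) (j J)) (max (i J) (j J)) = KK (n J) (k J) (i J) (j J) := by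
    intro J
    rcases le_total (i J) (j J) with h1 | h1
    · rw [min_eq_left h1, max_eq_right h1]
    · rw [min_eq_right h1, max_eq_left h1, law_KK_comm]
  have e2 : Real.cos (π * (max a b - min a b)) = Real.cos (π * (b - a)) := by
    rcases le_total a b with h1 | h1
    · rw [min_eq_left h1, max_eq_right h1]
    · rw [min_eq_right h1, max_eq_left h1, ← Real.cos_neg]
      congr 1
      ring
  rw [e2] at h
  simpa only [e1] using h

/-- the number of swaps up to a converging time -/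
theorem law_floor {𝓕 : Filter ℕ} {n : ℕ → ℕ} (hn : Tendsto n 𝓕 atTop) {s : ℕ → ℝ} (hs : ∀ J, 0 ≤ s J)
    {a : ℝ} (hsa : Tendsto s 𝓕 (𝓝 a)) :
    Tendsto (fun J => (sw_ (n J) (s J) : ℝ) / ((n J).choose 2 : ℝ)) 𝓕 (𝓝 a) := by
  have h1 : Tendsto (fun J => s J - (sw_ (n J) (s J) : ℝ) / ((n J).choose 2 : ℝ)) 𝓕 (𝓝 0) := by
    refine squeeze_zero_norm' ?_ (inv_choose_tendsto hn)
    filter_upwards [hn.eventually (eventually_ge_atTop 2)] with J hJ
    have hN : (0 : ℝ) < ((n J).choose 2 : ℝ) := by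
      exact_mod_cast Nat.choose_pos hJ
    have i1 : ((sw_ (n J) (s J) : ℕ) : ℝ) ≤ ((n J).choose 2 : ℝ) * s J :=
      Nat.floor_le (mul_nonneg hN.le (hs J))
    have i2 : ((n J).choose 2 : ℝ) * s J < ((sw_ (n J) (s J) : ℕ) : ℝ) + 1 := Nat.lt_floor_add_one _
    have i3 : s J - (sw_ (n J) (s J) : ℝ) / ((n J).choose 2 : ℝ) =
        (((n J).choose 2 : ℝ) * s J - sw_ (n J) (s J)) / ((n J).choose 2 : ℝ) := by
      field_simp
    rw [i3, Real.norm_eq_abs, abs_div, abs_of_pos hN, abs_of_nonneg (by linarith)]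
    exact div_le_div_of_nonneg_right (by linarith) hN.le
  have h2 := hsa.sub h1
  simpa using h2

theorem law_sw_le {n : ℕ} {s : ℝ} (hs : s ≤ 1) : sw_ n s ≤ n.choose 2 := by
  refine Nat.floor_le_of_le ?_
  have h0 : (0 : ℝ) ≤ n.choose 2 := Nat.cast_nonneg _
  nlinarith

/-- the mean square of a combination of three places -/
theorem law_sq (n : ℕ) (k : List ℕ) (i j m : ℕ) (ξ η R : ℝ) :
    (∑ x ∈ Finset.Icc 1 n, (ξ * pos n k i x + η * pos n k j x - R * pos n k m x) ^ 2) / n =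
      ξ ^ 2 * KK n k i i + η ^ 2 * KK n k j j + R ^ 2 * KK n k m m + 2 * ξ * η * KK n k i j -
        2 * ξ * R * KK n k i m - 2 * η * R * KK n k j m := by
  have h1 : ∀ x ∈ Finset.Icc 1 n, (ξ * pos n k i x + η * pos n k j x - R * pos n k m x) ^ 2 =
      ξ ^ 2 * (pos n k i x * pos n k i x) + η ^ 2 * (pos n k j x * pos n k j x) +
        R ^ 2 * (pos n k m x * pos n k m x) + 2 * ξ * η * (pos n k i x * pos n k j x) -
        2 * ξ * R * (pos n k i x * pos n k m x) - 2 * η * R * (pos n k j x * pos n k m x) := by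
    intro x _
    ring
  rw [Finset.sum_congr rfl h1]
  simp only [Finset.sum_add_distrib, Finset.sum_sub_distrib, ← Finset.mul_sum]
  unfold KK
  ring

theorem law_integral {n : ℕ} (k : List ℕ) (s t : ℝ) (f : ℝ × ℝ → ℝ) :
    ∫ p, f p ∂(eta2 n k s t) = (n : ℝ)⁻¹ * ∑ x ∈ Finset.Icc 1 n, f (pos n k (sw_ n s) x, pos n k (sw_ n t) x) := by
  rw [eta2, integral_smul_measure, integral_finsetSum_measure]
  · simp only [integral_dirac, ENNReal.toReal_inv, ENNReal.toReal_natCast, smul_eq_mul]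
    rfl
  · intro i _
    exact integrable_dirac (by finiteness)

/-- one-dimensional projections -/
theorem law_proj (hsnd : ∀ t : ℝ, (arch t).map Prod.snd = unif)
    (htwo : ∀ a b : ℝ, archHalf.map (fun p : ℝ × ℝ =>
      (p.1 * Real.cos (π * a) + p.2 * Real.sin (π * a), p.1 * Real.cos (π * b) + p.2 * Real.sin (π * b))) =
        arch (b - a))
    (𝓕 : Filter ℕ) [𝓕.NeBot] {n : ℕ → ℕ} {k : ℕ → List ℕ}
    (hn : Tendsto n 𝓕 atTop) (hk : ∀ J, IsNetwork (n J) (k J))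
    (hK : ∀ (i j : ℕ → ℕ) (a b : ℝ), (∀ J, i J ≤ j J) → (∀ J, j J ≤ (n J).choose 2) →
      Tendsto (fun J => (i J : ℝ) / ((n J).choose 2 : ℝ)) 𝓕 (𝓝 a) →
      Tendsto (fun J => (j J : ℝ) / ((n J).choose 2 : ℝ)) 𝓕 (𝓝 b) →
      Tendsto (fun J => KK (n J) (k J) (i J) (j J)) 𝓕 (𝓝 (1 / 3 * Real.cos (π * (b - a)))))
    {s t : ℕ → ℝ} (hs : ∀ J, 0 ≤ s J) (hst : ∀ J, s J ≤ t J) (ht : ∀ J, t J ≤ 1) {a b : ℝ}
    (hsa : Tendsto s 𝓕 (𝓝 a)) (htb : Tendsto t 𝓕 (𝓝 b))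
    {μ : ℕ → ProbabilityMeasure (ℝ × ℝ)} {ν : ProbabilityMeasure (ℝ × ℝ)}
    (hμ : ∀ J, (μ J : Measure (ℝ × ℝ)) = eta2 (n J) (k J) (s J) (t J)) (hν : Tendsto μ 𝓕 (𝓝 ν))
    (g : ℝ → ℝ) (hg : Continuous g) (hg1 : ∀ x, |g x| ≤ 1) (hgl : ∀ x y, |g x - g y| ≤ |x - y|) (ξ η : ℝ) :
    ∫ p, g (ξ * p.1 + η * p.2) ∂(ν : Measure (ℝ × ℝ)) = ∫ p, g (ξ * p.1 + η * p.2) ∂(arch (b - a)) := by
  obtain ⟨R, τ, hτ, hA, hB⟩ := law_polar (ξ * Real.cos (π * a) + η * Real.cos (π * b))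
    (ξ * Real.sin (π * a) + η * Real.sin (π * b))
  -- the limit measure
  have hc : Continuous fun p : ℝ × ℝ => g (ξ * p.1 + η * p.2) := hg.comp (by fun_prop)
  have h1 := ProbabilityMeasure.tendsto_iff_forall_integral_tendsto.1 hν
    (BoundedContinuousFunction.ofNormedAddCommGroup (fun p : ℝ × ℝ => g (ξ * p.1 + η * p.2)) hc 1
      (fun p => hg1 _))
  have h1' : Tendsto (fun J => ∫ p, g (ξ * p.1 + η * p.2) ∂(μ J : Measure (ℝ × ℝ))) 𝓕
      (𝓝 (∫ p, g (ξ * p.1 + η * p.2) ∂(ν : Measure (ℝ × ℝ)))) := h1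
  -- the uniform law
  have h2 := margin_tendsto hn (fun x => g (R * x)) (hg.comp (by fun_prop)) ⟨1, fun x => hg1 _⟩
  -- the two are close
  have hsle : ∀ J, s J ≤ 1 := fun J => (hst J).trans (ht J)
  have ht0 : ∀ J, 0 ≤ t J := fun J => (hs J).trans (hst J)
  have iA := law_floor hn hs hsa
  have iB := law_floor hn ht0 htb
  have iM := law_floor hn (s := fun _ => τ) (fun _ => hτ.1) tendsto_const_nhds
  have lA : ∀ J, sw_ (n J) (s J) ≤ (n J).choose 2 := fun J => law_sw_le (hsle J)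
  have lB : ∀ J, sw_ (n J) (t J) ≤ (n J).choose 2 := fun J => law_sw_le (ht J)
  have lM : ∀ J, sw_ (n J) τ ≤ (n J).choose 2 := fun J => law_sw_le hτ.2
  have hQ : Tendsto (fun J => (∑ x ∈ Finset.Icc 1 (n J), (ξ * pos (n J) (k J) (sw_ (n J) (s J)) x +
      η * pos (n J) (k J) (sw_ (n J) (t J)) x - R * pos (n J) (k J) (sw_ (n J) τ) x) ^ 2) / n J) 𝓕 (𝓝 0) := by
    have e := ((((((law_KK 𝓕 hK lA lA iA iA).const_mul (ξ ^ 2)).add
      ((law_KK 𝓕 hK lB lB iB iB).const_mul (η ^ 2))).add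
      ((law_KK 𝓕 hK lM lM iM iM).const_mul (R ^ 2))).add
      ((law_KK 𝓕 hK lA lB iA iB).const_mul (2 * ξ * η))).sub
      ((law_KK 𝓕 hK lA lM iA iM).const_mul (2 * ξ * R))).sub
      ((law_KK 𝓕 hK lB lM iB iM).const_mul (2 * η * R))
    have e0 : ξ ^ 2 * (1 / 3 * Real.cos (π * (a - a))) + η ^ 2 * (1 / 3 * Real.cos (π * (b - b))) +
        R ^ 2 * (1 / 3 * Real.cos (π * (τ - τ))) + 2 * ξ * η * (1 / 3 * Real.cos (π * (b - a))) -
        2 * ξ * R * (1 / 3 * Real.cos (π * (τ - a))) - 2 * η * R * (1 / 3 * Real.cos (π * (τ - b))) = 0 := by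
      have ca := Real.cos_sq_add_sin_sq (π * a)
      have cb := Real.cos_sq_add_sin_sq (π * b)
      have ct := Real.cos_sq_add_sin_sq (π * τ)
      rw [mul_sub π b a, mul_sub π τ a, mul_sub π τ b, Real.cos_sub, Real.cos_sub, Real.cos_sub]
      simp only [sub_self, mul_zero, Real.cos_zero, mul_one]
      generalize Real.cos (π * a) = x1 at *
      generalize Real.sin (π * a) = y1 at *
      generalize Real.cos (π * b) = x2 at *
      generalize Real.sin (π * b) = y2 at *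
      generalize Real.cos (π * τ) = x3 at *
      generalize Real.sin (π * τ) = y3 at *
      have f1 : ξ ^ 2 + η ^ 2 + 2 * ξ * η * (x2 * x1 + y2 * y1) = R ^ 2 := by
        calc ξ ^ 2 + η ^ 2 + 2 * ξ * η * (x2 * x1 + y2 * y1)
            = ξ ^ 2 * (x1 ^ 2 + y1 ^ 2) + η ^ 2 * (x2 ^ 2 + y2 ^ 2) + 2 * ξ * η * (x2 * x1 + y2 * y1) := by
              rw [ca, cb]
              ring
          _ = (ξ * x1 + η * x2) ^ 2 + (ξ * y1 + η * y2) ^ 2 := by ring
          _ = R ^ 2 * (x3 ^ 2 + y3 ^ 2) := by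
              rw [hA, hB]
              ring
          _ = R ^ 2 := by
              rw [ct]
              ring
      have f2 : ξ * (x3 * x1 + y3 * y1) + η * (x3 * x2 + y3 * y2) = R := by
        calc ξ * (x3 * x1 + y3 * y1) + η * (x3 * x2 + y3 * y2)
            = x3 * (ξ * x1 + η * x2) + y3 * (ξ * y1 + η * y2) := by ring
          _ = R * (x3 ^ 2 + y3 ^ 2) := by
              rw [hA, hB]
              ring
          _ = R := by
              rw [ct]
              ring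
      linear_combination (1 / 3) * f1 - (2 * R / 3) * f2
    rw [e0] at e
    refine e.congr fun J => ?_
    rw [law_sq]
  have h3 : Tendsto (fun J => ∫ p, g (ξ * p.1 + η * p.2) ∂(μ J : Measure (ℝ × ℝ)) -
      ∫ x, g (R * x) ∂(margin (n J))) 𝓕 (𝓝 0) := by
    have hQs : Tendsto (fun J => √((∑ x ∈ Finset.Icc 1 (n J), (ξ * pos (n J) (k J) (sw_ (n J) (s J)) x +
        η * pos (n J) (k J) (sw_ (n J) (t J)) x - R * pos (n J) (k J) (sw_ (n J) τ) x) ^ 2) / n J)) 𝓕 (𝓝 0) := by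
      have := hQ.sqrt
      rwa [Real.sqrt_zero] at this
    refine squeeze_zero_norm' ?_ hQs
    filter_upwards [hn.eventually (eventually_ge_atTop 1)] with J hJ
    have hn0 : (0 : ℝ) < n J := by exact_mod_cast hJ
    rw [hμ, law_integral, integral_margin,
      ← sum_place (l := (k J).take (sw_ (n J) τ)) (fun j hj => (hk J).2.1 j (List.mem_of_mem_take hj))
      (fun i => g (R * (2 * (i : ℝ) / n J - 1))), ← mul_sub, ← Finset.sum_sub_distrib, Real.norm_eq_abs]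
    apply Real.abs_le_sqrt
    generalize hu : (fun x => ξ * pos (n J) (k J) (sw_ (n J) (s J)) x +
        η * pos (n J) (k J) (sw_ (n J) (t J)) x - R * pos (n J) (k J) (sw_ (n J) τ) x) = u
    have i1 : |∑ x ∈ Finset.Icc 1 (n J), (g (ξ * pos (n J) (k J) (sw_ (n J) (s J)) x +
        η * pos (n J) (k J) (sw_ (n J) (t J)) x) -
          g (R * (2 * (place ((k J).take (sw_ (n J) τ)) x : ℝ) / n J - 1)))| ≤
        ∑ x ∈ Finset.Icc 1 (n J), |u x| := by
      refine (Finset.abs_sum_le_sum_abs _ _).trans (Finset.sum_le_sum fun x _ => ?_)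
      rw [← hu]
      exact hgl _ _
    have i2 : (∑ x ∈ Finset.Icc 1 (n J), |u x|) ^ 2 ≤ n J * ∑ x ∈ Finset.Icc 1 (n J), u x ^ 2 := by
      have := sq_sum_le_card_mul_sum_sq (s := Finset.Icc 1 (n J)) (f := fun x => |u x|)
      simpa only [sq_abs, Nat.card_Icc, Nat.add_sub_cancel] using this
    have i3 : (∑ x ∈ Finset.Icc 1 (n J), (ξ * pos (n J) (k J) (sw_ (n J) (s J)) x +
        η * pos (n J) (k J) (sw_ (n J) (t J)) x - R * pos (n J) (k J) (sw_ (n J) τ) x) ^ 2) =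
        ∑ x ∈ Finset.Icc 1 (n J), u x ^ 2 := by
      rw [← hu]
    rw [i3, mul_pow, ← sq_abs (∑ x ∈ Finset.Icc 1 (n J), _)]
    calc ((n J : ℝ)⁻¹) ^ 2 * |_| ^ 2 ≤ ((n J : ℝ)⁻¹) ^ 2 * (∑ x ∈ Finset.Icc 1 (n J), |u x|) ^ 2 := by
          refine mul_le_mul_of_nonneg_left ?_ (by positivity)
          exact pow_le_pow_left₀ (abs_nonneg _) i1 2
      _ ≤ ((n J : ℝ)⁻¹) ^ 2 * (n J * ∑ x ∈ Finset.Icc 1 (n J), u x ^ 2) :=
          mul_le_mul_of_nonneg_left i2 (by positivity)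
      _ = (∑ x ∈ Finset.Icc 1 (n J), u x ^ 2) / n J := by
          field_simp
  have h4 := tendsto_nhds_unique h1' (by simpa using h3.add h2)
  rw [h4, ← htwo a b, ← hsnd τ, arch, Measure.map_map measurable_snd (by fun_prop),
    integral_map (by fun_prop) (by fun_prop), integral_map (by fun_prop) (by fun_prop)]
  refine integral_congr_ae (Eventually.of_forall fun p => ?_)
  show g (R * (p.1 * Real.cos (π * τ) + p.2 * Real.sin (π * τ))) =
    g (ξ * (p.1 * Real.cos (π * a) + p.2 * Real.sin (π * a)) +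
      η * (p.1 * Real.cos (π * b) + p.2 * Real.sin (π * b)))
  congr 1
  linear_combination (-p.1) * hA - p.2 * hB

/-- the limit laws, from the limits of the correlations (with the facts on `arch` as hypotheses) -/
theorem law_limit_of (hsnd : ∀ t : ℝ, (arch t).map Prod.snd = unif)
    (htwo : ∀ a b : ℝ, archHalf.map (fun p : ℝ × ℝ =>
      (p.1 * Real.cos (π * a) + p.2 * Real.sin (π * a), p.1 * Real.cos (π * b) + p.2 * Real.sin (π * b))) =
        arch (b - a))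
    (𝓕 : Filter ℕ) [𝓕.NeBot] {n : ℕ → ℕ} {k : ℕ → List ℕ}
    (hn : Tendsto n 𝓕 atTop) (hk : ∀ J, IsNetwork (n J) (k J))
    (hK : ∀ (i j : ℕ → ℕ) (a b : ℝ), (∀ J, i J ≤ j J) → (∀ J, j J ≤ (n J).choose 2) →
      Tendsto (fun J => (i J : ℝ) / ((n J).choose 2 : ℝ)) 𝓕 (𝓝 a) →
      Tendsto (fun J => (j J : ℝ) / ((n J).choose 2 : ℝ)) 𝓕 (𝓝 b) →
      Tendsto (fun J => KK (n J) (k J) (i J) (j J)) 𝓕 (𝓝 (1 / 3 * Real.cos (π * (b - a)))))
    {s t : ℕ → ℝ} (hs : ∀ J, 0 ≤ s J) (hst : ∀ J, s J ≤ t J) (ht : ∀ J, t J ≤ 1) {a b : ℝ}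
    (hsa : Tendsto s 𝓕 (𝓝 a)) (htb : Tendsto t 𝓕 (𝓝 b))
    {μ : ℕ → ProbabilityMeasure (ℝ × ℝ)} {ν : ProbabilityMeasure (ℝ × ℝ)}
    (hμ : ∀ J, (μ J : Measure (ℝ × ℝ)) = eta2 (n J) (k J) (s J) (t J)) (hν : Tendsto μ 𝓕 (𝓝 ν)) :
    (ν : Measure (ℝ × ℝ)) = arch (b - a) := by
  refine Measure.ext_of_charFunDual (funext fun L => ?_)
  have hL : ∀ p : ℝ × ℝ, L p = L (1, 0) * p.1 + L (0, 1) * p.2 := by
    intro p
    have h1 : p = p.1 • ((1 : ℝ), (0 : ℝ)) + p.2 • ((0 : ℝ), (1 : ℝ)) := by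
      ext <;> simp
    conv_lhs => rw [h1]
    rw [map_add, map_smul, map_smul, smul_eq_mul, smul_eq_mul]
    ring
  have key : ∀ (m : Measure (ℝ × ℝ)) [IsProbabilityMeasure m], charFunDual m L =
      ((∫ p, Real.cos (L (1, 0) * p.1 + L (0, 1) * p.2) ∂m : ℝ) : ℂ) +
        ((∫ p, Real.sin (L (1, 0) * p.1 + L (0, 1) * p.2) ∂m : ℝ) : ℂ) * Complex.I := by
    intro m _
    have c1 : Integrable (fun p : ℝ × ℝ => Real.cos (L (1, 0) * p.1 + L (0, 1) * p.2)) m :=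
      Integrable.of_bound (by fun_prop) 1 (Eventually.of_forall fun p => Real.abs_cos_le_one _)
    have c2 : Integrable (fun p : ℝ × ℝ => Real.sin (L (1, 0) * p.1 + L (0, 1) * p.2)) m :=
      Integrable.of_bound (by fun_prop) 1 (Eventually.of_forall fun p => Real.abs_sin_le_one _)
    rw [charFunDual_apply, ← integral_complex_ofReal, ← integral_complex_ofReal, ← integral_mul_const, ← integral_add]
    · refine integral_congr_ae (Eventually.of_forall fun p => ?_)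
      show Complex.exp (L p * Complex.I) = _
      rw [hL, Complex.exp_mul_I, ← Complex.ofReal_cos, ← Complex.ofReal_sin]
    · exact c1.ofReal
    · exact c2.ofReal.mul_const _
  have hcos := law_proj hsnd htwo 𝓕 hn hk hK hs hst ht hsa htb hμ hν Real.cos Real.continuous_cos
    Real.abs_cos_le_one (fun x y => Real.abs_cos_sub_cos_le x y) (L (1, 0)) (L (0, 1))
  have hsin := law_proj hsnd htwo 𝓕 hn hk hK hs hst ht hsa htb hμ hν Real.sin Real.continuous_sin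
    Real.abs_sin_le_one (fun x y => Real.abs_sin_sub_sin_le x y) (L (1, 0)) (L (0, 1))
  rw [key, key, hcos, hsin]

/-- the limit laws, from the limits of the correlations -/
theorem law_limit (𝓕 : Filter ℕ) [𝓕.NeBot] {n : ℕ → ℕ} {k : ℕ → List ℕ}
    (hn : Tendsto n 𝓕 atTop) (hk : ∀ J, IsNetwork (n J) (k J))
    (hK : ∀ (i j : ℕ → ℕ) (a b : ℝ), (∀ J, i J ≤ j J) → (∀ J, j J ≤ (n J).choose 2) →
      Tendsto (fun J => (i J : ℝ) / ((n J).choose 2 : ℝ)) 𝓕 (𝓝 a) →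
      Tendsto (fun J => (j J : ℝ) / ((n J).choose 2 : ℝ)) 𝓕 (𝓝 b) →
      Tendsto (fun J => KK (n J) (k J) (i J) (j J)) 𝓕 (𝓝 (1 / 3 * Real.cos (π * (b - a)))))
    {s t : ℕ → ℝ} (hs : ∀ J, 0 ≤ s J) (hst : ∀ J, s J ≤ t J) (ht : ∀ J, t J ≤ 1) {a b : ℝ}
    (hsa : Tendsto s 𝓕 (𝓝 a)) (htb : Tendsto t 𝓕 (𝓝 b))
    {μ : ℕ → ProbabilityMeasure (ℝ × ℝ)} {ν : ProbabilityMeasure (ℝ × ℝ)}
    (hμ : ∀ J, (μ J : Measure (ℝ × ℝ)) = eta2 (n J) (k J) (s J) (t J)) (hν : Tendsto μ 𝓕 (𝓝 ν)) :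
    (ν : Measure (ℝ × ℝ)) = arch (b - a) :=
  law_limit_of arch_snd arch_two 𝓕 hn hk hK hs hst ht hsa htb hμ hν

end Pool.Agent.SNL63
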