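import Pool.Agent.SNL63.EnAlg

/-!
# The energy at all shifts from the energy at time zero (rotation invariance)
-/

namespace Pool.Agent.SNL63

open Pool.Agent.SN8 MeasureTheory Set Filter Topology
open scoped ENNReal Real

/-- the union bound over the rotations of the network -/
theorem prob_shift {n : ℕ} (hn : 2 ≤ n) (c : ℝ) {t : ℝ} (_ht : t ∈ Icc (0 : ℝ) 1) :
    prob n (fun k => ∃ i : ℕ, i + sw_ n t ≤ n.choose 2 ∧ c < EE n k i (i + sw_ n t)) ≤
      (n : ℝ) ^ 2 * prob n (fun k => c < ∫ p, (p.1 - p.2) ^ 2 ∂(eta n k t)) := by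
  have hN2 : (n.choose 2 : ℝ) + 1 ≤ (n : ℝ) ^ 2 := by
    have hn0 : (2 : ℝ) ≤ n := by exact_mod_cast hn
    have hN : (n.choose 2 : ℝ) = n * (n - 1) / 2 := Nat.cast_choose_two ℝ n
    rw [hN]
    nlinarith
  calc prob n (fun k => ∃ i : ℕ, i + sw_ n t ≤ n.choose 2 ∧ c < EE n k i (i + sw_ n t))
      ≤ prob n (fun k => ∃ i < n.choose 2 + 1,
          c < ∫ p, (p.1 - p.2) ^ 2 ∂(eta n (rotN n i k) t)) := by
        refine prob_mono ?_
        rintro k hk ⟨i, hi, hc⟩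
        refine ⟨i, by omega, ?_⟩
        rw [integral_eta (by omega), EE_rot hk hi]
        exact hc
    _ ≤ ((n.choose 2 : ℝ) + 1) * prob n (fun k => c < ∫ p, (p.1 - p.2) ^ 2 ∂(eta n k t)) :=
        prob_rot_union n (fun k => c < ∫ p, (p.1 - p.2) ^ 2 ∂(eta n k t))
    _ ≤ (n : ℝ) ^ 2 * prob n (fun k => c < ∫ p, (p.1 - p.2) ^ 2 ∂(eta n k t)) :=
        mul_le_mul_of_nonneg_right hN2 (prob_nonneg _ _)

end Pool.Agent.SNL63
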