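import Pool.Agent.SNL63.EnAlg

/-!
# Energy criterion, E8: all but few particles follow their sine curve
-/

namespace Pool.Agent.SNL63

open Pool.Agent.SN8 MeasureTheory Set Filter Topology
open scoped ENNReal Real

theorem abs_pos_le {n : ℕ} {k : List ℕ} (hk : IsNetwork n k) (i : ℕ) {x : ℕ} (hx : x ∈ Finset.Icc 1 n) :
    |pos n k i x| ≤ 1 := by
  rw [Finset.mem_Icc] at hx
  have hmem : 1 ≤ place (k.take i) x ∧ place (k.take i) x ≤ n := by
    rw [place_eq]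
    exact (Supp.P (net_take hk i)).inv.mem hx.1 hx.2
  have hn : (0 : ℝ) < n := by
    have : 0 < n := lt_of_lt_of_le hx.1 hx.2
    exact_mod_cast this
  unfold pos
  rw [abs_le]
  have e2 : (place (k.take i) x : ℝ) ≤ n := by exact_mod_cast hmem.2
  constructor
  · have : 0 ≤ 2 * (place (k.take i) x : ℝ) / n := by positivity
    linarith
  · have : 2 * (place (k.take i) x : ℝ) / n ≤ 2 := by
      rw [div_le_iff₀ hn]
      linarith
    linarith

theorem mean_sq (n : ℕ) (k : List ℕ) (i j l : ℕ) (c s : ℝ) :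
    (∑ x ∈ Finset.Icc 1 n, (pos n k i x - (c * pos n k j x + s * pos n k l x)) ^ 2) / n =
      KK n k i i + c ^ 2 * KK n k j j + s ^ 2 * KK n k l l - 2 * c * KK n k i j - 2 * s * KK n k i l +
        2 * c * s * KK n k j l := by
  unfold KK
  have h1 : ∑ x ∈ Finset.Icc 1 n, (pos n k i x - (c * pos n k j x + s * pos n k l x)) ^ 2 =
      ∑ x ∈ Finset.Icc 1 n, pos n k i x * pos n k i x + c ^ 2 * ∑ x ∈ Finset.Icc 1 n, pos n k j x * pos n k j x +
        s ^ 2 * ∑ x ∈ Finset.Icc 1 n, pos n k l x * pos n k l x -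
        2 * c * ∑ x ∈ Finset.Icc 1 n, pos n k i x * pos n k j x -
        2 * s * ∑ x ∈ Finset.Icc 1 n, pos n k i x * pos n k l x +
        2 * c * s * ∑ x ∈ Finset.Icc 1 n, pos n k j x * pos n k l x := by
    simp only [Finset.mul_sum, ← Finset.sum_add_distrib, ← Finset.sum_sub_distrib]
    exact Finset.sum_congr rfl fun x _ => by ring
  rw [h1]
  ring

theorem le_choose_two (n : ℕ) : n - 1 ≤ n.choose 2 := by
  cases n with
  | zero => simp
  | succ m =>
    rw [Nat.choose_succ_succ' m 1, Nat.choose_one_right]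
    omega

theorem tendsto_choose {𝓕 : Filter ℕ} {n : ℕ → ℕ} (hn : Tendsto n 𝓕 atTop) :
    Tendsto (fun J => ((n J).choose 2 : ℝ)) 𝓕 atTop := by
  refine tendsto_natCast_atTop_atTop.comp ?_
  exact tendsto_atTop_mono (fun J => le_choose_two (n J)) ((tendsto_sub_atTop_nat 1).comp hn)

theorem sw_le_choose (n : ℕ) {t : ℝ} (ht : t ≤ 1) : sw_ n t ≤ n.choose 2 := by
  unfold sw_
  refine Nat.floor_le_of_le ?_
  have : (0 : ℝ) ≤ (n.choose 2 : ℝ) := Nat.cast_nonneg _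
  nlinarith

theorem tendsto_sw {𝓕 : Filter ℕ} {n : ℕ → ℕ} (hn : Tendsto n 𝓕 atTop) {u : ℕ → ℝ}
    (hu : ∀ J, 0 ≤ u J) {a : ℝ} (hua : Tendsto u 𝓕 (𝓝 a)) :
    Tendsto (fun J => (sw_ (n J) (u J) : ℝ) / ((n J).choose 2 : ℝ)) 𝓕 (𝓝 a) := by
  have hN := tendsto_choose hn
  have h1 : Tendsto (fun J => u J - 1 / ((n J).choose 2 : ℝ)) 𝓕 (𝓝 a) := by
    have h2 : Tendsto (fun J => (1 : ℝ) / ((n J).choose 2 : ℝ)) 𝓕 (𝓝 0) := tendsto_const_nhds.div_atTop hN
    simpa using hua.sub h2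
  refine tendsto_of_tendsto_of_tendsto_of_le_of_le' h1 hua ?_ ?_
  · filter_upwards [hN.eventually_gt_atTop 0] with J hJ
    rw [le_div_iff₀ hJ]
    have h3 := Nat.lt_floor_add_one (((n J).choose 2 : ℝ) * u J)
    have h4 : (u J - 1 / ((n J).choose 2 : ℝ)) * ((n J).choose 2 : ℝ) = ((n J).choose 2 : ℝ) * u J - 1 := by
      field_simp
    rw [h4]
    unfold sw_
    linarith
  · filter_upwards [hN.eventually_gt_atTop 0] with J hJ
    rw [div_le_iff₀ hJ]
    have h3 := Nat.floor_le (mul_nonneg hJ.le (hu J))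
    unfold sw_
    linarith

theorem sw_zero (n : ℕ) : sw_ n 0 = 0 := by
  unfold sw_
  simp

/-- all but few particles follow their sine curve, at a given time -/
theorem sine_limit (𝓕 : Filter ℕ) [𝓕.NeBot] {n : ℕ → ℕ} {k : ℕ → List ℕ}
    (hn : Tendsto n 𝓕 atTop) (hk : ∀ J, IsNetwork (n J) (k J))
    (hK : ∀ (i j : ℕ → ℕ) (a b : ℝ), (∀ J, i J ≤ j J) → (∀ J, j J ≤ (n J).choose 2) →
      Tendsto (fun J => (i J : ℝ) / ((n J).choose 2 : ℝ)) 𝓕 (𝓝 a) →
      Tendsto (fun J => (j J : ℝ) / ((n J).choose 2 : ℝ)) 𝓕 (𝓝 b) →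
      Tendsto (fun J => KK (n J) (k J) (i J) (j J)) 𝓕 (𝓝 (1 / 3 * Real.cos (π * (b - a)))))
    {u : ℕ → ℝ} (hu : ∀ J, u J ∈ Icc (0 : ℝ) 1) {a : ℝ} (hua : Tendsto u 𝓕 (𝓝 a)) {ε : ℝ} (hε : 0 < ε) :
    ∀ᶠ J in 𝓕, (farCard (n J) (k J) ε (u J) : ℝ) ≤ ε * n J := by
  obtain ⟨iu, hiu⟩ : ∃ iu : ℕ → ℕ, ∀ J, iu J = sw_ (n J) (u J) := ⟨_, fun _ => rfl⟩
  obtain ⟨ih, hih⟩ : ∃ ih : ℕ → ℕ, ∀ J, ih J = sw_ (n J) (1 / 2) := ⟨_, fun _ => rfl⟩
  obtain ⟨c, hc⟩ : ∃ c, c = Real.cos (π * a) := ⟨_, rfl⟩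
  obtain ⟨s, hs⟩ : ∃ s, s = Real.sin (π * a) := ⟨_, rfl⟩
  have hcs : c ^ 2 + s ^ 2 = 1 := by
    rw [hc, hs]
    exact Real.cos_sq_add_sin_sq _
  have hiuN : ∀ J, iu J ≤ (n J).choose 2 := fun J => by
    rw [hiu]
    exact sw_le_choose _ (hu J).2
  have hihN : ∀ J, ih J ≤ (n J).choose 2 := fun J => by
    rw [hih]
    exact sw_le_choose _ (by norm_num)
  have hiuT : Tendsto (fun J => (iu J : ℝ) / ((n J).choose 2 : ℝ)) 𝓕 (𝓝 a) := by
    simp only [hiu]
    exact tendsto_sw hn (fun J => (hu J).1) hua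
  have hihT : Tendsto (fun J => (ih J : ℝ) / ((n J).choose 2 : ℝ)) 𝓕 (𝓝 (1 / 2)) := by
    simp only [hih]
    exact tendsto_sw hn (fun _ => by norm_num) tendsto_const_nhds
  have h0T : Tendsto (fun J => (((fun _ => 0 : ℕ → ℕ) J : ℕ) : ℝ) / ((n J).choose 2 : ℝ)) 𝓕 (𝓝 0) := by
    simp
  have k1 : Tendsto (fun J => KK (n J) (k J) (iu J) (iu J)) 𝓕 (𝓝 (1 / 3)) := by
    simpa using hK iu iu a a (fun _ => le_rfl) hiuN hiuT hiuT
  have k2 : Tendsto (fun J => KK (n J) (k J) 0 0) 𝓕 (𝓝 (1 / 3)) := by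
    simpa using hK (fun _ => 0) (fun _ => 0) 0 0 (fun _ => le_rfl) (fun _ => Nat.zero_le _) h0T h0T
  have k3 : Tendsto (fun J => KK (n J) (k J) (ih J) (ih J)) 𝓕 (𝓝 (1 / 3)) := by
    simpa using hK ih ih _ _ (fun _ => le_rfl) hihN hihT hihT
  have k4 : Tendsto (fun J => KK (n J) (k J) (iu J) 0) 𝓕 (𝓝 (1 / 3 * c)) := by
    have h := hK (fun _ => 0) iu 0 a (fun _ => Nat.zero_le _) hiuN h0T hiuT
    rw [sub_zero, ← hc] at h
    exact h.congr fun J => KK_comm _ _ _ _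
  have k5 : Tendsto (fun J => KK (n J) (k J) 0 (ih J)) 𝓕 (𝓝 0) := by
    have h := hK (fun _ => 0) ih 0 (1 / 2) (fun _ => Nat.zero_le _) hihN h0T hihT
    have h2 : (1 : ℝ) / 3 * Real.cos (π * (1 / 2 - 0)) = 0 := by
      rw [sub_zero, mul_one_div, Real.cos_pi_div_two, mul_zero]
    rw [h2] at h
    exact h
  have k6 : Tendsto (fun J => KK (n J) (k J) (iu J) (ih J)) 𝓕 (𝓝 (1 / 3 * s)) := by
    have h := hK (fun J => min (iu J) (ih J)) (fun J => max (iu J) (ih J)) (min a (1 / 2)) (max a (1 / 2))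
      (fun J => min_le_max) (fun J => max_le (hiuN J) (hihN J))
      (by
        refine (hiuT.min hihT).congr fun J => ?_
        rw [min_div_div_right (Nat.cast_nonneg _), Nat.cast_min])
      (by
        refine (hiuT.max hihT).congr fun J => ?_
        rw [max_div_div_right (Nat.cast_nonneg _), Nat.cast_max])
    have h2 : Real.cos (π * (max a (1 / 2) - min a (1 / 2))) = s := by
      rw [max_sub_min_eq_abs, hs]
      have h3 : π * |1 / 2 - a| = |π * (1 / 2 - a)| := by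
        rw [abs_mul, abs_of_pos Real.pi_pos]
      rw [h3, Real.cos_abs]
      have h4 : π * (1 / 2 - a) = π / 2 - π * a := by ring
      rw [h4, Real.cos_pi_div_two_sub]
    rw [h2] at h
    refine h.congr fun J => ?_
    rcases le_total (iu J) (ih J) with h3 | h3
    · rw [min_eq_left h3, max_eq_right h3]
    · rw [min_eq_right h3, max_eq_left h3, KK_comm]
  have hM : Tendsto (fun J => (∑ x ∈ Finset.Icc 1 (n J), (pos (n J) (k J) (iu J) x -
      (c * pos (n J) (k J) 0 x + s * pos (n J) (k J) (ih J) x)) ^ 2) / (n J : ℝ)) 𝓕 (𝓝 0) := by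
    have h := ((((k1.add (k2.const_mul (c ^ 2))).add (k3.const_mul (s ^ 2))).sub (k4.const_mul (2 * c))).sub
      (k6.const_mul (2 * s))).add (k5.const_mul (2 * c * s))
    have h2 : 1 / 3 + c ^ 2 * (1 / 3) + s ^ 2 * (1 / 3) - 2 * c * (1 / 3 * c) - 2 * s * (1 / 3 * s) +
        2 * c * s * 0 = 0 := by
      linear_combination (-(1 : ℝ) / 3) * hcs
    rw [h2] at h
    exact h.congr fun J => (mean_sq _ _ _ _ _ _ _).symm
  have hcos : Tendsto (fun J => |Real.cos (π * u J) - c| + |Real.sin (π * u J) - s|) 𝓕 (𝓝 0) := by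
    have h1 : Tendsto (fun J => Real.cos (π * u J) - c) 𝓕 (𝓝 0) := by
      have := ((Real.continuous_cos.tendsto (π * a)).comp (hua.const_mul π)).sub_const c
      rw [← hc, sub_self] at this
      exact this
    have h2 : Tendsto (fun J => Real.sin (π * u J) - s) 𝓕 (𝓝 0) := by
      have := ((Real.continuous_sin.tendsto (π * a)).comp (hua.const_mul π)).sub_const s
      rw [← hs, sub_self] at this
      exact this
    simpa using h1.abs.add h2.abs
  have hδ : 0 < ε ^ 3 / 4 := by positivity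
  filter_upwards [hM.eventually (gt_mem_nhds hδ), hcos.eventually (gt_mem_nhds (half_pos hε)),
    hn.eventually_ge_atTop 1] with J hJ1 hJ2 hJ3
  have hnpos : (0 : ℝ) < n J := by exact_mod_cast hJ3
  rw [div_lt_iff₀ hnpos] at hJ1
  obtain ⟨f, hf⟩ : ∃ f : ℕ → ℝ, ∀ x, f x = pos (n J) (k J) (iu J) x -
      (c * pos (n J) (k J) 0 x + s * pos (n J) (k J) (ih J) x) := ⟨_, fun _ => rfl⟩
  simp only [← hf] at hJ1
  obtain ⟨S, hS⟩ : ∃ S : Finset ℕ, S = ({x ∈ Finset.Icc 1 (n J) | ε < |glob (n J) (k J) x (u J) -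
    (Real.cos (π * u J) * glob (n J) (k J) x 0 +
    Real.sin (π * u J) * glob (n J) (k J) x (1 / 2))|} : Finset ℕ) := ⟨_, rfl⟩
  have hfar : farCard (n J) (k J) ε (u J) = S.card := by rw [hS, farCard]
  rw [hfar]
  have hSm : ∀ x ∈ S, (ε / 2) ^ 2 ≤ f x ^ 2 := by
    intro x hx
    rw [hS, Finset.mem_filter] at hx
    obtain ⟨hx1, hx2⟩ := hx
    rw [glob_eq_pos, glob_eq_pos, glob_eq_pos, sw_zero, ← hiu, ← hih] at hx2
    have p1 := abs_pos_le (hk J) 0 hx1
    have p2 := abs_pos_le (hk J) (ih J) hx1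
    have h1 : pos (n J) (k J) (iu J) x - (Real.cos (π * u J) * pos (n J) (k J) 0 x +
        Real.sin (π * u J) * pos (n J) (k J) (ih J) x) = f x + (-((Real.cos (π * u J) - c) * pos (n J) (k J) 0 x) +
        -((Real.sin (π * u J) - s) * pos (n J) (k J) (ih J) x)) := by
      rw [hf]
      ring
    rw [h1] at hx2
    have h2 : |(Real.cos (π * u J) - c) * pos (n J) (k J) 0 x| ≤ |Real.cos (π * u J) - c| := by
      rw [abs_mul]
      exact mul_le_of_le_one_right (abs_nonneg _) p1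
    have h3 : |(Real.sin (π * u J) - s) * pos (n J) (k J) (ih J) x| ≤ |Real.sin (π * u J) - s| := by
      rw [abs_mul]
      exact mul_le_of_le_one_right (abs_nonneg _) p2
    have h4 := abs_add_le (f x) (-((Real.cos (π * u J) - c) * pos (n J) (k J) 0 x) +
        -((Real.sin (π * u J) - s) * pos (n J) (k J) (ih J) x))
    have h5 := abs_add_le (-((Real.cos (π * u J) - c) * pos (n J) (k J) 0 x))
        (-((Real.sin (π * u J) - s) * pos (n J) (k J) (ih J) x))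
    rw [abs_neg, abs_neg] at h5
    have h6 : ε / 2 ≤ |f x| := by linarith
    calc (ε / 2) ^ 2 ≤ |f x| ^ 2 := by gcongr
      _ = f x ^ 2 := sq_abs _
  have h1 := Finset.card_nsmul_le_sum S (fun x => f x ^ 2) _ hSm
  have h2 : ∑ x ∈ S, f x ^ 2 ≤ ∑ x ∈ Finset.Icc 1 (n J), f x ^ 2 := by
    refine Finset.sum_le_sum_of_subset_of_nonneg ?_ fun x _ _ => sq_nonneg _
    rw [hS]
    exact Finset.filter_subset _ _
  rw [nsmul_eq_mul] at h1
  have h3 : (S.card : ℝ) * (ε / 2) ^ 2 ≤ ε * n J * (ε / 2) ^ 2 := by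
    calc (S.card : ℝ) * (ε / 2) ^ 2 ≤ ε ^ 3 / 4 * n J := (h1.trans h2).trans hJ1.le
      _ = ε * n J * (ε / 2) ^ 2 := by ring
  exact le_of_mul_le_mul_right h3 (by positivity)

end Pool.Agent.SNL63
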