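import Pool.Agent.SNL63.EnAlg

/-!
If all but few particles follow their sine curves then the energy at a fixed time is small.
-/

namespace Pool.Agent.SNL63

open Pool.Agent.SN8 MeasureTheory Set Filter Topology
open scoped ENNReal Real

theorem esb_sw_le {n : ℕ} {u : ℝ} (hu : u ≤ 1) : sw_ n u ≤ n.choose 2 := by
  apply Nat.floor_le_of_le
  calc (n.choose 2 : ℝ) * u ≤ (n.choose 2 : ℝ) * 1 :=
        mul_le_mul_of_nonneg_left hu (Nat.cast_nonneg _)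
    _ = _ := mul_one _

theorem esb_sw_zero (n : ℕ) : sw_ n 0 = 0 := by simp [sw_]

theorem esb_cs {s : Finset ℕ} {N δ : ℝ} (hN : 0 < N) (hδ : 0 ≤ δ) {f g : ℕ → ℝ}
    (hf : (∑ x ∈ s, f x * f x) / N ≤ 1) (hg : (∑ x ∈ s, g x ^ 2) / N ≤ δ ^ 2) :
    |(∑ x ∈ s, f x * g x) / N| ≤ δ := by
  rw [div_le_iff₀ hN] at hf hg
  have h1 := Finset.sum_mul_sq_le_sq_mul_sq s f g
  have h2 : ∑ x ∈ s, f x ^ 2 ≤ N := by
    calc ∑ x ∈ s, f x ^ 2 = ∑ x ∈ s, f x * f x := Finset.sum_congr rfl fun x _ => pow_two _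
      _ ≤ 1 * N := hf
      _ = N := one_mul N
  have h3 : 0 ≤ ∑ x ∈ s, g x ^ 2 := Finset.sum_nonneg fun x _ => sq_nonneg _
  have h4 : (∑ x ∈ s, f x * g x) ^ 2 ≤ (δ * N) ^ 2 := by
    calc (∑ x ∈ s, f x * g x) ^ 2 ≤ (∑ x ∈ s, f x ^ 2) * ∑ x ∈ s, g x ^ 2 := h1
      _ ≤ N * (δ ^ 2 * N) := mul_le_mul h2 hg h3 hN.le
      _ = (δ * N) ^ 2 := by ring
  have h5 := abs_le_of_sq_le_sq h4 (mul_nonneg hδ hN.le)
  rw [abs_div, abs_of_pos hN, div_le_iff₀ hN]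
  exact h5

/-- the deviation from the sine curve -/
noncomputable def dev (n : ℕ) (k : List ℕ) (u : ℝ) (x : ℕ) : ℝ :=
  pos n k (sw_ n u) x - (Real.cos (π * u) * pos n k 0 x + Real.sin (π * u) * pos n k (sw_ n (1 / 2)) x)

theorem esb_dev_sq {n : ℕ} {k : List ℕ} (hk : IsNetwork n k) (hn : 1 ≤ n) {ε' u : ℝ} (_hε' : 0 ≤ ε')
    (hf : (farCard n k ε' u : ℝ) ≤ ε' * n) :
    (∑ x ∈ Finset.Icc 1 n, dev n k u x ^ 2) / n ≤ ε' ^ 2 + 9 * ε' := by
  classical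
  have hN : (0 : ℝ) < n := by exact_mod_cast hn
  rw [div_le_iff₀ hN]
  have key : ∀ x ∈ Finset.Icc 1 n, dev n k u x ^ 2 ≤ ε' ^ 2 +
      (if ε' < |glob n k x u - (Real.cos (π * u) * glob n k x 0 +
        Real.sin (π * u) * glob n k x (1 / 2))| then 9 else 0) := by
    intro x hx
    have hx' := Finset.mem_Icc.1 hx
    have e0 : dev n k u x = glob n k x u - (Real.cos (π * u) * glob n k x 0 +
        Real.sin (π * u) * glob n k x (1 / 2)) := by
      rw [glob_eq_pos, glob_eq_pos, glob_eq_pos, esb_sw_zero]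
      rfl
    rw [← e0]
    split_ifs with h
    · have h1 := glob_mem hk u hx'.1 hx'.2
      have h2 := glob_mem hk 0 hx'.1 hx'.2
      have h3 := glob_mem hk (1 / 2) hx'.1 hx'.2
      have a1 : |glob n k x u| ≤ 1 := abs_le.2 h1
      have a2 : |glob n k x 0| ≤ 1 := abs_le.2 h2
      have a3 : |glob n k x (1 / 2)| ≤ 1 := abs_le.2 h3
      have c1 := Real.abs_cos_le_one (π * u)
      have c2 := Real.abs_sin_le_one (π * u)
      have b1 : |Real.cos (π * u) * glob n k x 0| ≤ 1 := by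
        rw [abs_mul]
        calc _ ≤ (1 : ℝ) * 1 := mul_le_mul c1 a2 (abs_nonneg _) zero_le_one
          _ = 1 := one_mul 1
      have b2 : |Real.sin (π * u) * glob n k x (1 / 2)| ≤ 1 := by
        rw [abs_mul]
        calc _ ≤ (1 : ℝ) * 1 := mul_le_mul c2 a3 (abs_nonneg _) zero_le_one
          _ = 1 := one_mul 1
      have d : |dev n k u x| ≤ 3 := by
        rw [e0, abs_le]
        rw [abs_le] at a1 b1 b2
        constructor <;> linarith [a1.1, a1.2, b1.1, b1.2, b2.1, b2.2]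
      have d2 : dev n k u x ^ 2 ≤ 3 ^ 2 := sq_le_sq' (abs_le.1 d).1 (abs_le.1 d).2
      nlinarith [sq_nonneg ε']
    · have h' := not_lt.1 h
      have := sq_le_sq' (abs_le.1 h').1 (abs_le.1 h').2
      linarith
  calc ∑ x ∈ Finset.Icc 1 n, dev n k u x ^ 2 ≤ ∑ x ∈ Finset.Icc 1 n, (ε' ^ 2 +
      (if ε' < |glob n k x u - (Real.cos (π * u) * glob n k x 0 +
        Real.sin (π * u) * glob n k x (1 / 2))| then (9 : ℝ) else 0)) := Finset.sum_le_sum key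
    _ = ε' ^ 2 * n + 9 * farCard n k ε' u := by
        rw [Finset.sum_add_distrib, Finset.sum_const, Nat.card_Icc, nsmul_eq_mul,
          Finset.sum_ite, Finset.sum_const, Finset.sum_const_zero, add_zero, nsmul_eq_mul, farCard]
        simp only [Nat.add_sub_cancel]
        ring
    _ ≤ ε' ^ 2 * n + 9 * (ε' * n) := by linarith
    _ = (ε' ^ 2 + 9 * ε') * n := by ring

/-- the converse: if all but few particles follow their sine curves then the energy is small -/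
theorem sine_conv {ε t : ℝ} (hε : 0 < ε) (ht : t ∈ Ioc (0 : ℝ) 1) :
    ∃ ε' > (0 : ℝ), ∃ n₀ : ℕ, ∀ n ≥ n₀, ∀ k, IsNetwork n k →
      (∀ u ∈ Icc (0 : ℝ) 1, (farCard n k ε' u : ℝ) ≤ ε' * n) →
      EE n k 0 (sw_ n t) ≤ (π ^ 2 / 3 + ε) * t ^ 2 := by
  have ht2 : 0 < t ^ 2 := pow_pos ht.1 2
  obtain ⟨η, hη⟩ : ∃ η, η = min 1 (ε * t ^ 2 / 40) := ⟨_, rfl⟩
  have hη0 : 0 < η := by rw [hη]; exact lt_min one_pos (by positivity)
  have hη1 : η ≤ 1 := by rw [hη]; exact min_le_left _ _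
  have hη2 : η ≤ ε * t ^ 2 / 40 := by rw [hη]; exact min_le_right _ _
  refine ⟨η ^ 2 / 10, by positivity, ⌈16 / (3 * (ε * t ^ 2))⌉₊ + 1, ?_⟩
  intro n hn k hk hfar
  have hn1 : 1 ≤ n := by omega
  have hN : (0 : ℝ) < n := by exact_mod_cast hn1
  have hN1 : (1 : ℝ) ≤ n := by exact_mod_cast hn1
  have hnbig : 16 / (3 * (ε * t ^ 2)) ≤ n := by
    have h1 : 16 / (3 * (ε * t ^ 2)) ≤ ⌈16 / (3 * (ε * t ^ 2))⌉₊ := Nat.le_ceil _
    have h2 : ((⌈16 / (3 * (ε * t ^ 2))⌉₊ : ℕ) : ℝ) ≤ n := by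
      exact_mod_cast (by omega : ⌈16 / (3 * (ε * t ^ 2))⌉₊ ≤ n)
    exact h1.trans h2
  -- the mean square deviations
  have hsmall : (η ^ 2 / 10) ^ 2 + 9 * (η ^ 2 / 10) ≤ η ^ 2 := by
    have h1 : η ^ 2 / 10 ≤ 1 := by nlinarith
    have h2 : 0 ≤ η ^ 2 / 10 := by positivity
    nlinarith
  have hdev : ∀ u ∈ Icc (0 : ℝ) 1, (∑ x ∈ Finset.Icc 1 n, dev n k u x ^ 2) / n ≤ η ^ 2 := by
    intro u hu
    exact (esb_dev_sq hk hn1 (by positivity) (hfar u hu)).trans hsmall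
  have hD := hdev t ⟨ht.1.le, ht.2⟩
  have hD' := hdev (1 / 4) ⟨by norm_num, by norm_num⟩
  obtain ⟨S, hS⟩ : ∃ S : ℝ, S = 1 / 3 + 2 / (3 * (n : ℝ) ^ 2) := ⟨_, rfl⟩
  have hinv : 2 / (3 * (n : ℝ) ^ 2) ≤ 2 / 3 := by
    apply div_le_div_of_nonneg_left (by norm_num) (by norm_num)
    nlinarith
  have hS1 : S ≤ 1 := by rw [hS]; linarith
  have hS0 : 0 ≤ S := by rw [hS]; positivity
  have k0 : KK n k 0 0 = S := by rw [hS]; exact KK_self hn1 hk (Nat.zero_le _)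
  have k1 : KK n k (sw_ n (1 / 2)) (sw_ n (1 / 2)) = S := by
    rw [hS]; exact KK_self hn1 hk (esb_sw_le (by norm_num))
  have k2 : KK n k (sw_ n t) (sw_ n t) = S := by rw [hS]; exact KK_self hn1 hk (esb_sw_le ht.2)
  have k3 : KK n k (sw_ n (1 / 4)) (sw_ n (1 / 4)) = S := by
    rw [hS]; exact KK_self hn1 hk (esb_sw_le (by norm_num))
  have q0 : (∑ x ∈ Finset.Icc 1 n, pos n k 0 x * pos n k 0 x) / n ≤ 1 := by
    have := k0; unfold KK at this; rw [this]; exact hS1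
  have q1 : (∑ x ∈ Finset.Icc 1 n, pos n k (sw_ n (1 / 2)) x * pos n k (sw_ n (1 / 2)) x) / n ≤ 1 := by
    have := k1; unfold KK at this; rw [this]; exact hS1
  have m0 := esb_cs hN hη0.le q0 hD
  have m1 := esb_cs hN hη0.le q0 hD'
  have m2 := esb_cs hN hη0.le q1 hD'
  -- the correlation at time `t`
  have kt : KK n k 0 (sw_ n t) = Real.cos (π * t) * S + Real.sin (π * t) * KK n k 0 (sw_ n (1 / 2)) +
      (∑ x ∈ Finset.Icc 1 n, pos n k 0 x * dev n k t x) / n := by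
    rw [← k0]
    unfold KK
    rw [← mul_div_assoc, ← mul_div_assoc, ← add_div, ← add_div, Finset.mul_sum, Finset.mul_sum,
      ← Finset.sum_add_distrib, ← Finset.sum_add_distrib]
    congr 1
    refine Finset.sum_congr rfl fun x _ => ?_
    unfold dev
    ring
  -- the correlation at time `1 / 2`
  have hc : Real.cos (π * (1 / 4)) = √2 / 2 := by
    rw [show π * (1 / 4) = π / 4 by ring, Real.cos_pi_div_four]
  have hsn : Real.sin (π * (1 / 4)) = √2 / 2 := by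
    rw [show π * (1 / 4) = π / 4 by ring, Real.sin_pi_div_four]
  have hsq : (√2 / 2) * (√2 / 2) = 1 / 2 := by
    have := Real.mul_self_sqrt (show (0 : ℝ) ≤ 2 by norm_num)
    linear_combination this / 4
  have kq : S = 1 / 2 * (S + S + 2 * KK n k 0 (sw_ n (1 / 2))) +
      2 * (√2 / 2) * ((∑ x ∈ Finset.Icc 1 n, pos n k 0 x * dev n k (1 / 4) x) / n +
        (∑ x ∈ Finset.Icc 1 n, pos n k (sw_ n (1 / 2)) x * dev n k (1 / 4) x) / n) +
      (∑ x ∈ Finset.Icc 1 n, dev n k (1 / 4) x ^ 2) / n := by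
    have e : KK n k (sw_ n (1 / 4)) (sw_ n (1 / 4)) =
        1 / 2 * (KK n k 0 0 + KK n k (sw_ n (1 / 2)) (sw_ n (1 / 2)) +
          2 * KK n k 0 (sw_ n (1 / 2))) +
      2 * (√2 / 2) * ((∑ x ∈ Finset.Icc 1 n, pos n k 0 x * dev n k (1 / 4) x) / n +
        (∑ x ∈ Finset.Icc 1 n, pos n k (sw_ n (1 / 2)) x * dev n k (1 / 4) x) / n) +
      (∑ x ∈ Finset.Icc 1 n, dev n k (1 / 4) x ^ 2) / n := by
      unfold KK
      have e1 : ∀ x : ℕ, pos n k (sw_ n (1 / 4)) x * pos n k (sw_ n (1 / 4)) x =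
          1 / 2 * (pos n k 0 x * pos n k 0 x) +
          1 / 2 * (pos n k (sw_ n (1 / 2)) x * pos n k (sw_ n (1 / 2)) x) +
          pos n k 0 x * pos n k (sw_ n (1 / 2)) x +
          2 * (√2 / 2) * (pos n k 0 x * dev n k (1 / 4) x) +
          2 * (√2 / 2) * (pos n k (sw_ n (1 / 2)) x * dev n k (1 / 4) x) +
          dev n k (1 / 4) x ^ 2 := by
        intro x
        have e2 : pos n k (sw_ n (1 / 4)) x = √2 / 2 * pos n k 0 x +
            √2 / 2 * pos n k (sw_ n (1 / 2)) x + dev n k (1 / 4) x := by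
          unfold dev
          rw [hc, hsn]
          ring
        rw [e2]
        linear_combination (pos n k 0 x * pos n k 0 x +
          pos n k (sw_ n (1 / 2)) x * pos n k (sw_ n (1 / 2)) x +
          2 * (pos n k 0 x * pos n k (sw_ n (1 / 2)) x)) * hsq
      rw [Finset.sum_congr rfl fun x _ => e1 x]
      simp only [Finset.sum_add_distrib, ← Finset.mul_sum]
      ring
    rw [k0, k1, k3] at e
    exact e
  rw [EE_eq, k0, k2, kt]
  rw [abs_le] at m0 m1 m2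
  obtain ⟨K, hK⟩ : ∃ K, K = KK n k 0 (sw_ n (1 / 2)) := ⟨_, rfl⟩
  rw [← hK] at kq ⊢
  obtain ⟨a, ha⟩ : ∃ a, a = (∑ x ∈ Finset.Icc 1 n, pos n k 0 x * dev n k t x) / n := ⟨_, rfl⟩
  obtain ⟨b, hb⟩ : ∃ b, b = (∑ x ∈ Finset.Icc 1 n, pos n k 0 x * dev n k (1 / 4) x) / n := ⟨_, rfl⟩
  obtain ⟨c, hcc⟩ : ∃ c, c = (∑ x ∈ Finset.Icc 1 n, pos n k (sw_ n (1 / 2)) x * dev n k (1 / 4) x) / n :=
    ⟨_, rfl⟩
  obtain ⟨d, hd⟩ : ∃ d, d = (∑ x ∈ Finset.Icc 1 n, dev n k (1 / 4) x ^ 2) / (n : ℝ) := ⟨_, rfl⟩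
  rw [← ha] at m0 ⊢
  rw [← hb] at m1 kq
  rw [← hcc] at m2 kq
  rw [← hd] at hD' kq
  have hd0 : 0 ≤ d := by
    rw [hd]
    exact div_nonneg (Finset.sum_nonneg fun x _ => sq_nonneg _) hN.le
  have hr0 : 0 ≤ √2 / 2 := by positivity
  have hr1 : √2 / 2 ≤ 1 := by
    have : √2 ≤ 2 := by
      rw [Real.sqrt_le_left (by norm_num)]
      norm_num
    linarith
  have hη3 : η ^ 2 ≤ η := by nlinarith
  have hK1 : |K| ≤ 5 * η := by
    have e : K = -(2 * (√2 / 2) * (b + c)) - d := by linarith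
    have e2 : |√2 / 2 * (b + c)| ≤ 2 * η := by
      rw [abs_mul, abs_of_nonneg hr0]
      have : |b + c| ≤ 2 * η := abs_le.2 ⟨by linarith [m1.1, m2.1], by linarith [m1.2, m2.2]⟩
      calc √2 / 2 * |b + c| ≤ 1 * (2 * η) := mul_le_mul hr1 this (abs_nonneg _) zero_le_one
        _ = 2 * η := one_mul _
    rw [abs_le] at e2 ⊢
    constructor
    · linarith [e2.1, e2.2]
    · linarith [e2.1, e2.2]
  have hsK : |Real.sin (π * t) * K| ≤ 5 * η := by
    rw [abs_mul]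
    calc |Real.sin (π * t)| * |K| ≤ 1 * (5 * η) :=
          mul_le_mul (Real.abs_sin_le_one _) hK1 (abs_nonneg _) zero_le_one
      _ = 5 * η := one_mul _
  rw [abs_le] at hsK
  have hcos := Real.one_sub_sq_div_two_le_cos (x := π * t)
  have hcos1 := Real.neg_one_le_cos (π * t)
  have hSn : 2 / (3 * (n : ℝ) ^ 2) ≤ ε * t ^ 2 / 8 := by
    have h1 : 16 ≤ (3 * (ε * t ^ 2)) * n := by
      rw [div_le_iff₀ (by positivity)] at hnbig
      linarith
    rw [div_le_iff₀ (by positivity)]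
    have h2 : (n : ℝ) ≤ n ^ 2 := by nlinarith
    have h3 : 0 < ε * t ^ 2 := by positivity
    nlinarith [mul_le_mul_of_nonneg_left h2 h3.le]
  have hmain : 2 * S * (1 - Real.cos (π * t)) ≤ π ^ 2 / 3 * t ^ 2 + ε * t ^ 2 / 2 := by
    have h1 : 1 - Real.cos (π * t) ≤ (π * t) ^ 2 / 2 := by linarith
    have h2 : 1 - Real.cos (π * t) ≤ 2 := by linarith
    have h3 : 0 ≤ 1 - Real.cos (π * t) := by linarith [Real.cos_le_one (π * t)]
    have h4 : 2 / (3 * (n : ℝ) ^ 2) * (1 - Real.cos (π * t)) ≤ ε * t ^ 2 / 8 * 2 :=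
      mul_le_mul hSn h2 h3 (by positivity)
    rw [hS]
    linarith [mul_le_mul_of_nonneg_left h1 (show (0 : ℝ) ≤ 2 / 3 by norm_num)]
  have h5 : S + S - 2 * (Real.cos (π * t) * S + Real.sin (π * t) * K + a) =
      2 * S * (1 - Real.cos (π * t)) - 2 * (Real.sin (π * t) * K) - 2 * a := by ring
  rw [h5]
  linarith [hsK.1, m0.1]

end Pool.Agent.SNL63
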