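import Pool.Agent.SNL63.EnDefs

/-!
From all times separately to the supremum over the time: two particles cross only once.
-/

namespace Pool.Agent.SNL63

open Pool.Agent.SN8 MeasureTheory Set Filter Topology
open scoped ENNReal Real

/-! ### Two particles cross only once -/

theorem crossed_step {n s : ℕ} {k : List ℕ} (hk : IsNetwork n k) (hs : s + 1 ≤ n.choose 2) {x y : ℕ}
    (hxy : x < y) (h : place (k.take s) y < place (k.take s) x) :
    place (k.take (s + 1)) y < place (k.take (s + 1)) x := by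
  have hlen : s < k.length := by
    rw [hk.1]
    omega
  have e : k.take (s + 1) = k.take s ++ [k[s]] := (List.take_append_getElem hlen).symm
  have hj := hk.2.1 k[s] (List.getElem_mem hlen)
  have h1 := (time_eq hk (by omega : s ≤ n.choose 2)).1
  have h2 := (time_eq hk hs).1
  rw [e, P_append, P_singleton] at h2
  rw [e, place_concat, place_concat]
  refine sw_lt h ?_
  rintro ⟨e1, e2⟩
  have h3 : P (k.take s) (k[s]) = y := by
    rw [← e1, place_eq]
    exact (P (k.take s)).apply_symm_apply y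
  have h4 : P (k.take s) (k[s] + 1) = x := by
    rw [← e2, place_eq]
    exact (P (k.take s)).apply_symm_apply x
  have h5 := inv_mul_sw (P (k.take s)) hj.1 hj.2 (by rw [h3, h4]; exact hxy)
  omega

theorem crossed_mono {n s s' : ℕ} {k : List ℕ} (hk : IsNetwork n k) (hss : s ≤ s') (hs' : s' ≤ n.choose 2) {x y : ℕ}
    (hxy : x < y) (h : place (k.take s) y < place (k.take s) x) :
    place (k.take s') y < place (k.take s') x := by
  induction s', hss using Nat.le_induction with
  | base => exact h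
  | succ m hm ih => exact crossed_step hk hs' hxy (ih (by omega))

/-- after a crossing there is no second crossing -/
theorem stay {n s₀ s s' : ℕ} {k : List ℕ} (hk : IsNetwork n k) (h0 : s₀ ≤ s) (hss : s ≤ s')
    (hs' : s' ≤ n.choose 2) {x p : ℕ} (h1 : place (k.take s₀) x < place (k.take s₀) p)
    (h2 : place (k.take s) p < place (k.take s) x) : place (k.take s') p < place (k.take s') x := by
  rcases lt_trichotomy x p with h | h | h
  · exact crossed_mono hk hss hs' h h2
  · subst h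
    omega
  · have := crossed_mono hk h0 (by omega) h h1
    omega

theorem sw_mono {n : ℕ} {t u : ℝ} (h : t ≤ u) : sw_ n t ≤ sw_ n u :=
  Nat.floor_le_floor (mul_le_mul_of_nonneg_left h (Nat.cast_nonneg _))

theorem sw_le {n : ℕ} {u : ℝ} (h : u ≤ 1) : sw_ n u ≤ n.choose 2 := by
  apply Nat.floor_le_of_le
  have : (0 : ℝ) ≤ n.choose 2 := Nat.cast_nonneg _
  nlinarith

theorem glob_lt {n : ℕ} (hn : 1 ≤ n) {k : List ℕ} {x p : ℕ} {t : ℝ} :
    glob n k p t < glob n k x t ↔ place (k.take (sw_ n t)) p < place (k.take (sw_ n t)) x := by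
  have hn0 : (0 : ℝ) < n := by exact_mod_cast hn
  rw [glob_eq_pos, glob_eq_pos, pos, pos, sub_lt_sub_iff_right, div_lt_div_iff_of_pos_right hn0]
  rw [mul_lt_mul_iff_right₀ (by norm_num : (0 : ℝ) < 2), Nat.cast_lt]

theorem glob_stay {n : ℕ} (hn : 1 ≤ n) {k : List ℕ} (hk : IsNetwork n k) {x p : ℕ} {u₀ u u₁ : ℝ} (h0 : u₀ ≤ u)
    (h1 : u ≤ u₁) (hu : u₁ ≤ 1) (h2 : glob n k x u₀ < glob n k p u₀) (h3 : glob n k p u < glob n k x u) :
    glob n k p u₁ < glob n k x u₁ := by
  rw [glob_lt hn] at h2 h3 ⊢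
  exact stay hk (sw_mono h0) (sw_mono h1) (sw_le hu) h2 h3

/-! ### A particle near a given place -/

theorem exists_place {n : ℕ} {k : List ℕ} (hk : IsNetwork n k) (s : ℕ) {Q B : Finset ℕ}
    (hQ : Q ⊆ Finset.Icc 1 n) (hB : B.card < Q.card) :
    ∃ p ∈ Finset.Icc 1 n, place (k.take s) p ∈ Q ∧ p ∉ B := by
  have h1 : (Q.image (P (k.take s))).card = Q.card := Finset.card_image_of_injective _ (P (k.take s)).injective
  have h2 : ¬ (Q.image (P (k.take s))) ⊆ B := by
    intro h
    have := Finset.card_le_card h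
    omega
  rw [Finset.not_subset] at h2
  obtain ⟨p, hp, hpB⟩ := h2
  rw [Finset.mem_image] at hp
  obtain ⟨q, hq, rfl⟩ := hp
  have hq' := Finset.mem_Icc.1 (hQ hq)
  refine ⟨P (k.take s) q, ?_, ?_, hpB⟩
  · exact Finset.mem_Icc.2 ((Supp.P fun j hj => hk.2.1 j (List.mem_of_mem_take hj)).mem hq'.1 hq'.2)
  · rw [place_eq]
    have : (P (k.take s))⁻¹ (P (k.take s) q) = q := (P (k.take s)).symm_apply_apply q
    rw [this]
    exact hq

theorem window_card {ε : ℝ} {n : ℕ} (hn : 80 < ε * n) {F : Finset ℕ} (hF : (F.card : ℝ) ≤ ε * n / 80) :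
    F.card < (Finset.Icc ⌈ε * n / 10⌉₊ ⌊ε * n / 8⌋₊).card := by
  rw [Nat.card_Icc]
  have h1 : (⌈ε * n / 10⌉₊ : ℝ) < ε * n / 10 + 1 := Nat.ceil_lt_add_one (by linarith)
  have h2 : ε * n / 8 < (⌊ε * n / 8⌋₊ : ℝ) + 1 := Nat.lt_floor_add_one _
  have h3 : (F.card : ℝ) + ⌈ε * n / 10⌉₊ < ⌊ε * n / 8⌋₊ + 1 := by linarith
  have h4 : F.card + ⌈ε * n / 10⌉₊ < ⌊ε * n / 8⌋₊ + 1 := by exact_mod_cast h3
  omega

theorem window_mem {ε : ℝ} {n r : ℕ} (hn : 80 < ε * n) (hr : r ∈ Finset.Icc ⌈ε * n / 10⌉₊ ⌊ε * n / 8⌋₊) :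
    1 ≤ r ∧ ε * n / 10 ≤ r ∧ (r : ℝ) ≤ ε * n / 8 := by
  rw [Finset.mem_Icc] at hr
  have h1 : ε * n / 10 ≤ r := Nat.ceil_le.1 hr.1
  have h2 : (r : ℝ) ≤ ε * n / 8 := (Nat.le_floor_iff (by linarith)).1 hr.2
  refine ⟨?_, h1, h2⟩
  have h3 : (1 : ℝ) < r := by linarith
  exact_mod_cast h3.le

/-- no particle which is slow on `[u₀, u₁]` makes a large excursion, if most particles are slow -/
theorem no_excursion {n : ℕ} {k : List ℕ} (hk : IsNetwork n k) {ε : ℝ} (hn : 80 < ε * n) {u₀ u u₁ : ℝ}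
    (h0 : u₀ ≤ u) (h1 : u ≤ u₁) (hu : u₁ ≤ 1) {F : Finset ℕ} (hF : (F.card : ℝ) ≤ ε * n / 80)
    (hslow : ∀ p ∈ Finset.Icc 1 n, p ∉ F → |glob n k p u - glob n k p u₀| ≤ ε / 10 ∧
      |glob n k p u₁ - glob n k p u₀| ≤ ε / 10)
    {x : ℕ} (hx : x ∈ Finset.Icc 1 n) (hx1 : |glob n k x u₁ - glob n k x u₀| ≤ ε / 10) :
    |glob n k x u - glob n k x u₀| ≤ ε / 2 := by
  have hx' := Finset.mem_Icc.1 hx
  have hn1 : 1 ≤ n := by omega
  have hn0 : (0 : ℝ) < n := by exact_mod_cast hn1
  have hε : 0 < ε := by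
    by_contra h
    push Not at h
    nlinarith
  have hglob : ∀ p t, glob n k p t * n = 2 * (place (k.take (sw_ n t)) p : ℝ) - n := by
    intro p t
    rw [glob_eq_pos, pos]
    field_simp
  have hx1' := abs_le.1 hx1
  have hxu := glob_mem hk u hx'.1 hx'.2
  have hxp := hglob x u₀
  have hpl := (glob_place_mem hk (sw_ n u₀) hx'.1 hx'.2)
  rw [abs_le]
  constructor
  · -- downwards
    by_contra hc
    push Not at hc
    have hm : ε * n / 4 < (place (k.take (sw_ n u₀)) x : ℝ) := by
      have h2 : -1 < glob n k x u₀ - ε / 2 := lt_of_le_of_lt hxu.1 (by linarith)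
      have h3 := mul_lt_mul_of_pos_right h2 hn0
      nlinarith
    obtain ⟨p, hp, hpQ, hpF⟩ := exists_place hk (sw_ n u₀)
      (Q := (Finset.Icc ⌈ε * n / 10⌉₊ ⌊ε * n / 8⌋₊).image fun r => place (k.take (sw_ n u₀)) x - r) (B := F)
      (by
        intro q hq
        rw [Finset.mem_image] at hq
        obtain ⟨r, hr, rfl⟩ := hq
        obtain ⟨w1, w2, w3⟩ := window_mem hn hr
        rw [Finset.mem_Icc]
        have h2 : (r : ℝ) < (place (k.take (sw_ n u₀)) x : ℝ) := by linarith
        have h3 : r < place (k.take (sw_ n u₀)) x := by exact_mod_cast h2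
        omega)
      (by
        rw [Finset.card_image_of_injOn]
        · exact window_card hn hF
        · intro r hr r' hr' he
          obtain ⟨w1, w2, w3⟩ := window_mem hn hr
          obtain ⟨w1', w2', w3'⟩ := window_mem hn hr'
          have h2 : (r : ℝ) < (place (k.take (sw_ n u₀)) x : ℝ) := by linarith
          have h3 : r < place (k.take (sw_ n u₀)) x := by exact_mod_cast h2
          have h2' : (r' : ℝ) < (place (k.take (sw_ n u₀)) x : ℝ) := by linarith
          have h3' : r' < place (k.take (sw_ n u₀)) x := by exact_mod_cast h2'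
          simp only at he
          omega)
    rw [Finset.mem_image] at hpQ
    obtain ⟨r, hr, hpr⟩ := hpQ
    obtain ⟨w1, w2, w3⟩ := window_mem hn hr
    have h2 : (r : ℝ) < (place (k.take (sw_ n u₀)) x : ℝ) := by linarith
    have h3 : r < place (k.take (sw_ n u₀)) x := by exact_mod_cast h2
    have hpp := hglob p u₀
    rw [← hpr, Nat.cast_sub h3.le] at hpp
    have hd : (glob n k x u₀ - glob n k p u₀) * n = 2 * r := by
      rw [sub_mul, hpp, hxp]
      ring
    have hd1 : ε / 5 ≤ glob n k x u₀ - glob n k p u₀ := by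
      by_contra h
      push Not at h
      have := mul_lt_mul_of_pos_right h hn0
      rw [hd] at this
      linarith
    have hd2 : glob n k x u₀ - glob n k p u₀ ≤ ε / 4 := by
      by_contra h
      push Not at h
      have := mul_lt_mul_of_pos_right h hn0
      rw [hd] at this
      linarith
    obtain ⟨s1, s2⟩ := hslow p hp hpF
    rw [abs_le] at s1 s2
    have h4 := glob_stay hn1 hk (x := p) (p := x) h0 h1 hu (by linarith) (by linarith)
    linarith
  · -- upwards
    by_contra hc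
    push Not at hc
    have hm : (place (k.take (sw_ n u₀)) x : ℝ) + ε * n / 4 < n := by
      have h2 : glob n k x u₀ + ε / 2 < 1 := lt_of_lt_of_le (by linarith) hxu.2
      have h3 := mul_lt_mul_of_pos_right h2 hn0
      nlinarith
    obtain ⟨p, hp, hpQ, hpF⟩ := exists_place hk (sw_ n u₀)
      (Q := (Finset.Icc ⌈ε * n / 10⌉₊ ⌊ε * n / 8⌋₊).image fun r => place (k.take (sw_ n u₀)) x + r) (B := F)
      (by
        intro q hq
        rw [Finset.mem_image] at hq
        obtain ⟨r, hr, rfl⟩ := hq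
        obtain ⟨w1, w2, w3⟩ := window_mem hn hr
        rw [Finset.mem_Icc]
        have h2 : (place (k.take (sw_ n u₀)) x : ℝ) + r < n := by linarith
        have h3 : place (k.take (sw_ n u₀)) x + r < n := by exact_mod_cast h2
        omega)
      (by
        rw [Finset.card_image_of_injOn]
        · exact window_card hn hF
        · intro r _ r' _ he
          simp only at he
          omega)
    rw [Finset.mem_image] at hpQ
    obtain ⟨r, hr, hpr⟩ := hpQ
    obtain ⟨w1, w2, w3⟩ := window_mem hn hr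
    have hpp := hglob p u₀
    rw [← hpr, Nat.cast_add] at hpp
    have hd : (glob n k p u₀ - glob n k x u₀) * n = 2 * r := by
      rw [sub_mul, hpp, hxp]
      ring
    have hd1 : ε / 5 ≤ glob n k p u₀ - glob n k x u₀ := by
      by_contra h
      push Not at h
      have := mul_lt_mul_of_pos_right h hn0
      rw [hd] at this
      linarith
    have hd2 : glob n k p u₀ - glob n k x u₀ ≤ ε / 4 := by
      by_contra h
      push Not at h
      have := mul_lt_mul_of_pos_right h hn0
      rw [hd] at this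
      linarith
    obtain ⟨s1, s2⟩ := hslow p hp hpF
    rw [abs_le] at s1 s2
    have h4 := glob_stay hn1 hk (x := x) (p := p) h0 h1 hu (by linarith) (by linarith)
    linarith

/-! ### The sine curves -/

theorem sine_lip {n : ℕ} {k : List ℕ} (hk : IsNetwork n k) {x : ℕ} (hx : x ∈ Finset.Icc 1 n) (u v : ℝ) :
    |(Real.cos (π * u) * glob n k x 0 + Real.sin (π * u) * glob n k x (1 / 2)) -
      (Real.cos (π * v) * glob n k x 0 + Real.sin (π * v) * glob n k x (1 / 2))| ≤ 2 * π * |u - v| := by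
  have hx' := Finset.mem_Icc.1 hx
  have h0 := glob_mem hk 0 hx'.1 hx'.2
  have h1 := glob_mem hk (1 / 2) hx'.1 hx'.2
  have h2 : |Real.cos (π * u) - Real.cos (π * v)| ≤ π * |u - v| := by
    refine (Real.abs_cos_sub_cos_le _ _).trans (le_of_eq ?_)
    rw [← mul_sub, abs_mul, abs_of_pos Real.pi_pos]
  have h3 : |Real.sin (π * u) - Real.sin (π * v)| ≤ π * |u - v| := by
    refine (Real.abs_sin_sub_sin_le _ _).trans (le_of_eq ?_)
    rw [← mul_sub, abs_mul, abs_of_pos Real.pi_pos]
  have e : (Real.cos (π * u) * glob n k x 0 + Real.sin (π * u) * glob n k x (1 / 2)) -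
      (Real.cos (π * v) * glob n k x 0 + Real.sin (π * v) * glob n k x (1 / 2)) =
      (Real.cos (π * u) - Real.cos (π * v)) * glob n k x 0 +
      (Real.sin (π * u) - Real.sin (π * v)) * glob n k x (1 / 2) := by ring
  rw [e]
  refine (abs_add_le _ _).trans ?_
  rw [abs_mul, abs_mul]
  have h4 : |glob n k x 0| ≤ 1 := abs_le.2 h0
  have h5 : |glob n k x (1 / 2)| ≤ 1 := abs_le.2 h1
  have h6 := mul_le_mul h2 h4 (abs_nonneg _) ((abs_nonneg _).trans h2)
  have h7 := mul_le_mul h3 h5 (abs_nonneg _) ((abs_nonneg _).trans h3)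
  linarith

/-- the particles which are far from their sine curve at time `u` -/
noncomputable def farSet (n : ℕ) (k : List ℕ) (ε u : ℝ) : Finset ℕ :=
  {x ∈ Finset.Icc 1 n | ε < |glob n k x u - (Real.cos (π * u) * glob n k x 0 +
    Real.sin (π * u) * glob n k x (1 / 2))|}

theorem farCard_eq (n : ℕ) (k : List ℕ) (ε u : ℝ) : farCard n k ε u = (farSet n k ε u).card := rfl

theorem near_of {n : ℕ} {k : List ℕ} {ε u : ℝ} {x : ℕ} (hx : x ∈ Finset.Icc 1 n) (h : x ∉ farSet n k ε u) :
    |glob n k x u - (Real.cos (π * u) * glob n k x 0 + Real.sin (π * u) * glob n k x (1 / 2))| ≤ ε := by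
  by_contra hc
  push Not at hc
  exact h (Finset.mem_filter.2 ⟨hx, hc⟩)

theorem near_move {n : ℕ} {k : List ℕ} (hk : IsNetwork n k) {ε u v d : ℝ} {x : ℕ} (hx : x ∈ Finset.Icc 1 n)
    (h : x ∉ farSet n k ε u) (h' : x ∉ farSet n k ε v) (hd : |u - v| ≤ d) :
    |glob n k x u - glob n k x v| ≤ 2 * ε + 2 * π * d := by
  have h1 := abs_le.1 (near_of hx h)
  have h2 := abs_le.1 (near_of hx h')
  have h3 := abs_le.1 (sine_lip hk hx u v)
  have h4 : 2 * π * |u - v| ≤ 2 * π * d := mul_le_mul_of_nonneg_left hd (by positivity)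
  rw [abs_le]
  constructor <;> linarith

/-- from all times separately to the supremum over the time -/
theorem sup_of_far {ε : ℝ} (hε : 0 < ε) :
    ∃ ε' > (0 : ℝ), ∃ n₀ : ℕ, ∀ n ≥ n₀, ∀ k, IsNetwork n k →
      (∀ u ∈ Icc (0 : ℝ) 1, (farCard n k ε' u : ℝ) ≤ ε' * n) → (supCard n k ε : ℝ) ≤ ε * n := by
  classical
  obtain ⟨M, hM⟩ : ∃ M : ℕ, 40 * π / ε < M := exists_nat_gt _
  have hM0 : (0 : ℝ) < M := lt_trans (by positivity) hM
  have hMn : 0 < M := by exact_mod_cast hM0
  have hMε : 2 * π * (1 / M) ≤ ε / 20 := by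
    rw [div_lt_iff₀ hε] at hM
    rw [mul_one_div, div_le_iff₀ hM0]
    linarith
  refine ⟨min (ε / 240) (ε / (M + 1)), lt_min (by positivity) (by positivity), ⌊80 / ε⌋₊ + 1, ?_⟩
  intro n hn k hk hfar
  obtain ⟨ε', hε'⟩ : ∃ ε', ε' = min (ε / 240) (ε / (M + 1)) := ⟨_, rfl⟩
  rw [← hε'] at hfar
  have e1 : ε' ≤ ε / 240 := hε' ▸ min_le_left _ _
  have e2 : ε' ≤ ε / (M + 1) := hε' ▸ min_le_right _ _
  have hn80 : 80 < ε * n := by
    have h1 : 80 / ε < n := lt_of_lt_of_le (Nat.lt_floor_add_one _) (by exact_mod_cast hn)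
    rw [div_lt_iff₀ hε] at h1
    linarith
  have hn0 : (0 : ℝ) < n := by
    by_contra h
    push Not at h
    nlinarith
  -- all particles which are counted are far at a grid time
  have hsub : ∀ x ∈ Finset.Icc 1 n, (∃ u ∈ Icc (0 : ℝ) 1, ε < |glob n k x u -
      (Real.cos (π * u) * glob n k x 0 + Real.sin (π * u) * glob n k x (1 / 2))|) →
      ∃ j ∈ Finset.range (M + 1), x ∈ farSet n k ε' ((j : ℝ) / M) := by
    rintro x hx ⟨u, hu, hxu⟩
    by_contra hc
    push Not at hc
    obtain ⟨j, hj⟩ : ∃ j : ℕ, j = ⌊u * M⌋₊ := ⟨_, rfl⟩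
    have huM : 0 ≤ u * M := mul_nonneg hu.1 hM0.le
    have j1 : (j : ℝ) ≤ u * M := hj ▸ Nat.floor_le huM
    have j2 : u * M < j + 1 := hj ▸ Nat.lt_floor_add_one _
    rcases eq_or_lt_of_le hu.2 with h1 | h1
    · have h2 := near_of hx (hc M (Finset.mem_range.2 (by omega)))
      rw [div_self hM0.ne'] at h2
      rw [h1] at hxu
      linarith
    · have h2 : (j : ℝ) < M := by nlinarith
      have h3 : j < M := by exact_mod_cast h2
      have c0 := hc j (Finset.mem_range.2 (by omega))
      have c1 := hc (j + 1) (Finset.mem_range.2 (by omega))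
      obtain ⟨u₀, hu₀⟩ : ∃ u₀ : ℝ, u₀ = (j : ℝ) / M := ⟨_, rfl⟩
      obtain ⟨u₁, hu₁⟩ : ∃ u₁ : ℝ, u₁ = ((j + 1 : ℕ) : ℝ) / M := ⟨_, rfl⟩
      rw [← hu₀] at c0
      rw [← hu₁] at c1
      have k0 : u₀ ≤ u := by
        rw [hu₀, div_le_iff₀ hM0]
        exact j1
      have k1 : u ≤ u₁ := by
        rw [hu₁, le_div_iff₀ hM0]
        push_cast
        exact j2.le
      have k2 : u₁ ≤ 1 := by
        rw [hu₁, div_le_one hM0]
        exact_mod_cast h3
      have k3 : 0 ≤ u₀ := by
        rw [hu₀]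
        positivity
      have k4 : u₁ - u₀ = 1 / M := by
        rw [hu₀, hu₁]
        push_cast
        ring
      have d0 : |u - u₀| ≤ 1 / M := by
        rw [abs_of_nonneg (by linarith)]
        linarith
      have d1 : |u₁ - u₀| ≤ 1 / M := by
        rw [abs_of_nonneg (by linarith)]
        linarith
      have hsmall : 2 * ε' + 2 * π * (1 / M) ≤ ε / 10 := by linarith
      have h4 : |glob n k x u - glob n k x u₀| ≤ ε / 2 := by
        refine no_excursion hk hn80 k0 k1 k2
          (F := farSet n k ε' u₀ ∪ farSet n k ε' u ∪ farSet n k ε' u₁) ?_ ?_ hx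
          ((near_move hk hx c1 c0 d1).trans hsmall)
        · have f0 := hfar u₀ ⟨k3, by linarith⟩
          have f1 := hfar u hu
          have f2 := hfar u₁ ⟨by linarith, k2⟩
          rw [farCard_eq] at f0 f1 f2
          have f3 : ((farSet n k ε' u₀ ∪ farSet n k ε' u ∪ farSet n k ε' u₁).card : ℝ) ≤
              (farSet n k ε' u₀).card + (farSet n k ε' u).card + (farSet n k ε' u₁).card := by
            exact_mod_cast (Finset.card_union_le _ _).trans (Nat.add_le_add_right (Finset.card_union_le _ _) _)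
          have f4 : ε' * n ≤ ε / 240 * n := mul_le_mul_of_nonneg_right e1 hn0.le
          linarith
        · intro p hp hpF
          simp only [Finset.mem_union, not_or] at hpF
          exact ⟨(near_move hk hp hpF.1.2 hpF.1.1 d0).trans hsmall,
            (near_move hk hp hpF.2 hpF.1.1 d1).trans hsmall⟩
      have h5 := abs_le.1 (near_of hx c0)
      have h6 := abs_le.1 (sine_lip hk hx u u₀)
      have h7 : 2 * π * |u - u₀| ≤ ε / 20 := (mul_le_mul_of_nonneg_left d0 (by positivity)).trans hMε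
      rw [abs_le] at h4
      rw [lt_abs] at hxu
      rcases hxu with h8 | h8 <;> linarith
  have hcard : supCard n k ε ≤ ∑ j ∈ Finset.range (M + 1), (farSet n k ε' ((j : ℝ) / M)).card := by
    refine le_trans ?_ Finset.card_biUnion_le
    unfold supCard
    refine Finset.card_le_card fun x hx => ?_
    rw [Finset.mem_filter] at hx
    rw [Finset.mem_biUnion]
    exact hsub x hx.1 hx.2
  have hsum : ((∑ j ∈ Finset.range (M + 1), (farSet n k ε' ((j : ℝ) / M)).card : ℕ) : ℝ) ≤
      (M + 1) * (ε' * n) := by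
    push_cast
    refine (Finset.sum_le_card_nsmul _ _ (ε' * n) fun j hj => ?_).trans (le_of_eq ?_)
    · rw [← farCard_eq]
      refine hfar _ ⟨by positivity, ?_⟩
      rw [div_le_one hM0]
      rw [Finset.mem_range] at hj
      exact_mod_cast Nat.lt_succ_iff.1 hj
    · rw [Finset.card_range, nsmul_eq_mul]
      push_cast
      ring
  have hcard' : (supCard n k ε : ℝ) ≤ ((∑ j ∈ Finset.range (M + 1), (farSet n k ε' ((j : ℝ) / M)).card : ℕ) : ℝ) := by
    exact_mod_cast hcard
  refine hcard'.trans (hsum.trans ?_)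
  rw [← mul_assoc]
  refine mul_le_mul_of_nonneg_right ?_ hn0.le
  rw [le_div_iff₀ (by positivity)] at e2
  linarith

end Pool.Agent.SNL63
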