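import Pool.Agent.SNL63.EnGeo
import Pool.Agent.SNL63.EnProb
import Pool.Agent.SNL63.EnConv
import Pool.Agent.SNL63.EnSup
import Pool.Agent.SNL63.EnLaw
import Pool.Agent.SNL63.EnSine
import Pool.Agent.SNL63.EnSineB
import Pool.Agent.SNL63.ArchInv
import Pool.Agent.SNL63.Traj

/-!
# The energy at a small time controls everything
-/

namespace Pool.Agent.SNL63

open Pool.Agent.SN8 MeasureTheory Set Filter Topology
open scoped ENNReal Real NNReal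

/-- a sequence of networks with almost minimal energies which are in the events `E` -/
theorem bad_seq {E : ℕ → List ℕ → Prop}
    (hcon : ¬ ∃ ε > (0 : ℝ), ∃ t₀ > (0 : ℝ), ∀ t ∈ Ioc (0 : ℝ) t₀, ∃ n₀ : ℕ, ∀ n ≥ n₀,
      prob n (E n) ≤
        (n : ℝ) ^ 2 * prob n (fun k => (π ^ 2 / 3 + ε) * t ^ 2 < ∫ p, (p.1 - p.2) ^ 2 ∂(eta n k t))) :
    ∃ (n : ℕ → ℕ) (k : ℕ → List ℕ) (t e : ℕ → ℝ), Tendsto n atTop atTop ∧ (∀ J, IsNetwork (n J) (k J)) ∧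
      (∀ J, 2 ≤ n J) ∧ (∀ J, 0 < t J) ∧ Tendsto t atTop (𝓝 0) ∧ (∀ J, 0 ≤ e J) ∧ Tendsto e atTop (𝓝 0) ∧
      Tendsto (fun J => (n J : ℝ) * t J) atTop atTop ∧
      (∀ J, ∀ i : ℕ, i + sw_ (n J) (t J) ≤ (n J).choose 2 →
        EE (n J) (k J) i (i + sw_ (n J) (t J)) ≤ (π ^ 2 / 3 + e J) * t J ^ 2) ∧
      ∀ J, E (n J) (k J) := by
  push Not at hcon
  have step : ∀ J : ℕ, ∃ (n : ℕ) (k : List ℕ) (t : ℝ), 0 < t ∧ t ≤ 1 / ((J : ℝ) + 1) ∧ J + 2 ≤ n ∧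
      (J : ℝ) ≤ n * t ∧ IsNetwork n k ∧
      (∀ i : ℕ, i + sw_ n t ≤ n.choose 2 → EE n k i (i + sw_ n t) ≤ (π ^ 2 / 3 + 1 / ((J : ℝ) + 1)) * t ^ 2) ∧
      E n k := by
    intro J
    obtain ⟨t, ht, h⟩ := hcon (1 / ((J : ℝ) + 1)) (by positivity) (1 / ((J : ℝ) + 1)) (by positivity)
    obtain ⟨n, hn, h⟩ := h (max (J + 2) ⌈(J : ℝ) / t⌉₊)
    have hn1 : J + 2 ≤ n := (le_max_left _ _).trans hn
    have hn2 : (J : ℝ) / t ≤ n := (Nat.le_ceil _).trans (by exact_mod_cast (le_max_right _ _).trans hn)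
    rw [div_le_iff₀ ht.1] at hn2
    have ht1 : t ≤ 1 := ht.2.trans (by
      rw [div_le_one (by positivity)]
      linarith [Nat.cast_nonneg (α := ℝ) J])
    have h3 := (prob_shift (n := n) (by omega) ((π ^ 2 / 3 + 1 / ((J : ℝ) + 1)) * t ^ 2)
      ⟨ht.1.le, ht1⟩).trans_lt h
    by_contra hc
    refine absurd (prob_mono (n := n) (E := E n) (fun k hk hE => ?_)) (not_le.2 h3)
    by_contra hc2
    push Not at hc2
    exact hc ⟨n, k, t, ht.1, ht.2, hn1, hn2, hk, hc2, hE⟩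
  choose n k t h1 h2 h3 h4 h5 h6 h7 using step
  have hz : Tendsto (fun J : ℕ => 1 / ((J : ℝ) + 1)) atTop (𝓝 0) := tendsto_one_div_add_atTop_nhds_zero_nat
  refine ⟨n, k, t, fun J => 1 / ((J : ℝ) + 1), ?_, h5, fun J => ?_, h1, ?_, fun J => by positivity, hz, ?_, h6, h7⟩
  · exact tendsto_atTop_mono (fun J => (Nat.le_add_right J 2).trans (h3 J)) tendsto_id
  · have := h3 J
    omega
  · exact squeeze_zero (fun J => (h1 J).le) h2 hz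
  · exact tendsto_atTop_mono h4 tendsto_natCast_atTop_atTop

/-- **the energy at a small time controls everything** -/
theorem transfer (V : Set (ℝ × ProbabilityMeasure (ℝ × ℝ))) (hV : IsOpen V)
    (hA : ∀ t ∈ Icc (0 : ℝ) 1, ∃ μ : ProbabilityMeasure (ℝ × ℝ),
      (μ : Measure (ℝ × ℝ)) = arch t ∧ (t, μ) ∈ V) :
    ∃ ε > (0 : ℝ), ∃ t₀ > (0 : ℝ), ∀ t ∈ Ioc (0 : ℝ) t₀, ∃ n₀ : ℕ, ∀ n ≥ n₀,
      prob n (fun k => ∃ s u : ℝ, 0 ≤ s ∧ s ≤ u ∧ u ≤ 1 ∧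
        ∀ μ : ProbabilityMeasure (ℝ × ℝ), (μ : Measure (ℝ × ℝ)) = eta2 n k s u → (u - s, μ) ∉ V) ≤
      (n : ℝ) ^ 2 * prob n (fun k => (π ^ 2 / 3 + ε) * t ^ 2 < ∫ p, (p.1 - p.2) ^ 2 ∂(eta n k t)) := by
  by_contra hcon
  obtain ⟨n, k, t, e, hn, hk, hn2, ht0, ht, he0, he, hnt, hE, hout⟩ := bad_seq
    (E := fun n k => ∃ s u : ℝ, 0 ≤ s ∧ s ≤ u ∧ u ≤ 1 ∧
        ∀ μ : ProbabilityMeasure (ℝ × ℝ), (μ : Measure (ℝ × ℝ)) = eta2 n k s u → (u - s, μ) ∉ V) hcon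
  choose s u hs hsu hu hout using hout
  obtain ⟨μ, hμ⟩ : ∃ μ : ℕ → ProbabilityMeasure (ℝ × ℝ),
      ∀ J, (μ J : Measure (ℝ × ℝ)) = eta2 (n J) (k J) (s J) (u J) :=
    ⟨fun J => ⟨eta2 (n J) (k J) (s J) (u J), eta2_prob (by have := hn2 J; omega) _ _ _⟩, fun J => rfl⟩
  have hμV : ∀ J, (u J - s J, μ J) ∉ V := fun J => hout J _ (hμ J)
  obtain ⟨𝓕, h𝓕⟩ : ∃ 𝓕 : Ultrafilter ℕ, (𝓕 : Filter ℕ) ≤ atTop := ⟨hyperfilter ℕ, Nat.hyperfilter_le_atTop⟩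
  obtain ⟨ν, -, hν⟩ := isCompact_iff_ultrafilter_le_nhds'.1 compact_sq (𝓕.map μ) (by
    rw [Ultrafilter.mem_map]
    refine Filter.Eventually.of_forall fun J => ?_
    intro _
    have h1 : (μ J : Measure (ℝ × ℝ)) Sqᶜ = 0 := by
      rw [hμ]
      obtain ⟨i, -, r, -, -, h⟩ := eta2_rot (hn2 J) (hk J) (hs J) (hsu J) (hu J)
      rw [h]
      exact eta_Sq_compl (rotN_net (hk J)) _
    have h2 : ((μ J Sqᶜ : ℝ≥0) : ℝ≥0∞) = 0 := by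
      rw [ProbabilityMeasure.ennreal_coeFn_eq_coeFn_toMeasure]
      exact h1
    exact le_of_eq (by exact_mod_cast h2))
  replace hν : Tendsto μ 𝓕 (𝓝 ν) := hν
  obtain ⟨a, ha, hsa⟩ := isCompact_iff_ultrafilter_le_nhds'.1 (isCompact_Icc (a := (0 : ℝ)) (b := 1)) (𝓕.map s) (by
    rw [Ultrafilter.mem_map]
    exact Filter.Eventually.of_forall fun J => ⟨hs J, (hsu J).trans (hu J)⟩)
  replace hsa : Tendsto s 𝓕 (𝓝 a) := hsa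
  obtain ⟨b, hb, hub⟩ := isCompact_iff_ultrafilter_le_nhds'.1 (isCompact_Icc (a := (0 : ℝ)) (b := 1)) (𝓕.map u) (by
    rw [Ultrafilter.mem_map]
    exact Filter.Eventually.of_forall fun J => ⟨(hs J).trans (hsu J), hu J⟩)
  replace hub : Tendsto u 𝓕 (𝓝 b) := hub
  have hab : a ≤ b := le_of_tendsto_of_tendsto' hsa hub hsu
  have hlaw : (ν : Measure (ℝ × ℝ)) = arch (b - a) := law_limit (𝓕 : Filter ℕ) (hn.mono_left h𝓕) hk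
    (fun i j a b hij hj hia hjb => geo_limit (𝓕 : Filter ℕ) (hn.mono_left h𝓕) hk ht0 (ht.mono_left h𝓕) he0
      (he.mono_left h𝓕) (hnt.mono_left h𝓕) hE hij hj hia hjb) hs hsu hu hsa hub hμ hν
  obtain ⟨μ₀, hμ₀, hV₀⟩ := hA (b - a) ⟨by linarith, by linarith [ha.1, hb.2]⟩
  have hνμ : ν = μ₀ := by
    apply Subtype.ext
    show (ν : Measure (ℝ × ℝ)) = μ₀
    rw [hlaw, hμ₀]
  rw [← hνμ] at hV₀
  have := ((hub.sub hsa).prodMk_nhds hν).eventually (hV.mem_nhds hV₀)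
  obtain ⟨J, hJ⟩ := this.exists
  exact hμV J hJ

/-- the same for the trajectories -/
theorem sine_transfer {ε' : ℝ} (hε' : 0 < ε') :
    ∃ ε > (0 : ℝ), ∃ t₀ > (0 : ℝ), ∀ t ∈ Ioc (0 : ℝ) t₀, ∃ n₀ : ℕ, ∀ n ≥ n₀,
      prob n (fun k => ε' * n < supCard n k ε') ≤
      (n : ℝ) ^ 2 * prob n (fun k => (π ^ 2 / 3 + ε) * t ^ 2 < ∫ p, (p.1 - p.2) ^ 2 ∂(eta n k t)) := by
  by_contra hcon
  obtain ⟨n, k, t, e, hn, hk, hn2, ht0, ht, he0, he, hnt, hE, hout⟩ := bad_seq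
    (E := fun n k => ε' * n < supCard n k ε') hcon
  obtain ⟨δ, hδ, n₀, hsup⟩ := sup_of_far hε'
  have h1 : ∀ᶠ J in atTop, ∃ u ∈ Icc (0 : ℝ) 1, δ * (n J : ℝ) < farCard (n J) (k J) δ u := by
    filter_upwards [hn.eventually_ge_atTop n₀] with J hJ
    by_contra hc
    push Not at hc
    exact absurd (hsup (n J) hJ (k J) (hk J) hc) (not_le.2 (hout J))
  obtain ⟨u, hu⟩ : ∃ u : ℕ → ℝ, ∀ J, u J ∈ Icc (0 : ℝ) 1 ∧
      ((∃ v ∈ Icc (0 : ℝ) 1, δ * (n J : ℝ) < farCard (n J) (k J) δ v) →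
        δ * (n J : ℝ) < farCard (n J) (k J) δ (u J)) := by
    have : ∀ J, ∃ v : ℝ, v ∈ Icc (0 : ℝ) 1 ∧
      ((∃ v ∈ Icc (0 : ℝ) 1, δ * (n J : ℝ) < farCard (n J) (k J) δ v) →
        δ * (n J : ℝ) < farCard (n J) (k J) δ v) := by
      intro J
      by_cases h : ∃ v ∈ Icc (0 : ℝ) 1, δ * (n J : ℝ) < farCard (n J) (k J) δ v
      · obtain ⟨v, hv, h2⟩ := h
        exact ⟨v, hv, fun _ => h2⟩
      · exact ⟨0, ⟨le_rfl, zero_le_one⟩, fun h2 => absurd h2 h⟩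
    exact ⟨fun J => (this J).choose, fun J => (this J).choose_spec⟩
  obtain ⟨𝓕, h𝓕⟩ : ∃ 𝓕 : Ultrafilter ℕ, (𝓕 : Filter ℕ) ≤ atTop := ⟨hyperfilter ℕ, Nat.hyperfilter_le_atTop⟩
  obtain ⟨a, ha, hua⟩ := isCompact_iff_ultrafilter_le_nhds'.1 (isCompact_Icc (a := (0 : ℝ)) (b := 1)) (𝓕.map u) (by
    rw [Ultrafilter.mem_map]
    exact Filter.Eventually.of_forall fun J => (hu J).1)
  replace hua : Tendsto u 𝓕 (𝓝 a) := hua
  have h2 := sine_limit (𝓕 : Filter ℕ) (hn.mono_left h𝓕) hk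
    (fun i j a b hij hj hia hjb => geo_limit (𝓕 : Filter ℕ) (hn.mono_left h𝓕) hk ht0 (ht.mono_left h𝓕) he0
      (he.mono_left h𝓕) (hnt.mono_left h𝓕) hE hij hj hia hjb) (fun J => (hu J).1) hua hδ
  obtain ⟨J, hJ1, hJ2⟩ := (h2.and (h1.filter_mono h𝓕)).exists
  exact absurd ((hu J).2 hJ2) (not_lt.2 hJ1)

end Pool.Agent.SNL63
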