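import Pool.Agent.SN8.Eta
import Pool.Agent.SNL63.DDefs

/-!
# The mass of a quadrant is a number of crossings
-/

namespace Pool.Agent.SNL63

open MeasureTheory Set Filter Topology Pool.Agent.SN8
open scoped ENNReal Real

theorem eta_apply (n : ℕ) (k : List ℕ) (t : ℝ) {S : Set (ℝ × ℝ)} (hS : MeasurableSet S)
    [DecidablePred fun i : ℕ => (glob n k i 0, glob n k i t) ∈ S] :
    eta n k t S =
      (n : ℝ≥0∞)⁻¹ * (((Finset.Icc 1 n).filter fun i => (glob n k i 0, glob n k i t) ∈ S).card : ℝ≥0∞) := by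
  rw [eta, Measure.smul_apply, smul_eq_mul, Measure.finsetSum_apply, Finset.card_filter, Nat.cast_sum]
  congr 1
  refine Finset.sum_congr rfl fun i _ => ?_
  rw [Measure.dirac_apply' _ hS, indicator_apply]
  split_ifs <;> simp

theorem glob_zero (n : ℕ) (k : List ℕ) (i : ℕ) : glob n k i 0 = 2 * (i : ℝ) / n - 1 := by
  simp [glob, place]

theorem le_iff_floor {n : ℕ} (hn : 1 ≤ n) {a : ℝ} (ha : -1 ≤ a) (i : ℕ) :
    2 * (i : ℝ) / n - 1 ≤ a ↔ i ≤ ⌊(n : ℝ) * (a + 1) / 2⌋₊ := by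
  have hn0 : (0 : ℝ) < n := by exact_mod_cast hn
  rw [Nat.le_floor_iff (by have : 0 ≤ a + 1 := by linarith
                           positivity), sub_le_iff_le_add, div_le_iff₀ hn0]
  constructor <;> intro h <;> linarith

theorem floor_le_n {n : ℕ} {a : ℝ} (ha1 : a ≤ 1) : ⌊(n : ℝ) * (a + 1) / 2⌋₊ ≤ n := by
  have h : (n : ℝ) * (a + 1) / 2 ≤ n := by
    have : (0 : ℝ) ≤ n := Nat.cast_nonneg n
    nlinarith
  exact Nat.floor_le_of_le h

/-- The mass of the quadrant `x ≤ a < y`. -/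
theorem eta_cross {n : ℕ} (hn : 1 ≤ n) (k : List ℕ) {a : ℝ} (t : ℝ) (ha : -1 ≤ a) (ha1 : a ≤ 1) :
    eta n k t (Iic a ×ˢ Ioi a) = (n : ℝ≥0∞)⁻¹ *
      (cross ⌊(n : ℝ) * (a + 1) / 2⌋₊ (k.take ⌊(n.choose 2 : ℝ) * t⌋₊) : ℝ≥0∞) := by
  classical
  rw [eta_apply n k t (measurableSet_Iic.prod measurableSet_Ioi)]
  congr 2
  unfold cross
  congr 1
  ext i
  have h1 : (glob n k i 0, glob n k i t) ∈ Iic a ×ˢ Ioi a ↔
      i ≤ ⌊(n : ℝ) * (a + 1) / 2⌋₊ ∧
        ⌊(n : ℝ) * (a + 1) / 2⌋₊ < place (k.take ⌊(n.choose 2 : ℝ) * t⌋₊) i := by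
    rw [mem_prod, mem_Iic, mem_Ioi, glob_zero, le_iff_floor hn ha]
    refine and_congr_right fun _ => ?_
    rw [← not_le, ← not_le, ← le_iff_floor hn ha]
    rfl
  rw [Finset.mem_filter, Finset.mem_filter, Finset.mem_Icc, Finset.mem_Icc, h1]
  have h2 := floor_le_n (n := n) ha1
  constructor
  · rintro ⟨⟨h3, _⟩, h4, h5⟩
    exact ⟨⟨h3, h4⟩, h5⟩
  · rintro ⟨⟨h3, h4⟩, h5⟩
    exact ⟨⟨h3, h4.trans h2⟩, h4, h5⟩

/-! ### Reversal -/

theorem word_reverse (k : List ℕ) : P k.reverse = (P k)⁻¹ := by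
  induction k with
  | nil => simp
  | cons j l ih => rw [List.reverse_cons, P_append, P_singleton, P_cons, ih, mul_inv_rev, sw_inv]

theorem network_P {n : ℕ} {k : List ℕ} (h : IsNetwork n k) : P k = rev n :=
  ((isNetwork_iff n k).1 h).2.2

theorem network_reverse {n : ℕ} {k : List ℕ} (h : IsNetwork n k) : IsNetwork n k.reverse := by
  rw [isNetwork_iff] at h ⊢
  obtain ⟨h1, h2, h3⟩ := h
  refine ⟨by rw [List.length_reverse, h1], fun j hj => h2 j (List.mem_reverse.1 hj), ?_⟩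
  rw [word_reverse, h3, rev_inv]

theorem place_reverse_take {n : ℕ} {k : List ℕ} (h : IsNetwork n k) {s : ℕ} (hs : s ≤ n.choose 2) {x : ℕ}
    (h1 : 1 ≤ x) (hx : x ≤ n) :
    place (k.reverse.take s) (n + 1 - x) = place (k.take (n.choose 2 - s)) x := by
  have e1 : k.reverse.take s = (k.drop (n.choose 2 - s)).reverse := by
    rw [List.take_reverse, h.1]
  have e2 : P (k.take (n.choose 2 - s)) * P (k.drop (n.choose 2 - s)) = rev n := by
    rw [← P_append, List.take_append_drop, network_P h]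
  have e3 : P (k.drop (n.choose 2 - s)) = (P (k.take (n.choose 2 - s)))⁻¹ * rev n := by
    rw [← e2, inv_mul_cancel_left]
  rw [place_eq, place_eq, e1, word_reverse, inv_inv, e3, Equiv.Perm.mul_apply, rev_apply, if_pos (by omega)]
  congr 1
  omega

/-- The mass of the quadrant `x ≥ -a`, `y > a`. -/
theorem eta_cross_rev {n : ℕ} (hn : 1 ≤ n) {k : List ℕ} (hk : IsNetwork n k) {a t : ℝ} (ha : -1 ≤ a)
    (ht1 : t ≤ 1) :
    (n : ℝ≥0∞)⁻¹ * (cross ⌊(n : ℝ) * (a + 1) / 2⌋₊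
        (k.reverse.take (n.choose 2 - ⌊(n.choose 2 : ℝ) * t⌋₊)) : ℝ≥0∞) ≤
      eta n k t (Ici (-a) ×ˢ Ioi a) := by
  classical
  rw [eta_apply n k t (measurableSet_Ici.prod measurableSet_Ioi)]
  gcongr
  obtain ⟨m, hm⟩ : ∃ m, m = ⌊(n : ℝ) * (a + 1) / 2⌋₊ := ⟨_, rfl⟩
  obtain ⟨s, hs⟩ : ∃ s, s = ⌊(n.choose 2 : ℝ) * t⌋₊ := ⟨_, rfl⟩
  have hsN : s ≤ n.choose 2 := by
    rw [hs]
    refine Nat.floor_le_of_le ?_
    have : (0 : ℝ) ≤ (n.choose 2 : ℝ) := Nat.cast_nonneg _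
    nlinarith
  rw [← hm, ← hs]
  have hkr : ∀ j ∈ k.reverse.take (n.choose 2 - s), 1 ≤ j ∧ j + 1 ≤ n := fun j hj =>
    (network_reverse hk).2.1 j (List.mem_of_mem_take hj)
  unfold cross
  refine Finset.card_le_card_of_injOn (fun y => n + 1 - y) ?_ ?_
  · intro y hy
    rw [Finset.mem_coe, Finset.mem_filter, Finset.mem_Icc] at hy
    obtain ⟨⟨hy1, hy2⟩, hy3⟩ := hy
    have hyn : y ≤ n := by
      by_contra hcon
      have h1 : place (k.reverse.take (n.choose 2 - s)) y = y := by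
        rw [place_eq]
        exact (Supp.P hkr).inv y (by omega)
      rw [h1] at hy3
      omega
    have h2 := place_reverse_take hk (s := n.choose 2 - s) (by omega) (x := n + 1 - y) (by omega) (by omega)
    rw [show n + 1 - (n + 1 - y) = y by omega, show n.choose 2 - (n.choose 2 - s) = s by omega] at h2
    simp only [Finset.coe_filter, Finset.mem_Icc, mem_ofPred_eq, mem_prod, mem_Ici, mem_Ioi]
    refine ⟨by omega, ?_, ?_⟩
    · rw [glob_zero]
      have h3 := (le_iff_floor hn ha y).2 (by omega)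
      have h4 : ((n + 1 - y : ℕ) : ℝ) = n + 1 - y := by
        rw [Nat.cast_sub (by omega)]
        push_cast
        ring
      have hn0 : (0 : ℝ) < n := by exact_mod_cast hn
      rw [h4]
      have h5 : 2 * ((n : ℝ) + 1 - y) / n - 1 = 1 + 2 / n - 2 * y / n := by
        field_simp
        ring
      rw [h5]
      have h6 : 0 ≤ 2 / (n : ℝ) := by positivity
      linarith
    · rw [← not_le]
      have h3 : glob n k (n + 1 - y) t = 2 * (place (k.take s) (n + 1 - y) : ℝ) / n - 1 := by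
        rw [glob, hs]
      rw [h3, le_iff_floor hn ha, ← h2]
      omega
  · intro y₁ hy₁ y₂ hy₂ heq
    rw [Finset.mem_coe, Finset.mem_filter, Finset.mem_Icc] at hy₁ hy₂
    have hyn : ∀ y, m < place (k.reverse.take (n.choose 2 - s)) y → y ≤ m → y ≤ n := by
      intro y hy3 hy2
      by_contra hcon
      have h1 : place (k.reverse.take (n.choose 2 - s)) y = y := by
        rw [place_eq]
        exact (Supp.P hkr).inv y (by omega)
      rw [h1] at hy3
      omega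
    have e1 := hyn y₁ hy₁.2 hy₁.1.2
    have e2 := hyn y₂ hy₂.2 hy₂.1.2
    simp only at heq
    omega

/-! ### All points lie in the square -/

theorem glob_place_mem {n : ℕ} {k : List ℕ} (hk : IsNetwork n k) (s : ℕ) {i : ℕ} (h1 : 1 ≤ i) (h2 : i ≤ n) :
    1 ≤ place (k.take s) i ∧ place (k.take s) i ≤ n := by
  rw [place_eq]
  exact (Supp.P fun j hj => hk.2.1 j (List.mem_of_mem_take hj)).inv.mem h1 h2

theorem glob_mem {n : ℕ} {k : List ℕ} (hk : IsNetwork n k) (t : ℝ) {i : ℕ} (h1 : 1 ≤ i) (h2 : i ≤ n) :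
    glob n k i t ∈ Icc (-1 : ℝ) 1 := by
  have h := glob_place_mem hk ⌊(n.choose 2 : ℝ) * t⌋₊ h1 h2
  have hn : (0 : ℝ) < n := by
    have : 0 < n := by omega
    exact_mod_cast this
  have h3 : (place (k.take ⌊(n.choose 2 : ℝ) * t⌋₊) i : ℝ) ≤ n := by exact_mod_cast h.2
  unfold glob
  constructor
  · have : 0 ≤ 2 * (place (k.take ⌊(n.choose 2 : ℝ) * t⌋₊) i : ℝ) / n := by positivity
    linarith
  · rw [sub_le_iff_le_add, div_le_iff₀ hn]
    linarith

/-- The square. -/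
def Sq : Set (ℝ × ℝ) := Icc (-1) 1 ×ˢ Icc (-1) 1

theorem eta_le_of_subset {n : ℕ} {k : List ℕ} (hk : IsNetwork n k) (t : ℝ) {S T : Set (ℝ × ℝ)}
    (hS : MeasurableSet S) (hT : MeasurableSet T) (h : S ∩ Sq ⊆ T) : eta n k t S ≤ eta n k t T := by
  classical
  rw [eta_apply n k t hS, eta_apply n k t hT]
  refine mul_le_mul_right (Nat.cast_le.2 (Finset.card_le_card fun i hi => ?_)) _
  rw [Finset.mem_filter] at hi ⊢
  have h1 := Finset.mem_Icc.1 hi.1
  exact ⟨hi.1, h ⟨hi.2, glob_mem hk 0 h1.1 h1.2, glob_mem hk t h1.1 h1.2⟩⟩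

theorem measurableSet_Sq : MeasurableSet Sq := measurableSet_Icc.prod measurableSet_Icc

/-- `eta` lives on the square. -/
theorem eta_Sq_compl {n : ℕ} {k : List ℕ} (hk : IsNetwork n k) (t : ℝ) : eta n k t Sqᶜ = 0 := by
  refine le_antisymm ?_ zero_le
  have := eta_le_of_subset hk t measurableSet_Sq.compl MeasurableSet.empty (by
    rintro p ⟨h1, h2⟩
    exact absurd h2 h1)
  rwa [measure_empty] at this

theorem isProbabilityMeasure_eta {n : ℕ} (hn : 1 ≤ n) (k : List ℕ) (t : ℝ) :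
    IsProbabilityMeasure (eta n k t) := by
  classical
  constructor
  rw [eta_apply n k t MeasurableSet.univ]
  simp only [mem_univ, Finset.filter_true, Nat.card_Icc, Nat.add_sub_cancel]
  exact ENNReal.inv_mul_cancel (by simp only [ne_eq, Nat.cast_eq_zero]; omega) (ENNReal.natCast_ne_top n)

end Pool.Agent.SNL63
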