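import Pool.Agent.SNL63.LlCount

/-!
The number of words with large `L log L` norm of the speeds.
-/

namespace Pool.Agent.SNL63

open Pool.Agent.SN8 MeasureTheory Set Filter Topology
open scoped ENNReal Real

/-- the integer part of the logarithm to the base 2 of the scaled displacement -/
def LL (n s : ℕ) (w : List ℕ) (x : ℕ) : ℕ :=
  Nat.log 2 (((place w x : ℤ) - x).natAbs * n / s)

theorem LL_le {n s : ℕ} (hs : 1 ≤ s) (w : List ℕ) (x : ℕ) :
    (2 : ℝ) ^ LL n s w x ≤ 1 + |(place w x : ℝ) - x| * n / s := by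
  have hs0 : (0 : ℝ) < s := by exact_mod_cast hs
  have h0 : 0 ≤ |(place w x : ℝ) - x| * n / s := by positivity
  have hd : ((((place w x : ℤ) - x).natAbs : ℕ) : ℝ) = |(place w x : ℝ) - x| := by
    rw [Nat.cast_natAbs]
    push_cast
    rfl
  rcases Nat.eq_zero_or_pos (((place w x : ℤ) - x).natAbs * n / s) with h | h
  · unfold LL
    rw [h, Nat.log_zero_right, pow_zero]
    linarith
  · have h1 := Nat.pow_log_le_self 2 h.ne'
    have h2 : ((2 ^ Nat.log 2 (((place w x : ℤ) - x).natAbs * n / s) : ℕ) : ℝ) ≤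
        ((((place w x : ℤ) - x).natAbs * n / s : ℕ) : ℝ) := Nat.cast_le.2 h1
    have h3 : ((((place w x : ℤ) - x).natAbs * n / s : ℕ) : ℝ) ≤
        ((((place w x : ℤ) - x).natAbs * n : ℕ) : ℝ) / (s : ℝ) := Nat.cast_div_le
    rw [Nat.cast_mul, hd] at h3
    push_cast at h2
    unfold LL
    linarith

theorem le_LL {n s : ℕ} (hs : 1 ≤ s) (w : List ℕ) (x : ℕ) :
    1 + |(place w x : ℝ) - x| * n / s ≤ (2 : ℝ) ^ (LL n s w x + 2) := by
  have hs0 : (0 : ℝ) < s := by exact_mod_cast hs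
  have hd : ((((place w x : ℤ) - x).natAbs : ℕ) : ℝ) = |(place w x : ℝ) - x| := by
    rw [Nat.cast_natAbs]
    push_cast
    rfl
  obtain ⟨m, hm⟩ : ∃ m, m = ((place w x : ℤ) - x).natAbs * n / s := ⟨_, rfl⟩
  have h1 : ((place w x : ℤ) - x).natAbs * n < (m + 1) * s := by
    rw [hm]
    have := Nat.lt_div_mul_add (a := ((place w x : ℤ) - x).natAbs * n) (b := s) (by omega)
    nlinarith
  have h2 : |(place w x : ℝ) - x| * n ≤ ((m : ℝ) + 1) * s := by
    rw [← hd]
    exact_mod_cast h1.le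
  have h3 : |(place w x : ℝ) - x| * n / s ≤ (m : ℝ) + 1 := by
    rw [div_le_iff₀ hs0]
    exact h2
  have h4 : m < 2 ^ (Nat.log 2 m + 1) := Nat.lt_pow_succ_log_self (by norm_num) m
  have h5 : (m : ℝ) + 1 ≤ 2 ^ (Nat.log 2 m + 1) := by exact_mod_cast h4
  have h6 : (1 : ℝ) ≤ 2 ^ (Nat.log 2 m + 1) := one_le_pow₀ (by norm_num)
  unfold LL
  rw [← hm]
  calc 1 + |(place w x : ℝ) - x| * n / s ≤ 2 ^ (Nat.log 2 m + 1) + 2 ^ (Nat.log 2 m + 1) := by
        linarith
    _ = 2 ^ (Nat.log 2 m + 2) := by ring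

/-- the words in which the integer parts are given -/
theorem fiber_card {n s : ℕ} (hn : 2 ≤ n) (hs : 1 ≤ s) (A : ℝ) (S : Finset (List ℕ))
    (hS : ∀ w ∈ S, w ∈ LogW n s A) (φ : ℕ → ℕ)
    (hφ : ∀ w ∈ S, ∀ x ∈ Finset.Icc 1 n, LL n s w x = φ x) :
    (S.card : ℝ) ≤ (12 * n) ^ s * Real.exp (-(A / 2) * s) := by
  have hs0 : (0 : ℝ) < s := by exact_mod_cast hs
  have hn0 : (0 : ℝ) < n := by exact_mod_cast (by omega : 0 < n)
  rcases S.eq_empty_or_nonempty with rfl | ⟨w₀, hw₀⟩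
  · rw [Finset.card_empty, Nat.cast_zero]
    positivity
  have hl2 : 0 < Real.log 2 := Real.log_pos (by norm_num)
  have hsq : (1 : ℝ) ≤ Real.sqrt 2 := by
    rw [Real.one_le_sqrt]
    norm_num
  obtain ⟨z, hz⟩ : ∃ z : ℕ → ℝ, z = fun x => Real.sqrt 2 ^ φ x := ⟨_, rfl⟩
  have hz1 : ∀ x, 1 ≤ z x := by
    intro x
    rw [hz]
    exact one_le_pow₀ hsq
  have hzsq : ∀ x, z x ^ 2 = (2 : ℝ) ^ φ x := by
    intro x
    rw [hz]
    simp only
    rw [← pow_mul, mul_comm, pow_mul, Real.sq_sqrt (by norm_num)]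
  have hzlog : ∀ x, z x = Real.exp ((φ x : ℝ) * (Real.log 2 / 2)) := by
    intro x
    rw [hz]
    simp only
    rw [Real.exp_nat_mul]
    congr 1
    rw [Real.sqrt_eq_rpow, Real.rpow_def_of_pos (by norm_num)]
    congr 1
    ring
  -- the sum of the squares
  have hsum : ∑ x ∈ Finset.Icc 1 n, z x ^ 2 ≤ 3 * n := by
    have h1 := hS w₀ hw₀
    have h2 := disp_sum_le (n := n) (s := s) (w := w₀) ⟨h1.1, h1.2.1⟩
    calc ∑ x ∈ Finset.Icc 1 n, z x ^ 2 ≤
        ∑ x ∈ Finset.Icc 1 n, (1 + |(place w₀ x : ℝ) - x| * (n / s)) := by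
          refine Finset.sum_le_sum fun x hx => ?_
          rw [hzsq, ← hφ w₀ hw₀ x hx, ← mul_div_assoc]
          exact LL_le hs w₀ x
      _ = n + (∑ x ∈ Finset.Icc 1 n, |(place w₀ x : ℝ) - x|) * (n / s) := by
          rw [Finset.sum_add_distrib, ← Finset.sum_mul]
          simp
      _ ≤ n + (2 * s) * (n / s) := by
          have h3 : (0 : ℝ) ≤ n / s := by positivity
          have := mul_le_mul_of_nonneg_right h2 h3
          linarith
      _ = 3 * n := by
          field_simp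
          ring
  -- the products
  have hprod : ∀ w ∈ S, Real.exp ((A - 4 * Real.log 2) * s / 2) ≤
      ∏ x ∈ Finset.Icc 1 n, z x ^ ((place w x : ℤ) - x).natAbs := by
    intro w hw
    obtain ⟨h1, h2, h3⟩ := hS w hw
    have h4 := disp_sum_le (n := n) (s := s) (w := w) ⟨h1, h2⟩
    have h5 : ∏ x ∈ Finset.Icc 1 n, z x ^ ((place w x : ℤ) - x).natAbs =
        Real.exp (∑ x ∈ Finset.Icc 1 n, |(place w x : ℝ) - x| * ((φ x : ℝ) * (Real.log 2 / 2))) := by
      rw [Real.exp_sum]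
      refine Finset.prod_congr rfl fun x _ => ?_
      rw [hzlog, ← Real.exp_nat_mul, Nat.cast_natAbs]
      push_cast
      rfl
    rw [h5]
    apply Real.exp_le_exp.2
    have h6 : ∑ x ∈ Finset.Icc 1 n, |(place w x : ℝ) - x| *
        Real.log (1 + |(place w x : ℝ) - x| * n / s) ≤
        ∑ x ∈ Finset.Icc 1 n, (2 * (|(place w x : ℝ) - x| * ((φ x : ℝ) * (Real.log 2 / 2))) +
          |(place w x : ℝ) - x| * (2 * Real.log 2)) := by
      refine Finset.sum_le_sum fun x hx => ?_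
      have h7 : Real.log (1 + |(place w x : ℝ) - x| * n / s) ≤ ((φ x : ℝ) + 2) * Real.log 2 := by
        have h8 : 0 < 1 + |(place w x : ℝ) - x| * n / s := by positivity
        have h9 := Real.log_le_log h8 (le_LL hs w x)
        rw [Real.log_pow, hφ w hw x hx] at h9
        push_cast at h9
        exact h9
      have h8 := mul_le_mul_of_nonneg_left h7 (abs_nonneg ((place w x : ℝ) - x))
      calc _ ≤ |(place w x : ℝ) - x| * (((φ x : ℝ) + 2) * Real.log 2) := h8
        _ = _ := by ring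
    rw [Finset.sum_add_distrib, ← Finset.mul_sum, ← Finset.sum_mul] at h6
    have h7 := mul_le_mul_of_nonneg_right h4 (show 0 ≤ 2 * Real.log 2 by positivity)
    linarith
  have hww := word_weight hz1 s (S := S) (fun w hw => ⟨(hS w hw).1, (hS w hw).2.1⟩)
  have h1 : (S.card : ℝ) * Real.exp ((A - 4 * Real.log 2) * s / 2) ≤
      ∑ w ∈ S, ∏ x ∈ Finset.Icc 1 n, z x ^ ((place w x : ℤ) - x).natAbs := by
    rw [← nsmul_eq_mul, ← Finset.sum_const]
    exact Finset.sum_le_sum hprod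
  have h2 : (∑ x ∈ Finset.Icc 1 n, z x ^ 2) ^ s ≤ (3 * (n : ℝ)) ^ s :=
    pow_le_pow_left₀ (Finset.sum_nonneg fun x _ => sq_nonneg _) hsum s
  have h3 := (h1.trans hww).trans h2
  have h4 : Real.exp ((A - 4 * Real.log 2) * s / 2) * ((4 : ℝ) ^ s * Real.exp (-(A / 2) * s)) = 1 := by
    have h5 : (4 : ℝ) ^ s = Real.exp ((s : ℝ) * (2 * Real.log 2)) := by
      rw [Real.exp_nat_mul]
      congr 1
      rw [show 2 * Real.log 2 = Real.log 2 + Real.log 2 by ring, Real.exp_add,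
        Real.exp_log (by norm_num)]
      norm_num
    rw [h5, ← Real.exp_add, ← Real.exp_add]
    rw [show (A - 4 * Real.log 2) * s / 2 + ((s : ℝ) * (2 * Real.log 2) + -(A / 2) * s) = 0 by ring,
      Real.exp_zero]
  have h5 : 0 ≤ (4 : ℝ) ^ s * Real.exp (-(A / 2) * s) := by positivity
  calc (S.card : ℝ) = (S.card : ℝ) * (Real.exp ((A - 4 * Real.log 2) * s / 2) *
        ((4 : ℝ) ^ s * Real.exp (-(A / 2) * s))) := by rw [h4, mul_one]
    _ = (S.card : ℝ) * Real.exp ((A - 4 * Real.log 2) * s / 2) *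
        ((4 : ℝ) ^ s * Real.exp (-(A / 2) * s)) := by ring
    _ ≤ (3 * (n : ℝ)) ^ s * ((4 : ℝ) ^ s * Real.exp (-(A / 2) * s)) :=
        mul_le_mul_of_nonneg_right h3 h5
    _ = (12 * n) ^ s * Real.exp (-(A / 2) * s) := by
        rw [← mul_assoc, ← mul_pow]
        congr 2
        ring

theorem logW_card {n s : ℕ} (hn : 2 ≤ n) (hs : 1 ≤ s) (A : ℝ) :
    (LogW n s A).Finite ∧
    ((LogW n s A).ncard : ℝ) ≤ ((n : ℝ) ^ 2 + 1) ^ n * (12 * n) ^ s * Real.exp (-(A / 2) * s) := by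
  classical
  have hs0 : (0 : ℝ) < s := by exact_mod_cast hs
  have hfin : (LogW n s A).Finite := by
    refine (Finset.finite_toSet (Wd n s)).subset fun w hw => ?_
    exact mem_Wd.2 ⟨hw.1, hw.2.1⟩
  refine ⟨hfin, ?_⟩
  rw [Set.ncard_eq_toFinset_card _ hfin]
  -- the integer parts are at most `n ^ 2`
  have hLn : ∀ w ∈ LogW n s A, ∀ x ∈ Finset.Icc 1 n, LL n s w x < n ^ 2 + 1 := by
    intro w hw x hx
    have h1 := disp_sum_le (n := n) (s := s) (w := w) ⟨hw.1, hw.2.1⟩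
    have h2 : |(place w x : ℝ) - x| ≤ 2 * s :=
      (Finset.single_le_sum (f := fun x : ℕ => |(place w x : ℝ) - x|)
        (fun _ _ => abs_nonneg _) hx).trans h1
    have h3 : ((place w x : ℤ) - x).natAbs ≤ 2 * s := by
      have hd : ((((place w x : ℤ) - x).natAbs : ℕ) : ℝ) = |(place w x : ℝ) - x| := by
        rw [Nat.cast_natAbs]
        push_cast
        rfl
      rw [← hd] at h2
      exact_mod_cast h2
    have h4 : ((place w x : ℤ) - x).natAbs * n / s ≤ 2 * n := by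
      apply Nat.div_le_of_le_mul
      nlinarith
    have h5 : LL n s w x ≤ 2 * n := by
      unfold LL
      exact (Nat.log_le_self 2 _).trans h4
    nlinarith
  obtain ⟨Φ, hΦ⟩ : ∃ Φ : List ℕ → (Fin n → Fin (n ^ 2 + 1)),
      ∀ w i, Φ w i = ⟨LL n s w (i + 1) % (n ^ 2 + 1), Nat.mod_lt _ (Nat.succ_pos _)⟩ :=
    ⟨fun w i => ⟨LL n s w (i + 1) % (n ^ 2 + 1), Nat.mod_lt _ (Nat.succ_pos _)⟩, fun _ _ => rfl⟩
  have h1 : hfin.toFinset.card = ∑ φ : Fin n → Fin (n ^ 2 + 1),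
      (hfin.toFinset.filter (fun w => Φ w = φ)).card :=
    Finset.card_eq_sum_card_fiberwise (fun w _ => Finset.mem_univ _)
  rw [h1, Nat.cast_sum]
  have h2 : ∀ φ : Fin n → Fin (n ^ 2 + 1),
      ((hfin.toFinset.filter (fun w => Φ w = φ)).card : ℝ) ≤
        (12 * n) ^ s * Real.exp (-(A / 2) * s) := by
    intro φ
    refine fiber_card hn hs A _ (fun w hw => ?_)
      (fun x => if h : x - 1 < n then (φ ⟨x - 1, h⟩ : ℕ) else 0) fun w hw x hx => ?_
    · exact hfin.mem_toFinset.1 (Finset.mem_filter.1 hw).1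
    · obtain ⟨hw1, hw2⟩ := Finset.mem_filter.1 hw
      have hw3 := hfin.mem_toFinset.1 hw1
      have hx' := Finset.mem_Icc.1 hx
      have hlt : x - 1 < n := by omega
      simp only [dif_pos hlt]
      rw [← hw2, hΦ]
      simp only
      rw [Nat.mod_eq_of_lt (by
        rw [Nat.sub_add_cancel hx'.1]
        exact hLn w hw3 x hx), Nat.sub_add_cancel hx'.1]
  refine (Finset.sum_le_sum fun φ _ => h2 φ).trans ?_
  rw [Finset.sum_const, Finset.card_univ, Fintype.card_fun, Fintype.card_fin, Fintype.card_fin,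
    nsmul_eq_mul]
  push_cast
  rw [mul_assoc]

end Pool.Agent.SNL63
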