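import Pool.Agent.SNL63.LlDefs
import Pool.Agent.SNL63.DoLipA

/-!
The `L log L` bound of the speeds, from the domination and the cardinality of `LogW`.
-/

namespace Pool.Agent.SNL63

open Pool.Agent.SN8 MeasureTheory Set Filter Topology
open scoped ENNReal Real

namespace Ll

/-- The integral is a sum. -/
theorem integral_eq {n : ℕ} (hn : 1 ≤ n) (k : List ℕ) {s u : ℝ} (hsu : s < u) :
    ∫⁻ p, ENNReal.ofReal (|p.1 - p.2| * Real.log (1 + |p.1 - p.2| / (u - s))) ∂(eta2 n k s u) =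
      ENNReal.ofReal ((∑ x ∈ Finset.Icc 1 n, |glob n k x s - glob n k x u| *
        Real.log (1 + |glob n k x s - glob n k x u| / (u - s))) / n) := by
  have hnpos : (0 : ℝ) < n := by exact_mod_cast hn
  have h0 : ∀ x : ℝ, 0 ≤ |x| * Real.log (1 + |x| / (u - s)) := by
    intro x
    refine mul_nonneg (abs_nonneg _) (Real.log_nonneg ?_)
    have : 0 ≤ |x| / (u - s) := div_nonneg (abs_nonneg _) (by linarith)
    linarith
  rw [eta2, lintegral_smul_measure, lintegral_finsetSum_measure]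
  simp only [lintegral_dirac, smul_eq_mul]
  rw [← ENNReal.ofReal_sum_of_nonneg fun x _ => h0 _]
  have h3 : (n : ℝ≥0∞)⁻¹ = ENNReal.ofReal ((n : ℝ)⁻¹) := by
    rw [ENNReal.ofReal_inv_of_pos hnpos, ENNReal.ofReal_natCast]
  rw [h3, ← ENNReal.ofReal_mul (by positivity)]
  congr 1
  rw [div_eq_inv_mul]

/-- One term. -/
theorem term {n m : ℕ} (hn : 0 < n) (hm : 0 < m) {τ d : ℝ} (hd : 0 ≤ d) (hτ : 0 < τ)
    (hmτ : (m : ℝ) ≤ (n : ℝ) ^ 2 * τ) :
    2 / n * d * Real.log (1 + 2 / n * d / τ) ≤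
      2 / n * (d * Real.log 2 + d * Real.log (1 + d * n / m)) := by
  have hn0 : (0 : ℝ) < n := by exact_mod_cast hn
  have hm0 : (0 : ℝ) < m := by exact_mod_cast hm
  have h1 : 2 / n * d / τ ≤ 2 * (d * n / m) := by
    rw [div_le_iff₀ hτ]
    have h2 : 2 * (d * n / m) * τ = 2 * d * (n * τ / m) := by ring
    have h3 : 1 / (n : ℝ) ≤ n * τ / m := by
      rw [div_le_div_iff₀ hn0 hm0]
      nlinarith
    rw [h2]
    calc 2 / (n : ℝ) * d = 2 * d * (1 / n) := by ring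
      _ ≤ 2 * d * (n * τ / m) := mul_le_mul_of_nonneg_left h3 (by positivity)
  have h4 : 0 ≤ d * n / m := by positivity
  have h5 : 0 ≤ 2 / n * d / τ := by positivity
  have h6 : Real.log (1 + 2 / n * d / τ) ≤ Real.log 2 + Real.log (1 + d * n / m) := by
    rw [← Real.log_mul (by norm_num) (by positivity)]
    apply Real.log_le_log (by positivity)
    linarith
  have h7 : 0 ≤ 2 / (n : ℝ) * d := by positivity
  calc 2 / n * d * Real.log (1 + 2 / n * d / τ) ≤ 2 / n * d * (Real.log 2 + Real.log (1 + d * n / m)) :=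
        mul_le_mul_of_nonneg_left h6 h7
    _ = _ := by ring

/-- The window of a pair of times. -/
theorem event {n : ℕ} (hn : 2 ≤ n) {k : List ℕ} (hk : IsNetwork n k) {A₀ s u κ : ℝ}
    (hA : 0 ≤ A₀) (hκ : 0 < κ) (h0 : 0 ≤ s) (hsu : s + κ ≤ u) (hu : u ≤ 1)
    (hbig : 2 ≤ κ * (n.choose 2 : ℝ))
    (hsum : ∀ {n s : ℕ} {w : List ℕ}, (w.length = s ∧ ∀ j ∈ w, 1 ≤ j ∧ j + 1 ≤ n) →
      ∑ x ∈ Finset.Icc 1 n, |(place w x : ℝ) - x| ≤ 2 * s)
    (h : ENNReal.ofReal ((2 * A₀ + 4 * Real.log 2) * (u - s)) <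
      ∫⁻ p, ENNReal.ofReal (|p.1 - p.2| * Real.log (1 + |p.1 - p.2| / (u - s))) ∂(eta2 n k s u)) :
    ∃ i < n.choose 2 + 1, ∃ m < n.choose 2 + 1, κ * (n.choose 2 : ℝ) - 1 < m ∧ i + m ≤ n.choose 2 ∧
      (k.drop i).take m ∈ LogW n m A₀ := by
  have hn0 : (2 : ℝ) ≤ n := by exact_mod_cast hn
  have hnpos : (0 : ℝ) < n := by linarith
  obtain ⟨N, hN⟩ : ∃ N, N = n.choose 2 := ⟨_, rfl⟩
  have hNr : (n.choose 2 : ℝ) = n * (n - 1) / 2 := Nat.cast_choose_two ℝ n
  have hNr' : (N : ℝ) = n * (n - 1) / 2 := by rw [hN, hNr]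
  have hNpos : (0 : ℝ) < (N : ℝ) := by
    rw [hNr']
    nlinarith
  rw [← hN] at hbig
  obtain ⟨i, hi⟩ : ∃ i, i = ⌊(N : ℝ) * s⌋₊ := ⟨_, rfl⟩
  obtain ⟨j, hj⟩ : ∃ j, j = ⌊(N : ℝ) * u⌋₊ := ⟨_, rfl⟩
  have hij : i ≤ j := by
    rw [hi, hj]
    exact Nat.floor_le_floor (mul_le_mul_of_nonneg_left (by linarith) hNpos.le)
  have hjN : j ≤ N := by
    rw [hj]
    refine Nat.floor_le_of_le ?_
    nlinarith
  have i1 : (i : ℝ) ≤ N * s := by
    rw [hi]
    exact Nat.floor_le (by positivity)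
  have i2 : (N : ℝ) * s < i + 1 := by
    rw [hi]
    exact Nat.lt_floor_add_one _
  have j1 : (j : ℝ) ≤ N * u := by
    rw [hj]
    exact Nat.floor_le (mul_nonneg hNpos.le (by linarith))
  have j2 : (N : ℝ) * u < j + 1 := by
    rw [hj]
    exact Nat.lt_floor_add_one _
  obtain ⟨m, hm⟩ := Nat.exists_eq_add_of_le hij
  have hmr : (j : ℝ) = i + m := by
    rw [hm]
    push_cast
    ring
  have hκN : κ * N ≤ N * (u - s) := by nlinarith
  have hm1 : κ * (N : ℝ) - 1 < m := by nlinarith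
  have hmpos : 0 < m := by
    have : (0 : ℝ) < m := by linarith
    exact_mod_cast this
  have hτ : 0 < u - s := by linarith
  have hmτ : (m : ℝ) ≤ (n : ℝ) ^ 2 * (u - s) := by
    have h1 : (m : ℝ) ≤ N * (u - s) + 1 := by nlinarith
    have h2 : (m : ℝ) ≤ 2 * (N * (u - s)) := by linarith
    have h3 : 2 * (N * (u - s)) ≤ (n : ℝ) ^ 2 * (u - s) := by
      rw [hNr']
      nlinarith [mul_pos hnpos hτ]
    linarith
  rw [← hN]
  refine ⟨i, by omega, m, by omega, hm1, by omega, ?_⟩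
  obtain ⟨w, hw⟩ : ∃ w, w = (k.drop i).take m := ⟨_, rfl⟩
  have hkj : k.take j = k.take i ++ w := by
    rw [hw, hm, List.take_add]
  rw [← hw]
  have hlen : w.length = m := by
    rw [hw, List.length_take, List.length_drop, hk.1, ← hN]
    omega
  have hlet : ∀ a ∈ w, 1 ≤ a ∧ a + 1 ≤ n := by
    intro a ha
    rw [hw] at ha
    exact hk.2.1 a (List.mem_of_mem_drop (List.mem_of_mem_take ha))
  refine ⟨hlen, hlet, ?_⟩
  by_contra hcon
  push Not at hcon
  refine absurd h (not_lt.mpr ?_)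
  rw [integral_eq (by omega) k (by linarith)]
  apply ENNReal.ofReal_le_ofReal
  have hsupp : Supp n (P (k.take i)) :=
    Supp.P fun a ha => hk.2.1 a (List.mem_of_mem_take ha)
  -- the sum over the places at time `s`
  have hterm : ∀ x, |glob n k x s - glob n k x u| =
      2 / n * |(place w (place (k.take i) x) : ℝ) - place (k.take i) x| := by
    intro x
    have g1 : glob n k x s = 2 * (place (k.take i) x : ℝ) / n - 1 := by
      unfold glob
      rw [← hN, ← hi]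
    have g2 : glob n k x u = 2 * (place w (place (k.take i) x) : ℝ) / n - 1 := by
      unfold glob
      rw [← hN, ← hj, hkj, place_append]
    have h5 : glob n k x s - glob n k x u =
        -(2 / n * ((place w (place (k.take i) x) : ℝ) - place (k.take i) x)) := by
      rw [g1, g2]
      ring
    rw [h5, abs_neg, abs_mul, abs_of_pos (by positivity : (0 : ℝ) < 2 / n)]
  have hre : ∑ x ∈ Finset.Icc 1 n, |glob n k x s - glob n k x u| *
        Real.log (1 + |glob n k x s - glob n k x u| / (u - s)) =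
      ∑ y ∈ Finset.Icc 1 n, 2 / n * |(place w y : ℝ) - y| *
        Real.log (1 + 2 / n * |(place w y : ℝ) - y| / (u - s)) := by
    refine Finset.sum_equiv (P (k.take i))⁻¹ ?_ ?_
    · intro x
      rw [Finset.mem_Icc, Finset.mem_Icc]
      constructor
      · rintro ⟨h1, h2⟩
        exact hsupp.inv.mem h1 h2
      · rintro ⟨h1, h2⟩
        have h3 := hsupp.mem h1 h2
        have h4 : (P (k.take i)) ((P (k.take i))⁻¹ x) = x := (P (k.take i)).apply_symm_apply x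
        rwa [h4] at h3
    · intro x _
      rw [hterm, place_eq (k.take i) x]
  rw [hre, div_le_iff₀ hnpos]
  have h1 : ∑ y ∈ Finset.Icc 1 n, 2 / n * |(place w y : ℝ) - y| *
        Real.log (1 + 2 / n * |(place w y : ℝ) - y| / (u - s)) ≤
      ∑ y ∈ Finset.Icc 1 n, 2 / n * (|(place w y : ℝ) - y| * Real.log 2 +
        |(place w y : ℝ) - y| * Real.log (1 + |(place w y : ℝ) - y| * n / m)) :=
    Finset.sum_le_sum fun y _ => term (by omega) hmpos (abs_nonneg _) hτ hmτ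
  refine h1.trans ?_
  rw [← Finset.mul_sum, Finset.sum_add_distrib, ← Finset.sum_mul]
  have h2 := hsum ⟨hlen, hlet⟩
  have hlog2 : 0 < Real.log 2 := Real.log_pos (by norm_num)
  have h3 : (∑ y ∈ Finset.Icc 1 n, |(place w y : ℝ) - y|) * Real.log 2 +
      ∑ y ∈ Finset.Icc 1 n, |(place w y : ℝ) - y| * Real.log (1 + |(place w y : ℝ) - y| * n / m) ≤
      2 * m * Real.log 2 + A₀ * m := add_le_add (mul_le_mul_of_nonneg_right h2 hlog2.le) hcon
  calc 2 / (n : ℝ) * ((∑ y ∈ Finset.Icc 1 n, |(place w y : ℝ) - y|) * Real.log 2 +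
      ∑ y ∈ Finset.Icc 1 n, |(place w y : ℝ) - y| * Real.log (1 + |(place w y : ℝ) - y| * n / m))
      ≤ 2 / (n : ℝ) * (2 * m * Real.log 2 + A₀ * m) := mul_le_mul_of_nonneg_left h3 (by positivity)
    _ = (2 * A₀ + 4 * Real.log 2) / n * m := by ring
    _ ≤ (2 * A₀ + 4 * Real.log 2) / n * ((n : ℝ) ^ 2 * (u - s)) :=
        mul_le_mul_of_nonneg_left hmτ (by positivity)
    _ = (2 * A₀ + 4 * Real.log 2) * (u - s) * n := by
        field_simp

end Ll

/-- **the `L log L` bound of the speeds**, from the domination -/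
theorem llog_of
    (hdom : ∃ C > (0 : ℝ), ∀ n : ℕ, 2 ≤ n → ∀ (i : ℕ) (w : List ℕ), n ≤ w.length →
      i + w.length ≤ n.choose 2 →
      prob n (fun k => (k.drop i).take w.length = w) ≤ (C / n) ^ w.length)
    (hsum : ∀ {n s : ℕ} {w : List ℕ}, (w.length = s ∧ ∀ j ∈ w, 1 ≤ j ∧ j + 1 ≤ n) →
      ∑ x ∈ Finset.Icc 1 n, |(place w x : ℝ) - x| ≤ 2 * s)
    (hcard : ∀ {n s : ℕ}, 2 ≤ n → 1 ≤ s → ∀ A : ℝ,
      (LogW n s A).Finite ∧
      ((LogW n s A).ncard : ℝ) ≤ ((n : ℝ) ^ 2 + 1) ^ n * (12 * n) ^ s * Real.exp (-(A / 2) * s)) :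
    ∃ A > (0 : ℝ), ∀ κ > (0 : ℝ), ∃ c₁ > (0 : ℝ), ∃ c₂ > (0 : ℝ), ∀ n : ℕ, 2 ≤ n →
      prob n (fun k => ∃ s u : ℝ, 0 ≤ s ∧ s + κ ≤ u ∧ u ≤ 1 ∧
        ENNReal.ofReal (A * (u - s)) <
          ∫⁻ p, ENNReal.ofReal (|p.1 - p.2| * Real.log (1 + |p.1 - p.2| / (u - s))) ∂(eta2 n k s u)) ≤
      c₁ * Real.exp (-c₂ * (n : ℝ) ^ 2) := by
  obtain ⟨C', hC', hdom⟩ := hdom
  obtain ⟨C, hCdef⟩ : ∃ C, C = max C' 1 := ⟨_, rfl⟩
  have hC : 1 ≤ C := by rw [hCdef]; exact le_max_right _ _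
  have hCC : C' ≤ C := by rw [hCdef]; exact le_max_left _ _
  have hlog2 : 0 < Real.log 2 := Real.log_pos (by norm_num)
  obtain ⟨A₀, hA₀⟩ : ∃ A₀, A₀ = 2 * Real.log (24 * C) := ⟨_, rfl⟩
  have hA₀pos : 0 ≤ A₀ := by
    rw [hA₀]
    have : 0 ≤ Real.log (24 * C) := Real.log_nonneg (by linarith)
    linarith
  have hexpA : Real.exp (-(A₀ / 2)) = 1 / (24 * C) := by
    have h1 : -(A₀ / 2) = -Real.log (24 * C) := by
      rw [hA₀]
      ring
    rw [h1, Real.exp_neg, Real.exp_log (by positivity), one_div]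
  refine ⟨2 * A₀ + 4 * Real.log 2, by positivity, fun κ hκ => ?_⟩
  obtain ⟨δ, hδ⟩ : ∃ δ, δ = κ / 32 := ⟨_, rfl⟩
  have hδ0 : 0 < δ := by rw [hδ]; positivity
  obtain ⟨n₀, hn₀⟩ : ∃ n₀ : ℕ, n₀ = ⌈1 + 4 / κ + 12 / δ ^ 3⌉₊ := ⟨_, rfl⟩
  have hn₀' : 1 + 4 / κ + 12 / δ ^ 3 ≤ (n₀ : ℝ) := by
    rw [hn₀]
    exact Nat.le_ceil _
  refine ⟨max (Real.exp (κ / 16 * (n₀ : ℝ) ^ 2)) (Real.exp 1 * (2048 / κ ^ 2)), by positivity,
    κ / 16, by positivity, fun n hn => ?_⟩
  rcases lt_or_ge n n₀ with hlt | hge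
  · refine (prob_le_one _ _).trans ?_
    have h1 : (n : ℝ) ≤ n₀ := by exact_mod_cast hlt.le
    have h2 : (0 : ℝ) ≤ n := Nat.cast_nonneg _
    calc (1 : ℝ) = Real.exp (κ / 16 * (n : ℝ) ^ 2) * Real.exp (-(κ / 16) * (n : ℝ) ^ 2) := by
          rw [← Real.exp_add]
          simp
      _ ≤ Real.exp (κ / 16 * (n₀ : ℝ) ^ 2) * Real.exp (-(κ / 16) * (n : ℝ) ^ 2) := by
          apply mul_le_mul_of_nonneg_right _ (Real.exp_pos _).le
          apply Real.exp_le_exp.mpr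
          apply mul_le_mul_of_nonneg_left _ (by positivity)
          exact pow_le_pow_left₀ h2 h1 2
      _ ≤ _ := mul_le_mul_of_nonneg_right (le_max_left _ _) (Real.exp_pos _).le
  -- large `n`
  have hn0 : (2 : ℝ) ≤ n := by exact_mod_cast hn
  have hnpos : (0 : ℝ) < n := by linarith
  have hnn₀ : 1 + 4 / κ + 12 / δ ^ 3 ≤ (n : ℝ) := hn₀'.trans (by exact_mod_cast hge)
  have hκn : 4 ≤ κ * ((n : ℝ) - 1) := by
    have h1 : 4 / κ ≤ (n : ℝ) - 1 := by
      have : 0 < 12 / δ ^ 3 := by positivity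
      linarith
    rw [div_le_iff₀ hκ] at h1
    linarith
  have hδn : (n : ℝ) ^ 2 + 1 ≤ Real.exp (δ * n) := by
    have h1 : 12 / δ ^ 3 ≤ (n : ℝ) := by
      have : 0 < 4 / κ := by positivity
      linarith
    rw [div_le_iff₀ (by positivity)] at h1
    have h2 := Real.pow_div_factorial_le_exp (δ * n) (by positivity) 3
    have h3 : (n : ℝ) ^ 2 + 1 ≤ (δ * n) ^ 3 / (Nat.factorial 3 : ℕ) := by
      have h4 : ((Nat.factorial 3 : ℕ) : ℝ) = 6 := by norm_num [Nat.factorial]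
      rw [h4, mul_pow]
      have h5 : 12 * (n : ℝ) ^ 2 ≤ (n * δ ^ 3) * (n : ℝ) ^ 2 := mul_le_mul_of_nonneg_right h1 (by positivity)
      nlinarith
    exact h3.trans h2
  have hNr : (n.choose 2 : ℝ) = n * (n - 1) / 2 := Nat.cast_choose_two ℝ n
  obtain ⟨N, hN⟩ : ∃ N, N = n.choose 2 := ⟨_, rfl⟩
  rw [← hN] at hNr
  have hκN : (n : ℝ) + 1 ≤ κ * N := by
    rw [hNr]
    nlinarith
  have hbig : ∀ m : ℕ, κ * (N : ℝ) - 1 < m → n ≤ m := by
    intro m hm
    have h2 : (n : ℝ) < m := by linarith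
    exact_mod_cast h2.le
  -- one window
  have hwin : ∀ i m : ℕ, prob n (fun k => κ * (N : ℝ) - 1 < m ∧ i + m ≤ N ∧
      (k.drop i).take m ∈ LogW n m A₀) ≤ Real.exp (δ * (n : ℝ) ^ 2) * Real.exp (-((κ * N - 1) / 2)) := by
    intro i m
    by_cases hm : κ * (N : ℝ) - 1 < m ∧ i + m ≤ N
    · obtain ⟨hm1, hm2⟩ := hm
      have hnm := hbig m hm1
      obtain ⟨hfin, hcard⟩ := hcard (n := n) (s := m) hn (by omega) A₀
      have h1 : prob n (fun k => (k.drop i).take m ∈ LogW n m A₀) ≤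
          (LogW n m A₀).ncard * (C / n) ^ m := by
        refine Lip.prob_mem_le n (fun k => (k.drop i).take m) _ hfin _ ?_
        intro w hw'
        have hlen : w.length = m := hw'.1
        have h2 := hdom n hn i w (by omega) (by omega)
        rw [hlen] at h2
        refine h2.trans ?_
        apply pow_le_pow_left₀ (by positivity)
        exact div_le_div_of_nonneg_right hCC hnpos.le
      refine (prob_mono fun k _ hk => hk.2.2).trans (h1.trans ?_)
      refine (mul_le_mul_of_nonneg_right hcard (by positivity)).trans ?_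
      have h3 : Real.exp (-(A₀ / 2) * m) = (1 / (24 * C)) ^ m := by
        rw [mul_comm, Real.exp_nat_mul, hexpA]
      have h4 : ((n : ℝ) ^ 2 + 1) ^ n * (12 * n) ^ m * Real.exp (-(A₀ / 2) * m) * (C / n) ^ m =
          ((n : ℝ) ^ 2 + 1) ^ n * (1 / 2) ^ m := by
        rw [h3, mul_assoc, mul_assoc, ← mul_pow, ← mul_pow]
        congr 2
        field_simp
        norm_num
      rw [h4]
      have h5 : ((n : ℝ) ^ 2 + 1) ^ n ≤ Real.exp (δ * (n : ℝ) ^ 2) := by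
        calc ((n : ℝ) ^ 2 + 1) ^ n ≤ (Real.exp (δ * n)) ^ n := pow_le_pow_left₀ (by positivity) hδn n
          _ = Real.exp (δ * (n : ℝ) ^ 2) := by
            rw [← Real.exp_nat_mul]
            congr 1
            ring
      have h6 : ((1 : ℝ) / 2) ^ m ≤ Real.exp (-((κ * N - 1) / 2)) := by
        have h7 : (1 : ℝ) / 2 ≤ Real.exp (-(1 / 2)) := by
          have := Real.add_one_le_exp (-(1 / 2) : ℝ)
          linarith
        calc ((1 : ℝ) / 2) ^ m ≤ (Real.exp (-(1 / 2))) ^ m := pow_le_pow_left₀ (by norm_num) h7 m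
          _ = Real.exp (-((m : ℝ) / 2)) := by
            rw [← Real.exp_nat_mul]
            congr 1
            ring
          _ ≤ _ := by
            apply Real.exp_le_exp.mpr
            linarith
      exact mul_le_mul h5 h6 (by positivity) (Real.exp_pos _).le
    · refine le_trans (prob_mono (E' := fun _ => False) fun k _ hk => hm ⟨hk.1, hk.2.1⟩) ?_
      have : prob n (fun _ => False) = 0 := by simp [prob]
      rw [this]
      positivity
  obtain ⟨b, hb⟩ : ∃ b, b = Real.exp (δ * (n : ℝ) ^ 2) * Real.exp (-((κ * N - 1) / 2)) := ⟨_, rfl⟩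
  rw [← hb] at hwin
  have hmain : prob n (fun k => ∃ s u : ℝ, 0 ≤ s ∧ s + κ ≤ u ∧ u ≤ 1 ∧
        ENNReal.ofReal ((2 * A₀ + 4 * Real.log 2) * (u - s)) <
          ∫⁻ p, ENNReal.ofReal (|p.1 - p.2| * Real.log (1 + |p.1 - p.2| / (u - s))) ∂(eta2 n k s u)) ≤
      ((N : ℝ) + 1) * (((N : ℝ) + 1) * b) := by
    refine (prob_mono (E' := fun k => ∃ i < N + 1, ∃ m < N + 1, κ * (N : ℝ) - 1 < m ∧ i + m ≤ N ∧
      (k.drop i).take m ∈ LogW n m A₀) ?_).trans ?_
    · rintro k hk ⟨s, u, h0, hsu, hu, h⟩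
      have := Ll.event hn hk hA₀pos hκ h0 hsu hu (by rw [← hN]; linarith) hsum h
      rw [← hN] at this
      exact this
    refine (prob_exists_le n (fun i k => ∃ m < N + 1, κ * (N : ℝ) - 1 < m ∧ i + m ≤ N ∧
      (k.drop i).take m ∈ LogW n m A₀) (N + 1)).trans ?_
    refine (Finset.sum_le_sum (g := fun _ => ((N : ℝ) + 1) * b) fun i _ => ?_).trans ?_
    · refine (prob_exists_le n (fun m k => κ * (N : ℝ) - 1 < m ∧ i + m ≤ N ∧
        (k.drop i).take m ∈ LogW n m A₀) (N + 1)).trans ?_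
      refine (Finset.sum_le_sum (g := fun _ => b) fun m _ => hwin i m).trans ?_
      rw [Finset.sum_const, Finset.card_range, nsmul_eq_mul]
      push_cast
      exact le_rfl
    · rw [Finset.sum_const, Finset.card_range, nsmul_eq_mul]
      push_cast
      exact le_rfl
  refine hmain.trans ?_
  -- the numbers
  have hN2 : (N : ℝ) + 1 ≤ (n : ℝ) ^ 2 := by
    rw [hNr]
    nlinarith
  have hN3 : (n : ℝ) ^ 2 / 4 ≤ N := by
    rw [hNr]
    nlinarith
  have hN0 : (0 : ℝ) ≤ (N : ℝ) + 1 := by positivity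
  obtain ⟨x, hx⟩ : ∃ x, x = κ / 32 * (n : ℝ) ^ 2 := ⟨_, rfl⟩
  have hx0 : 0 ≤ x := by rw [hx]; positivity
  have h1 : x ^ 2 / 2 ≤ Real.exp x := by
    have := Real.quadratic_le_exp_of_nonneg hx0
    linarith
  have h2 : ((n : ℝ) ^ 2) ^ 2 ≤ 2048 / κ ^ 2 * Real.exp x := by
    have h3 : ((n : ℝ) ^ 2) ^ 2 = 2048 / κ ^ 2 * (x ^ 2 / 2) := by
      rw [hx]
      field_simp
      norm_num
    rw [h3]
    exact mul_le_mul_of_nonneg_left h1 (by positivity)
  have h3 : b ≤ Real.exp (1 - 3 * x) := by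
    rw [hb, ← Real.exp_add]
    apply Real.exp_le_exp.mpr
    have h4 : κ * ((n : ℝ) ^ 2 / 4) ≤ κ * N := mul_le_mul_of_nonneg_left hN3 hκ.le
    rw [hx, hδ]
    linarith
  calc ((N : ℝ) + 1) * (((N : ℝ) + 1) * b)
      = ((N : ℝ) + 1) ^ 2 * b := by ring
    _ ≤ ((n : ℝ) ^ 2) ^ 2 * Real.exp (1 - 3 * x) :=
        mul_le_mul (pow_le_pow_left₀ hN0 hN2 2) h3 (by rw [hb]; positivity) (by positivity)
    _ ≤ (2048 / κ ^ 2 * Real.exp x) * Real.exp (1 - 3 * x) :=
        mul_le_mul_of_nonneg_right h2 (Real.exp_pos _).le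
    _ = Real.exp 1 * (2048 / κ ^ 2) * (Real.exp x * Real.exp (-(3 * x))) := by
        rw [sub_eq_add_neg, Real.exp_add]
        ring
    _ = Real.exp 1 * (2048 / κ ^ 2) * Real.exp (-(κ / 16) * (n : ℝ) ^ 2) := by
        rw [← Real.exp_add]
        congr 2
        rw [hx]
        ring
    _ ≤ _ := mul_le_mul_of_nonneg_right (le_max_right _ _) (Real.exp_pos _).le

end Pool.Agent.SNL63
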