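import Pool.Agent.SNL63.DoDom
import Pool.Agent.SNL63.LlCard
import Pool.Agent.SNL63.LlInt

/-!
# The `L log L` bound of the speeds
-/

namespace Pool.Agent.SNL63

open Pool.Agent.SN8 MeasureTheory Set Filter Topology
open scoped ENNReal Real

/-- **the `L log L` bound of the speeds** -/
theorem llog : ∃ A > (0 : ℝ), ∀ κ > (0 : ℝ), ∃ c₁ > (0 : ℝ), ∃ c₂ > (0 : ℝ), ∀ n : ℕ, 2 ≤ n →
    prob n (fun k => ∃ s u : ℝ, 0 ≤ s ∧ s + κ ≤ u ∧ u ≤ 1 ∧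
      ENNReal.ofReal (A * (u - s)) <
        ∫⁻ p, ENNReal.ofReal (|p.1 - p.2| * Real.log (1 + |p.1 - p.2| / (u - s))) ∂(eta2 n k s u)) ≤
    c₁ * Real.exp (-c₂ * (n : ℝ) ^ 2) :=
  llog_of domination disp_sum_le logW_card

end Pool.Agent.SNL63
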