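import Pool.Agent.SNL63.LlDefs

/-!
# The `L log L` bound passes to weak limits
-/

set_option autoImplicit false

namespace Pool.Agent.SNL63

open Pool.Agent.SN8 MeasureTheory Set Filter Topology
open scoped ENNReal Real

namespace Lsc

/-- the integrand -/
noncomputable def gg (t : ℝ) (p : ℝ × ℝ) : ℝ := |p.1 - p.2| * Real.log (1 + |p.1 - p.2| / t)

lemma gg_nonneg {t : ℝ} (ht : 0 < t) (p : ℝ × ℝ) : 0 ≤ gg t p := by
  unfold gg
  have h : 0 ≤ |p.1 - p.2| := abs_nonneg _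
  have h1 : 0 ≤ |p.1 - p.2| / t := div_nonneg h ht.le
  exact mul_nonneg h (Real.log_nonneg (by linarith))

lemma gg_anti {s t : ℝ} (hs : 0 < s) (hst : s ≤ t) (p : ℝ × ℝ) : gg t p ≤ gg s p := by
  unfold gg
  have h : 0 ≤ |p.1 - p.2| := abs_nonneg _
  have ht : 0 < t := hs.trans_le hst
  have h1 : 0 ≤ |p.1 - p.2| / t := div_nonneg h ht.le
  have h2 : |p.1 - p.2| / t ≤ |p.1 - p.2| / s := div_le_div_of_nonneg_left h hs hst
  exact mul_le_mul_of_nonneg_left (Real.log_le_log (by linarith) (by linarith)) h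

lemma gg_cont {t : ℝ} (ht : 0 < t) : Continuous (gg t) := by
  unfold gg
  have h : Continuous fun p : ℝ × ℝ => |p.1 - p.2| := (continuous_fst.sub continuous_snd).abs
  refine h.mul (Continuous.log (continuous_const.add (h.div_const t)) fun p => ?_)
  have h1 : 0 ≤ |p.1 - p.2| / t := div_nonneg (abs_nonneg _) ht.le
  linarith

lemma gg_tend {t₀ : ℝ} (ht₀ : 0 < t₀) (p : ℝ × ℝ) {u : ℕ → ℝ} (hu : Tendsto u atTop (𝓝 t₀)) :
    Tendsto (fun n => gg (u n) p) atTop (𝓝 (gg t₀ p)) := by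
  unfold gg
  have h1 : 0 ≤ |p.1 - p.2| / t₀ := div_nonneg (abs_nonneg _) ht₀.le
  refine tendsto_const_nhds.mul (Tendsto.log (tendsto_const_nhds.add (tendsto_const_nhds.div hu ht₀.ne')) ?_)
  linarith

lemma trunc (𝓕 : Ultrafilter ℕ) {A : ℝ} (hA : 0 < A) {t : ℕ → ℝ} {t₀ t₁ M : ℝ} (ht₀ : 0 < t₀) (h01 : t₀ < t₁)
    (hM : 0 ≤ M)
    (htt : Tendsto t 𝓕 (𝓝 t₀)) {μ : ℕ → ProbabilityMeasure (ℝ × ℝ)} {ν : ProbabilityMeasure (ℝ × ℝ)}
    (hν : Tendsto μ 𝓕 (𝓝 ν))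
    (h : ∀ᶠ J in (𝓕 : Filter ℕ), ∫⁻ p, ENNReal.ofReal (gg (t J) p)
      ∂(μ J : Measure (ℝ × ℝ)) ≤ ENNReal.ofReal (A * t J)) :
    ∫⁻ p, ENNReal.ofReal (min (gg t₁ p) M) ∂(ν : Measure (ℝ × ℝ)) ≤ ENNReal.ofReal (A * t₁) := by
  have ht₁ : 0 < t₁ := ht₀.trans h01
  let F : BoundedContinuousFunction (ℝ × ℝ) NNReal :=
    BoundedContinuousFunction.mkOfBound ⟨fun p => (min (gg t₁ p) M).toNNReal,
      continuous_real_toNNReal.comp ((gg_cont ht₁).min continuous_const)⟩ M (by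
        intro p q
        rw [NNReal.dist_eq]
        simp only [ContinuousMap.coe_mk]
        have hp : 0 ≤ min (gg t₁ p) M := le_min (gg_nonneg ht₁ p) hM
        have hq : 0 ≤ min (gg t₁ q) M := le_min (gg_nonneg ht₁ q) hM
        rw [Real.coe_toNNReal _ hp, Real.coe_toNNReal _ hq, abs_le]
        have hp' : min (gg t₁ p) M ≤ M := min_le_right _ _
        have hq' : min (gg t₁ q) M ≤ M := min_le_right _ _
        constructor <;> linarith)
  have hF : ∀ p, ((F p : NNReal) : ℝ≥0∞) = ENNReal.ofReal (min (gg t₁ p) M) := fun p => rfl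
  have h1 := (ProbabilityMeasure.tendsto_iff_forall_lintegral_tendsto.1 hν) F
  simp only [hF] at h1
  refine le_of_tendsto h1 ?_
  filter_upwards [h, htt.eventually (lt_mem_nhds ht₀), htt.eventually (gt_mem_nhds h01)] with J hJ h2 h3
  calc ∫⁻ p, ENNReal.ofReal (min (gg t₁ p) M) ∂(μ J : Measure (ℝ × ℝ))
      ≤ ∫⁻ p, ENNReal.ofReal (gg (t J) p) ∂(μ J : Measure (ℝ × ℝ)) :=
        lintegral_mono fun p => ENNReal.ofReal_le_ofReal ((min_le_left _ _).trans (gg_anti h2 h3.le p))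
    _ ≤ ENNReal.ofReal (A * t J) := hJ
    _ ≤ ENNReal.ofReal (A * t₁) := ENNReal.ofReal_le_ofReal (mul_le_mul_of_nonneg_left h3.le hA.le)

end Lsc

open Lsc

/-- the `L log L` bound passes to weak limits -/
theorem llog_lsc (𝓕 : Ultrafilter ℕ) {A : ℝ} (hA : 0 < A) {t : ℕ → ℝ} {t₀ : ℝ} (ht₀ : 0 < t₀)
    (htt : Tendsto t 𝓕 (𝓝 t₀)) {μ : ℕ → ProbabilityMeasure (ℝ × ℝ)} {ν : ProbabilityMeasure (ℝ × ℝ)}
    (hν : Tendsto μ 𝓕 (𝓝 ν))
    (h : ∀ᶠ J in (𝓕 : Filter ℕ), ∫⁻ p, ENNReal.ofReal (|p.1 - p.2| * Real.log (1 + |p.1 - p.2| / t J))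
      ∂(μ J : Measure (ℝ × ℝ)) ≤ ENNReal.ofReal (A * t J)) :
    ∫⁻ p, ENNReal.ofReal (|p.1 - p.2| * Real.log (1 + |p.1 - p.2| / t₀)) ∂(ν : Measure (ℝ × ℝ)) ≤
      ENNReal.ofReal (A * t₀) := by
  set u : ℕ → ℝ := fun n => t₀ + 1 / ((n : ℝ) + 1) with hu
  have hut : Tendsto u atTop (𝓝 t₀) := by
    have h1 := (tendsto_one_div_add_atTop_nhds_zero_nat (𝕜 := ℝ)).const_add t₀
    rw [add_zero] at h1
    exact h1
  have hu0 : ∀ n, t₀ < u n := fun n => by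
    have : (0 : ℝ) < 1 / ((n : ℝ) + 1) := by positivity
    simp only [hu]
    linarith
  have hb : ∀ n : ℕ, ∫⁻ p, ENNReal.ofReal (min (gg (u n) p) n) ∂(ν : Measure (ℝ × ℝ)) ≤
      ENNReal.ofReal (A * u n) := fun n => trunc 𝓕 hA ht₀ (hu0 n) (Nat.cast_nonneg n) htt hν h
  have hlim : ∀ p, Tendsto (fun n : ℕ => ENNReal.ofReal (min (gg (u n) p) n)) atTop
      (𝓝 (ENNReal.ofReal (gg t₀ p))) := by
    intro p
    refine ENNReal.tendsto_ofReal ((gg_tend ht₀ p hut).congr' ?_)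
    obtain ⟨N, hN⟩ := exists_nat_ge (gg t₀ p)
    filter_upwards [eventually_ge_atTop N] with n hn
    have h1 : gg (u n) p ≤ gg t₀ p := gg_anti ht₀ (hu0 n).le p
    have h2 : (N : ℝ) ≤ n := by exact_mod_cast hn
    rw [min_eq_left (by linarith)]
  have hfat : ∫⁻ p, liminf (fun n : ℕ => ENNReal.ofReal (min (gg (u n) p) n)) atTop ∂(ν : Measure (ℝ × ℝ)) ≤
      liminf (fun n : ℕ => ∫⁻ p, ENNReal.ofReal (min (gg (u n) p) n) ∂(ν : Measure (ℝ × ℝ))) atTop := by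
    refine lintegral_liminf_le fun n => ?_
    exact (((gg_cont (ht₀.trans (hu0 n))).min continuous_const).measurable).ennreal_ofReal
  have he : ∫⁻ p, ENNReal.ofReal (gg t₀ p) ∂(ν : Measure (ℝ × ℝ)) =
      ∫⁻ p, liminf (fun n : ℕ => ENNReal.ofReal (min (gg (u n) p) n)) atTop ∂(ν : Measure (ℝ × ℝ)) :=
    lintegral_congr fun p => ((hlim p).liminf_eq).symm
  have hA' : Tendsto (fun n => ENNReal.ofReal (A * u n)) atTop (𝓝 (ENNReal.ofReal (A * t₀))) :=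
    ENNReal.tendsto_ofReal (tendsto_const_nhds.mul hut)
  calc ∫⁻ p, ENNReal.ofReal (gg t₀ p) ∂(ν : Measure (ℝ × ℝ))
      = _ := he
    _ ≤ _ := hfat
    _ ≤ liminf (fun n => ENNReal.ofReal (A * u n)) atTop := liminf_le_liminf (Eventually.of_forall hb)
    _ = ENNReal.ofReal (A * t₀) := hA'.liminf_eq

end Pool.Agent.SNL63
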