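import Pool.Agent.SNL63.Graph
import Pool.Agent.SNL63.LlFin
import Pool.Agent.SNL63.LlLsc

/-!
# Neighbourhoods of the graph of the path and of smaller classes of permutons
-/

namespace Pool.Agent.SNL63

open MeasureTheory Set Filter Topology Pool.Agent.SN8
open scoped ENNReal Real NNReal BoundedContinuousFunction

/-- `leavesS_adm2` with a further property `Ex` of the limits, from further events `X` -/
theorem leavesS_gen (Ex : ℝ → ProbabilityMeasure (ℝ × ℝ) → Prop) (X : ℕ → ℕ → List ℕ → Prop)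
    (hX : ∀ j : ℕ, ∃ c₁ > (0 : ℝ), ∃ c₂ > (0 : ℝ), ∀ n : ℕ, 2 ≤ n →
      prob n (X j n) ≤ c₁ * Real.exp (-c₂ * (n : ℝ) ^ 2))
    (hEx : ∀ (𝓕 : Ultrafilter ℕ) (n : ℕ → ℕ) (k : ℕ → List ℕ) (t : ℕ → ℝ) (μ : ℕ → ProbabilityMeasure (ℝ × ℝ))
      (ν : ProbabilityMeasure (ℝ × ℝ)) (t₀ : ℝ), (𝓕 : Filter ℕ) ≤ atTop → (∀ J, t J ∈ Icc (0 : ℝ) 1) →
      (∀ J, (μ J : Measure (ℝ × ℝ)) = eta (n J) (k J) (t J)) → Tendsto μ 𝓕 (𝓝 ν) → Tendsto t 𝓕 (𝓝 t₀) →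
      t₀ ∈ Ioo (0 : ℝ) 1 → (∀ J j, j < J → ¬ X j (n J) (k J)) → Ex t₀ ν)
    (V : Set (ℝ × ProbabilityMeasure (ℝ × ℝ))) (hV : IsOpen V)
    (hA : ∀ t ∈ Icc (0 : ℝ) 1, ∃ μ : ProbabilityMeasure (ℝ × ℝ), (μ : Measure (ℝ × ℝ)) = arch t ∧ (t, μ) ∈ V)
    (hC : ∀ t ∈ Ioo (0 : ℝ) 1, ∀ ν : ProbabilityMeasure (ℝ × ℝ), Adm2 t (ν : Measure (ℝ × ℝ)) → Ex t ν →
      (t, ν) ∈ V) :
    ∃ c₁ > (0 : ℝ), ∃ c₂ > (0 : ℝ), ∀ n : ℕ, 2 ≤ n →
      prob n (LeavesS n V) ≤ c₁ * Real.exp (-c₂ * (n : ℝ) ^ 2) := by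
  have hquad' : ∀ j : ℕ, ∃ c₁ > (0 : ℝ), ∃ c₂ > (0 : ℝ), ∀ n : ℕ, 2 ≤ n →
      prob n (Qd (1 / ((j : ℝ) + 2)) n) ≤ c₁ * Real.exp (-c₂ * (n : ℝ) ^ 2) := fun j => quad_all (by positivity)
  have hband' : ∀ j : ℕ, ∃ c₁ > (0 : ℝ), ∃ c₂ > (0 : ℝ), ∀ n : ℕ, 2 ≤ n →
      prob n (Bd (1 / ((j : ℝ) + 2)) n) ≤ c₁ * Real.exp (-c₂ * (n : ℝ) ^ 2) := fun j => band (by positivity)
  choose a₁ ha₁ a₂ ha₂ hb using hquad'
  choose b₁ hb₁ b₂ hb₂ hbb using hband'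
  choose x₁ hx₁ x₂ hx₂ hxx using hX
  obtain ⟨J, hJ⟩ := keyG V hV hA (fun j n k => (Qd (1 / ((j : ℝ) + 2)) n k ∨ Bd (1 / ((j : ℝ) + 2)) n k) ∨ X j n k) (by
    intro 𝓕 n k t μ ν t₀ h𝓕 hk hn1 hninf ht hμ hν htt ht₀ hf hs hE
    have hnb : ∀ ε : ℝ, 0 < ε → ∀ᶠ J in (𝓕 : Filter ℕ), ¬ Qd ε (n J) (k J) ∧ ¬ Bd ε (n J) (k J) := by
      intro ε hε
      obtain ⟨j, hj⟩ := exists_nat_one_div_lt hε
      have h1 : ∀ᶠ J in (𝓕 : Filter ℕ), j < J := h𝓕 (eventually_gt_atTop j)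
      have h3 : 1 / ((j : ℝ) + 2) ≤ ε := by
        refine le_trans (one_div_le_one_div_of_le (by positivity) (by linarith)) hj.le
      filter_upwards [h1] with J hJ
      have h4 := hE J j hJ
      rw [not_or, not_or] at h4
      replace h4 := h4.1
      constructor
      · rintro ⟨t, ht, a, ha, b, hb, h2⟩
        exact h4.1 ⟨t, ht, a, ha, b, hb, h2.imp
          (fun h => lt_of_lt_of_le h (ENNReal.ofReal_le_ofReal (by linarith)))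
          (fun h => lt_of_lt_of_le h (ENNReal.ofReal_le_ofReal (by linarith)))⟩
      · rintro ⟨t, ht, a, ha, h2⟩
        exact h4.2 ⟨t, ht, a, ha, h2.imp (fun h => lt_of_le_of_lt (ENNReal.ofReal_le_ofReal (by linarith)) h)
          (fun h => lt_of_le_of_lt (ENNReal.ofReal_le_ofReal (by linarith)) h)⟩
    have hDt : ∀ u : ℝ, Tendsto (fun J => DD u (t J)) 𝓕 (𝓝 (DD u t₀)) := by
      intro u
      have h1 := (DD_cont_t u).continuousWithinAt (x := t₀) ⟨ht₀.1.le, ht₀.2.le⟩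
      refine h1.tendsto.comp ?_
      rw [tendsto_nhdsWithin_iff]
      exact ⟨htt, Eventually.of_forall ht⟩
    have hDt' : ∀ u : ℝ, Tendsto (fun J => DD u (1 - t J)) 𝓕 (𝓝 (DD u (1 - t₀))) := by
      intro u
      have h1 := (DD_cont_t u).continuousWithinAt (x := 1 - t₀) ⟨by linarith [ht₀.2], by linarith [ht₀.1]⟩
      refine h1.tendsto.comp ?_
      rw [tendsto_nhdsWithin_iff]
      exact ⟨htt.const_sub 1, Eventually.of_forall fun J =>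
        ⟨by linarith [(ht J).2], by linarith [(ht J).1]⟩⟩
    have hextra : Ex t₀ ν := hEx 𝓕 n k t μ ν t₀ h𝓕 ht hμ hν htt ht₀ (fun J j hj => by
      have h4 := hE J j hj
      rw [not_or] at h4
      exact h4.2)
    refine hC t₀ ht₀ ν ⟨hf, hs, ?_, ?_, ?_, ?_, ?_⟩ hextra
    · intro a ha
      refine band_limit (a := a) (b := a) hν hf hs (O := Iio a ×ˢ Ioi a) (isOpen_Iio.prod isOpen_Ioi) ?_
        (f := fun J => 2 / π * t J * √(1 - a ^ 2)) ((htt.const_mul (2 / π)).mul_const _) ?_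
      · rintro ⟨x, y⟩ ⟨hx, hy⟩
        rcases eq_or_lt_of_le hx.2 with h1 | h1
        · exact Or.inr (Or.inl h1)
        · rcases eq_or_lt_of_le hy.1 with h2 | h2
          · exact Or.inr (Or.inr h2.symm)
          · exact Or.inl ⟨h1, h2⟩
      · intro ε hε
        filter_upwards [hnb ε hε] with J hJ
        by_contra hc
        push Not at hc
        refine hJ.2 ⟨t J, ht J, a, ⟨ha.1.le, ha.2.le⟩, Or.inl (lt_of_lt_of_le hc ?_)⟩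
        rw [hμ]
        refine eta_le_of_subset (hk J) _ (measurableSet_Iio.prod measurableSet_Ioi)
          (measurableSet_Icc.prod measurableSet_Ioc) ?_
        rintro ⟨x, y⟩ ⟨⟨hx, hy⟩, hx', hy'⟩
        exact ⟨⟨hx'.1, le_of_lt hx⟩, hy, hy'.2⟩
    · intro a ha
      refine band_limit (a := -a) (b := a) hν hf hs (O := Ioi (-a) ×ˢ Ioi a) (isOpen_Ioi.prod isOpen_Ioi) ?_
        (f := fun J => 2 / π * (1 - t J) * √(1 - a ^ 2)) (((htt.const_sub 1).const_mul (2 / π)).mul_const _) ?_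
      · rintro ⟨x, y⟩ ⟨hx, hy⟩
        rcases eq_or_lt_of_le hx.1 with h1 | h1
        · exact Or.inr (Or.inl h1.symm)
        · rcases eq_or_lt_of_le hy.1 with h2 | h2
          · exact Or.inr (Or.inr h2.symm)
          · exact Or.inl ⟨h1, h2⟩
      · intro ε hε
        filter_upwards [hnb ε hε] with J hJ
        by_contra hc
        push Not at hc
        refine hJ.2 ⟨t J, ht J, a, ⟨ha.1.le, ha.2.le⟩, Or.inr (lt_of_lt_of_le hc ?_)⟩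
        rw [hμ]
        refine eta_le_of_subset (hk J) _ (measurableSet_Ioi.prod measurableSet_Ioi)
          (measurableSet_Icc.prod measurableSet_Ioc) ?_
        rintro ⟨x, y⟩ ⟨⟨hx, hy⟩, hx', hy'⟩
        exact ⟨⟨le_of_lt hx, hx'.2⟩, hy, hy'.2⟩
    · intro a ha b hb
      refine low_limit hν (isClosed_Icc.prod isClosed_Icc)
        (f := fun J => DD ((a + b) / 2) (t J) + (a - b) / 4) ((hDt _).add_const _) ?_
      intro ε hε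
      filter_upwards [hnb ε hε] with J hJ
      by_contra hc
      push Not at hc
      refine hJ.1 ⟨t J, ht J, a, ha, b, hb, Or.inl (lt_of_le_of_lt ?_ hc)⟩
      rw [hμ]
      exact measure_mono (prod_mono_right Ioc_subset_Icc_self)
    · intro a ha b hb
      refine low_limit hν (isClosed_Icc.prod isClosed_Icc)
        (f := fun J => DD ((a + b) / 2) (1 - t J) + (a - b) / 4) ((hDt' _).add_const _) ?_
      intro ε hε
      filter_upwards [hnb ε hε] with J hJ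
      by_contra hc
      push Not at hc
      refine hJ.1 ⟨t J, ht J, a, ha, b, hb, Or.inr (lt_of_le_of_lt ?_ hc)⟩
      rw [hμ]
      exact measure_mono (prod_mono_right Ioc_subset_Icc_self)
    · have h1 : Tendsto (fun J => (μ J).prod (μ J)) 𝓕 (𝓝 (ν.prod ν)) :=
        (ProbabilityMeasure.continuous_prod.tendsto (ν, ν)).comp (hν.prodMk_nhds hν)
      have h2 := ProbabilityMeasure.tendsto_measure_of_null_frontier_of_tendsto' h1 (E := Iv)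
        (frontier_Iv hf hs)
      have h3 : ∀ J, (((μ J).prod (μ J) : ProbabilityMeasure _) : Measure ((ℝ × ℝ) × (ℝ × ℝ))) Iv =
          ENNReal.ofReal (2 * (⌊((n J).choose 2 : ℝ) * t J⌋₊ : ℝ) / (n J : ℝ) ^ 2) := by
        intro J
        rw [ProbabilityMeasure.toMeasure_prod, hμ]
        exact eta_prod_Iv (hn1 J) (hk J) (ht J).2
      simp only [h3] at h2
      exact tendsto_nhds_unique h2 (ENNReal.tendsto_ofReal (floor_tendsto hn1 hninf ht htt)))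
  -- a common exponent
  obtain ⟨c₂, hc₂, hc₂'⟩ : ∃ c₂ > (0 : ℝ), ∀ j < J, c₂ ≤ a₂ j ∧ c₂ ≤ b₂ j ∧ c₂ ≤ x₂ j := by
    clear hJ
    induction J with
    | zero => exact ⟨1, one_pos, fun j hj => absurd hj (Nat.not_lt_zero _)⟩
    | succ J ih =>
      obtain ⟨c, hc, hc'⟩ := ih
      refine ⟨min c (min (a₂ J) (min (b₂ J) (x₂ J))), lt_min hc (lt_min (ha₂ J) (lt_min (hb₂ J) (hx₂ J))),
        fun j hj => ?_⟩
      rcases Nat.lt_succ_iff_lt_or_eq.1 hj with h1 | rfl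
      · exact ⟨(min_le_left _ _).trans (hc' j h1).1, (min_le_left _ _).trans (hc' j h1).2.1,
          (min_le_left _ _).trans (hc' j h1).2.2⟩
      · exact ⟨(min_le_right _ _).trans (min_le_left _ _),
          (min_le_right _ _).trans ((min_le_right _ _).trans (min_le_left _ _)),
          (min_le_right _ _).trans ((min_le_right _ _).trans (min_le_right _ _))⟩
  obtain ⟨S, hS⟩ : ∃ S : ℝ, S = ∑ j ∈ Finset.range J, (a₁ j + b₁ j + x₁ j) := ⟨_, rfl⟩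
  have hS0 : 0 ≤ S := by
    rw [hS]
    exact Finset.sum_nonneg fun j _ => by
      have := ha₁ j
      have := hb₁ j
      have := hx₁ j
      positivity
  refine ⟨S + Real.exp (c₂ * (J : ℝ) ^ 2), by positivity, c₂, hc₂, ?_⟩
  intro n hn
  have hexp : 0 < Real.exp (-c₂ * (n : ℝ) ^ 2) := Real.exp_pos _
  rcases lt_or_ge n J with h1 | h1
  · refine (prob_le_one n _).trans ?_
    have h2 : 1 ≤ Real.exp (c₂ * (J : ℝ) ^ 2) * Real.exp (-c₂ * (n : ℝ) ^ 2) := by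
      rw [← Real.exp_add]
      apply Real.one_le_exp
      have h3 : (n : ℝ) ≤ J := by exact_mod_cast h1.le
      have h4 : (n : ℝ) ^ 2 ≤ (J : ℝ) ^ 2 := by gcongr
      nlinarith
    have h3 : 0 ≤ S * Real.exp (-c₂ * (n : ℝ) ^ 2) := by positivity
    rw [add_mul]
    linarith
  · have h2 : prob n (LeavesS n V) ≤ ∑ j ∈ Finset.range J,
        prob n (fun k => (Qd (1 / ((j : ℝ) + 2)) n k ∨ Bd (1 / ((j : ℝ) + 2)) n k) ∨ X j n k) := by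
      refine le_trans (prob_mono ?_) (prob_exists_le n _ J)
      intro k hk hL
      exact hJ n h1 (by omega) k hk hL
    have h3 : ∑ j ∈ Finset.range J,
        prob n (fun k => (Qd (1 / ((j : ℝ) + 2)) n k ∨ Bd (1 / ((j : ℝ) + 2)) n k) ∨ X j n k) ≤
        ∑ j ∈ Finset.range J, (a₁ j + b₁ j + x₁ j) * Real.exp (-c₂ * (n : ℝ) ^ 2) := by
      refine Finset.sum_le_sum fun j hj => ?_
      rw [Finset.mem_range] at hj
      have h4 := hb j n hn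
      have h4' := hbb j n hn
      have h4'' := hxx j n hn
      have hx : ∀ c : ℝ, c₂ ≤ c → Real.exp (-c * (n : ℝ) ^ 2) ≤ Real.exp (-c₂ * (n : ℝ) ^ 2) := by
        intro c hc
        apply Real.exp_le_exp.2
        have h8 : (0 : ℝ) ≤ (n : ℝ) ^ 2 := by positivity
        nlinarith
      have h7 : a₁ j * Real.exp (-a₂ j * (n : ℝ) ^ 2) ≤ a₁ j * Real.exp (-c₂ * (n : ℝ) ^ 2) :=
        mul_le_mul_of_nonneg_left (hx _ (hc₂' j hj).1) (ha₁ j).le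
      have h7' : b₁ j * Real.exp (-b₂ j * (n : ℝ) ^ 2) ≤ b₁ j * Real.exp (-c₂ * (n : ℝ) ^ 2) :=
        mul_le_mul_of_nonneg_left (hx _ (hc₂' j hj).2.1) (hb₁ j).le
      have h7'' : x₁ j * Real.exp (-x₂ j * (n : ℝ) ^ 2) ≤ x₁ j * Real.exp (-c₂ * (n : ℝ) ^ 2) :=
        mul_le_mul_of_nonneg_left (hx _ (hc₂' j hj).2.2) (hx₁ j).le
      have h8 := prob_or_le n (Qd (1 / ((j : ℝ) + 2)) n) (Bd (1 / ((j : ℝ) + 2)) n)
      have h9 := prob_or_le n (fun k => Qd (1 / ((j : ℝ) + 2)) n k ∨ Bd (1 / ((j : ℝ) + 2)) n k) (X j n)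
      linarith
    rw [← Finset.sum_mul, ← hS] at h3
    have h4 : 0 ≤ Real.exp (c₂ * (J : ℝ) ^ 2) * Real.exp (-c₂ * (n : ℝ) ^ 2) := by positivity
    rw [add_mul]
    linarith


/-- the same for all pairs of times -/
theorem graph2_gen (Ex : ℝ → ProbabilityMeasure (ℝ × ℝ) → Prop) (X : ℕ → ℕ → List ℕ → Prop)
    (hX : ∀ j : ℕ, ∃ c₁ > (0 : ℝ), ∃ c₂ > (0 : ℝ), ∀ n : ℕ, 2 ≤ n →
      prob n (X j n) ≤ c₁ * Real.exp (-c₂ * (n : ℝ) ^ 2))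
    (hEx : ∀ (𝓕 : Ultrafilter ℕ) (n : ℕ → ℕ) (k : ℕ → List ℕ) (t : ℕ → ℝ) (μ : ℕ → ProbabilityMeasure (ℝ × ℝ))
      (ν : ProbabilityMeasure (ℝ × ℝ)) (t₀ : ℝ), (𝓕 : Filter ℕ) ≤ atTop → (∀ J, t J ∈ Icc (0 : ℝ) 1) →
      (∀ J, (μ J : Measure (ℝ × ℝ)) = eta (n J) (k J) (t J)) → Tendsto μ 𝓕 (𝓝 ν) → Tendsto t 𝓕 (𝓝 t₀) →
      t₀ ∈ Ioo (0 : ℝ) 1 → (∀ J j, j < J → ¬ X j (n J) (k J)) → Ex t₀ ν)
    (V : Set (ℝ × ProbabilityMeasure (ℝ × ℝ))) (hV : IsOpen V)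
    (hA : ∀ t ∈ Icc (0 : ℝ) 1, ∃ μ : ProbabilityMeasure (ℝ × ℝ), (μ : Measure (ℝ × ℝ)) = arch t ∧ (t, μ) ∈ V)
    (hC : ∀ t ∈ Ioo (0 : ℝ) 1, ∀ ν : ProbabilityMeasure (ℝ × ℝ), Adm2 t (ν : Measure (ℝ × ℝ)) → Ex t ν →
      (t, ν) ∈ V) :
    ∃ c₁ > (0 : ℝ), ∃ c₂ > (0 : ℝ), ∀ n : ℕ, 2 ≤ n →
      prob n (fun k => ∃ s t : ℝ, 0 ≤ s ∧ s ≤ t ∧ t ≤ 1 ∧ ∀ μ : ProbabilityMeasure (ℝ × ℝ),
        (μ : Measure (ℝ × ℝ)) = eta2 n k s t → (t - s, μ) ∉ V) ≤ c₁ * Real.exp (-c₂ * (n : ℝ) ^ 2) := by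
  obtain ⟨c₁, hc₁, c₂, hc₂, h⟩ := all_rot (E := fun n => LeavesS n V) (leavesS_gen Ex X hX hEx V hV hA hC)
  refine ⟨c₁, hc₁, c₂, hc₂, fun n hn => (prob_mono fun k hk => ?_).trans (h n hn)⟩
  rintro ⟨s, t, h0, hst, h1, hout⟩
  obtain ⟨i, hi, r, hr, hrt, he⟩ := eta2_rot hn hk h0 hst h1
  refine ⟨i, hi, r, hr, t - s, ⟨by linarith, by linarith⟩, hrt, fun μ hμ => hout μ ?_⟩
  rw [hμ, he]

/-- **Neighbourhoods of the path and of the permutons with the `L log L` bound** -/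
theorem graph2_adm4 : ∃ A > (0 : ℝ), ∀ (V : Set (ℝ × ProbabilityMeasure (ℝ × ℝ))), IsOpen V →
    (∀ t ∈ Icc (0 : ℝ) 1, ∃ μ : ProbabilityMeasure (ℝ × ℝ), (μ : Measure (ℝ × ℝ)) = arch t ∧ (t, μ) ∈ V) →
    (∀ t ∈ Ioo (0 : ℝ) 1, ∀ ν : ProbabilityMeasure (ℝ × ℝ), Adm2 t (ν : Measure (ℝ × ℝ)) →
      ∫⁻ p, ENNReal.ofReal (|p.1 - p.2| * Real.log (1 + |p.1 - p.2| / t)) ∂(ν : Measure (ℝ × ℝ)) ≤
        ENNReal.ofReal (A * t) →
      (t, ν) ∈ V) →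
    ∃ c₁ > (0 : ℝ), ∃ c₂ > (0 : ℝ), ∀ n : ℕ, 2 ≤ n →
      prob n (fun k => ∃ s t : ℝ, 0 ≤ s ∧ s ≤ t ∧ t ≤ 1 ∧ ∀ μ : ProbabilityMeasure (ℝ × ℝ),
        (μ : Measure (ℝ × ℝ)) = eta2 n k s t → (t - s, μ) ∉ V) ≤ c₁ * Real.exp (-c₂ * (n : ℝ) ^ 2) := by
  obtain ⟨A, hA, hll⟩ := llog
  refine ⟨A, hA, fun V hV hVA hVC => ?_⟩
  refine graph2_gen (fun t ν => ∫⁻ p, ENNReal.ofReal (|p.1 - p.2| * Real.log (1 + |p.1 - p.2| / t))
      ∂(ν : Measure (ℝ × ℝ)) ≤ ENNReal.ofReal (A * t))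
    (fun j n k => ∃ u : ℝ, 1 / ((j : ℝ) + 1) ≤ u ∧ u ≤ 1 ∧ ENNReal.ofReal (A * u) <
      ∫⁻ p, ENNReal.ofReal (|p.1 - p.2| * Real.log (1 + |p.1 - p.2| / u)) ∂(eta n k u)) ?_ ?_ V hV hVA hVC
  · intro j
    obtain ⟨c₁, hc₁, c₂, hc₂, h⟩ := hll (1 / ((j : ℝ) + 1)) (by positivity)
    refine ⟨c₁, hc₁, c₂, hc₂, fun n hn => (prob_mono fun k hk => ?_).trans (h n hn)⟩
    rintro ⟨u, hu, hu1, h2⟩
    refine ⟨0, u, le_rfl, by linarith, hu1, ?_⟩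
    rw [eta2_zero, sub_zero]
    exact h2
  · intro 𝓕 n k t μ ν t₀ h𝓕 ht hμ hν htt ht₀ hX
    refine llog_lsc 𝓕 hA ht₀.1 htt hν ?_
    obtain ⟨c, hc⟩ := exists_nat_one_div_lt ht₀.1
    have e1 : ∀ᶠ J in (𝓕 : Filter ℕ), c < J := h𝓕 (eventually_gt_atTop c)
    have e2 : ∀ᶠ J in (𝓕 : Filter ℕ), 1 / ((c : ℝ) + 1) < t J := htt.eventually (lt_mem_nhds hc)
    filter_upwards [e1, e2] with J h1 h2
    have h4 := hX J c h1
    push Not at h4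
    have h5 := h4 (t J) h2.le (ht J).2
    rw [hμ]
    exact h5

end Pool.Agent.SNL63
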