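import Pool.Agent.SNL63.PDefs

/-!
The logarithm of the transform of a shape inside the staircase: the difference to the staircase is a
sum over the removed cells.
-/

namespace Pool.Agent.SNL63

open Pool.Agent.SN8 MeasureTheory Set Filter Topology

/-- One row: enlarging the row by the cells of the columns `l, ..., L - 1`. -/
theorem log_row {n : ℕ} {z : ℝ} (hz : 2 * (n : ℝ) ≤ z) (hn : 1 ≤ n) (i : ℕ) {l L : ℕ} (hlL : l ≤ L)
    (hL : L < n) :
    Real.log ((z - L + i) / (z - L + i + 1)) = Real.log ((z - l + i) / (z - l + i + 1)) +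
      ∑ j ∈ Finset.Ico l L, Real.log (1 - 1 / (z - ((j : ℝ) - i)) ^ 2) := by
  induction L, hlL using Nat.le_induction with
  | base => simp
  | succ L hlL ih =>
    rw [Finset.sum_Ico_succ_top hlL, ← add_assoc, ← ih (by omega)]
    have h1 : (1 : ℝ) ≤ n := by exact_mod_cast hn
    have h2 : ((L + 1 : ℕ) : ℝ) + 1 ≤ n := by exact_mod_cast hL
    push_cast at h2 ⊢
    have h3 : (0 : ℝ) ≤ i := by positivity
    have hw : 1 < z - L + i := by linarith
    have hw0 : 0 < z - L + i := by linarith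
    have hw1 : 0 < z - L + i + 1 := by linarith
    have hw2 : 0 < z - (L + 1) + i := by linarith
    have hw3 : 0 < z - (L + 1) + i + 1 := by linarith
    have e1 : (1 : ℝ) - 1 / (z - ((L : ℝ) - i)) ^ 2 =
        ((z - (L + 1) + i) / (z - (L + 1) + i + 1)) / ((z - L + i) / (z - L + i + 1)) := by
      have e2 : z - ((L : ℝ) - i) = z - L + i := by ring
      have e3 : z - ((L : ℝ) + 1) + i + 1 = z - L + i := by ring
      have e4 : z - ((L : ℝ) + 1) + i = z - L + i - 1 := by ring
      rw [e2, e3, e4]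
      field_simp
      ring
    rw [e1, Real.log_div (div_pos hw2 hw3).ne' (div_pos hw0 hw1).ne']
    ring

theorem HH_factor_pos {n : ℕ} {z : ℝ} (hz : 2 * (n : ℝ) ≤ z) {i l : ℕ} (hl : l < n) :
    0 < (z - l + i) / (z - l + i + 1) := by
  have h2 : ((l : ℕ) : ℝ) + 1 ≤ n := by exact_mod_cast hl
  have h3 : (0 : ℝ) ≤ i := by positivity
  have h4 : (0 : ℝ) ≤ l := by positivity
  have hw0 : 0 < z - l + i := by linarith
  exact div_pos hw0 (by linarith)

/-- The transform is positive at `z ≥ 2 n`. -/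
theorem HH_pos_of_le {n : ℕ} {lam : ℕ → ℕ} (hle : ∀ i < n, lam i ≤ n - 1 - i) (hn : 1 ≤ n) {z : ℝ}
    (hz : 2 * (n : ℝ) ≤ z) : 0 < HH n lam z := by
  have h1 : (1 : ℝ) ≤ n := by exact_mod_cast hn
  refine mul_pos (by linarith) (Finset.prod_pos ?_)
  intro i hi
  have h2 := hle i (Finset.mem_range.mp hi)
  exact HH_factor_pos hz (by omega)

/-- The transform of a shape inside the staircase. -/
theorem log_HH {n : ℕ} {lam : ℕ → ℕ} (hle : ∀ i < n, lam i ≤ n - 1 - i) {z : ℝ}
    (hz : 2 * (n : ℝ) ≤ z) :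
    Real.log (HH n lam z) = Real.log (HH n (stair n) z) -
      ∑ i ∈ Finset.range n, ∑ j ∈ Finset.Ico (lam i) (n - 1 - i),
        Real.log (1 - 1 / (z - ((j : ℝ) - i)) ^ 2) := by
  rcases Nat.eq_zero_or_pos n with rfl | hn
  · simp [HH]
  have h1 : (1 : ℝ) ≤ n := by exact_mod_cast hn
  have hzn : z + n ≠ 0 := by
    have : 0 < z + n := by linarith
    exact this.ne'
  have key : ∀ mu : ℕ → ℕ, (∀ i < n, mu i ≤ n - 1 - i) → Real.log (HH n mu z) =
      Real.log (z + n) + ∑ i ∈ Finset.range n, Real.log ((z - mu i + i) / (z - mu i + i + 1)) := by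
    intro mu hmu
    have hpos : ∀ i ∈ Finset.range n, ((z - mu i + i) / (z - mu i + i + 1) : ℝ) ≠ 0 := by
      intro i hi
      have h2 := hmu i (Finset.mem_range.mp hi)
      exact (HH_factor_pos hz (by omega)).ne'
    unfold HH
    rw [Real.log_mul hzn (Finset.prod_ne_zero_iff.mpr hpos), Real.log_prod hpos]
  rw [key lam hle, key (stair n) (fun i _ => le_rfl), add_sub_assoc, ← Finset.sum_sub_distrib]
  congr 1
  refine Finset.sum_congr rfl ?_
  intro i hi
  have hi' := Finset.mem_range.mp hi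
  have h3 := log_row hz hn i (hle i hi') (by omega)
  have h4 : stair n i = n - 1 - i := rfl
  rw [h4, h3]
  ring

/-- The same with the sum over the removed cells written with rescaled contents. -/
theorem log_HH_rsum {n : ℕ} {lam : ℕ → ℕ} (hle : ∀ i < n, lam i ≤ n - 1 - i) {ζ : ℝ} (hζ : 2 ≤ ζ) :
    Real.log (HH n lam (n * ζ)) = Real.log (HH n (stair n) (n * ζ)) -
      rsum (fun u => Real.log (1 - 1 / ((n : ℝ) ^ 2 * (ζ - u) ^ 2))) n lam := by
  have hz : 2 * (n : ℝ) ≤ n * ζ := by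
    have : (0 : ℝ) ≤ n := by positivity
    nlinarith
  rw [log_HH hle hz]
  congr 1
  unfold rsum
  refine Finset.sum_congr rfl ?_
  intro i hi
  refine Finset.sum_congr rfl ?_
  intro j _
  have hn : (n : ℝ) ≠ 0 := by
    have := Finset.mem_range.mp hi
    exact_mod_cast (by omega : n ≠ 0)
  have e : ((n : ℝ) * ζ - ((j : ℝ) - i)) ^ 2 = (n : ℝ) ^ 2 * (ζ - ((j : ℝ) - i) / n) ^ 2 := by
    field_simp
  rw [e]

end Pool.Agent.SNL63
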