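import Pool.Agent.SNL63.HHLog

/-!
The logarithm of the transform of a shape is, up to `2 / n ^ 2`, the sum of `1 / (ζ - u) ^ 2` over the
rescaled contents of the removed cells, divided by `n ^ 2`; simple bounds for sums over the removed
cells.
-/

namespace Pool.Agent.SNL63

open Pool.Agent.SN8 MeasureTheory Set Filter Topology

/-- The rescaled contents of the cells of the staircase lie in `(-1, 1)`. -/
theorem content_mem {n i j : ℕ} (hi : i < n) (hj : j < n - 1 - i) :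
    -1 < ((j : ℝ) - i) / n ∧ ((j : ℝ) - i) / n < 1 := by
  have hn : (0 : ℝ) < n := by exact_mod_cast (by omega : 0 < n)
  have h1 : (i : ℝ) + 1 ≤ n := by exact_mod_cast hi
  have h2 : (j : ℝ) + 2 ≤ n := by exact_mod_cast (by omega : j + 2 ≤ n)
  have h3 : (0 : ℝ) ≤ i := by positivity
  have h4 : (0 : ℝ) ≤ j := by positivity
  constructor
  · rw [lt_div_iff₀ hn]; linarith
  · rw [div_lt_one hn]; linarith

/-- A sum over the removed cells is at most the number of cells times a bound of the summand. -/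
theorem rsum_le_of_le {n : ℕ} (lam : ℕ → ℕ) {g : ℝ → ℝ} {M : ℝ} (hM : 0 ≤ M)
    (h : ∀ i < n, ∀ j < n - 1 - i, g (((j : ℝ) - i) / n) ≤ M) :
    rsum g n lam ≤ M * (n : ℝ) ^ 2 := by
  unfold rsum
  have h1 : ∀ i ∈ Finset.range n, ∑ j ∈ Finset.Ico (lam i) (n - 1 - i), g (((j : ℝ) - i) / n) ≤
      M * n := by
    intro i hi
    have hi' := Finset.mem_range.mp hi
    calc ∑ j ∈ Finset.Ico (lam i) (n - 1 - i), g (((j : ℝ) - i) / n)
        ≤ ∑ j ∈ Finset.Ico (lam i) (n - 1 - i), M :=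
          Finset.sum_le_sum (fun j hj => h i hi' j (Finset.mem_Ico.mp hj).2)
      _ = ((n - 1 - i - lam i : ℕ) : ℝ) * M := by
          rw [Finset.sum_const, Nat.card_Ico, nsmul_eq_mul]
      _ ≤ (n : ℝ) * M := by
          refine mul_le_mul_of_nonneg_right ?_ hM
          exact_mod_cast (by omega : n - 1 - i - lam i ≤ n)
      _ = M * n := by ring
  calc ∑ i ∈ Finset.range n, ∑ j ∈ Finset.Ico (lam i) (n - 1 - i), g (((j : ℝ) - i) / n)
      ≤ ∑ i ∈ Finset.range n, M * n := Finset.sum_le_sum h1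
    _ = M * (n : ℝ) ^ 2 := by
        rw [Finset.sum_const, Finset.card_range, nsmul_eq_mul]; ring

theorem rsum_add (g h : ℝ → ℝ) (n : ℕ) (lam : ℕ → ℕ) :
    rsum (fun u => g u + h u) n lam = rsum g n lam + rsum h n lam := by
  unfold rsum
  simp only [Finset.sum_add_distrib]

theorem rsum_sub (g h : ℝ → ℝ) (n : ℕ) (lam : ℕ → ℕ) :
    rsum (fun u => g u - h u) n lam = rsum g n lam - rsum h n lam := by
  unfold rsum
  simp only [Finset.sum_sub_distrib]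

theorem rsum_mul_left (c : ℝ) (g : ℝ → ℝ) (n : ℕ) (lam : ℕ → ℕ) :
    rsum (fun u => c * g u) n lam = c * rsum g n lam := by
  unfold rsum
  simp only [Finset.mul_sum]

theorem rsum_neg (g : ℝ → ℝ) (n : ℕ) (lam : ℕ → ℕ) :
    rsum (fun u => -g u) n lam = -rsum g n lam := by
  unfold rsum
  simp only [Finset.sum_neg_distrib]

theorem rsum_finset_sum {ι : Type*} (s : Finset ι) (g : ι → ℝ → ℝ) (n : ℕ) (lam : ℕ → ℕ) :
    rsum (fun u => ∑ x ∈ s, g x u) n lam = ∑ x ∈ s, rsum (g x) n lam := by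
  classical
  induction s using Finset.induction_on with
  | empty => simp [rsum]
  | insert a s ha ih =>
    rw [Finset.sum_insert ha, ← ih, ← rsum_add]
    refine congrArg (fun f => rsum f n lam) ?_
    funext u
    rw [Finset.sum_insert ha]

/-- A bound for the absolute value. -/
theorem rsum_abs_le_of_le {n : ℕ} (lam : ℕ → ℕ) {g : ℝ → ℝ} {M : ℝ} (hM : 0 ≤ M)
    (h : ∀ i < n, ∀ j < n - 1 - i, |g (((j : ℝ) - i) / n)| ≤ M) :
    |rsum g n lam| ≤ M * (n : ℝ) ^ 2 := by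
  rw [abs_le]
  constructor
  · have h1 := rsum_le_of_le (n := n) lam (g := fun u => -g u) hM
      (fun i hi j hj => (neg_le_abs _).trans (h i hi j hj))
    rw [rsum_neg] at h1
    linarith
  · exact rsum_le_of_le lam hM (fun i hi j hj => (le_abs_self _).trans (h i hi j hj))

/-- A bound for the absolute value, from a bound on `[-1, 1]`. -/
theorem rsum_abs_le {n : ℕ} (lam : ℕ → ℕ) {g : ℝ → ℝ} {M : ℝ}
    (h : ∀ u ∈ Icc (-1 : ℝ) 1, |g u| ≤ M) : |rsum g n lam| ≤ M * (n : ℝ) ^ 2 := by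
  have hM : 0 ≤ M := (abs_nonneg _).trans (h 0 (by simp))
  refine rsum_abs_le_of_le lam hM ?_
  intro i hi j hj
  have := content_mem hi hj
  exact h _ ⟨this.1.le, this.2.le⟩

/-- Two test functions that are close on `[-1, 1]` have close sums. -/
theorem rsum_sub_abs_le {n : ℕ} (lam : ℕ → ℕ) {g h : ℝ → ℝ} {η : ℝ}
    (hη : ∀ u ∈ Icc (-1 : ℝ) 1, |g u - h u| ≤ η) :
    |rsum g n lam - rsum h n lam| ≤ η * (n : ℝ) ^ 2 := by
  rw [← rsum_sub]
  exact rsum_abs_le lam hη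

/-- `log (1 - x)` is `-x` up to `2 x ^ 2` if `0 ≤ x ≤ 1 / 2`. -/
theorem abs_log_one_sub_add_le {x : ℝ} (h0 : 0 ≤ x) (h1 : x ≤ 1 / 2) :
    |Real.log (1 - x) + x| ≤ 2 * x ^ 2 := by
  have hp : 0 < 1 - x := by linarith
  have h2 : Real.log (1 - x) ≤ -x := by
    have := Real.log_le_sub_one_of_pos hp
    linarith
  have h3 : -(x / (1 - x)) ≤ Real.log (1 - x) := by
    have h4 := Real.one_sub_inv_le_log_of_pos hp
    have h5 : 1 - (1 - x)⁻¹ = -(x / (1 - x)) := by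
      field_simp
      ring
    linarith
  have h6 : x / (1 - x) ≤ x + 2 * x ^ 2 := by
    rw [div_le_iff₀ hp]
    nlinarith [mul_nonneg h0 (sq_nonneg x), mul_nonneg (sq_nonneg x) (by linarith : 0 ≤ 1 - 2 * x)]
  rw [abs_le]
  constructor
  · linarith
  · linarith [sq_nonneg x]

/-- The sum of the logarithms over the removed cells. -/
theorem rsum_log_approx (n : ℕ) (lam : ℕ → ℕ) {ζ : ℝ} (hζ : 2 ≤ ζ) :
    |rsum (fun u => Real.log (1 - 1 / ((n : ℝ) ^ 2 * (ζ - u) ^ 2))) n lam +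
      1 / (n : ℝ) ^ 2 * rsum (fun u => 1 / (ζ - u) ^ 2) n lam| ≤ 2 / (n : ℝ) ^ 2 := by
  rcases Nat.eq_zero_or_pos n with rfl | hn0
  · simp [rsum]
  have hn : (0 : ℝ) < n := by exact_mod_cast hn0
  rw [← rsum_mul_left, ← rsum_add]
  have key : ∀ i < n, ∀ j < n - 1 - i,
      |(fun u => Real.log (1 - 1 / ((n : ℝ) ^ 2 * (ζ - u) ^ 2)) +
        1 / (n : ℝ) ^ 2 * (1 / (ζ - u) ^ 2)) (((j : ℝ) - i) / n)| ≤ 2 / (n : ℝ) ^ 4 := by
    intro i hi j hj
    have hc := content_mem hi hj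
    generalize ((j : ℝ) - i) / n = u at hc
    have h2n : (2 : ℝ) ≤ n := by exact_mod_cast (by omega : 2 ≤ n)
    have hu : 1 < ζ - u := by linarith
    have hu2 : 1 ≤ (ζ - u) ^ 2 := by nlinarith
    have e : 1 / (n : ℝ) ^ 2 * (1 / (ζ - u) ^ 2) = 1 / ((n : ℝ) ^ 2 * (ζ - u) ^ 2) := by
      rw [one_div_mul_one_div]
    have hx0 : 0 ≤ 1 / ((n : ℝ) ^ 2 * (ζ - u) ^ 2) := by positivity
    have hx1 : 1 / ((n : ℝ) ^ 2 * (ζ - u) ^ 2) ≤ 1 / (n : ℝ) ^ 2 := by
      apply one_div_le_one_div_of_le (by positivity)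
      nlinarith [sq_nonneg (n : ℝ)]
    have hx2 : 1 / (n : ℝ) ^ 2 ≤ 1 / 2 := by
      apply one_div_le_one_div_of_le (by norm_num)
      nlinarith
    have h3 := abs_log_one_sub_add_le hx0 (hx1.trans hx2)
    show |Real.log (1 - 1 / ((n : ℝ) ^ 2 * (ζ - u) ^ 2)) + 1 / (n : ℝ) ^ 2 * (1 / (ζ - u) ^ 2)| ≤ _
    rw [e]
    refine h3.trans ?_
    have h4 : (1 / ((n : ℝ) ^ 2 * (ζ - u) ^ 2)) ^ 2 ≤ (1 / (n : ℝ) ^ 2) ^ 2 :=
      pow_le_pow_left₀ hx0 hx1 2
    calc 2 * (1 / ((n : ℝ) ^ 2 * (ζ - u) ^ 2)) ^ 2 ≤ 2 * (1 / (n : ℝ) ^ 2) ^ 2 := by linarith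
      _ = 2 / (n : ℝ) ^ 4 := by
          field_simp
  have hM : (0 : ℝ) ≤ 2 / (n : ℝ) ^ 4 := by positivity
  have h5 := rsum_abs_le_of_le (n := n) (g := fun u => Real.log (1 - 1 / ((n : ℝ) ^ 2 * (ζ - u) ^ 2)) +
        1 / (n : ℝ) ^ 2 * (1 / (ζ - u) ^ 2)) lam hM key
  refine h5.trans (le_of_eq ?_)
  field_simp

/-- The logarithm of the transform of a shape is, up to `2 / n ^ 2`, a linear statistic of the removed
cells. -/
theorem log_HH_approx {n : ℕ} {lam : ℕ → ℕ} (hle : ∀ i < n, lam i ≤ n - 1 - i) {ζ : ℝ}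
    (hζ : 2 ≤ ζ) :
    |Real.log (HH n lam (n * ζ)) - Real.log (HH n (stair n) (n * ζ)) -
      1 / (n : ℝ) ^ 2 * rsum (fun u => 1 / (ζ - u) ^ 2) n lam| ≤ 2 / (n : ℝ) ^ 2 := by
  have h1 := rsum_log_approx n lam hζ
  rw [log_HH_rsum hle hζ]
  rw [abs_le] at h1 ⊢
  constructor <;> linarith [h1.1, h1.2]

end Pool.Agent.SNL63
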