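import Pool.Agent.SNL63.Hook

/-!
# The next removed corner lies in the window with large probability
-/

namespace Pool.Agent.SNL63

open Finset

/-- The partial sums of the lower bounds in the columns to the left of the window. -/
noncomputable def Ss (θ : ℕ) : ℕ → ℝ
  | 0 => 0
  | j + 1 => if j < θ then Ss θ j + 1 else Ss θ j * (1 + 1 / (2 * j))

theorem Ss_small {θ : ℕ} : ∀ j ≤ θ, Ss θ j = j := by
  intro j
  induction j with
  | zero => intro _; simp [Ss]
  | succ j ih =>
    intro h
    rw [Ss, if_pos (by omega), ih (by omega)]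
    push_cast
    ring

theorem Ss_nonneg (θ j : ℕ) : 0 ≤ Ss θ j := by
  induction j with
  | zero => simp [Ss]
  | succ j ih =>
    rw [Ss]
    split_ifs
    · linarith
    · positivity

theorem Ss_le {θ : ℕ} (h1 : 1 ≤ θ) (j : ℕ) : Ss θ j ≤ j := by
  induction j with
  | zero => simp [Ss]
  | succ j ih =>
    rw [Ss]
    split_ifs with h
    · push_cast
      linarith
    · have hj : (0 : ℝ) < j := by
        have : 0 < j := by omega
        exact_mod_cast this
      have e1 : Ss θ j * (1 + 1 / (2 * j)) ≤ j * (1 + 1 / (2 * j)) := mul_le_mul_of_nonneg_right ih (by positivity)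
      have e2 : (j : ℝ) * (1 + 1 / (2 * j)) = j + 1 / 2 := by
        field_simp
      push_cast
      linarith

theorem Ss_sq {θ : ℕ} (h1 : 1 ≤ θ) : ∀ j, θ ≤ j → (θ : ℝ) * j ≤ Ss θ j ^ 2 := by
  intro j hj
  induction j, hj using Nat.le_induction with
  | base =>
    rw [Ss_small θ le_rfl]
    ring_nf
    exact le_rfl
  | succ j hj ih =>
    rw [Ss, if_neg (by omega)]
    have hj0 : (0 : ℝ) < j := by
      have : 0 < j := by omega
      exact_mod_cast this
    have hθ : (0 : ℝ) ≤ θ := Nat.cast_nonneg _
    have e1 : (1 + 1 / (j : ℝ)) ≤ (1 + 1 / (2 * j)) ^ 2 := by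
      have : (1 + 1 / (2 * (j : ℝ))) ^ 2 = 1 + 1 / j + (1 / (2 * j)) ^ 2 := by
        field_simp
        ring
      rw [this]
      have : (0 : ℝ) ≤ (1 / (2 * j)) ^ 2 := by positivity
      linarith
    have e2 : (θ : ℝ) * ((j + 1 : ℕ) : ℝ) = θ * j * (1 + 1 / j) := by
      push_cast
      field_simp
    rw [e2, mul_pow]
    exact mul_le_mul ih e1 (by positivity) (by positivity)

theorem Ss_sqrt {θ : ℕ} (h1 : 1 ≤ θ) {j : ℕ} (hj : θ ≤ j) : Real.sqrt (θ * j) ≤ Ss θ j :=
  Real.sqrt_le_iff.2 ⟨Ss_nonneg θ j, Ss_sq h1 j hj⟩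

/-- The lower bound in the column `K - 1 - j`. -/
noncomputable def yy (θ j : ℕ) : ℝ := Ss θ (j + 1) - Ss θ j

theorem yy_small {θ j : ℕ} (h : j < θ) : yy θ j = 1 := by
  unfold yy
  rw [Ss, if_pos h]
  ring

theorem yy_big {θ j : ℕ} (h1 : 1 ≤ θ) (h : θ ≤ j) : 2 * j * yy θ j = Ss θ j := by
  unfold yy
  rw [Ss, if_neg (by omega)]
  have hj0 : (j : ℝ) ≠ 0 := by
    have : j ≠ 0 := by omega
    exact_mod_cast this
  field_simp
  ring

theorem yy_nonneg {θ : ℕ} (h1 : 1 ≤ θ) (j : ℕ) : 0 ≤ yy θ j := by
  rcases Nat.lt_or_ge j θ with h | h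
  · rw [yy_small h]
    exact zero_le_one
  · have h2 := yy_big h1 h
    have h3 := Ss_nonneg θ j
    have hj0 : (0 : ℝ) < j := by
      have : 0 < j := by omega
      exact_mod_cast this
    by_contra hcon
    push Not at hcon
    have : 2 * (j : ℝ) * yy θ j < 0 := mul_neg_of_pos_of_neg (by positivity) hcon
    linarith

theorem yy_le {θ : ℕ} (h1 : 1 ≤ θ) (j : ℕ) : yy θ j ≤ 1 := by
  rcases Nat.lt_or_ge j θ with h | h
  · rw [yy_small h]
  · have h2 := yy_big h1 h
    have h3 := Ss_le h1 j
    have hj0 : (0 : ℝ) < j := by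
      have : 0 < j := by omega
      exact_mod_cast this
    nlinarith

theorem yy_sum (θ j : ℕ) : ∑ i ∈ range j, yy θ i = Ss θ j := by
  unfold yy
  rw [sum_range_sub]
  simp [Ss]

/-- The corners in the window. -/
def VV (n M K θ : ℕ) (lam : ℕ → ℕ) : Finset ℕ := (corners n lam).filter (InV M K θ lam)

/-- The probability that the hook walk ends in the window. -/
noncomputable def qV (n M K θ : ℕ) (lam : ℕ → ℕ) (a b : ℕ) : ℝ := ∑ c ∈ VV n M K θ lam, q n lam c a b

variable {n M K θ : ℕ} {lam : ℕ → ℕ}

theorem qV_nonneg (h : Shp n lam) (a b : ℕ) : 0 ≤ qV n M K θ lam a b :=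
  sum_nonneg fun _ hc => q_nonneg h (mem_filter.1 hc).1 a b

theorem qV_one (h : Shp n lam) {a b : ℕ} (ha : M ≤ a + θ) (hb : K ≤ b + θ) (hab : b < lam a) :
    qV n M K θ lam a b = 1 := by
  rw [← q_total h _ a b hab rfl]
  unfold qV VV
  refine sum_subset (filter_subset _ _) fun c hc hc' => q_zero ?_
  rw [mem_filter, not_and] at hc'
  have h1 := hc' hc
  unfold InV at h1
  push Not at h1
  have h2 := (mem_corners.1 hc).2
  by_cases hca : c < a
  · exact Or.inl hca
  · right
    have h3 := h1.1 (by omega)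
    have h4 := h1.2 h3
    omega

theorem qV_harm (h : Shp n lam) {a b : ℕ} (hab : b < lam a) :
    ∑ a' ∈ Ico (a + 1) (mu n lam b), qV n M K θ lam a' b + ∑ b' ∈ Ico (b + 1) (lam a), qV n M K θ lam a b' =
      (((lam a : ℝ) - b - 1) + ((mu n lam b : ℝ) - a - 1)) * qV n M K θ lam a b := by
  unfold qV
  rw [sum_comm, sum_comm (s := Ico (b + 1) (lam a)), ← sum_add_distrib, mul_sum]
  exact sum_congr rfl fun c hc => q_harm h (mem_filter.1 hc).1 hab

/-- **The lower bound to the left of the window.** -/
theorem qV_ge (h : Shp n lam) (hst : ∀ i, lam i ≤ n - 1 - i) (hMK : M + K = n) (hM : 1 ≤ M) (hcell : K ≤ lam (M - 1))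
    (h1 : 1 ≤ θ) : ∀ j < K, ∀ d a : ℕ, a + d + 1 = M → M ≤ a + θ → yy θ j ≤ qV n M K θ lam a (K - 1 - j) := by
  intro j
  induction j using Nat.strong_induction_on with
  | _ j ihj =>
    intro hj d
    induction d using Nat.strong_induction_on with
    | _ d ihd =>
      intro a had ha
      obtain ⟨b, hb⟩ : ∃ b, b = K - 1 - j := ⟨_, rfl⟩
      rw [← hb]
      have hla : K ≤ lam a := hcell.trans (h.anti (by omega))
      have hab : b < lam a := by omega
      rcases Nat.lt_or_ge j θ with hjθ | hjθ
      · rw [yy_small hjθ, qV_one h ha (by omega) hab]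
      · have hmu1 : M ≤ mu n lam b := by
          have : M - 1 < mu n lam b := (mu_lt_iff h _ _).2 (by omega)
          omega
        have hmu2 : mu n lam b ≤ M + j := by
          have : ¬ (M + j) < mu n lam b := by
            rw [mu_lt_iff h]
            have := hst (M + j)
            omega
          omega
        have hH := qV_harm (M := M) (K := K) (θ := θ) h hab
        -- the rows below
        have e1 : ((M : ℝ) - 1 - a) * yy θ j ≤ ∑ a' ∈ Ico (a + 1) (mu n lam b), qV n M K θ lam a' b := by
          rw [← sum_Ico_consecutive _ (show a + 1 ≤ M by omega) hmu1]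
          have e2 : 0 ≤ ∑ a' ∈ Ico M (mu n lam b), qV n M K θ lam a' b := sum_nonneg fun _ _ => qV_nonneg h _ _
          have e3 : ∑ a' ∈ Ico (a + 1) M, yy θ j ≤ ∑ a' ∈ Ico (a + 1) M, qV n M K θ lam a' b := by
            refine sum_le_sum fun a' ha' => ?_
            rw [mem_Ico] at ha'
            have := ihd (M - 1 - a') (by omega) a' (by omega) (by omega)
            rw [← hb] at this
            exact this
          rw [sum_const, Nat.card_Ico, nsmul_eq_mul, Nat.cast_sub (by omega)] at e3
          push_cast at e3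
          have e4 : ((M : ℝ) - 1 - a) = (M : ℝ) - (a + 1) := by ring
          rw [e4]
          linarith
        -- the columns to the right
        have e5 : Ss θ j + ((lam a : ℝ) - K) ≤ ∑ b' ∈ Ico (b + 1) (lam a), qV n M K θ lam a b' := by
          rw [← sum_Ico_consecutive _ (show b + 1 ≤ K by omega) hla]
          refine add_le_add ?_ ?_
          · have e6 : ∑ b' ∈ Ico (b + 1) K, yy θ (K - 1 - b') = Ss θ j := by
              rw [← yy_sum]
              refine sum_bij (fun b' _ => K - 1 - b') ?_ ?_ ?_ ?_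
              · intro b' hb'
                rw [mem_Ico] at hb'
                rw [mem_range]
                omega
              · intro b₁ hb₁ b₂ hb₂ heq
                rw [mem_Ico] at hb₁ hb₂
                omega
              · intro i hi
                rw [mem_range] at hi
                refine ⟨K - 1 - i, ?_, by omega⟩
                rw [mem_Ico]
                omega
              · intro b' _
                rfl
            rw [← e6]
            refine sum_le_sum fun b' hb' => ?_
            rw [mem_Ico] at hb'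
            have := ihj (K - 1 - b') (by omega) (by omega) d a had ha
            rw [show K - 1 - (K - 1 - b') = b' by omega] at this
            exact this
          · have e7 : ∑ b' ∈ Ico K (lam a), qV n M K θ lam a b' = ∑ b' ∈ Ico K (lam a), (1 : ℝ) := by
              refine sum_congr rfl fun b' hb' => ?_
              rw [mem_Ico] at hb'
              exact qV_one h ha (by omega) hb'.2
            rw [e7, sum_const, Nat.card_Ico, nsmul_eq_mul, mul_one, Nat.cast_sub hla]
        have e8 : ((lam a : ℝ) - b - 1) + ((mu n lam b : ℝ) - a - 1) ≤ ((lam a : ℝ) - K) + 2 * j + ((M : ℝ) - 1 - a) := by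
          have e9 : (b : ℝ) = K - 1 - j := by
            rw [hb, Nat.cast_sub (by omega), Nat.cast_sub (by omega)]
            push_cast
            ring
          have e10 : (mu n lam b : ℝ) ≤ M + j := by exact_mod_cast hmu2
          rw [e9]
          linarith
        have e11 := qV_nonneg (M := M) (K := K) (θ := θ) h a b
        have e12 : (((lam a : ℝ) - b - 1) + ((mu n lam b : ℝ) - a - 1)) * qV n M K θ lam a b ≤
            (((lam a : ℝ) - K) + 2 * j + ((M : ℝ) - 1 - a)) * qV n M K θ lam a b :=
          mul_le_mul_of_nonneg_right e8 e11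
        have e13 := yy_big h1 hjθ
        have e14 := yy_le h1 j
        have e15 : (0 : ℝ) ≤ (lam a : ℝ) - K := by
          have : (K : ℝ) ≤ lam a := by exact_mod_cast hla
          linarith
        have e16 : ((lam a : ℝ) - K) * yy θ j ≤ ((lam a : ℝ) - K) * 1 := mul_le_mul_of_nonneg_left e14 e15
        have e17 : (((lam a : ℝ) - K) + 2 * j + ((M : ℝ) - 1 - a)) * yy θ j ≤
            (((lam a : ℝ) - K) + 2 * j + ((M : ℝ) - 1 - a)) * qV n M K θ lam a b := by
          linarith
        have e18 : (0 : ℝ) < ((lam a : ℝ) - K) + 2 * j + ((M : ℝ) - 1 - a) := by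
          have e19 : (1 : ℝ) ≤ j := by
            have : 1 ≤ j := by omega
            exact_mod_cast this
          have e20 : (a : ℝ) + 1 ≤ M := by
            have : a + 1 ≤ M := by omega
            exact_mod_cast this
          linarith
        exact le_of_mul_le_mul_left e17 e18

/-- The weights of the corners in the window. -/
theorem Wt_window (h : Shp n lam) (hst : ∀ i, lam i ≤ n - 1 - i) (hMK : M + K = n) (hM : 1 ≤ M)
    (hcell : K ≤ lam (M - 1)) (h1 : 1 ≤ θ) (hM' : θ ≤ M) (hK' : θ ≤ K) :
    (θ : ℝ) * Real.sqrt (θ * K) ≤ ∑ c ∈ (corners n lam).filter (InV M K θ lam), Wt n lam c := by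
  have h2 : ∑ c ∈ (corners n lam).filter (InV M K θ lam), Wt n lam c =
      ∑ a ∈ range n, ∑ b ∈ range (lam a), qV n M K θ lam a b := by
    rw [← sum_congr rfl fun c hc => q_cells h (mem_filter.1 hc).1, sum_comm]
    refine sum_congr rfl fun a _ => ?_
    rw [sum_comm]
    rfl
  rw [h2]
  have h3 : ∑ a ∈ Ico (M - θ) M, ∑ b ∈ range K, qV n M K θ lam a b ≤
      ∑ a ∈ range n, ∑ b ∈ range (lam a), qV n M K θ lam a b := by
    refine (sum_le_sum (g := fun a => ∑ b ∈ range (lam a), qV n M K θ lam a b) fun a ha => ?_).trans ?_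
    · rw [mem_Ico] at ha
      have hla : K ≤ lam a := hcell.trans (h.anti (by omega))
      refine sum_le_sum_of_subset_of_nonneg ?_ fun _ _ _ => qV_nonneg h _ _
      intro b hb
      rw [mem_range] at hb ⊢
      omega
    · refine sum_le_sum_of_subset_of_nonneg ?_ fun _ _ _ => sum_nonneg fun _ _ => qV_nonneg h _ _
      intro a ha
      rw [mem_Ico] at ha
      rw [mem_range]
      omega
  refine le_trans ?_ h3
  have h4 : ∀ a ∈ Ico (M - θ) M, Ss θ K ≤ ∑ b ∈ range K, qV n M K θ lam a b := by
    intro a ha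
    rw [mem_Ico] at ha
    rw [← yy_sum, ← sum_range_reflect (fun b => qV n M K θ lam a b)]
    refine sum_le_sum fun j hj => ?_
    exact qV_ge h hst hMK hM hcell h1 j (mem_range.1 hj) (M - 1 - a) a (by omega) (by omega)
  have h5 : ∑ a ∈ Ico (M - θ) M, Ss θ K ≤ ∑ a ∈ Ico (M - θ) M, ∑ b ∈ range K, qV n M K θ lam a b := sum_le_sum h4
  rw [sum_const, Nat.card_Ico, nsmul_eq_mul, show M - (M - θ) = θ by omega] at h5
  exact le_trans (mul_le_mul_of_nonneg_left (Ss_sqrt h1 hK') (Nat.cast_nonneg _)) h5

/-- **The hazard inequality**, from the relation between the numbers of removals and the weights of the corners. -/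
theorem hazard_of {k : ℕ} (hF : ∀ c ∈ corners n lam, ((k : ℝ) + 1) * F n k (dec lam c) = Wt n lam c * F n (k + 1) lam)
    (h : Shp n lam) (hst : ∀ i, lam i ≤ n - 1 - i) (hMK : M + K = n) (hM : 1 ≤ M)
    (hcell : K ≤ lam (M - 1)) (h1 : 1 ≤ θ) (hM' : θ ≤ M) (hK' : θ ≤ K) :
    (θ : ℝ) * Real.sqrt (θ * K) * F n (k + 1) lam ≤
      ((k : ℝ) + 1) * ∑ i ∈ (corners n lam).filter (InV M K θ lam), (F n k (dec lam i) : ℝ) := by
  rw [mul_sum, sum_congr rfl fun c hc => hF c (mem_filter.1 hc).1, ← sum_mul]
  exact mul_le_mul_of_nonneg_right (Wt_window h hst hMK hM hcell h1 hM' hK') (Nat.cast_nonneg _)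

end Pool.Agent.SNL63
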