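import Pool.Agent.SNL63.Hazard
import Pool.Agent.SNL63.HookF

/-!
# The hazard inequality
-/

namespace Pool.Agent.SNL63

open Pool.Agent.SN8 Finset

theorem hazard {n M K θ k : ℕ} {lam : ℕ → ℕ} (h : Shape n lam) (hst : ∀ i, lam i ≤ n - 1 - i)
    (hMK : M + K = n) (hM : 1 ≤ M) (hK : 1 ≤ K) (hcell : K ≤ lam (M - 1)) (h1 : 1 ≤ θ)
    (hθM : θ ≤ M) (hθK : θ ≤ K) (hk : ∑ i ∈ range n, lam i = k + 1) :
    (θ : ℝ) * √((θ : ℝ) * K) * F n (k + 1) lam ≤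
      ((k : ℝ) + 1) * ∑ i ∈ (corners n lam).filter (InV M K θ lam), (F n k (dec lam i) : ℝ) :=
  hazard_of (fun _ hc => F_dec h.shp hk hc) h.shp hst hMK hM hcell h1 hθM hθK

end Pool.Agent.SNL63
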