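import Pool.Agent.SNL63.Defs

/-!
# The hook walk of Greene, Nijenhuis and Wilf

`q n lam c a b` is the probability that the hook walk which starts at the cell `(a, b)` ends at the corner in row `c`. It is
a product of a function of the row and a function of the column.
-/

namespace Pool.Agent.SNL63

open Finset

/-! ### Conjugate shape -/

/-- The length of column `j`. -/
def mu (n : ℕ) (lam : ℕ → ℕ) (j : ℕ) : ℕ := ((range n).filter (fun i => j < lam i)).card

/-- Standing assumptions on a shape: decreasing rows, none in the rows `≥ n`. -/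
structure Shp (n : ℕ) (lam : ℕ → ℕ) : Prop where
  anti : Antitone lam
  zero : ∀ i, n ≤ i → lam i = 0

theorem mu_lt_iff {n : ℕ} {lam : ℕ → ℕ} (h : Shp n lam) (i j : ℕ) : i < mu n lam j ↔ j < lam i := by
  have h1 : (range n).filter (fun i => j < lam i) = range (mu n lam j) := by
    have key : ∀ S : Finset ℕ, (∀ a ∈ S, ∀ b ≤ a, b ∈ S) → S = range S.card := by
      intro S hS
      have h2 : S ⊆ range S.card := by
        intro a ha
        rw [mem_range]
        have h3 : range (a + 1) ⊆ S := fun b hb => hS a ha b (by rw [mem_range] at hb; omega)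
        have h4 := card_le_card h3
        rw [card_range] at h4
        omega
      exact eq_of_subset_of_card_le h2 (by rw [card_range])
    refine key _ ?_
    intro a ha b hb
    rw [mem_filter, mem_range] at ha ⊢
    exact ⟨by omega, lt_of_lt_of_le ha.2 (h.anti hb)⟩
  constructor
  · intro hi
    have : i ∈ (range n).filter (fun i => j < lam i) := by
      rw [h1, mem_range]
      exact hi
    exact (mem_filter.1 this).2
  · intro hj
    rw [← mem_range, ← h1, mem_filter, mem_range]
    refine ⟨?_, hj⟩
    by_contra hn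
    rw [h.zero i (by omega)] at hj
    omega

theorem mem_corners {n : ℕ} {lam : ℕ → ℕ} {c : ℕ} : c ∈ corners n lam ↔ c < n ∧ lam (c + 1) < lam c := by
  unfold corners
  rw [mem_filter, mem_range]

theorem mu_corner {n : ℕ} {lam : ℕ → ℕ} (h : Shp n lam) {c : ℕ} (hc : c ∈ corners n lam) :
    mu n lam (lam c - 1) = c + 1 := by
  rw [mem_corners] at hc
  have h1 : c < mu n lam (lam c - 1) := by
    rw [mu_lt_iff h]
    omega
  have h2 : ¬ c + 1 < mu n lam (lam c - 1) := by
    rw [mu_lt_iff h]
    omega
  omega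

theorem mu_anti {n : ℕ} (lam : ℕ → ℕ) : Antitone (mu n lam) := by
  intro j j' hj
  refine card_le_card ?_
  intro i hi
  rw [mem_filter] at hi ⊢
  exact ⟨hi.1, by omega⟩

/-! ### The one-dimensional weights -/

/-- The weight of the position `a` for the end point `c`. -/
noncomputable def X (u : ℕ → ℝ) (c a : ℕ) : ℝ :=
  if a = c then 1 else if a < c then (1 / u a) * ∏ i ∈ Ico (a + 1) c, (1 + 1 / u i) else 0

theorem X_self (u : ℕ → ℝ) (c : ℕ) : X u c c = 1 := by simp [X]

theorem X_of_lt {u : ℕ → ℝ} {c a : ℕ} (h : a < c) : X u c a = (1 / u a) * ∏ i ∈ Ico (a + 1) c, (1 + 1 / u i) := by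
  unfold X
  rw [if_neg (by omega), if_pos h]

theorem X_of_gt {u : ℕ → ℝ} {c a : ℕ} (h : c < a) : X u c a = 0 := by
  unfold X
  rw [if_neg (by omega), if_neg (by omega)]

theorem X_nonneg {u : ℕ → ℝ} {c : ℕ} (hu : ∀ i < c, 0 < u i) (a : ℕ) : 0 ≤ X u c a := by
  rcases lt_trichotomy a c with h | h | h
  · rw [X_of_lt h]
    refine mul_nonneg (one_div_nonneg.2 (hu a h).le) (prod_nonneg fun i hi => ?_)
    rw [mem_Ico] at hi
    have := hu i hi.2
    positivity
  · rw [h, X_self]
    exact zero_le_one
  · rw [X_of_gt h]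

theorem X_sum {u : ℕ → ℝ} {c : ℕ} : ∀ d a : ℕ, a + d = c →
    ∑ i ∈ Ico a (c + 1), X u c i = ∏ i ∈ Ico a c, (1 + 1 / u i) := by
  intro d
  induction d with
  | zero =>
    intro a ha
    obtain rfl : a = c := by omega
    rw [Nat.Ico_succ_singleton, sum_singleton, X_self, Ico_self, prod_empty]
  | succ d ih =>
    intro a ha
    rw [sum_eq_sum_Ico_succ_bot (by omega), ih (a + 1) (by omega), X_of_lt (by omega),
      prod_eq_prod_Ico_succ_bot (by omega : a < c)]
    ring

theorem X_sum' {u : ℕ → ℝ} {c a m : ℕ} (ha : a ≤ c + 1) (hm : c + 1 ≤ m) :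
    ∑ i ∈ Ico a m, X u c i = ∑ i ∈ Ico a (c + 1), X u c i := by
  rw [← sum_Ico_consecutive _ ha hm]
  have : ∑ i ∈ Ico (c + 1) m, X u c i = 0 := by
    refine sum_eq_zero fun i hi => ?_
    rw [mem_Ico] at hi
    exact X_of_gt (by omega)
  rw [this, add_zero]

/-- The harmonic equation in one dimension. -/
theorem X_tail {u : ℕ → ℝ} {c : ℕ} (hu : ∀ i < c, 0 < u i) (hc : u c = 0) {a m : ℕ} (hm : a ≤ c → c + 1 ≤ m) :
    ∑ i ∈ Ico (a + 1) m, X u c i = u a * X u c a := by
  rcases lt_trichotomy a c with h | h | h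
  · rw [X_sum' (by omega) (hm h.le), X_sum (c - (a + 1)) (a + 1) (by omega), X_of_lt h]
    have := (hu a h).ne'
    field_simp
  · rw [h, hc, zero_mul]
    refine sum_eq_zero fun i hi => ?_
    rw [mem_Ico] at hi
    exact X_of_gt (by omega)
  · rw [X_of_gt h, mul_zero]
    refine sum_eq_zero fun i hi => ?_
    rw [mem_Ico] at hi
    exact X_of_gt (by omega)

theorem X_total {u : ℕ → ℝ} {c m : ℕ} (hm : c + 1 ≤ m) : ∑ i ∈ range m, X u c i = ∏ i ∈ range c, (1 + 1 / u i) := by
  rw [range_eq_Ico, range_eq_Ico, X_sum' (by omega) hm, X_sum c 0 (by omega)]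

/-! ### The hook walk -/

/-- The hook length, minus one, of the cell `(i, lam c - 1)` above the corner in row `c`. -/
def uu (lam : ℕ → ℕ) (c i : ℕ) : ℝ := (lam i : ℝ) - lam c + ((c : ℝ) - i)

/-- The hook length, minus one, of the cell `(c, j)` to the left of the corner in row `c`. -/
def vv (n : ℕ) (lam : ℕ → ℕ) (c j : ℕ) : ℝ := (lam c : ℝ) - 1 - j + ((mu n lam j : ℝ) - (c + 1))

/-- The probability that the hook walk from the cell `(a, b)` ends at the corner in row `c`. -/
noncomputable def q (n : ℕ) (lam : ℕ → ℕ) (c a b : ℕ) : ℝ := X (uu lam c) c a * X (vv n lam c) (lam c - 1) b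

/-- The product of the quotients `h / (h - 1)` of the hook lengths above and to the left of the corner in row `c`. -/
noncomputable def Wt (n : ℕ) (lam : ℕ → ℕ) (c : ℕ) : ℝ :=
  (∏ i ∈ range c, (1 + 1 / uu lam c i)) * ∏ j ∈ range (lam c - 1), (1 + 1 / vv n lam c j)

variable {n : ℕ} {lam : ℕ → ℕ}

theorem uu_pos (h : Shp n lam) {c i : ℕ} (hi : i < c) : 0 < uu lam c i := by
  unfold uu
  have h1 : (lam c : ℝ) ≤ lam i := by exact_mod_cast h.anti hi.le
  have h2 : (i : ℝ) < c := by exact_mod_cast hi
  linarith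

theorem uu_self (c : ℕ) : uu lam c c = 0 := by
  unfold uu
  ring

theorem vv_pos (h : Shp n lam) {c : ℕ} (hc : c ∈ corners n lam) {j : ℕ} (hj : j < lam c - 1) : 0 < vv n lam c j := by
  unfold vv
  have h1 : c + 1 ≤ mu n lam j := by
    rw [← mu_corner h hc]
    exact mu_anti lam hj.le
  have h2 : ((c : ℝ) + 1) ≤ mu n lam j := by exact_mod_cast h1
  have h3 : (j : ℝ) + 1 < lam c := by
    have : j + 1 < lam c := by omega
    exact_mod_cast this
  linarith

theorem vv_self (h : Shp n lam) {c : ℕ} (hc : c ∈ corners n lam) : vv n lam c (lam c - 1) = 0 := by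
  unfold vv
  rw [mu_corner h hc]
  have h1 := (mem_corners.1 hc).2
  have h2 : ((lam c - 1 : ℕ) : ℝ) = (lam c : ℝ) - 1 := by
    rw [Nat.cast_sub (by omega), Nat.cast_one]
  rw [h2]
  push_cast
  ring

theorem q_nonneg (h : Shp n lam) {c : ℕ} (hc : c ∈ corners n lam) (a b : ℕ) : 0 ≤ q n lam c a b :=
  mul_nonneg (X_nonneg (fun _ hi => uu_pos h hi) a) (X_nonneg (fun _ hj => vv_pos h hc hj) b)

theorem q_zero {c a b : ℕ} (h : c < a ∨ lam c - 1 < b) : q n lam c a b = 0 := by
  unfold q
  rcases h with h | h
  · rw [X_of_gt h, zero_mul]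
  · rw [X_of_gt h, mul_zero]

/-- **The hook walk.** -/
theorem q_harm (h : Shp n lam) {c : ℕ} (hc : c ∈ corners n lam) {a b : ℕ} (hab : b < lam a) :
    ∑ a' ∈ Ico (a + 1) (mu n lam b), q n lam c a' b + ∑ b' ∈ Ico (b + 1) (lam a), q n lam c a b' =
      (((lam a : ℝ) - b - 1) + ((mu n lam b : ℝ) - a - 1)) * q n lam c a b := by
  have hc' := mem_corners.1 hc
  unfold q
  rw [← sum_mul, ← mul_sum]
  by_cases hb : lam c - 1 < b
  · rw [X_of_gt hb, mul_zero, mul_zero, mul_zero, zero_add]
    have : ∑ b' ∈ Ico (b + 1) (lam a), X (vv n lam c) (lam c - 1) b' = 0 := by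
      refine sum_eq_zero fun i hi => ?_
      rw [mem_Ico] at hi
      exact X_of_gt (by omega)
    rw [this, mul_zero]
  · by_cases ha : c < a
    · rw [X_of_gt ha, zero_mul, zero_mul, mul_zero, add_zero]
      have : ∑ a' ∈ Ico (a + 1) (mu n lam b), X (uu lam c) c a' = 0 := by
        refine sum_eq_zero fun i hi => ?_
        rw [mem_Ico] at hi
        exact X_of_gt (by omega)
      rw [this, zero_mul]
    · have h1 : c + 1 ≤ mu n lam b := by
        rw [← mu_corner h hc]
        exact mu_anti lam (by omega)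
      have h2 : lam c ≤ lam a := h.anti (by omega)
      rw [X_tail (fun _ hi => uu_pos h hi) (uu_self c) (fun _ => h1),
        X_tail (fun _ hj => vv_pos h hc hj) (vv_self h hc) (fun _ => by omega)]
      unfold uu vv
      ring

/-- From every cell the hook walk ends at a corner. -/
theorem q_total (h : Shp n lam) : ∀ m a b : ℕ, b < lam a → (lam a - b) + (mu n lam b - a) = m →
    ∑ c ∈ corners n lam, q n lam c a b = 1 := by
  intro m
  induction m using Nat.strong_induction_on with
  | _ m ih =>
    intro a b hab hm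
    have hmu : a < mu n lam b := (mu_lt_iff h a b).2 hab
    by_cases hcor : lam a = b + 1 ∧ mu n lam b = a + 1
    · obtain ⟨h1, h2⟩ := hcor
      have h3 : ¬ b < lam (a + 1) := by
        rw [← mu_lt_iff h]
        omega
      have hac : a ∈ corners n lam := by
        rw [mem_corners]
        refine ⟨?_, by omega⟩
        by_contra hn
        rw [h.zero a (by omega)] at hab
        omega
      rw [sum_eq_single a]
      · unfold q
        rw [X_self, show b = lam a - 1 by omega, X_self, mul_one]
      · intro c hc hca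
        refine q_zero ?_
        rcases lt_or_gt_of_ne hca with h4 | h4
        · exact Or.inl h4
        · right
          have h5 : lam c ≤ lam (a + 1) := h.anti h4
          have h6 := (mem_corners.1 hc).2
          omega
      · intro h4
        exact absurd hac h4
    · have h1 : ∑ c ∈ corners n lam, ((((lam a : ℝ) - b - 1) + ((mu n lam b : ℝ) - a - 1)) * q n lam c a b) =
          ((lam a : ℝ) - b - 1) + ((mu n lam b : ℝ) - a - 1) := by
        rw [← sum_congr rfl fun c hc => q_harm h hc hab, sum_add_distrib, sum_comm]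
        rw [sum_comm (s := corners n lam) (t := Ico (b + 1) (lam a))]
        have e1 : ∀ a' ∈ Ico (a + 1) (mu n lam b), ∑ c ∈ corners n lam, q n lam c a' b = 1 := by
          intro a' ha'
          rw [mem_Ico] at ha'
          have h3 : b < lam a' := (mu_lt_iff h a' b).1 ha'.2
          have h4 : lam a' ≤ lam a := h.anti (by omega)
          exact ih _ (by omega) a' b h3 rfl
        have e2 : ∀ b' ∈ Ico (b + 1) (lam a), ∑ c ∈ corners n lam, q n lam c a b' = 1 := by
          intro b' hb'
          rw [mem_Ico] at hb'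
          have h3 : mu n lam b' ≤ mu n lam b := mu_anti lam (by omega)
          exact ih _ (by omega) a b' hb'.2 rfl
        rw [sum_congr rfl e1, sum_congr rfl e2, sum_const, sum_const, Nat.card_Ico, Nat.card_Ico, nsmul_eq_mul,
          nsmul_eq_mul, mul_one, mul_one, Nat.cast_sub (by omega), Nat.cast_sub (by omega)]
        push_cast
        ring
      rw [← mul_sum] at h1
      have h2 : ((lam a : ℝ) - b - 1) + ((mu n lam b : ℝ) - a - 1) ≠ 0 := by
        have e1 : (b : ℝ) + 1 ≤ lam a := by exact_mod_cast hab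
        have e2 : (a : ℝ) + 1 ≤ mu n lam b := by exact_mod_cast hmu
        intro e3
        apply hcor
        constructor
        · have : (lam a : ℝ) = b + 1 := by linarith
          exact_mod_cast this
        · have : (mu n lam b : ℝ) = a + 1 := by linarith
          exact_mod_cast this
      exact mul_left_cancel₀ h2 (by rw [h1, mul_one])

/-- The sum over all cells. -/
theorem q_cells (h : Shp n lam) {c : ℕ} (hc : c ∈ corners n lam) :
    ∑ a ∈ range n, ∑ b ∈ range (lam a), q n lam c a b = Wt n lam c := by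
  have hc' := mem_corners.1 hc
  unfold q Wt
  have h1 : ∀ a ∈ range n, ∑ b ∈ range (lam a), X (uu lam c) c a * X (vv n lam c) (lam c - 1) b =
      X (uu lam c) c a * ∏ j ∈ range (lam c - 1), (1 + 1 / vv n lam c j) := by
    intro a _
    rw [← mul_sum]
    by_cases ha : c < a
    · rw [X_of_gt ha, zero_mul, zero_mul]
    · have h2 : lam c ≤ lam a := h.anti (by omega)
      rw [X_total (by omega)]
  rw [sum_congr rfl h1, ← sum_mul, X_total (by omega)]

/-- The weights of the corners sum to the number of cells. -/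
theorem Wt_sum (h : Shp n lam) : ∑ c ∈ corners n lam, Wt n lam c = ∑ a ∈ range n, (lam a : ℝ) := by
  rw [← sum_congr rfl fun c hc => q_cells h hc, sum_comm]
  refine sum_congr rfl fun a _ => ?_
  rw [sum_comm]
  rw [sum_congr rfl fun b hb => q_total h _ a b (mem_range.1 hb) rfl, sum_const, card_range, nsmul_eq_mul, mul_one]

end Pool.Agent.SNL63
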