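import Pool.Agent.SNL63.LShape

/-!
# The logarithm of `HH`

The large deviation bound for `log (HH n lam (n ζ))`.
-/

namespace Pool.Agent.SNL63

open Pool.Agent.SN8 MeasureTheory Set Filter Topology
open scoped ENNReal Real

theorem HH_stair_tendsto {ζ : ℝ} (hζ : 2 ≤ ζ) :
    Tendsto (fun n : ℕ => HH n (stair n) (n * ζ) / n) atTop (𝓝 √(ζ ^ 2 - 1)) := by
  have hsq : Tendsto (fun n : ℕ => (HH n (stair n) (n * ζ) / n) ^ 2) atTop (𝓝 (ζ ^ 2 - 1)) := by
    have hup : Tendsto (fun n : ℕ => ζ ^ 2 - 1 + (ζ + 1) / (n : ℝ)) atTop (𝓝 (ζ ^ 2 - 1)) := by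
      have h1 : Tendsto (fun n : ℕ => (ζ + 1) / (n : ℝ)) atTop (𝓝 0) :=
        tendsto_const_nhds.div_atTop tendsto_natCast_atTop_atTop
      simpa using tendsto_const_nhds.add h1
    refine tendsto_of_tendsto_of_tendsto_of_le_of_le' tendsto_const_nhds hup ?_ ?_
    · filter_upwards [eventually_ge_atTop 1] with n hn
      have hn1 : (1 : ℝ) ≤ n := by exact_mod_cast hn
      obtain ⟨b1, _, _⟩ := HH_stair_bounds hn (show (n : ℝ) < n * ζ by nlinarith)
      rw [div_pow, le_div_iff₀ (by positivity)]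
      nlinarith
    · filter_upwards [eventually_ge_atTop 1] with n hn
      have hn1 : (1 : ℝ) ≤ n := by exact_mod_cast hn
      obtain ⟨_, b2, _⟩ := HH_stair_bounds hn (show (n : ℝ) < n * ζ by nlinarith)
      rw [div_pow, div_le_iff₀ (by positivity)]
      have e : (ζ ^ 2 - 1 + (ζ + 1) / (n : ℝ)) * (n : ℝ) ^ 2 = (n * ζ + n) * (n * ζ - n + 1) := by
        field_simp
        ring
      rw [e]
      exact b2
  have h1 := (Real.continuous_sqrt.tendsto (ζ ^ 2 - 1)).comp hsq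
  refine h1.congr' ?_
  filter_upwards [eventually_ge_atTop 1] with n hn
  have hn1 : (1 : ℝ) ≤ n := by exact_mod_cast hn
  obtain ⟨_, _, b3⟩ := HH_stair_bounds hn (show (n : ℝ) < n * ζ by nlinarith)
  show √((HH n (stair n) (n * ζ) / n) ^ 2) = _
  exact Real.sqrt_sq (by positivity)

open Classical in
/-- **Large deviations of the logarithm of `HH`.** -/
theorem log_ld {τ ζ ε : ℝ} (h0 : 0 ≤ τ) (h1 : τ < 1) (hζ : 2 ≤ ζ) (hε : 0 < ε) :
    ∃ c > (0 : ℝ), ∃ n₀ : ℕ, ∀ n ≥ n₀, ∀ s k : ℕ, s + k = n.choose 2 →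
      τ * (n.choose 2 : ℝ) - 1 ≤ s → (s : ℝ) ≤ τ * (n.choose 2 : ℝ) →
        (AQ n (fun lam => ε < |Real.log (HH n lam (n * ζ)) - Real.log (HH n (stair n) (n * ζ)) -
          Real.log ((1 - τ) * Hlim τ ζ / √(ζ ^ 2 - 1))|) s k (stair n) : ℝ) ≤
          Real.exp (-c * (n : ℝ) ^ 2) * F n (n.choose 2) (stair n) := by
  have hh := Hlim_nonneg h0 h1 hζ
  obtain ⟨L, hL⟩ : ∃ L, L = (1 - τ) * Hlim τ ζ := ⟨_, rfl⟩
  have hL0 : 0 < L := by
    rw [hL]
    exact mul_pos (by linarith) hh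
  obtain ⟨R, hR⟩ : ∃ R, R = √(ζ ^ 2 - 1) := ⟨_, rfl⟩
  have hR0 : 0 < R := by
    rw [hR]
    exact Real.sqrt_pos.2 (by nlinarith)
  -- continuity of the logarithm
  have hcL : ContinuousAt Real.log L := Real.continuousAt_log hL0.ne'
  obtain ⟨η, hη, hη1⟩ := Metric.continuousAt_iff.1 hcL (ε / 2) (by linarith)
  obtain ⟨η', hη'⟩ : ∃ η', η' = min (η / 2) (L / 2) := ⟨_, rfl⟩
  have hη'0 : 0 < η' := by
    rw [hη']
    exact lt_min (by linarith) (by linarith)
  obtain ⟨c, hc, n₀, hn₀⟩ := hh_ld h0 h1 hζ hη'0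
  -- the staircase
  have hst : Tendsto (fun n : ℕ => Real.log (HH n (stair n) (n * ζ) / n)) atTop (𝓝 (Real.log R)) := by
    rw [hR]
    refine (Real.continuousAt_log ?_).tendsto.comp (HH_stair_tendsto hζ)
    rw [← hR]
    exact hR0.ne'
  obtain ⟨n₁, hn₁⟩ := Filter.eventually_atTop.1 (Metric.tendsto_nhds.1 hst (ε / 2) (by linarith))
  refine ⟨c, hc, max 1 (max n₀ n₁), fun n hn s k hsk hs hs' => ?_⟩
  have hn1 : 1 ≤ n := le_trans (le_max_left _ _) hn
  have hnn₀ : n₀ ≤ n := le_trans (le_trans (le_max_left _ _) (le_max_right _ _)) hn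
  have hnn₁ : n₁ ≤ n := le_trans (le_trans (le_max_right _ _) (le_max_right _ _)) hn
  have hn0 : (1 : ℝ) ≤ n := by exact_mod_cast hn1
  refine le_trans ?_ (hn₀ n hnn₀ s k hsk hs hs')
  have hmono : ∀ lam : ℕ → ℕ, ε < |Real.log (HH n lam (n * ζ)) - Real.log (HH n (stair n) (n * ζ)) -
      Real.log ((1 - τ) * Hlim τ ζ / √(ζ ^ 2 - 1))| → η' < |HH n lam (n * ζ) / n - (1 - τ) * Hlim τ ζ| := by
    intro lam hl
    by_contra hcon
    rw [not_lt] at hcon
    rw [← hL, ← hR] at hl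
    rw [← hL] at hcon
    have e1 : |HH n lam (n * ζ) / n - L| ≤ η / 2 := hcon.trans (by rw [hη']; exact min_le_left _ _)
    have e2 : |HH n lam (n * ζ) / n - L| ≤ L / 2 := hcon.trans (by rw [hη']; exact min_le_right _ _)
    have e3 : 0 < HH n lam (n * ζ) / n := by
      have := (abs_le.1 e2).1
      linarith
    have e4 : 0 < HH n lam (n * ζ) := by
      have := mul_pos e3 (show (0 : ℝ) < n by linarith)
      rwa [div_mul_cancel₀ _ (show (n : ℝ) ≠ 0 by positivity)] at this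
    have e5 := hη1 (x := HH n lam (n * ζ) / n) (by
      rw [Real.dist_eq]
      linarith)
    rw [Real.dist_eq] at e5
    have e6 := hn₁ n hnn₁
    rw [Real.dist_eq] at e6
    have e7 : 0 < HH n (stair n) (n * ζ) := by
      obtain ⟨b1, _, b3⟩ := HH_stair_bounds hn1 (show (n : ℝ) < n * ζ by nlinarith)
      rcases b3.lt_or_eq with h | h
      · exact h
      · exfalso
        rw [← h] at b1
        have f1 : (n : ℝ) * 2 ≤ n * ζ := mul_le_mul_of_nonneg_left hζ (by linarith)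
        have f2 : ((n : ℝ) * 2) ^ 2 ≤ (n * ζ) ^ 2 := by gcongr
        nlinarith
    rw [Real.log_div e4.ne' (by positivity)] at e5
    rw [Real.log_div e7.ne' (by positivity)] at e6
    rw [Real.log_div hL0.ne' hR0.ne'] at hl
    have e8 : Real.log (HH n lam (n * ζ)) - Real.log (HH n (stair n) (n * ζ)) - (Real.log L - Real.log R) =
        (Real.log (HH n lam (n * ζ)) - Real.log n - Real.log L) -
          (Real.log (HH n (stair n) (n * ζ)) - Real.log n - Real.log R) := by ring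
    rw [e8] at hl
    have e9 := abs_sub (Real.log (HH n lam (n * ζ)) - Real.log n - Real.log L)
          (Real.log (HH n (stair n) (n * ζ)) - Real.log n - Real.log R)
    linarith
  exact_mod_cast AQ_mono hmono s k (stair n)

end Pool.Agent.SNL63
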