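import Pool.Agent.SNL63.LStep

/-!
# The limit shape at speed `n ^ 2`

The function `HH` of the shape after `s` removals concentrates at speed `n ^ 2`.
-/

namespace Pool.Agent.SNL63

open Pool.Agent.SN8 MeasureTheory Set Filter Topology
open scoped ENNReal Real

/-! ### The staircase -/

theorem ls_prod_le {x : ℝ} (hx : 0 < x) : ∀ n : ℕ,
    (∏ i ∈ Finset.range n, (x + 2 * i) / (x + 2 * i + 1)) ^ 2 ≤ x / (x + 2 * n) := by
  intro n
  induction n with
  | zero => simp [hx.ne']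
  | succ n ih =>
    rw [Finset.prod_range_succ, mul_pow]
    have hn : (0 : ℝ) ≤ n := Nat.cast_nonneg n
    refine (mul_le_mul_of_nonneg_right ih (sq_nonneg _)).trans ?_
    push_cast
    rw [div_pow, div_mul_div_comm, div_le_div_iff₀ (by positivity) (by positivity)]
    have h1 : 0 < x + 2 * n := by linarith
    have h2 : (x + 2 * n) * (x + 2 * (n + 1)) ≤ (x + 2 * n + 1) ^ 2 := by nlinarith
    calc x * (x + 2 * n) ^ 2 * (x + 2 * (n + 1)) = x * (x + 2 * n) * ((x + 2 * n) * (x + 2 * (n + 1))) := by ring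
      _ ≤ x * (x + 2 * n) * (x + 2 * n + 1) ^ 2 := mul_le_mul_of_nonneg_left h2 (by positivity)
      _ = x * ((x + 2 * n) * (x + 2 * n + 1) ^ 2) := by ring

theorem ls_prod_ge {x : ℝ} (hx : 1 < x) : ∀ n : ℕ,
    (x - 1) / (x + 2 * n - 1) ≤ (∏ i ∈ Finset.range n, (x + 2 * i) / (x + 2 * i + 1)) ^ 2 := by
  intro n
  induction n with
  | zero =>
    have : x - 1 ≠ 0 := by
      have : 0 < x - 1 := by linarith
      exact this.ne'
    simp [this]
  | succ n ih =>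
    rw [Finset.prod_range_succ, mul_pow]
    have hn : (0 : ℝ) ≤ n := Nat.cast_nonneg n
    refine le_trans ?_ (mul_le_mul_of_nonneg_right ih (sq_nonneg _))
    push_cast
    have h0 : 0 < x + 2 * n - 1 := by linarith
    have h1 : 0 < x - 1 := by linarith
    have h3 : 0 < x + 2 * (n + 1) - 1 := by linarith
    have h4 : 0 < x + 2 * n + 1 := by linarith
    rw [div_pow, div_mul_div_comm, div_le_div_iff₀ h3 (by positivity)]
    have h2 : (x + 2 * n + 1) * (x + 2 * n - 1) ≤ (x + 2 * n) ^ 2 := by nlinarith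
    calc (x - 1) * ((x + 2 * n - 1) * (x + 2 * n + 1) ^ 2) =
          (x - 1) * (x + 2 * n + 1) * ((x + 2 * n + 1) * (x + 2 * n - 1)) := by ring
      _ ≤ (x - 1) * (x + 2 * n + 1) * (x + 2 * n) ^ 2 := mul_le_mul_of_nonneg_left h2 (by positivity)
      _ = (x - 1) * (x + 2 * n) ^ 2 * (x + 2 * (n + 1) - 1) := by ring

theorem HH_stair_eq (n : ℕ) (z : ℝ) : HH n (stair n) z =
    (z + n) * ∏ i ∈ Finset.range n, ((z - n + 1) + 2 * i) / ((z - n + 1) + 2 * i + 1) := by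
  unfold HH
  congr 1
  refine Finset.prod_congr rfl fun i hi => ?_
  rw [Finset.mem_range] at hi
  have e : ((stair n i : ℕ) : ℝ) = n - 1 - i := by
    unfold stair
    rw [Nat.cast_sub (by omega), Nat.cast_sub (by omega)]
    norm_num
  rw [e]
  congr 1 <;> ring

/-- The bounds for the staircase. -/
theorem HH_stair_bounds {n : ℕ} (hn : 1 ≤ n) {z : ℝ} (hz : (n : ℝ) < z) :
    z ^ 2 - (n : ℝ) ^ 2 ≤ (HH n (stair n) z) ^ 2 ∧ (HH n (stair n) z) ^ 2 ≤ (z + n) * (z - n + 1) ∧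
      0 ≤ HH n (stair n) z := by
  have hn1 : (1 : ℝ) ≤ n := by exact_mod_cast hn
  obtain ⟨x, hx⟩ : ∃ x, x = z - n + 1 := ⟨_, rfl⟩
  have hx1 : 1 < x := by linarith
  have e := HH_stair_eq n z
  rw [← hx] at e
  have hzn : z + n = x + 2 * n - 1 := by linarith
  have hp0 : 0 ≤ ∏ i ∈ Finset.range n, (x + 2 * (i : ℝ)) / (x + 2 * i + 1) :=
    Finset.prod_nonneg fun i _ => by
      have : (0 : ℝ) ≤ i := Nat.cast_nonneg i
      exact div_nonneg (by linarith) (by linarith)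
  refine ⟨?_, ?_, ?_⟩
  · rw [e, mul_pow]
    refine le_trans ?_ (mul_le_mul_of_nonneg_left (ls_prod_ge hx1 n) (sq_nonneg _))
    rw [← hzn]
    have : (z + n) ≠ 0 := by
      have : 0 < z + n := by linarith
      exact this.ne'
    refine le_of_eq ?_
    rw [hx]
    field_simp
    ring
  · rw [e, mul_pow]
    refine (mul_le_mul_of_nonneg_left (ls_prod_le (by linarith) n) (sq_nonneg _)).trans ?_
    rw [mul_div_assoc', div_le_iff₀ (by linarith), ← hx]
    have h1 : 0 ≤ z + n := by linarith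
    have h2 : z + n ≤ x + 2 * n := by linarith
    calc (z + n) ^ 2 * x = (z + n) * x * (z + n) := by ring
      _ ≤ (z + n) * x * (x + 2 * n) := mul_le_mul_of_nonneg_left h2 (mul_nonneg h1 (by linarith))
  · rw [e]
    exact mul_nonneg (by linarith) hp0

/-! ### The characteristics -/

theorem Hlim_nonneg {τ ζ : ℝ} (h0 : 0 ≤ τ) (h1 : τ < 1) (hζ : 2 ≤ ζ) : 0 < Hlim τ ζ := by
  unfold Hlim
  have e : 0 < 1 - τ ^ 2 := by nlinarith
  have e2 : 0 < ζ ^ 2 - (1 - τ ^ 2) := by nlinarith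
  have e3 : 0 < √(ζ ^ 2 - (1 - τ ^ 2)) := Real.sqrt_pos.2 e2
  have e4 : 0 ≤ τ * ζ := by positivity
  exact div_pos (by linarith) e

theorem Hlim_sq {τ ζ : ℝ} (h0 : 0 ≤ τ) (h1 : τ < 1) (hζ : 2 ≤ ζ) :
    Hlim τ ζ ^ 2 = (ζ + τ * Hlim τ ζ) ^ 2 - 1 := by
  have e : 0 < 1 - τ ^ 2 := by nlinarith
  have e2 : 0 ≤ ζ ^ 2 - (1 - τ ^ 2) := by nlinarith
  have e3 : √(ζ ^ 2 - (1 - τ ^ 2)) ^ 2 = ζ ^ 2 - (1 - τ ^ 2) := Real.sq_sqrt e2
  obtain ⟨r, hr⟩ : ∃ r, r = √(ζ ^ 2 - (1 - τ ^ 2)) := ⟨_, rfl⟩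
  unfold Hlim
  rw [← hr] at e3 ⊢
  have e4 : 1 - τ ^ 2 ≠ 0 := e.ne'
  field_simp
  nlinarith [e3]

/-- The starting point of the martingale is bounded. -/
theorem ls_start {n : ℕ} (hn : 3 ≤ n) {τ ζ : ℝ} (h0 : 0 ≤ τ) (h1 : τ < 1) (hζ : 2 ≤ ζ) {s : ℕ} {δ : ℝ}
    (hδ : δ = Hlim τ ζ * n / (n.choose 2 : ℝ)) (hs : τ * (n.choose 2 : ℝ) - 1 ≤ s) (hs' : (s : ℝ) ≤ τ * (n.choose 2 : ℝ)) :
    |HH n (stair n) (n * ζ + δ * s) - Hlim τ ζ * n| ≤
      6 * (ζ + τ * Hlim τ ζ) + ((ζ + τ * Hlim τ ζ) + 1) / Hlim τ ζ := by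
  have hn0 : (3 : ℝ) ≤ n := by exact_mod_cast hn
  have hN : (n.choose 2 : ℝ) = n * (n - 1) / 2 := Nat.cast_choose_two ℝ n
  have hNpos : (0 : ℝ) < (n.choose 2 : ℝ) := by
    rw [hN]
    nlinarith
  have hh := Hlim_nonneg h0 h1 hζ
  have hsq := Hlim_sq h0 h1 hζ
  obtain ⟨h, hh'⟩ : ∃ h, h = Hlim τ ζ := ⟨_, rfl⟩
  rw [← hh'] at hh hsq hδ ⊢
  obtain ⟨y, hy⟩ : ∃ y, y = ζ + τ * h := ⟨_, rfl⟩
  rw [← hy] at hsq ⊢
  have hy2 : 2 ≤ y := by
    have : 0 ≤ τ * h := by positivity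
    linarith
  have hδ0 : 0 < δ := by
    rw [hδ]
    positivity
  have hδ3 : δ ≤ 3 * h / n := by
    rw [hδ, div_le_div_iff₀ hNpos (by positivity), hN]
    have : h * n * n ≤ 3 * h * (n * (n - 1) / 2) := by
      have : 0 ≤ h * n * (n - 3) := by
        apply mul_nonneg (by positivity)
        linarith
      nlinarith
    exact this
  have hδN : δ * (n.choose 2 : ℝ) = h * n := by
    rw [hδ]
    field_simp
  obtain ⟨z, hz⟩ : ∃ z, z = n * ζ + δ * s := ⟨_, rfl⟩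
  rw [← hz]
  have hzu : z ≤ n * y := by
    have : δ * s ≤ δ * (τ * (n.choose 2 : ℝ)) := mul_le_mul_of_nonneg_left hs' hδ0.le
    have e : δ * (τ * (n.choose 2 : ℝ)) = τ * (h * n) := by rw [← hδN]; ring
    rw [hz, hy]
    nlinarith
  have hzl : n * y - δ ≤ z := by
    have : δ * (τ * (n.choose 2 : ℝ) - 1) ≤ δ * s := mul_le_mul_of_nonneg_left hs hδ0.le
    have e : δ * (τ * (n.choose 2 : ℝ) - 1) = τ * (h * n) - δ := by rw [← hδN]; ring
    rw [hz, hy]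
    nlinarith
  have hzn : (n : ℝ) < z := by
    have e1 : (n : ℝ) * 2 ≤ n * ζ := mul_le_mul_of_nonneg_left hζ (by linarith)
    have e2 : 0 ≤ δ * s := by positivity
    rw [hz]
    linarith
  obtain ⟨b1, b2, b3⟩ := HH_stair_bounds (show 1 ≤ n by omega) hzn
  obtain ⟨B, hB⟩ : ∃ B, B = HH n (stair n) z := ⟨_, rfl⟩
  rw [← hB] at b1 b2 b3 ⊢
  have hnh : (0 : ℝ) < h * n := by positivity
  have hsq' : (h * n) ^ 2 = (n * y) ^ 2 - (n : ℝ) ^ 2 := by
    rw [mul_pow, hsq]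
    ring
  -- upper bound
  have up : B - h * n ≤ (y + 1) / h := by
    rcases le_or_gt B (h * n) with hc | hc
    · have : 0 ≤ (y + 1) / h := by positivity
      linarith
    · have e1 : B ^ 2 - (h * n) ^ 2 ≤ n * (y + 1) := by
        rw [hsq']
        have e2 : (z + n) * (z - n + 1) = z ^ 2 - (n : ℝ) ^ 2 + z + n := by ring
        have e3 : z ^ 2 ≤ (n * y) ^ 2 := by
          have : 0 ≤ z := by linarith
          gcongr
        rw [e2] at b2
        nlinarith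
      have e2 : (B - h * n) * (h * n) ≤ n * (y + 1) := by nlinarith
      rw [le_div_iff₀ hh]
      have e3 : (B - h * n) * h * n ≤ (y + 1) * n := by linarith
      exact le_of_mul_le_mul_right e3 (by linarith)
  have lo : h * n - B ≤ 6 * y := by
    rcases le_or_gt (h * n) B with hc | hc
    · linarith
    · have e1 : (h * n) ^ 2 - B ^ 2 ≤ 2 * (n * y) * δ := by
        rw [hsq']
        have e3 : (n * y - δ) ^ 2 ≤ z ^ 2 := by
          have e4 : 0 ≤ n * y - δ := by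
            have : 3 * h / n ≤ h := by
              rw [div_le_iff₀ (by linarith)]
              nlinarith
            have : h ≤ y := by
              have e5 : h ^ 2 ≤ y ^ 2 := by linarith
              exact le_of_sq_le_sq e5 (by linarith)
            nlinarith
          gcongr
        nlinarith [sq_nonneg δ]
      have e2 : (h * n - B) * (h * n) ≤ 2 * (n * y) * δ := by nlinarith
      have e3 : 2 * (n * y) * δ ≤ 2 * (n * y) * (3 * h / n) := mul_le_mul_of_nonneg_left hδ3 (by positivity)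
      have e4 : 2 * (n * y) * (3 * h / n) = 6 * y * h := by
        field_simp
        ring
      have e5 : (h * n - B) * (h * n) ≤ 6 * y * h := by linarith
      have e6 : (h * n - B) * (h * 1) ≤ (h * n - B) * (h * n) := by
        refine mul_le_mul_of_nonneg_left (mul_le_mul_of_nonneg_left (by linarith) hh.le) (by linarith)
      have e7 : (h * n - B) * h ≤ 6 * y * h := by linarith
      exact le_of_mul_le_mul_right e7 hh
  rw [abs_le]
  have p1 : 0 ≤ (y + 1) / h := by positivity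
  constructor <;> linarith

/-! ### The induction -/

theorem ls_AV_exp {n : ℕ} (hn : 3 ≤ n) {ζ δ Z h₀ θ : ℝ} (hζ : 2 ≤ ζ) (hδ : 0 ≤ δ) (hδ1 : δ ≤ 3 * h₀ / n)
    (hh₀ : 0 ≤ h₀) (hZ : 1 ≤ Z) (hθ : 0 ≤ θ) (hθ1 : 8 * θ * Z ^ 2 ≤ 1) {k s : ℕ}
    (hzZ : n * ζ + δ * s ≤ n * Z) (hδk : δ * ((s : ℝ) + k) ≤ n * Z) :
    ∀ j : ℕ, j ≤ s → ∀ lam : ℕ → ℕ, Shape n lam → (∀ i, lam i ≤ n - 1 - i) →
      ∑ i ∈ Finset.range n, lam i = j + k →
      AV n (fun lam => Real.exp (θ * Real.exp (-(9 * (s : ℝ) / (n : ℝ) ^ 2)) * (HH n lam (n * ζ) - δ * k) ^ 2)) j k lam ≤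
        Real.exp (θ * Real.exp (-(9 * ((s : ℝ) - j) / (n : ℝ) ^ 2)) *
          (HH n lam (n * ζ + δ * j) - δ * ((j : ℝ) + k)) ^ 2 +
          θ * (10 * (3 * h₀ * (3 * h₀ + 5)) ^ 2 + 8 * Z ^ 2) * j / (n : ℝ) ^ 2) * F n (j + k) lam := by
  have hn0 : (3 : ℝ) ≤ n := by exact_mod_cast hn
  obtain ⟨K, hK⟩ : ∃ K, K = 10 * (3 * h₀ * (3 * h₀ + 5)) ^ 2 + 8 * Z ^ 2 := ⟨_, rfl⟩
  have hK0 : 0 ≤ K := by
    rw [hK]
    positivity
  intro j
  induction j with
  | zero =>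
    intro _ lam _ _ _
    show Real.exp _ * _ ≤ _
    rw [Nat.zero_add]
    refine mul_le_mul_of_nonneg_right (Real.exp_le_exp.2 (le_of_eq ?_)) (Nat.cast_nonneg _)
    simp
  | succ j ih =>
    intro hj lam h hst hsum
    obtain ⟨V, hV⟩ : ∃ V : (ℕ → ℕ) → ℝ, V = fun lam =>
      Real.exp (θ * Real.exp (-(9 * (s : ℝ) / (n : ℝ) ^ 2)) * (HH n lam (n * ζ) - δ * k) ^ 2) := ⟨_, rfl⟩
    rw [← hV] at ih ⊢
    obtain ⟨z', hz'⟩ : ∃ z', z' = n * ζ + δ * j := ⟨_, rfl⟩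
    have hjs : ((j : ℝ) + 1) ≤ s := by exact_mod_cast hj
    have hj0 : (0 : ℝ) ≤ j := Nat.cast_nonneg j
    have hk0 : (0 : ℝ) ≤ k := Nat.cast_nonneg k
    have hz2 : 2 * (n : ℝ) ≤ z' := by
      rw [hz']
      have : 0 ≤ δ * j := by positivity
      nlinarith
    obtain ⟨β, hβ⟩ : ∃ β, β = Real.exp (-(9 * ((s : ℝ) - j) / (n : ℝ) ^ 2)) := ⟨_, rfl⟩
    have hβ0 : 0 < β := by
      rw [hβ]
      positivity
    have hβ1 : β ≤ 1 := by
      rw [hβ, Real.exp_le_one_iff, neg_nonpos]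
      apply div_nonneg _ (by positivity)
      linarith
    have hstep := ls_step hn h hst (k := j + 1 + k) (by omega) hsum (z' := z') (δ := δ) (Z := Z) hz2
      (by
        rw [hz']
        have : δ * ((j : ℝ) + 1) ≤ δ * s := mul_le_mul_of_nonneg_left hjs hδ
        linarith) hδ (h₀ := h₀) hδ1
      (by
        have : δ * (((j + 1 + k : ℕ)) : ℝ) ≤ δ * ((s : ℝ) + k) := by
          refine mul_le_mul_of_nonneg_left ?_ hδ
          push_cast
          linarith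
        linarith) hZ hh₀ (θ := θ * β) (mul_nonneg hθ hβ0.le)
      (by
        have e1 : 8 * (θ * β) * Z ^ 2 = (8 * θ * Z ^ 2) * β := by ring
        rw [e1]
        have e2 : 0 ≤ 8 * θ * Z ^ 2 := by positivity
        nlinarith)
    have hkk : ((j + 1 + k : ℕ) : ℝ) = ((j : ℝ) + 1) + k := by push_cast; ring
    -- the recursion
    have h1 : AV n V (j + 1) k lam ≤ ∑ α ∈ corners n lam,
        Real.exp (θ * β * (HH n (dec lam α) z' - δ * ((j : ℝ) + k)) ^ 2 + θ * K * j / (n : ℝ) ^ 2) *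
          F n (j + k) (dec lam α) := by
      show ∑ α ∈ corners n lam, AV n V j k (dec lam α) ≤ _
      refine Finset.sum_le_sum fun α hα => ?_
      have h' := shape_dec h hα
      have hst' : ∀ i, dec lam α i ≤ n - 1 - i := by
        intro i
        by_cases hi : i = α
        · rw [hi, dec_self]
          have := hst α
          omega
        · rw [dec_ne _ hi]
          exact hst i
      have hsum' : ∑ i ∈ Finset.range n, dec lam α i = j + k := by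
        have := sum_dec hα
        omega
      have := ih (by omega) (dec lam α) h' hst' hsum'
      rw [← hβ, ← hz', ← hK] at this
      exact this
    have h2 : ∀ α ∈ corners n lam, (F n (j + k) (dec lam α) : ℝ) =
        share n lam α / ((j + 1 + k : ℕ) : ℝ) * F n (j + 1 + k) lam := by
      intro α hα
      have e1 := corner_share h (k := j + k) (by rw [hsum]; ring) hα
      have e2 : ((j + 1 + k : ℕ) : ℝ) = ((j + k : ℕ) : ℝ) + 1 := by push_cast; ring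
      rw [show j + 1 + k = j + k + 1 by ring] at *
      rw [e2]
      have e3 : (((j + k : ℕ) : ℝ) + 1) ≠ 0 := by positivity
      rw [div_mul_eq_mul_div, eq_div_iff e3, mul_comm, e1]
    have h3 : ∑ α ∈ corners n lam,
        Real.exp (θ * β * (HH n (dec lam α) z' - δ * ((j : ℝ) + k)) ^ 2 + θ * K * j / (n : ℝ) ^ 2) *
          F n (j + k) (dec lam α) =
        Real.exp (θ * K * j / (n : ℝ) ^ 2) * (F n (j + 1 + k) lam) *
          ∑ α ∈ corners n lam, share n lam α / ((j + 1 + k : ℕ) : ℝ) *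
            Real.exp (θ * β * (HH n (dec lam α) z' - δ * (((j + 1 + k : ℕ) : ℝ) - 1)) ^ 2) := by
      rw [Finset.mul_sum]
      refine Finset.sum_congr rfl fun α hα => ?_
      rw [h2 α hα, Real.exp_add]
      have e1 : (((j + 1 + k : ℕ) : ℝ) - 1) = (j : ℝ) + k := by push_cast; ring
      rw [e1]
      ring
    rw [h3] at h1
    refine h1.trans ?_
    refine (mul_le_mul_of_nonneg_left hstep (by positivity)).trans ?_
    have e0 : z' + δ = n * ζ + δ * ((j + 1 : ℕ) : ℝ) := by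
      rw [hz']
      push_cast
      ring
    rw [e0, hkk]
    have e1 : Real.exp (θ * K * j / (n : ℝ) ^ 2) * (F n (j + 1 + k) lam) *
        Real.exp (θ * β * Real.exp (9 / (n : ℝ) ^ 2) * (HH n lam (n * ζ + δ * ((j + 1 : ℕ) : ℝ)) - δ * (((j : ℝ) + 1) + k)) ^ 2 +
        θ * β * (10 * (3 * h₀ * (3 * h₀ + 5)) ^ 2 + 8 * Z ^ 2) / (n : ℝ) ^ 2) =
        Real.exp (θ * K * j / (n : ℝ) ^ 2 + (θ * β * Real.exp (9 / (n : ℝ) ^ 2) * (HH n lam (n * ζ + δ * ((j + 1 : ℕ) : ℝ)) - δ * (((j : ℝ) + 1) + k)) ^ 2 +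
        θ * β * K / (n : ℝ) ^ 2)) * (F n (j + 1 + k) lam) := by
      rw [← hK, Real.exp_add (θ * K * j / (n : ℝ) ^ 2)]
      ring
    rw [e1]
    refine mul_le_mul_of_nonneg_right (Real.exp_le_exp.2 ?_) (Nat.cast_nonneg _)
    have e2 : β * Real.exp (9 / (n : ℝ) ^ 2) = Real.exp (-(9 * ((s : ℝ) - ((j + 1 : ℕ) : ℝ)) / (n : ℝ) ^ 2)) := by
      rw [hβ, ← Real.exp_add]
      congr 1
      push_cast
      field_simp
      ring
    rw [mul_assoc θ β, e2]
    have e3 : θ * β * K / (n : ℝ) ^ 2 ≤ θ * K / (n : ℝ) ^ 2 := by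
      refine div_le_div_of_nonneg_right ?_ (by positivity)
      have : 0 ≤ θ * K := by positivity
      nlinarith
    have e4 : θ * (10 * (3 * h₀ * (3 * h₀ + 5)) ^ 2 + 8 * Z ^ 2) * ((j + 1 : ℕ) : ℝ) / (n : ℝ) ^ 2 =
        θ * K * j / (n : ℝ) ^ 2 + θ * K / (n : ℝ) ^ 2 := by
      rw [← hK]
      push_cast
      ring
    rw [e4]
    have e5 : ((j + 1 : ℕ) : ℝ) + k = (j : ℝ) + 1 + k := by push_cast; ring
    rw [e5]
    linarith

open Classical in
/-- **Large deviations of the Stieltjes transform of the shape.** -/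
theorem hh_ld {τ ζ ε : ℝ} (h0 : 0 ≤ τ) (h1 : τ < 1) (hζ : 2 ≤ ζ) (hε : 0 < ε) :
    ∃ c > (0 : ℝ), ∃ n₀ : ℕ, ∀ n ≥ n₀, ∀ s k : ℕ, s + k = n.choose 2 →
      τ * (n.choose 2 : ℝ) - 1 ≤ s → (s : ℝ) ≤ τ * (n.choose 2 : ℝ) →
        (AQ n (fun lam => ε < |HH n lam (n * ζ) / n - (1 - τ) * Hlim τ ζ|) s k (stair n) : ℝ) ≤
          Real.exp (-c * (n : ℝ) ^ 2) * F n (n.choose 2) (stair n) := by
  have hh := Hlim_nonneg h0 h1 hζ
  obtain ⟨h, hh'⟩ : ∃ h, h = Hlim τ ζ := ⟨_, rfl⟩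
  obtain ⟨Z, hZ⟩ : ∃ Z, Z = ζ + h + 1 := ⟨_, rfl⟩
  obtain ⟨θ, hθ⟩ : ∃ θ, θ = 1 / (8 * Z ^ 2) := ⟨_, rfl⟩
  rw [← hh'] at hh
  have hZ1 : 1 ≤ Z := by
    rw [hZ]
    linarith
  have hθ0 : 0 < θ := by
    rw [hθ]
    positivity
  have hθ1 : 8 * θ * Z ^ 2 ≤ 1 := by
    rw [hθ]
    field_simp
    exact le_rfl
  obtain ⟨K, hK⟩ : ∃ K, K = 10 * (3 * h * (3 * h + 5)) ^ 2 + 8 * Z ^ 2 := ⟨_, rfl⟩
  have hK0 : 0 ≤ K := by
    rw [hK]
    positivity
  obtain ⟨C, hC⟩ : ∃ C, C = 6 * (ζ + τ * h) + ((ζ + τ * h) + 1) / h := ⟨_, rfl⟩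
  obtain ⟨b, hb⟩ : ∃ b, b = Real.exp (-(9 / 2)) := ⟨_, rfl⟩
  have hb0 : 0 < b := by
    rw [hb]
    positivity
  obtain ⟨c, hc⟩ : ∃ c, c = θ * b * ε ^ 2 / 8 := ⟨_, rfl⟩
  have hc0 : 0 < c := by
    rw [hc]
    positivity
  obtain ⟨A, hA⟩ : ∃ A, A = θ * C ^ 2 + θ * K := ⟨_, rfl⟩
  obtain ⟨n₁, hn₁⟩ := exists_nat_ge (A / c)
  obtain ⟨n₂, hn₂⟩ := exists_nat_ge (6 * h / ε)
  refine ⟨c, hc0, max 3 (max n₁ n₂), fun n hn s k hsk hs hs' => ?_⟩
  have hn3 : 3 ≤ n := le_trans (le_max_left _ _) hn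
  have hnn₁ : n₁ ≤ n := le_trans (le_trans (le_max_left _ _) (le_max_right _ _)) hn
  have hnn₂ : n₂ ≤ n := le_trans (le_trans (le_max_right _ _) (le_max_right _ _)) hn
  have hn0 : (3 : ℝ) ≤ n := by exact_mod_cast hn3
  have hN : (n.choose 2 : ℝ) = n * (n - 1) / 2 := Nat.cast_choose_two ℝ n
  have hNpos : (0 : ℝ) < (n.choose 2 : ℝ) := by
    rw [hN]
    nlinarith
  have hNle : (n.choose 2 : ℝ) ≤ (n : ℝ) ^ 2 / 2 := by
    rw [hN]
    nlinarith
  have hskr : (s : ℝ) + k = (n.choose 2 : ℝ) := by exact_mod_cast hsk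
  have hs0 : (0 : ℝ) ≤ s := Nat.cast_nonneg s
  have hk0 : (0 : ℝ) ≤ k := Nat.cast_nonneg k
  obtain ⟨δ, hδ⟩ : ∃ δ, δ = h * n / (n.choose 2 : ℝ) := ⟨_, rfl⟩
  have hδ0 : 0 < δ := by
    rw [hδ]
    positivity
  have hδ3 : δ ≤ 3 * h / n := by
    rw [hδ, div_le_div_iff₀ hNpos (by positivity), hN]
    have : h * n * n ≤ 3 * h * (n * (n - 1) / 2) := by
      have : 0 ≤ h * n * (n - 3) := by
        apply mul_nonneg (by positivity)
        linarith
      nlinarith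
    exact this
  have hδN : δ * (n.choose 2 : ℝ) = h * n := by
    rw [hδ]
    field_simp
  have hstart := ls_start hn3 h0 h1 hζ (s := s) (δ := δ) (by rw [hδ, hh']) hs hs'
  rw [← hh', ← hC] at hstart
  have hmain := ls_AV_exp hn3 hζ hδ0.le hδ3 hh.le hZ1 hθ0.le hθ1 (k := k) (s := s)
    (by
      have e1 : δ * s ≤ δ * (n.choose 2 : ℝ) := mul_le_mul_of_nonneg_left (by linarith) hδ0.le
      rw [hδN] at e1
      rw [hZ]
      nlinarith)
    (by
      rw [hskr, hδN, hZ]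
      nlinarith) s le_rfl (stair n) (shape_stair n) (fun i => le_rfl) (by rw [sum_stair]; exact hsk.symm)
  rw [sub_self, mul_zero, zero_div, neg_zero, Real.exp_zero, mul_one, hskr, hδN, ← hK, hsk] at hmain
  obtain ⟨β, hβ⟩ : ∃ β, β = Real.exp (-(9 * (s : ℝ) / (n : ℝ) ^ 2)) := ⟨_, rfl⟩
  rw [← hβ] at hmain
  have hβb : b ≤ β := by
    rw [hb, hβ]
    refine Real.exp_le_exp.2 (neg_le_neg ?_)
    rw [div_le_div_iff₀ (by positivity) (by norm_num)]
    nlinarith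
  -- the event
  obtain ⟨R, hR⟩ : ∃ R, R = θ * b * (ε * n / 2) ^ 2 := ⟨_, rfl⟩
  have hev : ∀ lam : ℕ → ℕ, ε < |HH n lam (n * ζ) / n - (1 - τ) * h| →
      1 ≤ Real.exp (-R) * Real.exp (θ * β * (HH n lam (n * ζ) - δ * k) ^ 2) := by
    intro lam hl
    have hk1 : |δ * k - (1 - τ) * h * n| ≤ 3 * h / n := by
      have e1 : (k : ℝ) = (n.choose 2 : ℝ) - s := by linarith
      have e2 : δ * k - (1 - τ) * h * n = δ * (τ * (n.choose 2 : ℝ) - s) := by
        rw [e1]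
        have : (1 - τ) * h * n = (1 - τ) * (δ * (n.choose 2 : ℝ)) := by rw [hδN]; ring
        rw [this]
        ring
      rw [e2, abs_of_nonneg (mul_nonneg hδ0.le (by linarith))]
      have : δ * (τ * (n.choose 2 : ℝ) - s) ≤ δ * 1 := mul_le_mul_of_nonneg_left (by linarith) hδ0.le
      linarith
    have hk2 : 3 * h / n ≤ ε * n / 2 := by
      rw [div_le_iff₀ (by positivity)]
      have e1 : 6 * h / ε ≤ n := hn₂.trans (by exact_mod_cast hnn₂)
      rw [div_le_iff₀ hε] at e1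
      nlinarith
    have hk3 : ε * n < |HH n lam (n * ζ) - (1 - τ) * h * n| := by
      have e1 : HH n lam (n * ζ) - (1 - τ) * h * n = (HH n lam (n * ζ) / n - (1 - τ) * h) * n := by
        field_simp
      rw [e1, abs_mul, abs_of_pos (show (0 : ℝ) < n by linarith)]
      exact mul_lt_mul_of_pos_right hl (by linarith)
    have hk4 : ε * n / 2 ≤ |HH n lam (n * ζ) - δ * k| := by
      have e1 : |HH n lam (n * ζ) - (1 - τ) * h * n| ≤ |HH n lam (n * ζ) - δ * k| + |δ * k - (1 - τ) * h * n| := by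
        have := abs_add_le (HH n lam (n * ζ) - δ * k) (δ * k - (1 - τ) * h * n)
        have e : HH n lam (n * ζ) - δ * k + (δ * k - (1 - τ) * h * n) = HH n lam (n * ζ) - (1 - τ) * h * n := by ring
        rw [e] at this
        exact this
      linarith
    have hk5 : (ε * n / 2) ^ 2 ≤ (HH n lam (n * ζ) - δ * k) ^ 2 := by
      rw [← sq_abs (HH n lam (n * ζ) - δ * k)]
      gcongr
    rw [← Real.exp_add, Real.one_le_exp_iff, hR]
    have hk6 : θ * b * (ε * n / 2) ^ 2 ≤ θ * β * (HH n lam (n * ζ) - δ * k) ^ 2 :=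
      mul_le_mul (mul_le_mul_of_nonneg_left hβb hθ0.le) hk5 (sq_nonneg _) (mul_nonneg hθ0.le (hb0.le.trans hβb))
    linarith
  have hAQ := AQ_le_AV (n := n) (Q := fun lam => ε < |HH n lam (n * ζ) / n - (1 - τ) * Hlim τ ζ|)
    (v := fun lam => Real.exp (-R) * Real.exp (θ * β * (HH n lam (n * ζ) - δ * k) ^ 2))
    (fun lam => by positivity) (fun _ _ => True) (fun _ _ _ _ _ => trivial)
    (fun lam _ hl => hev lam (by rw [hh']; exact hl)) s k (stair n) trivial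
  rw [lsAV_mul] at hAQ
  refine hAQ.trans ((mul_le_mul_of_nonneg_left hmain (Real.exp_pos _).le).trans ?_)
  rw [← mul_assoc, ← Real.exp_add]
  refine mul_le_mul_of_nonneg_right (Real.exp_le_exp.2 ?_) (Nat.cast_nonneg _)
  have e1 : (HH n (stair n) (n * ζ + δ * s) - h * n) ^ 2 ≤ C ^ 2 := by
    rw [← sq_abs]
    gcongr
  have e2 : θ * K * s / (n : ℝ) ^ 2 ≤ θ * K := by
    rw [div_le_iff₀ (by positivity)]
    have : 0 ≤ θ * K := by positivity
    have : (s : ℝ) ≤ (n : ℝ) ^ 2 := by nlinarith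
    exact mul_le_mul_of_nonneg_left this (by positivity)
  have e3 : θ * (HH n (stair n) (n * ζ + δ * s) - h * n) ^ 2 ≤ θ * C ^ 2 := mul_le_mul_of_nonneg_left e1 hθ0.le
  have e4 : A ≤ c * (n : ℝ) ^ 2 := by
    have e5 : A / c ≤ n := hn₁.trans (by exact_mod_cast hnn₁)
    rw [div_le_iff₀ hc0] at e5
    nlinarith
  have e6 : R = 2 * c * (n : ℝ) ^ 2 := by
    rw [hR, hc]
    ring
  rw [e6]
  linarith

end Pool.Agent.SNL63
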