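import Pool.Agent.SNL63.Kerov
import Pool.Agent.SNL63.Chern
import Pool.Agent.SNL63.PDefs

/-!
# One step along the characteristics

Along the
characteristics of the complex Burgers equation the function `HH` is nearly a martingale.
-/

namespace Pool.Agent.SNL63

open Pool.Agent.SN8 MeasureTheory Set Filter Topology
open scoped ENNReal Real

theorem lsAV_mono {n : ℕ} {V V' : (ℕ → ℕ) → ℝ} (h : ∀ lam, V lam ≤ V' lam) :
    ∀ (s k : ℕ) (lam : ℕ → ℕ), AV n V s k lam ≤ AV n V' s k lam := by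
  intro s
  induction s with
  | zero =>
    intro k lam
    exact mul_le_mul_of_nonneg_right (h lam) (Nat.cast_nonneg _)
  | succ s ih =>
    intro k lam
    exact Finset.sum_le_sum fun i _ => ih k _

theorem lsAV_mul {n : ℕ} {V : (ℕ → ℕ) → ℝ} (c : ℝ) :
    ∀ (s k : ℕ) (lam : ℕ → ℕ), AV n (fun l => c * V l) s k lam = c * AV n V s k lam := by
  intro s
  induction s with
  | zero =>
    intro k lam
    show c * V lam * F n k lam = c * (V lam * F n k lam)
    ring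
  | succ s ih =>
    intro k lam
    show ∑ i ∈ corners n lam, AV n (fun l => c * V l) s k (dec lam i) = c * ∑ i ∈ corners n lam, AV n V s k (dec lam i)
    rw [Finset.mul_sum]
    exact Finset.sum_congr rfl fun i _ => ih k _

/-! ### A Gaussian exponential moment -/

theorem gauss_step {ι : Type*} (s : Finset ι) (p x : ι → ℝ) (hp : ∀ i ∈ s, 0 ≤ p i) (hp1 : ∑ i ∈ s, p i = 1)
    {v C θ : ℝ} (hv : ∑ i ∈ s, p i * x i = v) (hx : ∀ i ∈ s, |x i - v| ≤ C) (hC : 0 ≤ C) (hθ : 0 ≤ θ)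
    (hθ1 : θ * (2 * |v| * C + C ^ 2) ≤ 1) :
    ∑ i ∈ s, p i * Real.exp (θ * x i ^ 2) ≤
      Real.exp (θ * (v ^ 2 * (1 + 8 * θ * C ^ 2) + C ^ 2 + 2 * θ * C ^ 4)) := by
  have hm : ∑ i ∈ s, p i * (x i - v) = 0 := by
    simp only [mul_sub]
    rw [Finset.sum_sub_distrib, hv, ← Finset.sum_mul, hp1, one_mul, sub_self]
  have h1 : ∀ i ∈ s, p i * Real.exp (θ * x i ^ 2) ≤
      Real.exp (θ * v ^ 2) * (p i * (1 + θ * C ^ 2 + 2 * θ ^ 2 * (4 * v ^ 2 * C ^ 2 + C ^ 4)) +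
        2 * θ * v * (p i * (x i - v))) := by
    intro i hi
    obtain ⟨m, hm'⟩ : ∃ m, m = x i - v := ⟨_, rfl⟩
    have hxm : x i = v + m := by rw [hm']; ring
    have hmC : |m| ≤ C := by
      rw [hm']
      exact hx i hi
    have hm2 : m ^ 2 ≤ C ^ 2 := by
      rw [← sq_abs]
      gcongr
    have hm4 : m ^ 4 ≤ C ^ 4 := by
      have : m ^ 4 = (m ^ 2) ^ 2 := by ring
      rw [this]
      calc (m ^ 2) ^ 2 ≤ (C ^ 2) ^ 2 := by gcongr
        _ = C ^ 4 := by ring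
    obtain ⟨y, hy⟩ : ∃ y, y = θ * (2 * v * m + m ^ 2) := ⟨_, rfl⟩
    have hy1 : |y| ≤ 1 := by
      rw [hy, abs_mul, abs_of_nonneg hθ]
      refine le_trans (mul_le_mul_of_nonneg_left ?_ hθ) hθ1
      refine (abs_add_le _ _).trans ?_
      rw [abs_mul, abs_mul, abs_two, abs_of_nonneg (sq_nonneg m)]
      have : |v| * |m| ≤ |v| * C := mul_le_mul_of_nonneg_left hmC (abs_nonneg v)
      nlinarith
    have hexp : Real.exp (θ * x i ^ 2) = Real.exp (θ * v ^ 2) * Real.exp y := by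
      rw [← Real.exp_add, hy, hxm]
      congr 1
      ring
    have h2 := chern_exp_le hy1
    have h3 : y ^ 2 ≤ 2 * θ ^ 2 * (4 * v ^ 2 * C ^ 2 + C ^ 4) := by
      have e1 : y ^ 2 ≤ 2 * θ ^ 2 * (4 * v ^ 2 * m ^ 2 + m ^ 4) := by
        rw [hy]
        nlinarith [sq_nonneg (θ * (2 * v * m - m ^ 2))]
      refine e1.trans (mul_le_mul_of_nonneg_left ?_ (by positivity))
      have : 4 * v ^ 2 * m ^ 2 ≤ 4 * v ^ 2 * C ^ 2 := mul_le_mul_of_nonneg_left hm2 (by positivity)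
      linarith
    have h4 : Real.exp y ≤ 1 + θ * C ^ 2 + 2 * θ ^ 2 * (4 * v ^ 2 * C ^ 2 + C ^ 4) + 2 * θ * v * m := by
      have e1 : y = 2 * θ * v * m + θ * m ^ 2 := by rw [hy]; ring
      have e2 : θ * m ^ 2 ≤ θ * C ^ 2 := mul_le_mul_of_nonneg_left hm2 hθ
      linarith
    rw [hexp, ← hm']
    have h5 : 0 ≤ p i * Real.exp (θ * v ^ 2) := mul_nonneg (hp i hi) (Real.exp_pos _).le
    calc p i * (Real.exp (θ * v ^ 2) * Real.exp y) = p i * Real.exp (θ * v ^ 2) * Real.exp y := by ring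
      _ ≤ p i * Real.exp (θ * v ^ 2) *
          (1 + θ * C ^ 2 + 2 * θ ^ 2 * (4 * v ^ 2 * C ^ 2 + C ^ 4) + 2 * θ * v * m) :=
        mul_le_mul_of_nonneg_left h4 h5
      _ = _ := by ring
  refine (Finset.sum_le_sum h1).trans ?_
  rw [← Finset.mul_sum, Finset.sum_add_distrib, ← Finset.sum_mul, hp1, ← Finset.mul_sum, hm, mul_zero, add_zero,
    one_mul]
  have h2 : 1 + θ * C ^ 2 + 2 * θ ^ 2 * (4 * v ^ 2 * C ^ 2 + C ^ 4) ≤
      Real.exp (θ * C ^ 2 + 2 * θ ^ 2 * (4 * v ^ 2 * C ^ 2 + C ^ 4)) := by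
    have := Real.add_one_le_exp (θ * C ^ 2 + 2 * θ ^ 2 * (4 * v ^ 2 * C ^ 2 + C ^ 4))
    linarith
  calc _ ≤ Real.exp (θ * v ^ 2) * Real.exp (θ * C ^ 2 + 2 * θ ^ 2 * (4 * v ^ 2 * C ^ 2 + C ^ 4)) :=
        mul_le_mul_of_nonneg_left h2 (Real.exp_pos _).le
    _ = _ := by
      rw [← Real.exp_add]
      congr 1
      ring

/-! ### One removal -/

section
variable {n : ℕ} {lam : ℕ → ℕ}

theorem ls_content_le (hst : ∀ i, lam i ≤ n - 1 - i) (α : ℕ) : (lam α : ℝ) - 1 - α ≤ n := by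
  have h2 : (lam α : ℝ) ≤ n := by
    have := hst α
    have : lam α ≤ n := by omega
    exact_mod_cast this
  have : (0 : ℝ) ≤ α := Nat.cast_nonneg α
  linarith

theorem ls_lam0 (hn : 1 ≤ n) (hst : ∀ i, lam i ≤ n - 1 - i) {z : ℝ} (hz : 2 * (n : ℝ) ≤ z) : (lam 0 : ℝ) < z := by
  have h2 : (lam 0 : ℝ) ≤ n := by
    have := hst 0
    have : lam 0 ≤ n := by omega
    exact_mod_cast this
  have : (1 : ℝ) ≤ n := by exact_mod_cast hn
  linarith

/-- `HH` at two points. -/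
theorem ls_HH_diff (hn : 1 ≤ n) (h : Shape n lam) (hst : ∀ i, lam i ≤ n - 1 - i) {z' δ : ℝ} (hz : 2 * (n : ℝ) ≤ z')
    (hδ : 0 ≤ δ) :
    HH n lam z' = HH n lam (z' + δ) - δ * (1 + ∑ α ∈ corners n lam,
      share n lam α / ((z' + δ - ((lam α : ℝ) - 1 - α)) * (z' - ((lam α : ℝ) - 1 - α)))) := by
  have h1 := kerov h (ls_lam0 hn hst hz)
  have h2 := kerov h (ls_lam0 hn hst (show 2 * (n : ℝ) ≤ z' + δ by linarith))
  have hn0 : (1 : ℝ) ≤ n := by exact_mod_cast hn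
  have h3 : ∑ α ∈ corners n lam, share n lam α / (z' - ((lam α : ℝ) - 1 - α)) -
      ∑ α ∈ corners n lam, share n lam α / (z' + δ - ((lam α : ℝ) - 1 - α)) =
      δ * ∑ α ∈ corners n lam,
        share n lam α / ((z' + δ - ((lam α : ℝ) - 1 - α)) * (z' - ((lam α : ℝ) - 1 - α))) := by
    rw [← Finset.sum_sub_distrib, Finset.mul_sum]
    refine Finset.sum_congr rfl fun α _ => ?_
    have e1 := ls_content_le hst α
    have e2 : z' - ((lam α : ℝ) - 1 - α) ≠ 0 := by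
      have : 0 < z' - ((lam α : ℝ) - 1 - α) := by linarith
      exact this.ne'
    have e3 : z' + δ - ((lam α : ℝ) - 1 - α) ≠ 0 := by
      have : 0 < z' + δ - ((lam α : ℝ) - 1 - α) := by linarith
      exact this.ne'
    field_simp
    ring
  rw [h1, h2] at h3
  linarith

/-- The main computation: one removal and one step along the characteristic. -/
theorem ls_step (hn : 3 ≤ n) (h : Shape n lam) (hst : ∀ i, lam i ≤ n - 1 - i) {k : ℕ} (hk : 1 ≤ k)
    (hsum : ∑ i ∈ Finset.range n, lam i = k) {z' δ Z : ℝ} (hz : 2 * (n : ℝ) ≤ z') (hzZ : z' + δ ≤ n * Z) (hδ : 0 ≤ δ)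
    {h₀ : ℝ} (hδ1 : δ ≤ 3 * h₀ / n) (hδk : δ * k ≤ n * Z) (hZ : 1 ≤ Z) (hh₀ : 0 ≤ h₀) {θ : ℝ} (hθ : 0 ≤ θ)
    (hθ1 : 8 * θ * Z ^ 2 ≤ 1) :
    ∑ α ∈ corners n lam, share n lam α / k * Real.exp (θ * (HH n (dec lam α) z' - δ * (k - 1)) ^ 2) ≤
      Real.exp (θ * Real.exp (9 / (n : ℝ) ^ 2) * (HH n lam (z' + δ) - δ * k) ^ 2 +
        (θ * (10 * (3 * h₀ * (3 * h₀ + 5)) ^ 2 + 8 * Z ^ 2)) / (n : ℝ) ^ 2) := by
  have hn0 : (3 : ℝ) ≤ n := by exact_mod_cast hn
  have hk0 : (1 : ℝ) ≤ k := by exact_mod_cast hk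
  have hkpos : (0 : ℝ) < k := by linarith
  have hn2 : (9 : ℝ) ≤ (n : ℝ) ^ 2 := by nlinarith
  have hkn : (k : ℝ) ≤ (n : ℝ) ^ 2 / 2 := by
    have e1 : ∑ i ∈ Finset.range n, lam i ≤ n.choose 2 := by
      rw [← sum_stair]
      exact Finset.sum_le_sum fun i _ => hst i
    rw [hsum] at e1
    have e2 : (k : ℝ) ≤ (n.choose 2 : ℝ) := by exact_mod_cast e1
    rw [Nat.cast_choose_two] at e2
    nlinarith
  have hshare : ∑ α ∈ corners n lam, share n lam α = k := by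
    rw [sum_share h, ← hsum]
    push_cast
    rfl
  -- notation
  obtain ⟨X, hX⟩ : ∃ X : ℕ → ℝ, X = fun α => z' - ((lam α : ℝ) - 1 - α) := ⟨_, rfl⟩
  have hXn : ∀ α, (n : ℝ) ≤ X α := by
    intro α
    have := ls_content_le hst α
    rw [hX]
    simp only
    linarith
  have hX2 : ∀ α, (n : ℝ) ^ 2 ≤ X α ^ 2 := fun α => by
    have := hXn α
    gcongr
  have hr0 : ∀ α, 0 ≤ 1 / (X α ^ 2 - 1) := fun α => by
    have := hX2 α
    exact one_div_nonneg.2 (by linarith)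
  have hr1 : ∀ α, 1 / (X α ^ 2 - 1) ≤ 2 / (n : ℝ) ^ 2 := by
    intro α
    have := hX2 α
    rw [div_le_div_iff₀ (by linarith) (by positivity)]
    linarith
  obtain ⟨Q, hQ⟩ : ∃ Q, Q = HH n lam z' := ⟨_, rfl⟩
  have hdec : ∀ α ∈ corners n lam, HH n (dec lam α) z' = Q * (1 + 1 / (X α ^ 2 - 1)) := by
    intro α hα
    rw [HH_dec h hα (ls_lam0 (by omega) hst hz), hQ, hX]
    simp only
    congr 1
    have := hX2 α
    rw [hX] at this
    simp only at this
    have e1 : (z' - ((lam α : ℝ) - 1 - α)) ^ 2 - 1 ≠ 0 := by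
      have : 0 < (z' - ((lam α : ℝ) - 1 - α)) ^ 2 - 1 := by linarith
      exact this.ne'
    field_simp
    ring
  have hke := kerov h (ls_lam0 (by omega) hst hz)
  have hkp : ∀ α ∈ corners n lam, 0 ≤ share n lam α / (z' - ((lam α : ℝ) - 1 - α)) := fun α _ => by
    have := hXn α
    rw [hX] at this
    simp only at this
    exact div_nonneg (share_pos n lam α).le (by linarith)
  have hQz : Q ≤ z' := by
    rw [hQ]
    have := Finset.sum_nonneg hkp
    rw [hke] at this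
    linarith
  have hQ0 : 0 ≤ Q := by
    have e1 : ∑ α ∈ corners n lam, share n lam α / (z' - ((lam α : ℝ) - 1 - α)) ≤ k / n := by
      rw [← hshare, Finset.sum_div]
      refine Finset.sum_le_sum fun α _ => ?_
      have := hXn α
      rw [hX] at this
      simp only at this
      exact div_le_div_of_nonneg_left (share_pos n lam α).le (by linarith) this
    rw [hke] at e1
    have e2 : (k : ℝ) / n ≤ n := by
      rw [div_le_iff₀ (by linarith)]
      nlinarith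
    rw [hQ]
    linarith
  obtain ⟨S, hS⟩ : ∃ S, S = ∑ α ∈ corners n lam,
    share n lam α / ((z' + δ - ((lam α : ℝ) - 1 - α)) * (z' - ((lam α : ℝ) - 1 - α))) := ⟨_, rfl⟩
  obtain ⟨Sr, hSr⟩ : ∃ Sr, Sr = ∑ α ∈ corners n lam, share n lam α * (1 / (X α ^ 2 - 1)) := ⟨_, rfl⟩
  have hdiff := ls_HH_diff (n := n) (by omega) h hst hz hδ
  rw [← hQ, ← hS] at hdiff
  obtain ⟨G, hG⟩ : ∃ G, G = HH n lam (z' + δ) - δ * k := ⟨_, rfl⟩
  have hSr0 : 0 ≤ Sr := by
    rw [hSr]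
    exact Finset.sum_nonneg fun α _ => mul_nonneg (share_pos n lam α).le (hr0 α)
  have hSrk : Sr ≤ k * (2 / (n : ℝ) ^ 2) := by
    rw [hSr, ← hshare, Finset.sum_mul]
    exact Finset.sum_le_sum fun α _ => mul_le_mul_of_nonneg_left (hr1 α) (share_pos n lam α).le
  have hS0 : 0 ≤ S := by
    rw [hS]
    refine Finset.sum_nonneg fun α _ => ?_
    have := hXn α
    rw [hX] at this
    simp only at this
    exact div_nonneg (share_pos n lam α).le (mul_nonneg (by linarith) (by linarith))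
  have hS1 : S ≤ 1 := by
    have e1 : S ≤ k * (1 / (n : ℝ) ^ 2) := by
      rw [hS, ← hshare, Finset.sum_mul]
      refine Finset.sum_le_sum fun α _ => ?_
      have := hXn α
      rw [hX] at this
      simp only at this
      rw [mul_one_div]
      refine div_le_div_of_nonneg_left (share_pos n lam α).le (by positivity) ?_
      rw [sq]
      exact mul_le_mul (by linarith) this (by linarith) (by linarith)
    refine e1.trans ?_
    rw [mul_one_div, div_le_one (by positivity)]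
    linarith
  have hSS : |Sr - S| ≤ (3 * h₀ + 1) / (n : ℝ) ^ 2 := by
    have e1 : Sr - S = ∑ α ∈ corners n lam, share n lam α *
        ((δ * X α + 1) / ((X α ^ 2 - 1) * ((X α + δ) * X α))) := by
      rw [hSr, hS, ← Finset.sum_sub_distrib]
      refine Finset.sum_congr rfl fun α _ => ?_
      have e2 := hX2 α
      have e3 := hXn α
      have e4 : z' + δ - ((lam α : ℝ) - 1 - α) = X α + δ := by
        rw [hX]
        ring
      have e5 : z' - ((lam α : ℝ) - 1 - α) = X α := by rw [hX]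
      rw [e4, e5]
      have e6 : X α ^ 2 - 1 ≠ 0 := by
        have : 0 < X α ^ 2 - 1 := by linarith
        exact this.ne'
      have e7 : X α ≠ 0 := by
        have : 0 < X α := by linarith
        exact this.ne'
      have e8 : X α + δ ≠ 0 := by
        have : 0 < X α + δ := by linarith
        exact this.ne'
      field_simp
      ring
    have e2 : ∀ α ∈ corners n lam, 0 ≤ (δ * X α + 1) / ((X α ^ 2 - 1) * ((X α + δ) * X α)) ∧
        (δ * X α + 1) / ((X α ^ 2 - 1) * ((X α + δ) * X α)) ≤ (6 * h₀ + 2) / (n : ℝ) ^ 4 := by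
      intro α _
      have e3 := hXn α
      have e4 := hX2 α
      have e5 : 0 < X α := by linarith
      constructor
      · refine div_nonneg (by positivity) (mul_nonneg (by linarith) (by positivity))
      · have e6 : (δ * X α + 1) / ((X α ^ 2 - 1) * ((X α + δ) * X α)) ≤ (δ * X α + 1) / (X α ^ 2 / 2 * (X α * X α)) := by
          refine div_le_div_of_nonneg_left (by positivity) (by positivity) ?_
          refine mul_le_mul (by linarith) ?_ (by positivity) (by linarith)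
          exact mul_le_mul_of_nonneg_right (by linarith) e5.le
        refine e6.trans ?_
        have e7 : (δ * X α + 1) / (X α ^ 2 / 2 * (X α * X α)) = 2 * δ / X α ^ 3 + 2 / X α ^ 4 := by
          field_simp
        rw [e7]
        have e8 : 2 * δ / X α ^ 3 ≤ 2 * (3 * h₀ / n) / (n : ℝ) ^ 3 := by
          refine div_le_div₀ (by positivity) (by linarith) (by positivity) ?_
          gcongr
        have e9 : 2 / X α ^ 4 ≤ 2 / (n : ℝ) ^ 4 := by
          refine div_le_div_of_nonneg_left (by norm_num) (by positivity) ?_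
          gcongr
        have e10 : 2 * (3 * h₀ / n) / (n : ℝ) ^ 3 + 2 / (n : ℝ) ^ 4 = (6 * h₀ + 2) / (n : ℝ) ^ 4 := by
          field_simp
          ring
        linarith
    have e3 : 0 ≤ Sr - S := by
      rw [e1]
      exact Finset.sum_nonneg fun α hα => mul_nonneg (share_pos n lam α).le (e2 α hα).1
    rw [abs_of_nonneg e3, e1]
    refine (Finset.sum_le_sum fun α hα => mul_le_mul_of_nonneg_left (e2 α hα).2 (share_pos n lam α).le).trans ?_
    rw [← Finset.sum_mul, hshare]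
    have e4 : (k : ℝ) * ((6 * h₀ + 2) / (n : ℝ) ^ 4) ≤ (n : ℝ) ^ 2 / 2 * ((6 * h₀ + 2) / (n : ℝ) ^ 4) :=
      mul_le_mul_of_nonneg_right hkn (by positivity)
    refine e4.trans (le_of_eq ?_)
    field_simp
    ring
  -- the mean
  obtain ⟨v, hv⟩ : ∃ v, v = ∑ α ∈ corners n lam, share n lam α / k * (HH n (dec lam α) z' - δ * (k - 1)) := ⟨_, rfl⟩
  have hp1 : ∑ α ∈ corners n lam, share n lam α / k = 1 := by
    rw [← Finset.sum_div, hshare, div_self hkpos.ne']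
  have hv1 : v = Q * (1 + Sr / k) - δ * (k - 1) := by
    rw [hv]
    have e1 : ∀ α ∈ corners n lam, share n lam α / k * (HH n (dec lam α) z' - δ * (k - 1)) =
        share n lam α / k * (Q - δ * (k - 1)) + Q / k * (share n lam α * (1 / (X α ^ 2 - 1))) := by
      intro α hα
      rw [hdec α hα]
      ring
    rw [Finset.sum_congr rfl e1, Finset.sum_add_distrib, ← Finset.sum_mul, hp1, ← Finset.mul_sum, ← hSr]
    ring
  have hv2 : v = G * (1 + Sr / k) + (δ * (Sr - S) - δ * (1 + S) * (Sr / k)) := by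
    rw [hv1, hG, hdiff]
    field_simp
    ring
  have ha : Sr / k ≤ 2 / (n : ℝ) ^ 2 := by
    rw [div_le_iff₀ hkpos]
    linarith
  have ha0 : 0 ≤ Sr / k := by positivity
  obtain ⟨Ce, hCe⟩ : ∃ Ce, Ce = 3 * h₀ * (3 * h₀ + 5) := ⟨_, rfl⟩
  have hCe0 : 0 ≤ Ce := by
    rw [hCe]
    positivity
  obtain ⟨e, he⟩ : ∃ e, e = δ * (Sr - S) - δ * (1 + S) * (Sr / k) := ⟨_, rfl⟩
  have he1 : |e| ≤ Ce / (n : ℝ) ^ 3 := by
    rw [he]
    have e1 : |δ * (Sr - S) - δ * (1 + S) * (Sr / k)| ≤ δ * |Sr - S| + δ * (1 + S) * (Sr / k) := by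
      refine (abs_sub _ _).trans ?_
      rw [abs_mul, abs_of_nonneg hδ, abs_of_nonneg (show 0 ≤ δ * (1 + S) * (Sr / k) by positivity)]
    have e2 : δ * |Sr - S| ≤ δ * ((3 * h₀ + 1) / (n : ℝ) ^ 2) := mul_le_mul_of_nonneg_left hSS hδ
    have e3 : δ * (1 + S) * (Sr / k) ≤ δ * 2 * (2 / (n : ℝ) ^ 2) := by
      refine mul_le_mul (mul_le_mul_of_nonneg_left (by linarith) hδ) ha ha0 (by positivity)
    have e4 : δ * ((3 * h₀ + 1) / (n : ℝ) ^ 2) + δ * 2 * (2 / (n : ℝ) ^ 2) = δ * ((3 * h₀ + 5) / (n : ℝ) ^ 2) := by ring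
    have e5 : δ * ((3 * h₀ + 5) / (n : ℝ) ^ 2) ≤ 3 * h₀ / n * ((3 * h₀ + 5) / (n : ℝ) ^ 2) :=
      mul_le_mul_of_nonneg_right hδ1 (by positivity)
    have e6 : 3 * h₀ / n * ((3 * h₀ + 5) / (n : ℝ) ^ 2) = Ce / (n : ℝ) ^ 3 := by
      rw [hCe]
      field_simp
    linarith
  rw [← he] at hv2
  -- the bounds for the Gaussian step
  have hGk : ∀ α ∈ corners n lam, |HH n (dec lam α) z' - δ * (k - 1) - v| ≤ 2 * Z / n := by
    intro α hα
    have e1 : HH n (dec lam α) z' - δ * (k - 1) - v = Q * (1 / (X α ^ 2 - 1) - Sr / k) := by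
      rw [hdec α hα, hv1]
      ring
    rw [e1, abs_mul, abs_of_nonneg hQ0]
    have e2 : |1 / (X α ^ 2 - 1) - Sr / k| ≤ 2 / (n : ℝ) ^ 2 := by
      rw [abs_le]
      have := hr0 α
      have := hr1 α
      constructor <;> linarith
    calc Q * |1 / (X α ^ 2 - 1) - Sr / k| ≤ (n * Z) * (2 / (n : ℝ) ^ 2) :=
          mul_le_mul (by linarith) e2 (abs_nonneg _) (by positivity)
      _ = 2 * Z / n := by
        field_simp
  have hvb : |v| ≤ n * Z := by
    have e0 : 1 + Sr / k ≤ 2 := by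
      have : 2 / (n : ℝ) ^ 2 ≤ 1 := by
        rw [div_le_one (by positivity)]
        linarith
      linarith
    -- each value is between `-nZ` and `nZ`
    have e1 : ∀ α ∈ corners n lam, |HH n (dec lam α) z' - δ * (k - 1)| ≤ n * Z := by
      intro α hα
      have h' := shape_dec h hα
      have hst' : ∀ j, dec lam α j ≤ n - 1 - j := by
        intro j
        by_cases hj : j = α
        · rw [hj, dec_self]
          have := hst α
          omega
        · rw [dec_ne _ hj]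
          exact hst j
      have hke' := kerov h' (ls_lam0 (by omega) hst' hz)
      have e2 : 0 ≤ ∑ β ∈ corners n (dec lam α), share n (dec lam α) β / (z' - ((dec lam α β : ℝ) - 1 - β)) := by
        refine Finset.sum_nonneg fun β _ => div_nonneg (share_pos _ _ _).le ?_
        have := ls_content_le hst' β
        linarith
      rw [hke'] at e2
      have e3 : 0 ≤ HH n (dec lam α) z' := by
        rw [hdec α hα]
        have := hr0 α
        positivity
      have e4 : 0 ≤ δ * ((k : ℝ) - 1) := mul_nonneg hδ (by linarith)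
      have e5 : δ * ((k : ℝ) - 1) ≤ δ * k := mul_le_mul_of_nonneg_left (by linarith) hδ
      rw [abs_le]
      constructor <;> linarith
    rw [hv]
    refine (Finset.abs_sum_le_sum_abs _ _).trans ?_
    have e2 : ∀ α ∈ corners n lam, |share n lam α / k * (HH n (dec lam α) z' - δ * (k - 1))| ≤
        share n lam α / k * (n * Z) := by
      intro α hα
      have e3 : 0 ≤ share n lam α / k := div_nonneg (share_pos n lam α).le hkpos.le
      rw [abs_mul, abs_of_nonneg e3]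
      exact mul_le_mul_of_nonneg_left (e1 α hα) e3
    refine (Finset.sum_le_sum e2).trans ?_
    rw [← Finset.sum_mul, hp1, one_mul]
  have hC0 : 0 ≤ 2 * Z / n := by positivity
  have hθ2 : θ * (2 * |v| * (2 * Z / n) + (2 * Z / n) ^ 2) ≤ 1 := by
    have e1 : 2 * |v| * (2 * Z / n) ≤ 4 * Z ^ 2 := by
      calc 2 * |v| * (2 * Z / n) ≤ 2 * (n * Z) * (2 * Z / n) := by gcongr
        _ = 4 * Z ^ 2 := by
          field_simp
          ring
    have e2 : (2 * Z / n) ^ 2 ≤ 4 * Z ^ 2 := by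
      rw [div_pow, div_le_iff₀ (by positivity)]
      nlinarith [sq_nonneg Z]
    calc θ * (2 * |v| * (2 * Z / n) + (2 * Z / n) ^ 2) ≤ θ * (4 * Z ^ 2 + 4 * Z ^ 2) :=
          mul_le_mul_of_nonneg_left (by linarith) hθ
      _ = 8 * θ * Z ^ 2 := by ring
      _ ≤ 1 := hθ1
  have hmain := gauss_step (corners n lam) (fun α => share n lam α / k)
    (fun α => HH n (dec lam α) z' - δ * (k - 1)) (fun α _ => div_nonneg (share_pos n lam α).le hkpos.le) hp1 hv.symm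
    hGk hC0 hθ hθ2
  refine hmain.trans (Real.exp_le_exp.2 ?_)
  rw [← hG, ← hCe]
  -- arithmetic
  obtain ⟨ν, hν⟩ : ∃ ν, ν = 1 / (n : ℝ) ^ 2 := ⟨_, rfl⟩
  have hν0 : 0 < ν := by
    rw [hν]
    positivity
  have hν1 : ν ≤ 1 := by
    rw [hν, div_le_one (by positivity)]
    linarith
  have hC2 : (2 * Z / n) ^ 2 = 4 * Z ^ 2 * ν := by
    rw [hν]
    field_simp
    ring
  have hC4 : (2 * Z / n) ^ 4 = 16 * Z ^ 4 * ν ^ 2 := by
    rw [hν]
    field_simp
    ring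
  rw [hC2, hC4]
  have e1 : 8 * θ * (4 * Z ^ 2 * ν) ≤ 4 * ν := by
    have : 8 * θ * (4 * Z ^ 2 * ν) = 8 * θ * Z ^ 2 * (4 * ν) := by ring
    rw [this]
    have : 8 * θ * Z ^ 2 * (4 * ν) ≤ 1 * (4 * ν) := mul_le_mul_of_nonneg_right hθ1 (by positivity)
    linarith
  have e2 : 2 * θ * (16 * Z ^ 4 * ν ^ 2) ≤ 4 * Z ^ 2 * ν := by
    have e3 : 2 * θ * (16 * Z ^ 4 * ν ^ 2) = 8 * θ * Z ^ 2 * (4 * Z ^ 2 * ν ^ 2) := by ring
    rw [e3]
    have e4 : 8 * θ * Z ^ 2 * (4 * Z ^ 2 * ν ^ 2) ≤ 1 * (4 * Z ^ 2 * ν ^ 2) :=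
      mul_le_mul_of_nonneg_right hθ1 (by positivity)
    have e5 : 4 * Z ^ 2 * ν ^ 2 ≤ 4 * Z ^ 2 * ν := by
      have : ν ^ 2 ≤ ν := by nlinarith
      exact mul_le_mul_of_nonneg_left this (by positivity)
    linarith
  have e3 : v ^ 2 ≤ G ^ 2 * ((1 + 2 * ν) ^ 2 * (1 + ν)) + 2 * Ce ^ 2 * ν := by
    obtain ⟨g, hg⟩ : ∃ g, g = G * (1 + Sr / k) := ⟨_, rfl⟩
    rw [hv2, ← hg]
    have f1 : (g + e) ^ 2 ≤ g ^ 2 * (1 + ν) + e ^ 2 * (1 + (n : ℝ) ^ 2) := by
      have f2 : 2 * (g * e) ≤ g ^ 2 * ν + e ^ 2 * (n : ℝ) ^ 2 := by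
        have f3 : 0 ≤ (g / n - e * n) ^ 2 := sq_nonneg _
        have f4 : (g / n - e * n) ^ 2 = g ^ 2 * ν + e ^ 2 * (n : ℝ) ^ 2 - 2 * (g * e) := by
          rw [hν]
          field_simp
          ring
        linarith
      nlinarith
    have f5 : g ^ 2 ≤ G ^ 2 * (1 + 2 * ν) ^ 2 := by
      rw [hg, mul_pow]
      refine mul_le_mul_of_nonneg_left ?_ (sq_nonneg G)
      have : Sr / k ≤ 2 * ν := by
        rw [hν]
        have : 2 * (1 / (n : ℝ) ^ 2) = 2 / (n : ℝ) ^ 2 := by ring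
        rw [this]
        exact ha
      gcongr
    have f6 : e ^ 2 * (1 + (n : ℝ) ^ 2) ≤ 2 * Ce ^ 2 * ν := by
      have f7 : e ^ 2 ≤ (Ce / (n : ℝ) ^ 3) ^ 2 := by
        rw [← sq_abs]
        gcongr
      have f8 : (1 + (n : ℝ) ^ 2) ≤ 2 * (n : ℝ) ^ 2 := by linarith
      calc e ^ 2 * (1 + (n : ℝ) ^ 2) ≤ (Ce / (n : ℝ) ^ 3) ^ 2 * (2 * (n : ℝ) ^ 2) :=
            mul_le_mul f7 f8 (by positivity) (by positivity)
        _ = 2 * Ce ^ 2 * (ν * ν) := by
          rw [hν]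
          field_simp
        _ ≤ 2 * Ce ^ 2 * ν := by
          refine mul_le_mul_of_nonneg_left ?_ (by positivity)
          nlinarith
    have f9 : g ^ 2 * (1 + ν) ≤ G ^ 2 * (1 + 2 * ν) ^ 2 * (1 + ν) := mul_le_mul_of_nonneg_right f5 (by linarith)
    linarith
  have e4 : (1 + 2 * ν) ^ 2 * (1 + ν) * (1 + 4 * ν) ≤ Real.exp (9 / (n : ℝ) ^ 2) := by
    have g1 : 1 + 2 * ν ≤ Real.exp (2 * ν) := by
      have := Real.add_one_le_exp (2 * ν)
      linarith
    have g2 : 1 + ν ≤ Real.exp ν := by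
      have := Real.add_one_le_exp ν
      linarith
    have g3 : 1 + 4 * ν ≤ Real.exp (4 * ν) := by
      have := Real.add_one_le_exp (4 * ν)
      linarith
    calc (1 + 2 * ν) ^ 2 * (1 + ν) * (1 + 4 * ν) ≤ Real.exp (2 * ν) ^ 2 * Real.exp ν * Real.exp (4 * ν) := by
          gcongr
      _ = Real.exp (9 / (n : ℝ) ^ 2) := by
        rw [← Real.exp_nat_mul, ← Real.exp_add, ← Real.exp_add, hν]
        congr 1
        push_cast
        ring
  have e5 : v ^ 2 * (1 + 8 * θ * (4 * Z ^ 2 * ν)) ≤ G ^ 2 * Real.exp (9 / (n : ℝ) ^ 2) + 10 * Ce ^ 2 * ν := by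
    have f1 : v ^ 2 * (1 + 8 * θ * (4 * Z ^ 2 * ν)) ≤ v ^ 2 * (1 + 4 * ν) :=
      mul_le_mul_of_nonneg_left (by linarith) (sq_nonneg v)
    have f2 : v ^ 2 * (1 + 4 * ν) ≤ (G ^ 2 * ((1 + 2 * ν) ^ 2 * (1 + ν)) + 2 * Ce ^ 2 * ν) * (1 + 4 * ν) :=
      mul_le_mul_of_nonneg_right e3 (by linarith)
    have f3 : G ^ 2 * ((1 + 2 * ν) ^ 2 * (1 + ν) * (1 + 4 * ν)) ≤ G ^ 2 * Real.exp (9 / (n : ℝ) ^ 2) :=
      mul_le_mul_of_nonneg_left e4 (sq_nonneg G)
    have f4 : 2 * Ce ^ 2 * ν * (1 + 4 * ν) ≤ 2 * Ce ^ 2 * ν * 5 :=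
      mul_le_mul_of_nonneg_left (by linarith) (by positivity)
    nlinarith
  have e6 : (θ * (10 * Ce ^ 2 + 8 * Z ^ 2)) / (n : ℝ) ^ 2 = θ * (10 * Ce ^ 2 * ν + 8 * Z ^ 2 * ν) := by
    rw [hν]
    ring
  rw [e6]
  have e7 : θ * (v ^ 2 * (1 + 8 * θ * (4 * Z ^ 2 * ν)) + 4 * Z ^ 2 * ν + 2 * θ * (16 * Z ^ 4 * ν ^ 2)) ≤
      θ * (G ^ 2 * Real.exp (9 / (n : ℝ) ^ 2) + 10 * Ce ^ 2 * ν + 4 * Z ^ 2 * ν + 4 * Z ^ 2 * ν) :=
    mul_le_mul_of_nonneg_left (by linarith) hθ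
  refine e7.trans (le_of_eq ?_)
  ring

end

end Pool.Agent.SNL63
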