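import Pool.Agent.SNL63.LlDefs
import Pool.Agent.SNL63.DoFast

/-!
The weighted number of words, and the sum of the displacements.
-/

namespace Pool.Agent.SNL63

open Pool.Agent.SN8 Finset

theorem sw_mem_Icc {n j : ℕ} (h1 : 1 ≤ j) (h2 : j + 1 ≤ n) {x : ℕ} (hx : x ∈ Icc 1 n) :
    sw j x ∈ Icc 1 n := by
  rw [mem_Icc] at hx ⊢
  rw [sw_apply]
  split_ifs <;> omega

/-- one letter at the beginning -/
theorem prod_cons_le {n j : ℕ} (h1 : 1 ≤ j) (h2 : j + 1 ≤ n) {z : ℕ → ℝ} (hz : ∀ x, 1 ≤ z x) (l : List ℕ) :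
    ∏ x ∈ Icc 1 n, z x ^ (((place (j :: l) x : ℕ) : ℤ) - x).natAbs ≤
      (z j * z (j + 1)) * ∏ y ∈ Icc 1 n, z (sw j y) ^ (((place l y : ℕ) : ℤ) - y).natAbs := by
  have hz0 : ∀ x, 0 ≤ z x := fun x => zero_le_one.trans (hz x)
  have hstep : ∀ x ∈ Icc 1 n, z x ^ (((place (j :: l) x : ℕ) : ℤ) - x).natAbs ≤
      ((if x = j then z x else 1) * (if x = j + 1 then z x else 1)) *
        z x ^ (((place l (sw j x) : ℕ) : ℤ) - (sw j x : ℕ)).natAbs := by
    intro x _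
    have e : place (j :: l) x = place l (sw j x) := rfl
    have hab : (((place l (sw j x) : ℕ) : ℤ) - x).natAbs ≤
        (((sw j x : ℕ) : ℤ) - x).natAbs + (((place l (sw j x) : ℕ) : ℤ) - (sw j x : ℕ)).natAbs := by
      omega
    rw [e]
    refine (pow_le_pow_right₀ (hz x) hab).trans ?_
    rw [pow_add]
    refine mul_le_mul_of_nonneg_right ?_ (pow_nonneg (hz0 x) _)
    rw [sw_apply]
    by_cases h3 : x = j
    · subst h3
      simp
    · by_cases h4 : x = j + 1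
      · subst h4
        simp
      · simp [h3, h4]
  refine (prod_le_prod (fun x _ => pow_nonneg (hz0 x) _) hstep).trans ?_
  rw [prod_mul_distrib, prod_mul_distrib, prod_ite_eq', prod_ite_eq',
    if_pos (mem_Icc.2 ⟨h1, by omega⟩), if_pos (mem_Icc.2 ⟨by omega, h2⟩)]
  refine le_of_eq ?_
  congr 1
  refine prod_bij (fun x _ => sw j x) (fun x hx => sw_mem_Icc h1 h2 hx)
    (fun x _ y _ h => (sw j).injective h) (fun y hy => ⟨sw j y, sw_mem_Icc h1 h2 hy, ?_⟩) ?_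
  · rw [sw_apply, sw_apply]
    split_ifs <;> omega
  · intro x _
    have h3 : sw j (sw j x) = x := by
      rw [sw_apply, sw_apply]
      split_ifs <;> omega
    rw [h3]

/-- the sum over the first letter -/
theorem sum_pair_le (n : ℕ) (z : ℕ → ℝ) :
    ∑ j ∈ Icc 1 (n - 1), z j * z (j + 1) ≤ ∑ x ∈ Icc 1 n, z x ^ 2 := by
  have h1 : ∀ j ∈ Icc 1 (n - 1), z j * z (j + 1) ≤ z j ^ 2 / 2 + z (j + 1) ^ 2 / 2 := by
    intro j _
    nlinarith [sq_nonneg (z j - z (j + 1))]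
  refine (sum_le_sum h1).trans ?_
  rw [sum_add_distrib, ← sum_div, ← sum_div]
  have h2 : ∑ j ∈ Icc 1 (n - 1), z j ^ 2 ≤ ∑ x ∈ Icc 1 n, z x ^ 2 := by
    refine sum_le_sum_of_subset_of_nonneg (Icc_subset_Icc le_rfl (Nat.sub_le n 1)) ?_
    intro x _ _
    exact sq_nonneg _
  have h3 : ∑ j ∈ Icc 1 (n - 1), z (j + 1) ^ 2 ≤ ∑ x ∈ Icc 1 n, z x ^ 2 := by
    have h4 : ∑ j ∈ Icc 1 (n - 1), z (j + 1) ^ 2 = ∑ x ∈ (Icc 1 (n - 1)).image (fun j => j + 1), z x ^ 2 := by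
      rw [sum_image]
      intro x _ y _ h
      simpa using h
    rw [h4]
    refine sum_le_sum_of_subset_of_nonneg ?_ (fun x _ _ => sq_nonneg _)
    intro x hx
    rw [mem_image] at hx
    obtain ⟨j, hj, rfl⟩ := hx
    rw [mem_Icc] at hj ⊢
    omega
  linarith

theorem word_weight_Wd (n : ℕ) : ∀ (s : ℕ) (z : ℕ → ℝ), (∀ x, 1 ≤ z x) →
    ∑ w ∈ Wd n s, ∏ x ∈ Icc 1 n, z x ^ (((place w x : ℕ) : ℤ) - x).natAbs ≤
      (∑ x ∈ Icc 1 n, z x ^ 2) ^ s
  | 0, z, _ => by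
    rw [Wd, sum_singleton, pow_zero]
    refine le_of_eq (prod_eq_one fun x _ => ?_)
    simp [place]
  | s + 1, z, hz => by
    have hz0 : ∀ x, 0 ≤ z x := fun x => zero_le_one.trans (hz x)
    have hB : (0 : ℝ) ≤ ∑ x ∈ Icc 1 n, z x ^ 2 := sum_nonneg fun x _ => sq_nonneg _
    have h1 : ∀ j ∈ Icc 1 (n - 1), ∑ l ∈ Wd n s, ∏ x ∈ Icc 1 n, z x ^ (((place (j :: l) x : ℕ) : ℤ) - x).natAbs ≤
        (z j * z (j + 1)) * (∑ x ∈ Icc 1 n, z x ^ 2) ^ s := by
      intro j hj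
      rw [mem_Icc] at hj
      have hj1 : 1 ≤ j := hj.1
      have hj2 : j + 1 ≤ n := by omega
      have h2 := word_weight_Wd n s (fun y => z (sw j y)) (fun y => hz _)
      have h3 : ∑ y ∈ Icc 1 n, z (sw j y) ^ 2 = ∑ x ∈ Icc 1 n, z x ^ 2 := by
        refine sum_bij (fun x _ => sw j x) (fun x hx => sw_mem_Icc hj1 hj2 hx)
          (fun x _ y _ h => (sw j).injective h) (fun y hy => ⟨sw j y, sw_mem_Icc hj1 hj2 hy, ?_⟩) ?_
        · rw [sw_apply, sw_apply]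
          split_ifs <;> omega
        · intro x _
          rfl
      beta_reduce at h2
      rw [h3] at h2
      refine (sum_le_sum fun l _ => prod_cons_le hj1 hj2 hz l).trans ?_
      rw [← mul_sum]
      exact mul_le_mul_of_nonneg_left h2 (mul_nonneg (hz0 _) (hz0 _))
    rw [sum_Wd]
    refine (sum_le_sum h1).trans ?_
    rw [← sum_mul, pow_succ, mul_comm]
    exact mul_le_mul_of_nonneg_left (sum_pair_le n z) (pow_nonneg hB s)

/-- the weighted number of words: adding a letter `a` at the end moves the particles at the places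
`a`, `a + 1` by one place, so it costs at most `z x * z y ≤ (z x ^ 2 + z y ^ 2) / 2`, and every particle
is in at most two pairs of neighbouring places -/
theorem word_weight {n : ℕ} {z : ℕ → ℝ} (hz : ∀ x, 1 ≤ z x) (s : ℕ) {S : Finset (List ℕ)}
    (hS : ∀ w ∈ S, w.length = s ∧ ∀ j ∈ w, 1 ≤ j ∧ j + 1 ≤ n) :
    ∑ w ∈ S, ∏ x ∈ Finset.Icc 1 n, z x ^ ((place w x : ℤ) - x).natAbs ≤
      (∑ x ∈ Finset.Icc 1 n, z x ^ 2) ^ s := by
  refine (sum_le_sum_of_subset_of_nonneg (fun w hw => mem_Wd.2 (hS w hw)) ?_).trans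
    (word_weight_Wd n s z hz)
  intro w _ _
  exact prod_nonneg fun x _ => pow_nonneg (zero_le_one.trans (hz x)) _

theorem tch_le_length (w : List ℕ) : ∀ S : Finset ℕ, tch w S ≤ w.length := by
  induction w with
  | nil =>
    intro S
    exact le_rfl
  | cons j l ih =>
    intro S
    have h1 := ih (S.image (fun x => sw j x))
    rw [tch, List.length_cons]
    split_ifs <;> omega

/-- every letter moves two particles by one place -/
theorem disp_sum_le {n s : ℕ} {w : List ℕ} (hw : w.length = s ∧ ∀ j ∈ w, 1 ≤ j ∧ j + 1 ≤ n) :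
    ∑ x ∈ Finset.Icc 1 n, |(place w x : ℝ) - x| ≤ 2 * s := by
  have h1 := disp_le w (Icc 1 n)
  have h2 := tch_le_length w (Icc 1 n)
  rw [hw.1] at h2
  have h3 : ∑ x ∈ Icc 1 n, |((place w x : ℕ) : ℤ) - x| ≤ 2 * (s : ℤ) := by omega
  have h4 : ((∑ x ∈ Icc 1 n, |((place w x : ℕ) : ℤ) - x| : ℤ) : ℝ) ≤ ((2 * (s : ℤ) : ℤ) : ℝ) := by
    exact_mod_cast h3
  push_cast at h4
  exact h4

end Pool.Agent.SNL63
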