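import Pool.Agent.SNL63.EnDefs

/-!
Definitions for the `L log L` bound of the speeds.
-/

namespace Pool.Agent.SNL63

open Pool.Agent.SN8 MeasureTheory Set Filter Topology
open scoped ENNReal Real

/-- the words of length `s` in the letters `1, ..., n - 1` with large `L log L` norm of the speeds -/
def LogW (n s : ℕ) (A : ℝ) : Set (List ℕ) :=
  {w | w.length = s ∧ (∀ j ∈ w, 1 ≤ j ∧ j + 1 ≤ n) ∧
    A * s < ∑ x ∈ Finset.Icc 1 n, |(place w x : ℝ) - x| * Real.log (1 + |(place w x : ℝ) - x| * n / s)}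

end Pool.Agent.SNL63
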