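import Pool.Agent.SNL63.PDefs
import Pool.Agent.SNL63.DCalc

/-!
The sums over the removed cells determine the depth of the shape on every diagonal: few particles which cross contradict
the law of large numbers for the removed cells.
-/

set_option autoImplicit false

namespace Pool.Agent.SNL63

open Pool.Agent.SN8 Finset MeasureTheory

/-- the removed cells -/
def Memb_S (n : ℕ) (lam : ℕ → ℕ) : Finset (ℕ × ℕ) :=
  (range n ×ˢ range n).filter (fun p => lam p.1 ≤ p.2 ∧ p.2 < n - 1 - p.1)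

theorem Memb_mem {n : ℕ} {lam : ℕ → ℕ} {p : ℕ × ℕ} :
    p ∈ Memb_S n lam ↔ lam p.1 ≤ p.2 ∧ p.1 + p.2 + 2 ≤ n := by
  unfold Memb_S
  rw [mem_filter, mem_product, mem_range, mem_range]
  omega

theorem Memb_rsum (g : ℝ → ℝ) (n : ℕ) (lam : ℕ → ℕ) :
    rsum g n lam = ∑ κ ∈ range (2 * n),
      (((Memb_S n lam).filter (fun p => p.2 + n - p.1 = κ)).card : ℝ) * g (((κ : ℝ) - n) / n) := by
  have h1 : rsum g n lam = ∑ p ∈ Memb_S n lam, g (((p.2 : ℝ) - p.1) / n) := by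
    unfold rsum Memb_S
    rw [sum_filter, sum_product]
    apply sum_congr rfl
    intro i _
    rw [← sum_filter]
    apply sum_congr _ (fun _ _ => rfl)
    ext j
    rw [mem_Ico, mem_filter, mem_range]
    simp only
    omega
  rw [h1, ← sum_fiberwise_of_maps_to (s := Memb_S n lam) (t := range (2 * n)) (g := fun p => p.2 + n - p.1)]
  · apply sum_congr rfl
    intro κ _
    rw [← nsmul_eq_mul, ← sum_const]
    apply sum_congr rfl
    intro p hp
    rw [mem_filter, Memb_mem] at hp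
    have h2 : p.2 + n = κ + p.1 := by omega
    have h3 : (p.2 : ℝ) + n = κ + p.1 := by exact_mod_cast h2
    congr 2
    linarith
  · intro p hp
    rw [Memb_mem] at hp
    rw [mem_range]
    omega

/-- the number of the removed cells on a diagonal, if the shape contains a rectangle -/
theorem Memb_card {n i₀ j₀ : ℕ} {lam : ℕ → ℕ} (hlam : ∀ i ≤ i₀, j₀ ≤ lam i) (h : i₀ + j₀ + 1 ≤ n) (κ : ℕ) :
    (((Memb_S n lam).filter (fun p => p.2 + n - p.1 = κ)).card : ℝ) ≤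
      ((n : ℝ) - i₀ - j₀ - 1 + |((κ : ℝ) - n) - ((j₀ : ℝ) - 1 - i₀)|) / 2 := by
  obtain ⟨w, hw⟩ : ∃ w : ℤ, w = (κ : ℤ) - n := ⟨_, rfl⟩
  obtain ⟨a, ha⟩ : ∃ a : ℤ, a = min ((i₀ : ℤ) + 1) ((j₀ : ℤ) - w) := ⟨_, rfl⟩
  obtain ⟨b, hb⟩ : ∃ b : ℤ, b = ((n : ℤ) - 2 - w) / 2 := ⟨_, rfl⟩
  have h1 : ((Memb_S n lam).filter (fun p => p.2 + n - p.1 = κ)).card ≤ (Icc a b).card := by
    apply card_le_card_of_injOn (fun p => (p.1 : ℤ))
    · intro p hp
      rw [mem_coe, mem_filter, Memb_mem] at hp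
      rw [mem_coe, mem_Icc]
      obtain ⟨⟨hp1, hp2⟩, hp3⟩ := hp
      have hp4 : (p.2 : ℤ) - p.1 = w := by omega
      constructor
      · by_cases hi : p.1 ≤ i₀
        · have := hlam p.1 hi
          have : a ≤ (j₀ : ℤ) - w := by rw [ha]; exact min_le_right _ _
          simp only
          omega
        · have : a ≤ (i₀ : ℤ) + 1 := by rw [ha]; exact min_le_left _ _
          simp only
          omega
      · simp only
        omega
    · intro p hp p' hp' hpp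
      rw [mem_coe, mem_filter, Memb_mem] at hp hp'
      have e : (p.1 : ℤ) = p'.1 := hpp
      have e1 : p.1 = p'.1 := by exact_mod_cast e
      have e2 : p.2 = p'.2 := by omega
      exact Prod.ext e1 e2
  rw [Int.card_Icc] at h1
  obtain ⟨x, hx⟩ : ∃ x : ℤ, x = |w - ((j₀ : ℤ) - 1 - i₀)| := ⟨_, rfl⟩
  have hx1 : w - ((j₀ : ℤ) - 1 - i₀) ≤ x := by rw [hx]; exact le_abs_self _
  have hx2 : -(w - ((j₀ : ℤ) - 1 - i₀)) ≤ x := by rw [hx]; exact neg_le_abs _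
  have h2 : 2 * ((b + 1 - a).toNat : ℤ) ≤ (n : ℤ) - i₀ - j₀ - 1 + x := by
    rcases le_total ((i₀ : ℤ) + 1) ((j₀ : ℤ) - w) with h3 | h3
    · rw [min_eq_left h3] at ha
      omega
    · rw [min_eq_right h3] at ha
      omega
  have h4 : (2 : ℝ) * (((b + 1 - a).toNat : ℤ) : ℝ) ≤ ((n : ℝ) - i₀ - j₀ - 1 + (x : ℝ)) := by exact_mod_cast h2
  have h5 : (x : ℝ) = |((κ : ℝ) - n) - ((j₀ : ℝ) - 1 - i₀)| := by
    rw [hx, hw]
    push_cast
    rfl
  have h6 : (((Memb_S n lam).filter (fun p => p.2 + n - p.1 = κ)).card : ℝ) ≤ (((b + 1 - a).toNat : ℤ) : ℝ) := by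
    exact_mod_cast h1
  rw [← h5]
  linarith

/-- the sum over the removed cells, if the shape contains a rectangle -/
theorem Memb_upper {n i₀ j₀ : ℕ} {lam : ℕ → ℕ} (hn : 0 < n) (hlam : ∀ i ≤ i₀, j₀ ≤ lam i) (h : i₀ + j₀ + 1 ≤ n)
    {g : ℝ → ℝ} {v δ : ℝ} (hg0 : ∀ u, 0 ≤ g u) (hgv : ∀ u, δ ≤ |u - v| → g u = 0)
    (hv : |v - ((j₀ : ℝ) - 1 - i₀) / n| ≤ δ) :
    rsum g n lam ≤ (n : ℝ) * (((n : ℝ) - i₀ - j₀ - 1) / (2 * n) + δ) * ∑ κ ∈ range (2 * n), g (((κ : ℝ) - n) / n) := by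
  have hn' : (0 : ℝ) < n := by exact_mod_cast hn
  rw [Memb_rsum, mul_sum]
  apply sum_le_sum
  intro κ _
  by_cases hκ : δ ≤ |((κ : ℝ) - n) / n - v|
  · rw [hgv _ hκ, mul_zero, mul_zero]
  · push Not at hκ
    apply mul_le_mul_of_nonneg_right _ (hg0 _)
    refine (Memb_card hlam h κ).trans ?_
    have h1 : |((κ : ℝ) - n) / n - ((j₀ : ℝ) - 1 - i₀) / n| ≤ 2 * δ := by
      have := abs_sub_le (((κ : ℝ) - n) / n) v (((j₀ : ℝ) - 1 - i₀) / n)
      linarith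
    have h2 : |((κ : ℝ) - n) - ((j₀ : ℝ) - 1 - i₀)| ≤ 2 * δ * n := by
      have h3 : ((κ : ℝ) - n) / n - ((j₀ : ℝ) - 1 - i₀) / n = (((κ : ℝ) - n) - ((j₀ : ℝ) - 1 - i₀)) / n := by ring
      rw [h3, abs_div, abs_of_pos hn', div_le_iff₀ hn'] at h1
      exact h1
    have h4 : (n : ℝ) * (((n : ℝ) - i₀ - j₀ - 1) / (2 * n) + δ) = ((n : ℝ) - i₀ - j₀ - 1) / 2 + δ * n := by
      field_simp
    rw [h4]
    linarith

/-- Riemann sums -/
theorem Memb_riemann {n : ℕ} (hn : 0 < n) {g : ℝ → ℝ} (hg : Continuous g) {L : ℝ}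
    (hL : ∀ u u', |g u - g u'| ≤ L * |u - u'|) :
    ∑ κ ∈ range (2 * n), g (((κ : ℝ) - n) / n) ≤ n * (∫ u in (-1 : ℝ)..1, g u) + 2 * L := by
  have hn' : (0 : ℝ) < n := by exact_mod_cast hn
  have hL0 : 0 ≤ L := by
    have := hL 1 0
    have h1 := abs_nonneg (g 1 - g 0)
    norm_num at this
    linarith
  obtain ⟨a, ha⟩ : ∃ a : ℕ → ℝ, a = fun κ : ℕ => ((κ : ℝ) - n) / n := ⟨_, rfl⟩
  have ha0 : a 0 = -1 := by
    rw [ha]
    simp only [Nat.cast_zero, zero_sub]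
    field_simp
  have ha1 : a (2 * n) = 1 := by
    rw [ha]
    simp only
    push_cast
    field_simp
    ring
  have hstep : ∀ κ, a (κ + 1) = a κ + 1 / n := by
    intro κ
    rw [ha]
    simp only
    push_cast
    ring
  have h1 := intervalIntegral.sum_integral_adjacent_intervals (f := g) (μ := volume) (a := a) (n := 2 * n)
    (fun k _ => hg.intervalIntegrable _ _)
  rw [ha0, ha1] at h1
  rw [← h1, mul_sum]
  have h2 : ∀ κ ∈ range (2 * n), g (a κ) - L / n ≤ n * ∫ u in a κ..a (κ + 1), g u := by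
    intro κ _
    have hle : a κ ≤ a (κ + 1) := by
      rw [hstep]
      have : (0 : ℝ) < 1 / n := by positivity
      linarith
    have h3 : (a (κ + 1) - a κ) * (g (a κ) - L / n) ≤ ∫ u in a κ..a (κ + 1), g u := by
      have h4 : ∫ _ in a κ..a (κ + 1), (g (a κ) - L / n) ≤ ∫ u in a κ..a (κ + 1), g u := by
        apply intervalIntegral.integral_mono_on hle (by simp) (hg.intervalIntegrable _ _)
        intro u hu
        have h5 := hL (a κ) u
        have h6 : |a κ - u| ≤ 1 / n := by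
          rw [hstep] at hu
          rw [abs_le]
          constructor
          · linarith [hu.2]
          · have : (0 : ℝ) < 1 / n := by positivity
            linarith [hu.1]
        have h7 : L * |a κ - u| ≤ L * (1 / n) := mul_le_mul_of_nonneg_left h6 hL0
        have h8 := le_abs_self (g (a κ) - g u)
        have h9 : L * (1 / n) = L / n := by ring
        linarith
      rw [intervalIntegral.integral_const, smul_eq_mul] at h4
      exact h4
    have h5 : a (κ + 1) - a κ = 1 / n := by rw [hstep]; ring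
    rw [h5] at h3
    have h6 := mul_le_mul_of_nonneg_left h3 hn'.le
    have h7 : (n : ℝ) * (1 / n * (g (a κ) - L / n)) = g (a κ) - L / n := by field_simp
    rw [h7] at h6
    exact h6
  have h3 := sum_le_sum h2
  rw [sum_sub_distrib, sum_const, card_range, nsmul_eq_mul] at h3
  have h4 : ((2 * n : ℕ) : ℝ) * (L / n) = 2 * L := by
    push_cast
    field_simp
  rw [h4] at h3
  have h5 : ∑ κ ∈ range (2 * n), g (((κ : ℝ) - n) / n) = ∑ κ ∈ range (2 * n), g (a κ) := by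
    rw [ha]
  rw [h5]
  linarith

/-- the tent function -/
noncomputable def tent (v δ u : ℝ) : ℝ := max 0 (1 - |u - v| / δ)

theorem tent_nonneg (v δ u : ℝ) : 0 ≤ tent v δ u := le_max_left _ _

theorem tent_cont (v δ : ℝ) : Continuous (tent v δ) := by
  unfold tent
  fun_prop

theorem tent_zero {v δ : ℝ} (hδ : 0 < δ) (u : ℝ) (hu : δ ≤ |u - v|) : tent v δ u = 0 := by
  unfold tent
  rw [max_eq_left]
  have : 1 ≤ |u - v| / δ := by rwa [le_div_iff₀ hδ, one_mul]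
  linarith

theorem tent_lip {v δ : ℝ} (hδ : 0 < δ) (u u' : ℝ) : |tent v δ u - tent v δ u'| ≤ 1 / δ * |u - u'| := by
  unfold tent
  have h1 := abs_max_sub_max_le_max 0 (1 - |u - v| / δ) 0 (1 - |u' - v| / δ)
  refine h1.trans ?_
  rw [sub_self, abs_zero]
  apply max_le
  · positivity
  · have h2 : 1 - |u - v| / δ - (1 - |u' - v| / δ) = (|u' - v| - |u - v|) / δ := by ring
    rw [h2, abs_div, abs_of_pos hδ, div_le_iff₀ hδ]
    have h3 := abs_abs_sub_abs_le_abs_sub (u' - v) (u - v)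
    have h4 : |u' - v - (u - v)| = |u - u'| := by
      rw [abs_sub_comm u u']
      congr 1
      ring
    rw [h4] at h3
    have h5 : 1 / δ * |u - u'| * δ = |u - u'| := by field_simp
    rw [h5]
    exact h3

theorem tent_int_pos {v δ : ℝ} (_hδ : 0 < δ) (hv : v ∈ Set.Icc (-1 : ℝ) 1) : 0 < ∫ u in (-1 : ℝ)..1, tent v δ u := by
  apply intervalIntegral.integral_pos (by norm_num) (tent_cont v δ).continuousOn (fun u _ => tent_nonneg v δ u)
  refine ⟨v, hv, ?_⟩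
  unfold tent
  rw [sub_self, abs_zero, zero_div, sub_zero]
  simp

/-- finitely many large deviation bounds hold with the same constants -/
theorem Memb_finite {ι : Type*} (s : Finset ι) (P : ι → ℝ → ℕ → Prop)
    (hmono : ∀ i c n₀ c' n₀', P i c n₀ → c' ≤ c → n₀ ≤ n₀' → P i c' n₀')
    (h : ∀ i ∈ s, ∃ c > (0 : ℝ), ∃ n₀ : ℕ, P i c n₀) : ∃ c > (0 : ℝ), ∃ n₀ : ℕ, ∀ i ∈ s, P i c n₀ := by
  classical
  induction s using Finset.induction_on with
  | empty => exact ⟨1, one_pos, 0, fun i hi => by simp at hi⟩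
  | insert i s _ ih =>
    obtain ⟨c, hc, n₀, h1⟩ := ih (fun j hj => h j (mem_insert_of_mem hj))
    obtain ⟨c', hc', n₀', h2⟩ := h i (mem_insert_self _ _)
    refine ⟨min c c', lt_min hc hc', max n₀ n₀', ?_⟩
    intro j hj
    rw [mem_insert] at hj
    rcases hj with rfl | hj
    · exact hmono _ _ _ _ _ h2 (min_le_right _ _) (le_max_right _ _)
    · exact hmono _ _ _ _ _ (h1 j hj) (min_le_left _ _) (le_max_left _ _)

/-- **(M)** few crossings contradict the law of large numbers for the removed cells -/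
theorem memb {τ : ℝ} {D : ℝ → ℝ} (hD1 : ∀ u ∈ Set.Icc (-1 : ℝ) 1, D u ≤ (1 - |u|) / 2)
    (hD2 : ∀ u ∈ Set.Icc (-1 : ℝ) 1, ∀ u' ∈ Set.Icc (-1 : ℝ) 1, |D u - D u'| ≤ |u - u'| / 2)
    (hM : ∀ g : ℝ → ℝ, Continuous g → ∀ ε : ℝ, 0 < ε → ∃ c > (0 : ℝ), ∃ n₀ : ℕ, ∀ n ≥ n₀,
      (({k | IsNetwork n k ∧ ε * (n : ℝ) ^ 2 <
        |rsum g n (shapeAt n ⌊(n.choose 2 : ℝ) * τ⌋₊ k) - (n : ℝ) ^ 2 * ∫ u in (-1 : ℝ)..1, g u * D u|} :
          Set (List ℕ)).ncard : ℝ) ≤ Real.exp (-c * (n : ℝ) ^ 2) * nets n) {ε : ℝ} (hε : 0 < ε) :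
    ∃ c > (0 : ℝ), ∃ n₀ : ℕ, ∀ n ≥ n₀, ∀ m m' q : ℕ, m ≤ n → m' ≤ n →
      (q : ℝ) / n + ((m' : ℝ) - m) / (2 * n) ≤ D (((m : ℝ) + m' - n) / n) - ε →
        (({k | IsNetwork n k ∧ cross2 m m' (k.take ⌊(n.choose 2 : ℝ) * τ⌋₊) ≤ q} : Set (List ℕ)).ncard : ℝ) ≤
          Real.exp (-c * (n : ℝ) ^ 2) * nets n := by
  obtain ⟨δ, hδ⟩ : ∃ δ : ℝ, δ = ε / 4 := ⟨_, rfl⟩
  have hδ0 : 0 < δ := by rw [hδ]; positivity
  obtain ⟨E, hE⟩ : ∃ E : ℝ → ℕ → Set (List ℕ), E = fun v n => {k | IsNetwork n k ∧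
      ε * (∫ u in (-1 : ℝ)..1, tent v δ u) / 4 * (n : ℝ) ^ 2 <
        |rsum (tent v δ) n (shapeAt n ⌊(n.choose 2 : ℝ) * τ⌋₊ k) -
          (n : ℝ) ^ 2 * ∫ u in (-1 : ℝ)..1, tent v δ u * D u|} := ⟨_, rfl⟩
  -- the centres
  obtain ⟨s, hs⟩ : ∃ s : Finset ℝ, s = ((range (⌊2 / δ⌋₊ + 1)).image (fun j : ℕ => -1 + δ * j)).filter (fun v => v ≤ 1) :=
    ⟨_, rfl⟩
  have hsv : ∀ v ∈ s, v ∈ Set.Icc (-1 : ℝ) 1 := by
    intro v hv
    rw [hs, mem_filter, mem_image] at hv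
    obtain ⟨⟨j, _, rfl⟩, h2⟩ := hv
    refine ⟨?_, h2⟩
    have : 0 ≤ δ * (j : ℝ) := by positivity
    linarith
  have hsc : ∀ u ∈ Set.Icc (-1 : ℝ) 1, ∃ v ∈ s, |v - u| ≤ δ := by
    intro u hu
    obtain ⟨j, hj⟩ : ∃ j : ℕ, j = ⌊(u + 1) / δ⌋₊ := ⟨_, rfl⟩
    have h1 : 0 ≤ (u + 1) / δ := div_nonneg (by linarith [hu.1]) hδ0.le
    have h2 : (j : ℝ) ≤ (u + 1) / δ := by rw [hj]; exact Nat.floor_le h1
    have h3 : (u + 1) / δ < j + 1 := by rw [hj]; exact Nat.lt_floor_add_one _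
    rw [le_div_iff₀ hδ0] at h2
    rw [div_lt_iff₀ hδ0] at h3
    refine ⟨-1 + δ * j, ?_, ?_⟩
    · rw [hs, mem_filter, mem_image]
      refine ⟨⟨j, ?_, rfl⟩, by linarith [hu.2]⟩
      rw [mem_range, Nat.lt_succ_iff, hj]
      apply Nat.floor_le_floor
      apply div_le_div_of_nonneg_right _ hδ0.le
      linarith [hu.2]
    · rw [abs_le]
      constructor
      · linarith
      · linarith
  obtain ⟨c, hc, n₀, hcn⟩ := Memb_finite s (fun v c n₀ => ∀ n ≥ n₀,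
      32 / (ε ^ 2 * ∫ u in (-1 : ℝ)..1, tent v δ u) < n ∧ ((E v n).ncard : ℝ) ≤ Real.exp (-c * (n : ℝ) ^ 2) * nets n)
    (fun v c n₀ c' n₀' h h1 h2 n hn => by
      obtain ⟨h3, h4⟩ := h n (h2.trans hn)
      refine ⟨h3, h4.trans ?_⟩
      apply mul_le_mul_of_nonneg_right _ (Nat.cast_nonneg _)
      apply Real.exp_le_exp.2
      have : 0 ≤ (n : ℝ) ^ 2 := by positivity
      nlinarith)
    (fun v hv => by
      have hI := tent_int_pos hδ0 (hsv v hv)
      obtain ⟨c, hc, n₀, h⟩ := hM (tent v δ) (tent_cont v δ) (ε * (∫ u in (-1 : ℝ)..1, tent v δ u) / 4) (by positivity)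
      obtain ⟨n₁, hn₁⟩ := exists_nat_gt (32 / (ε ^ 2 * ∫ u in (-1 : ℝ)..1, tent v δ u))
      refine ⟨c, hc, max n₀ n₁, fun n hn => ⟨?_, ?_⟩⟩
      · refine lt_of_lt_of_le hn₁ ?_
        exact_mod_cast (le_max_right n₀ n₁).trans hn
      · rw [hE]
        exact h n ((le_max_left n₀ n₁).trans hn))
  refine ⟨c, hc, max n₀ 1, ?_⟩
  intro n hn m m' q hm hm' hq
  have hn0 : 0 < n := lt_of_lt_of_le one_pos ((le_max_right n₀ 1).trans hn)
  have hn' : (0 : ℝ) < n := by exact_mod_cast hn0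
  have hmR : (m : ℝ) ≤ n := by exact_mod_cast hm
  have hmR' : (m' : ℝ) ≤ n := by exact_mod_cast hm'
  have hm0 : (0 : ℝ) ≤ m := Nat.cast_nonneg _
  have hm0' : (0 : ℝ) ≤ m' := Nat.cast_nonneg _
  obtain ⟨u₀, hu₀⟩ : ∃ u₀ : ℝ, u₀ = ((m : ℝ) + m' - n) / n := ⟨_, rfl⟩
  have hu₀I : u₀ ∈ Set.Icc (-1 : ℝ) 1 := by
    rw [hu₀]
    constructor
    · rw [le_div_iff₀ hn']
      linarith
    · rw [div_le_iff₀ hn']
      linarith
  rw [← hu₀] at hq
  obtain ⟨v, hv, hvu⟩ := hsc u₀ hu₀I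
  obtain ⟨hnbig, hEv⟩ := hcn v hv n ((le_max_left n₀ 1).trans hn)
  refine le_trans ?_ hEv
  have hfin : (E v n).Finite := (networks_finite n).subset fun k hk => by
    rw [hE] at hk
    exact hk.1
  have hsub : ({k | IsNetwork n k ∧ cross2 m m' (k.take ⌊(n.choose 2 : ℝ) * τ⌋₊) ≤ q} : Set (List ℕ)) ⊆ E v n := by
    rintro k ⟨hk, hkq⟩
    by_contra hkE
    have hdev : |rsum (tent v δ) n (shapeAt n ⌊(n.choose 2 : ℝ) * τ⌋₊ k) -
          (n : ℝ) ^ 2 * ∫ u in (-1 : ℝ)..1, tent v δ u * D u| ≤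
        ε * (∫ u in (-1 : ℝ)..1, tent v δ u) / 4 * (n : ℝ) ^ 2 := by
      by_contra h
      apply hkE
      rw [hE]
      exact ⟨hk, not_le.1 h⟩
    -- the cell exists
    have hDu := hD1 u₀ hu₀I
    have hqm : (q : ℝ) + m' + ε * n ≤ n := by
      have h1 : -u₀ ≤ -u₀ := le_rfl
      have h2 : u₀ ≤ |u₀| := le_abs_self _
      have h3 : (q : ℝ) / n + ((m' : ℝ) - m) / (2 * n) ≤ (1 - u₀) / 2 - ε := by linarith
      have h4 := mul_le_mul_of_nonneg_left h3 hn'.le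
      have h5 : (n : ℝ) * ((q : ℝ) / n + ((m' : ℝ) - m) / (2 * n)) = q + (m' - m) / 2 := by field_simp
      have h6 : (n : ℝ) * ((1 - u₀) / 2 - ε) = (2 * n - m - m') / 2 - ε * n := by
        rw [hu₀]
        field_simp
        ring
      rw [h5, h6] at h4
      linarith
    have hqn : q + m' < n := by
      have h1 : (q : ℝ) + m' < n := by
        have : 0 < ε * n := by positivity
        linarith
      exact_mod_cast h1
    have hcell := cell_of_cross2 (s := ⌊(n.choose 2 : ℝ) * τ⌋₊) hk hm hqn hkq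
    obtain ⟨lam, hlam⟩ : ∃ lam, lam = shapeAt n ⌊(n.choose 2 : ℝ) * τ⌋₊ k := ⟨_, rfl⟩
    rw [← hlam] at hcell hdev
    have hr := red_take_reverse (s := ⌊(n.choose 2 : ℝ) * τ⌋₊) hk
    obtain ⟨t1, t2, t3, t4⟩ := tab_spec hr
    have hanti : Antitone lam := by
      rw [hlam]
      exact t1.anti
    have hle : lam (n - q - m' - 1) ≤ n - 1 - (n - q - m' - 1) := by
      rw [hlam]
      exact shape_le t1 (fun j hj => hr.1 j (t4 j hj)) _
    -- the rectangle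
    obtain ⟨i₀, hi₀⟩ : ∃ i₀, i₀ = n - q - m' - 1 := ⟨_, rfl⟩
    obtain ⟨j₀, hj₀⟩ : ∃ j₀, j₀ = m - q := ⟨_, rfl⟩
    rw [← hi₀, ← hj₀] at hcell
    rw [← hi₀] at hle
    have hrect : ∀ i ≤ i₀, j₀ ≤ lam i := fun i hi => hcell.trans (hanti hi)
    have hqm' : (q : ℝ) + ε * n ≤ m := by
      have h2 : -u₀ ≤ |u₀| := neg_le_abs _
      have h3 : (q : ℝ) / n + ((m' : ℝ) - m) / (2 * n) ≤ (1 + u₀) / 2 - ε := by linarith
      have h4 := mul_le_mul_of_nonneg_left h3 hn'.le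
      have h5 : (n : ℝ) * ((q : ℝ) / n + ((m' : ℝ) - m) / (2 * n)) = q + (m' - m) / 2 := by field_simp
      have h6 : (n : ℝ) * ((1 + u₀) / 2 - ε) = (m + m') / 2 - ε * n := by
        rw [hu₀]
        field_simp
        ring
      rw [h5, h6] at h4
      linarith
    have hqlem : q ≤ m := by
      have h1 : (q : ℝ) ≤ m := by
        have : 0 < ε * n := by positivity
        linarith
      exact_mod_cast h1
    have hi₀R : (i₀ : ℝ) = n - q - m' - 1 := by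
      have : i₀ + q + m' + 1 = n := by omega
      have h1 : (i₀ : ℝ) + q + m' + 1 = n := by exact_mod_cast this
      linarith
    have hj₀R : (j₀ : ℝ) = m - q := by
      rw [hj₀, Nat.cast_sub hqlem]
    have hsum : i₀ + j₀ + 1 ≤ n := by omega
    have hc₀ : ((j₀ : ℝ) - 1 - i₀) / n = u₀ := by
      rw [hi₀R, hj₀R, hu₀]
      congr 1
      ring
    have hB : ((n : ℝ) - i₀ - j₀ - 1) / (2 * n) = (q : ℝ) / n + ((m' : ℝ) - m) / (2 * n) := by
      rw [hi₀R, hj₀R]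
      field_simp
      ring
    obtain ⟨B, hBdef⟩ : ∃ B : ℝ, B = (q : ℝ) / n + ((m' : ℝ) - m) / (2 * n) := ⟨_, rfl⟩
    rw [← hBdef] at hB hq
    have hB0 : 0 ≤ B := by
      rw [← hB]
      apply div_nonneg _ (by positivity)
      have : ((i₀ + j₀ + 1 : ℕ) : ℝ) ≤ n := by exact_mod_cast hsum
      push_cast at this
      linarith
    -- the upper bound
    have hup := Memb_upper hn0 hrect hsum (g := tent v δ) (v := v) (δ := δ) (tent_nonneg v δ) (tent_zero hδ0)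
      (by rw [hc₀]; exact hvu)
    have hri := Memb_riemann hn0 (tent_cont v δ) (L := 1 / δ) (fun u u' => tent_lip hδ0 u u')
    rw [hB] at hup
    obtain ⟨I, hI⟩ : ∃ I : ℝ, I = ∫ u in (-1 : ℝ)..1, tent v δ u := ⟨_, rfl⟩
    have hI0 : 0 < I := by
      rw [hI]
      exact tent_int_pos hδ0 (hsv v hv)
    rw [← hI] at hri hdev hnbig
    have hup2 : rsum (tent v δ) n lam ≤ (n : ℝ) * (B + δ) * (n * I + 2 * (1 / δ)) :=
      hup.trans (mul_le_mul_of_nonneg_left hri (by positivity))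
    -- the lower bound
    have hvI := hsv v hv
    have hDc : ContinuousOn D (Set.Icc (-1 : ℝ) 1) := by
      rw [Metric.continuousOn_iff]
      intro u hu e he
      refine ⟨e, he, fun u' hu' hd => ?_⟩
      rw [Real.dist_eq] at hd ⊢
      have := hD2 u' hu' u hu
      have h1 := abs_nonneg (u' - u)
      linarith
    have hint : I * (D v - δ / 2) ≤ ∫ u in (-1 : ℝ)..1, tent v δ u * D u := by
      rw [hI, ← intervalIntegral.integral_mul_const]
      apply intervalIntegral.integral_mono_on (by norm_num)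
      · exact ((tent_cont v δ).mul continuous_const).intervalIntegrable _ _
      · apply ContinuousOn.intervalIntegrable
        rw [Set.uIcc_of_le (by norm_num)]
        exact (tent_cont v δ).continuousOn.mul hDc
      · intro u hu
        by_cases h1 : δ ≤ |u - v|
        · rw [tent_zero hδ0 u h1, zero_mul, zero_mul]
        · push Not at h1
          apply mul_le_mul_of_nonneg_left _ (tent_nonneg v δ u)
          have h2 := hD2 u hu v hvI
          have h3 := neg_abs_le (D u - D v)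
          linarith
    have hDv : D u₀ ≤ D v + δ / 2 := by
      have h2 := hD2 u₀ hu₀I v hvI
      have h3 := le_abs_self (D u₀ - D v)
      rw [abs_sub_comm u₀ v] at h2
      linarith
    have hBε : B ≤ D v + δ / 2 - ε := by linarith
    have hB1 : B + δ ≤ 1 := by
      have h1 := hD1 u₀ hu₀I
      have h2 := abs_nonneg u₀
      have h3 : ε ≤ 1 / 2 := by linarith
      rw [hδ]
      linarith
    have hlow := (abs_le.1 hdev).1
    have h1 : (n : ℝ) ^ 2 * (I * (D v - δ / 2)) - ε * I / 4 * (n : ℝ) ^ 2 ≤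
        (n : ℝ) * (B + δ) * (n * I + 2 * (1 / δ)) := by
      have h2 := mul_le_mul_of_nonneg_left hint (by positivity : (0 : ℝ) ≤ (n : ℝ) ^ 2)
      linarith
    have h2 : (n : ℝ) * (B + δ) * (n * I + 2 * (1 / δ)) ≤
        (n : ℝ) ^ 2 * I * (D v + 3 * δ / 2 - ε) + (n : ℝ) * (2 * (1 / δ)) := by
      have h3 : (n : ℝ) ^ 2 * I * (B + δ) ≤ (n : ℝ) ^ 2 * I * (D v + 3 * δ / 2 - ε) :=
        mul_le_mul_of_nonneg_left (by linarith) (by positivity)
      have h4 : (n : ℝ) * (2 * (1 / δ)) * (B + δ) ≤ (n : ℝ) * (2 * (1 / δ)) * 1 :=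
        mul_le_mul_of_nonneg_left hB1 (by positivity)
      nlinarith
    have h3 : (n : ℝ) ^ 2 * (ε * I / 4) ≤ (n : ℝ) * (2 * (1 / δ)) := by
      have h4 : (n : ℝ) ^ 2 * I * (D v + 3 * δ / 2 - ε) =
          (n : ℝ) ^ 2 * (I * (D v - δ / 2)) - (n : ℝ) ^ 2 * (ε * I / 2) := by
        rw [hδ]
        ring
      rw [h4] at h2
      linarith
    have h4 : (n : ℝ) * (ε * I / 4) ≤ 2 * (1 / δ) := by
      have h5 : (n : ℝ) * ((n : ℝ) * (ε * I / 4)) ≤ (n : ℝ) * (2 * (1 / δ)) := by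
        calc (n : ℝ) * ((n : ℝ) * (ε * I / 4)) = (n : ℝ) ^ 2 * (ε * I / 4) := by ring
          _ ≤ _ := h3
      exact le_of_mul_le_mul_left h5 hn'
    rw [div_lt_iff₀ (by positivity)] at hnbig
    have h5 : 2 * (1 / δ) = 8 / ε := by
      rw [hδ]
      field_simp
      norm_num
    rw [h5, le_div_iff₀ hε] at h4
    nlinarith
  exact_mod_cast Set.ncard_le_ncard hsub hfin

/-- **(M2)** -/
theorem cross2_ld
    (hM : ∀ g : ℝ → ℝ, Continuous g → ∀ τ ε : ℝ, 0 ≤ τ → τ < 1 → 0 < ε →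
      ∃ c > (0 : ℝ), ∃ n₀ : ℕ, ∀ n ≥ n₀,
      (({k | IsNetwork n k ∧ ε * (n : ℝ) ^ 2 <
        |rsum g n (shapeAt n ⌊(n.choose 2 : ℝ) * τ⌋₊ k) -
          (n : ℝ) ^ 2 * ∫ u in (-1 : ℝ)..1, g u * DD u τ|} : Set (List ℕ)).ncard : ℝ) ≤
      Real.exp (-c * (n : ℝ) ^ 2) * nets n)
    {τ ε : ℝ} (h0 : 0 ≤ τ) (h1 : τ < 1) (hε : 0 < ε) :
    ∃ c > (0 : ℝ), ∃ n₀ : ℕ, ∀ n ≥ n₀, ∀ m m' q : ℕ, m ≤ n → m' ≤ n →
      (q : ℝ) / n + ((m' : ℝ) - m) / (2 * n) ≤ DD (((m : ℝ) + m' - n) / n) τ - ε →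
      (({k | IsNetwork n k ∧ cross2 m m' (k.take ⌊(n.choose 2 : ℝ) * τ⌋₊) ≤ q} :
        Set (List ℕ)).ncard : ℝ) ≤ Real.exp (-c * (n : ℝ) ^ 2) * nets n :=
  memb (τ := τ) (D := fun u => DD u τ) (fun u hu => DD_le u τ hu ⟨h0, h1.le⟩)
    (fun u hu u' hu' => DD_lip u u' τ hu hu' ⟨h0, h1.le⟩) (fun g hg ε hε => hM g hg τ ε h0 h1 hε) hε

end Pool.Agent.SNL63
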