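import Pool.Agent.SNL63.EG

/-!
Sorting networks and shapes: the number of sorting networks, and the number of those in which the
particles `1, ..., m` are still in the places `1, ..., m` at time `s`.
-/

namespace Pool.Agent.SNL63

open Pool.Agent.SN8 Finset

lemma inv_rev (n : ℕ) : inv n (rev n) = n.choose 2 := by
  have h := inv_add_inv (Supp.one n)
  rw [inv_one] at h
  simpa using h

lemma red_of_network {n : ℕ} {k : List ℕ} (hk : IsNetwork n k) : Red n k := by
  rw [isNetwork_iff] at hk
  obtain ⟨h1, h2, h3⟩ := hk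
  refine ⟨h2, fun l' hl' hP => ?_⟩
  have := inv_P_le (n := n) l' hl'
  rw [hP, h3, inv_rev] at this
  omega

lemma exists_network (n : ℕ) : ∃ k, IsNetwork n k := by
  have h := count_words n (rev n) (rev_supp n)
  rw [inv_rev] at h
  have h1 : 0 < (n.choose 2).factorial := Nat.factorial_pos _
  have h2 : 0 < (W n (n.choose 2) (rev n)).ncard := by
    rcases Nat.eq_zero_or_pos (W n (n.choose 2) (rev n)).ncard with h0 | h0
    · rw [h0] at h; omega
    · exact h0
  obtain ⟨k, hk⟩ := Set.nonempty_of_ncard_ne_zero h2.ne'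
  exact ⟨k, (isNetwork_iff n k).mpr hk⟩

lemma tab_network {n : ℕ} {k : List ℕ} (hk : IsNetwork n k) : tab k = stT 0 (n - 1) := by
  have hr := red_of_network hk
  obtain ⟨h1, h2, h3, h4⟩ := tab_spec hr
  have hlen : (word (tab k)).length = n.choose 2 := by rw [h3]; exact hk.1
  have hz : ∀ z ∈ word (tab k), 1 ≤ z ∧ z + 1 ≤ n := fun z hz => hk.2.1 z (h4 z hz)
  refine (full_aux h1 (n - 1) 0 ?_ ?_).2 ?_
  · intro z hz'
    rcases h : tab k with _ | ⟨R, T⟩
    · rw [h] at hz'; simp at hz'
    · rw [h] at hz' hz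
      have : z ∈ word (R :: T) := by
        show z ∈ word T ++ R
        simp only [List.headD_cons] at hz'
        simp [hz']
      have := (hz z this).1
      omega
  · intro z hz'
    have := (hz z hz').2
    omega
  · rw [hlen]
    rcases Nat.eq_zero_or_pos n with h0 | h0
    · subst h0; rfl
    · congr 1; omega

lemma net_iff (n : ℕ) (k : List ℕ) : IsNetwork n k ↔ k ∈ Fib n (stT 0 (n - 1)) := by
  constructor
  · intro hk
    exact ⟨red_of_network hk, tab_network hk⟩
  · rintro ⟨h1, h2⟩
    obtain ⟨k₀, hk₀⟩ := exists_network n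
    obtain ⟨a1, a2, a3, a4⟩ := tab_spec (red_of_network hk₀)
    obtain ⟨b1, b2, b3, b4⟩ := tab_spec h1
    rw [h2] at b2 b3
    rw [tab_network hk₀] at a2 a3
    have hk₀' := (isNetwork_iff n k₀).mp hk₀
    rw [isNetwork_iff]
    refine ⟨?_, h1.1, ?_⟩
    · rw [← b3, a3]; exact hk₀'.1
    · rw [← b2, a2]; exact hk₀'.2.2

lemma T0_tab (n : ℕ) : Tab (stT 0 (n - 1)) ∧ Red n (word (stT 0 (n - 1))) ∧
    (word (stT 0 (n - 1))).length = n.choose 2 := by
  obtain ⟨k₀, hk₀⟩ := exists_network n
  have hr := red_of_network hk₀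
  obtain ⟨a1, a2, a3, a4⟩ := tab_spec hr
  have := tab_red hr
  rw [tab_network hk₀] at a1 a3 this
  exact ⟨a1, this, by rw [a3]; exact hk₀.1⟩

lemma shp_T0 (n : ℕ) : shp (stT 0 (n - 1)) = stair n := by
  funext i
  rw [shp_stT]; rfl

theorem nets_eq (n : ℕ) : nets n = F n (n.choose 2) (stair n) := by
  obtain ⟨h1, h2, h3⟩ := T0_tab n
  rw [nets, ← shp_T0, ← fib_card _ h1 h2 h3]
  congr 1
  ext k
  exact net_iff n k

lemma P_reverse (l : List ℕ) : P l.reverse = (P l)⁻¹ := by
  induction l with
  | nil => simp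
  | cons j l ih => rw [List.reverse_cons, P_append, P_singleton, ih, P_cons, mul_inv_rev, sw_inv]

lemma reverse_network {n : ℕ} {k : List ℕ} (hk : IsNetwork n k) : IsNetwork n k.reverse := by
  rw [isNetwork_iff] at hk ⊢
  obtain ⟨h1, h2, h3⟩ := hk
  refine ⟨by rw [List.length_reverse, h1], fun j hj => h2 j (by simpa using hj), ?_⟩
  rw [P_reverse, h3, rev_inv]

/-- the position in the reversed network -/
lemma place_reverse {n s : ℕ} {k : List ℕ} (hk : IsNetwork n k) (x : ℕ) :
    place (k.reverse.take (n.choose 2 - s)) x = place (k.take s) (rev n x) := by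
  have hk' := (isNetwork_iff n k).mp hk
  have e1 : k.reverse.take (n.choose 2 - s) = (k.drop s).reverse := by
    rcases Nat.lt_or_ge s (n.choose 2) with h | h
    · rw [List.take_reverse, hk.1]
      congr 2
      omega
    · rw [Nat.sub_eq_zero_of_le h, List.take_zero, List.drop_of_length_le (by rw [hk.1]; exact h)]
      rfl
  have e2 : P (k.drop s) = (P (k.take s))⁻¹ * rev n := by
    rw [← hk'.2.2, eq_inv_mul_iff_mul_eq, ← P_append, List.take_append_drop]
  rw [e1, place_eq, P_reverse, inv_inv, e2, place_eq]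
  rfl

theorem cross_zero_le {n m s : ℕ} (hm : 1 ≤ m) (hmn : m < n) (hs : s ≤ n.choose 2) :
    ({k | IsNetwork n k ∧ cross m (k.take s) = 0} : Set (List ℕ)).ncard ≤
      A n (n - m) m s (n.choose 2 - s) (stair n) := by
  obtain ⟨h1, h2, h3⟩ := T0_tab n
  rw [← shp_T0, ← fib_card_A s h1 h2 (by omega)]
  rw [← Set.ncard_image_of_injective _ List.reverse_injective]
  apply Set.ncard_le_ncard
  · rintro _ ⟨k, ⟨hk, hc⟩, rfl⟩
    have hk' := reverse_network hk
    refine ⟨(net_iff n _).mp hk', ?_⟩
    have hr : Red n (k.reverse.take (n.choose 2 - s)) := by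
      have := red_of_network hk'
      rw [← List.take_append_drop (n.choose 2 - s) k.reverse] at this
      exact this.left
    obtain ⟨t1, t2, t3, t4⟩ := tab_spec hr
    apply cell_of_crossed t1 (fun j hj => hr.1 j (t4 j hj)) (by omega : (n - m) + m = n) (by omega)
    intro x hx1 hx2
    rw [place_congr t2, place_reverse hk, rev_apply, if_pos ⟨by omega, hx2⟩]
    rw [cross, card_eq_zero, filter_eq_empty_iff] at hc
    have := hc (x := n + 1 - x) (by rw [mem_Icc]; omega)
    omega
  · exact (fib_finite n _).subset fun a ha => ha.1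

end Pool.Agent.SNL63
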