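import Pool.Agent.SNL63.Adm
import Pool.Agent.SNL63.Octagon

/-!
# The permutons allowed by the limit shape live on the octagon
-/

namespace Pool.Agent.SNL63

open MeasureTheory Set Filter Topology Pool.Agent.SN8
open scoped ENNReal Real

theorem unif_Iic {a : ℝ} (ha : a ∈ Icc (-1 : ℝ) 1) : unif (Iic a) = ENNReal.ofReal ((1 + a) / 2) := by
  have h : Iic a ∩ Icc (-1) 1 = Icc (-1) a := by
    ext x
    simp only [mem_inter_iff, mem_Iic, mem_Icc]
    constructor
    · rintro ⟨h1, h2, -⟩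
      exact ⟨h2, h1⟩
    · rintro ⟨h1, h2⟩
      exact ⟨h2, h1, h2.trans ha.2⟩
  rw [unif, Measure.smul_apply, smul_eq_mul, Measure.restrict_apply measurableSet_Iic, h, Real.volume_Icc,
    div_eq_inv_mul, ENNReal.ofReal_mul (by norm_num), ENNReal.ofReal_inv_of_pos (by norm_num),
    ENNReal.ofReal_ofNat]
  congr 2
  ring

theorem unif_Ioi {b : ℝ} (hb : b ∈ Icc (-1 : ℝ) 1) : unif (Ioi b) = ENNReal.ofReal ((1 - b) / 2) := by
  have h : Ioi b ∩ Icc (-1) 1 = Ioc b 1 := by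
    ext x
    simp only [mem_inter_iff, mem_Ioi, mem_Icc, mem_Ioc]
    constructor
    · rintro ⟨h1, -, h2⟩
      exact ⟨h1, h2⟩
    · rintro ⟨h1, h2⟩
      exact ⟨h1, hb.1.trans h1.le, h2⟩
  rw [unif, Measure.smul_apply, smul_eq_mul, Measure.restrict_apply measurableSet_Ioi, h, Real.volume_Ioc,
    div_eq_inv_mul, ENNReal.ofReal_mul (by norm_num), ENNReal.ofReal_inv_of_pos (by norm_num),
    ENNReal.ofReal_ofNat]

/-- **Every permuton allowed by the limit shape lives on the octagon** -/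
theorem adm2_oct {t : ℝ} (ht : t ∈ Icc (0 : ℝ) 1) {ν : Measure (ℝ × ℝ)} [IsProbabilityMeasure ν]
    (h : Adm2 t ν) :
    ν {p | 2 * √(1 - (1 - t) ^ 2) < |p.1 - p.2| ∨ 2 * √(1 - t ^ 2) < |p.1 + p.2|} = 0 := by
  have hcov : {p : ℝ × ℝ | 2 * √(1 - (1 - t) ^ 2) < |p.1 - p.2| ∨ 2 * √(1 - t ^ 2) < |p.1 + p.2|} ⊆
      ⋃ m : ℕ, {p : ℝ × ℝ | 2 * √(1 - (1 - t) ^ 2) + 1 / ((m : ℝ) + 1) < |p.1 - p.2| ∨
        2 * √(1 - t ^ 2) + 1 / ((m : ℝ) + 1) < |p.1 + p.2|} := by
    rintro p (hp | hp)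
    · obtain ⟨m, hm⟩ := exists_nat_one_div_lt (sub_pos.2 hp)
      exact mem_iUnion.2 ⟨m, Or.inl (by linarith)⟩
    · obtain ⟨m, hm⟩ := exists_nat_one_div_lt (sub_pos.2 hp)
      exact mem_iUnion.2 ⟨m, Or.inr (by linarith)⟩
  refine measure_mono_null hcov (measure_iUnion_null fun m => ?_)
  obtain ⟨C, -, hC⟩ := octagon_det (1 / ((m : ℝ) + 1)) (by positivity)
  have key := hC t ht ν inferInstance 0 le_rfl ?_ ?_ ?_ ?_ ?_
  · rw [mul_zero, ENNReal.ofReal_zero] at key
    exact le_antisymm key zero_le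
  · intro a ha
    have : ν {p | p.1 ≤ a} = unif (Iic a) := by
      rw [← h.fst, Measure.map_apply measurable_fst measurableSet_Iic]
      rfl
    rw [this, unif_Iic ha, add_zero]
  · intro b hb
    have : ν {p | b < p.1} = unif (Ioi b) := by
      rw [← h.fst, Measure.map_apply measurable_fst measurableSet_Ioi]
      rfl
    rw [this, unif_Ioi hb, add_zero]
  · intro a ha
    have : ν {p | p.2 ≤ a} = unif (Iic a) := by
      rw [← h.snd, Measure.map_apply measurable_snd measurableSet_Iic]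
      rfl
    rw [this, unif_Iic ha, add_zero]
  · intro b hb
    have : ν {p | b < p.2} = unif (Ioi b) := by
      rw [← h.snd, Measure.map_apply measurable_snd measurableSet_Ioi]
      rfl
    rw [this, unif_Ioi hb, add_zero]
  · intro a ha b hb
    have hl : ∀ S : Set ℝ, ν (S ×ˢ Icc b 1) ≤ ν (S ×ˢ Ioc b 1) := by
      intro S
      have h1 : S ×ˢ Icc b 1 ⊆ (S ×ˢ Ioc b 1) ∪ {p : ℝ × ℝ | p.2 = b} := by
        rintro p ⟨hp1, hp2, hp3⟩
        rcases lt_or_eq_of_le hp2 with h | h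
        · exact Or.inl ⟨hp1, h, hp3⟩
        · exact Or.inr h.symm
      refine (measure_mono h1).trans ((measure_union_le _ _).trans ?_)
      rw [snd_line h.snd b, add_zero]
    rw [sub_zero, sub_zero]
    exact ⟨(h.low a ha b hb).trans (hl _), (h.low' a ha b hb).trans (hl _)⟩

end Pool.Agent.SNL63
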