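import Pool.Agent.SNL63.Rot2

/-!
# Quadrants and bands for all pairs of times
-/

namespace Pool.Agent.SNL63

open Pool.Agent.SN8 MeasureTheory Set Filter Topology
open scoped ENNReal Real

theorem const_of_ge {f : ℕ → ℝ} (h1 : ∀ n, f n ≤ 1) {c₁ c₂ : ℝ} (hc₁ : 0 < c₁) (hc₂ : 0 < c₂) {n₀ : ℕ}
    (h : ∀ n ≥ n₀, f n ≤ c₁ * Real.exp (-c₂ * (n : ℝ) ^ 2)) :
    ∃ c₁ > (0 : ℝ), ∃ c₂ > (0 : ℝ), ∀ n : ℕ, 2 ≤ n → f n ≤ c₁ * Real.exp (-c₂ * (n : ℝ) ^ 2) := by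
  refine ⟨c₁ + Real.exp (c₂ * (n₀ : ℝ) ^ 2), by positivity, c₂, hc₂, fun n _ => ?_⟩
  rw [add_mul]
  have e1 : 0 ≤ c₁ * Real.exp (-c₂ * (n : ℝ) ^ 2) := by positivity
  have e2 : 0 ≤ Real.exp (c₂ * (n₀ : ℝ) ^ 2) * Real.exp (-c₂ * (n : ℝ) ^ 2) := by positivity
  rcases le_total n₀ n with hn | hn
  · have := h n hn
    linarith
  · have e3 : 1 ≤ Real.exp (c₂ * (n₀ : ℝ) ^ 2) * Real.exp (-c₂ * (n : ℝ) ^ 2) := by
      rw [← Real.exp_add, Real.one_le_exp_iff]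
      have e4 : (n : ℝ) ^ 2 ≤ (n₀ : ℝ) ^ 2 := by
        have : (n : ℝ) ≤ n₀ := by exact_mod_cast hn
        gcongr
      nlinarith
    have := h1 n
    linarith

/-- The transfer from the times `0 ≤ t` to the times `s ≤ t`, for bad events which are stable under a
small change of the time. -/
theorem pairs_of {B : ℝ → ℝ → Measure (ℝ × ℝ) → Prop}
    (hcont : ∀ ε > (0 : ℝ), ∃ δ > (0 : ℝ), ∀ t ∈ Icc (0 : ℝ) 1, ∀ t' ∈ Icc (0 : ℝ) 1, |t' - t| ≤ δ →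
      ∀ μ, B ε t μ → B (ε / 2) t' μ)
    (h : ∀ ε > (0 : ℝ), ∃ c₁ > (0 : ℝ), ∃ c₂ > (0 : ℝ), ∀ n : ℕ, 2 ≤ n →
      prob n (fun k => ∃ t ∈ Icc (0 : ℝ) 1, B ε t (eta n k t)) ≤ c₁ * Real.exp (-c₂ * (n : ℝ) ^ 2))
    {ε : ℝ} (hε : 0 < ε) :
    ∃ c₁ > (0 : ℝ), ∃ c₂ > (0 : ℝ), ∀ n : ℕ, 2 ≤ n →
      prob n (fun k => ∃ s t : ℝ, 0 ≤ s ∧ s ≤ t ∧ t ≤ 1 ∧ B ε (t - s) (eta2 n k s t)) ≤
        c₁ * Real.exp (-c₂ * (n : ℝ) ^ 2) := by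
  obtain ⟨δ, hδ, hB⟩ := hcont ε hε
  obtain ⟨c₁, hc₁, c₂, hc₂, h'⟩ := all_rot (E := fun n k => ∃ t ∈ Icc (0 : ℝ) 1, B (ε / 2) t (eta n k t))
    (h (ε / 2) (by linarith))
  obtain ⟨n₁, hn₁⟩ := exists_nat_ge (2 / δ)
  refine const_of_ge (n₀ := max 2 n₁) (fun n => prob_le_one n _) hc₁ hc₂ fun n hn => ?_
  have hn2 : 2 ≤ n := (le_max_left _ _).trans hn
  have hn3 : n₁ ≤ n := (le_max_right _ _).trans hn
  have hn0 : (2 : ℝ) ≤ n := by exact_mod_cast hn2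
  have hNr : (n.choose 2 : ℝ) = n * (n - 1) / 2 := Nat.cast_choose_two ℝ n
  refine (prob_mono fun k hk => ?_).trans (h' n hn2)
  rintro ⟨s, t, h0, hst, h1, hU⟩
  obtain ⟨i, hi, r, hr, hrt, he⟩ := eta2_rot hn2 hk h0 hst h1
  refine ⟨i, hi, r, hr, hB (t - s) ⟨by linarith, by linarith⟩ r hr (hrt.trans ?_) _ (by rw [← he]; exact hU)⟩
  have hNpos : (0 : ℝ) < (n.choose 2 : ℝ) := by
    rw [hNr]
    nlinarith
  rw [div_le_iff₀ hNpos, hNr]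
  have e1 : 2 / δ ≤ n := hn₁.trans (by exact_mod_cast hn3)
  rw [div_le_iff₀ hδ] at e1
  have e2 : 2 * (n - 1) / 2 ≤ n * δ * (n - 1) / 2 := by
    have : 2 * ((n : ℝ) - 1) ≤ n * δ * (n - 1) := mul_le_mul_of_nonneg_right e1 (by linarith)
    linarith
  have e3 : δ * (n * (n - 1) / 2) = n * δ * (n - 1) / 2 := by ring
  rw [e3]
  linarith

/-! ### Quadrants -/

/-- some quadrant has too small a mass -/
def BQ (ε t : ℝ) (μ : Measure (ℝ × ℝ)) : Prop :=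
  ∃ a ∈ Icc (-1 : ℝ) 1, ∃ b ∈ Icc (-1 : ℝ) 1,
    μ (Icc (-1) a ×ˢ Ioc b 1) < ENNReal.ofReal (DD ((a + b) / 2) t + (a - b) / 4 - ε) ∨
    μ (Icc (-a) 1 ×ˢ Ioc b 1) < ENNReal.ofReal (DD ((a + b) / 2) (1 - t) + (a - b) / 4 - ε)

/-- some place is crossed by too large a mass -/
def BU (ε t : ℝ) (μ : Measure (ℝ × ℝ)) : Prop :=
  ∃ a ∈ Icc (-1 : ℝ) 1, ENNReal.ofReal (2 / π * t * √(1 - a ^ 2) + ε) < μ (Ro a) ∨
    ENNReal.ofReal (2 / π * (1 - t) * √(1 - a ^ 2) + ε) < μ (Ro' a)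

theorem DD_unif {ε : ℝ} (hε : 0 < ε) : ∃ δ > (0 : ℝ), ∀ t ∈ Icc (0 : ℝ) 1, ∀ t' ∈ Icc (0 : ℝ) 1,
    |t' - t| ≤ δ → ∀ u ∈ Icc (-1 : ℝ) 1, |DD u t' - DD u t| ≤ ε := by
  have hc : IsCompact (Icc (-1 : ℝ) 1 ×ˢ Icc (0 : ℝ) 1) := isCompact_Icc.prod isCompact_Icc
  have hu := hc.uniformContinuousOn_of_continuous DD_cont
  rw [Metric.uniformContinuousOn_iff] at hu
  obtain ⟨δ, hδ, h⟩ := hu ε hε
  refine ⟨δ / 2, by linarith, fun t ht t' ht' htt u hu => ?_⟩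
  have := h (u, t') ⟨hu, ht'⟩ (u, t) ⟨hu, ht⟩ (by
    rw [Prod.dist_eq, dist_self, Real.dist_eq]
    exact lt_of_le_of_lt (max_le (by linarith) htt) (by linarith))
  rw [Real.dist_eq] at this
  exact this.le

theorem BQ_cont : ∀ ε > (0 : ℝ), ∃ δ > (0 : ℝ), ∀ t ∈ Icc (0 : ℝ) 1, ∀ t' ∈ Icc (0 : ℝ) 1, |t' - t| ≤ δ →
    ∀ μ, BQ ε t μ → BQ (ε / 2) t' μ := by
  intro ε hε
  obtain ⟨δ, hδ, h⟩ := DD_unif (show 0 < ε / 2 by linarith)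
  refine ⟨δ, hδ, fun t ht t' ht' htt μ => ?_⟩
  rintro ⟨a, ha, b, hb, hB⟩
  have hab : (a + b) / 2 ∈ Icc (-1 : ℝ) 1 := ⟨by linarith [ha.1, hb.1], by linarith [ha.2, hb.2]⟩
  refine ⟨a, ha, b, hb, ?_⟩
  rcases hB with hB | hB
  · left
    refine hB.trans_le (ENNReal.ofReal_le_ofReal ?_)
    have := (abs_le.1 (h t ht t' ht' htt _ hab)).1
    linarith
  · right
    refine hB.trans_le (ENNReal.ofReal_le_ofReal ?_)
    have := (abs_le.1 (h (1 - t) ⟨by linarith [ht.2], by linarith [ht.1]⟩ (1 - t')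
      ⟨by linarith [ht'.2], by linarith [ht'.1]⟩ (by
        have : 1 - t' - (1 - t) = -(t' - t) := by ring
        rw [this, abs_neg]
        exact htt) _ hab)).1
    linarith

theorem BU_cont : ∀ ε > (0 : ℝ), ∃ δ > (0 : ℝ), ∀ t ∈ Icc (0 : ℝ) 1, ∀ t' ∈ Icc (0 : ℝ) 1, |t' - t| ≤ δ →
    ∀ μ, BU ε t μ → BU (ε / 2) t' μ := by
  intro ε hε
  refine ⟨ε / 2, by linarith, fun t ht t' ht' htt μ => ?_⟩
  rintro ⟨a, ha, hB⟩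
  have hs0 : 0 ≤ √(1 - a ^ 2) := Real.sqrt_nonneg _
  have hs1 : √(1 - a ^ 2) ≤ 1 := by
    rw [Real.sqrt_le_left (by norm_num)]
    nlinarith [sq_nonneg a]
  have hp : 0 ≤ 2 / π := by positivity
  have hp1 : 2 / π ≤ 1 := by
    rw [div_le_one Real.pi_pos]
    linarith [Real.two_le_pi]
  have hc : 2 / π * √(1 - a ^ 2) ≤ 1 := by nlinarith
  have hc0 : 0 ≤ 2 / π * √(1 - a ^ 2) := by positivity
  obtain ⟨c, hcc⟩ : ∃ c, c = 2 / π * √(1 - a ^ 2) := ⟨_, rfl⟩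
  have htt' := abs_le.1 htt
  have e1 : c * (t' - t) ≤ ε / 2 := by
    rcases le_total 0 (t' - t) with h | h
    · rw [← hcc] at hc hc0
      nlinarith
    · rw [← hcc] at hc hc0
      nlinarith
  have e2 : c * (t - t') ≤ ε / 2 := by
    rcases le_total 0 (t - t') with h | h
    · rw [← hcc] at hc hc0
      nlinarith
    · rw [← hcc] at hc hc0
      nlinarith
  refine ⟨a, ha, ?_⟩
  rcases hB with hB | hB
  · left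
    refine lt_of_le_of_lt (ENNReal.ofReal_le_ofReal ?_) hB
    have f1 : 2 / π * t' * √(1 - a ^ 2) = c * t' := by rw [hcc]; ring
    have f2 : 2 / π * t * √(1 - a ^ 2) = c * t := by rw [hcc]; ring
    rw [f1, f2]
    linarith
  · right
    refine lt_of_le_of_lt (ENNReal.ofReal_le_ofReal ?_) hB
    have f1 : 2 / π * (1 - t') * √(1 - a ^ 2) = c * (1 - t') := by rw [hcc]; ring
    have f2 : 2 / π * (1 - t) * √(1 - a ^ 2) = c * (1 - t) := by rw [hcc]; ring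
    rw [f1, f2]
    linarith

/-- The crossing masses between all pairs of times. -/
theorem band2 {ε : ℝ} (hε : 0 < ε) :
    ∃ c₁ > (0 : ℝ), ∃ c₂ > (0 : ℝ), ∀ n : ℕ, 2 ≤ n →
      prob n (fun k => ∃ s t : ℝ, 0 ≤ s ∧ s ≤ t ∧ t ≤ 1 ∧ BU ε (t - s) (eta2 n k s t)) ≤
        c₁ * Real.exp (-c₂ * (n : ℝ) ^ 2) :=
  pairs_of BU_cont (fun _ h => band h) hε

/-- The masses of the quadrants between all pairs of times. -/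
theorem quad2_of
    (hquad : ∀ ε : ℝ, 0 < ε → ∃ c₁ > (0 : ℝ), ∃ c₂ > (0 : ℝ), ∀ n : ℕ, 2 ≤ n →
      prob n (fun k => ∃ t ∈ Icc (0 : ℝ) 1, ∃ a ∈ Icc (-1 : ℝ) 1, ∃ b ∈ Icc (-1 : ℝ) 1,
        eta n k t (Icc (-1) a ×ˢ Ioc b 1) < ENNReal.ofReal (DD ((a + b) / 2) t + (a - b) / 4 - ε) ∨
        eta n k t (Icc (-a) 1 ×ˢ Ioc b 1) <
          ENNReal.ofReal (DD ((a + b) / 2) (1 - t) + (a - b) / 4 - ε)) ≤
      c₁ * Real.exp (-c₂ * (n : ℝ) ^ 2))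
    {ε : ℝ} (hε : 0 < ε) :
    ∃ c₁ > (0 : ℝ), ∃ c₂ > (0 : ℝ), ∀ n : ℕ, 2 ≤ n →
      prob n (fun k => ∃ s t : ℝ, 0 ≤ s ∧ s ≤ t ∧ t ≤ 1 ∧ BQ ε (t - s) (eta2 n k s t)) ≤
        c₁ * Real.exp (-c₂ * (n : ℝ) ^ 2) :=
  pairs_of BQ_cont (fun ε h => hquad ε h) hε

end Pool.Agent.SNL63
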