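import Pool.Agent.SNL63.HHLog2
import Pool.Agent.SNL63.DCalc
import Pool.Agent.SNL63.LLog
import Pool.Agent.SNL63.Dens

/-!
The law of large numbers for the sums over the removed cells, for all continuous test functions.
-/

namespace Pool.Agent.SNL63

open Pool.Agent.SN8 MeasureTheory Set Filter Topology
open scoped ENNReal Real

/-- the large deviation bound for the sum of `g` over the removed cells -/
def LDR (τ : ℝ) (g : ℝ → ℝ) : Prop := ∀ ε : ℝ, 0 < ε → ∃ c > (0 : ℝ), ∃ n₀ : ℕ, ∀ n ≥ n₀,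
  (({k | IsNetwork n k ∧ ε * (n : ℝ) ^ 2 <
    |rsum g n (shapeAt n ⌊(n.choose 2 : ℝ) * τ⌋₊ k) -
      (n : ℝ) ^ 2 * ∫ u in (-1 : ℝ)..1, g u * DD u τ|} : Set (List ℕ)).ncard : ℝ) ≤
  Real.exp (-c * (n : ℝ) ^ 2) * nets n

theorem LDR_absorb {K c : ℝ} (hK : 0 ≤ K) (hc : 0 < c) :
    ∃ n₀ : ℕ, ∀ n ≥ n₀, K * Real.exp (-c * (n : ℝ) ^ 2) ≤ Real.exp (-(c / 2) * (n : ℝ) ^ 2) := by
  refine ⟨⌈2 * K / c⌉₊ + 1, fun n hn => ?_⟩
  have h1 : (2 * K / c : ℝ) ≤ n := by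
    have h2 : (2 * K / c : ℝ) ≤ ⌈2 * K / c⌉₊ := Nat.le_ceil _
    have h3 : ((⌈2 * K / c⌉₊ + 1 : ℕ) : ℝ) ≤ n := by exact_mod_cast hn
    push_cast at h3
    linarith
  have h4 : (1 : ℝ) ≤ n := by
    have : 1 ≤ n := by omega
    exact_mod_cast this
  rw [div_le_iff₀ hc] at h1
  have h5 : K ≤ Real.exp (c / 2 * (n : ℝ) ^ 2) := by
    have h6 := Real.add_one_le_exp (c / 2 * (n : ℝ) ^ 2)
    nlinarith
  have h7 : Real.exp (-(c / 2) * (n : ℝ) ^ 2) =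
      Real.exp (c / 2 * (n : ℝ) ^ 2) * Real.exp (-c * (n : ℝ) ^ 2) := by
    rw [← Real.exp_add]
    congr 1
    ring
  rw [h7]
  exact mul_le_mul_of_nonneg_right h5 (Real.exp_pos _).le

/-- the shapes of a network lie inside the staircase -/
theorem shapeAt_le {n s : ℕ} {k : List ℕ} (hk : IsNetwork n k) (i : ℕ) :
    shapeAt n s k i ≤ n - 1 - i := by
  have hr := red_take_reverse (s := s) hk
  obtain ⟨t1, t2, t3, t4⟩ := tab_spec hr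
  exact shape_le t1 (fun j hj => hr.1 j (t4 j hj)) i

theorem rsB_sub (g g' : ℝ → ℝ) (n : ℕ) (lam : ℕ → ℕ) :
    rsum (fun u => g u - g' u) n lam = rsum g n lam - rsum g' n lam := by
  unfold rsum
  simp only [Finset.sum_sub_distrib]

theorem rsB_lin {ι : Type*} (s : Finset ι) (a : ι → ℝ) (g : ι → ℝ → ℝ) (n : ℕ) (lam : ℕ → ℕ) :
    rsum (fun u => ∑ i ∈ s, a i * g i u) n lam = ∑ i ∈ s, a i * rsum (g i) n lam := by
  unfold rsum
  have h1 : ∀ x ∈ Finset.range n, (∑ y ∈ Finset.Ico (lam x) (n - 1 - x), ∑ i ∈ s,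
      a i * g i (((y : ℝ) - x) / n)) = ∑ i ∈ s, ∑ y ∈ Finset.Ico (lam x) (n - 1 - x),
      a i * g i (((y : ℝ) - x) / n) := fun x _ => Finset.sum_comm
  rw [Finset.sum_congr rfl h1, Finset.sum_comm]
  refine Finset.sum_congr rfl fun i _ => ?_
  rw [Finset.mul_sum]
  refine Finset.sum_congr rfl fun x _ => ?_
  rw [Finset.mul_sum]

/-- the number of removed cells is at most `n ^ 2` -/
theorem rsB_abs_le {g : ℝ → ℝ} {n : ℕ} {lam : ℕ → ℕ} {B : ℝ} (hB : 0 ≤ B)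
    (hg : ∀ u ∈ Icc (-1 : ℝ) 1, |g u| ≤ B) : |rsum g n lam| ≤ B * (n : ℝ) ^ 2 := by
  unfold rsum
  refine (Finset.abs_sum_le_sum_abs _ _).trans ?_
  have h1 : ∀ i ∈ Finset.range n,
      |∑ j ∈ Finset.Ico (lam i) (n - 1 - i), g (((j : ℝ) - i) / n)| ≤ n * B := by
    intro i hi
    have hi' := Finset.mem_range.1 hi
    refine (Finset.abs_sum_le_sum_abs _ _).trans ?_
    have h2 : ∀ j ∈ Finset.Ico (lam i) (n - 1 - i), |g (((j : ℝ) - i) / n)| ≤ B := by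
      intro j hj
      have hj' := (Finset.mem_Ico.1 hj).2
      apply hg
      have hn : (0 : ℝ) < n := by
        have : 0 < n := by omega
        exact_mod_cast this
      have h3 : (i : ℝ) ≤ n := by exact_mod_cast hi'.le
      have h4 : (j : ℝ) ≤ n := by
        have : j ≤ n := by omega
        exact_mod_cast this
      have h5 : (0 : ℝ) ≤ i := Nat.cast_nonneg _
      have h6 : (0 : ℝ) ≤ j := Nat.cast_nonneg _
      constructor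
      · rw [le_div_iff₀ hn]
        linarith
      · rw [div_le_iff₀ hn]
        linarith
    refine (Finset.sum_le_card_nsmul _ _ _ h2).trans ?_
    rw [nsmul_eq_mul]
    apply mul_le_mul_of_nonneg_right _ hB
    rw [Nat.card_Ico]
    have : n - 1 - i - lam i ≤ n := by omega
    exact_mod_cast this
  refine (Finset.sum_le_card_nsmul _ _ _ h1).trans ?_
  rw [nsmul_eq_mul, Finset.card_range]
  apply le_of_eq
  ring

theorem DD_cont_u {τ : ℝ} (h0 : 0 ≤ τ) (h1 : τ ≤ 1) : Continuous (fun u => DD u τ) := by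
  rw [← continuousOn_univ]
  exact DD_cont'.comp (f := fun u : ℝ => (u, τ)) (by fun_prop) (fun u _ => ⟨mem_univ _, h0, h1⟩)

theorem gDD_int {g : ℝ → ℝ} {τ : ℝ} (h0 : 0 ≤ τ) (h1 : τ ≤ 1) (hg : ContinuousOn g (Icc (-1) 1)) :
    IntervalIntegrable (fun u => g u * DD u τ) volume (-1) 1 := by
  apply ContinuousOn.intervalIntegrable
  rw [uIcc_of_le (by norm_num)]
  exact hg.mul (DD_cont_u h0 h1).continuousOn

/-- the integral against the profile -/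
theorem gDD_abs_le {g : ℝ → ℝ} {τ B : ℝ} (h0 : 0 ≤ τ) (h1 : τ ≤ 1) (hB : 0 ≤ B)
    (hg : ∀ u ∈ Icc (-1 : ℝ) 1, |g u| ≤ B) : |∫ u in (-1 : ℝ)..1, g u * DD u τ| ≤ B := by
  have h2 : ‖∫ u in (-1 : ℝ)..1, g u * DD u τ‖ ≤ (B * (1 / 2)) * |(1 : ℝ) - (-1)| := by
    apply intervalIntegral.norm_integral_le_of_norm_le_const
    intro u hu
    rw [uIoc_of_le (by norm_num)] at hu
    have hu' : u ∈ Icc (-1 : ℝ) 1 := ⟨hu.1.le, hu.2⟩
    have h3 := DD_le u τ hu' ⟨h0, h1⟩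
    have h4 := DD_nonneg u τ ⟨h0, h1⟩
    have h5 := hg u hu'
    rw [Real.norm_eq_abs, abs_mul, abs_of_nonneg h4]
    have h6 : DD u τ ≤ 1 / 2 := by
      have := abs_nonneg u
      linarith
    exact mul_le_mul h5 h6 h4 hB
  rw [Real.norm_eq_abs] at h2
  refine h2.trans (le_of_eq ?_)
  rw [show |(1 : ℝ) - -1| = 2 by norm_num]
  ring

/-- finite linear combinations -/
theorem LDR_lin {τ : ℝ} (h0 : 0 ≤ τ) (h1 : τ ≤ 1) {N : ℕ} (a : Fin N → ℝ) (g : Fin N → ℝ → ℝ)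
    (hg : ∀ i, ContinuousOn (g i) (Icc (-1) 1)) (h : ∀ i, LDR τ (g i)) :
    LDR τ (fun u => ∑ i, a i * g i u) := by
  intro ε hε
  obtain ⟨S, hS⟩ : ∃ S : ℝ, S = ∑ i, |a i| + 1 := ⟨_, rfl⟩
  have hS0 : 0 < S := by
    rw [hS]
    have : 0 ≤ ∑ i, |a i| := Finset.sum_nonneg fun i _ => abs_nonneg _
    linarith
  have h2 : ∀ i : Fin N, ∃ c > (0 : ℝ), ∃ n₀ : ℕ, ∀ n ≥ n₀,
      (({k | IsNetwork n k ∧ ε / S * (n : ℝ) ^ 2 <
        |rsum (g i) n (shapeAt n ⌊(n.choose 2 : ℝ) * τ⌋₊ k) -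
          (n : ℝ) ^ 2 * ∫ u in (-1 : ℝ)..1, g i u * DD u τ|} : Set (List ℕ)).ncard : ℝ) ≤
      Real.exp (-c * (n : ℝ) ^ 2) * nets n := fun i => h i (ε / S) (by positivity)
  choose c hc n₀ hn₀ using h2
  obtain ⟨C, hC⟩ : ∃ C > (0 : ℝ), ∀ i, C ≤ c i := by
    rcases isEmpty_or_nonempty (Fin N) with hN | hN
    · exact ⟨1, one_pos, fun i => hN.elim i⟩
    · obtain ⟨i, hi⟩ := Finite.exists_min c
      exact ⟨c i, hc i, hi⟩
  obtain ⟨n₁, hn₁⟩ := LDR_absorb (K := N) (c := C) (Nat.cast_nonneg _) hC.1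
  refine ⟨C / 2, by linarith [hC.1], max n₁ (∑ i, n₀ i), fun n hn => ?_⟩
  have hn1 : n₁ ≤ n := (le_max_left _ _).trans hn
  have hn2 : ∀ i, n₀ i ≤ n := by
    intro i
    have h3 : n₀ i ≤ ∑ j, n₀ j := Finset.single_le_sum (fun j _ => Nat.zero_le _) (Finset.mem_univ i)
    exact h3.trans ((le_max_right _ _).trans hn)
  have hsub : {k | IsNetwork n k ∧ ε * (n : ℝ) ^ 2 <
        |rsum (fun u => ∑ i, a i * g i u) n (shapeAt n ⌊(n.choose 2 : ℝ) * τ⌋₊ k) -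
          (n : ℝ) ^ 2 * ∫ u in (-1 : ℝ)..1, (∑ i, a i * g i u) * DD u τ|} ⊆
      ⋃ i : Fin N, {k | IsNetwork n k ∧ ε / S * (n : ℝ) ^ 2 <
        |rsum (g i) n (shapeAt n ⌊(n.choose 2 : ℝ) * τ⌋₊ k) -
          (n : ℝ) ^ 2 * ∫ u in (-1 : ℝ)..1, g i u * DD u τ|} := by
    rintro k ⟨hk, hk2⟩
    by_contra hcon
    rw [mem_iUnion] at hcon
    push Not at hcon
    have h3 : ∀ i : Fin N, |rsum (g i) n (shapeAt n ⌊(n.choose 2 : ℝ) * τ⌋₊ k) -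
          (n : ℝ) ^ 2 * ∫ u in (-1 : ℝ)..1, g i u * DD u τ| ≤ ε / S * (n : ℝ) ^ 2 := by
      intro i
      by_contra h4
      exact hcon i ⟨hk, not_le.1 h4⟩
    have h5 : ∫ u in (-1 : ℝ)..1, (∑ i, a i * g i u) * DD u τ =
        ∑ i, a i * ∫ u in (-1 : ℝ)..1, g i u * DD u τ := by
      have h6 : (fun u => (∑ i, a i * g i u) * DD u τ) = fun u => ∑ i, a i * (g i u * DD u τ) := by
        funext u
        rw [Finset.sum_mul]
        refine Finset.sum_congr rfl fun i _ => ?_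
        ring
      rw [h6, intervalIntegral.integral_finsetSum]
      · refine Finset.sum_congr rfl fun i _ => ?_
        rw [intervalIntegral.integral_const_mul]
      · intro i _
        exact (gDD_int h0 h1 (hg i)).const_mul _
    rw [rsB_lin, h5, Finset.mul_sum, ← Finset.sum_sub_distrib] at hk2
    have h7 : |∑ i, (a i * rsum (g i) n (shapeAt n ⌊(n.choose 2 : ℝ) * τ⌋₊ k) -
        (n : ℝ) ^ 2 * (a i * ∫ u in (-1 : ℝ)..1, g i u * DD u τ))| ≤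
        ∑ i, |a i| * (ε / S * (n : ℝ) ^ 2) := by
      refine (Finset.abs_sum_le_sum_abs _ _).trans ?_
      refine Finset.sum_le_sum fun i _ => ?_
      have h8 : a i * rsum (g i) n (shapeAt n ⌊(n.choose 2 : ℝ) * τ⌋₊ k) -
        (n : ℝ) ^ 2 * (a i * ∫ u in (-1 : ℝ)..1, g i u * DD u τ) =
        a i * (rsum (g i) n (shapeAt n ⌊(n.choose 2 : ℝ) * τ⌋₊ k) -
        (n : ℝ) ^ 2 * ∫ u in (-1 : ℝ)..1, g i u * DD u τ) := by ring
      rw [h8, abs_mul]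
      exact mul_le_mul_of_nonneg_left (h3 i) (abs_nonneg _)
    rw [← Finset.sum_mul] at h7
    have h9 : (∑ i, |a i|) * (ε / S * (n : ℝ) ^ 2) ≤ ε * (n : ℝ) ^ 2 := by
      have h10 : (∑ i, |a i|) ≤ S := by rw [hS]; linarith
      have h11 : 0 ≤ ε / S * (n : ℝ) ^ 2 := by positivity
      calc (∑ i, |a i|) * (ε / S * (n : ℝ) ^ 2) ≤ S * (ε / S * (n : ℝ) ^ 2) :=
            mul_le_mul_of_nonneg_right h10 h11
        _ = ε * (n : ℝ) ^ 2 := by field_simp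
    linarith
  have hfin : ∀ i : Fin N, ({k | IsNetwork n k ∧ ε / S * (n : ℝ) ^ 2 <
        |rsum (g i) n (shapeAt n ⌊(n.choose 2 : ℝ) * τ⌋₊ k) -
          (n : ℝ) ^ 2 * ∫ u in (-1 : ℝ)..1, g i u * DD u τ|} : Set (List ℕ)).Finite :=
    fun i => (networks_finite n).subset fun k hk => hk.1
  have h12 := Set.ncard_le_ncard hsub (Set.finite_iUnion hfin)
  have h13 : (⋃ i : Fin N, {k | IsNetwork n k ∧ ε / S * (n : ℝ) ^ 2 <
        |rsum (g i) n (shapeAt n ⌊(n.choose 2 : ℝ) * τ⌋₊ k) -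
          (n : ℝ) ^ 2 * ∫ u in (-1 : ℝ)..1, g i u * DD u τ|}).ncard ≤
      ∑ i : Fin N, ({k | IsNetwork n k ∧ ε / S * (n : ℝ) ^ 2 <
        |rsum (g i) n (shapeAt n ⌊(n.choose 2 : ℝ) * τ⌋₊ k) -
          (n : ℝ) ^ 2 * ∫ u in (-1 : ℝ)..1, g i u * DD u τ|} : Set (List ℕ)).ncard := by
    have := Set.ncard_iUnion_le_of_fintype (fun i : Fin N => {k | IsNetwork n k ∧
      ε / S * (n : ℝ) ^ 2 < |rsum (g i) n (shapeAt n ⌊(n.choose 2 : ℝ) * τ⌋₊ k) -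
          (n : ℝ) ^ 2 * ∫ u in (-1 : ℝ)..1, g i u * DD u τ|})
    exact this
  have h14 : (∑ i : Fin N, (({k | IsNetwork n k ∧ ε / S * (n : ℝ) ^ 2 <
        |rsum (g i) n (shapeAt n ⌊(n.choose 2 : ℝ) * τ⌋₊ k) -
          (n : ℝ) ^ 2 * ∫ u in (-1 : ℝ)..1, g i u * DD u τ|} : Set (List ℕ)).ncard : ℝ)) ≤
      N * Real.exp (-C * (n : ℝ) ^ 2) * nets n := by
    have h15 : ∀ i ∈ (Finset.univ : Finset (Fin N)), (({k | IsNetwork n k ∧
        ε / S * (n : ℝ) ^ 2 < |rsum (g i) n (shapeAt n ⌊(n.choose 2 : ℝ) * τ⌋₊ k) -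
          (n : ℝ) ^ 2 * ∫ u in (-1 : ℝ)..1, g i u * DD u τ|} : Set (List ℕ)).ncard : ℝ) ≤
        Real.exp (-C * (n : ℝ) ^ 2) * nets n := by
      intro i _
      refine (hn₀ i n (hn2 i)).trans ?_
      apply mul_le_mul_of_nonneg_right _ (Nat.cast_nonneg _)
      apply Real.exp_le_exp.2
      have h16 := hC.2 i
      have h17 : (0 : ℝ) ≤ (n : ℝ) ^ 2 := by positivity
      nlinarith
    refine (Finset.sum_le_card_nsmul _ _ _ h15).trans ?_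
    rw [nsmul_eq_mul, Finset.card_univ, Fintype.card_fin, mul_assoc]
  have h18 : (({k | IsNetwork n k ∧ ε * (n : ℝ) ^ 2 <
        |rsum (fun u => ∑ i, a i * g i u) n (shapeAt n ⌊(n.choose 2 : ℝ) * τ⌋₊ k) -
          (n : ℝ) ^ 2 * ∫ u in (-1 : ℝ)..1, (∑ i, a i * g i u) * DD u τ|} :
            Set (List ℕ)).ncard : ℝ) ≤ N * Real.exp (-C * (n : ℝ) ^ 2) * nets n := by
    refine le_trans ?_ h14
    exact_mod_cast h12.trans h13
  refine h18.trans ?_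
  exact mul_le_mul_of_nonneg_right (hn₁ n hn1) (Nat.cast_nonneg _)

/-- approximation -/
theorem LDR_approx {τ : ℝ} (h0 : 0 ≤ τ) (h1 : τ ≤ 1) {g : ℝ → ℝ}
    (hg : ContinuousOn g (Icc (-1) 1))
    (h : ∀ η : ℝ, 0 < η → ∃ g' : ℝ → ℝ, ContinuousOn g' (Icc (-1) 1) ∧ LDR τ g' ∧
      ∀ u ∈ Icc (-1 : ℝ) 1, |g u - g' u| ≤ η) : LDR τ g := by
  intro ε hε
  obtain ⟨g', hg', hL, happ⟩ := h (ε / 3) (by positivity)
  obtain ⟨c, hc, n₀, hn₀⟩ := hL (ε / 3) (by positivity)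
  refine ⟨c, hc, n₀, fun n hn => le_trans ?_ (hn₀ n hn)⟩
  have hsub : {k | IsNetwork n k ∧ ε * (n : ℝ) ^ 2 <
        |rsum g n (shapeAt n ⌊(n.choose 2 : ℝ) * τ⌋₊ k) -
          (n : ℝ) ^ 2 * ∫ u in (-1 : ℝ)..1, g u * DD u τ|} ⊆
      {k | IsNetwork n k ∧ ε / 3 * (n : ℝ) ^ 2 <
        |rsum g' n (shapeAt n ⌊(n.choose 2 : ℝ) * τ⌋₊ k) -
          (n : ℝ) ^ 2 * ∫ u in (-1 : ℝ)..1, g' u * DD u τ|} := by
    rintro k ⟨hk, hk2⟩
    refine ⟨hk, ?_⟩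
    have h2 := rsB_abs_le (g := fun u => g u - g' u) (n := n)
      (lam := shapeAt n ⌊(n.choose 2 : ℝ) * τ⌋₊ k) (by positivity : 0 ≤ ε / 3) happ
    have h3 := gDD_abs_le (g := fun u => g u - g' u) h0 h1 (by positivity : 0 ≤ ε / 3) happ
    rw [rsB_sub] at h2
    have h4 : ∫ u in (-1 : ℝ)..1, (g u - g' u) * DD u τ =
        (∫ u in (-1 : ℝ)..1, g u * DD u τ) - ∫ u in (-1 : ℝ)..1, g' u * DD u τ := by
      rw [← intervalIntegral.integral_sub (gDD_int h0 h1 hg) (gDD_int h0 h1 hg')]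
      simp only [sub_mul]
    rw [h4] at h3
    have hn2 : (0 : ℝ) ≤ (n : ℝ) ^ 2 := by positivity
    obtain ⟨r, hr⟩ : ∃ r, r = rsum g n (shapeAt n ⌊(n.choose 2 : ℝ) * τ⌋₊ k) := ⟨_, rfl⟩
    obtain ⟨r', hr'⟩ : ∃ r, r = rsum g' n (shapeAt n ⌊(n.choose 2 : ℝ) * τ⌋₊ k) := ⟨_, rfl⟩
    obtain ⟨J, hJ⟩ : ∃ J, J = ∫ u in (-1 : ℝ)..1, g u * DD u τ := ⟨_, rfl⟩
    obtain ⟨J', hJ'⟩ : ∃ J, J = ∫ u in (-1 : ℝ)..1, g' u * DD u τ := ⟨_, rfl⟩
    rw [← hr, ← hJ] at hk2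
    rw [← hr, ← hr'] at h2
    rw [← hJ, ← hJ'] at h3
    rw [← hr', ← hJ']
    by_contra hcon
    push Not at hcon
    have h5 : r - (n : ℝ) ^ 2 * J = (r - r') + (r' - (n : ℝ) ^ 2 * J') -
        (n : ℝ) ^ 2 * (J - J') := by ring
    have h6 : |(n : ℝ) ^ 2 * (J - J')| ≤ ε / 3 * (n : ℝ) ^ 2 := by
      rw [abs_mul, abs_of_nonneg hn2, mul_comm]
      exact mul_le_mul_of_nonneg_right h3 hn2
    have h7 : |r - (n : ℝ) ^ 2 * J| ≤ |r - r'| + |r' - (n : ℝ) ^ 2 * J'| +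
        |(n : ℝ) ^ 2 * (J - J')| := by
      rw [h5]
      exact (abs_sub _ _).trans (add_le_add_left (abs_add_le _ _) _)
    linarith
  exact_mod_cast Set.ncard_le_ncard hsub ((networks_finite n).subset fun k hk => hk.1)

/-- one test function `1 / (ζ - u) ^ 2` -/
theorem LDR_one {τ ζ : ℝ} (h0 : 0 ≤ τ) (h1 : τ < 1) (hζ : 2 ≤ ζ)
    (herr : ∃ C : ℝ, ∀ n : ℕ, 1 ≤ n → ∀ lam : ℕ → ℕ, (∀ i < n, lam i ≤ n - 1 - i) →
      |rsum (fun u => Real.log (1 - 1 / ((n : ℝ) ^ 2 * (ζ - u) ^ 2))) n lam +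
        1 / (n : ℝ) ^ 2 * rsum (fun u => 1 / (ζ - u) ^ 2) n lam| ≤ C / (n : ℝ) ^ 2)
    (hlog : ∀ ε : ℝ, 0 < ε → ∃ c > (0 : ℝ), ∃ n₀ : ℕ, ∀ n ≥ n₀, ∀ s k : ℕ, s + k = n.choose 2 →
      τ * (n.choose 2 : ℝ) - 1 ≤ s → (s : ℝ) ≤ τ * (n.choose 2 : ℝ) →
      ∀ Q : (ℕ → ℕ) → Prop, ∀ _ : DecidablePred Q, (∀ lam, Q lam ↔
        ε < |Real.log (HH n lam (n * ζ)) - Real.log (HH n (stair n) (n * ζ)) -
          Real.log ((1 - τ) * Hlim τ ζ / √(ζ ^ 2 - 1))|) →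
        (AQ n Q s k (stair n) : ℝ) ≤ Real.exp (-c * (n : ℝ) ^ 2) * F n (n.choose 2) (stair n)) :
    LDR τ (fun u => 1 / (ζ - u) ^ 2) := by
  classical
  intro ε hε
  obtain ⟨C, hC⟩ := herr
  obtain ⟨c, hc, n₀, hn₀⟩ := hlog (ε / 2) (by positivity)
  obtain ⟨n₁, hn₁⟩ : ∃ n₁ : ℕ, ∀ n ≥ n₁, C / (n : ℝ) ^ 2 ≤ ε / 2 := by
    refine ⟨⌈2 * |C| / ε⌉₊ + 1, fun n hn => ?_⟩
    have h2 : (2 * |C| / ε : ℝ) ≤ n := by
      have h3 : (2 * |C| / ε : ℝ) ≤ ⌈2 * |C| / ε⌉₊ := Nat.le_ceil _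
      have h4 : ((⌈2 * |C| / ε⌉₊ + 1 : ℕ) : ℝ) ≤ n := by exact_mod_cast hn
      push_cast at h4
      linarith
    have h4 : (1 : ℝ) ≤ n := by
      have : 1 ≤ n := by omega
      exact_mod_cast this
    rw [div_le_iff₀ hε] at h2
    rw [div_le_iff₀ (by positivity)]
    have h5 := le_abs_self C
    have h6 : (n : ℝ) ≤ (n : ℝ) ^ 2 := by nlinarith
    have h7 : ε / 2 * (n : ℝ) ≤ ε / 2 * (n : ℝ) ^ 2 :=
      mul_le_mul_of_nonneg_left h6 (by positivity)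
    linarith
  refine ⟨c, hc, max (max n₀ n₁) 1, fun n hn => ?_⟩
  have hn0 : n₀ ≤ n := ((le_max_left _ _).trans (le_max_left _ _)).trans hn
  have hn1 : n₁ ≤ n := ((le_max_right _ _).trans (le_max_left _ _)).trans hn
  have hn2 : 1 ≤ n := (le_max_right _ _).trans hn
  have hnR : (1 : ℝ) ≤ n := by exact_mod_cast hn2
  obtain ⟨s, hs⟩ : ∃ s, s = ⌊(n.choose 2 : ℝ) * τ⌋₊ := ⟨_, rfl⟩
  have hN0 : (0 : ℝ) ≤ (n.choose 2 : ℝ) := Nat.cast_nonneg _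
  have hs1 : (s : ℝ) ≤ τ * (n.choose 2 : ℝ) := by
    rw [hs, mul_comm τ]
    exact Nat.floor_le (by positivity)
  have hs2 : τ * (n.choose 2 : ℝ) - 1 ≤ s := by
    rw [hs, mul_comm τ]
    exact (Nat.sub_one_lt_floor _).le
  have hsN : s ≤ n.choose 2 := by
    have : (s : ℝ) ≤ (n.choose 2 : ℝ) := hs1.trans (by nlinarith)
    exact_mod_cast this
  rw [← hs]
  have h2 := hn₀ n hn0 s (n.choose 2 - s) (by omega) hs2 hs1
    (fun lam => ε / 2 < |Real.log (HH n lam (n * ζ)) - Real.log (HH n (stair n) (n * ζ)) -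
          Real.log ((1 - τ) * Hlim τ ζ / √(ζ ^ 2 - 1))|) (fun _ => Classical.propDecidable _)
    (fun lam => Iff.rfl)
  rw [← net_card_Q hsN, ← nets_eq] at h2
  refine le_trans ?_ h2
  have hsub : {k | IsNetwork n k ∧ ε * (n : ℝ) ^ 2 < |rsum (fun u => 1 / (ζ - u) ^ 2) n
        (shapeAt n s k) - (n : ℝ) ^ 2 * ∫ u in (-1 : ℝ)..1, 1 / (ζ - u) ^ 2 * DD u τ|} ⊆
      {k | IsNetwork n k ∧ ε / 2 < |Real.log (HH n (shapeAt n s k) (n * ζ)) -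
        Real.log (HH n (stair n) (n * ζ)) - Real.log ((1 - τ) * Hlim τ ζ / √(ζ ^ 2 - 1))|} := by
    rintro k ⟨hk, hk2⟩
    refine ⟨hk, ?_⟩
    have hle : ∀ i < n, shapeAt n s k i ≤ n - 1 - i := fun i _ => shapeAt_le hk i
    have h3 := log_HH_rsum hle hζ
    have h4 := hC n hn2 _ hle
    have h5 : ∫ u in (-1 : ℝ)..1, 1 / (ζ - u) ^ 2 * DD u τ =
        Real.log ((1 - τ) * Hlim τ ζ / √(ζ ^ 2 - 1)) := by
      rw [← DD_stieltjes h0 h1 hζ]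
      congr 1
      funext u
      ring
    rw [h5] at hk2
    obtain ⟨R, hR⟩ : ∃ R, R = rsum (fun u => 1 / (ζ - u) ^ 2) n (shapeAt n s k) := ⟨_, rfl⟩
    obtain ⟨J, hJ⟩ : ∃ J, J = Real.log ((1 - τ) * Hlim τ ζ / √(ζ ^ 2 - 1)) := ⟨_, rfl⟩
    obtain ⟨E, hE⟩ : ∃ E, E = rsum (fun u => Real.log (1 - 1 / ((n : ℝ) ^ 2 * (ζ - u) ^ 2))) n
      (shapeAt n s k) := ⟨_, rfl⟩
    rw [← hR, ← hJ] at hk2
    rw [← hE] at h3
    rw [← hE, ← hR] at h4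
    rw [h3, ← hJ]
    have h6 := hn₁ n hn1
    have hnn : (0 : ℝ) < (n : ℝ) ^ 2 := by positivity
    have h7 : ε < |1 / (n : ℝ) ^ 2 * R - J| := by
      have h8 : R - (n : ℝ) ^ 2 * J = (n : ℝ) ^ 2 * (1 / (n : ℝ) ^ 2 * R - J) := by
        field_simp
      rw [h8, abs_mul, abs_of_pos hnn, mul_comm] at hk2
      exact lt_of_mul_lt_mul_left hk2 hnn.le
    have h9 : |1 / (n : ℝ) ^ 2 * R - J| ≤ |E + 1 / (n : ℝ) ^ 2 * R| + |(-E) - J| := by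
      have : 1 / (n : ℝ) ^ 2 * R - J = (E + 1 / (n : ℝ) ^ 2 * R) + ((-E) - J) := by ring
      rw [this]
      exact abs_add_le _ _
    have h10 : Real.log (HH n (stair n) (n * ζ)) - E - Real.log (HH n (stair n) (n * ζ)) - J =
        (-E) - J := by ring
    rw [h10]
    linarith
  exact_mod_cast Set.ncard_le_ncard hsub ((networks_finite n).subset fun k hk => hk.1)

/-- the law of large numbers for all continuous test functions, from the three inputs -/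
theorem rsum_ld_of {τ : ℝ} (h0 : 0 ≤ τ) (h1 : τ < 1)
    (hone : ∀ ζ : ℝ, 2 ≤ ζ → LDR τ (fun u => 1 / (ζ - u) ^ 2))
    (hdens : ∀ g : ℝ → ℝ, ContinuousOn g (Icc (-1) 1) → ∀ η : ℝ, 0 < η →
      ∃ (N : ℕ) (a z : Fin N → ℝ), (∀ i, 2 ≤ z i) ∧
        ∀ u ∈ Icc (-1 : ℝ) 1, |g u - ∑ i, a i / (z i - u) ^ 2| ≤ η)
    {g : ℝ → ℝ} (hg : Continuous g) : LDR τ g := by
  apply LDR_approx h0 h1.le hg.continuousOn
  intro η hη
  obtain ⟨N, a, z, hz, happ⟩ := hdens g hg.continuousOn η hη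
  have hcont : ∀ i, ContinuousOn (fun u => 1 / (z i - u) ^ 2) (Icc (-1 : ℝ) 1) := by
    intro i
    apply ContinuousOn.div continuousOn_const (by fun_prop)
    intro u hu
    have : 0 < z i - u := by linarith [hz i, hu.2]
    positivity
  refine ⟨fun u => ∑ i, a i * (1 / (z i - u) ^ 2), ?_, ?_, ?_⟩
  · apply continuousOn_finsetSum
    intro i _
    exact continuousOn_const.mul (hcont i)
  · exact LDR_lin h0 h1.le a (fun i u => 1 / (z i - u) ^ 2) hcont (fun i => hone (z i) (hz i))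
  · intro u hu
    have := happ u hu
    simpa only [mul_one_div] using this

/-- **(M1)** the law of large numbers for the removed cells, with speed `n ^ 2` -/
theorem rsum_ld {g : ℝ → ℝ} (hg : Continuous g) {τ ε : ℝ} (h0 : 0 ≤ τ) (h1 : τ < 1) (hε : 0 < ε) :
    ∃ c > (0 : ℝ), ∃ n₀ : ℕ, ∀ n ≥ n₀,
      (({k | IsNetwork n k ∧ ε * (n : ℝ) ^ 2 <
        |rsum g n (shapeAt n ⌊(n.choose 2 : ℝ) * τ⌋₊ k) -
          (n : ℝ) ^ 2 * ∫ u in (-1 : ℝ)..1, g u * DD u τ|} : Set (List ℕ)).ncard : ℝ) ≤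
      Real.exp (-c * (n : ℝ) ^ 2) * nets n := by
  classical
  refine rsum_ld_of h0 h1 (fun ζ hζ => ?_) (fun g hg η hη => dens hg hη) hg ε hε
  refine LDR_one h0 h1 hζ ⟨2, fun n _ lam _ => rsum_log_approx n lam hζ⟩ fun ε hε => ?_
  obtain ⟨c, hc, n₀, h⟩ := log_ld h0 h1 hζ hε
  refine ⟨c, hc, n₀, fun n hn s k hsk h2 h3 Q hQd hQ => ?_⟩
  have h4 := h n hn s k hsk h2 h3
  have hQe : Q = fun lam => ε < |Real.log (HH n lam (n * ζ)) - Real.log (HH n (stair n) (n * ζ)) -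
          Real.log ((1 - τ) * Hlim τ ζ / √(ζ ^ 2 - 1))| := funext fun lam => propext (hQ lam)
  subst hQe
  have hd : hQd = fun lam => Real.decidableLT _ _ := Subsingleton.elim _ _
  subst hd
  exact h4

end Pool.Agent.SNL63
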