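import Pool.Agent.SNL63.Pairs
import Pool.Agent.SNL63.RShape
import Pool.Agent.SNL63.Memb

/-!
# The unconditional bounds for all pairs of times
-/

namespace Pool.Agent.SNL63

open Pool.Agent.SN8 MeasureTheory Set Filter Topology
open scoped ENNReal Real

/-- The masses of the quadrants. -/
theorem quad_all {ε : ℝ} (hε : 0 < ε) :
    ∃ c₁ > (0 : ℝ), ∃ c₂ > (0 : ℝ), ∀ n : ℕ, 2 ≤ n →
      prob n (fun k => ∃ t ∈ Icc (0 : ℝ) 1, ∃ a ∈ Icc (-1 : ℝ) 1, ∃ b ∈ Icc (-1 : ℝ) 1,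
        eta n k t (Icc (-1) a ×ˢ Ioc b 1) < ENNReal.ofReal (DD ((a + b) / 2) t + (a - b) / 4 - ε) ∨
        eta n k t (Icc (-a) 1 ×ˢ Ioc b 1) <
          ENNReal.ofReal (DD ((a + b) / 2) (1 - t) + (a - b) / 4 - ε)) ≤
      c₁ * Real.exp (-c₂ * (n : ℝ) ^ 2) :=
  quad_low (fun _ _ h0 h1 h => cross2_ld (fun _ hg _ _ h0 h1 h => rsum_ld hg h0 h1 h) h0 h1 h) hε

/-- The masses of the quadrants between all pairs of times. -/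
theorem quad2 {ε : ℝ} (hε : 0 < ε) :
    ∃ c₁ > (0 : ℝ), ∃ c₂ > (0 : ℝ), ∀ n : ℕ, 2 ≤ n →
      prob n (fun k => ∃ s t : ℝ, 0 ≤ s ∧ s ≤ t ∧ t ≤ 1 ∧ BQ ε (t - s) (eta2 n k s t)) ≤
        c₁ * Real.exp (-c₂ * (n : ℝ) ^ 2) :=
  quad2_of (fun _ h => quad_all h) hε

/-- Neighbourhoods of the path and of the permutons allowed by the limit shape. -/
theorem leaves2_adm2 (U : Set (ProbabilityMeasure (ℝ × ℝ))) (hU : IsOpen U)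
    (hA : ∀ t ∈ Icc (0 : ℝ) 1, ∃ μ ∈ U, (μ : Measure (ℝ × ℝ)) = arch t)
    (hC : ∀ t ∈ Ioo (0 : ℝ) 1, ∀ ν : ProbabilityMeasure (ℝ × ℝ),
      Adm2 t (ν : Measure (ℝ × ℝ)) → ν ∈ U) :
    ∃ c₁ > (0 : ℝ), ∃ c₂ > (0 : ℝ), ∀ n : ℕ, 2 ≤ n →
      prob n (Leaves2 n U) ≤ c₁ * Real.exp (-c₂ * (n : ℝ) ^ 2) :=
  leaves2_of (leaves_bound_adm2 DD_cont_t (fun _ h => quad_all h) U hU hA hC)

end Pool.Agent.SNL63
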