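import Pool.Agent.SNL63.SDefs
import Pool.Agent.SNL63.Event

/-!
The rotation of sorting networks; from the windows at the end to all windows.
-/

namespace Pool.Agent.SNL63

open Pool.Agent.SN8 MeasureTheory Set Filter Topology
open scoped ENNReal Real

lemma rot_conj {n j : ℕ} (h1 : 1 ≤ j) (h2 : j + 1 ≤ n) : sw (n - j) = rev n * sw j * rev n := by
  ext x
  simp only [Equiv.Perm.mul_apply, sw_apply, rev_apply]
  by_cases hx : 1 ≤ x ∧ x ≤ n
  · rw [if_pos hx]
    by_cases h3 : n + 1 - x = j
    · rw [if_pos h3, if_neg (by omega), if_pos (by omega), if_pos (by omega)]; omega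
    · by_cases h4 : n + 1 - x = j + 1
      · rw [if_neg h3, if_pos h4, if_pos (by omega), if_pos (by omega)]; omega
      · rw [if_neg h3, if_neg h4, if_neg (by omega), if_neg (by omega), if_pos (by omega)]; omega
  · have e1 : ¬ x = n - j := by omega
    have e2 : ¬ x = n - j + 1 := by omega
    have e3 : ¬ x = j := by omega
    have e4 : ¬ x = j + 1 := by omega
    rw [if_neg hx, if_neg e1, if_neg e2, if_neg e3, if_neg e4, if_neg hx]

lemma rot_sq (n : ℕ) : rev n * rev n = 1 := by
  ext x
  rw [Equiv.Perm.mul_apply, rev_rev, Equiv.Perm.one_apply]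

lemma rot_P {n : ℕ} {a : List ℕ} (ha : ∀ j ∈ a, 1 ≤ j ∧ j + 1 ≤ n) :
    P (a.map (fun j => n - j)) = rev n * P a * rev n := by
  induction a with
  | nil => rw [List.map_nil, P_nil, mul_one, rot_sq]
  | cons j l ih =>
    have hj := ha j (by simp)
    rw [List.map_cons, P_cons, P_cons, ih (fun i hi => ha i (by simp [hi])), rot_conj hj.1 hj.2]
    simp only [mul_assoc]
    rw [← mul_assoc (rev n) (rev n), rot_sq, one_mul]

lemma rot_letters {n : ℕ} {a : List ℕ} (ha : ∀ j ∈ a, 1 ≤ j ∧ j + 1 ≤ n) :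
    ∀ j ∈ a.map (fun j => n - j), 1 ≤ j ∧ j + 1 ≤ n := by
  intro j hj
  rw [List.mem_map] at hj
  obtain ⟨i, hi, rfl⟩ := hj
  have := ha i hi
  omega

lemma rot_map_map {n : ℕ} {a : List ℕ} (ha : ∀ j ∈ a, 1 ≤ j ∧ j + 1 ≤ n) :
    (a.map (fun j => n - j)).map (fun j => n - j) = a := by
  rw [List.map_map]
  conv_rhs => rw [← List.map_id a]
  refine List.map_congr_left fun j hj => ?_
  have := ha j hj
  simp only [Function.comp_apply, id]
  omega

/-- move an initial part to the end -/
lemma rot_split {n : ℕ} {a b : List ℕ} (h : IsNetwork n (a ++ b)) :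
    IsNetwork n (b ++ a.map (fun j => n - j)) := by
  rw [isNetwork_iff] at h ⊢
  obtain ⟨h1, h2, h3⟩ := h
  have ha : ∀ j ∈ a, 1 ≤ j ∧ j + 1 ≤ n := fun j hj => h2 j (by simp [hj])
  have hb : ∀ j ∈ b, 1 ≤ j ∧ j + 1 ≤ n := fun j hj => h2 j (by simp [hj])
  refine ⟨?_, ?_, ?_⟩
  · rw [List.length_append, List.length_map, ← h1, List.length_append, add_comm]
  · intro j hj
    rw [List.mem_append] at hj
    rcases hj with hj | hj
    · exact hb j hj
    · exact rot_letters ha j hj
  · rw [P_append] at h3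
    have e : P b = (P a)⁻¹ * rev n := by rw [← h3, inv_mul_cancel_left]
    rw [P_append, rot_P ha, e]
    have : (P a)⁻¹ * rev n * (rev n * P a * rev n) = (P a)⁻¹ * (rev n * rev n) * P a * rev n := by
      simp only [mul_assoc]
    rw [this, rot_sq, mul_one, inv_mul_cancel, one_mul]

/-- move a final part to the beginning -/
lemma rot_split' {n : ℕ} {a b : List ℕ} (h : IsNetwork n (b ++ a)) :
    IsNetwork n (a.map (fun j => n - j) ++ b) := by
  rw [isNetwork_iff] at h ⊢
  obtain ⟨h1, h2, h3⟩ := h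
  have ha : ∀ j ∈ a, 1 ≤ j ∧ j + 1 ≤ n := fun j hj => h2 j (by simp [hj])
  have hb : ∀ j ∈ b, 1 ≤ j ∧ j + 1 ≤ n := fun j hj => h2 j (by simp [hj])
  refine ⟨?_, ?_, ?_⟩
  · rw [List.length_append, List.length_map, ← h1, List.length_append, add_comm]
  · intro j hj
    rw [List.mem_append] at hj
    rcases hj with hj | hj
    · exact rot_letters ha j hj
    · exact hb j hj
  · rw [P_append] at h3
    have e : P a = (P b)⁻¹ * rev n := by rw [← h3, inv_mul_cancel_left]
    rw [P_append, rot_P ha, e]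
    have : rev n * ((P b)⁻¹ * rev n) * rev n * P b = rev n * (P b)⁻¹ * (rev n * rev n) * P b := by
      simp only [mul_assoc]
    rw [this, rot_sq, mul_one, inv_mul_cancel_right]

theorem rot_network {n j : ℕ} {k : List ℕ} (hk : IsNetwork n (j :: k)) :
    IsNetwork n (k ++ [n - j]) :=
  rot_split (a := [j]) (b := k) hk

/-- every window of length `s` -/
theorem window_any {n s : ℕ} (hs : s ≤ n.choose 2) (i : ℕ) (hi : i + s ≤ n.choose 2)
    (Q : List ℕ → Prop) :
    ({k | IsNetwork n k ∧ Q ((k.drop i).take s)} : Set (List ℕ)).ncard =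
      ({k | IsNetwork n k ∧ Q ((k.drop (n.choose 2 - s)).map (fun j => n - j))} :
        Set (List ℕ)).ncard := by
  set N := n.choose 2 with hN
  set f : ℕ → ℕ := fun j => n - j with hf
  have key : ∀ k, IsNetwork n k →
      ((k.drop (i + s) ++ (k.take (i + s)).map f).drop (N - s)).map f = (k.drop i).take s := by
    intro k hk
    have hl : ∀ j ∈ k.take (i + s), 1 ≤ j ∧ j + 1 ≤ n :=
      fun j hj => hk.2.1 j (List.mem_of_mem_take hj)
    have h1 : (k.drop (i + s)).length = N - (i + s) := by rw [List.length_drop, hk.1]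
    rw [List.drop_append, List.drop_eq_nil_of_le (by rw [h1]; omega), List.nil_append, h1]
    have h2 : N - s - (N - (i + s)) = i := by omega
    rw [h2, List.map_drop, rot_map_map hl, List.drop_take]
    congr 1
    omega
  refine Set.ncard_congr (fun k _ => k.drop (i + s) ++ (k.take (i + s)).map f) ?_ ?_ ?_
  · rintro k ⟨hk, hQ⟩
    refine ⟨rot_split (by rw [List.take_append_drop]; exact hk), ?_⟩
    rw [key k hk]
    exact hQ
  · rintro k k' ⟨hk, -⟩ ⟨hk', -⟩ h
    have hl : ∀ j ∈ k.take (i + s), 1 ≤ j ∧ j + 1 ≤ n :=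
      fun j hj => hk.2.1 j (List.mem_of_mem_take hj)
    have hl' : ∀ j ∈ k'.take (i + s), 1 ≤ j ∧ j + 1 ≤ n :=
      fun j hj => hk'.2.1 j (List.mem_of_mem_take hj)
    obtain ⟨h1, h2⟩ := List.append_inj h (by
      rw [List.length_drop, List.length_drop, hk.1, hk'.1])
    have h3 : k.take (i + s) = k'.take (i + s) := by
      rw [← rot_map_map hl, ← rot_map_map hl']
      exact congrArg _ h2
    rw [← List.take_append_drop (i + s) k, ← List.take_append_drop (i + s) k', h1, h3]
  · rintro k ⟨hk, hQ⟩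
    have hl : ∀ j ∈ k.drop (N - (i + s)), 1 ≤ j ∧ j + 1 ≤ n :=
      fun j hj => hk.2.1 j (List.mem_of_mem_drop hj)
    have hnet : IsNetwork n ((k.drop (N - (i + s))).map f ++ k.take (N - (i + s))) :=
      rot_split' (by rw [List.take_append_drop]; exact hk)
    have hlen : ((k.drop (N - (i + s))).map f).length = i + s := by
      rw [List.length_map, List.length_drop, hk.1]; omega
    have hφ : ((k.drop (N - (i + s))).map f ++ k.take (N - (i + s))).drop (i + s) ++
        ((((k.drop (N - (i + s))).map f ++ k.take (N - (i + s))).take (i + s)).map f) = k := by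
      rw [List.drop_left' hlen, List.take_left' hlen, rot_map_map hl, List.take_append_drop]
    refine ⟨_, ⟨hnet, ?_⟩, hφ⟩
    have := key _ hnet
    rw [hφ] at this
    rw [← this]
    exact hQ

/-! ### Sums over letters -/

lemma rot_semi_neg {g : ℝ → ℝ} : ∫ u, g (-u) ∂semi = ∫ u, g u ∂semi := by
  have h : ∀ f : ℝ → ℝ, ∫ u, f u ∂semi = ∫ u in (-1 : ℝ)..1, (2 / π * √(1 - u ^ 2)) * f u := by
    intro f
    have hm : Measurable fun u : ℝ => ENNReal.ofReal (2 / π * √(1 - u ^ 2)) := by fun_prop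
    rw [semi, integral_withDensity_eq_integral_toReal_smul hm
      (Eventually.of_forall fun u => ENNReal.ofReal_lt_top),
      intervalIntegral.integral_of_le (by norm_num), integral_Icc_eq_integral_Ioc]
    refine integral_congr_ae (Eventually.of_forall fun u => ?_)
    simp only [smul_eq_mul]
    rw [ENNReal.toReal_ofReal (by positivity)]
  rw [h, h]
  have := intervalIntegral.integral_comp_neg (a := -1) (b := 1)
    (fun u : ℝ => (2 / π * √(1 - u ^ 2)) * g u)
  simp only [neg_neg, even_two, Even.neg_pow] at this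
  exact this

lemma rot_ssum_append (g : ℝ → ℝ) (n : ℕ) (l₁ l₂ : List ℕ) :
    ssum g n (l₁ ++ l₂) = ssum g n l₁ + ssum g n l₂ := by
  rw [ssum, List.map_append, List.sum_append]; rfl

lemma rot_ssum_neg {g : ℝ → ℝ} {n : ℕ} {l : List ℕ} (hl : ∀ j ∈ l, 1 ≤ j ∧ j + 1 ≤ n) :
    ssum g n (l.map (fun j => n - j)) = ssum (fun u => g (-u)) n l := by
  rw [ssum, ssum, List.map_map]
  congr 1
  refine List.map_congr_left fun j hj => ?_
  have := hl j hj
  have hn : (n : ℝ) ≠ 0 := by
    have : 0 < n := by omega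
    positivity
  simp only [Function.comp_apply]
  rw [Nat.cast_sub (by omega)]
  congr 1
  field_simp
  ring

lemma rot_letter_mem {n j : ℕ} (h1 : 1 ≤ j) (h2 : j + 1 ≤ n) :
    2 * (j : ℝ) / n - 1 ∈ Icc (-1 : ℝ) 1 := by
  have hn : (0 : ℝ) < n := by
    have : 0 < n := by omega
    positivity
  have hj : (j : ℝ) ≤ n := by exact_mod_cast (by omega : j ≤ n)
  constructor
  · have : 0 ≤ 2 * (j : ℝ) / n := by positivity
    linarith
  · have : 2 * (j : ℝ) / n ≤ 2 := by
      rw [div_le_iff₀ hn]; linarith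
    linarith

lemma rot_ssum_step {g : ℝ → ℝ} {n : ℕ} {k : List ℕ} {G : ℝ} (hk : ∀ j ∈ k, 1 ≤ j ∧ j + 1 ≤ n)
    (hG : ∀ u ∈ Icc (-1 : ℝ) 1, |g u| ≤ G) (i : ℕ) (hi : i < k.length) :
    |ssum g n (k.take (i + 1)) - ssum g n (k.take i)| ≤ G := by
  have e : k.take (i + 1) = k.take i ++ [k[i]] := by
    rw [List.take_append_getElem hi]
  rw [e, rot_ssum_append, add_sub_cancel_left, ssum, List.map_singleton, List.sum_singleton]
  have := hk _ (List.getElem_mem hi)
  exact hG _ (rot_letter_mem this.1 this.2)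

/-- from the windows to all intervals -/
lemma rot_chain {D : ℕ → ℝ} {N s : ℕ} {B e : ℝ} (hs : 1 ≤ s) (hB : 0 ≤ B) (he : 0 ≤ e)
    (h1 : ∀ i < N, |D (i + 1) - D i| ≤ B)
    (h2 : ∀ m, m * s + s ≤ N → |D (m * s + s) - D (m * s)| ≤ e * s) {i j : ℕ} (hij : i ≤ j)
    (hj : j ≤ N) : |D j - D i| ≤ 2 * (B * s) + e * N := by
  have a1 : ∀ i r, i + r ≤ N → |D (i + r) - D i| ≤ B * r := by
    intro i r
    induction r with
    | zero => intro _; simp
    | succ r ih =>
      intro h
      have b1 := ih (by omega)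
      have b2 := h1 (i + r) (by omega)
      have b3 : D (i + (r + 1)) - D i = (D (i + r + 1) - D (i + r)) + (D (i + r) - D i) := by
        rw [← add_assoc]; ring
      rw [b3]
      refine (abs_add_le _ _).trans ?_
      push_cast
      linarith
  have a2 : ∀ q r, (q + r) * s ≤ N → |D ((q + r) * s) - D (q * s)| ≤ e * s * r := by
    intro q r
    induction r with
    | zero => intro _; simp
    | succ r ih =>
      intro h
      have e1 : (q + (r + 1)) * s = (q + r) * s + s := by ring
      rw [e1] at h ⊢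
      have b1 := ih (by omega)
      have b2 := h2 (q + r) h
      have b3 : D ((q + r) * s + s) - D (q * s) =
          (D ((q + r) * s + s) - D ((q + r) * s)) + (D ((q + r) * s) - D (q * s)) := by ring
      rw [b3]
      refine (abs_add_le _ _).trans ?_
      push_cast
      linarith
  have a3 : ∀ j ≤ N, |D j - D (j / s * s)| ≤ B * s := by
    intro j hj
    have c1 := Nat.div_add_mod j s
    have c2 := Nat.mod_lt j (by omega : 0 < s)
    have c3 : j / s * s + j % s = j := by rw [mul_comm]; exact c1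
    have c4 := a1 (j / s * s) (j % s) (by omega)
    rw [c3] at c4
    refine c4.trans ?_
    have : ((j % s : ℕ) : ℝ) ≤ s := by exact_mod_cast c2.le
    exact mul_le_mul_of_nonneg_left this hB
  have hq : i / s ≤ j / s := Nat.div_le_div_right hij
  obtain ⟨r, hr⟩ := Nat.exists_eq_add_of_le hq
  have hjs : j / s * s ≤ j := Nat.div_mul_le_self j s
  have a4 := a2 (i / s) r (by rw [← hr]; omega)
  rw [← hr] at a4
  have a5 := a3 i (by omega)
  have a6 := a3 j hj
  have a7 : D j - D i = (D j - D (j / s * s)) + (D (j / s * s) - D (i / s * s)) -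
      (D i - D (i / s * s)) := by ring
  have a8 : (s : ℝ) * r ≤ N := by
    have : s * r ≤ N := by
      have : r ≤ j / s := by rw [hr]; exact Nat.le_add_left _ _
      calc s * r ≤ s * (j / s) := Nat.mul_le_mul_left _ this
        _ = j / s * s := by ring
        _ ≤ N := by omega
    exact_mod_cast this
  have a9 : e * s * r ≤ e * N := by
    rw [mul_assoc]
    exact mul_le_mul_of_nonneg_left a8 he
  rw [abs_le] at a4 a5 a6 ⊢
  constructor
  · linarith [a4.1, a5.2, a6.1]
  · linarith [a4.2, a5.1, a6.2]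

theorem swap_ld_of_win {g : ℝ → ℝ} (hg : Continuous g) (hw : Win (fun u => g (-u))) {ε : ℝ}
    (hε : 0 < ε) :
    ∃ c₁ > (0 : ℝ), ∃ c₂ > (0 : ℝ), ∀ n : ℕ, 2 ≤ n →
      prob n (fun k => ∃ i j, i ≤ j ∧ j ≤ n.choose 2 ∧ ε * (n.choose 2 : ℝ) <
        |ssum g n ((k.take j).drop i) - ((j : ℝ) - i) * ∫ u, g u ∂semi|) ≤
      c₁ * Real.exp (-c₂ * (n : ℝ) ^ 2) := by
  set I := ∫ u, g u ∂semi with hI
  obtain ⟨G, hG⟩ := isCompact_Icc.exists_bound_of_continuousOn (s := Icc (-1 : ℝ) 1)
    hg.continuousOn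
  simp only [Real.norm_eq_abs] at hG
  have hG0 : 0 ≤ G := (abs_nonneg _).trans (hG 0 (by norm_num))
  obtain ⟨κ₀, hκ₀, hw1⟩ := hw (ε / 4) (by positivity)
  set B := G + |I| with hB
  have hB0 : 0 ≤ B := by positivity
  set κ := min κ₀ (min 1 (ε / (8 * (B + 1)))) with hκ
  have hκ0 : 0 < κ := by rw [hκ]; positivity
  have hκ1 : κ ≤ κ₀ := min_le_left _ _
  have hκ2 : κ ≤ 1 := (min_le_right _ _).trans (min_le_left _ _)
  have hκ3 : κ ≤ ε / (8 * (B + 1)) := (min_le_right _ _).trans (min_le_right _ _)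
  obtain ⟨c, hc, n₀, hw2⟩ := hw1 κ hκ0 hκ1
  have main : ∀ n ≥ max n₀ (max ⌈2 / κ⌉₊ (max ⌈3 / c⌉₊ 2)),
      prob n (fun k => ∃ i j, i ≤ j ∧ j ≤ n.choose 2 ∧ ε * (n.choose 2 : ℝ) <
        |ssum g n ((k.take j).drop i) - ((j : ℝ) - i) * I|) ≤
      Real.exp (-(c / 2) * (n : ℝ) ^ 2) := by
    intro n hn
    have hn0 : n₀ ≤ n := le_of_max_le_left hn
    have hn1 : 2 / κ ≤ n := (Nat.le_ceil _).trans
      (by exact_mod_cast le_of_max_le_left (le_of_max_le_right hn))
    have hn2 : 3 / c ≤ n := (Nat.le_ceil _).trans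
      (by exact_mod_cast le_of_max_le_left (le_of_max_le_right (le_of_max_le_right hn)))
    have hn3 : 2 ≤ n := le_of_max_le_right (le_of_max_le_right (le_of_max_le_right hn))
    have hn3' : (2 : ℝ) ≤ n := by exact_mod_cast hn3
    set N := n.choose 2 with hN
    have hNr : (N : ℝ) = n * (n - 1) / 2 := by rw [hN, Nat.cast_choose_two]
    have hκN : 1 ≤ κ * N := by
      rw [div_le_iff₀ hκ0] at hn1
      rw [hNr]
      nlinarith
    set s := ⌊κ * N⌋₊ with hs
    have hs1 : 1 ≤ s := Nat.le_floor (by exact_mod_cast hκN)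
    have hs2 : (s : ℝ) ≤ κ * N := Nat.floor_le (by positivity)
    have hs3 : κ * N - 1 ≤ s := (Nat.sub_one_lt_floor _).le
    have hsN : s ≤ N := by
      have : (s : ℝ) ≤ N := hs2.trans (by nlinarith [Nat.cast_nonneg (α := ℝ) N])
      exact_mod_cast this
    set E : ℕ → Set (List ℕ) := fun i => {k | IsNetwork n k ∧
      ε / 4 * s < |ssum g n ((k.drop i).take s) - s * I|} with hE
    have hEfin : ∀ i, (E i).Finite := fun i => (networks_finite n).subset fun k hk => hk.1
    have hEc : ∀ i, i + s ≤ N → ((E i).ncard : ℝ) ≤ Real.exp (-c * (n : ℝ) ^ 2) * nets n := by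
      intro i hi
      have h1 := window_any hsN i hi (fun l => ε / 4 * s < |ssum g n l - s * I|)
      have h2 := hw2 n hn0 s hs3 hs2
      rw [rot_semi_neg] at h2
      rw [hE]
      simp only
      rw [h1]
      refine le_trans (le_of_eq ?_) h2
      congr 2
      ext k
      simp only [mem_ofPred_eq]
      refine and_congr_right fun hk => ?_
      rw [rot_ssum_neg (fun j hj => hk.2.1 j (List.mem_of_mem_drop hj))]
    have hsub : ({k | IsNetwork n k ∧ ∃ i j, i ≤ j ∧ j ≤ N ∧ ε * (N : ℝ) <
        |ssum g n ((k.take j).drop i) - ((j : ℝ) - i) * I|} : Set (List ℕ)) ⊆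
        ⋃ m ∈ (Finset.range N).filter (fun m => m * s + s ≤ N), E (m * s) := by
      rintro k ⟨hk, i, j, hij, hj, hlt⟩
      by_contra hcon
      rw [mem_iUnion₂] at hcon
      push Not at hcon
      set D : ℕ → ℝ := fun i => ssum g n (k.take i) - i * I with hD
      have hstep : ∀ i < N, |D (i + 1) - D i| ≤ B := by
        intro i hi
        have h1 := rot_ssum_step hk.2.1 hG i (by rw [hk.1]; exact hi)
        have h2 : D (i + 1) - D i =
            (ssum g n (k.take (i + 1)) - ssum g n (k.take i)) - I := by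
          rw [hD]; simp only; push_cast; ring
        rw [h2, hB]
        exact (abs_sub _ _).trans (by linarith)
      have hwin : ∀ m, m * s + s ≤ N → |D (m * s + s) - D (m * s)| ≤ ε / 4 * s := by
        intro m hm
        have hmN : m < N := by
          have : m ≤ m * s := Nat.le_mul_of_pos_right _ (by omega)
          omega
        have h1 := hcon m (by rw [Finset.mem_filter, Finset.mem_range]; exact ⟨hmN, hm⟩)
        have h2 : ¬ (ε / 4 * s < |ssum g n ((k.drop (m * s)).take s) - s * I|) :=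
          fun h => h1 ⟨hk, h⟩
        rw [not_lt] at h2
        have h3 : D (m * s + s) - D (m * s) = ssum g n ((k.drop (m * s)).take s) - s * I := by
          rw [hD]; simp only
          rw [List.take_add, rot_ssum_append]; push_cast; ring
        rw [h3]
        exact h2
      have hch := rot_chain hs1 hB0 (by positivity : (0 : ℝ) ≤ ε / 4) hstep hwin hij hj
      have h3 : D j - D i = ssum g n ((k.take j).drop i) - ((j : ℝ) - i) * I := by
        have e1 : k.take j = k.take i ++ (k.take j).drop i := by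
          conv_lhs => rw [← List.take_append_drop i (k.take j)]
          rw [List.take_take, min_eq_left hij]
        rw [hD]; simp only
        conv_lhs => rw [e1]
        rw [rot_ssum_append]; ring
      rw [h3] at hch
      have h4 : B * s ≤ ε / 8 * N := by
        have h5 : κ * (8 * (B + 1)) ≤ ε := by
          rw [le_div_iff₀ (by positivity)] at hκ3
          exact hκ3
        have h6 : B * s ≤ B * (κ * N) := mul_le_mul_of_nonneg_left hs2 hB0
        have h7 : B * κ ≤ ε / 8 := by nlinarith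
        calc B * s ≤ B * (κ * N) := h6
          _ = B * κ * N := by ring
          _ ≤ ε / 8 * N := mul_le_mul_of_nonneg_right h7 (Nat.cast_nonneg _)
      have h8 : (0 : ℝ) < N := by
        rw [hNr]; nlinarith
      nlinarith
    have hcount : ((({k | IsNetwork n k ∧ ∃ i j, i ≤ j ∧ j ≤ N ∧ ε * (N : ℝ) <
        |ssum g n ((k.take j).drop i) - ((j : ℝ) - i) * I|} : Set (List ℕ)).ncard : ℕ) : ℝ) ≤
        N * (Real.exp (-c * (n : ℝ) ^ 2) * nets n) := by
      set J := (Finset.range N).filter (fun m => m * s + s ≤ N) with hJ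
      have e1 := Set.ncard_le_ncard hsub
        (Set.Finite.biUnion J.finite_toSet fun m _ => hEfin (m * s))
      have e2 : (⋃ m ∈ J, E (m * s)).ncard ≤ ∑ m ∈ J, (E (m * s)).ncard := by
        clear_value J
        clear hJ hsub e1
        induction J using Finset.induction_on with
        | empty => simp
        | insert m J hm ih =>
          rw [Finset.set_biUnion_insert, Finset.sum_insert hm]
          exact (Set.ncard_union_le _ _).trans (by omega)
      have e3 : (((⋃ m ∈ J, E (m * s)).ncard : ℕ) : ℝ) ≤ ∑ m ∈ J, ((E (m * s)).ncard : ℝ) := by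
        exact_mod_cast e2
      have e4 : ∑ m ∈ J, ((E (m * s)).ncard : ℝ) ≤
          J.card • (Real.exp (-c * (n : ℝ) ^ 2) * nets n) := by
        refine Finset.sum_le_card_nsmul J _ _ fun m hm => ?_
        rw [hJ, Finset.mem_filter] at hm
        exact hEc _ hm.2
      have e5 : (J.card : ℝ) ≤ N := by
        have : J.card ≤ N := by
          rw [hJ]
          refine (Finset.card_filter_le _ _).trans ?_
          rw [Finset.card_range]
        exact_mod_cast this
      rw [nsmul_eq_mul] at e4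
      have e6 : (0 : ℝ) ≤ Real.exp (-c * (n : ℝ) ^ 2) * nets n := by positivity
      calc _ ≤ (((⋃ m ∈ J, E (m * s)).ncard : ℕ) : ℝ) := by exact_mod_cast e1
        _ ≤ _ := e3
        _ ≤ _ := e4
        _ ≤ _ := mul_le_mul_of_nonneg_right e5 e6
    have hexp : (N : ℝ) * Real.exp (-c * (n : ℝ) ^ 2) ≤ Real.exp (-(c / 2) * (n : ℝ) ^ 2) := by
      have e1 : (N : ℝ) ≤ (n : ℝ) ^ 2 := by rw [hNr]; nlinarith
      have e2 : (n : ℝ) ^ 2 ≤ Real.exp (c / 2 * (n : ℝ) ^ 2) := by
        have e3 : 3 ≤ n * c := by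
          rw [div_le_iff₀ hc] at hn2
          exact hn2
        have e4 := Real.quadratic_le_exp_of_nonneg (by positivity : 0 ≤ c / 2 * (n : ℝ) ^ 2)
        have e5 : (9 : ℝ) ≤ (n * c) ^ 2 := by nlinarith
        have e6 : (c / 2 * (n : ℝ) ^ 2) ^ 2 / 2 = (n * c) ^ 2 * (n : ℝ) ^ 2 / 8 := by ring
        have e7 : (0 : ℝ) ≤ (n : ℝ) ^ 2 := by positivity
        rw [e6] at e4
        nlinarith [mul_nonneg (by positivity : (0 : ℝ) ≤ c / 2) e7]
      have e3 : Real.exp (-(c / 2) * (n : ℝ) ^ 2) =
          Real.exp (c / 2 * (n : ℝ) ^ 2) * Real.exp (-c * (n : ℝ) ^ 2) := by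
        rw [← Real.exp_add]
        congr 1
        ring
      rw [e3]
      exact mul_le_mul_of_nonneg_right (e1.trans e2) (Real.exp_pos _).le
    unfold prob
    refine div_le_of_le_mul₀ (Nat.cast_nonneg _) (Real.exp_pos _).le ?_
    refine hcount.trans ?_
    rw [← mul_assoc]
    exact mul_le_mul_of_nonneg_right hexp (Nat.cast_nonneg _)
  obtain ⟨c₁, hc₁, h⟩ := exists_const (fun n => prob_le_one n _) main (by positivity : 0 < c / 2)
  exact ⟨c₁, hc₁, c / 2, by positivity, fun n _ => h n⟩

end Pool.Agent.SNL63
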