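import Pool.Agent.SNL63.Defs

/-!
Edelman–Greene insertion of a letter into a row, and its inverse.
-/

namespace Pool.Agent.SNL63

open Pool.Agent.SN8

/-- Letters in `{1, ..., n-1}` and no shorter word for the same permutation. -/
def Red (n : ℕ) (l : List ℕ) : Prop :=
  (∀ j ∈ l, 1 ≤ j ∧ j + 1 ≤ n) ∧
    ∀ l' : List ℕ, (∀ j ∈ l', 1 ≤ j ∧ j + 1 ≤ n) → P l' = P l → l.length ≤ l'.length

lemma Red.left {n : ℕ} {a b : List ℕ} (h : Red n (a ++ b)) : Red n a := by
  refine ⟨fun j hj => h.1 j (by simp [hj]), fun l' hl' hP => ?_⟩
  have := h.2 (l' ++ b) (by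
    intro j hj
    rw [List.mem_append] at hj
    rcases hj with hj | hj
    · exact hl' j hj
    · exact h.1 j (by simp [hj])) (by rw [P_append, P_append, hP])
  simp only [List.length_append] at this
  omega

lemma Red.right {n : ℕ} {a b : List ℕ} (h : Red n (a ++ b)) : Red n b := by
  refine ⟨fun j hj => h.1 j (by simp [hj]), fun l' hl' hP => ?_⟩
  have := h.2 (a ++ l') (by
    intro j hj
    rw [List.mem_append] at hj
    rcases hj with hj | hj
    · exact h.1 j (by simp [hj])
    · exact hl' j hj) (by rw [P_append, P_append, hP])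
  simp only [List.length_append] at this
  omega

lemma Red.congr {n : ℕ} {a b : List ℕ} (h : Red n a) (hb : ∀ j ∈ b, 1 ≤ j ∧ j + 1 ≤ n)
    (hP : P b = P a) (hl : b.length = a.length) : Red n b :=
  ⟨hb, fun l' hl' h' => by rw [hl]; exact h.2 l' hl' (h'.trans hP)⟩

lemma commute_P {x : ℕ} {l : List ℕ} (h : ∀ y ∈ l, Far x y) : Commute (sw x) (P l) := by
  induction l with
  | nil => exact Commute.one_right _
  | cons a l ih =>
    rw [P_cons]
    exact (h a (by simp)).commute.mul_right (ih fun y hy => h y (by simp [hy]))

lemma braid (x : ℕ) : sw x * (sw (x + 1) * sw x) = sw (x + 1) * (sw x * sw (x + 1)) := by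
  ext z
  simp only [Equiv.Perm.mul_apply, sw_apply]
  split_ifs <;> omega

/-- strictly increasing -/
def Inc (R : List ℕ) : Prop := R.Pairwise (· < ·)

/-- if `x` occurs then `x + 1` occurs -/
def Ok (R : List ℕ) (x : ℕ) : Prop := x ∈ R → x + 1 ∈ R

/-- `S` is below `R` in a tableau with strictly increasing columns -/
def Above : List ℕ → List ℕ → Prop
  | _, [] => True
  | [], _ :: _ => False
  | r :: R, s :: S => r < s ∧ Above R S

@[simp] lemma above_nil (R : List ℕ) : Above R [] := by cases R <;> trivial
@[simp] lemma not_nil_above (s : ℕ) (S : List ℕ) : ¬ Above [] (s :: S) := fun h => h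
@[simp] lemma above_cons (r s : ℕ) (R S : List ℕ) : Above (r :: R) (s :: S) ↔ r < s ∧ Above R S :=
  Iff.rfl

/-- Edelman–Greene insertion into a row: the new row and the bumped letter. -/
def ins : List ℕ → ℕ → List ℕ × Option ℕ
  | [], x => ([x], none)
  | r :: R, x => if x < r then (x :: R, some r) else if x = r then (r :: R, some (x + 1)) else
      (r :: (ins R x).1, (ins R x).2)

lemma ins_nil (x : ℕ) : ins [] x = ([x], none) := rfl

lemma ins_lt {r x : ℕ} (R : List ℕ) (h : x < r) : ins (r :: R) x = (x :: R, some r) := by
  rw [ins, if_pos h]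

lemma ins_eq (r : ℕ) (R : List ℕ) : ins (r :: R) r = (r :: R, some (r + 1)) := by
  rw [ins, if_neg (lt_irrefl _), if_pos rfl]

lemma ins_gt {r x : ℕ} (R : List ℕ) (h : r < x) :
    ins (r :: R) x = (r :: (ins R x).1, (ins R x).2) := by
  rw [ins, if_neg (by omega), if_neg (by omega)]

lemma Inc.tail {r : ℕ} {R : List ℕ} (h : Inc (r :: R)) : Inc R := (List.pairwise_cons.mp h).2
lemma Inc.lt {r : ℕ} {R : List ℕ} (h : Inc (r :: R)) : ∀ y ∈ R, r < y := (List.pairwise_cons.mp h).1
lemma Inc.cons {r : ℕ} {R : List ℕ} (h : ∀ y ∈ R, r < y) (hR : Inc R) : Inc (r :: R) :=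
  List.pairwise_cons.mpr ⟨h, hR⟩

lemma ins_ne_nil (R : List ℕ) (x : ℕ) : (ins R x).1 ≠ [] := by
  cases R with
  | nil => simp [ins]
  | cons r R =>
    rcases lt_trichotomy x r with h | h | h
    · rw [ins_lt R h]; simp
    · subst h; rw [ins_eq]; simp
    · rw [ins_gt R h]; simp

/-- the entries of the new row are old entries or `x` -/
lemma mem_ins {R : List ℕ} {x z : ℕ} (h : z ∈ (ins R x).1) : z ∈ R ∨ z = x := by
  induction R with
  | nil => simp [ins] at h; exact Or.inr h
  | cons r R ih =>
    rcases lt_trichotomy x r with h1 | h1 | h1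
    · rw [ins_lt R h1] at h
      simp only [List.mem_cons] at h ⊢
      tauto
    · subst h1
      rw [ins_eq] at h
      exact Or.inl h
    · rw [ins_gt R h1] at h
      simp only [List.mem_cons] at h ⊢
      rcases h with h | h
      · tauto
      · rcases ih h with h | h <;> tauto

lemma ins_inc {R : List ℕ} {x : ℕ} (hR : Inc R) : Inc (ins R x).1 := by
  induction R with
  | nil => exact List.pairwise_singleton _ _
  | cons r R ih =>
    rcases lt_trichotomy x r with h1 | h1 | h1
    · rw [ins_lt R h1]
      exact Inc.cons (fun y hy => lt_trans h1 (hR.lt y hy)) hR.tail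
    · subst h1; rw [ins_eq]; exact hR
    · rw [ins_gt R h1]
      refine Inc.cons (fun y hy => ?_) (ih hR.tail)
      rcases mem_ins hy with h | h
      · exact hR.lt y h
      · omega

lemma ins_none {R R' : List ℕ} {x : ℕ} (h : ins R x = (R', none)) :
    R' = R ++ [x] ∧ ∀ r ∈ R, r < x := by
  induction R generalizing R' with
  | nil =>
    simp only [ins, Prod.mk.injEq, and_true] at h
    subst h; simp
  | cons r R ih =>
    rcases lt_trichotomy x r with h1 | h1 | h1
    · rw [ins_lt R h1] at h; simp at h
    · subst h1; rw [ins_eq] at h; simp at h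
    · rw [ins_gt R h1] at h
      simp only [Prod.mk.injEq] at h
      obtain ⟨h2, h3⟩ := h
      obtain ⟨h4, h5⟩ := ih (Prod.ext rfl h3 : ins R x = ((ins R x).1, none))
      subst h2
      rw [h4]
      refine ⟨rfl, ?_⟩
      intro y hy
      rcases List.mem_cons.mp hy with h | h
      · omega
      · exact h5 y h

lemma ins_append {R : List ℕ} {x : ℕ} (h : ∀ r ∈ R, r < x) : ins R x = (R ++ [x], none) := by
  induction R with
  | nil => rfl
  | cons r R ih =>
    rw [ins_gt R (h r (by simp)), ih fun y hy => h y (by simp [hy])]
    rfl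

lemma ins_some {R R' : List ℕ} {x y : ℕ} (h : ins R x = (R', some y)) :
    R'.length = R.length ∧ x < y ∧ ∃ a L, R' = a :: L ∧ a ≤ x := by
  induction R generalizing R' with
  | nil => simp [ins] at h
  | cons r R ih =>
    rcases lt_trichotomy x r with h1 | h1 | h1
    · rw [ins_lt R h1] at h
      simp only [Prod.mk.injEq, Option.some.injEq] at h
      obtain ⟨rfl, rfl⟩ := h
      exact ⟨by simp, h1, x, R, rfl, le_rfl⟩
    · subst h1
      rw [ins_eq] at h
      simp only [Prod.mk.injEq, Option.some.injEq] at h
      obtain ⟨rfl, rfl⟩ := h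
      exact ⟨rfl, by omega, x, R, rfl, le_rfl⟩
    · rw [ins_gt R h1] at h
      simp only [Prod.mk.injEq] at h
      obtain ⟨rfl, h3⟩ := h
      obtain ⟨h4, h5, _⟩ := ih (Prod.ext rfl h3 : ins R x = ((ins R x).1, some y))
      exact ⟨by simp [h4], h5, r, _, rfl, h1.le⟩

/-- head of the new row is at most `x` -/
lemma ins_head_le (R : List ℕ) (x : ℕ) : ∃ a L, (ins R x).1 = a :: L ∧ a ≤ x := by
  cases R with
  | nil => exact ⟨x, [], rfl, le_rfl⟩
  | cons r R =>
    rcases lt_trichotomy x r with h1 | h1 | h1
    · rw [ins_lt R h1]; exact ⟨x, R, rfl, le_rfl⟩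
    · subst h1; rw [ins_eq]; exact ⟨x, R, rfl, le_rfl⟩
    · rw [ins_gt R h1]; exact ⟨r, _, rfl, h1.le⟩

lemma Ok.tail {r x : ℕ} {R : List ℕ} (h : Ok (r :: R) x) (hx : r < x) : Ok R x := by
  intro h1
  have := h (by simp [h1])
  rcases List.mem_cons.mp this with h2 | h2
  · omega
  · exact h2

lemma ok_head {r : ℕ} {R : List ℕ} (hR : Inc (r :: R)) (h : Ok (r :: R) r) :
    ∃ L, R = (r + 1) :: L := by
  have h1 := h (by simp)
  rcases List.mem_cons.mp h1 with h2 | h2
  · omega
  · cases R with
    | nil => simp at h2
    | cons s L =>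
      rcases List.mem_cons.mp h2 with h3 | h3
      · exact ⟨L, by rw [h3]⟩
      · have h4 := hR.tail.lt _ h3
        have h5 := hR.lt s (by simp)
        omega

/-- the Coxeter–Knuth relation -/
lemma ins_P {R R' : List ℕ} {x y : ℕ} (hR : Inc R) (hok : Ok R x) (h : ins R x = (R', some y)) :
    P (R ++ [x]) = P (y :: R') ∧ ∀ z ∈ y :: R', z ∈ R ++ [x] := by
  induction R generalizing R' with
  | nil => simp [ins] at h
  | cons r R ih =>
    rcases lt_trichotomy x r with h1 | h1 | h1
    · rw [ins_lt R h1] at h
      simp only [Prod.mk.injEq, Option.some.injEq] at h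
      obtain ⟨rfl, rfl⟩ := h
      refine ⟨?_, by intro z hz; simp only [List.mem_cons, List.mem_append] at hz ⊢; tauto⟩
      have hc : Commute (sw x) (P R) := commute_P fun y hy => by
        have := hR.lt y hy
        unfold Far; omega
      rw [List.cons_append, P_cons, P_append, P_singleton, P_cons, P_cons, ← hc.eq]
    · subst h1
      rw [ins_eq] at h
      simp only [Prod.mk.injEq, Option.some.injEq] at h
      obtain ⟨rfl, rfl⟩ := h
      obtain ⟨L, rfl⟩ := ok_head hR hok
      refine ⟨?_, by intro z hz; simp only [List.mem_cons, List.mem_append] at hz ⊢; tauto⟩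
      have hc : Commute (sw x) (P L) := commute_P fun y hy => by
        have := hR.tail.lt y hy
        unfold Far; omega
      simp only [List.cons_append, P_cons, P_append, P_nil, mul_one]
      have h8 : sw x * (sw (x + 1) * (P L * sw x)) = (sw x * (sw (x + 1) * sw x)) * P L := by
        rw [← hc.eq]; group
      rw [h8, braid x]
      group
    · rw [ins_gt R h1] at h
      simp only [Prod.mk.injEq] at h
      obtain ⟨rfl, h3⟩ := h
      have h4 : ins R x = ((ins R x).1, some y) := Prod.ext rfl h3
      obtain ⟨h5, h6⟩ := ih hR.tail (hok.tail h1) h4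
      have h7 := (ins_some h4).2.1
      refine ⟨?_, ?_⟩
      · rw [List.cons_append, P_cons, h5, P_cons, P_cons, P_cons, ← mul_assoc, ← mul_assoc]
        have : Far r y := by unfold Far; omega
        rw [this.commute.eq]
      · intro z hz
        simp only [List.mem_cons, List.mem_append] at hz h6 ⊢
        rcases hz with hz | hz | hz
        · have := h6 z (Or.inl hz); tauto
        · tauto
        · have := h6 z (Or.inr hz); tauto

lemma ok_of_red {n : ℕ} {R : List ℕ} {x : ℕ} (hR : Inc R) (h : Red n (R ++ [x])) : Ok R x := by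
  intro hx
  by_contra hx1
  obtain ⟨A, B, rfl⟩ := List.append_of_mem hx
  have hB : ∀ y ∈ B, x + 2 ≤ y := by
    intro y hy
    have h1 : x < y := (List.pairwise_append.mp hR).2.1 |> fun h => (List.pairwise_cons.mp h).1 y hy
    have h2 : y ≠ x + 1 := by
      rintro rfl
      exact hx1 (by simp [hy])
    omega
  have hc : Commute (sw x) (P B) := commute_P fun y hy => by
    have := hB y hy
    unfold Far; omega
  have h1 := h.2 (A ++ B) (by
    intro j hj
    apply h.1 j
    simp only [List.mem_append, List.mem_cons] at hj ⊢
    tauto) (by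
      rw [P_append, P_append, P_append, P_singleton, P_cons, mul_assoc, mul_assoc, ← hc.eq,
        ← mul_assoc (sw x) (sw x), sw_mul_self, one_mul])
  simp only [List.length_append, List.length_cons, List.length_nil] at h1
  omega

/-! ### the next row -/

lemma above_append {R S : List ℕ} (h : Above R S) (x : ℕ) : Above (R ++ [x]) S := by
  induction R generalizing S with
  | nil => cases S with
    | nil => trivial
    | cons s S => exact absurd h (not_nil_above _ _)
  | cons r R ih => cases S with
    | nil => trivial
    | cons s S => exact ⟨h.1, ih h.2⟩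

lemma above_of_append {R S : List ℕ} {x : ℕ} (h : Above (R ++ [x]) S) (hl : S.length ≤ R.length) :
    Above R S := by
  induction R generalizing S with
  | nil => cases S with
    | nil => trivial
    | cons s S => simp at hl
  | cons r R ih => cases S with
    | nil => trivial
    | cons s S => exact ⟨h.1, ih h.2 (by simpa using hl)⟩

lemma above_length {R S : List ℕ} (h : Above R S) : S.length ≤ R.length := by
  induction R generalizing S with
  | nil => cases S with
    | nil => simp
    | cons s S => exact absurd h (not_nil_above _ _)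
  | cons r R ih => cases S with
    | nil => simp
    | cons s S => simpa using ih h.2

/-- a smaller row is still above -/
lemma above_ins {R S : List ℕ} {x : ℕ} (h : Above R S) : Above (ins R x).1 S := by
  induction R generalizing S with
  | nil => cases S with
    | nil => trivial
    | cons s S => exact absurd h (not_nil_above _ _)
  | cons r R ih => cases S with
    | nil => simp
    | cons s S =>
      rcases lt_trichotomy x r with h1 | h1 | h1
      · rw [ins_lt R h1]; exact ⟨h1.trans h.1, h.2⟩
      · subst h1; rw [ins_eq]; exact h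
      · rw [ins_gt R h1]; exact ⟨h.1, ih h.2⟩

lemma above_step {R S R' : List ℕ} {x y : ℕ} (hAb : Above R S)
    (h : ins R x = (R', some y)) : Above R' (ins S y).1 := by
  induction R generalizing S R' with
  | nil => simp [ins] at h
  | cons r R ih =>
    rcases lt_trichotomy x r with h1 | h1 | h1
    · rw [ins_lt R h1] at h
      simp only [Prod.mk.injEq, Option.some.injEq] at h
      obtain ⟨rfl, rfl⟩ := h
      cases S with
      | nil => exact ⟨h1, by simp⟩
      | cons s S =>
        rw [ins_lt S hAb.1]
        exact ⟨h1, hAb.2⟩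
    · subst h1
      rw [ins_eq] at h
      simp only [Prod.mk.injEq, Option.some.injEq] at h
      obtain ⟨rfl, rfl⟩ := h
      cases S with
      | nil => exact ⟨Nat.lt_succ_self _, by simp⟩
      | cons s S =>
        rcases lt_trichotomy (x + 1) s with h2 | h2 | h2
        · rw [ins_lt S h2]; exact ⟨Nat.lt_succ_self _, hAb.2⟩
        · subst h2; rw [ins_eq]; exact hAb
        · have := hAb.1; omega
    · rw [ins_gt R h1] at h
      simp only [Prod.mk.injEq] at h
      obtain ⟨rfl, h3⟩ := h
      have h4 : ins R x = ((ins R x).1, some y) := Prod.ext rfl h3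
      have h5 := (ins_some h4).2.1
      cases S with
      | nil => exact ⟨h1.trans h5, by simp⟩
      | cons s S =>
        rcases lt_trichotomy y s with h2 | h2 | h2
        · rw [ins_lt S h2]; exact ⟨h1.trans h5, above_ins hAb.2⟩
        · subst h2; rw [ins_eq]; exact ⟨hAb.1, above_ins hAb.2⟩
        · rw [ins_gt S h2]; exact ⟨hAb.1, ih hAb.2 h4⟩

/-! ### the inverse -/

/-- reverse bumping of `y` into a row: the letter that comes out and the old row -/
def rins : List ℕ → ℕ → ℕ × List ℕ
  | [], _ => (0, [])
  | [r], y => (r, [y])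
  | r :: s :: R, y => if y < s then (r, y :: s :: R) else if y = s then (r, r :: s :: R) else
      ((rins (s :: R) y).1, r :: (rins (s :: R) y).2)

lemma rins_single (r y : ℕ) : rins [r] y = (r, [y]) := rfl
lemma rins_lt {r s y : ℕ} (R : List ℕ) (h : y < s) : rins (r :: s :: R) y = (r, y :: s :: R) := by
  rw [rins, if_pos h]
lemma rins_eq (r s : ℕ) (R : List ℕ) : rins (r :: s :: R) s = (r, r :: s :: R) := by
  rw [rins, if_neg (lt_irrefl _), if_pos rfl]
lemma rins_gt {r s y : ℕ} (R : List ℕ) (h : s < y) :
    rins (r :: s :: R) y = ((rins (s :: R) y).1, r :: (rins (s :: R) y).2) := by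
  rw [rins, if_neg (by omega), if_neg (by omega)]

lemma rins_ins {R R' : List ℕ} {x y : ℕ} (hR : Inc R) (hok : Ok R x) (h : ins R x = (R', some y)) :
    rins R' y = (x, R) := by
  induction R generalizing R' with
  | nil => simp [ins] at h
  | cons r R ih =>
    rcases lt_trichotomy x r with h1 | h1 | h1
    · rw [ins_lt R h1] at h
      simp only [Prod.mk.injEq, Option.some.injEq] at h
      obtain ⟨rfl, rfl⟩ := h
      cases R with
      | nil => rfl
      | cons s R => rw [rins_lt R (hR.lt s (by simp))]
    · subst h1
      rw [ins_eq] at h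
      simp only [Prod.mk.injEq, Option.some.injEq] at h
      obtain ⟨rfl, rfl⟩ := h
      obtain ⟨L, rfl⟩ := ok_head hR hok
      rw [rins_eq]
    · rw [ins_gt R h1] at h
      simp only [Prod.mk.injEq] at h
      obtain ⟨rfl, h3⟩ := h
      have h4 : ins R x = ((ins R x).1, some y) := Prod.ext rfl h3
      have h5 := ih hR.tail (hok.tail h1) h4
      obtain ⟨_, h6, a, L, h7, h8⟩ := ins_some h4
      rw [h7] at h5 ⊢
      rw [rins_gt L (by omega), h5]

/-- if `y` occurs then `y - 1` occurs -/
def Ok' (R : List ℕ) (y : ℕ) : Prop := y ∈ R → ∃ z ∈ R, z + 1 = y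

lemma ok'_of_red {n : ℕ} {R : List ℕ} {y : ℕ} (hR : Inc R) (h : Red n (y :: R)) : Ok' R y := by
  intro hy
  by_contra hx1
  push Not at hx1
  obtain ⟨A, B, rfl⟩ := List.append_of_mem hy
  have hA : ∀ z ∈ A, z + 2 ≤ y := by
    intro z hz
    have h1 : z < y := (List.pairwise_append.mp hR).2.2 z hz y (by simp)
    have h2 : z + 1 ≠ y := hx1 z (by simp [hz])
    omega
  have hc : Commute (sw y) (P A) := commute_P fun z hz => by
    have := hA z hz
    unfold Far; omega
  have h1 := h.2 (A ++ B) (by
    intro j hj
    apply h.1 j
    simp only [List.mem_append, List.mem_cons] at hj ⊢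
    tauto) (by
      rw [P_append, P_cons, P_append, P_cons, ← mul_assoc, ← mul_assoc, hc.eq, mul_assoc (P A),
        sw_mul_self, mul_one])
  simp only [List.length_append, List.length_cons] at h1
  omega

lemma rins_spec {R' : List ℕ} {y : ℕ} (hR : Inc R') (hok : Ok' R' y) {a : ℕ} {L : List ℕ}
    (ha : R' = a :: L) (hay : a < y) :
    Inc (rins R' y).2 ∧ ins (rins R' y).2 (rins R' y).1 = (R', some y) ∧
      Ok (rins R' y).2 (rins R' y).1 ∧ a ≤ (rins R' y).1 ∧ (∀ z ∈ (rins R' y).2, a ≤ z) := by
  induction L generalizing R' a with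
  | nil =>
    subst ha
    rw [rins_single]
    refine ⟨List.pairwise_singleton _ _, ?_, ?_, le_rfl, ?_⟩
    · simp only; rw [ins_lt [] hay]
    · intro h; simp only [List.mem_singleton] at h; omega
    · intro z hz; simp only [List.mem_singleton] at hz; omega
  | cons s R ih =>
    subst ha
    have has : a < s := hR.lt s (by simp)
    rcases lt_trichotomy y s with h1 | h1 | h1
    · rw [rins_lt R h1]
      refine ⟨?_, ?_, ?_, le_rfl, ?_⟩
      · refine Inc.cons ?_ hR.tail
        intro z hz
        rcases List.mem_cons.mp hz with h | h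
        · omega
        · have := hR.tail.lt z h; omega
      · simp only; rw [ins_lt _ hay]
      · intro h
        simp only at h
        rcases List.mem_cons.mp h with h | h
        · omega
        · have := hR.lt a h; omega
      · intro z hz
        rcases List.mem_cons.mp hz with h | h
        · omega
        · have := hR.lt z h; omega
    · subst h1
      rw [rins_eq]
      obtain ⟨z, hz, hzy⟩ := hok (by simp)
      have hza : z = a := by
        rcases List.mem_cons.mp hz with h | h
        · exact h
        · rcases List.mem_cons.mp h with h | h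
          · omega
          · have := hR.tail.lt z h; omega
      subst hza
      refine ⟨hR, ?_, ?_, le_rfl, ?_⟩
      · simp only; rw [ins_eq, hzy]
      · intro _; simp [hzy]
      · intro w hw
        rcases List.mem_cons.mp hw with h | h
        · omega
        · have := hR.lt w h; omega
    · rw [rins_gt R h1]
      have hok2 : Ok' (s :: R) y := by
        intro hy
        obtain ⟨z, hz, hzy⟩ := hok (by simp only [List.mem_cons] at hy ⊢; tauto)
        rcases List.mem_cons.mp hz with h | h
        · omega
        · exact ⟨z, h, hzy⟩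
      obtain ⟨i1, i2, i3, i4, i5⟩ := ih hR.tail hok2 rfl h1
      refine ⟨?_, ?_, ?_, ?_, ?_⟩
      · refine Inc.cons (fun z hz => ?_) i1
        have := i5 z hz; omega
      · simp only
        rw [ins_gt _ (by omega), i2]
      · simp only
        intro h
        rcases List.mem_cons.mp h with h | h
        · omega
        · have := i3 h; simp [this]
      · simp only; omega
      · intro z hz
        rcases List.mem_cons.mp hz with h | h
        · omega
        · have := i5 z h; omega

/-- undoing a bump keeps the row above, if the row below is large -/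
lemma above_undo {R R' S : List ℕ} {x y : ℕ} (h : ins R x = (R', some y)) (hS : ∀ s ∈ S, y < s)
    (hAb : Above R' S) : Above R S := by
  induction R generalizing S R' with
  | nil => simp [ins] at h
  | cons r R ih =>
    cases S with
    | nil => simp
    | cons s S =>
      rcases lt_trichotomy x r with h1 | h1 | h1
      · rw [ins_lt R h1] at h
        simp only [Prod.mk.injEq, Option.some.injEq] at h
        obtain ⟨rfl, rfl⟩ := h
        exact ⟨hS s (by simp), hAb.2⟩
      · subst h1
        rw [ins_eq] at h
        simp only [Prod.mk.injEq, Option.some.injEq] at h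
        obtain ⟨rfl, rfl⟩ := h
        exact hAb
      · rw [ins_gt R h1] at h
        simp only [Prod.mk.injEq] at h
        obtain ⟨rfl, h3⟩ := h
        have h4 : ins R x = ((ins R x).1, some y) := Prod.ext rfl h3
        exact ⟨hAb.1, ih h4 (fun z hz => hS z (by simp [hz])) hAb.2⟩

lemma above_unstep {R R' S : List ℕ} {x y : ℕ} (hR : Inc R) (hS : Inc S) (hok : Ok S y)
    (h : ins R x = (R', some y)) (hAb : Above R' (ins S y).1) : Above R S := by
  induction R generalizing S R' with
  | nil => simp [ins] at h
  | cons r R ih =>
    cases S with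
    | nil => simp
    | cons s S =>
      rcases lt_trichotomy x r with h1 | h1 | h1
      · rw [ins_lt R h1] at h
        simp only [Prod.mk.injEq, Option.some.injEq] at h
        obtain ⟨rfl, rfl⟩ := h
        rcases lt_trichotomy r s with h2 | h2 | h2
        · rw [ins_lt S h2] at hAb
          exact ⟨h2, hAb.2⟩
        · subst h2
          rw [ins_eq] at hAb
          obtain ⟨L, rfl⟩ := ok_head hS hok
          exfalso
          cases R with
          | nil => exact hAb.2
          | cons t R =>
            have h3 := hAb.2.1
            have h4 := hR.lt t (by simp)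
            omega
        · rw [ins_gt S h2] at hAb
          exfalso
          obtain ⟨a, L, h3, h4⟩ := ins_head_le S r
          rw [h3] at hAb
          cases R with
          | nil => exact hAb.2
          | cons t R =>
            have h5 := hAb.2.1
            have h6 := hR.lt t (by simp)
            omega
      · subst h1
        rw [ins_eq] at h
        simp only [Prod.mk.injEq, Option.some.injEq] at h
        obtain ⟨rfl, rfl⟩ := h
        rcases lt_trichotomy (x + 1) s with h2 | h2 | h2
        · rw [ins_lt S h2] at hAb
          exact ⟨by omega, hAb.2⟩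
        · subst h2; rw [ins_eq] at hAb; exact hAb
        · rw [ins_gt S h2] at hAb
          have := hAb.1
          omega
      · rw [ins_gt R h1] at h
        simp only [Prod.mk.injEq] at h
        obtain ⟨rfl, h3⟩ := h
        have h4 : ins R x = ((ins R x).1, some y) := Prod.ext rfl h3
        have h5 := (ins_some h4).2.1
        rcases lt_trichotomy y s with h2 | h2 | h2
        · rw [ins_lt S h2] at hAb
          exact ⟨by omega, above_undo h4 (fun z hz => h2.trans (hS.lt z hz)) hAb.2⟩
        · subst h2
          rw [ins_eq] at hAb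
          exact ⟨hAb.1, above_undo h4 (fun z hz => hS.lt z hz) hAb.2⟩
        · rw [ins_gt S h2] at hAb
          exact ⟨hAb.1, ih hR.tail hS.tail (hok.tail h2) h4 hAb.2⟩

end Pool.Agent.SNL63
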