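import Pool.Agent.SNL63.SDefs

/-!
# From the test functions `1 / (ζ - u)` to all continuous functions

`Win` is stable under sums, multiples and uniform limits on `[-1,1]`. From `1 / (ζ - u)` one gets
`u ^ k / (ζ - u)` and `u ^ k` (`ζ → ∞`) by induction on `k`, hence all polynomials, and then all
continuous functions by Weierstrass' theorem.
-/

namespace Pool.Agent.SNL63

open Pool.Agent.SN8 MeasureTheory Set Filter Topology
open scoped ENNReal Real

theorem SW_semi_le : semi ≤ volume.restrict (Icc (-1 : ℝ) 1) := by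
  have h : semi ≤ (volume.restrict (Icc (-1 : ℝ) 1)).withDensity (fun _ => 1) := by
    unfold semi
    apply withDensity_mono
    refine Eventually.of_forall fun u => ?_
    show ENNReal.ofReal (2 / π * √(1 - u ^ 2)) ≤ 1
    rw [← ENNReal.ofReal_one]
    apply ENNReal.ofReal_le_ofReal
    have h1 : √(1 - u ^ 2) ≤ 1 := by
      rw [Real.sqrt_le_one]
      nlinarith [sq_nonneg u]
    have h2 : 2 / π ≤ 1 := by
      rw [div_le_one Real.pi_pos]
      linarith [Real.pi_gt_three]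
    have h3 : 0 ≤ √(1 - u ^ 2) := Real.sqrt_nonneg _
    have h4 : 0 < 2 / π := by positivity
    nlinarith
  rwa [withDensity_const, one_smul] at h

theorem SW_semi_univ : semi univ ≤ 2 := by
  refine (SW_semi_le univ).trans ?_
  rw [Measure.restrict_apply_univ, Real.volume_Icc]
  norm_num

instance SW_finite : IsFiniteMeasure semi :=
  ⟨lt_of_le_of_lt SW_semi_univ (by norm_num)⟩

theorem SW_semi_real : semi.real univ ≤ 2 := by
  unfold Measure.real
  have h := ENNReal.toReal_mono (by norm_num) SW_semi_univ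
  simpa using h

theorem SW_ae : ∀ᵐ u ∂semi, u ∈ Icc (-1 : ℝ) 1 := by
  have h : ∀ᵐ u ∂(volume.restrict (Icc (-1 : ℝ) 1)), u ∈ Icc (-1 : ℝ) 1 :=
    ae_restrict_mem measurableSet_Icc
  exact (Measure.absolutelyContinuous_of_le SW_semi_le).ae_le h

theorem SW_int {g : ℝ → ℝ} (hg : ContinuousOn g (Icc (-1) 1)) : Integrable g semi :=
  (show Integrable g (volume.restrict (Icc (-1 : ℝ) 1)) from
    hg.integrableOn_Icc (μ := volume)).mono_measure SW_semi_le

/-- The deviation of a word. -/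
noncomputable def SW_dev (g : ℝ → ℝ) (n s : ℕ) (k : List ℕ) : ℝ :=
  ssum g n (k.drop (n.choose 2 - s)) - s * ∫ u, g u ∂semi

theorem SW_ssum_add (g h : ℝ → ℝ) (n : ℕ) (l : List ℕ) :
    ssum (fun u => g u + h u) n l = ssum g n l + ssum h n l := by
  unfold ssum
  induction l with
  | nil => simp
  | cons a l ih => simp only [List.map_cons, List.sum_cons] at ih ⊢; rw [ih]; ring

theorem SW_ssum_mul (c : ℝ) (g : ℝ → ℝ) (n : ℕ) (l : List ℕ) :
    ssum (fun u => c * g u) n l = c * ssum g n l := by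
  unfold ssum
  induction l with
  | nil => simp
  | cons a l ih => simp only [List.map_cons, List.sum_cons] at ih ⊢; rw [ih]; ring

theorem SW_ssum_sub_le {g h : ℝ → ℝ} {δ : ℝ} (hgh : ∀ u ∈ Icc (-1 : ℝ) 1, |g u - h u| ≤ δ)
    {n : ℕ} (hn : 1 ≤ n) (l : List ℕ) (hl : ∀ j ∈ l, j ≤ n) :
    |ssum g n l - ssum h n l| ≤ δ * l.length := by
  unfold ssum
  induction l with
  | nil => simp
  | cons a l ih =>
    simp only [List.map_cons, List.sum_cons, List.length_cons]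
    have h1 := ih fun j hj => hl j (List.mem_cons_of_mem _ hj)
    have ha := hl a List.mem_cons_self
    have hn0 : (0 : ℝ) < n := by exact_mod_cast hn
    have har : (a : ℝ) ≤ n := by exact_mod_cast ha
    have hmem : 2 * (a : ℝ) / n - 1 ∈ Icc (-1 : ℝ) 1 := by
      constructor
      · have : 0 ≤ 2 * (a : ℝ) / n := by positivity
        linarith
      · have : 2 * (a : ℝ) / n ≤ 2 := by
          rw [div_le_iff₀ hn0]; linarith
        linarith
    have h2 := hgh _ hmem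
    push_cast
    rw [abs_le] at h1 h2 ⊢
    constructor <;> linarith [h1.1, h1.2, h2.1, h2.2]

theorem SW_length {n s : ℕ} (hs : s ≤ n.choose 2) {k : List ℕ} (hk : IsNetwork n k) :
    (k.drop (n.choose 2 - s)).length = s := by
  rw [List.length_drop, hk.1]
  omega

theorem SW_int_sub {g h : ℝ → ℝ} {δ : ℝ} (hgh : ∀ u ∈ Icc (-1 : ℝ) 1, |g u - h u| ≤ δ)
    (hδ : 0 ≤ δ) (hg : ContinuousOn g (Icc (-1) 1)) (hh : ContinuousOn h (Icc (-1) 1)) :
    |∫ u, g u ∂semi - ∫ u, h u ∂semi| ≤ 2 * δ := by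
  rw [← integral_sub (SW_int hg) (SW_int hh)]
  have h1 : ‖∫ u, (g u - h u) ∂semi‖ ≤ δ * semi.real univ := by
    apply norm_integral_le_of_norm_le_const
    filter_upwards [SW_ae] with u hu
    rw [Real.norm_eq_abs]
    exact hgh u hu
  rw [Real.norm_eq_abs] at h1
  have h2 := SW_semi_real
  nlinarith

/-- `Win` for uniform limits -/
theorem SW_lim {g : ℝ → ℝ} (hg : ContinuousOn g (Icc (-1) 1))
    (h : ∀ δ : ℝ, 0 < δ → ∃ f : ℝ → ℝ, ContinuousOn f (Icc (-1) 1) ∧ Win f ∧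
      ∀ u ∈ Icc (-1 : ℝ) 1, |g u - f u| ≤ δ) : Win g := by
  intro ε hε
  obtain ⟨f, hf, hw, hgf⟩ := h (ε / 8) (by positivity)
  obtain ⟨κ₀, hκ₀, h1⟩ := hw (ε / 2) (by positivity)
  refine ⟨min κ₀ 1, lt_min hκ₀ one_pos, fun κ hκ hκ1 => ?_⟩
  obtain ⟨c, hc, n₀, h2⟩ := h1 κ hκ (hκ1.trans (min_le_left _ _))
  refine ⟨c, hc, max n₀ 1, fun n hn s hs1 hs2 => ?_⟩
  have hn1 : 1 ≤ n := le_trans (le_max_right _ _) hn
  have hsN : s ≤ n.choose 2 := by
    have h3 : κ * (n.choose 2 : ℝ) ≤ 1 * (n.choose 2 : ℝ) :=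
      mul_le_mul_of_nonneg_right (hκ1.trans (min_le_right _ _)) (Nat.cast_nonneg _)
    have h4 : (s : ℝ) ≤ (n.choose 2 : ℝ) := by linarith
    exact_mod_cast h4
  refine le_trans ?_ (h2 n (le_trans (le_max_left _ _) hn) s hs1 hs2)
  have hsub : ({k | IsNetwork n k ∧ ε * s < |ssum g n (k.drop (n.choose 2 - s)) -
      s * ∫ u, g u ∂semi|} : Set (List ℕ)) ⊆ {k | IsNetwork n k ∧ ε / 2 * s <
        |ssum f n (k.drop (n.choose 2 - s)) - s * ∫ u, f u ∂semi|} := by
    rintro k ⟨hk, hdev⟩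
    refine ⟨hk, ?_⟩
    have h5 := SW_ssum_sub_le hgf hn1 (k.drop (n.choose 2 - s))
      (fun j hj => by
        have := (hk.2.1 j (List.mem_of_mem_drop hj)).2
        omega)
    rw [SW_length hsN hk] at h5
    have h6 := SW_int_sub hgf (by positivity) hg hf
    have hs0 : (0 : ℝ) ≤ s := Nat.cast_nonneg _
    have h7 : |(s : ℝ) * ∫ u, g u ∂semi - s * ∫ u, f u ∂semi| ≤ s * (2 * (ε / 8)) := by
      rw [← mul_sub, abs_mul, abs_of_nonneg hs0]
      exact mul_le_mul_of_nonneg_left h6 hs0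
    have h8 : |ssum g n (k.drop (n.choose 2 - s)) - s * ∫ u, g u ∂semi| ≤
        |ssum f n (k.drop (n.choose 2 - s)) - s * ∫ u, f u ∂semi| +
          |ssum g n (k.drop (n.choose 2 - s)) - ssum f n (k.drop (n.choose 2 - s))| +
          |(s : ℝ) * ∫ u, g u ∂semi - s * ∫ u, f u ∂semi| := by
      set a := ssum g n (k.drop (n.choose 2 - s))
      set b := ssum f n (k.drop (n.choose 2 - s))
      set p := (s : ℝ) * ∫ u, g u ∂semi
      set q := (s : ℝ) * ∫ u, f u ∂semi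
      have e : a - p = (b - q) + (a - b) - (p - q) := by ring
      rw [e]
      exact (abs_sub _ _).trans (add_le_add (abs_add_le _ _) le_rfl)
    have h9 : 0 ≤ ε * s := by positivity
    linarith
  exact_mod_cast Set.ncard_le_ncard hsub ((networks_finite n).subset fun k hk => hk.1)

theorem SW_congr {g f : ℝ → ℝ} (hf : ContinuousOn f (Icc (-1) 1)) (hw : Win f)
    (h : ∀ u ∈ Icc (-1 : ℝ) 1, g u = f u) : Win g :=
  SW_lim (hf.congr h) fun δ hδ => ⟨f, hf, hw, fun u hu => by rw [h u hu, sub_self, abs_zero]; exact hδ.le⟩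

theorem SW_add {g f : ℝ → ℝ} (hg : ContinuousOn g (Icc (-1) 1)) (hf : ContinuousOn f (Icc (-1) 1))
    (hwg : Win g) (hwf : Win f) : Win (fun u => g u + f u) := by
  intro ε hε
  obtain ⟨κ₁, hκ₁, h1⟩ := hwg (ε / 2) (by positivity)
  obtain ⟨κ₂, hκ₂, h2⟩ := hwf (ε / 2) (by positivity)
  refine ⟨min κ₁ κ₂, lt_min hκ₁ hκ₂, fun κ hκ hκ1 => ?_⟩
  obtain ⟨c₁, hc₁, n₁, h3⟩ := h1 κ hκ (hκ1.trans (min_le_left _ _))
  obtain ⟨c₂, hc₂, n₂, h4⟩ := h2 κ hκ (hκ1.trans (min_le_right _ _))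
  set c : ℝ := min c₁ c₂ with hc
  have hc0 : 0 < c := lt_min hc₁ hc₂
  refine ⟨c / 2, by positivity, max (max n₁ n₂) (⌈2 / c⌉₊ + 1), fun n hn s hs1 hs2 => ?_⟩
  have hn1 : n₁ ≤ n := le_trans (le_trans (le_max_left _ _) (le_max_left _ _)) hn
  have hn2 : n₂ ≤ n := le_trans (le_trans (le_max_right _ _) (le_max_left _ _)) hn
  have hn3 : ⌈2 / c⌉₊ + 1 ≤ n := le_trans (le_max_right _ _) hn
  have h5 := h3 n hn1 s hs1 hs2
  have h6 := h4 n hn2 s hs1 hs2
  have hnr : (1 : ℝ) ≤ n := by exact_mod_cast (by omega : 1 ≤ n)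
  have hn4 : 2 / c ≤ n := by
    refine (Nat.le_ceil _).trans ?_
    exact_mod_cast (by omega : ⌈2 / c⌉₊ ≤ n)
  have hcn : 1 ≤ c / 2 * (n : ℝ) ^ 2 := by
    rw [div_le_iff₀ hc0] at hn4
    nlinarith
  have hexp : 2 * Real.exp (-c * (n : ℝ) ^ 2) ≤ Real.exp (-(c / 2) * (n : ℝ) ^ 2) := by
    have e1 : Real.exp (-(c / 2) * (n : ℝ) ^ 2) =
        Real.exp (-c * (n : ℝ) ^ 2) * Real.exp (c / 2 * (n : ℝ) ^ 2) := by
      rw [← Real.exp_add]; congr 1; ring
    have e2 : 2 ≤ Real.exp (c / 2 * (n : ℝ) ^ 2) := by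
      have := Real.add_one_le_exp (c / 2 * (n : ℝ) ^ 2)
      linarith
    rw [e1]
    nlinarith [Real.exp_pos (-c * (n : ℝ) ^ 2)]
  have hexp1 : Real.exp (-c₁ * (n : ℝ) ^ 2) ≤ Real.exp (-c * (n : ℝ) ^ 2) := by
    apply Real.exp_le_exp.2
    have : c ≤ c₁ := min_le_left _ _
    nlinarith [sq_nonneg (n : ℝ)]
  have hexp2 : Real.exp (-c₂ * (n : ℝ) ^ 2) ≤ Real.exp (-c * (n : ℝ) ^ 2) := by
    apply Real.exp_le_exp.2
    have : c ≤ c₂ := min_le_right _ _
    nlinarith [sq_nonneg (n : ℝ)]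
  set A : Set (List ℕ) := {k | IsNetwork n k ∧ ε / 2 * s <
    |ssum g n (k.drop (n.choose 2 - s)) - s * ∫ u, g u ∂semi|} with hA
  set B : Set (List ℕ) := {k | IsNetwork n k ∧ ε / 2 * s <
    |ssum f n (k.drop (n.choose 2 - s)) - s * ∫ u, f u ∂semi|} with hB
  have hsub : ({k | IsNetwork n k ∧ ε * s < |ssum (fun u => g u + f u) n
      (k.drop (n.choose 2 - s)) - s * ∫ u, (g u + f u) ∂semi|} : Set (List ℕ)) ⊆ A ∪ B := by
    rintro k ⟨hk, hdev⟩
    by_contra hcon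
    rw [mem_union, not_or] at hcon
    have h7 : |ssum g n (k.drop (n.choose 2 - s)) - s * ∫ u, g u ∂semi| ≤ ε / 2 * s := by
      by_contra h
      exact hcon.1 ⟨hk, not_le.1 h⟩
    have h8 : |ssum f n (k.drop (n.choose 2 - s)) - s * ∫ u, f u ∂semi| ≤ ε / 2 * s := by
      by_contra h
      exact hcon.2 ⟨hk, not_le.1 h⟩
    rw [SW_ssum_add, integral_add (SW_int hg) (SW_int hf)] at hdev
    have e : ssum g n (k.drop (n.choose 2 - s)) + ssum f n (k.drop (n.choose 2 - s)) -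
        s * (∫ u, g u ∂semi + ∫ u, f u ∂semi) =
        (ssum g n (k.drop (n.choose 2 - s)) - s * ∫ u, g u ∂semi) +
        (ssum f n (k.drop (n.choose 2 - s)) - s * ∫ u, f u ∂semi) := by ring
    rw [e] at hdev
    have h9 := abs_add_le (ssum g n (k.drop (n.choose 2 - s)) - s * ∫ u, g u ∂semi)
      (ssum f n (k.drop (n.choose 2 - s)) - s * ∫ u, f u ∂semi)
    linarith
  have hfin : (A ∪ B).Finite := (networks_finite n).subset (by
    rintro k (hk | hk)
    · exact hk.1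
    · exact hk.1)
  have h10 : (({k | IsNetwork n k ∧ ε * s < |ssum (fun u => g u + f u) n
      (k.drop (n.choose 2 - s)) - s * ∫ u, (g u + f u) ∂semi|} : Set (List ℕ)).ncard : ℝ) ≤
      (A.ncard : ℝ) + B.ncard := by
    have h11 := (Set.ncard_le_ncard hsub hfin).trans (Set.ncard_union_le A B)
    exact_mod_cast h11
  have hnets : (0 : ℝ) ≤ nets n := Nat.cast_nonneg _
  calc _ ≤ (A.ncard : ℝ) + B.ncard := h10
    _ ≤ Real.exp (-c₁ * (n : ℝ) ^ 2) * nets n + Real.exp (-c₂ * (n : ℝ) ^ 2) * nets n :=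
        add_le_add h5 h6
    _ ≤ Real.exp (-c * (n : ℝ) ^ 2) * nets n + Real.exp (-c * (n : ℝ) ^ 2) * nets n :=
        add_le_add (mul_le_mul_of_nonneg_right hexp1 hnets)
          (mul_le_mul_of_nonneg_right hexp2 hnets)
    _ = 2 * Real.exp (-c * (n : ℝ) ^ 2) * nets n := by ring
    _ ≤ _ := mul_le_mul_of_nonneg_right hexp hnets

theorem SW_mul (c : ℝ) {g : ℝ → ℝ} (hwg : Win g) : Win (fun u => c * g u) := by
  intro ε hε
  have hc1 : 0 < |c| + 1 := by positivity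
  obtain ⟨κ₀, hκ₀, h1⟩ := hwg (ε / (|c| + 1)) (by positivity)
  refine ⟨κ₀, hκ₀, fun κ hκ hκ1 => ?_⟩
  obtain ⟨d, hd, n₀, h2⟩ := h1 κ hκ hκ1
  refine ⟨d, hd, n₀, fun n hn s hs1 hs2 => le_trans ?_ (h2 n hn s hs1 hs2)⟩
  have hsub : ({k | IsNetwork n k ∧ ε * s < |ssum (fun u => c * g u) n
      (k.drop (n.choose 2 - s)) - s * ∫ u, (c * g u) ∂semi|} : Set (List ℕ)) ⊆
      {k | IsNetwork n k ∧ ε / (|c| + 1) * s <
        |ssum g n (k.drop (n.choose 2 - s)) - s * ∫ u, g u ∂semi|} := by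
    rintro k ⟨hk, hdev⟩
    refine ⟨hk, ?_⟩
    rw [SW_ssum_mul, integral_const_mul] at hdev
    have e : c * ssum g n (k.drop (n.choose 2 - s)) - s * (c * ∫ u, g u ∂semi) =
        c * (ssum g n (k.drop (n.choose 2 - s)) - s * ∫ u, g u ∂semi) := by ring
    rw [e, abs_mul] at hdev
    rw [div_mul_eq_mul_div, div_lt_iff₀ hc1]
    have h3 : 0 ≤ |ssum g n (k.drop (n.choose 2 - s)) - s * ∫ u, g u ∂semi| := abs_nonneg _
    have h4 : |c| * |ssum g n (k.drop (n.choose 2 - s)) - s * ∫ u, g u ∂semi| ≤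
        |ssum g n (k.drop (n.choose 2 - s)) - s * ∫ u, g u ∂semi| * (|c| + 1) := by
      nlinarith
    linarith
  exact_mod_cast Set.ncard_le_ncard hsub ((networks_finite n).subset fun k hk => hk.1)

theorem SW_cont {ζ : ℝ} (hζ : 2 ≤ ζ) (k : ℕ) :
    ContinuousOn (fun u : ℝ => u ^ k / (ζ - u)) (Icc (-1) 1) := by
  apply ContinuousOn.div (by fun_prop) (by fun_prop)
  intro u hu
  have := hu.2
  intro h
  linarith

theorem SW_pow_of (k : ℕ) (h : ∀ ζ : ℝ, 2 ≤ ζ → Win (fun u => u ^ k / (ζ - u))) :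
    Win (fun u : ℝ => u ^ k) := by
  refine SW_lim (by fun_prop) fun δ hδ => ?_
  set ζ : ℝ := 2 + 1 / δ with hζ
  have hζ2 : 2 ≤ ζ := by
    have : 0 < 1 / δ := by positivity
    linarith
  refine ⟨fun u => ζ * (u ^ k / (ζ - u)), (SW_cont hζ2 k).const_mul ζ |>.congr fun u _ => rfl,
    SW_mul ζ (h ζ hζ2), fun u hu => ?_⟩
  have h1 : 0 < ζ - u := by linarith [hu.2]
  have e : u ^ k - ζ * (u ^ k / (ζ - u)) = -(u ^ k * u / (ζ - u)) := by
    field_simp
    ring
  rw [e, abs_neg, abs_div, abs_mul, abs_pow, abs_of_pos h1]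
  have hu1 : |u| ≤ 1 := abs_le.2 hu
  have h2 : |u| ^ k ≤ 1 := pow_le_one₀ (abs_nonneg _) hu1
  have h3 : |u| ^ k * |u| ≤ 1 := by
    calc |u| ^ k * |u| ≤ 1 * 1 := mul_le_mul h2 hu1 (abs_nonneg _) zero_le_one
      _ = 1 := one_mul 1
  rw [div_le_iff₀ h1]
  have h4 : 1 / δ ≤ ζ - u := by linarith [hu.2]
  have h5 : 1 ≤ δ * (ζ - u) := by
    calc (1 : ℝ) = δ * (1 / δ) := by field_simp
      _ ≤ δ * (ζ - u) := mul_le_mul_of_nonneg_left h4 hδ.le
  linarith

theorem SW_quot (hz : ∀ ζ : ℝ, 2 ≤ ζ → Win (gz ζ)) (k : ℕ) :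
    ∀ ζ : ℝ, 2 ≤ ζ → Win (fun u => u ^ k / (ζ - u)) := by
  induction k with
  | zero =>
    intro ζ hζ
    have : (fun u : ℝ => u ^ 0 / (ζ - u)) = gz ζ := by
      funext u
      simp [gz]
    rw [this]
    exact hz ζ hζ
  | succ k ih =>
    intro ζ hζ
    have h1 : Win (fun u : ℝ => ζ * (u ^ k / (ζ - u)) + (-1) * u ^ k) :=
      SW_add ((SW_cont hζ k).const_mul ζ |>.congr fun u _ => rfl) (by fun_prop)
        (SW_mul ζ (ih ζ hζ)) (SW_mul (-1) (SW_pow_of k ih))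
    refine SW_congr (((SW_cont hζ k).const_mul ζ |>.congr fun u _ => rfl).add
      (by fun_prop : ContinuousOn (fun u : ℝ => (-1) * u ^ k) (Icc (-1) 1))) h1 fun u hu => ?_
    have h2 : ζ - u ≠ 0 := by
      have := hu.2
      intro h
      linarith
    show u ^ (k + 1) / (ζ - u) = ζ * (u ^ k / (ζ - u)) + (-1) * u ^ k
    field_simp
    ring

theorem SW_poly (hz : ∀ ζ : ℝ, 2 ≤ ζ → Win (gz ζ)) (p : Polynomial ℝ) :
    Win (fun u => p.eval u) := by
  induction p using Polynomial.induction_on' with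
  | add p q hp hq =>
    have h := SW_add (g := fun u => p.eval u) (f := fun u => q.eval u)
      p.continuous.continuousOn q.continuous.continuousOn hp hq
    have e : (fun u => (p + q).eval u) = fun u => p.eval u + q.eval u := by
      funext u
      exact Polynomial.eval_add
    rw [e]
    exact h
  | monomial k c =>
    have h := SW_mul c (SW_pow_of k (SW_quot hz k))
    have e : (fun u => (Polynomial.monomial k c).eval u) = fun u => c * u ^ k := by
      funext u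
      exact Polynomial.eval_monomial
    rw [e]
    exact h

/-- **All continuous test functions.** -/
theorem win_all (hz : ∀ ζ : ℝ, 2 ≤ ζ → Win (gz ζ)) {g : ℝ → ℝ} (hg : Continuous g) : Win g := by
  refine SW_lim hg.continuousOn fun δ hδ => ?_
  obtain ⟨p, hp⟩ := exists_polynomial_near_of_continuousOn (-1) 1 g hg.continuousOn δ hδ
  refine ⟨fun u => p.eval u, p.continuous.continuousOn, SW_poly hz p, fun u hu => ?_⟩
  rw [abs_sub_comm]
  exact (hp u hu).le

end Pool.Agent.SNL63
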