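import Pool.Agent.SNL63.SDefs

/-!
# The distribution of the removed corner is stable near the staircase
-/

namespace Pool.Agent.SNL63

open Pool.Agent.SN8 MeasureTheory Set Filter Topology
open scoped ENNReal Real

/-- Every shape in the staircase is the staircase or comes from a larger shape in the staircase by the removal of a corner. -/
theorem stab_up {n : ℕ} {lam : ℕ → ℕ} (h : Shape n lam) (hst : ∀ i, lam i ≤ n - 1 - i) (hne : lam ≠ stair n) :
    ∃ lam' α, Shape n lam' ∧ (∀ i, lam' i ≤ n - 1 - i) ∧ α ∈ corners n lam' ∧ lam = dec lam' α := by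
  have hex : ∃ i, lam i < n - 1 - i := by
    by_contra hcon
    push Not at hcon
    apply hne
    funext i
    exact le_antisymm (hst i) (hcon i)
  classical
  obtain ⟨α, hα, hmin⟩ : ∃ α, lam α < n - 1 - α ∧ ∀ j < α, ¬ lam j < n - 1 - j :=
    ⟨Nat.find hex, Nat.find_spec hex, fun j hj => Nat.find_min hex hj⟩
  refine ⟨Function.update lam α (lam α + 1), α, ⟨?_, ?_⟩, ?_, ?_, ?_⟩
  · apply antitone_nat_of_succ_le
    intro i
    have h1 : lam (i + 1) ≤ lam i := h.anti (Nat.le_succ i)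
    by_cases h2 : i = α
    · subst h2
      rw [Function.update_self, Function.update_of_ne (by omega)]
      omega
    · rw [Function.update_of_ne h2]
      by_cases h3 : i + 1 = α
      · rw [h3, Function.update_self]
        have h4 := hmin i (by omega)
        have h5 := hst i
        omega
      · rw [Function.update_of_ne h3]
        exact h1
  · rw [Function.update_of_ne (by omega)]
    exact h.zero
  · intro i
    by_cases h2 : i = α
    · subst h2
      rw [Function.update_self]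
      omega
    · rw [Function.update_of_ne h2]
      exact hst i
  · rw [mem_corners, Function.update_self, Function.update_of_ne (by omega)]
    have h1 : lam (α + 1) ≤ lam α := h.anti (Nat.le_succ α)
    refine ⟨by omega, ?_⟩
    omega
  · funext i
    by_cases h2 : i = α
    · subst h2
      rw [dec_self, Function.update_self]
      omega
    · rw [dec_ne _ h2, Function.update_of_ne h2]

section
variable (hK : ∀ (n : ℕ) (lam : ℕ → ℕ), Shape n lam → ∀ z : ℝ, (lam 0 : ℝ) < z →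
    ∑ i ∈ corners n lam, share n lam i / (z - ((lam i : ℝ) - 1 - i)) = z - HH n lam z)
  (hD : ∀ (n : ℕ) (lam : ℕ → ℕ), Shape n lam → ∀ α ∈ corners n lam, ∀ z : ℝ, (lam 0 : ℝ) < z →
    HH n (dec lam α) z = HH n lam z *
      ((z - ((lam α : ℝ) - 1 - α)) ^ 2 / ((z - ((lam α : ℝ) - 1 - α)) ^ 2 - 1)))

include hK in
theorem stab_hmean {n : ℕ} (hn : 1 ≤ n) {lam : ℕ → ℕ} (h : Shape n lam) {ζ : ℝ} (hz : (lam 0 : ℝ) < n * ζ) :
    hmean n lam (gz ζ) = n * (n * ζ - HH n lam (n * ζ)) := by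
  have hn0 : (n : ℝ) ≠ 0 := by
    have : n ≠ 0 := by omega
    exact_mod_cast this
  rw [← hK n lam h _ hz, hmean, Finset.mul_sum]
  refine Finset.sum_congr rfl fun i _ => ?_
  unfold gz
  have h1 : ζ - ((lam i : ℝ) - 1 - i) / n = (n * ζ - ((lam i : ℝ) - 1 - i)) / n := by
    field_simp
  rw [h1, one_div_div]
  ring

theorem stab_hmean_nonneg {n : ℕ} {lam : ℕ → ℕ} (hst : ∀ i, lam i ≤ n - 1 - i) {ζ : ℝ} (hζ : 2 ≤ ζ) :
    0 ≤ hmean n lam (gz ζ) := by
  unfold hmean gz
  refine Finset.sum_nonneg fun i hi => mul_nonneg (share_pos n lam i).le ?_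
  have h1 := mem_corners.1 hi
  have hn : (0 : ℝ) < n := by
    have : 0 < n := by omega
    exact_mod_cast this
  have h2 : (lam i : ℝ) ≤ n := by
    have := hst i
    have : lam i ≤ n := by omega
    exact_mod_cast this
  have h3 : ((lam i : ℝ) - 1 - i) / n ≤ 1 := by
    rw [div_le_one hn]
    have : (0 : ℝ) ≤ i := Nat.cast_nonneg i
    linarith
  exact one_div_nonneg.2 (by linarith)

theorem stab_hmean_le {n : ℕ} {lam : ℕ → ℕ} (h : Shape n lam) (hst : ∀ i, lam i ≤ n - 1 - i) {ζ : ℝ} (hζ : 2 ≤ ζ) :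
    hmean n lam (gz ζ) ≤ ∑ i ∈ Finset.range n, (lam i : ℝ) := by
  rw [← sum_share h]
  unfold hmean gz
  refine Finset.sum_le_sum fun i hi => ?_
  have h1 := mem_corners.1 hi
  have hn : (0 : ℝ) < n := by
    have : 0 < n := by omega
    exact_mod_cast this
  have h2 : (lam i : ℝ) ≤ n := by
    have := hst i
    have : lam i ≤ n := by omega
    exact_mod_cast this
  have h3 : ((lam i : ℝ) - 1 - i) / n ≤ 1 := by
    rw [div_le_one hn]
    have : (0 : ℝ) ≤ i := Nat.cast_nonneg i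
    linarith
  have h4 : 1 / (ζ - ((lam i : ℝ) - 1 - i) / n) ≤ 1 := by
    rw [div_le_one (by linarith)]
    linarith
  calc share n lam i * (1 / (ζ - ((lam i : ℝ) - 1 - i) / n)) ≤ share n lam i * 1 :=
        mul_le_mul_of_nonneg_left h4 (share_pos n lam i).le
    _ = share n lam i := mul_one _

include hK hD in
/-- The product formula along the removals. -/
theorem stab_HH {n : ℕ} (hn : 2 ≤ n) {ζ : ℝ} (hζ : 2 ≤ ζ) : ∀ (j : ℕ) (lam : ℕ → ℕ), Shape n lam →
    (∀ i, lam i ≤ n - 1 - i) → ∑ i ∈ Finset.range n, lam i + j = n.choose 2 →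
    0 ≤ HH n (stair n) (n * ζ) → HH n (stair n) (n * ζ) ≤ HH n lam (n * ζ) ∧
      HH n lam (n * ζ) ≤ HH n (stair n) (n * ζ) * (1 + 1 / ((n : ℝ) ^ 2 - 1)) ^ j := by
  have hn0 : (2 : ℝ) ≤ n := by exact_mod_cast hn
  intro j
  induction j with
  | zero =>
    intro lam h hst hsum _
    have h1 : lam = stair n := by
      by_contra hne
      obtain ⟨lam', α, h', hst', hα, rfl⟩ := stab_up h hst hne
      have h2 := sum_dec hα
      have h3 : ∑ i ∈ Finset.range n, lam' i ≤ n.choose 2 := by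
        rw [← sum_stair]
        exact Finset.sum_le_sum fun i _ => hst' i
      omega
    rw [h1, pow_zero, mul_one]
    exact ⟨le_rfl, le_rfl⟩
  | succ j ih =>
    intro lam h hst hsum h0
    have hne : lam ≠ stair n := by
      rintro rfl
      rw [sum_stair] at hsum
      omega
    obtain ⟨lam', α, h', hst', hα, rfl⟩ := stab_up h hst hne
    have h2 := sum_dec hα
    obtain ⟨h3, h4⟩ := ih lam' h' hst' (by omega) h0
    have hc := mem_corners.1 hα
    have hl0 : (lam' 0 : ℝ) < n * ζ := by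
      have e1 := hst' 0
      have e2 : (lam' 0 : ℝ) ≤ n := by
        have : lam' 0 ≤ n := by omega
        exact_mod_cast this
      nlinarith
    rw [hD n lam' h' α hα _ hl0]
    obtain ⟨x, hx⟩ : ∃ x, x = n * ζ - ((lam' α : ℝ) - 1 - α) := ⟨_, rfl⟩
    rw [← hx]
    have hxn : (n : ℝ) ≤ x := by
      have e1 := hst' α
      have e2 : (lam' α : ℝ) ≤ n := by
        have : lam' α ≤ n := by omega
        exact_mod_cast this
      have e3 : (0 : ℝ) ≤ α := Nat.cast_nonneg α
      rw [hx]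
      nlinarith
    have hx2 : (n : ℝ) ^ 2 ≤ x ^ 2 := by
      have : (0 : ℝ) ≤ n := by linarith
      gcongr
    have hn2 : (0 : ℝ) < (n : ℝ) ^ 2 - 1 := by nlinarith
    have hx3 : 0 < x ^ 2 - 1 := by linarith
    have e1 : x ^ 2 / (x ^ 2 - 1) = 1 + 1 / (x ^ 2 - 1) := by
      field_simp
      ring
    have e2 : 1 / (x ^ 2 - 1) ≤ 1 / ((n : ℝ) ^ 2 - 1) := one_div_le_one_div_of_le hn2 (by linarith)
    have e3 : 0 ≤ 1 / (x ^ 2 - 1) := by positivity
    rw [e1]
    have hH : 0 ≤ HH n lam' (n * ζ) := h0.trans h3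
    constructor
    · nlinarith
    · rw [pow_succ (1 + 1 / ((n : ℝ) ^ 2 - 1)) j, ← mul_assoc]
      refine mul_le_mul h4 (by linarith) (by linarith) ?_
      have : (0 : ℝ) ≤ 1 + 1 / ((n : ℝ) ^ 2 - 1) := by positivity
      positivity

theorem stab_HH_stair_nonneg {n : ℕ} (hn : 1 ≤ n) {ζ : ℝ} (hζ : 2 ≤ ζ) : 0 ≤ HH n (stair n) (n * ζ) := by
  have hn0 : (1 : ℝ) ≤ n := by exact_mod_cast hn
  unfold HH
  refine mul_nonneg (by positivity) (Finset.prod_nonneg fun i hi => ?_)
  have e2 : (stair n i : ℝ) ≤ n := by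
    have : stair n i ≤ n := by
      unfold stair
      omega
    exact_mod_cast this
  have e3 : (0 : ℝ) ≤ i := Nat.cast_nonneg i
  have e4 : (n : ℝ) ≤ n * ζ - stair n i := by nlinarith
  exact div_nonneg (by linarith) (by linarith)

include hK hD in
theorem stab_of {ζ : ℝ} (hζ : 2 ≤ ζ) : ∃ C > (0 : ℝ), ∀ κ : ℝ, 0 < κ → κ ≤ 1 / 2 → ∀ n k : ℕ, 3 ≤ n →
    ∀ lam : ℕ → ℕ, Shape n lam → (∀ i, lam i ≤ n - 1 - i) → ∑ i ∈ Finset.range n, lam i = k →
      ((n.choose 2 : ℝ) - k) ≤ κ * (n.choose 2 : ℝ) →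
        |hmean n lam (gz ζ) - k * (hmean n (stair n) (gz ζ) / (n.choose 2 : ℝ))| ≤ C * κ * k := by
  refine ⟨6 * ζ + 2, by linarith, fun κ hκ hκ1 n k hn lam h hst hsum hk => ?_⟩
  have hn0 : (3 : ℝ) ≤ n := by exact_mod_cast hn
  obtain ⟨N, hN⟩ : ∃ N : ℝ, N = (n.choose 2 : ℝ) := ⟨_, rfl⟩
  have hN2 : N = n * (n - 1) / 2 := by rw [hN, Nat.cast_choose_two]
  have hN3 : (n : ℝ) ^ 2 ≤ 3 * N := by rw [hN2]; nlinarith
  have hNpos : 0 < N := by nlinarith
  have hle : ∑ i ∈ Finset.range n, lam i ≤ n.choose 2 := by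
    rw [← sum_stair]
    exact Finset.sum_le_sum fun i _ => hst i
  obtain ⟨j, hj⟩ : ∃ j, ∑ i ∈ Finset.range n, lam i + j = n.choose 2 := ⟨n.choose 2 - ∑ i ∈ Finset.range n, lam i, by omega⟩
  have hjr : (j : ℝ) = N - k := by
    rw [hN, ← hj, hsum]
    push_cast
    ring
  rw [← hN] at hk ⊢
  have hl0 : (lam 0 : ℝ) < n * ζ := by
    have e1 := hst 0
    have e2 : (lam 0 : ℝ) ≤ n := by
      have : lam 0 ≤ n := by omega
      exact_mod_cast this
    nlinarith
  have hs0 : (stair n 0 : ℝ) < n * ζ := by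
    have e2 : (stair n 0 : ℝ) ≤ n := by
      have : stair n 0 ≤ n := by
        unfold stair
        omega
      exact_mod_cast this
    nlinarith
  have hS0 := stab_HH_stair_nonneg (n := n) (by omega) hζ
  obtain ⟨h1, h2⟩ := stab_HH hK hD (by omega) hζ j lam h hst hj hS0
  have e1 := stab_hmean hK (n := n) (by omega) h hl0
  have e2 := stab_hmean hK (n := n) (by omega) (shape_stair n) hs0
  obtain ⟨S, hS⟩ : ∃ S, S = HH n (stair n) (n * ζ) := ⟨_, rfl⟩
  obtain ⟨L, hL⟩ : ∃ L, L = HH n lam (n * ζ) := ⟨_, rfl⟩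
  rw [← hS] at h1 h2 e2 hS0
  rw [← hL] at h1 h2 e1
  have hms := stab_hmean_nonneg (n := n) (lam := stair n) (fun i => le_rfl) hζ
  have hms2 := stab_hmean_le (shape_stair n) (fun i => le_rfl) hζ
  have hms3 : ∑ i ∈ Finset.range n, (stair n i : ℝ) = N := by
    rw [hN, ← sum_stair]
    push_cast
    rfl
  rw [hms3] at hms2
  -- the stair term is at most z
  have hSz : S ≤ n * ζ := by
    rw [e2] at hms
    have : 0 ≤ n * ζ - S := by
      by_contra hcon
      push Not at hcon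
      have : (n : ℝ) * (n * ζ - S) < 0 := mul_neg_of_pos_of_neg (by linarith) hcon
      linarith
    linarith
  -- the factor
  have hn2 : (0 : ℝ) < (n : ℝ) ^ 2 - 1 := by nlinarith
  have hfac : (1 + 1 / ((n : ℝ) ^ 2 - 1)) ^ j ≤ 1 + κ := by
    have e3 : (1 + 1 / ((n : ℝ) ^ 2 - 1)) ≤ Real.exp (1 / ((n : ℝ) ^ 2 - 1)) := by
      have := Real.add_one_le_exp (1 / ((n : ℝ) ^ 2 - 1))
      linarith
    have e4 : (1 + 1 / ((n : ℝ) ^ 2 - 1)) ^ j ≤ Real.exp (1 / ((n : ℝ) ^ 2 - 1)) ^ j := by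
      gcongr
    rw [← Real.exp_nat_mul] at e4
    have e5 : (j : ℝ) * (1 / ((n : ℝ) ^ 2 - 1)) ≤ κ / 2 := by
      rw [mul_one_div, div_le_iff₀ hn2, hjr]
      have : κ * N ≤ κ / 2 * ((n : ℝ) ^ 2 - 1) := by
        rw [hN2]
        have : (n : ℝ) * (n - 1) ≤ (n : ℝ) ^ 2 - 1 := by nlinarith
        nlinarith
      linarith
    have e6 : Real.exp (κ / 2) ≤ 1 + κ := by
      have e7 := Real.abs_exp_sub_one_sub_id_le (x := κ / 2) (by rw [abs_of_pos (by positivity)]; linarith)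
      have e8 := le_abs_self (Real.exp (κ / 2) - 1 - κ / 2)
      nlinarith
    exact e4.trans ((Real.exp_le_exp.2 e5).trans e6)
  have hLS : L - S ≤ κ * (n * ζ) := by
    have e3 : L ≤ S * (1 + κ) := h2.trans (mul_le_mul_of_nonneg_left hfac hS0)
    have e4 : S * κ ≤ n * ζ * κ := mul_le_mul_of_nonneg_right hSz hκ.le
    linarith
  have hkN : (1 - κ) * N ≤ k := by linarith
  have hkhalf : N ≤ 2 * k := by nlinarith
  have hkle : (k : ℝ) ≤ N := by
    rw [hN, ← hsum]
    exact_mod_cast hle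
  obtain ⟨H, hH⟩ : ∃ H, H = hmean n (stair n) (gz ζ) := ⟨_, rfl⟩
  rw [← hH] at e2 hms hms2 ⊢
  have e3 : hmean n lam (gz ζ) - k * (H / N) = -(n * (L - S)) + H * (1 - k / N) := by
    rw [e1]
    have : H * (1 - k / N) = H - k * (H / N) := by ring
    rw [this, e2]
    ring
  have e4 : 0 ≤ 1 - k / N := by
    have : k / N ≤ 1 := by
      rw [div_le_one hNpos]
      exact hkle
    linarith
  have e5 : 1 - k / N ≤ κ := by
    have : 1 - κ ≤ k / N := by
      rw [le_div_iff₀ hNpos]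
      exact hkN
    linarith
  have e6 : (n : ℝ) * (L - S) ≤ 6 * ζ * κ * k := by
    calc (n : ℝ) * (L - S) ≤ n * (κ * (n * ζ)) := mul_le_mul_of_nonneg_left hLS (by linarith)
      _ = (n : ℝ) ^ 2 * (κ * ζ) := by ring
      _ ≤ 3 * N * (κ * ζ) := mul_le_mul_of_nonneg_right hN3 (by positivity)
      _ ≤ 3 * (2 * k) * (κ * ζ) := by
          refine mul_le_mul_of_nonneg_right (by linarith) (by positivity)
      _ = 6 * ζ * κ * k := by ring
  have e7 : H * (1 - k / N) ≤ 2 * κ * k := by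
    calc H * (1 - k / N) ≤ N * κ := mul_le_mul hms2 e5 e4 hNpos.le
      _ ≤ 2 * k * κ := mul_le_mul_of_nonneg_right hkhalf hκ.le
      _ = 2 * κ * k := by ring
  have e8 : 0 ≤ (n : ℝ) * (L - S) := mul_nonneg (by linarith) (by linarith)
  have e9 : 0 ≤ H * (1 - k / N) := mul_nonneg hms e4
  have e10 : (6 * ζ + 2) * κ * k = 6 * ζ * κ * k + 2 * κ * k := by ring
  rw [e3, abs_le, e10]
  constructor <;> linarith

end

end Pool.Agent.SNL63
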