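import Pool.Agent.SNL63.SDefs

/-!
# The mean over the corners of the staircase tends to the semicircle mean
-/

namespace Pool.Agent.SNL63

open Pool.Agent.SN8 MeasureTheory Set Filter Topology
open scoped ENNReal Real

/-- `∏_{1 ≤ t ≤ m} (1 + 1 / (2 t))` -/
noncomputable def wP (m : ℕ) : ℝ := ∏ i ∈ Finset.range m, (1 + 1 / (2 * ((i : ℝ) + 1)))

theorem wP_pos (m : ℕ) : 0 < wP m := Finset.prod_pos fun i _ => by positivity

theorem wP_sq (m : ℕ) : wP m ^ 2 * Real.Wallis.W m = 2 * m + 1 := by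
  induction m with
  | zero => simp [wP, Real.Wallis.W]
  | succ m ih =>
    have h1 : wP (m + 1) = wP m * (1 + 1 / (2 * ((m : ℝ) + 1))) := by
      unfold wP
      rw [Finset.prod_range_succ]
    rw [h1, Real.Wallis.W_succ, mul_pow]
    have h2 : wP m ^ 2 * (1 + 1 / (2 * ((m : ℝ) + 1))) ^ 2 *
        (Real.Wallis.W m * ((2 * (m : ℝ) + 2) / (2 * m + 1) * ((2 * m + 2) / (2 * m + 3)))) =
        (wP m ^ 2 * Real.Wallis.W m) * ((1 + 1 / (2 * ((m : ℝ) + 1))) ^ 2 *
          ((2 * (m : ℝ) + 2) / (2 * m + 1) * ((2 * m + 2) / (2 * m + 3)))) := by ring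
    rw [h2, ih]
    push_cast
    field_simp
    ring

theorem wP_sq_le (m : ℕ) : wP m ^ 2 ≤ 4 * (m + 1) := by
  have h1 := wP_sq m
  have h2 := Real.Wallis.le_W m
  have h3 : (1 : ℝ) / 2 ≤ Real.Wallis.W m := by
    refine le_trans ?_ h2
    rw [div_mul_eq_mul_div, le_div_iff₀ (by positivity)]
    have h4 := Real.pi_gt_three
    have h5 : (0 : ℝ) ≤ m := Nat.cast_nonneg m
    nlinarith
  have h4 : wP m ^ 2 * (1 / 2) ≤ wP m ^ 2 * Real.Wallis.W m := mul_le_mul_of_nonneg_left h3 (sq_nonneg _)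
  have h5 : (0 : ℝ) ≤ m := Nat.cast_nonneg m
  linarith

theorem wP_le (m : ℕ) : wP m ≤ 2 * √((m : ℝ) + 1) := by
  have h1 := wP_sq_le m
  have h2 : wP m ≤ √(4 * ((m : ℝ) + 1)) := Real.le_sqrt_of_sq_le h1
  have h3 : √(4 * ((m : ℝ) + 1)) = 2 * √((m : ℝ) + 1) := by
    rw [Real.sqrt_mul (by norm_num)]
    have : √(4 : ℝ) = 2 := by
      rw [show (4 : ℝ) = 2 ^ 2 by norm_num]
      exact Real.sqrt_sq (by norm_num)
    rw [this]
  linarith

theorem wP_sq_tendsto : Tendsto (fun m : ℕ => wP m ^ 2 / m) atTop (𝓝 (4 / π)) := by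
  have h1 : Tendsto (fun m : ℕ => (2 + 1 / (m : ℝ)) / Real.Wallis.W m) atTop (𝓝 ((2 + 0) / (π / 2))) :=
    (tendsto_const_nhds.add tendsto_one_div_atTop_nhds_zero_nat).div Real.Wallis.tendsto_W_nhds_pi_div_two
      (by positivity)
  have h2 : (2 + 0) / (π / 2) = 4 / π := by
    have := Real.pi_pos
    field_simp
    norm_num
  rw [h2] at h1
  refine h1.congr' ?_
  filter_upwards [eventually_ge_atTop 1] with m hm
  have hm0 : (0 : ℝ) < m := by exact_mod_cast hm
  have hW := Real.Wallis.W_pos m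
  have h3 := wP_sq m
  rw [div_eq_div_iff hW.ne' hm0.ne', h3]
  field_simp

theorem wP_tendsto : Tendsto (fun m : ℕ => wP m / √(m : ℝ)) atTop (𝓝 (2 / √π)) := by
  have h1 := (Real.continuous_sqrt.tendsto _).comp wP_sq_tendsto
  have h2 : √(4 / π) = 2 / √π := by
    rw [Real.sqrt_div (by norm_num)]
    have : √(4 : ℝ) = 2 := by
      rw [show (4 : ℝ) = 2 ^ 2 by norm_num]
      exact Real.sqrt_sq (by norm_num)
    rw [this]
  rw [h2] at h1
  refine h1.congr fun m => ?_
  simp only [Function.comp]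
  rw [Real.sqrt_div (sq_nonneg _), Real.sqrt_sq (wP_pos m).le]

/-- if `α n / n → x > 0` then `wP (α n) / √n → 2 √x / √π` -/
theorem wP_comp_tendsto {α : ℕ → ℕ} {x : ℝ} (hx : 0 < x)
    (hα : Tendsto (fun n : ℕ => (α n : ℝ) / n) atTop (𝓝 x)) :
    Tendsto (fun n : ℕ => wP (α n) / √(n : ℝ)) atTop (𝓝 (2 / √π * √x)) := by
  have hinf : Tendsto α atTop atTop := by
    have h1 : Tendsto (fun n : ℕ => (α n : ℝ) / n * n) atTop atTop :=
      hα.pos_mul_atTop hx tendsto_natCast_atTop_atTop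
    have h2 : Tendsto (fun n : ℕ => (α n : ℝ)) atTop atTop := by
      refine h1.congr' ?_
      filter_upwards [eventually_ge_atTop 1] with n hn
      have hn0 : (n : ℝ) ≠ 0 := by
        have : 0 < n := hn
        positivity
      field_simp
    exact tendsto_natCast_atTop_iff.1 h2
  have h1 := wP_tendsto.comp hinf
  have h2 := (Real.continuous_sqrt.tendsto _).comp hα
  refine (h1.mul h2).congr' ?_
  filter_upwards [hinf.eventually_ge_atTop 1] with n hn
  simp only [Function.comp]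
  have h3 : (0 : ℝ) < √(α n : ℝ) := Real.sqrt_pos.2 (by exact_mod_cast hn)
  rw [Real.sqrt_div (Nat.cast_nonneg _)]
  field_simp

/-- the share of a corner of the staircase -/
theorem share_stair {n α : ℕ} (hα : α + 1 < n) : share n (stair n) α = wP α * wP (n - 2 - α) := by
  have hs : stair n α - 1 = n - 2 - α := by
    unfold stair
    omega
  unfold share
  rw [hs]
  congr 1
  · unfold wP
    rw [← Finset.prod_range_reflect]
    refine Finset.prod_congr rfl fun i hi => ?_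
    rw [Finset.mem_range] at hi
    rw [hm_stair (by
      unfold stair
      omega)]
    congr 2
    have h1 : 2 * (n - 1 - (α - 1 - i) - 1 - (n - 2 - α)) = 2 * (i + 1) := by omega
    rw [h1]
    push_cast
    rfl
  · unfold wP
    rw [← Finset.prod_range_reflect]
    refine Finset.prod_congr rfl fun i hi => ?_
    rw [Finset.mem_range] at hi
    rw [hm_stair (by
      unfold stair
      omega)]
    congr 2
    have h1 : 2 * (n - 1 - α - 1 - (n - 2 - α - 1 - i)) = 2 * (i + 1) := by omega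
    rw [h1]
    push_cast
    rfl

theorem corners_stair (n : ℕ) : corners n (stair n) = Finset.range (n - 1) := by
  ext i
  rw [mem_corners, Finset.mem_range]
  unfold stair
  omega

/-- the summands, times `n` -/
noncomputable def wA (g : ℝ → ℝ) (n i : ℕ) : ℝ :=
  if i + 1 < n then (n : ℝ) / (n.choose 2 : ℝ) * (wP i * wP (n - 2 - i)) * g (((n : ℝ) - 2 - 2 * i) / n) else 0

theorem hmean_stair (g : ℝ → ℝ) {n : ℕ} (hn : 2 ≤ n) :
    hmean n (stair n) g / (n.choose 2 : ℝ) = ∑ i ∈ Finset.range n, (1 / (n : ℝ)) * wA g n i := by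
  obtain ⟨m, rfl⟩ : ∃ m, n = m + 1 := ⟨n - 1, by omega⟩
  unfold hmean
  rw [corners_stair, Finset.sum_range_succ, Nat.add_sub_cancel, Finset.sum_div]
  have h0 : wA g (m + 1) m = 0 := by
    unfold wA
    rw [if_neg (by omega)]
  rw [h0, mul_zero, add_zero]
  refine Finset.sum_congr rfl fun i hi => ?_
  rw [Finset.mem_range] at hi
  unfold wA
  rw [if_pos (by omega), share_stair (by omega)]
  have h1 : ((stair (m + 1) i : ℕ) : ℝ) - 1 - i = ((m + 1 : ℕ) : ℝ) - 2 - 2 * i := by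
    unfold stair
    rw [Nat.cast_sub (by omega), Nat.cast_sub (by omega)]
    push_cast
    ring
  rw [h1]
  have h2 : ((m + 1 : ℕ) : ℝ) ≠ 0 := by positivity
  field_simp

/-- the step function -/
noncomputable def wF (g : ℝ → ℝ) (n : ℕ) (x : ℝ) : ℝ := wA g n (⌈x * n⌉₊ - 1)

theorem wF_measurable (g : ℝ → ℝ) (n : ℕ) : Measurable (wF g n) := by
  have h1 : Measurable (fun x : ℝ => ⌈x * n⌉₊ - 1) :=
    (measurable_from_top (f := fun m : ℕ => m - 1)).comp (Nat.measurable_ceil.comp (measurable_id.mul_const _))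
  exact (measurable_from_top (f := wA g n)).comp h1

theorem hmean_eq_integral (g : ℝ → ℝ) {n : ℕ} (hn : 2 ≤ n) :
    hmean n (stair n) g / (n.choose 2 : ℝ) = ∫ x in (0 : ℝ)..1, wF g n x := by
  have hn0 : (0 : ℝ) < n := by
    have : 0 < n := by omega
    exact_mod_cast this
  rw [hmean_stair g hn]
  have hstep : ∀ i : ℕ, ∫ x in ((i : ℝ) / n)..(((i + 1 : ℕ) : ℝ) / n), wF g n x = 1 / (n : ℝ) * wA g n i := by
    intro i
    have h1 : ∀ x ∈ uIoc ((i : ℝ) / n) (((i + 1 : ℕ) : ℝ) / n), wF g n x = wA g n i := by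
      intro x hx
      rw [uIoc_of_le (by
        rw [div_le_div_iff_of_pos_right hn0]
        push_cast
        linarith), mem_Ioc, div_lt_iff₀ hn0, le_div_iff₀ hn0] at hx
      have h2 : ⌈x * n⌉₊ = i + 1 := by
        rw [Nat.ceil_eq_iff (by omega)]
        refine ⟨?_, hx.2⟩
        rw [Nat.add_sub_cancel]
        exact hx.1
      unfold wF
      rw [h2, Nat.add_sub_cancel]
    rw [intervalIntegral.integral_congr_ae (Eventually.of_forall h1), intervalIntegral.integral_const, smul_eq_mul]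
    congr 1
    push_cast
    field_simp
    ring
  have hint : ∀ i < n, IntervalIntegrable (wF g n) volume ((i : ℝ) / n) (((i + 1 : ℕ) : ℝ) / n) := by
    intro i _
    have h1 : ∀ x ∈ uIoc ((i : ℝ) / n) (((i + 1 : ℕ) : ℝ) / n), wA g n i = wF g n x := by
      intro x hx
      rw [uIoc_of_le (by
        rw [div_le_div_iff_of_pos_right hn0]
        push_cast
        linarith), mem_Ioc, div_lt_iff₀ hn0, le_div_iff₀ hn0] at hx
      have h2 : ⌈x * n⌉₊ = i + 1 := by
        rw [Nat.ceil_eq_iff (by omega)]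
        refine ⟨?_, hx.2⟩
        rw [Nat.add_sub_cancel]
        exact hx.1
      unfold wF
      rw [h2, Nat.add_sub_cancel]
    exact (intervalIntegrable_const (c := wA g n i)).congr h1
  have h := intervalIntegral.sum_integral_adjacent_intervals (μ := volume) (f := wF g n)
    (a := fun i : ℕ => (i : ℝ) / n) hint
  have h0 : ((0 : ℕ) : ℝ) / n = 0 := by simp
  have h1 : ((n : ℕ) : ℝ) / n = 1 := div_self hn0.ne'
  rw [h0, h1] at h
  rw [← h]
  exact Finset.sum_congr rfl fun i _ => (hstep i).symm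

theorem wA_bound {g : ℝ → ℝ} {B : ℝ} (hB : ∀ u ∈ Icc (-1 : ℝ) 1, |g u| ≤ B) {n : ℕ} (hn : 2 ≤ n) (i : ℕ) :
    |wA g n i| ≤ 16 * B := by
  have hB0 : 0 ≤ B := (abs_nonneg _).trans (hB 0 ⟨by norm_num, by norm_num⟩)
  unfold wA
  split_ifs with h
  · have hn0 : (0 : ℝ) < n := by
      have : 0 < n := by omega
      exact_mod_cast this
    have hn2 : (2 : ℝ) ≤ n := by exact_mod_cast hn
    have hir : (i : ℝ) + 2 ≤ n := by exact_mod_cast (by omega : i + 2 ≤ n)
    have hi0 : (0 : ℝ) ≤ i := Nat.cast_nonneg i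
    have hN : (n.choose 2 : ℝ) = n * (n - 1) / 2 := Nat.cast_choose_two ℝ n
    have h1 : |g (((n : ℝ) - 2 - 2 * i) / n)| ≤ B := by
      apply hB
      constructor
      · rw [le_div_iff₀ hn0]
        linarith
      · rw [div_le_one hn0]
        linarith
    have h2 : wP i * wP (n - 2 - i) ≤ 4 * n := by
      have h3 := wP_sq_le i
      have h4 := wP_sq_le (n - 2 - i)
      have h5 : ((n - 2 - i : ℕ) : ℝ) = n - 2 - i := by
        rw [Nat.cast_sub (by omega), Nat.cast_sub (by omega)]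
        push_cast
        ring
      rw [h5] at h4
      have h6 := sq_nonneg (wP i - wP (n - 2 - i))
      nlinarith
    have h3 : 0 ≤ wP i * wP (n - 2 - i) := mul_nonneg (wP_pos _).le (wP_pos _).le
    have h4 : (n : ℝ) / (n.choose 2 : ℝ) * (wP i * wP (n - 2 - i)) ≤ 16 := by
      rw [hN, div_mul_eq_mul_div, div_le_iff₀ (by nlinarith)]
      have := mul_le_mul_of_nonneg_left h2 hn0.le
      nlinarith
    have h5 : 0 ≤ (n : ℝ) / (n.choose 2 : ℝ) * (wP i * wP (n - 2 - i)) :=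
      mul_nonneg (div_nonneg hn0.le (Nat.cast_nonneg _)) h3
    rw [abs_mul, abs_of_nonneg h5]
    exact mul_le_mul h4 h1 (abs_nonneg _) (by norm_num)
  · rw [abs_zero]
    positivity

theorem wF_tendsto {g : ℝ → ℝ} (hg : ContinuousOn g (Icc (-1) 1)) {x : ℝ} (hx : x ∈ Ioo (0 : ℝ) 1) :
    Tendsto (fun n : ℕ => wF g n x) atTop (𝓝 (8 / π * (√x * √(1 - x)) * g (1 - 2 * x))) := by
  obtain ⟨hx0, hx1⟩ := hx
  have hceil : Tendsto (fun n : ℕ => (⌈x * (n : ℝ)⌉₊ : ℝ) / n) atTop (𝓝 x) :=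
    (tendsto_nat_ceil_mul_div_atTop hx0.le).comp tendsto_natCast_atTop_atTop
  have hev : ∀ᶠ n : ℕ in atTop, 1 ≤ ⌈x * (n : ℝ)⌉₊ ∧ ⌈x * (n : ℝ)⌉₊ + 1 ≤ n := by
    have h1 : Tendsto (fun n : ℕ => (1 - x) * (n : ℝ)) atTop atTop :=
      tendsto_natCast_atTop_atTop.const_mul_atTop (by linarith)
    filter_upwards [eventually_ge_atTop 1, h1.eventually_ge_atTop 2] with n hn h2
    have hn0 : (0 : ℝ) < n := by exact_mod_cast hn
    refine ⟨Nat.one_le_ceil_iff.2 (by positivity), ?_⟩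
    have h3 := Nat.ceil_lt_add_one (show 0 ≤ x * (n : ℝ) by positivity)
    have h4 : ((⌈x * (n : ℝ)⌉₊ + 1 : ℕ) : ℝ) ≤ n := by
      push_cast
      linarith
    exact_mod_cast h4
  have hα : Tendsto (fun n : ℕ => ((⌈x * (n : ℝ)⌉₊ - 1 : ℕ) : ℝ) / n) atTop (𝓝 x) := by
    have h1 := hceil.sub tendsto_one_div_atTop_nhds_zero_nat
    rw [sub_zero] at h1
    refine h1.congr' ?_
    filter_upwards [hev] with n hn
    rw [Nat.cast_sub hn.1]
    push_cast
    ring
  have hβ : Tendsto (fun n : ℕ => ((n - 2 - (⌈x * (n : ℝ)⌉₊ - 1) : ℕ) : ℝ) / n) atTop (𝓝 (1 - x)) := by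
    have h1 := (tendsto_const_nhds (x := (1 : ℝ)) (f := atTop)).sub
      (hceil.add (tendsto_one_div_atTop_nhds_zero_nat (𝕜 := ℝ)))
    rw [add_zero] at h1
    refine h1.congr' ?_
    filter_upwards [hev, eventually_ge_atTop 1] with n hn hn1
    have hn0 : (n : ℝ) ≠ 0 := by
      have : 0 < n := hn1
      positivity
    have h2 : n - 2 - (⌈x * (n : ℝ)⌉₊ - 1) = n - (⌈x * (n : ℝ)⌉₊ + 1) := by omega
    rw [h2, Nat.cast_sub hn.2]
    push_cast
    field_simp
  have h1 := wP_comp_tendsto hx0 hα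
  have h2 := wP_comp_tendsto (by linarith : 0 < 1 - x) hβ
  have h3 : Tendsto (fun n : ℕ => (n : ℝ) ^ 2 / (n.choose 2 : ℝ)) atTop (𝓝 2) := by
    have h4 : Tendsto (fun n : ℕ => 2 / (1 - 1 / (n : ℝ))) atTop (𝓝 (2 / (1 - 0))) :=
      tendsto_const_nhds.div (tendsto_const_nhds.sub tendsto_one_div_atTop_nhds_zero_nat) (by norm_num)
    rw [sub_zero, div_one] at h4
    refine h4.congr' ?_
    filter_upwards [eventually_ge_atTop 2] with n hn
    have hn2 : (2 : ℝ) ≤ n := by exact_mod_cast hn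
    have hn0 : (n : ℝ) ≠ 0 := by linarith
    have hn1 : (n : ℝ) - 1 ≠ 0 := by linarith
    rw [Nat.cast_choose_two]
    have h5 : 1 - 1 / (n : ℝ) = (n - 1) / n := by field_simp
    rw [h5]
    field_simp
  have h4 : Tendsto (fun n : ℕ => g (((n : ℝ) - 2 - 2 * ((⌈x * (n : ℝ)⌉₊ - 1 : ℕ) : ℝ)) / n)) atTop
      (𝓝 (g (1 - 2 * x))) := by
    have h5 : ContinuousAt g (1 - 2 * x) := hg.continuousAt (Icc_mem_nhds (by linarith) (by linarith))
    refine h5.tendsto.comp ?_
    have h6 : Tendsto (fun n : ℕ => 1 - 2 * (1 / (n : ℝ)) - 2 * (((⌈x * (n : ℝ)⌉₊ - 1 : ℕ) : ℝ) / n)) atTop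
        (𝓝 (1 - 2 * 0 - 2 * x)) :=
      (tendsto_const_nhds.sub (tendsto_one_div_atTop_nhds_zero_nat.const_mul 2)).sub (hα.const_mul 2)
    rw [mul_zero, sub_zero] at h6
    refine h6.congr' ?_
    filter_upwards [eventually_ge_atTop 1] with n hn
    have hn0 : (n : ℝ) ≠ 0 := by
      have : 0 < n := hn
      positivity
    field_simp
  have h5 := ((h3.mul (h1.mul h2)).mul h4)
  have h6 : 2 * (2 / √π * √x * (2 / √π * √(1 - x))) * g (1 - 2 * x) = 8 / π * (√x * √(1 - x)) * g (1 - 2 * x) := by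
    have h7 : √π * √π = π := Real.mul_self_sqrt Real.pi_pos.le
    have h8 : (0 : ℝ) < √π := Real.sqrt_pos.2 Real.pi_pos
    have h9 : 2 / √π * √x * (2 / √π * √(1 - x)) = 4 / (√π * √π) * (√x * √(1 - x)) := by
      field_simp
      ring
    rw [h9, h7]
    ring
  rw [h6] at h5
  refine h5.congr' ?_
  filter_upwards [hev, eventually_ge_atTop 2] with n hn hn2
  unfold wF wA
  rw [if_pos (by omega)]
  have hn0 : (0 : ℝ) < n := by
    have : 0 < n := by omega
    exact_mod_cast this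
  have h7 : √(n : ℝ) * √(n : ℝ) = n := Real.mul_self_sqrt hn0.le
  have h8 : (0 : ℝ) < √(n : ℝ) := Real.sqrt_pos.2 hn0
  congr 1
  generalize wP (⌈x * (n : ℝ)⌉₊ - 1) = p
  generalize wP (n - 2 - (⌈x * (n : ℝ)⌉₊ - 1)) = q
  have h9 : p / √(n : ℝ) * (q / √(n : ℝ)) = p * q / n := by
    rw [div_mul_div_comm, h7]
  rw [h9]
  field_simp

theorem integral_semi (g : ℝ → ℝ) : ∫ u, g u ∂semi = ∫ u in (-1 : ℝ)..1, 2 / π * √(1 - u ^ 2) * g u := by
  unfold semi
  rw [integral_withDensity_eq_integral_toReal_smul (by fun_prop) (by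
    filter_upwards with u
    exact ENNReal.ofReal_lt_top), intervalIntegral.integral_of_le (by norm_num), integral_Icc_eq_integral_Ioc]
  refine setIntegral_congr_fun measurableSet_Ioc fun u _ => ?_
  simp only [smul_eq_mul]
  rw [ENNReal.toReal_ofReal (by positivity)]

theorem hmean_stair_tendsto {g : ℝ → ℝ} (hg : ContinuousOn g (Icc (-1) 1)) :
    Tendsto (fun n : ℕ => hmean n (stair n) g / (n.choose 2 : ℝ)) atTop
      (𝓝 (∫ u, g u ∂semi)) := by
  obtain ⟨B, hB⟩ := isCompact_Icc.exists_bound_of_continuousOn hg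
  have hB' : ∀ u ∈ Icc (-1 : ℝ) 1, |g u| ≤ B := fun u hu => by
    have := hB u hu
    rwa [Real.norm_eq_abs] at this
  have h1 : Tendsto (fun n : ℕ => ∫ x in (0 : ℝ)..1, wF g n x) atTop
      (𝓝 (∫ x in (0 : ℝ)..1, 8 / π * (√x * √(1 - x)) * g (1 - 2 * x))) := by
    refine intervalIntegral.tendsto_integral_filter_of_dominated_convergence (fun _ => 16 * B) ?_ ?_ ?_ ?_
    · exact Eventually.of_forall fun n => (wF_measurable g n).aestronglyMeasurable
    · filter_upwards [eventually_ge_atTop 2] with n hn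
      refine Eventually.of_forall fun x _ => ?_
      rw [Real.norm_eq_abs]
      exact wA_bound hB' hn _
    · exact intervalIntegrable_const
    · have h2 : ∀ᵐ x : ℝ ∂volume, x ≠ 1 := by
        rw [ae_iff]
        simp
      filter_upwards [h2] with x hx1 hx
      rw [uIoc_of_le (by norm_num), mem_Ioc] at hx
      exact wF_tendsto hg ⟨hx.1, lt_of_le_of_ne hx.2 hx1⟩
  have h2 : ∫ x in (0 : ℝ)..1, 8 / π * (√x * √(1 - x)) * g (1 - 2 * x) = ∫ u, g u ∂semi := by
    rw [integral_semi]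
    have h3 := intervalIntegral.integral_comp_sub_mul (a := 0) (b := 1) (f := fun u => 2 / π * √(1 - u ^ 2) * g u)
      (c := (2 : ℝ)) (by norm_num) 1
    have h4 : ∀ x ∈ uIcc (0 : ℝ) 1, 8 / π * (√x * √(1 - x)) * g (1 - 2 * x) =
        2 * (2 / π * √(1 - (1 - 2 * x) ^ 2) * g (1 - 2 * x)) := by
      intro x hx
      rw [uIcc_of_le (by norm_num), mem_Icc] at hx
      have h5 : 1 - (1 - 2 * x) ^ 2 = 4 * (x * (1 - x)) := by ring
      have h6 : √(4 : ℝ) = 2 := by
        rw [show (4 : ℝ) = 2 ^ 2 by norm_num]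
        exact Real.sqrt_sq (by norm_num)
      rw [h5, Real.sqrt_mul (by norm_num), Real.sqrt_mul hx.1, h6]
      ring
    rw [intervalIntegral.integral_congr h4, intervalIntegral.integral_const_mul, h3]
    norm_num
    ring
  rw [h2] at h1
  refine h1.congr' ?_
  filter_upwards [eventually_ge_atTop 2] with n hn
  exact (hmean_eq_integral g hn).symm

end Pool.Agent.SNL63
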