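import Pool.Agent.SNL63.WinZ
import Pool.Agent.SNL63.Wallis
import Pool.Agent.SNL63.Kerov
import Pool.Agent.SNL63.Stab
import Pool.Agent.SNL63.Chern
import Pool.Agent.SNL63.SW
import Pool.Agent.SNL63.Rot
import Pool.Agent.SNL63.Band
import Pool.Agent.SNL63.Adm
import Pool.Agent.SNL63.Bound

/-!
The law of large numbers for the swaps of a random sorting network, with speed `n²`, and its
consequences.
-/

namespace Pool.Agent.SNL63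

open Pool.Agent.SN8 MeasureTheory Set Filter Topology
open scoped ENNReal Real

theorem win_zeta {ζ : ℝ} (hζ : 2 ≤ ζ) : Win (gz ζ) :=
  win_zeta_of (fun hg => hmean_stair_tendsto hg)
    (fun hζ => stab_of (fun _ _ h _ hz => kerov h hz) (fun _ _ h _ hα _ hz => HH_dec h hα hz) hζ)
    (fun a b c d => BW_le a b c d) hζ

/-- **The swaps of a random sorting network: law of large numbers with speed `n²`.** -/
theorem swap_ld {g : ℝ → ℝ} (hg : Continuous g) {ε : ℝ} (hε : 0 < ε) :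
    ∃ c₁ > (0 : ℝ), ∃ c₂ > (0 : ℝ), ∀ n : ℕ, 2 ≤ n →
      prob n (fun k => ∃ i j, i ≤ j ∧ j ≤ n.choose 2 ∧ ε * (n.choose 2 : ℝ) <
        |ssum g n ((k.take j).drop i) - ((j : ℝ) - i) * ∫ u, g u ∂semi|) ≤
      c₁ * Real.exp (-c₂ * (n : ℝ) ^ 2) :=
  swap_ld_of_win hg (win_all (fun _ h => win_zeta h) (hg.comp continuous_neg)) hε

theorem band {ε : ℝ} (hε : 0 < ε) :
    ∃ c₁ > (0 : ℝ), ∃ c₂ > (0 : ℝ), ∀ n : ℕ, 2 ≤ n →
      prob n (fun k => ∃ t ∈ Icc (0 : ℝ) 1, ∃ a ∈ Icc (-1 : ℝ) 1,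
        ENNReal.ofReal (2 / π * t * √(1 - a ^ 2) + ε) < eta n k t (Ro a) ∨
        ENNReal.ofReal (2 / π * (1 - t) * √(1 - a ^ 2) + ε) < eta n k t (Ro' a)) ≤
      c₁ * Real.exp (-c₂ * (n : ℝ) ^ 2) :=
  cross_band (fun _ hg _ hε => swap_ld hg hε) hε

theorem leaves_adm (U : Set (ProbabilityMeasure (ℝ × ℝ))) (hU : IsOpen U)
    (hA : ∀ t ∈ Icc (0 : ℝ) 1, ∃ μ ∈ U, (μ : Measure (ℝ × ℝ)) = arch t)
    (hC : ∀ t ∈ Ioo (0 : ℝ) 1, ∀ ν : ProbabilityMeasure (ℝ × ℝ), Adm t (ν : Measure (ℝ × ℝ)) → ν ∈ U) :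
    ∃ c₁ > (0 : ℝ), ∃ c₂ > (0 : ℝ), ∀ n : ℕ, 2 ≤ n →
      prob n (Leaves n U) ≤ c₁ * Real.exp (-c₂ * (n : ℝ) ^ 2) :=
  leaves_bound_adm (fun _ h1 h2 => low_bound' h1 h2) (fun _ h => band h) U hU hA hC

end Pool.Agent.SNL63
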