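import Pool.Agent.SNL63.EnConv

/-!
The distribution of the displacements up to one fixed time is controlled by a neighbourhood of the
Archimedean path.
-/

namespace Pool.Agent.SNL63

open Pool.Agent.SN8 MeasureTheory Set Filter Topology
open scoped ENNReal Real

/-- the tail of the uniform distribution -/
theorem unif_tail_le (ρ : ℝ) : unif {z | ρ ≤ |z|} ≤ ENNReal.ofReal (max (1 - ρ) 0) := by
  have h1 : {z : ℝ | ρ ≤ |z|} ∩ Icc (-1) 1 ⊆ Icc (-1) (-ρ) ∪ Icc ρ 1 := by
    rintro z ⟨hz, h2, h3⟩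
    rcases le_total 0 z with h | h
    · right
      rw [mem_ofPred_eq, abs_of_nonneg h] at hz
      exact ⟨hz, h3⟩
    · left
      rw [mem_ofPred_eq, abs_of_nonpos h] at hz
      exact ⟨h2, by linarith⟩
  have h2 : ENNReal.ofReal (max (1 - ρ) 0) = ENNReal.ofReal (1 - ρ) := by
    rcases le_total (1 - ρ) 0 with h | h
    · rw [max_eq_right h, ENNReal.ofReal_zero, ENNReal.ofReal_of_nonpos h]
    · rw [max_eq_left h]
  rw [h2, unif, Measure.smul_apply,
    Measure.restrict_apply (measurableSet_le measurable_const (by fun_prop)), smul_eq_mul]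
  refine (mul_le_mul' le_rfl ((measure_mono h1).trans (measure_union_le _ _))).trans ?_
  rw [Real.volume_Icc, Real.volume_Icc, show -ρ - -1 = 1 - ρ by ring, ← two_mul, ← mul_assoc,
    ENNReal.inv_mul_cancel (by norm_num) (by norm_num), one_mul]

/-- the displacements under the Archimedean measures -/
theorem arch_speed_le {s t l : ℝ} (hs : 0 ≤ s) (hs1 : s ≤ 1) (hst : s ≤ t) (ht : 0 < t) :
    arch s {p | l * t ≤ |p.1 - p.2|} ≤ ENNReal.ofReal (max (1 - l / π) 0) := by
  refine le_trans ?_ (unif_tail_le (l / π))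
  rw [← archHalf_proj (π * s / 2 - π / 2), arch,
    Measure.map_apply (measurable_archMap s) (measurableSet_le measurable_const (by fun_prop)),
    Measure.map_apply (by fun_prop) (measurableSet_le measurable_const (by fun_prop))]
  refine measure_mono fun p hp => ?_
  have hp' : l * t ≤ |p.1 - (p.1 * Real.cos (π * s) + p.2 * Real.sin (π * s))| := hp
  show l / π ≤ |p.1 * Real.cos (π * s / 2 - π / 2) + p.2 * Real.sin (π * s / 2 - π / 2)|
  rw [Real.cos_sub_pi_div_two, Real.sin_sub_pi_div_two]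
  have e : p.1 - (p.1 * Real.cos (π * s) + p.2 * Real.sin (π * s)) =
      2 * Real.sin (π * s / 2) * (p.1 * Real.sin (π * s / 2) + p.2 * -Real.cos (π * s / 2)) := by
    have e1 : π * s = 2 * (π * s / 2) := by ring
    rw [e1, Real.cos_two_mul', Real.sin_two_mul]
    have h3 := Real.sin_sq_add_cos_sq (π * s / 2)
    have e' : 2 * (π * s / 2) / 2 = π * s / 2 := by ring
    rw [e']
    linear_combination p.1 * (-h3)
  rw [e, abs_mul] at hp'
  obtain ⟨Z, hZ⟩ : ∃ Z, Z = |p.1 * Real.sin (π * s / 2) + p.2 * -Real.cos (π * s / 2)| := ⟨_, rfl⟩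
  rw [← hZ] at hp' ⊢
  have hZ0 : 0 ≤ Z := by rw [hZ]; exact abs_nonneg _
  have hπ := Real.pi_pos
  have h0 : 0 ≤ π * s / 2 := by positivity
  have h1 : Real.sin (π * s / 2) ≤ π * s / 2 := Real.sin_le h0
  have h2 : 0 ≤ Real.sin (π * s / 2) := Real.sin_nonneg_of_nonneg_of_le_pi h0 (by nlinarith)
  rw [abs_of_nonneg (by linarith : 0 ≤ 2 * Real.sin (π * s / 2))] at hp'
  have h3 : l * t ≤ π * t * Z := by
    refine hp'.trans (mul_le_mul_of_nonneg_right ?_ hZ0)
    have : π * s ≤ π * t := mul_le_mul_of_nonneg_left hst hπ.le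
    linarith
  rw [div_le_iff₀ hπ]
  by_contra h
  push Not at h
  have h4 : Z * π * t < l * t := mul_lt_mul_of_pos_right h ht
  linarith

theorem isOpen_closed_lt {F : Set (ℝ × ℝ)} (hF : IsClosed F) (c : ℝ≥0∞) :
    IsOpen {μ : ProbabilityMeasure (ℝ × ℝ) | (μ : Measure (ℝ × ℝ)) F < c} := by
  rw [isOpen_iff_eventually]
  intro μ hμ
  have h2 := ProbabilityMeasure.limsup_measure_closed_le_of_tendsto
    (tendsto_id : Tendsto (fun ν : ProbabilityMeasure (ℝ × ℝ) => ν) (𝓝 μ) (𝓝 μ)) hF
  exact eventually_lt_of_limsup_lt (lt_of_le_of_lt h2 hμ)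

theorem conv_speed {ε t : ℝ} (hε : 0 < ε) (ht : t ∈ Ioc (0 : ℝ) 1) :
    ∃ U : Set (ProbabilityMeasure (ℝ × ℝ)), IsOpen U ∧
      (∀ s ∈ Icc (0 : ℝ) 1, ∃ μ ∈ U, (μ : Measure (ℝ × ℝ)) = arch s) ∧
      ∀ n : ℕ, 2 ≤ n → prob n (fun k => ∃ l : ℝ, 0 ≤ l ∧
          ENNReal.ofReal (max (1 - l / π) 0 + ε) < eta n k t {p | l * t < |p.1 - p.2|}) ≤
        prob n (Leaves n U) := by
  have hπ := Real.pi_pos
  obtain ⟨m, hm⟩ := exists_nat_gt (2 / ε)
  have hm0 : (0 : ℝ) < m := lt_trans (by positivity) hm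
  have hm1 : 1 / (m : ℝ) < ε / 2 := by
    rw [div_lt_iff₀ hε] at hm
    rw [div_lt_iff₀ hm0]
    linarith
  let F : ℕ → Set (ℝ × ℝ) := fun i => {p | (i * π / m) * t ≤ |p.1 - p.2|}
  have hF : ∀ i, IsClosed (F i) := fun i => isClosed_le continuous_const (by fun_prop)
  refine ⟨(⋂ i ∈ Finset.Icc 1 m, {μ : ProbabilityMeasure (ℝ × ℝ) |
      (μ : Measure (ℝ × ℝ)) (F i) < ENNReal.ofReal (1 - (i : ℝ) / m + ε / 2)}) ∪
    {μ | ENNReal.ofReal t < ((μ : Measure (ℝ × ℝ)).prod (μ : Measure (ℝ × ℝ))) Iv},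
    (isOpen_biInter_finset fun i _ => isOpen_closed_lt (hF i) _).union (isOpen_Iv_gt _), ?_, ?_⟩
  · intro s hs
    refine ⟨⟨arch s, inferInstance⟩, ?_, rfl⟩
    rcases le_or_gt s t with h | h
    · left
      refine mem_iInter₂.2 fun i hi => ?_
      obtain ⟨hi1, hi2⟩ := Finset.mem_Icc.1 hi
      show arch s (F i) < _
      refine (arch_speed_le hs.1 hs.2 h ht.1).trans_lt ?_
      have h1 : (i : ℝ) * π / m / π = i / m := by field_simp
      have h2 : (i : ℝ) / m ≤ 1 := (div_le_one hm0).2 (by exact_mod_cast hi2)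
      rw [h1, max_eq_left (by linarith)]
      exact (ENNReal.ofReal_lt_ofReal_iff (by linarith)).2 (by linarith)
    · right
      show ENNReal.ofReal t < ((arch s).prod (arch s)) Iv
      rw [arch_inv hs]
      exact (ENNReal.ofReal_lt_ofReal_iff (ht.1.trans h)).2 h
  · intro n hn
    refine prob_mono fun k hk h => ⟨t, ⟨ht.1.le, ht.2⟩, fun μ hμ he => ?_⟩
    rcases hμ with hμ | hμ
    · obtain ⟨l, hl, hlt⟩ := h
      have hprob : (μ : Measure (ℝ × ℝ)) {p | l * t < |p.1 - p.2|} ≤ 1 := MeasureTheory.prob_le_one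
      rw [← he] at hlt
      have h1 : ENNReal.ofReal (max (1 - l / π) 0 + ε) < ENNReal.ofReal 1 := by
        rw [ENNReal.ofReal_one]
        exact hlt.trans_le hprob
      have h2 : max (1 - l / π) 0 + ε < 1 := (ENNReal.ofReal_lt_ofReal_iff one_pos).1 h1
      obtain ⟨i, hi⟩ : ∃ i, i = min ⌊l * m / π⌋₊ m := ⟨_, rfl⟩
      have hq0 : 0 ≤ l * m / π := by positivity
      have hfl := Nat.floor_le hq0
      have hfl' := Nat.lt_floor_add_one (l * m / π)
      have hi1 : 1 ≤ i := by
        rw [hi]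
        refine le_min ?_ (by exact_mod_cast hm0)
        by_contra h3
        have h4 : ⌊l * m / π⌋₊ = 0 := by omega
        rw [h4, Nat.cast_zero, zero_add, div_lt_one hπ] at hfl'
        have h5 : l / π < 1 / m := by
          rw [div_lt_div_iff₀ hπ hm0]
          linarith
        have h6 := le_max_left (1 - l / π) 0
        linarith
      have him : i ≤ m := by rw [hi]; exact min_le_right _ _
      have hil : (i : ℝ) * π / m ≤ l := by
        have h3 : (i : ℝ) ≤ l * m / π := by
          refine le_trans ?_ hfl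
          rw [hi]
          exact_mod_cast min_le_left _ _
        rw [div_le_iff₀ hm0]
        rw [le_div_iff₀ hπ] at h3
        exact h3
      have hμi : (μ : Measure (ℝ × ℝ)) (F i) < ENNReal.ofReal (1 - (i : ℝ) / m + ε / 2) := by
        exact mem_iInter₂.1 hμ i (Finset.mem_Icc.2 ⟨hi1, him⟩)
      have hsub : {p : ℝ × ℝ | l * t < |p.1 - p.2|} ⊆ F i := by
        intro p hp
        have hp' : l * t < |p.1 - p.2| := hp
        show (i : ℝ) * π / m * t ≤ |p.1 - p.2|
        exact (mul_le_mul_of_nonneg_right hil ht.1.le).trans hp'.le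
      have h3 : ENNReal.ofReal (max (1 - l / π) 0 + ε) < ENNReal.ofReal (1 - (i : ℝ) / m + ε / 2) :=
        (hlt.trans_le (measure_mono hsub)).trans hμi
      have h4 : max (1 - l / π) 0 + ε < 1 - (i : ℝ) / m + ε / 2 := by
        by_contra h5
        push Not at h5
        exact absurd h3 (not_lt.2 (ENNReal.ofReal_le_ofReal h5))
      -- the point of the grid is close
      have h5 : 1 - (i : ℝ) / m ≤ max (1 - l / π) 0 + 1 / m := by
        rcases le_total ⌊l * m / π⌋₊ m with h6 | h6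
        · rw [min_eq_left h6] at hi
          have h7 : l * m / π < i + 1 := by rw [hi]; exact hfl'
          have h8 : l / π ≤ (i : ℝ) / m + 1 / m := by
            rw [← add_div, div_le_div_iff₀ hπ hm0]
            rw [div_lt_iff₀ hπ] at h7
            exact h7.le
          have h9 := le_max_left (1 - l / π) 0
          linarith
        · rw [min_eq_right h6] at hi
          have h7 : (i : ℝ) / m = 1 := by rw [hi]; exact div_self hm0.ne'
          have h8 := le_max_right (1 - l / π) 0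
          have h9 : 0 ≤ 1 / (m : ℝ) := by positivity
          linarith
      linarith
    · have h2 : ENNReal.ofReal t < ((μ : Measure (ℝ × ℝ)).prod (μ : Measure (ℝ × ℝ))) Iv := hμ
      rw [he] at h2
      exact absurd h2 (not_lt.2 (eta_Iv_le hn hk ⟨ht.1.le, ht.2⟩))

end Pool.Agent.SNL63

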