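import Pool.Agent.SNL63.EnAlg

/-!
Definitions for the criterion with truncated energies.
-/

namespace Pool.Agent.SNL63

open Pool.Agent.SN8 MeasureTheory Set Filter Topology
open scoped ENNReal Real

/-- the mean square displacement between `i` and `j` swaps, truncated at `c` -/
noncomputable def TE (n : ℕ) (k : List ℕ) (c : ℝ) (i j : ℕ) : ℝ :=
  (∑ x ∈ Finset.Icc 1 n, min ((pos n k j x - pos n k i x) ^ 2) (c ^ 2)) / n

/-- the mean excess of the displacements between `i` and `j` swaps over `c` -/
noncomputable def XE (n : ℕ) (k : List ℕ) (c : ℝ) (i j : ℕ) : ℝ :=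
  (∑ x ∈ Finset.Icc 1 n, max (|pos n k j x - pos n k i x| - c) 0) / n

end Pool.Agent.SNL63
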