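import Pool.Agent.SNL63.TeDefs
import Pool.Agent.SNL63.LlInt
import Pool.Agent.SNL63.Pairs

/-!
# T3: the excess of the displacements over `M t` is small, from the `L log L` bound
-/

namespace Pool.Agent.SNL63

open Pool.Agent.SN8 MeasureTheory Set Filter Topology
open scoped ENNReal Real

namespace Te

/-- One term. -/
theorem term {d t τ M : ℝ} (hd : 0 ≤ d) (hτ : 0 < τ) (hτt : τ ≤ t) (hM : 0 < M) :
    max (d - M * t) 0 ≤ d * Real.log (1 + d / τ) / Real.log (1 + M) := by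
  have hlM : 0 < Real.log (1 + M) := Real.log_pos (by linarith)
  have h0 : 0 ≤ d / τ := div_nonneg hd hτ.le
  have h1 : 0 ≤ d * Real.log (1 + d / τ) / Real.log (1 + M) :=
    div_nonneg (mul_nonneg hd (Real.log_nonneg (by linarith))) hlM.le
  refine max_le ?_ h1
  rcases le_or_gt d (M * t) with h | h
  · linarith
  · have h2 : M ≤ d / τ := by
      rw [le_div_iff₀ hτ]
      exact (mul_le_mul_of_nonneg_left hτt hM.le).trans h.le
    have h3 : Real.log (1 + M) ≤ Real.log (1 + d / τ) := Real.log_le_log (by linarith) (by linarith)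
    have h4 : d ≤ d * Real.log (1 + d / τ) / Real.log (1 + M) := by
      rw [le_div_iff₀ hlM]
      exact mul_le_mul_of_nonneg_left h3 hd
    have h5 : 0 ≤ M * t := mul_nonneg hM.le (hτ.le.trans hτt)
    linarith

/-- The excess is bounded by the `L log L` sum. -/
theorem XE_le {n : ℕ} (hn : 1 ≤ n) (k : List ℕ) {i j : ℕ} {t τ M A : ℝ} (hτ : 0 < τ) (hτt : τ ≤ t) (hM : 0 < M)
    (hA : 0 ≤ A)
    (h : (∑ x ∈ Finset.Icc 1 n, |pos n k i x - pos n k j x| *
      Real.log (1 + |pos n k i x - pos n k j x| / τ)) / n ≤ A * τ) :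
    XE n k (M * t) i j ≤ A * t / Real.log (1 + M) := by
  have hlM : 0 < Real.log (1 + M) := Real.log_pos (by linarith)
  have hn0 : (0 : ℝ) < n := by exact_mod_cast hn
  unfold XE
  calc (∑ x ∈ Finset.Icc 1 n, max (|pos n k j x - pos n k i x| - M * t) 0) / n
      ≤ (∑ x ∈ Finset.Icc 1 n, |pos n k i x - pos n k j x| *
          Real.log (1 + |pos n k i x - pos n k j x| / τ) / Real.log (1 + M)) / n := by
        refine div_le_div_of_nonneg_right (Finset.sum_le_sum fun x _ => ?_) hn0.le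
        rw [abs_sub_comm (pos n k j x)]
        exact term (abs_nonneg _) hτ hτt hM
    _ = ((∑ x ∈ Finset.Icc 1 n, |pos n k i x - pos n k j x| *
          Real.log (1 + |pos n k i x - pos n k j x| / τ)) / n) / Real.log (1 + M) := by
        rw [← Finset.sum_div, div_right_comm]
    _ ≤ A * τ / Real.log (1 + M) := div_le_div_of_nonneg_right h hlM.le
    _ ≤ A * t / Real.log (1 + M) := div_le_div_of_nonneg_right (mul_le_mul_of_nonneg_left hτt hA) hlM.le

end Te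

theorem exc_small
    (hll : ∃ A > (0 : ℝ), ∀ κ > (0 : ℝ), ∃ c₁ > (0 : ℝ), ∃ c₂ > (0 : ℝ), ∀ n : ℕ, 2 ≤ n →
      prob n (fun k => ∃ s u : ℝ, 0 ≤ s ∧ s + κ ≤ u ∧ u ≤ 1 ∧
        ENNReal.ofReal (A * (u - s)) <
          ∫⁻ p, ENNReal.ofReal (|p.1 - p.2| * Real.log (1 + |p.1 - p.2| / (u - s))) ∂(eta2 n k s u)) ≤
      c₁ * Real.exp (-c₂ * (n : ℝ) ^ 2)) :
    ∃ A > (0 : ℝ), ∀ t ∈ Ioc (0 : ℝ) 1, ∃ c₁ > (0 : ℝ), ∃ c₂ > (0 : ℝ), ∀ n : ℕ, 2 ≤ n →
      prob n (fun k => ∃ i : ℕ, i + sw_ n t ≤ n.choose 2 ∧ ∃ M > (0 : ℝ),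
        A * t / Real.log (1 + M) < XE n k (M * t) i (i + sw_ n t)) ≤ c₁ * Real.exp (-c₂ * (n : ℝ) ^ 2) := by
  obtain ⟨A, hA, h⟩ := hll
  refine ⟨A, hA, fun t ht => ?_⟩
  obtain ⟨ht0, ht1⟩ := ht
  obtain ⟨c₁, hc₁, c₂, hc₂, h'⟩ := h (t / 2) (by linarith)
  obtain ⟨n₁, hn₁⟩ := exists_nat_ge (4 / t)
  refine const_of_ge (n₀ := max 2 n₁) (fun n => prob_le_one n _) hc₁ hc₂ fun n hn => ?_
  have hn2 : 2 ≤ n := (le_max_left _ _).trans hn
  have hn3 : n₁ ≤ n := (le_max_right _ _).trans hn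
  have hn0 : (2 : ℝ) ≤ n := by exact_mod_cast hn2
  have hn4 : 4 / t ≤ (n : ℝ) := hn₁.trans (by exact_mod_cast hn3)
  have hn5 : 4 ≤ n * t := by rwa [div_le_iff₀ ht0] at hn4
  refine (prob_mono fun k hk => ?_).trans (h' n hn2)
  rintro ⟨i, hi, M, hM, hX⟩
  obtain ⟨q, hq⟩ : ∃ q, q = sw_ n t := ⟨_, rfl⟩
  rw [← hq] at hi hX
  obtain ⟨N, hN⟩ : ∃ N, N = n.choose 2 := ⟨_, rfl⟩
  have hNr : (N : ℝ) = n * (n - 1) / 2 := by rw [hN]; exact Nat.cast_choose_two ℝ n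
  have hNpos : (0 : ℝ) < (N : ℝ) := by
    rw [hNr]
    nlinarith
  have hNt : 2 ≤ (N : ℝ) * t := by
    rw [hNr]
    nlinarith
  have q1 : (q : ℝ) ≤ N * t := by
    rw [hq]
    unfold sw_
    rw [← hN]
    exact Nat.floor_le (by positivity)
  have q2 : (N : ℝ) * t < q + 1 := by
    rw [hq]
    unfold sw_
    rw [← hN]
    exact Nat.lt_floor_add_one _
  have hiN : ((i : ℝ) + q) ≤ N := by
    rw [← hN] at hi
    exact_mod_cast hi
  have sw_eq : ∀ j : ℕ, sw_ n ((j : ℝ) / N) = j := by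
    intro j
    unfold sw_
    rw [← hN, mul_div_cancel₀ _ hNpos.ne', Nat.floor_natCast]
  have hs : ∀ x, glob n k x ((i : ℝ) / N) = pos n k i x := by
    intro x
    rw [glob_eq_pos, sw_eq]
  have hu : ∀ x, glob n k x (((i + q : ℕ) : ℝ) / N) = pos n k (i + q) x := by
    intro x
    rw [glob_eq_pos, sw_eq]
  have hτ : ((i + q : ℕ) : ℝ) / N - (i : ℝ) / N = q / N := by
    push_cast
    ring
  have hτ1 : t / 2 ≤ (q : ℝ) / N := by
    rw [le_div_iff₀ hNpos]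
    linarith
  have hτ2 : (q : ℝ) / N ≤ t := by
    rw [div_le_iff₀ hNpos]
    linarith
  have hτ0 : (0 : ℝ) < (q : ℝ) / N := by linarith
  refine ⟨(i : ℝ) / N, ((i + q : ℕ) : ℝ) / N, by positivity, by linarith, ?_, ?_⟩
  · rw [div_le_one hNpos]
    push_cast
    exact hiN
  · by_contra hcon
    rw [not_lt, Ll.integral_eq (by omega) k (by linarith), hτ,
      ENNReal.ofReal_le_ofReal_iff (by positivity)] at hcon
    simp only [hs, hu] at hcon
    have := Te.XE_le (by omega) k hτ0 hτ2 hM hA.le hcon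
    linarith

end Pool.Agent.SNL63
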