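import Pool.Agent.SNL63.TeMain
import Pool.Agent.SNL63.TeConv

/-!
# The criterion with truncated energies and with the distribution of the speeds
-/

namespace Pool.Agent.SNL63

open Pool.Agent.SN8 MeasureTheory Set Filter Topology
open scoped ENNReal Real NNReal

theorem seq_pairs (V : Set (ℝ × ProbabilityMeasure (ℝ × ℝ))) (hV : IsOpen V)
    (hA : ∀ t ∈ Icc (0 : ℝ) 1, ∃ μ : ProbabilityMeasure (ℝ × ℝ),
      (μ : Measure (ℝ × ℝ)) = arch t ∧ (t, μ) ∈ V) {n : ℕ → ℕ} {k : ℕ → List ℕ}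
    (hn : Tendsto n atTop atTop) (hk : ∀ J, IsNetwork (n J) (k J)) (hn2 : ∀ J, 2 ≤ n J)
    (hK : ∀ 𝓕 : Ultrafilter ℕ, (𝓕 : Filter ℕ) ≤ atTop → ∀ (i j : ℕ → ℕ) (a b : ℝ), (∀ J, i J ≤ j J) →
      (∀ J, j J ≤ (n J).choose 2) →
      Tendsto (fun J => (i J : ℝ) / ((n J).choose 2 : ℝ)) 𝓕 (𝓝 a) →
      Tendsto (fun J => (j J : ℝ) / ((n J).choose 2 : ℝ)) 𝓕 (𝓝 b) →
      Tendsto (fun J => KK (n J) (k J) (i J) (j J)) 𝓕 (𝓝 (1 / 3 * Real.cos (π * (b - a)))))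
    (hout : ∀ J, ∃ s u : ℝ, 0 ≤ s ∧ s ≤ u ∧ u ≤ 1 ∧
      ∀ μ : ProbabilityMeasure (ℝ × ℝ), (μ : Measure (ℝ × ℝ)) = eta2 (n J) (k J) s u → (u - s, μ) ∉ V) :
    False := by
  choose s u hs hsu hu hout using hout
  obtain ⟨μ, hμ⟩ : ∃ μ : ℕ → ProbabilityMeasure (ℝ × ℝ),
      ∀ J, (μ J : Measure (ℝ × ℝ)) = eta2 (n J) (k J) (s J) (u J) :=
    ⟨fun J => ⟨eta2 (n J) (k J) (s J) (u J), eta2_prob (by have := hn2 J; omega) _ _ _⟩, fun J => rfl⟩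
  have hμV : ∀ J, (u J - s J, μ J) ∉ V := fun J => hout J _ (hμ J)
  obtain ⟨𝓕, h𝓕⟩ : ∃ 𝓕 : Ultrafilter ℕ, (𝓕 : Filter ℕ) ≤ atTop := ⟨hyperfilter ℕ, Nat.hyperfilter_le_atTop⟩
  obtain ⟨ν, -, hν⟩ := isCompact_iff_ultrafilter_le_nhds'.1 compact_sq (𝓕.map μ) (by
    rw [Ultrafilter.mem_map]
    refine Filter.Eventually.of_forall fun J => ?_
    intro _
    have h1 : (μ J : Measure (ℝ × ℝ)) Sqᶜ = 0 := by
      rw [hμ]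
      obtain ⟨i, -, r, -, -, h⟩ := eta2_rot (hn2 J) (hk J) (hs J) (hsu J) (hu J)
      rw [h]
      exact eta_Sq_compl (rotN_net (hk J)) _
    have h2 : ((μ J Sqᶜ : ℝ≥0) : ℝ≥0∞) = 0 := by
      rw [ProbabilityMeasure.ennreal_coeFn_eq_coeFn_toMeasure]
      exact h1
    exact le_of_eq (by exact_mod_cast h2))
  replace hν : Tendsto μ 𝓕 (𝓝 ν) := hν
  obtain ⟨a, ha, hsa⟩ := isCompact_iff_ultrafilter_le_nhds'.1 (isCompact_Icc (a := (0 : ℝ)) (b := 1)) (𝓕.map s) (by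
    rw [Ultrafilter.mem_map]
    exact Filter.Eventually.of_forall fun J => ⟨hs J, (hsu J).trans (hu J)⟩)
  replace hsa : Tendsto s 𝓕 (𝓝 a) := hsa
  obtain ⟨b, hb, hub⟩ := isCompact_iff_ultrafilter_le_nhds'.1 (isCompact_Icc (a := (0 : ℝ)) (b := 1)) (𝓕.map u) (by
    rw [Ultrafilter.mem_map]
    exact Filter.Eventually.of_forall fun J => ⟨(hs J).trans (hsu J), hu J⟩)
  replace hub : Tendsto u 𝓕 (𝓝 b) := hub
  have hab : a ≤ b := le_of_tendsto_of_tendsto' hsa hub hsu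
  have hlaw : (ν : Measure (ℝ × ℝ)) = arch (b - a) := law_limit (𝓕 : Filter ℕ) (hn.mono_left h𝓕) hk
    (fun i j a b hij hj hia hjb => hK 𝓕 h𝓕 i j a b hij hj hia hjb) hs hsu hu hsa hub hμ hν
  obtain ⟨μ₀, hμ₀, hV₀⟩ := hA (b - a) ⟨by linarith, by linarith [ha.1, hb.2]⟩
  have hνμ : ν = μ₀ := by
    apply Subtype.ext
    show (ν : Measure (ℝ × ℝ)) = μ₀
    rw [hlaw, hμ₀]
  rw [← hνμ] at hV₀
  have := ((hub.sub hsa).prodMk_nhds hν).eventually (hV.mem_nhds hV₀)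
  obtain ⟨J, hJ⟩ := this.exists
  exact hμV J hJ

theorem seq_sine {ε' : ℝ} (hε' : 0 < ε') {n : ℕ → ℕ} {k : ℕ → List ℕ}
    (hn : Tendsto n atTop atTop) (hk : ∀ J, IsNetwork (n J) (k J))
    (hK : ∀ 𝓕 : Ultrafilter ℕ, (𝓕 : Filter ℕ) ≤ atTop → ∀ (i j : ℕ → ℕ) (a b : ℝ), (∀ J, i J ≤ j J) →
      (∀ J, j J ≤ (n J).choose 2) →
      Tendsto (fun J => (i J : ℝ) / ((n J).choose 2 : ℝ)) 𝓕 (𝓝 a) →
      Tendsto (fun J => (j J : ℝ) / ((n J).choose 2 : ℝ)) 𝓕 (𝓝 b) →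
      Tendsto (fun J => KK (n J) (k J) (i J) (j J)) 𝓕 (𝓝 (1 / 3 * Real.cos (π * (b - a)))))
    (hout : ∀ J, ε' * (n J : ℝ) < supCard (n J) (k J) ε') : False := by
  obtain ⟨δ, hδ, n₀, hsup⟩ := sup_of_far hε'
  have h1 : ∀ᶠ J in atTop, ∃ u ∈ Icc (0 : ℝ) 1, δ * (n J : ℝ) < farCard (n J) (k J) δ u := by
    filter_upwards [hn.eventually_ge_atTop n₀] with J hJ
    by_contra hc
    push Not at hc
    exact absurd (hsup (n J) hJ (k J) (hk J) hc) (not_le.2 (hout J))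
  obtain ⟨u, hu⟩ : ∃ u : ℕ → ℝ, ∀ J, u J ∈ Icc (0 : ℝ) 1 ∧
      ((∃ v ∈ Icc (0 : ℝ) 1, δ * (n J : ℝ) < farCard (n J) (k J) δ v) →
        δ * (n J : ℝ) < farCard (n J) (k J) δ (u J)) := by
    have : ∀ J, ∃ v : ℝ, v ∈ Icc (0 : ℝ) 1 ∧
      ((∃ v ∈ Icc (0 : ℝ) 1, δ * (n J : ℝ) < farCard (n J) (k J) δ v) →
        δ * (n J : ℝ) < farCard (n J) (k J) δ v) := by
      intro J
      by_cases h : ∃ v ∈ Icc (0 : ℝ) 1, δ * (n J : ℝ) < farCard (n J) (k J) δ v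
      · obtain ⟨v, hv, h2⟩ := h
        exact ⟨v, hv, fun _ => h2⟩
      · exact ⟨0, ⟨le_rfl, zero_le_one⟩, fun h2 => absurd h2 h⟩
    exact ⟨fun J => (this J).choose, fun J => (this J).choose_spec⟩
  obtain ⟨𝓕, h𝓕⟩ : ∃ 𝓕 : Ultrafilter ℕ, (𝓕 : Filter ℕ) ≤ atTop := ⟨hyperfilter ℕ, Nat.hyperfilter_le_atTop⟩
  obtain ⟨a, ha, hua⟩ := isCompact_iff_ultrafilter_le_nhds'.1 (isCompact_Icc (a := (0 : ℝ)) (b := 1)) (𝓕.map u) (by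
    rw [Ultrafilter.mem_map]
    exact Filter.Eventually.of_forall fun J => (hu J).1)
  replace hua : Tendsto u 𝓕 (𝓝 a) := hua
  have h2 := sine_limit (𝓕 : Filter ℕ) (hn.mono_left h𝓕) hk
    (fun i j a b hij hj hia hjb => hK 𝓕 h𝓕 i j a b hij hj hia hjb) (fun J => (hu J).1) hua hδ
  obtain ⟨J, hJ1, hJ2⟩ := (h2.and (h1.filter_mono h𝓕)).exists
  exact absurd ((hu J).2 hJ2) (not_lt.2 hJ1)


/-- the truncated energy of a permutation -/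
theorem TE_zero {n : ℕ} (k : List ℕ) (c : ℝ) (m : ℕ) :
    TE n k c 0 m = (∑ x ∈ Finset.Icc 1 n, min ((2 * ((place (k.take m) x : ℝ) - x) / n) ^ 2) (c ^ 2)) / n := by
  unfold TE pos
  congr 1
  refine Finset.sum_congr rfl fun x _ => ?_
  rw [List.take_zero, place_nil]
  congr 2
  ring

/-- the truncated energy is at most the energy -/
theorem TE_le_EE (n : ℕ) (k : List ℕ) (c : ℝ) (i j : ℕ) : TE n k c i j ≤ EE n k i j := by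
  unfold TE EE
  refine div_le_div_of_nonneg_right ?_ (Nat.cast_nonneg _)
  exact Finset.sum_le_sum fun x _ => min_le_left _ _

/-- **the criterion** -/
theorem criterion2 : List.TFAE [
    (∀ U : Set (ProbabilityMeasure (ℝ × ℝ)), IsOpen U →
      (∀ t ∈ Icc (0 : ℝ) 1, ∃ μ ∈ U, (μ : Measure (ℝ × ℝ)) = arch t) →
      ∃ c₁ > (0 : ℝ), ∃ c₂ > (0 : ℝ), ∀ n : ℕ, 2 ≤ n →
        prob n (Leaves n U) ≤ c₁ * Real.exp (-c₂ * (n : ℝ) ^ 2)),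
    (∀ V : Set (ℝ × ProbabilityMeasure (ℝ × ℝ)), IsOpen V →
      (∀ t ∈ Icc (0 : ℝ) 1, ∃ μ : ProbabilityMeasure (ℝ × ℝ),
        (μ : Measure (ℝ × ℝ)) = arch t ∧ (t, μ) ∈ V) →
      ∃ c₁ > (0 : ℝ), ∃ c₂ > (0 : ℝ), ∀ n : ℕ, 2 ≤ n →
        prob n (fun k => ∃ s t : ℝ, 0 ≤ s ∧ s ≤ t ∧ t ≤ 1 ∧
          ∀ μ : ProbabilityMeasure (ℝ × ℝ), (μ : Measure (ℝ × ℝ)) = eta2 n k s t →
            (t - s, μ) ∉ V) ≤ c₁ * Real.exp (-c₂ * (n : ℝ) ^ 2)),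
    (∀ ε > (0 : ℝ), ∃ c₁ > (0 : ℝ), ∃ c₂ > (0 : ℝ), ∀ n : ℕ, 2 ≤ n →
      prob n (fun k => ε * n < supCard n k ε) ≤ c₁ * Real.exp (-c₂ * (n : ℝ) ^ 2)),
    (∀ ε > (0 : ℝ), ∀ t ∈ Ioc (0 : ℝ) 1, ∃ c₁ > (0 : ℝ), ∃ c₂ > (0 : ℝ), ∀ n : ℕ, 2 ≤ n →
      prob n (fun k => (π ^ 2 / 3 + ε) * t ^ 2 < ∫ p, (p.1 - p.2) ^ 2 ∂(eta n k t)) ≤
        c₁ * Real.exp (-c₂ * (n : ℝ) ^ 2)),
    (∀ ε > (0 : ℝ), ∀ t₀ > (0 : ℝ), ∃ t ∈ Ioo (0 : ℝ) t₀, ∃ c₁ > (0 : ℝ), ∃ c₂ > (0 : ℝ),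
      ∀ n : ℕ, 2 ≤ n →
      prob n (fun k => ∃ l : ℝ, 0 ≤ l ∧
          ENNReal.ofReal (max (1 - l / π) 0 + ε) < eta n k t {p | l * t < |p.1 - p.2|}) ≤
        c₁ * Real.exp (-c₂ * (n : ℝ) ^ 2)),
    (∀ ε > (0 : ℝ), ∀ M > (0 : ℝ), ∀ t₀ > (0 : ℝ), ∃ t ∈ Ioo (0 : ℝ) t₀, ∃ c₁ > (0 : ℝ), ∃ c₂ > (0 : ℝ),
      ∀ n : ℕ, 2 ≤ n →
      prob n (fun k => (π ^ 2 / 3 + ε) * t ^ 2 < ∫ p, min ((p.1 - p.2) ^ 2) ((M * t) ^ 2) ∂(eta n k t)) ≤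
        c₁ * Real.exp (-c₂ * (n : ℝ) ^ 2)),
    (∀ ε > (0 : ℝ), ∀ M > (0 : ℝ), ∀ t₀ > (0 : ℝ), ∃ t ∈ Ioo (0 : ℝ) t₀, ∃ c₁ > (0 : ℝ), ∃ c₂ > (0 : ℝ),
      ∀ n : ℕ, 2 ≤ n → ∀ w : ℕ → ℕ,
      (π ^ 2 / 3 + ε) * t ^ 2 <
        (∑ x ∈ Finset.Icc 1 n, min ((2 * ((w x : ℝ) - x) / n) ^ 2) ((M * t) ^ 2)) / n →
      prob n (fun k => ∀ x ∈ Finset.Icc 1 n, place (k.take ⌊(n.choose 2 : ℝ) * t⌋₊) x = w x) ≤
        c₁ * Real.exp (-c₂ * (n : ℝ) ^ 2))] := by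
  tfae_have 1 → 4 := by
    intro h ε hε t ht
    obtain ⟨U, hU, hA, hn⟩ := converse hε ht
    obtain ⟨c₁, hc₁, c₂, hc₂, h1⟩ := h U hU hA
    exact ⟨c₁, hc₁, c₂, hc₂, fun n hn2 => (hn n hn2).trans (h1 n hn2)⟩
  tfae_have 1 → 5 := by
    intro h ε hε t₀ ht₀
    have ht : min (t₀ / 2) 1 ∈ Ioc (0 : ℝ) 1 := ⟨lt_min (by positivity) one_pos, min_le_right _ _⟩
    obtain ⟨U, hU, hA, hn⟩ := conv_speed hε ht
    obtain ⟨c₁, hc₁, c₂, hc₂, h1⟩ := h U hU hA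
    exact ⟨min (t₀ / 2) 1, ⟨ht.1, lt_of_le_of_lt (min_le_left _ _) (by linarith)⟩, c₁, hc₁, c₂, hc₂,
      fun n hn2 => (hn n hn2).trans (h1 n hn2)⟩
  tfae_have 4 → 6 := by
    intro h ε hε M hM t₀ ht₀
    have ht : min (t₀ / 2) 1 ∈ Ioc (0 : ℝ) 1 := ⟨lt_min (by positivity) one_pos, min_le_right _ _⟩
    obtain ⟨c₁, hc₁, c₂, hc₂, h1⟩ := h ε hε _ ht
    refine ⟨min (t₀ / 2) 1, ⟨ht.1, lt_of_le_of_lt (min_le_left _ _) (by linarith)⟩, c₁, hc₁, c₂, hc₂,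
      fun n hn2 => (prob_mono fun k hk hE => ?_).trans (h1 n hn2)⟩
    rw [integral_trunc (by omega)] at hE
    rw [integral_eta (by omega)]
    exact hE.trans_le (TE_le_EE _ _ _ _ _)
  tfae_have 5 → 6 := by
    intro h ε hε M hM t₀ ht₀
    obtain ⟨t, ht, c₁, hc₁, c₂, hc₂, h1⟩ := h (ε / M ^ 2) (by positivity) t₀ ht₀
    refine ⟨t, ht, c₁, hc₁, c₂, hc₂, fun n hn2 => (prob_mono fun k hk hE => ?_).trans (h1 n hn2)⟩
    by_contra hc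
    push Not at hc
    haveI : IsProbabilityMeasure (eta n k t) := by
      rw [← eta2_zero]
      exact eta2_prob (by omega) _ _ _
    have h2 := trunc_of_speed (μ := eta n k t) ht.1 hM (ε := ε / M ^ 2) (by positivity) hc
    rw [div_mul_cancel₀ _ (by positivity)] at h2
    exact absurd h2 (not_le.2 hE)
  tfae_have 6 → 2 := by
    intro h V hV hA
    by_contra hcon
    obtain ⟨n, k, t, e, c, δ, hn, hk, hn2, ht0, ht, he0, he, hδ, hc, hnt, hE, hX, hout⟩ := bad_seq2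
      (E := fun n k => ∃ s t : ℝ, 0 ≤ s ∧ s ≤ t ∧ t ≤ 1 ∧
          ∀ μ : ProbabilityMeasure (ℝ × ℝ), (μ : Measure (ℝ × ℝ)) = eta2 n k s t →
            (t - s, μ) ∉ V) h hcon
    exact seq_pairs V hV hA hn hk hn2 (fun 𝓕 h𝓕 i j a b hij hj hia hjb =>
      geo_limit2 (𝓕 : Filter ℕ) (hn.mono_left h𝓕) hk ht0 (ht.mono_left h𝓕) he0 (he.mono_left h𝓕)
        (hδ.mono_left h𝓕) hc (hnt.mono_left h𝓕) hE hX hij hj hia hjb) hout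
  tfae_have 6 → 3 := by
    intro h ε' hε'
    by_contra hcon
    obtain ⟨n, k, t, e, c, δ, hn, hk, hn2, ht0, ht, he0, he, hδ, hc, hnt, hE, hX, hout⟩ := bad_seq2
      (E := fun n k => ε' * n < supCard n k ε') h hcon
    exact seq_sine hε' hn hk (fun 𝓕 h𝓕 i j a b hij hj hia hjb =>
      geo_limit2 (𝓕 : Filter ℕ) (hn.mono_left h𝓕) hk ht0 (ht.mono_left h𝓕) he0 (he.mono_left h𝓕)
        (hδ.mono_left h𝓕) hc (hnt.mono_left h𝓕) hE hX hij hj hia hjb) hout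
  tfae_have 2 → 1 := by
    intro h U hU hA
    obtain ⟨c₁, hc₁, c₂, hc₂, h1⟩ := h (Prod.snd ⁻¹' U) (hU.preimage continuous_snd) (fun t ht => by
      obtain ⟨μ, hμ, hμ'⟩ := hA t ht
      exact ⟨μ, hμ', hμ⟩)
    refine ⟨c₁, hc₁, c₂, hc₂, fun n hn => (prob_mono fun k hk => ?_).trans (h1 n hn)⟩
    rintro ⟨t, ht, h2⟩
    refine ⟨0, t, le_rfl, ht.1, ht.2, fun μ hμ hμU => h2 μ hμU ?_⟩
    rw [hμ, eta2_zero]
  tfae_have 3 → 4 := by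
    intro h ε hε t ht
    obtain ⟨ε', hε', n₀, h1⟩ := sine_conv hε ht
    obtain ⟨c₁, hc₁, c₂, hc₂, h2⟩ := h ε' hε'
    refine const_of_ge (n₀ := max 2 n₀) (fun n => prob_le_one n _) hc₁ hc₂ fun n hn => ?_
    have hn2 : 2 ≤ n := (le_max_left _ _).trans hn
    refine (prob_mono fun k hk hE => ?_).trans (h2 n hn2)
    by_contra hc
    have h3 := h1 n ((le_max_right _ _).trans hn) k hk (fun u hu => by
      refine le_trans ?_ (not_lt.1 hc)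
      exact_mod_cast farCard_le_supCard n k ε' hu)
    rw [integral_eta (by omega)] at hE
    exact absurd h3 (not_le.2 hE)
  tfae_have 6 → 7 := by
    intro h ε hε M hM t₀ ht₀
    obtain ⟨t, ht, c₁, hc₁, c₂, hc₂, h1⟩ := h ε hε M hM t₀ ht₀
    refine ⟨t, ht, c₁, hc₁, c₂, hc₂, fun n hn w hw => (prob_mono fun k hk hE => ?_).trans (h1 n hn)⟩
    rw [integral_trunc (by omega), TE_zero]
    refine lt_of_lt_of_eq hw ?_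
    congr 1
    exact Finset.sum_congr rfl fun x hx => by rw [sw_, hE x hx]
  tfae_have 7 → 6 := by
    intro h ε hε M hM t₀ ht₀
    obtain ⟨t, ht, c₁, hc₁, c₂, hc₂, h1⟩ := h ε hε M hM t₀ ht₀
    refine ⟨t, ht, ?_⟩
    refine exp_of_pow (n₀ := 2) (g := fun n => c₁ * Real.exp (-c₂ * (n : ℝ) ^ 2))
      (fun n => prob_le_one n _) (fun n hn => ?_) ⟨c₁, hc₁, c₂, hc₂, fun n _ => le_rfl⟩
    have h2 := perm_union (n := n) ⌊(n.choose 2 : ℝ) * t⌋₊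
      (Q := fun w => (π ^ 2 / 3 + ε) * t ^ 2 <
        (∑ x ∈ Finset.Icc 1 n, min ((2 * ((w x : ℝ) - x) / n) ^ 2) ((M * t) ^ 2)) / n)
      (B := c₁ * Real.exp (-c₂ * (n : ℝ) ^ 2)) (by positivity) (h1 n hn) (fun w w' hw hq => by
        refine lt_of_lt_of_eq hq ?_
        congr 1
        exact Finset.sum_congr rfl fun x hx => by rw [hw x hx])
    refine le_trans (prob_mono fun k hk hE => ?_) h2
    rw [integral_trunc (by omega), TE_zero] at hE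
    exact hE
  tfae_finish

end Pool.Agent.SNL63
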