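import Pool.Agent.SNL63.TeDefs
import Pool.Agent.SNL63.EnGeo
import Pool.Agent.SNL63.EnSine

/-!
The correlations of a network whose truncated energies for small lags are almost minimal, and whose
displacements have a small mean excess over the truncation.
-/

namespace Pool.Agent.SNL63

open Pool.Agent.SN8 MeasureTheory Set Filter Topology
open scoped ENNReal Real

/-- the truncation of a number to `[-c, c]` -/
noncomputable def clipT (c y : ℝ) : ℝ := max (-c) (min y c)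

theorem clipT_lip (c y z : ℝ) : |clipT c y - clipT c z| ≤ |y - z| := by
  unfold clipT
  have h1 := abs_max_sub_max_le_max (-c) (min y c) (-c) (min z c)
  have h2 := abs_min_sub_min_le_max y c z c
  rw [sub_self (-c), abs_zero, max_eq_right (abs_nonneg (min y c - min z c))] at h1
  rw [sub_self c, abs_zero, max_eq_left (abs_nonneg (y - z))] at h2
  exact h1.trans h2

theorem clipT_of {c y : ℝ} (h : |y| ≤ c) : clipT c y = y := by
  obtain ⟨h1, h2⟩ := abs_le.1 h
  unfold clipT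
  rw [min_eq_left h2, max_eq_right h1]

theorem clipT_abs_le {c : ℝ} (hc : 0 ≤ c) (y : ℝ) : |clipT c y| ≤ c := by
  unfold clipT
  rw [abs_le]
  refine ⟨le_max_left _ _, max_le (by linarith) (min_le_right _ _)⟩

theorem clipT_sq {c : ℝ} (hc : 0 ≤ c) (y : ℝ) : clipT c y ^ 2 = min (y ^ 2) (c ^ 2) := by
  unfold clipT
  rcases le_total y c with h | h
  · rw [min_eq_left h]
    rcases le_total (-c) y with h1 | h1
    · rw [max_eq_right h1, min_eq_left]
      nlinarith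
    · rw [max_eq_left h1, min_eq_right]
      · ring
      · nlinarith
  · rw [min_eq_right h, max_eq_right (by linarith), min_eq_right]
    nlinarith

theorem clipT_sub {c : ℝ} (hc : 0 ≤ c) (y : ℝ) : |y - clipT c y| = max (|y| - c) 0 := by
  unfold clipT
  rcases le_total y c with h | h
  · rw [min_eq_left h]
    rcases le_total (-c) y with h1 | h1
    · rw [max_eq_right h1, sub_self, abs_zero, max_eq_right]
      have := abs_le.2 ⟨h1, h⟩
      linarith
    · rw [max_eq_left h1, abs_of_nonpos (by linarith : y - -c ≤ 0), abs_of_nonpos (by linarith : y ≤ 0),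
        max_eq_left (by linarith)]
      ring
  · rw [min_eq_right h, max_eq_right (by linarith), abs_of_nonneg (by linarith : 0 ≤ y - c),
      abs_of_nonneg (by linarith : 0 ≤ y), max_eq_left (by linarith)]

/-- the vector of a function -/
noncomputable def fvec (n : ℕ) (h : ℕ → ℝ) : EuclideanSpace ℝ (Finset.Icc 1 n) :=
  WithLp.toLp 2 (fun x => h x / √n)

theorem norm_fvec_sub {n : ℕ} (hn : 1 ≤ n) (f g : ℕ → ℝ) :
    ‖fvec n f - fvec n g‖ ^ 2 = (∑ x ∈ Finset.Icc 1 n, (f x - g x) ^ 2) / n := by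
  have hn0 : (0 : ℝ) < n := by exact_mod_cast hn
  rw [EuclideanSpace.real_norm_sq_eq, ← Finset.sum_coe_sort (Finset.Icc 1 n) (fun x => (f x - g x) ^ 2),
    Finset.sum_div]
  refine Finset.sum_congr rfl fun x _ => ?_
  simp only [fvec, PiLp.sub_apply]
  rw [← sub_div, div_pow, Real.sq_sqrt hn0.le]

theorem evec_eq (n : ℕ) (k : List ℕ) (i : ℕ) : evec n k i = fvec n (pos n k i) := rfl

theorem angle_le_arcsin {E : Type*} [NormedAddCommGroup E] [InnerProductSpace ℝ E] {u v : E} {r d : ℝ}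
    (hr : 0 < r) (hu : r ≤ ‖u‖) (hv : r ≤ ‖v‖) (hd : ‖u - v‖ ≤ d) :
    InnerProductGeometry.angle u v ≤ 2 * Real.arcsin (d / (2 * r)) := by
  obtain ⟨θ, hθ⟩ : ∃ θ : ℝ, θ = InnerProductGeometry.angle u v := ⟨_, rfl⟩
  have h0 := InnerProductGeometry.angle_nonneg u v
  have h1 := InnerProductGeometry.angle_le_pi u v
  have h2 := InnerProductGeometry.cos_angle_mul_norm_mul_norm u v
  have h3 := norm_sub_sq_real u v
  rw [← hθ] at h0 h1 h2 ⊢
  have hd0 : 0 ≤ d := (norm_nonneg _).trans hd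
  have hpi := Real.pi_pos
  have h4 : Real.cos θ = 1 - 2 * Real.sin (θ / 2) ^ 2 := by
    have h4 := Real.cos_two_mul (θ / 2)
    have h5 := Real.sin_sq_add_cos_sq (θ / 2)
    rw [show 2 * (θ / 2) = θ by ring] at h4
    linarith
  have hs : 0 ≤ Real.sin (θ / 2) := Real.sin_nonneg_of_nonneg_of_le_pi (by linarith) (by linarith)
  have h5 : (2 * r * Real.sin (θ / 2)) ^ 2 ≤ d ^ 2 := by
    have g1 : ‖u - v‖ ^ 2 ≤ d ^ 2 := pow_le_pow_left₀ (norm_nonneg _) hd 2
    rw [h3, ← h2, h4] at g1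
    have g2 : r * r ≤ ‖u‖ * ‖v‖ := mul_le_mul hu hv hr.le (norm_nonneg _)
    have g3 : 0 ≤ (‖u‖ * ‖v‖ - r * r) * Real.sin (θ / 2) ^ 2 := mul_nonneg (by linarith) (sq_nonneg _)
    nlinarith [sq_nonneg (‖u‖ - ‖v‖)]
  have h6 : 2 * r * Real.sin (θ / 2) ≤ d := by
    by_contra hcon
    have := not_le.1 hcon
    nlinarith
  have h7 : Real.sin (θ / 2) ≤ d / (2 * r) := by
    rw [le_div_iff₀ (by positivity)]
    linarith
  have h8 := Real.monotone_arcsin h7
  rw [Real.arcsin_sin (by linarith) (by linarith)] at h8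
  linarith

/-- the places after the start `i`, moved on by truncated steps of `q` swaps -/
noncomputable def fT (n : ℕ) (k : List ℕ) (c : ℝ) (i q : ℕ) : ℕ → ℕ → ℝ
  | 0, x => pos n k i x
  | m + 1, x => fT n k c i q m x + clipT c (pos n k (i + m * q + q) x - pos n k (i + m * q) x)

/-- the same, truncated to `[-1, 1]` -/
noncomputable def gT (n : ℕ) (k : List ℕ) (c : ℝ) (i q m x : ℕ) : ℝ := clipT 1 (fT n k c i q m x)

theorem gT_zero {n : ℕ} {k : List ℕ} (hk : IsNetwork n k) (c : ℝ) (i q : ℕ) {x : ℕ} (hx : x ∈ Finset.Icc 1 n) :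
    gT n k c i q 0 x = pos n k i x := clipT_of (abs_pos_le hk i hx)

theorem gT_step (n : ℕ) (k : List ℕ) {c : ℝ} (hc : 0 ≤ c) (i q m x : ℕ) :
    (gT n k c i q (m + 1) x - gT n k c i q m x) ^ 2 ≤
      min ((pos n k (i + m * q + q) x - pos n k (i + m * q) x) ^ 2) (c ^ 2) := by
  rw [← clipT_sq hc, ← sq_abs, ← sq_abs (clipT c _)]
  refine pow_le_pow_left₀ (abs_nonneg _) ?_ 2
  refine (clipT_lip _ _ _).trans (le_of_eq ?_)
  rw [fT]
  congr 1
  ring

theorem fT_dist (n : ℕ) (k : List ℕ) {c : ℝ} (hc : 0 ≤ c) (i q x : ℕ) : ∀ m : ℕ,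
    |fT n k c i q m x - pos n k (i + m * q) x| ≤
      ∑ l ∈ Finset.range m, max (|pos n k (i + l * q + q) x - pos n k (i + l * q) x| - c) 0 := by
  intro m
  induction m with
  | zero => simp [fT]
  | succ m ih =>
    rw [Finset.sum_range_succ, ← clipT_sub hc, fT, show i + (m + 1) * q = i + m * q + q by ring]
    obtain ⟨y, hy⟩ : ∃ y : ℝ, y = clipT c (pos n k (i + m * q + q) x - pos n k (i + m * q) x) := ⟨_, rfl⟩
    rw [← hy]
    have h1 : fT n k c i q m x + y - pos n k (i + m * q + q) x =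
        (fT n k c i q m x - pos n k (i + m * q) x) -
          (pos n k (i + m * q + q) x - pos n k (i + m * q) x - y) := by ring
    rw [h1]
    exact (abs_sub _ _).trans (add_le_add ih le_rfl)

theorem gT_dist {n : ℕ} {k : List ℕ} (hk : IsNetwork n k) {c : ℝ} (hc : 0 ≤ c) (i q m : ℕ) {x : ℕ}
    (hx : x ∈ Finset.Icc 1 n) :
    (gT n k c i q m x - pos n k (i + m * q) x) ^ 2 ≤
      2 * ∑ l ∈ Finset.range m, max (|pos n k (i + l * q + q) x - pos n k (i + l * q) x| - c) 0 := by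
  have h1 := abs_pos_le hk (i + m * q) hx
  have h2 : |gT n k c i q m x| ≤ 1 := clipT_abs_le zero_le_one _
  have h3 : |gT n k c i q m x - pos n k (i + m * q) x| ≤ |fT n k c i q m x - pos n k (i + m * q) x| := by
    have := clipT_lip 1 (fT n k c i q m x) (pos n k (i + m * q) x)
    rw [clipT_of h1] at this
    exact this
  have h4 := fT_dist n k hc i q x m
  have h5 : |gT n k c i q m x - pos n k (i + m * q) x| ≤ 2 := (abs_sub _ _).trans (by linarith)
  have h6 := abs_nonneg (gT n k c i q m x - pos n k (i + m * q) x)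
  rw [← sq_abs]
  nlinarith

theorem norm_gT_step {n : ℕ} (hn : 1 ≤ n) (k : List ℕ) {c : ℝ} (hc : 0 ≤ c) (i q m : ℕ) :
    ‖fvec n (gT n k c i q (m + 1)) - fvec n (gT n k c i q m)‖ ^ 2 ≤ TE n k c (i + m * q) (i + m * q + q) := by
  rw [norm_fvec_sub hn]
  unfold TE
  gcongr with x hx
  exact gT_step n k hc i q m x

theorem norm_gT_dist {n : ℕ} (hn : 1 ≤ n) {k : List ℕ} (hk : IsNetwork n k) {c : ℝ} (hc : 0 ≤ c) (i q m : ℕ) :
    ‖fvec n (gT n k c i q m) - evec n k (i + m * q)‖ ^ 2 ≤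
      2 * ∑ l ∈ Finset.range m, XE n k c (i + l * q) (i + l * q + q) := by
  rw [evec_eq, norm_fvec_sub hn]
  have h1 : 2 * ∑ l ∈ Finset.range m, XE n k c (i + l * q) (i + l * q + q) =
      (∑ x ∈ Finset.Icc 1 n, 2 * ∑ l ∈ Finset.range m,
        max (|pos n k (i + l * q + q) x - pos n k (i + l * q) x| - c) 0) / n := by
    unfold XE
    rw [← Finset.mul_sum, Finset.sum_comm, ← Finset.sum_div, mul_div_assoc]
  rw [h1]
  gcongr with x hx
  exact gT_dist hk hc i q m hx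

/-- the bound for the angle between two times -/
theorem ang_upper2 {n : ℕ} (hn : 1 ≤ n) {k : List ℕ} (hk : IsNetwork n k) {t c b δ r : ℝ} (ht : 0 < t)
    (hc : 0 ≤ c) (hδ : 0 ≤ δ) (hb : 0 ≤ b) (hq : 0 < sw_ n t)
    (hE : ∀ i : ℕ, i + sw_ n t ≤ n.choose 2 → TE n k c i (i + sw_ n t) ≤ b * t ^ 2)
    (hX : ∀ i : ℕ, i + sw_ n t ≤ n.choose 2 → XE n k c i (i + sw_ n t) ≤ δ * t)
    (hr0 : 0 < r) (hr : r = √(SS n) - √(4 * δ)) {i j : ℕ} (hij : i ≤ j)
    (hj : j ≤ n.choose 2) :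
    ang n k i j ≤ ((j : ℝ) - i) / (n.choose 2 : ℝ) * (((n.choose 2 : ℝ) * t) / (sw_ n t : ℝ)) *
      (2 * Real.arcsin (t * √b / (2 * r)) / t) + 2 * Real.arcsin (√(4 * δ) / (2 * r)) +
        2 * Real.arcsin (√(4 * t / (4 * SS n))) := by
  obtain ⟨q, hq'⟩ : ∃ q : ℕ, q = sw_ n t := ⟨_, rfl⟩
  rw [← hq'] at hE hX hq ⊢
  obtain ⟨α, hα⟩ : ∃ α : ℝ, α = 2 * Real.arcsin (t * √b / (2 * r)) := ⟨_, rfl⟩
  rw [← hα]
  have hα0 : 0 ≤ α := by
    rw [hα]
    have : 0 ≤ Real.arcsin (t * √b / (2 * r)) := Real.arcsin_nonneg.2 (by positivity)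
    linarith
  have hqN : (q : ℝ) ≤ (n.choose 2 : ℝ) * t := by
    rw [hq']
    exact Nat.floor_le (by positivity)
  have hq1 : (1 : ℝ) ≤ q := by exact_mod_cast hq
  have hq0 : (0 : ℝ) < q := by linarith
  have hNq : (n.choose 2 : ℝ) * t ≤ 2 * q := by
    have h1 : (n.choose 2 : ℝ) * t < q + 1 := by
      rw [hq']
      exact Nat.lt_floor_add_one _
    linarith
  have hN0 : (0 : ℝ) < n.choose 2 := by
    by_contra hcon
    have h3 : (n.choose 2 : ℝ) * t ≤ 0 := mul_nonpos_of_nonpos_of_nonneg (not_lt.1 hcon) ht.le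
    linarith
  obtain ⟨m, s, hs, hmr⟩ : ∃ m s : ℕ, s < q ∧ j = i + m * q + s := by
    refine ⟨(j - i) / q, (j - i) % q, Nat.mod_lt _ hq, ?_⟩
    have := Nat.div_add_mod' (j - i) q
    omega
  -- the vectors
  obtain ⟨G, hG⟩ : ∃ G : ℕ → EuclideanSpace ℝ (Finset.Icc 1 n), G = fun m => fvec n (gT n k c i q m) := ⟨_, rfl⟩
  have hG0 : G 0 = evec n k i := by
    have h1 : ‖G 0 - evec n k i‖ ^ 2 = 0 := by
      rw [hG, evec_eq, norm_fvec_sub hn]
      rw [Finset.sum_eq_zero, zero_div]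
      intro x hx
      rw [gT_zero hk c i q hx, sub_self]
      ring
    have h2 : ‖G 0 - evec n k i‖ = 0 := by
      rwa [sq_eq_zero_iff] at h1
    exact sub_eq_zero.1 (norm_eq_zero.1 h2)
  have hGd : ∀ l ≤ m, ‖G l - evec n k (i + l * q)‖ ≤ √(4 * δ) := by
    intro l hl
    refine Real.le_sqrt_of_sq_le ?_
    rw [hG]
    refine (norm_gT_dist hn hk hc i q l).trans ?_
    have hlm : l * q ≤ m * q := Nat.mul_le_mul_right q hl
    have h1 : ∑ l' ∈ Finset.range l, XE n k c (i + l' * q) (i + l' * q + q) ≤ l * (δ * t) := by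
      have h2 := Finset.sum_le_card_nsmul (Finset.range l) (fun l' => XE n k c (i + l' * q) (i + l' * q + q))
        (δ * t) (fun l' hl' => by
          refine hX _ ?_
          have h3 : (l' + 1) * q ≤ l * q := Nat.mul_le_mul_right q (Finset.mem_range.1 hl')
          have h4 : (l' + 1) * q = l' * q + q := by ring
          omega)
      rwa [Finset.card_range, nsmul_eq_mul] at h2
    have h2 : (l : ℝ) * t ≤ 2 := by
      have h3 : (l : ℝ) * q ≤ n.choose 2 := by
        have h4 : l * q ≤ n.choose 2 := by omega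
        exact_mod_cast h4
      have h4 : (n.choose 2 : ℝ) * (l * t) ≤ (n.choose 2 : ℝ) * 2 := by
        have h5 : (l : ℝ) * ((n.choose 2 : ℝ) * t) ≤ l * (2 * q) := mul_le_mul_of_nonneg_left hNq (by positivity)
        nlinarith
      exact le_of_mul_le_mul_left h4 hN0
    nlinarith [mul_le_mul_of_nonneg_right h2 hδ]
  have hGr : ∀ l ≤ m, r ≤ ‖G l‖ := by
    intro l hl
    have hlm : l * q ≤ m * q := Nat.mul_le_mul_right q hl
    have h1 := hGd l hl
    have h2 := norm_evec hn hk (i := i + l * q) (by omega)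
    have h3 := norm_sub_norm_le (evec n k (i + l * q)) (G l)
    rw [norm_sub_rev] at h3
    rw [hr]
    linarith
  have hGs : ∀ l < m, InnerProductGeometry.angle (G l) (G (l + 1)) ≤ α := by
    intro l hl
    have hlm : (l + 1) * q ≤ m * q := Nat.mul_le_mul_right q hl
    have e1 : (l + 1) * q = l * q + q := by ring
    rw [hα]
    refine angle_le_arcsin hr0 (hGr l hl.le) (hGr (l + 1) hl) ?_
    rw [norm_sub_rev]
    have h1 : ‖G (l + 1) - G l‖ ^ 2 ≤ b * t ^ 2 := by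
      rw [hG]
      exact (norm_gT_step hn k hc i q l).trans (hE _ (by omega))
    have h2 : ‖G (l + 1) - G l‖ ≤ √(b * t ^ 2) := Real.le_sqrt_of_sq_le h1
    rw [Real.sqrt_mul hb, Real.sqrt_sq ht.le] at h2
    linarith
  have hch : ∀ l ≤ m, InnerProductGeometry.angle (G 0) (G l) ≤ l * α := by
    intro l
    induction l with
    | zero =>
      intro _
      have h1 : G 0 ≠ 0 := by
        intro h0
        have h2 := hGr 0 (Nat.zero_le _)
        rw [h0, norm_zero] at h2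
        linarith
      rw [InnerProductGeometry.angle_self h1]
      simp
    | succ l ih =>
      intro hl
      have h1 := ih (by omega)
      have h2 := hGs l (by omega)
      have h3 := InnerProductGeometry.angle_le_angle_add_angle (G 0) (G l) (G (l + 1))
      push_cast
      linarith
  have h1 : ang n k i (i + m * q) ≤ m * α + 2 * Real.arcsin (√(4 * δ) / (2 * r)) := by
    rw [ang_eq hn hk (by omega) (by omega)]
    have g1 := InnerProductGeometry.angle_le_angle_add_angle (evec n k i) (G m) (evec n k (i + m * q))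
    have g2 := hch m le_rfl
    rw [hG0] at g2
    have g3 : r ≤ ‖evec n k (i + m * q)‖ := by
      rw [norm_evec hn hk (by omega), hr]
      linarith [Real.sqrt_nonneg (4 * δ)]
    have g4 := angle_le_arcsin hr0 (hGr m le_rfl) g3 (hGd m le_rfl)
    linarith
  have h2 : ang n k (i + m * q) j ≤ 2 * Real.arcsin (√(4 * t / (4 * SS n))) := by
    refine ang_le hn hk (by omega) hj ?_
    refine (EE_le hn hk (by omega) hj).trans ?_
    have g1 : ((j : ℝ) - ((i + m * q : ℕ) : ℝ)) ≤ (n.choose 2 : ℝ) * t := by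
      have g2 : ((j : ℝ) - ((i + m * q : ℕ) : ℝ)) = s := by
        rw [hmr]
        push_cast
        ring
      rw [g2]
      have g3 : (s : ℝ) ≤ q := by exact_mod_cast hs.le
      exact g3.trans hqN
    have g2 : (n.choose 2 : ℝ) ≤ (n : ℝ) ^ 2 / 2 := by
      rw [Nat.cast_choose_two]
      nlinarith [show (0 : ℝ) ≤ n by positivity]
    have hn0 : (0 : ℝ) < n := by exact_mod_cast hn
    rw [div_le_iff₀ (by positivity)]
    nlinarith [mul_le_mul_of_nonneg_right g2 ht.le]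
  have h3 := ang_tri hn hk (i := i) (j := i + m * q) (l := j) (by omega) (by omega) hj
  have h4 : (m : ℝ) * α ≤ ((j : ℝ) - i) / (n.choose 2 : ℝ) * (((n.choose 2 : ℝ) * t) / (q : ℝ)) * (α / t) := by
    have g1 : ((j : ℝ) - i) / (n.choose 2 : ℝ) * (((n.choose 2 : ℝ) * t) / (q : ℝ)) * (α / t) =
        (((j : ℝ) - i) / q) * α := by
      field_simp
    rw [g1]
    refine mul_le_mul_of_nonneg_right ?_ hα0
    rw [le_div_iff₀ hq0]
    have g2 : (j : ℝ) = i + m * q + s := by exact_mod_cast hmr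
    have g3 : (0 : ℝ) ≤ s := by positivity
    linarith
  linarith

theorem geo_limit2 (𝓕 : Filter ℕ) [𝓕.NeBot] {n : ℕ → ℕ} {k : ℕ → List ℕ} {t e c δ : ℕ → ℝ}
    (hn : Tendsto n 𝓕 atTop) (hk : ∀ J, IsNetwork (n J) (k J)) (ht0 : ∀ J, 0 < t J)
    (ht : Tendsto t 𝓕 (𝓝 0)) (he0 : ∀ J, 0 ≤ e J) (he : Tendsto e 𝓕 (𝓝 0)) (hδ : Tendsto δ 𝓕 (𝓝 0))
    (hc : ∀ J, 0 ≤ c J) (hnt : Tendsto (fun J => (n J : ℝ) * t J) 𝓕 atTop)
    (hE : ∀ J, ∀ i : ℕ, i + sw_ (n J) (t J) ≤ (n J).choose 2 →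
      TE (n J) (k J) (c J) i (i + sw_ (n J) (t J)) ≤ (π ^ 2 / 3 + e J) * t J ^ 2)
    (hX : ∀ J, ∀ i : ℕ, i + sw_ (n J) (t J) ≤ (n J).choose 2 →
      XE (n J) (k J) (c J) i (i + sw_ (n J) (t J)) ≤ δ J * t J)
    {i j : ℕ → ℕ} {a b : ℝ} (hij : ∀ J, i J ≤ j J) (hj : ∀ J, j J ≤ (n J).choose 2)
    (hia : Tendsto (fun J => (i J : ℝ) / ((n J).choose 2 : ℝ)) 𝓕 (𝓝 a))
    (hjb : Tendsto (fun J => (j J : ℝ) / ((n J).choose 2 : ℝ)) 𝓕 (𝓝 b)) :
    Tendsto (fun J => KK (n J) (k J) (i J) (j J)) 𝓕 (𝓝 (1 / 3 * Real.cos (π * (b - a)))) := by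
  have hpi := Real.pi_pos
  have hS := tendsto_SS 𝓕 hn
  have hn1 : ∀ᶠ J in 𝓕, 1 ≤ n J := hn.eventually_ge_atTop 1
  have hn2 : ∀ᶠ J in 𝓕, 2 ≤ n J := hn.eventually_ge_atTop 2
  -- the number of swaps of a step
  have hNt : Tendsto (fun J => ((n J).choose 2 : ℝ) * t J) 𝓕 atTop := by
    refine tendsto_atTop_mono' 𝓕 ?_ (hnt.const_mul_atTop (show (0 : ℝ) < 1 / 4 by norm_num))
    filter_upwards [hn2] with J hJ
    rw [Nat.cast_choose_two]
    have h1 : (2 : ℝ) ≤ n J := by exact_mod_cast hJ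
    have h2 := ht0 J
    have h3 : (0 : ℝ) ≤ (n J : ℝ) * t J := by positivity
    nlinarith [mul_nonneg h3 (show (0 : ℝ) ≤ n J - 2 by linarith)]
  have hq1 : ∀ᶠ J in 𝓕, 0 < sw_ (n J) (t J) := by
    filter_upwards [hNt.eventually_ge_atTop 1] with J hJ
    exact Nat.floor_pos.2 hJ
  have hqlim : Tendsto (fun J => (((n J).choose 2 : ℝ) * t J) / (sw_ (n J) (t J) : ℝ)) 𝓕 (𝓝 1) := by
    have h1 : Tendsto (fun J => ((⌊((n J).choose 2 : ℝ) * t J⌋₊ : ℕ) : ℝ) / (((n J).choose 2 : ℝ) * t J)) 𝓕 (𝓝 1) :=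
      (tendsto_nat_floor_div_atTop (R := ℝ)).comp hNt
    have h2 : Tendsto (fun J => (((⌊((n J).choose 2 : ℝ) * t J⌋₊ : ℕ) : ℝ) / (((n J).choose 2 : ℝ) * t J))⁻¹) 𝓕
        (𝓝 (1 : ℝ)) := by
      have h3 := h1.inv₀ one_ne_zero
      rwa [_root_.inv_one] at h3
    refine h2.congr fun J => ?_
    rw [inv_div]
    rfl
  -- the radius
  obtain ⟨r, hr⟩ : ∃ r : ℕ → ℝ, r = fun J => √(SS (n J)) - √(4 * |δ J|) := ⟨_, rfl⟩
  have hδ' : Tendsto (fun J => √(4 * |δ J|)) 𝓕 (𝓝 0) := by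
    have h1 : Tendsto (fun J => 4 * |δ J|) 𝓕 (𝓝 (4 * |0|)) := (hδ.abs).const_mul 4
    have h2 := (Real.continuous_sqrt.tendsto _).comp h1
    rw [abs_zero, mul_zero, Real.sqrt_zero] at h2
    exact h2
  have hrlim : Tendsto r 𝓕 (𝓝 (√(1 / 3))) := by
    have h1 := ((Real.continuous_sqrt.tendsto _).comp hS).sub hδ'
    rw [sub_zero] at h1
    rw [hr]
    exact h1
  have h3pos : 0 < √(1 / 3 : ℝ) := Real.sqrt_pos.2 (by norm_num)
  have hr0 : ∀ᶠ J in 𝓕, 0 < r J := hrlim.eventually (lt_mem_nhds h3pos)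
  -- the angle of a step
  have hβ : Tendsto (fun J => √(π ^ 2 / 3 + e J) / (2 * r J)) 𝓕 (𝓝 (π / 2)) := by
    have h1 : Tendsto (fun J => π ^ 2 / 3 + e J) 𝓕 (𝓝 (π ^ 2 / 3 + 0)) := he.const_add _
    have h2 := ((Real.continuous_sqrt.tendsto _).comp h1).div (hrlim.const_mul 2) (by positivity)
    have h3 : √(π ^ 2 / 3 + 0) / (2 * √(1 / 3)) = π / 2 := by
      rw [add_zero, show π ^ 2 / 3 = π ^ 2 * (1 / 3) by ring, Real.sqrt_mul (by positivity),
        Real.sqrt_sq hpi.le]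
      field_simp
    rw [h3] at h2
    exact h2
  have hβ0 : ∀ᶠ J in 𝓕, 0 < √(π ^ 2 / 3 + e J) / (2 * r J) := by
    filter_upwards [hr0] with J hJ
    have h1 := he0 J
    have h2 : 0 < √(π ^ 2 / 3 + e J) := Real.sqrt_pos.2 (by positivity)
    positivity
  have hslope : Tendsto (fun y : ℝ => y⁻¹ * Real.arcsin y) (𝓝[≠] 0) (𝓝 1) := by
    have h1 := Real.hasDerivAt_arcsin (x := 0) (by norm_num) (by norm_num)
    rw [hasDerivAt_iff_tendsto_slope_zero] at h1
    simpa using h1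
  have hα : Tendsto (fun J => 2 * Real.arcsin (t J * √(π ^ 2 / 3 + e J) / (2 * r J)) / t J) 𝓕 (𝓝 π) := by
    have h1 : Tendsto (fun J => t J * (√(π ^ 2 / 3 + e J) / (2 * r J))) 𝓕 (𝓝[≠] 0) := by
      rw [tendsto_nhdsWithin_iff]
      refine ⟨?_, ?_⟩
      · have := ht.mul hβ
        rwa [zero_mul] at this
      · filter_upwards [hβ0] with J hJ
        exact (mul_pos (ht0 J) hJ).ne'
    have h2 := ((hslope.comp h1).mul hβ).const_mul 2
    rw [one_mul, show 2 * (π / 2) = π by ring] at h2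
    refine h2.congr' ?_
    filter_upwards [hβ0] with J hJ
    have g1 := ht0 J
    obtain ⟨β, hβ'⟩ : ∃ β : ℝ, β = √(π ^ 2 / 3 + e J) / (2 * r J) := ⟨_, rfl⟩
    have e1 : t J * √(π ^ 2 / 3 + e J) / (2 * r J) = t J * β := by rw [hβ', mul_div_assoc]
    rw [e1]
    simp only [Function.comp]
    rw [← hβ'] at hJ ⊢
    clear hβ' e1
    field_simp
  -- the rest
  have hω : Tendsto (fun J => 2 * Real.arcsin (√(4 * t J / (4 * SS (n J))))) 𝓕 (𝓝 0) := by
    have h1 : Tendsto (fun J => 4 * t J / (4 * SS (n J))) 𝓕 (𝓝 (4 * 0 / (4 * (1 / 3)))) :=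
      (ht.const_mul 4).div (hS.const_mul 4) (by norm_num)
    have h2 := ((Real.continuous_arcsin.comp Real.continuous_sqrt).tendsto _).comp h1
    have h3 := h2.const_mul 2
    simpa using h3
  have hω2 : Tendsto (fun J => 2 * Real.arcsin (√(4 * |δ J|) / (2 * r J))) 𝓕 (𝓝 0) := by
    have h1 : Tendsto (fun J => √(4 * |δ J|) / (2 * r J)) 𝓕 (𝓝 (0 / (2 * √(1 / 3)))) :=
      hδ'.div (hrlim.const_mul 2) (by positivity)
    have h2 := ((Real.continuous_arcsin.tendsto _).comp h1).const_mul 2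
    rw [zero_div, Real.arcsin_zero, mul_zero] at h2
    exact h2
  have hN : Tendsto (fun J => (((n J).choose 2 : ℕ) : ℝ) / ((n J).choose 2 : ℝ)) 𝓕 (𝓝 1) := by
    refine tendsto_const_nhds.congr' ?_
    filter_upwards [hn2] with J hJ
    have : (0 : ℝ) < (n J).choose 2 := by exact_mod_cast Nat.choose_pos hJ
    rw [div_self this.ne']
  -- upper bounds
  have key : ∀ (i j : ℕ → ℕ) (a b : ℝ), (∀ J, i J ≤ j J) → (∀ J, j J ≤ (n J).choose 2) →
      Tendsto (fun J => (i J : ℝ) / ((n J).choose 2 : ℝ)) 𝓕 (𝓝 a) →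
      Tendsto (fun J => (j J : ℝ) / ((n J).choose 2 : ℝ)) 𝓕 (𝓝 b) →
      ∃ u : ℕ → ℝ, Tendsto u 𝓕 (𝓝 (π * (b - a))) ∧ ∀ᶠ J in 𝓕, ang (n J) (k J) (i J) (j J) ≤ u J := by
    intro i j a b hij hj hia hjb
    refine ⟨fun J => ((j J : ℝ) - i J) / ((n J).choose 2 : ℝ) *
      ((((n J).choose 2 : ℝ) * t J) / (sw_ (n J) (t J) : ℝ)) *
      (2 * Real.arcsin (t J * √(π ^ 2 / 3 + e J) / (2 * r J)) / t J) +
      2 * Real.arcsin (√(4 * |δ J|) / (2 * r J)) +
      2 * Real.arcsin (√(4 * t J / (4 * SS (n J)))), ?_, ?_⟩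
    · have h1 := ((((hjb.sub hia).mul hqlim).mul hα).add hω2).add hω
      rw [mul_one, add_zero, add_zero, mul_comm] at h1
      refine h1.congr fun J => ?_
      rw [sub_div]
    · filter_upwards [hn1, hq1, hr0] with J hJ hq hrJ
      have hb : (0 : ℝ) ≤ π ^ 2 / 3 + e J := by
        have := he0 J
        positivity
      refine ang_upper2 hJ (hk J) (ht0 J) (hc J) (abs_nonneg (δ J)) hb hq (hE J) (fun i' hi' => ?_) hrJ
        (by rw [hr]) (hij J) (hj J)
      exact (hX J i' hi').trans (mul_le_mul_of_nonneg_right (le_abs_self _) (ht0 J).le)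
  obtain ⟨u, hu, hu'⟩ := key i j a b hij hj hia hjb
  obtain ⟨v, hv, hv'⟩ := key (fun _ => 0) i 0 a (fun J => Nat.zero_le _) (fun J => (hij J).trans (hj J))
    (by simp) hia
  obtain ⟨w, hw, hw'⟩ := key j (fun J => (n J).choose 2) b 1 hj (fun J => le_rfl) hjb hN
  have hends : Tendsto (fun J => ang (n J) (k J) 0 ((n J).choose 2)) 𝓕 (𝓝 π) := by
    have h0 : Tendsto (fun J => (n J : ℝ)) 𝓕 atTop := tendsto_natCast_atTop_atTop.comp hn
    have h1 : Tendsto (fun x : ℝ => 4 / (3 * x ^ 2)) atTop (𝓝 0) := by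
      refine Tendsto.const_div_atTop ?_ _
      exact (tendsto_pow_atTop (by norm_num)).const_mul_atTop (by norm_num)
    have h2 : Tendsto (fun J => -(1 / 3) + 4 / (3 * (n J : ℝ) ^ 2)) 𝓕 (𝓝 (-(1 / 3) + 0)) :=
      (h1.comp h0).const_add _
    have h3 := (Real.continuous_arccos.tendsto _).comp (h2.div hS (by norm_num))
    rw [show (-(1 / 3) + 0 : ℝ) / (1 / 3) = -1 by norm_num, Real.arccos_neg_one] at h3
    refine h3.congr' ?_
    filter_upwards [hn1] with J hJ
    unfold ang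
    rw [KK_ends hJ (hk J)]
    rfl
  have hang : Tendsto (fun J => ang (n J) (k J) (i J) (j J)) 𝓕 (𝓝 (π * (b - a))) := by
    have h1 : Tendsto (fun J => ang (n J) (k J) 0 ((n J).choose 2) - v J - w J) 𝓕 (𝓝 (π * (b - a))) := by
      have h2 := (hends.sub hv).sub hw
      rw [show π - π * (a - 0) - π * (1 - b) = π * (b - a) by ring] at h2
      exact h2
    refine tendsto_of_tendsto_of_tendsto_of_le_of_le' h1 hu ?_ hu'
    filter_upwards [hn1, hv', hw'] with J hJ h2 h3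
    have h4 := ang_tri hJ (hk J) (i := 0) (j := i J) (l := (n J).choose 2) (Nat.zero_le _)
      ((hij J).trans (hj J)) le_rfl
    have h5 := ang_tri hJ (hk J) (i := i J) (j := j J) (l := (n J).choose 2) ((hij J).trans (hj J)) (hj J) le_rfl
    linarith
  have h1 := hS.mul ((Real.continuous_cos.tendsto _).comp hang)
  refine h1.congr' ?_
  filter_upwards [hn1] with J hJ
  exact cos_ang hJ (hk J) ((hij J).trans (hj J)) (hj J)

end Pool.Agent.SNL63
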