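import Pool.Agent.SNL63.TeDefs
import Pool.Agent.SNL63.EnProb

/-!
# Truncated energies, T2: the truncated energy at all shifts from the one at time zero
-/

namespace Pool.Agent.SNL63

open Pool.Agent.SN8 MeasureTheory Set Filter Topology
open scoped ENNReal Real

theorem integral_trunc {n : ℕ} (hn : 1 ≤ n) (k : List ℕ) (c t : ℝ) :
    ∫ p, min ((p.1 - p.2) ^ 2) (c ^ 2) ∂(eta n k t) = TE n k c 0 (sw_ n t) := by
  have _ := hn
  rw [eta, integral_smul_measure, integral_finsetSum_measure]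
  · simp only [integral_dirac, ENNReal.toReal_inv, ENNReal.toReal_natCast, smul_eq_mul]
    unfold TE
    rw [div_eq_inv_mul]
    congr 1
    refine Finset.sum_congr rfl fun x _ => ?_
    rw [glob_eq_pos, glob_eq_pos]
    have h0 : sw_ n 0 = 0 := by
      unfold sw_
      rw [mul_zero, Nat.floor_zero]
    rw [h0]
    congr 1
    ring
  · intro i _
    exact integrable_dirac (by finiteness)

theorem TE_rot {n : ℕ} {k : List ℕ} (hk : IsNetwork n k) (c : ℝ) {i q : ℕ} (hi : i + q ≤ n.choose 2) :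
    TE n (rotN n i k) c 0 q = TE n k c i (i + q) := by
  unfold TE
  congr 1
  rw [← sum_place (net_take hk i) (fun y => min ((pos n (rotN n i k) q y - pos n (rotN n i k) 0 y) ^ 2) (c ^ 2))]
  refine Finset.sum_congr rfl fun x _ => ?_
  have h1 : pos n (rotN n i k) 0 (place (k.take i) x) = pos n k i x := rfl
  have h2 : pos n (rotN n i k) q (place (k.take i) x) = pos n k (i + q) x := by
    unfold pos
    have e1 : (rotN n i k).take q = (k.drop i).take q := by
      unfold rotN
      rw [List.take_append_of_le_length]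
      rw [List.length_drop, hk.1]
      omega
    have e2 : place (k.take (i + q)) x = place ((k.drop i).take q) (place (k.take i) x) := by
      rw [place_take_take (k := k) (by omega : i ≤ i + q) x]
      congr 2
      omega
    rw [e1, e2]
  rw [h1, h2]

theorem prob_shift2 {n : ℕ} (hn : 2 ≤ n) (b c : ℝ) {t : ℝ} (ht : t ∈ Icc (0 : ℝ) 1) :
    prob n (fun k => ∃ i : ℕ, i + sw_ n t ≤ n.choose 2 ∧ b < TE n k c i (i + sw_ n t)) ≤
      (n : ℝ) ^ 2 * prob n (fun k => b < ∫ p, min ((p.1 - p.2) ^ 2) (c ^ 2) ∂(eta n k t)) := by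
  have _ := ht
  have hN2 : (n.choose 2 : ℝ) + 1 ≤ (n : ℝ) ^ 2 := by
    have hn0 : (2 : ℝ) ≤ n := by exact_mod_cast hn
    have hN : (n.choose 2 : ℝ) = n * (n - 1) / 2 := Nat.cast_choose_two ℝ n
    rw [hN]
    nlinarith
  calc prob n (fun k => ∃ i : ℕ, i + sw_ n t ≤ n.choose 2 ∧ b < TE n k c i (i + sw_ n t))
      ≤ prob n (fun k => ∃ i < n.choose 2 + 1,
          b < ∫ p, min ((p.1 - p.2) ^ 2) (c ^ 2) ∂(eta n (rotN n i k) t)) := by
        refine prob_mono ?_
        rintro k hk ⟨i, hi, hc⟩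
        refine ⟨i, by omega, ?_⟩
        rw [integral_trunc (by omega), TE_rot hk c hi]
        exact hc
    _ ≤ ((n.choose 2 : ℝ) + 1) * prob n (fun k => b < ∫ p, min ((p.1 - p.2) ^ 2) (c ^ 2) ∂(eta n k t)) :=
        prob_rot_union n (fun k => b < ∫ p, min ((p.1 - p.2) ^ 2) (c ^ 2) ∂(eta n k t))
    _ ≤ (n : ℝ) ^ 2 * prob n (fun k => b < ∫ p, min ((p.1 - p.2) ^ 2) (c ^ 2) ∂(eta n k t)) :=
        mul_le_mul_of_nonneg_right hN2 (prob_nonneg _ _)

end Pool.Agent.SNL63
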