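import Mathlib

/-!
# The truncated energy, from the speeds
-/

namespace Pool.Agent.SNL63

open MeasureTheory Set Filter Topology
open scoped ENNReal Real

theorem speed_min_sq {d t M : ℝ} (ht : 0 < t) (hM : 0 < M) :
    min (d ^ 2) ((M * t) ^ 2) = t ^ 2 * (min (|d| / t) M) ^ 2 := by
  have h1 : |d| / t * t = |d| := div_mul_cancel₀ _ ht.ne'
  rcases le_total (|d| / t) M with h | h
  · rw [min_eq_left h]
    have h2 : |d| ≤ M * t := by
      have := mul_le_mul_of_nonneg_right h ht.le
      rwa [h1] at this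
    have h3 : d ^ 2 ≤ (M * t) ^ 2 := by
      rw [← sq_abs d]
      exact pow_le_pow_left₀ (abs_nonneg d) h2 2
    rw [min_eq_left h3, ← mul_pow, mul_comm, h1, sq_abs]
  · rw [min_eq_right h]
    have h2 : M * t ≤ |d| := by
      have := mul_le_mul_of_nonneg_right h ht.le
      rwa [h1] at this
    have h3 : (M * t) ^ 2 ≤ d ^ 2 := by
      rw [← sq_abs d]
      exact pow_le_pow_left₀ (by positivity) h2 2
    rw [min_eq_right h3]
    ring

theorem speed_int1 : ∫⁻ l in Ioo (0 : ℝ) π, ENNReal.ofReal (2 * l * (1 - l / π)) = ENNReal.ofReal (π ^ 2 / 3) := by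
  rw [← ofReal_integral_eq_lintegral_ofReal]
  · rw [← integral_Ioc_eq_integral_Ioo, ← intervalIntegral.integral_of_le Real.pi_pos.le]
    congr 1
    have h1 : ∀ l ∈ uIcc 0 π, HasDerivAt (fun l : ℝ => l ^ 2 - 2 * l ^ 3 / (3 * π)) (2 * l * (1 - l / π)) l := by
      intro l _
      have h2 := (hasDerivAt_pow 2 l).sub (((hasDerivAt_pow 3 l).const_mul 2).div_const (3 * π))
      refine h2.congr_deriv ?_
      have := Real.pi_ne_zero
      push_cast
      field_simp
    rw [intervalIntegral.integral_eq_sub_of_hasDerivAt h1 (by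
      apply Continuous.intervalIntegrable
      fun_prop)]
    have := Real.pi_ne_zero
    field_simp
    ring
  · have h : Continuous (fun l : ℝ => 2 * l * (1 - l / π)) := by fun_prop
    exact (h.integrableOn_Icc (a := 0) (b := π)).mono_set Ioo_subset_Icc_self
  · filter_upwards [ae_restrict_mem measurableSet_Ioo] with l hl
    have h1 : l / π ≤ 1 := (div_le_one Real.pi_pos).2 hl.2.le
    have h2 : 0 ≤ l := hl.1.le
    have h3 : 0 ≤ 1 - l / π := by linarith
    positivity

theorem speed_int2 {M ε : ℝ} (hM : 0 < M) (hε : 0 ≤ ε) :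
    ∫⁻ l in Ioo (0 : ℝ) M, ENNReal.ofReal (2 * l * ε) = ENNReal.ofReal (ε * M ^ 2) := by
  rw [← ofReal_integral_eq_lintegral_ofReal]
  · rw [← integral_Ioc_eq_integral_Ioo, ← intervalIntegral.integral_of_le hM.le]
    congr 1
    have h1 : ∀ l ∈ uIcc 0 M, HasDerivAt (fun l : ℝ => ε * l ^ 2) (2 * l * ε) l := by
      intro l _
      have h2 := (hasDerivAt_pow 2 l).const_mul ε
      refine h2.congr_deriv ?_
      push_cast
      ring
    rw [intervalIntegral.integral_eq_sub_of_hasDerivAt h1 (by
      apply Continuous.intervalIntegrable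
      fun_prop)]
    ring
  · have h : Continuous (fun l : ℝ => 2 * l * ε) := by fun_prop
    exact (h.integrableOn_Icc (a := 0) (b := M)).mono_set Ioo_subset_Icc_self
  · filter_upwards [ae_restrict_mem measurableSet_Ioo] with l hl
    have h2 : 0 ≤ l := hl.1.le
    positivity

theorem trunc_of_speed {μ : Measure (ℝ × ℝ)} [IsProbabilityMeasure μ] {t M ε : ℝ} (ht : 0 < t) (hM : 0 < M)
    (hε : 0 ≤ ε)
    (h : ∀ l : ℝ, 0 ≤ l → μ {p | l * t < |p.1 - p.2|} ≤ ENNReal.ofReal (max (1 - l / π) 0 + ε)) :
    ∫ p, min ((p.1 - p.2) ^ 2) ((M * t) ^ 2) ∂μ ≤ (π ^ 2 / 3 + ε * M ^ 2) * t ^ 2 := by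
  have hnn : ∀ p : ℝ × ℝ, 0 ≤ min (|p.1 - p.2| / t) M := fun p => le_min (by positivity) hM.le
  have hlc := lintegral_comp_eq_lintegral_meas_lt_mul μ (f := fun p : ℝ × ℝ => min (|p.1 - p.2| / t) M)
    (g := fun l => 2 * l) (Eventually.of_forall hnn) (by fun_prop)
    (fun s _ => by
      apply Continuous.intervalIntegrable
      fun_prop)
    (by
      filter_upwards [ae_restrict_mem measurableSet_Ioi] with l hl
      have : (0 : ℝ) < l := hl
      positivity)
  have hsq : ∀ x : ℝ, ∫ l in (0 : ℝ)..x, 2 * l = x ^ 2 := by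
    intro x
    rw [intervalIntegral.integral_const_mul, integral_id]
    ring
  simp only [hsq] at hlc
  -- the right-hand side
  have hr : ∫⁻ l in Ioi (0 : ℝ), μ {p : ℝ × ℝ | l < min (|p.1 - p.2| / t) M} * ENNReal.ofReal (2 * l) ≤
      ENNReal.ofReal (π ^ 2 / 3 + ε * M ^ 2) := by
    have hb : ∀ l ∈ Ioi (0 : ℝ), μ {p : ℝ × ℝ | l < min (|p.1 - p.2| / t) M} * ENNReal.ofReal (2 * l) ≤
        (Ioo (0 : ℝ) π).indicator (fun l => ENNReal.ofReal (2 * l * (1 - l / π))) l +
          (Ioo (0 : ℝ) M).indicator (fun l => ENNReal.ofReal (2 * l * ε)) l := by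
      intro l hl
      have hl0 : (0 : ℝ) < l := hl
      by_cases hlM : l < M
      · have h1 : {p : ℝ × ℝ | l < min (|p.1 - p.2| / t) M} ⊆ {p | l * t < |p.1 - p.2|} := by
          intro p hp
          have h2 : l < |p.1 - p.2| / t := lt_of_lt_of_le hp (min_le_left _ _)
          exact (lt_div_iff₀ ht).1 h2
        have h2 := (measure_mono h1).trans (h l hl0.le)
        rw [indicator_of_mem (show l ∈ Ioo (0 : ℝ) M from ⟨hl0, hlM⟩)]
        refine (mul_le_mul_left h2 _).trans ?_
        by_cases hlp : l < π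
        · rw [indicator_of_mem (show l ∈ Ioo (0 : ℝ) π from ⟨hl0, hlp⟩)]
          have h3 : l / π ≤ 1 := (div_le_one Real.pi_pos).2 hlp.le
          rw [max_eq_left (by linarith), ← ENNReal.ofReal_mul (by linarith : 0 ≤ 1 - l / π + ε),
            ← ENNReal.ofReal_add (by
              have : 0 ≤ 1 - l / π := by linarith
              positivity) (by positivity)]
          apply ENNReal.ofReal_le_ofReal
          nlinarith
        · rw [indicator_of_notMem (by
            intro h5
            exact hlp h5.2)]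
          have h3 : 1 ≤ l / π := (one_le_div Real.pi_pos).2 (not_lt.1 hlp)
          rw [max_eq_right (by linarith), zero_add, zero_add, ← ENNReal.ofReal_mul hε]
          apply ENNReal.ofReal_le_ofReal
          nlinarith
      · have h1 : {p : ℝ × ℝ | l < min (|p.1 - p.2| / t) M} = ∅ := by
          ext p
          simp only [mem_ofPred_eq, mem_empty_iff_false, iff_false, not_lt]
          exact (min_le_right _ _).trans (not_lt.1 hlM)
        rw [h1, measure_empty, zero_mul]
        exact zero_le
    refine (setLIntegral_mono' measurableSet_Ioi hb).trans ?_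
    have hms : ∀ a : ℝ, Ioo (0 : ℝ) a ∩ Ioi 0 = Ioo 0 a := by
      intro a
      ext l
      simp only [mem_inter_iff, mem_Ioo, mem_Ioi]
      tauto
    rw [lintegral_add_left (by
      refine Measurable.indicator ?_ measurableSet_Ioo
      fun_prop), lintegral_indicator measurableSet_Ioo, lintegral_indicator measurableSet_Ioo,
      Measure.restrict_restrict measurableSet_Ioo, Measure.restrict_restrict measurableSet_Ioo, hms, hms,
      speed_int1, speed_int2 hM hε, ← ENNReal.ofReal_add (by positivity) (by positivity)]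
  rw [← hlc] at hr
  have hmin : ∀ p : ℝ × ℝ, min ((p.1 - p.2) ^ 2) ((M * t) ^ 2) = t ^ 2 * (min (|p.1 - p.2| / t) M) ^ 2 :=
    fun p => speed_min_sq ht hM
  simp only [hmin]
  rw [integral_const_mul, mul_comm (π ^ 2 / 3 + ε * M ^ 2)]
  refine mul_le_mul_of_nonneg_left ?_ (by positivity)
  rw [integral_eq_lintegral_of_nonneg_ae (Eventually.of_forall fun p => by positivity) (by fun_prop)]
  exact ENNReal.toReal_le_of_le_ofReal (by positivity) hr

end Pool.Agent.SNL63
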