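import Pool.Agent.SNL63.TeGeo
import Pool.Agent.SNL63.TeProb
import Pool.Agent.SNL63.TeExc
import Pool.Agent.SNL63.TeSpeed
import Pool.Agent.SNL63.LlFin
import Pool.Agent.SNL63.EnFin

/-!
# The truncated energy at small times controls everything
-/

namespace Pool.Agent.SNL63

open Pool.Agent.SN8 MeasureTheory Set Filter Topology
open scoped ENNReal Real NNReal

/-- exponentially small probabilities -/
theorem small_or {f g : ℕ → ℝ}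
    (hf : ∃ c₁ > (0 : ℝ), ∃ c₂ > (0 : ℝ), ∀ n : ℕ, 2 ≤ n → f n ≤ c₁ * Real.exp (-c₂ * (n : ℝ) ^ 2))
    (hg : ∃ c₁ > (0 : ℝ), ∃ c₂ > (0 : ℝ), ∀ n : ℕ, 2 ≤ n → g n ≤ c₁ * Real.exp (-c₂ * (n : ℝ) ^ 2)) :
    ∃ c₁ > (0 : ℝ), ∃ c₂ > (0 : ℝ), ∀ n : ℕ, 2 ≤ n → f n + g n ≤ c₁ * Real.exp (-c₂ * (n : ℝ) ^ 2) := by
  obtain ⟨a₁, ha₁, a₂, ha₂, hf⟩ := hf
  obtain ⟨b₁, hb₁, b₂, hb₂, hg⟩ := hg
  refine ⟨a₁ + b₁, by positivity, min a₂ b₂, lt_min ha₂ hb₂, fun n hn => ?_⟩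
  have h0 : (0 : ℝ) ≤ (n : ℝ) ^ 2 := by positivity
  have h1 : Real.exp (-a₂ * (n : ℝ) ^ 2) ≤ Real.exp (-(min a₂ b₂) * (n : ℝ) ^ 2) := by
    apply Real.exp_le_exp.2
    nlinarith [min_le_left a₂ b₂]
  have h2 : Real.exp (-b₂ * (n : ℝ) ^ 2) ≤ Real.exp (-(min a₂ b₂) * (n : ℝ) ^ 2) := by
    apply Real.exp_le_exp.2
    nlinarith [min_le_right a₂ b₂]
  have h3 := mul_le_mul_of_nonneg_left h1 ha₁.le
  have h4 := mul_le_mul_of_nonneg_left h2 hb₁.le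
  rw [add_mul]
  linarith [hf n hn, hg n hn]

/-- a sequence of networks with almost minimal truncated energies which are in the events `E` -/
theorem bad_seq2 {E : ℕ → List ℕ → Prop}
    (h7 : ∀ ε > (0 : ℝ), ∀ M > (0 : ℝ), ∀ t₀ > (0 : ℝ), ∃ t ∈ Ioo (0 : ℝ) t₀, ∃ c₁ > (0 : ℝ), ∃ c₂ > (0 : ℝ),
      ∀ n : ℕ, 2 ≤ n →
      prob n (fun k => (π ^ 2 / 3 + ε) * t ^ 2 < ∫ p, min ((p.1 - p.2) ^ 2) ((M * t) ^ 2) ∂(eta n k t)) ≤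
        c₁ * Real.exp (-c₂ * (n : ℝ) ^ 2))
    (hE : ¬ ∃ c₁ > (0 : ℝ), ∃ c₂ > (0 : ℝ), ∀ n : ℕ, 2 ≤ n →
      prob n (E n) ≤ c₁ * Real.exp (-c₂ * (n : ℝ) ^ 2)) :
    ∃ (n : ℕ → ℕ) (k : ℕ → List ℕ) (t e c δ : ℕ → ℝ), Tendsto n atTop atTop ∧ (∀ J, IsNetwork (n J) (k J)) ∧
      (∀ J, 2 ≤ n J) ∧ (∀ J, 0 < t J) ∧ Tendsto t atTop (𝓝 0) ∧ (∀ J, 0 ≤ e J) ∧ Tendsto e atTop (𝓝 0) ∧
      Tendsto δ atTop (𝓝 0) ∧ (∀ J, 0 ≤ c J) ∧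
      Tendsto (fun J => (n J : ℝ) * t J) atTop atTop ∧
      (∀ J, ∀ i : ℕ, i + sw_ (n J) (t J) ≤ (n J).choose 2 →
        TE (n J) (k J) (c J) i (i + sw_ (n J) (t J)) ≤ (π ^ 2 / 3 + e J) * t J ^ 2) ∧
      (∀ J, ∀ i : ℕ, i + sw_ (n J) (t J) ≤ (n J).choose 2 →
        XE (n J) (k J) (c J) i (i + sw_ (n J) (t J)) ≤ δ J * t J) ∧
      ∀ J, E (n J) (k J) := by
  obtain ⟨A, hA, hexc⟩ := exc_small llog
  have step : ∀ J : ℕ, ∃ (n : ℕ) (k : List ℕ) (t : ℝ), 0 < t ∧ t ≤ 1 / ((J : ℝ) + 1) ∧ J + 2 ≤ n ∧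
      (J : ℝ) ≤ n * t ∧ IsNetwork n k ∧
      (∀ i : ℕ, i + sw_ n t ≤ n.choose 2 →
        TE n k (((J : ℝ) + 1) * t) i (i + sw_ n t) ≤ (π ^ 2 / 3 + 1 / ((J : ℝ) + 1)) * t ^ 2) ∧
      (∀ i : ℕ, i + sw_ n t ≤ n.choose 2 →
        XE n k (((J : ℝ) + 1) * t) i (i + sw_ n t) ≤ A * t / Real.log (1 + ((J : ℝ) + 1))) ∧
      E n k := by
    intro J
    obtain ⟨t, ht, h1⟩ := h7 (1 / ((J : ℝ) + 1)) (by positivity) ((J : ℝ) + 1) (by positivity)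
      (1 / ((J : ℝ) + 1)) (by positivity)
    have ht1 : t ≤ 1 := ht.2.le.trans (by
      rw [div_le_one (by positivity)]
      linarith [Nat.cast_nonneg (α := ℝ) J])
    have h2 := hexc t ⟨ht.1, ht1⟩
    by_contra hcon
    push Not at hcon
    refine hE ?_
    -- the probability of `E` is small
    have h3 : ∃ c₁ > (0 : ℝ), ∃ c₂ > (0 : ℝ), ∀ n : ℕ, 2 ≤ n →
        prob n (fun k => ∃ i : ℕ, i + sw_ n t ≤ n.choose 2 ∧
          (π ^ 2 / 3 + 1 / ((J : ℝ) + 1)) * t ^ 2 < TE n k (((J : ℝ) + 1) * t) i (i + sw_ n t)) ≤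
        c₁ * Real.exp (-c₂ * (n : ℝ) ^ 2) := by
      refine exp_of_sq (n₀ := 2) (g := fun n => prob n (fun k => (π ^ 2 / 3 + 1 / ((J : ℝ) + 1)) * t ^ 2 <
        ∫ p, min ((p.1 - p.2) ^ 2) ((((J : ℝ) + 1) * t) ^ 2) ∂(eta n k t))) (fun n => prob_le_one n _)
        (fun n hn => prob_shift2 hn _ _ ⟨ht.1.le, ht1⟩) h1
    obtain ⟨c₁, hc₁, c₂, hc₂, h4⟩ := small_or h3 h2
    refine const_of_ge (n₀ := max (J + 2) ⌈(J : ℝ) / t⌉₊) (fun n => prob_le_one n _) hc₁ hc₂ fun n hn => ?_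
    have hn1 : J + 2 ≤ n := (le_max_left _ _).trans hn
    have hn2 : (J : ℝ) / t ≤ n := (Nat.le_ceil _).trans (by exact_mod_cast (le_max_right _ _).trans hn)
    rw [div_le_iff₀ ht.1] at hn2
    refine le_trans ?_ (h4 n (by omega))
    refine le_trans (prob_mono fun k hk hEk => ?_) (prob_or_le n _ _)
    by_contra hc
    rw [not_or] at hc
    obtain ⟨hc1, hc2⟩ := hc
    push Not at hc1 hc2
    refine hcon n k t ht.1 ht.2.le hn1 hn2 hk hc1 (fun i hi => hc2 i hi ((J : ℝ) + 1) (by positivity)) hEk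
  choose n k t h1 h2 h3 h4 h5 h6 h7 h8 using step
  have hz : Tendsto (fun J : ℕ => 1 / ((J : ℝ) + 1)) atTop (𝓝 0) := tendsto_one_div_add_atTop_nhds_zero_nat
  refine ⟨n, k, t, fun J => 1 / ((J : ℝ) + 1), fun J => ((J : ℝ) + 1) * t J,
    fun J => A / Real.log (1 + ((J : ℝ) + 1)), ?_, h5, fun J => ?_, h1, ?_, fun J => by positivity, hz, ?_,
    fun J => ?_, ?_, h6, fun J i hi => ?_, h8⟩
  · exact tendsto_atTop_mono (fun J => (Nat.le_add_right J 2).trans (h3 J)) tendsto_id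
  · have := h3 J
    omega
  · exact squeeze_zero (fun J => (h1 J).le) h2 hz
  · have e1 : Tendsto (fun J : ℕ => 1 + ((J : ℝ) + 1)) atTop atTop :=
      tendsto_atTop_add_const_left _ _ (tendsto_atTop_add_const_right _ _ tendsto_natCast_atTop_atTop)
    exact (Real.tendsto_log_atTop.comp e1).const_div_atTop A
  · have := h1 J
    positivity
  · exact tendsto_atTop_mono h4 tendsto_natCast_atTop_atTop
  · have := h7 J i hi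
    rw [div_mul_eq_mul_div]
    exact this

end Pool.Agent.SNL63
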