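import Pool.Agent.SNL63.EGW

/-!
The law of large numbers, with speed `n²`, for the letters of the last `s` places of a random
sorting network, tested against `1 / (ζ - u)`.
-/

namespace Pool.Agent.SNL63

open Pool.Agent.SN8 MeasureTheory Set Filter Topology
open scoped ENNReal Real

/-- the sum of `g` over the rescaled contents of the last new cells -/
noncomputable def csum (g : ℝ → ℝ) (n m : ℕ) (k : List ℕ) : ℝ :=
  (((stp [] k).drop m).map (fun p => g (((p.2 : ℝ) - 1 - p.1) / n))).sum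

lemma red_word_append {n : ℕ} {a : List ℕ} {x : ℕ} (ha : Red n (a ++ [x])) :
    Red n (word (tab a) ++ [x]) := by
  obtain ⟨b1, b2, b3, b4⟩ := tab_spec ha.left
  apply ha.congr
  · intro j hj
    rw [List.mem_append] at hj
    rcases hj with hj | hj
    · exact ha.1 j (by simp [b4 j hj])
    · exact ha.1 j (by rw [List.mem_append]; exact Or.inr hj)
  · rw [P_append, P_append, b2]
  · simp [b3]

lemma one_letter {n s : ℕ} {g : ℝ → ℝ} (hg : ∀ u ∈ Icc (-1 : ℝ) 1, ∀ v ∈ Icc (-1 : ℝ) 1,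
    |g u - g v| ≤ |u - v|) {a : List ℕ} {x : ℕ} (ha : Red n (a ++ [x]))
    (hs : n.choose 2 ≤ a.length + s) :
    |g (2 * (x : ℝ) / n - 1) - g ((((shp (tab a) (idx (tab a) x) + 1 : ℕ) : ℝ) - 1 -
      (idx (tab a) x : ℕ)) / n)| ≤ √(2 * s) / n := by
  obtain ⟨b1, b2, b3, b4⟩ := tab_spec ha.left
  have hr := red_word_append ha
  obtain ⟨c1, c2⟩ := cell_letter b1 hr
  have hd := depth_le b1 hr
  rw [b3] at hd
  set i := idx (tab a) x
  set q := shp (tab a) i
  have hn : (0 : ℝ) < n := by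
    have : 0 < n := by omega
    exact_mod_cast this
  have e1 : ((q + 1 : ℕ) : ℝ) ≤ x := by exact_mod_cast c1
  have e2 : (x : ℝ) + i + 1 ≤ n := by exact_mod_cast c2
  push_cast at e1 ⊢
  have hq0 : (0 : ℝ) ≤ q := Nat.cast_nonneg _
  have hi0 : (0 : ℝ) ≤ i := Nat.cast_nonneg _
  have hdn : (((n - 2 - i - q : ℕ) : ℝ)) = (n : ℝ) - 2 - i - q := by
    rw [Nat.cast_sub (by omega), Nat.cast_sub (by omega), Nat.cast_sub (by omega)]
    push_cast; ring
  have hd2 : ((n : ℝ) - 2 - i - q) ^ 2 ≤ 2 * s := by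
    rw [← hdn]
    have : (n - 2 - i - q) ^ 2 ≤ 2 * s := hd.trans (by omega)
    exact_mod_cast this
  have hd3 : (n : ℝ) - 2 - i - q ≤ √(2 * s) := Real.le_sqrt_of_sq_le hd2
  refine (hg _ ?_ _ ?_).trans ?_
  · constructor
    · have : 0 ≤ 2 * (x : ℝ) / n := by positivity
      linarith
    · have : 2 * (x : ℝ) / n ≤ 2 := by
        rw [div_le_iff₀ hn]; linarith
      linarith
  · constructor
    · rw [le_div_iff₀ hn]; linarith
    · rw [div_le_iff₀ hn]; linarith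
  · have h1 : 2 * (x : ℝ) / n - 1 - ((q : ℝ) + 1 - 1 - i) / n = (2 * x - n - (q - i)) / n := by
      field_simp
      ring
    rw [h1, abs_div, abs_of_pos hn]
    apply div_le_div_of_nonneg_right _ hn.le
    refine le_trans (abs_le.mpr ⟨?_, ?_⟩) hd3 <;> linarith

theorem letters_vs_cells {n s : ℕ} {g : ℝ → ℝ} (hg : ∀ u ∈ Icc (-1 : ℝ) 1, ∀ v ∈ Icc (-1 : ℝ) 1,
    |g u - g v| ≤ |u - v|) {k : List ℕ} (hk : IsNetwork n k) (hs : s ≤ n.choose 2) :
    |ssum g n (k.drop (n.choose 2 - s)) - csum g n (n.choose 2 - s) k| ≤ s * (√(2 * s) / n) := by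
  have hlen : k.length = n.choose 2 := hk.1
  have hr := red_of_network hk
  have key : ∀ r : ℕ, r ≤ s →
      |ssum g n ((k.take (n.choose 2 - s + r)).drop (n.choose 2 - s)) -
        csum g n (n.choose 2 - s) (k.take (n.choose 2 - s + r))| ≤ r * (√(2 * s) / n) := by
    intro r
    induction r with
    | zero =>
      intro _
      have h1 : (k.take (n.choose 2 - s + 0)).drop (n.choose 2 - s) = [] := by
        apply List.drop_of_length_le; simp
      have h2 : (stp [] (k.take (n.choose 2 - s + 0))).drop (n.choose 2 - s) = [] := by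
        apply List.drop_of_length_le; rw [stp_length]; simp
      rw [h1, csum, h2]
      simp [ssum]
    | succ r ih =>
      intro hr'
      have ih := ih (by omega)
      set m := n.choose 2 - s with hm
      have hj : m + r < k.length := by omega
      have htake : k.take (m + (r + 1)) = k.take (m + r) ++ [k[m + r]] := by
        rw [← add_assoc, List.take_add_one, List.getElem?_eq_getElem hj]
        rfl
      have hla : (k.take (m + r)).length = m + r := by simp; omega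
      have hra : Red n (k.take (m + r) ++ [k[m + r]]) := by
        rw [← htake]
        have : Red n (k.take (m + (r + 1)) ++ k.drop (m + (r + 1))) := by
          rw [List.take_append_drop]; exact hr
        exact this.left
      have h1 := one_letter (s := s) hg hra (by omega)
      rw [htake]
      set a := k.take (m + r)
      set x := k[m + r]
      have e1 : ssum g n ((a ++ [x]).drop m) = ssum g n (a.drop m) + g (2 * (x : ℝ) / n - 1) := by
        rw [List.drop_append_of_le_length (by omega)]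
        simp [ssum]
      have e2 : csum g n m (a ++ [x]) = csum g n m a +
          g ((((shp (tab a) (idx (tab a) x) + 1 : ℕ) : ℝ) - 1 - (idx (tab a) x : ℕ)) / n) := by
        rw [csum, csum, stp_nil_append, List.drop_append_of_le_length (by rw [stp_length]; omega)]
        simp
      rw [e1, e2]
      have e3 : ssum g n (a.drop m) + g (2 * (x : ℝ) / n - 1) - (csum g n m a +
          g ((((shp (tab a) (idx (tab a) x) + 1 : ℕ) : ℝ) - 1 - (idx (tab a) x : ℕ)) / n)) =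
          (ssum g n (a.drop m) - csum g n m a) + (g (2 * (x : ℝ) / n - 1) -
          g ((((shp (tab a) (idx (tab a) x) + 1 : ℕ) : ℝ) - 1 - (idx (tab a) x : ℕ)) / n)) := by
        ring
      rw [e3]
      refine (abs_add_le _ _).trans ?_
      push_cast at h1 ih ⊢
      linarith
  have h := key s le_rfl
  have h2 : n.choose 2 - s + s = k.length := by omega
  rw [h2, List.take_length] at h
  exact h

/-- exponential Markov inequality over the networks -/
lemma exp_markov {n s : ℕ} {g : ℝ → ℝ} {θ m y : ℝ} (hs : s ≤ n.choose 2)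
    (hBW : BW n (fun i c => Real.exp (θ * g (((c : ℝ) - 1 - i) / n))) s (n.choose 2 - s) (stair n) ≤
      Real.exp (s * (θ * m + θ ^ 2)) * F n (n.choose 2) (stair n)) :
    (({k | IsNetwork n k ∧ y ≤ θ * csum g n (n.choose 2 - s) k} : Set (List ℕ)).ncard : ℝ) ≤
      Real.exp (-y + s * (θ * m + θ ^ 2)) * nets n := by
  classical
  obtain ⟨h1, h2, h3⟩ := T0_tab n
  have hw := fib_weight (fun i c => Real.exp (θ * g (((c : ℝ) - 1 - i) / n))) s
    (k := n.choose 2 - s) h1 h2 (by omega)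
  rw [shp_T0] at hw
  have hfin := fib_finite n (stT 0 (n - 1))
  rw [finsum_mem_eq_finite_toFinset_sum _ hfin] at hw
  have hwt : ∀ k, wt (fun i c => Real.exp (θ * g (((c : ℝ) - 1 - i) / n))) (n.choose 2 - s) k =
      Real.exp (θ * csum g n (n.choose 2 - s) k) := by
    intro k
    rw [wt, csum, ← List.sum_map_mul_left, Real.exp_list_sum, List.map_map]
    rfl
  have hset : ({k | IsNetwork n k ∧ y ≤ θ * csum g n (n.choose 2 - s) k} : Set (List ℕ)) =
      ((hfin.toFinset.filter (fun k => y ≤ θ * csum g n (n.choose 2 - s) k) : Finset (List ℕ)) :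
        Set (List ℕ)) := by
    ext k
    simp [net_iff]
  rw [hset, Set.ncard_coe_finset]
  have h4 : ((hfin.toFinset.filter (fun k => y ≤ θ * csum g n (n.choose 2 - s) k)).card : ℝ) *
      Real.exp y ≤ Real.exp (s * (θ * m + θ ^ 2)) * F n (n.choose 2) (stair n) := by
    refine le_trans ?_ hBW
    rw [← hw, ← nsmul_eq_mul, ← Finset.sum_const]
    calc ∑ _i ∈ hfin.toFinset.filter (fun k => y ≤ θ * csum g n (n.choose 2 - s) k), Real.exp y
        ≤ ∑ k ∈ hfin.toFinset.filter (fun k => y ≤ θ * csum g n (n.choose 2 - s) k),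
          Real.exp (θ * csum g n (n.choose 2 - s) k) := by
          apply Finset.sum_le_sum
          intro k hk
          exact Real.exp_le_exp.mpr (Finset.mem_filter.mp hk).2
      _ ≤ ∑ k ∈ hfin.toFinset, Real.exp (θ * csum g n (n.choose 2 - s) k) := by
          apply Finset.sum_le_sum_of_subset_of_nonneg (Finset.filter_subset _ _)
          intro k _ _
          exact (Real.exp_pos _).le
      _ = _ := Finset.sum_congr rfl fun k _ => (hwt k).symm
  rw [nets_eq]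
  rw [Real.exp_add, Real.exp_neg, mul_assoc, inv_mul_eq_div, le_div_iff₀ (Real.exp_pos _)]
  exact h4

lemma gz_lip {ζ : ℝ} (hζ : 2 ≤ ζ) : ∀ u ∈ Icc (-1 : ℝ) 1, ∀ v ∈ Icc (-1 : ℝ) 1,
    |gz ζ u - gz ζ v| ≤ |u - v| := by
  intro u hu v hv
  have h1 : 1 ≤ ζ - u := by linarith [hu.2]
  have h2 : 1 ≤ ζ - v := by linarith [hv.2]
  have h3 : gz ζ u - gz ζ v = (u - v) / ((ζ - u) * (ζ - v)) := by
    rw [gz, gz]
    have : ζ - u ≠ 0 := by linarith
    have : ζ - v ≠ 0 := by linarith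
    field_simp
    ring
  have h4 : 1 ≤ (ζ - u) * (ζ - v) := by nlinarith
  rw [h3, abs_div, abs_of_pos (by linarith : (0 : ℝ) < (ζ - u) * (ζ - v))]
  exact div_le_self (abs_nonneg _) h4

lemma gz_mem {ζ : ℝ} (hζ : 2 ≤ ζ) : ∀ u ∈ Icc (-1 : ℝ) 1, 0 ≤ gz ζ u ∧ gz ζ u ≤ 1 := by
  intro u hu
  have h1 : 1 ≤ ζ - u := by linarith [hu.2]
  rw [gz]
  constructor
  · positivity
  · rw [div_le_one (by linarith)]; exact h1

lemma gz_cont {ζ : ℝ} (hζ : 2 ≤ ζ) : ContinuousOn (gz ζ) (Icc (-1) 1) := by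
  apply ContinuousOn.div continuousOn_const (by fun_prop)
  intro u hu
  have h1 : 1 ≤ ζ - u := by linarith [hu.2]
  linarith

lemma side_arith {s κ e M mn C σ x : ℝ} (hσ2 : σ * σ = 1) (he0 : 0 < e) (hs0 : 0 ≤ s)
    (hd : σ * (mn - M) ≤ e / 4) (hκ3 : C * κ ≤ e / 4) (hs3 : κ * x / 8 ≤ s)
    (hbig : 256 ≤ κ * e ^ 2 * x) :
    -(s * (σ * (e / 4) * M + e ^ 2 / 4)) + s * (σ * (e / 4) * (mn + σ * (C * κ)) +
        (σ * (e / 4)) ^ 2) ≤ -(κ * e ^ 2 / 256) * x - Real.log 2 := by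
  have h3 : -(s * (σ * (e / 4) * M + e ^ 2 / 4)) + s * (σ * (e / 4) * (mn + σ * (C * κ)) +
        (σ * (e / 4)) ^ 2) = s * (e / 4 * (σ * (mn - M)) + (σ * σ) * (e / 4) * (C * κ) +
          (σ * σ) * (e / 4) ^ 2 - e ^ 2 / 4) := by ring
  have h5 : e / 4 * (σ * (mn - M)) + (σ * σ) * (e / 4) * (C * κ) +
        (σ * σ) * (e / 4) ^ 2 - e ^ 2 / 4 ≤ -(e ^ 2 / 16) := by
    rw [hσ2]
    have h6 : e / 4 * (σ * (mn - M)) ≤ e / 4 * (e / 4) :=
      mul_le_mul_of_nonneg_left hd (by positivity)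
    have h7 : e / 4 * (C * κ) ≤ e / 4 * (e / 4) := mul_le_mul_of_nonneg_left hκ3 (by positivity)
    nlinarith
  have h7 : s * (e / 4 * (σ * (mn - M)) + (σ * σ) * (e / 4) * (C * κ) +
      (σ * σ) * (e / 4) ^ 2 - e ^ 2 / 4) ≤ s * (-(e ^ 2 / 16)) :=
    mul_le_mul_of_nonneg_left h5 hs0
  have h8 : κ * x / 8 * (e ^ 2 / 16) ≤ s * (e ^ 2 / 16) :=
    mul_le_mul_of_nonneg_right hs3 (by positivity)
  have h9 : Real.log 2 ≤ 1 := by linarith [Real.log_two_lt_d9]
  rw [h3]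
  nlinarith

theorem win_zeta_of
    (hW : ∀ {g : ℝ → ℝ}, ContinuousOn g (Icc (-1) 1) →
      Tendsto (fun n : ℕ => hmean n (stair n) g / (n.choose 2 : ℝ)) atTop (𝓝 (∫ u, g u ∂semi)))
    (hB : ∀ {ζ : ℝ}, 2 ≤ ζ → ∃ C > (0 : ℝ), ∀ κ : ℝ, 0 < κ → κ ≤ 1 / 2 → ∀ n k : ℕ, 3 ≤ n →
      ∀ lam : ℕ → ℕ, Shape n lam → (∀ i, lam i ≤ n - 1 - i) → ∑ i ∈ Finset.range n, lam i = k →
        ((n.choose 2 : ℝ) - k) ≤ κ * (n.choose 2 : ℝ) →
          |hmean n lam (gz ζ) - k * (hmean n (stair n) (gz ζ) / (n.choose 2 : ℝ))| ≤ C * κ * k)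
    (hC : ∀ {n s k : ℕ} {g : ℝ → ℝ} {θ m : ℝ}, (∀ u ∈ Icc (-1 : ℝ) 1, 0 ≤ g u ∧ g u ≤ 1) →
      |θ| ≤ 1 → s + k = n.choose 2 →
      (∀ (k' : ℕ) (lam : ℕ → ℕ), Shape n lam → (∀ i, lam i ≤ n - 1 - i) →
        ∑ i ∈ Finset.range n, lam i = k' → k ≤ k' → θ * hmean n lam g ≤ θ * m * k') →
      BW n (fun i c => Real.exp (θ * g (((c : ℝ) - 1 - i) / n))) s k (stair n) ≤
        Real.exp (s * (θ * m + θ ^ 2)) * F n (n.choose 2) (stair n))
    {ζ : ℝ} (hζ : 2 ≤ ζ) : Win (gz ζ) := by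
  intro ε hε
  obtain ⟨C, hC0, hB⟩ := hB hζ
  obtain ⟨e, he0, he1, heε⟩ : ∃ e : ℝ, 0 < e ∧ e ≤ 1 / 2 ∧ 2 * e ≤ ε :=
    ⟨min ε 1 / 2, by positivity, by have := min_le_right ε 1; linarith,
      by have := min_le_left ε 1; linarith⟩
  refine ⟨min (1 / 2) (min (e ^ 2) (e / (4 * C))), by positivity, ?_⟩
  intro κ hκ0 hκ
  have hκ1 : κ ≤ 1 / 2 := hκ.trans (min_le_left _ _)
  have hκ2 : κ ≤ e ^ 2 := hκ.trans ((min_le_right _ _).trans (min_le_left _ _))
  have hκ3 : C * κ ≤ e / 4 := by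
    have : κ ≤ e / (4 * C) := hκ.trans ((min_le_right _ _).trans (min_le_right _ _))
    rw [le_div_iff₀ (by positivity)] at this
    linarith
  clear hκ
  generalize hM : ∫ u, gz ζ u ∂semi = M at *
  have hlim := hW (gz_cont hζ)
  rw [hM, Metric.tendsto_atTop] at hlim
  obtain ⟨n₁, hn₁⟩ := hlim (e / 4) (by positivity)
  obtain ⟨n₂, hn₂⟩ := exists_nat_ge (256 / (κ * e ^ 2))
  refine ⟨κ * e ^ 2 / 256, by positivity, max n₁ (max n₂ 3), ?_⟩
  intro n hn s hs1 hs2
  have hn1 : n₁ ≤ n := le_trans (le_max_left _ _) hn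
  have hn2 : n₂ ≤ n := le_trans ((le_max_left _ _).trans (le_max_right _ _)) hn
  have hn3 : 3 ≤ n := le_trans ((le_max_right _ _).trans (le_max_right _ _)) hn
  clear hn
  have hn3' : (3 : ℝ) ≤ n := by exact_mod_cast hn3
  have hn0 : (0 : ℝ) < n := by linarith
  have hbig : 256 ≤ κ * e ^ 2 * (n : ℝ) ^ 2 := by
    have h1 : 256 / (κ * e ^ 2) ≤ n := hn₂.trans (by exact_mod_cast hn2)
    rw [div_le_iff₀ (by positivity)] at h1
    have h2 : (n : ℝ) ≤ (n : ℝ) ^ 2 := by nlinarith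
    have h3 : (n : ℝ) * (κ * e ^ 2) ≤ (n : ℝ) ^ 2 * (κ * e ^ 2) :=
      mul_le_mul_of_nonneg_right h2 (by positivity)
    linarith
  have hN : (n.choose 2 : ℝ) = n * (n - 1) / 2 := Nat.cast_choose_two ℝ n
  have hN1 : (n : ℝ) ^ 2 / 4 ≤ (n.choose 2 : ℝ) := by rw [hN]; nlinarith
  have hN2 : 2 * (n.choose 2 : ℝ) ≤ (n : ℝ) ^ 2 := by rw [hN]; nlinarith
  have hκn : 256 ≤ κ * (n : ℝ) ^ 2 := by
    have h1 : e ^ 2 ≤ 1 := by nlinarith
    have h2 : κ * e ^ 2 * (n : ℝ) ^ 2 ≤ κ * 1 * (n : ℝ) ^ 2 := by gcongr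
    linarith
  have hs3 : κ * (n : ℝ) ^ 2 / 8 ≤ s := by
    have : κ * ((n : ℝ) ^ 2 / 4) ≤ κ * (n.choose 2 : ℝ) := mul_le_mul_of_nonneg_left hN1 hκ0.le
    linarith
  have hsN : s ≤ n.choose 2 := by
    have h1 : κ * (n.choose 2 : ℝ) ≤ 1 * (n.choose 2 : ℝ) := by gcongr; linarith
    have : (s : ℝ) ≤ (n.choose 2 : ℝ) := by linarith
    exact_mod_cast this
  have hs0 : (0 : ℝ) ≤ s := Nat.cast_nonneg _
  have hsq : √(2 * s) / n ≤ e := by
    rw [div_le_iff₀ hn0]
    apply Real.sqrt_le_iff.mpr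
    refine ⟨by positivity, ?_⟩
    have h1 : 2 * (s : ℝ) ≤ κ * (n : ℝ) ^ 2 := by
      have : κ * (2 * (n.choose 2 : ℝ)) ≤ κ * (n : ℝ) ^ 2 := mul_le_mul_of_nonneg_left hN2 hκ0.le
      linarith
    have h2 : κ * (n : ℝ) ^ 2 ≤ e ^ 2 * (n : ℝ) ^ 2 := by gcongr
    rw [mul_pow]; linarith
  have hdist := hn₁ n hn1
  rw [Real.dist_eq] at hdist
  have hB' := hB κ hκ0 hκ1 n
  generalize hmn : hmean n (stair n) (gz ζ) / (n.choose 2 : ℝ) = mn at *
  -- one side
  have side : ∀ σ : ℝ, (σ = 1 ∨ σ = -1) →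
      (({k | IsNetwork n k ∧ s * (σ * (e / 4) * M + e ^ 2 / 4) ≤
        σ * (e / 4) * csum (gz ζ) n (n.choose 2 - s) k} : Set (List ℕ)).ncard : ℝ) ≤
        Real.exp (-(κ * e ^ 2 / 256) * (n : ℝ) ^ 2) / 2 * nets n := by
    intro σ hσ
    have hσ2 : σ * σ = 1 := by rcases hσ with rfl | rfl <;> norm_num
    have hσa : |σ| = 1 := by rcases hσ with rfl | rfl <;> simp
    have hθ : |σ * (e / 4)| ≤ 1 := by
      rw [abs_mul, hσa, abs_of_pos (by positivity)]; linarith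
    have h1 := hC (n := n) (s := s) (k := n.choose 2 - s) (g := gz ζ) (θ := σ * (e / 4))
      (m := mn + σ * (C * κ)) (gz_mem hζ) hθ (by omega) (by
        intro k' lam hl1 hl2 hl3 hk'
        have hk1 : (n.choose 2 : ℝ) - k' ≤ κ * (n.choose 2 : ℝ) := by
          have : (n.choose 2 : ℝ) ≤ s + k' := by
            have : n.choose 2 ≤ s + k' := by omega
            exact_mod_cast this
          linarith
        have h2 := hB' k' hn3 lam hl1 hl2 hl3 hk1
        have h3 : σ * (hmean n lam (gz ζ) - k' * mn) ≤ C * κ * k' := by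
          refine le_trans (le_abs_self _) ?_
          rw [abs_mul, hσa, one_mul]
          exact h2
        have h4 : σ * (e / 4) * hmean n lam (gz ζ) =
            e / 4 * (σ * (hmean n lam (gz ζ) - k' * mn)) + σ * (e / 4) * mn * k' := by ring
        have h5 : σ * (e / 4) * (mn + σ * (C * κ)) * k' =
            σ * (e / 4) * mn * k' + (σ * σ) * (e / 4) * (C * κ * k') := by ring
        rw [h4, h5, hσ2]
        have h6 : e / 4 * (σ * (hmean n lam (gz ζ) - k' * mn)) ≤ e / 4 * (C * κ * k') :=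
          mul_le_mul_of_nonneg_left h3 (by positivity)
        linarith)
    have h2 := exp_markov (y := s * (σ * (e / 4) * M + e ^ 2 / 4)) hsN h1
    refine h2.trans ?_
    apply mul_le_mul_of_nonneg_right _ (Nat.cast_nonneg _)
    have h4 : σ * (mn - M) ≤ e / 4 := by
      refine le_trans (le_abs_self _) ?_
      rw [abs_mul, hσa, one_mul]; exact hdist.le
    have h6 := side_arith hσ2 he0 hs0 h4 hκ3 hs3 hbig
    calc Real.exp _ ≤ Real.exp (-(κ * e ^ 2 / 256) * (n : ℝ) ^ 2 - Real.log 2) :=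
          Real.exp_le_exp.mpr h6
      _ = _ := by rw [Real.exp_sub, Real.exp_log (by norm_num)]
  have hfin : ∀ Q : List ℕ → Prop, ({k | IsNetwork n k ∧ Q k} : Set (List ℕ)).Finite := by
    intro Q
    refine (fib_finite n (stT 0 (n - 1))).subset ?_
    rintro k ⟨hk, _⟩
    exact (net_iff n k).mp hk
  have hsub : ({k | IsNetwork n k ∧ ε * s < |ssum (gz ζ) n (k.drop (n.choose 2 - s)) - s * M|} :
      Set (List ℕ)) ⊆
      {k | IsNetwork n k ∧ s * ((1 : ℝ) * (e / 4) * M + e ^ 2 / 4) ≤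
        (1 : ℝ) * (e / 4) * csum (gz ζ) n (n.choose 2 - s) k} ∪
      {k | IsNetwork n k ∧ s * ((-1 : ℝ) * (e / 4) * M + e ^ 2 / 4) ≤
        (-1 : ℝ) * (e / 4) * csum (gz ζ) n (n.choose 2 - s) k} := by
    rintro k ⟨hk, hk2⟩
    have h1 := letters_vs_cells (gz_lip hζ) hk hsN
    have h2 : (s : ℝ) * (√(2 * s) / n) ≤ s * e := mul_le_mul_of_nonneg_left hsq hs0
    have h3 : 2 * e * s ≤ ε * s := mul_le_mul_of_nonneg_right heε hs0
    have h4 := abs_le.mp (h1.trans h2)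
    rcases le_total 0 (ssum (gz ζ) n (k.drop (n.choose 2 - s)) - s * M) with h5 | h5
    · left
      refine ⟨hk, ?_⟩
      rw [abs_of_nonneg h5] at hk2
      nlinarith [h4.1, h4.2]
    · right
      refine ⟨hk, ?_⟩
      rw [abs_of_nonpos h5] at hk2
      nlinarith [h4.1, h4.2]
  have h1 := side 1 (Or.inl rfl)
  have h2 := side (-1) (Or.inr rfl)
  have h3 : (({k | IsNetwork n k ∧ ε * s < |ssum (gz ζ) n (k.drop (n.choose 2 - s)) - s * M|} :
      Set (List ℕ)).ncard : ℝ) ≤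
      (({k | IsNetwork n k ∧ s * ((1 : ℝ) * (e / 4) * M + e ^ 2 / 4) ≤
        (1 : ℝ) * (e / 4) * csum (gz ζ) n (n.choose 2 - s) k} : Set (List ℕ)).ncard : ℝ) +
      (({k | IsNetwork n k ∧ s * ((-1 : ℝ) * (e / 4) * M + e ^ 2 / 4) ≤
        (-1 : ℝ) * (e / 4) * csum (gz ζ) n (n.choose 2 - s) k} : Set (List ℕ)).ncard : ℝ) := by
    have h4 := (Set.ncard_le_ncard hsub ((hfin _).union (hfin _))).trans (Set.ncard_union_le _ _)
    exact_mod_cast h4
  calc _ ≤ _ := h3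
    _ ≤ Real.exp (-(κ * e ^ 2 / 256) * (n : ℝ) ^ 2) / 2 * nets n +
        Real.exp (-(κ * e ^ 2 / 256) * (n : ℝ) ^ 2) / 2 * nets n := add_le_add h1 h2
    _ = _ := by ring

end Pool.Agent.SNL63
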